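import Pool.Agent.Helper49.RD.Gauge
import Pool.Agent.Helper49.DX.Wd
import Pool.Agent.Helper49.DX.Ct
import Pool.Agent.Helper49.DX.Exc

/-!
Block RD-MX: sides of the interface and heights (deterministic lemmas, reflection).

`ω ∈ confs (box N M) (eta 0)`, `0 ≤ N`, `1 ≤ M`.
Paper proofs. The interface bonds of the column `x` are the `((x, y), false)` with `ig = 1`, all with `-M ≤ y ≤ M` (others are not broken). `gg (x, y) = ∑_{y ≤ y' ≤ M} ig ((x, y'), false)`; `gg (x, -M) = 1` (`gg_low`).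
* `gg_above`: `gg (x, c) = 1` implies that some `ig ((x, y), false) = 1`, `y ≥ c`.
* `above_gg`: `Above N x c` gives an interface bond `((x, y), false)`, `y ≥ c`; not `Wide L`: all interface bonds of the column are at heights `> y - L ≥ c - L`, so `gg (x, z) = gg (x, -M) = 1` for all `z ≤ c - L` (the `ig` between are `0`; for `z < -M` as well: `gg_low`).
* `gg_zero_below`: `gg (x, z) = 0` for some `z ≤ 0`, not `Wide L`: there is an interface bond of the column below `z` (as `gg (x, -M) = 1 ≠ gg (x, z)`), so all interface bonds of the column are at heights `< z + L`; thus `gg (x, z') = 0` for all `z' ≥ z + L`.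
* `not_mixed`: let no plaquette `(x, 0)`, `|x| ≤ K`, be touched by the interface. Then `gg (x, 1)` is the same for all `|x| ≤ K` (`gg_hor` at height `1`: the bond `((x, 1), true)` is a side of the plaquette `(x, 0)`). From `gg (x, c) = 1`: `gg_above`, `above_gg`: `gg (x, 1) = 1` as `1 ≤ c - L`. From `gg (x', 1 - c') = 0`:
  `gg_zero_below` with `z = 1 - c'`: `gg (x', 1) = 0` as `1 ≥ 1 - c' + L`. Contradiction.
* `refl_gg`: `avg_rf` (`DL/Deloc.lean`) and `gg_rf` (`DL/Comp.lean`): `gg (rf ω) (x, 1 - y) + gg ω (x, y) = 1`: `bar (x, y) = (x, 1 - y)`. The map `ω ↦ rf ω` exchanges the two events.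
-/

open Finset
open scoped Classical

namespace Pool.Agent.Helper49.RD

open Pool.Agent.Helper49.DL Pool.Agent.Helper49.DX

section

variable {N M : ℤ} {ω : Cfg} (hω : ω ∈ confs (box N M) (eta 0)) (hN : 0 ≤ N) (hM : 1 ≤ M)

private theorem ig_ne73 {b : Bond} (h : ig N ω b ≠ 0) : Interface N ω b := by
  by_contra h'
  exact h (if_neg h')

theorem gg_above {x c : ℤ} (hg : gg N M ω (x, c) = 1) : Above N x c ω := by
  have h1 : gg N M ω (x, c) ≠ 0 := by rw [hg]; exact one_ne_zero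
  obtain ⟨y, hy, h2⟩ := Finset.exists_ne_zero_of_sum_ne_zero h1
  rw [Finset.mem_Icc] at hy
  exact ⟨y, hy.1, ig_ne73 h2⟩

include hω hN hM

private theorem gg_step73 {x y : ℤ} (k : ℕ) (h : ∀ w, y ≤ w → w < y + k → ¬ Interface N ω ((x, w), false)) :
    gg N M ω (x, y) = gg N M ω (x, y + k) := by
  induction k with
  | zero => simp
  | succ k ih =>
    rw [ih fun w h1 h2 => h w h1 (by push_cast; omega), gg_vert hω (by omega) x (y + k)]
    rw [show ig N ω ((x, y + (k : ℤ)), false) = 0 from if_neg (h _ (by omega) (by push_cast; omega)), zero_add]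
    push_cast
    rw [add_assoc]

private theorem gg_one73 {x z : ℤ} (h : ∀ w, w < z → ¬ Interface N ω ((x, w), false)) : gg N M ω (x, z) = 1 := by
  have hl : gg N M ω (x, min z (-M)) = 1 := by
    refine gg_low hω hN hM ?_ ?_
    · rw [mem_box]
      simp only
      omega
    · simp only
      omega
  have h2 := gg_step73 hω hN hM (x := x) (y := min z (-M)) (z - min z (-M)).toNat fun w _ hw => h w (by omega)
  rw [hl] at h2
  rw [show min z (-M) + ((z - min z (-M)).toNat : ℤ) = z by omega] at h2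
  exact h2.symm

theorem above_gg {x c L : ℤ} (hA : Above N x c ω) (hW : ¬ Wide N ω L) {z : ℤ} (hz : z ≤ c - L) :
    gg N M ω (x, z) = 1 := by
  obtain ⟨y, hy, hI⟩ := hA
  refine gg_one73 hω hN hM fun w hw h => hW ⟨_, _, h, hI, rfl, ?_⟩
  simp only
  omega

theorem gg_zero_below {x z L : ℤ} (hz : z ≤ 0) (hg : gg N M ω (x, z) = 0) (hW : ¬ Wide N ω L) {z' : ℤ}
    (hz' : z + L ≤ z') : gg N M ω (x, z') = 0 := by
  by_cases h : ∀ w, w < z → ¬ Interface N ω ((x, w), false)
  · rw [gg_one73 hω hN hM h] at hg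
    exact absurd hg one_ne_zero
  push Not at h
  obtain ⟨w, hw, hI⟩ := h
  refine Finset.sum_eq_zero fun y hy => if_neg fun h' => hW ⟨((x, w), false), ((x, y), false), hI, h', rfl, ?_⟩
  rw [Finset.mem_Icc] at hy
  simp only at hy ⊢
  omega

private theorem gg_row73 {K x : ℤ} (hno : ∀ y : ℤ, |y| ≤ K → ¬ On N ω (y, 0)) (k : ℕ) (hx : -K ≤ x) (hk : x + k ≤ K) :
    gg N M ω (x, 1) = gg N M ω (x + k, 1) := by
  induction k with
  | zero => simp
  | succ k ih =>
    rw [ih (by push_cast at hk; omega)]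
    have h1 := gg_hor hω (by omega) (x + k) 1
    have h2 : ig N ω ((x + (k : ℤ), 1), true) = 0 := by
      refine if_neg fun h => hno (x + k) (abs_le.2 ⟨by omega, by push_cast at hk; omega⟩)
        ⟨_, Or.inr (Or.inr (Or.inr ?_)), h⟩
      simp [e2]
    rw [h2] at h1
    rw [zeq h1]
    push_cast
    rw [add_assoc]

private theorem gg_row73' {K x x' : ℤ} (hno : ∀ y : ℤ, |y| ≤ K → ¬ On N ω (y, 0)) (hx : |x| ≤ K) (hx' : |x'| ≤ K) :
    gg N M ω (x, 1) = gg N M ω (x', 1) := by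
  rw [abs_le] at hx hx'
  rcases le_total x x' with h | h
  · have h1 := gg_row73 hω hN hM hno (x := x) (x' - x).toNat hx.1 (by omega)
    rwa [show x + ((x' - x).toNat : ℤ) = x' by omega] at h1
  · have h1 := gg_row73 hω hN hM hno (x := x') (x - x').toNat hx'.1 (by omega)
    rw [show x' + ((x - x').toNat : ℤ) = x by omega] at h1
    exact h1.symm

theorem not_mixed {K L x x' c c' : ℤ} (hno : ∀ y : ℤ, |y| ≤ K → ¬ On N ω (y, 0)) (hW : ¬ Wide N ω L)
    (hx : |x| ≤ K) (hx' : |x'| ≤ K) (hc : L + 1 ≤ c) (hc' : L + 1 ≤ c') (hL : 0 ≤ L)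
    (h1 : gg N M ω (x, c) = 1) (h2 : gg N M ω (x', 1 - c') = 0) : False := by
  have h3 := above_gg hω hN hM (gg_above h1) hW (z := 1) (by omega)
  have h4 := gg_zero_below hω hN hM (by omega) h2 hW (z' := 1) (by omega)
  rw [gg_row73' hω hN hM hno hx hx', h4] at h3
  exact zero_ne_one h3

end

theorem refl_gg {n : ℕ} (hn : 1 ≤ n) (β J : ℝ) (r : List (ℤ × ℤ))
    (hr : ∀ a ∈ r, |a.1| ≤ n ∧ 1 ≤ a.2 ∧ a.2 ≤ n) :
    PJ β J n (fun ω => ∀ a ∈ r, gg n n ω (a.1, a.2) = 0 ∧ gg n n ω (a.1, 1 - a.2) = 0) =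
      PJ β J n (fun ω => ∀ a ∈ r, gg n n ω (a.1, a.2) = 1 ∧ gg n n ω (a.1, 1 - a.2) = 1) := by
  unfold PJ
  refine Eq.trans (avg_congr fun ω hω => ?_) (avg_rf (N := n) (show (1 : ℤ) ≤ n by omega) β J _)
  have h3 : ∀ u v : ZMod 2, u + v = 1 → (u = 1 ↔ v = 0) := by decide
  have key : (∀ a ∈ r, gg n n ω (a.1, a.2) = 0 ∧ gg n n ω (a.1, 1 - a.2) = 0) ↔
      ∀ a ∈ r, gg n n (rf ω) (a.1, a.2) = 1 ∧ gg n n (rf ω) (a.1, 1 - a.2) = 1 := by
    refine forall₂_congr fun a ha => ?_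
    obtain ⟨hx, h1, h2⟩ := hr a ha
    rw [abs_le] at hx
    have g1 := gg_rf hω (by omega) (by omega) (i := (a.1, a.2)) (by rw [mem_box]; simp only; omega)
    have g2 := gg_rf hω (by omega) (by omega) (i := (a.1, 1 - a.2)) (by rw [mem_box]; simp only; omega)
    simp only [bar, sub_sub_cancel] at g1 g2
    rw [h3 _ _ g1, h3 _ _ g2, and_comm]
  by_cases hk : ∀ a ∈ r, gg n n ω (a.1, a.2) = 0 ∧ gg n n ω (a.1, 1 - a.2) = 0
  · rw [if_pos hk, if_pos (key.1 hk)]
  · rw [if_neg hk, if_neg (fun h => hk (key.2 h))]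

end Pool.Agent.Helper49.RD
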