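import Pool.Agent.Helper49.RD.HkDef

/-!
Definitions for the limiting finite dimensional distributions.
-/

namespace Pool.Agent.Helper49.RD

/-- Indicator of `[h, ∞)`. -/
noncomputable def ind (h z : ℝ) : ℝ := if h ≤ z then 1 else 0

/-- Iterated integral for the times `1 + s i` and the multipliers `φ i`. -/
noncomputable def Fe (g : ℝ) (p : ℕ) (s : Fin p → ℝ) (φ : Fin p → ℝ → ℝ) : ℝ :=
  Ml g (List.ofFn (fun i => (1 + s i, φ i)))

end Pool.Agent.Helper49.RD

namespace Pool.Agent.Helper49.PL

open Pool.Agent.Helper49.RD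

/-- The limiting probability that the value at the time `s i` is at least `b i` for all `i`. -/
noncomputable def FF (g : ℝ) (p : ℕ) (s b : Fin p → ℝ) : ℝ :=
  (Fe g p s (fun i z => ind (b i) z) + Fe g p s (fun i z => ind (b i) (-z))) / (2 * Fe g p s (fun _ _ => 1))

end Pool.Agent.Helper49.PL
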