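import Pool.Agent.Helper49.RD.Hk1

/-!
Block RD-HK2: continuity and iterated kernels (pure analysis).

Paper proofs. `v > 0` throughout.
* `tv_cz`: `Tv v f 0 = 0` (`hk v 0 z = 0`); continuity by dominated convergence (for `|y| ≤ R`: `|hk v y z| ≤ (exp (-((y - z)²/(2v))) + exp (-((y + z)²/(2v))))/√(2πv)`, and `(y ± z)² ≥ z²/2 - R²`, a Gaussian in `z`; `f` bounded on `(0, ∞)`); at infinity: for
  `z ≤ y/2`: `∫_{0 < z ≤ y/2} hk ≤ ∫_{x ≥ y/2} exp (-x²/2v)/√(2πv) → 0`, for `z > y/2` `|f z| ≤ sup_{z > y/2} |f| → 0` and the mass of `hk` is at most `1` (`tv_le` for the function restricted to `z > y/2`).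
* `cz_bz`: a continuous function with a limit at infinity is bounded on `[0, ∞)`. `rho_cz`: clear. `mul_bz`: clear.
* `bl_cz`: induction on the list with `tv_cz`; `φ` bounded by `1` and measurable.
* `ml_split`: by induction on `pre`: linearity (`tv_lin`, `la_lin`). It is convenient to prove first that
  `Bl g s' (pre ++ (s, χ) :: suf)` is the linear combination of the functions, pointwise, for all `s'` (only the values of the multipliers on `(0, ∞)` matter).
* `ml_pos`: multipliers `1` on `(0, ∞)`: all functions are positive on `(0, ∞)` (`hk v y z > 0` and `rho v z > 0` for `y, z > 0`).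
-/

open Set Filter MeasureTheory

namespace Pool.Agent.Helper49.RD

section aux42

private lemma hk_cont_42 (v : ℝ) (z : ℝ) : Continuous (fun y => hk v y z) := by
  unfold hk
  fun_prop

private lemma hk_contz_42 (v : ℝ) (y : ℝ) : Continuous (fun z => hk v y z) := by
  unfold hk
  fun_prop

private lemma hk_bound_42 {v : ℝ} (hv : 0 < v) {R y : ℝ} (hy : |y| ≤ R) (z : ℝ) :
    |hk v y z| ≤ 2 * Real.exp (R ^ 2 / (2 * v)) / Real.sqrt (2 * Real.pi * v) *
      Real.exp (-(1 / (4 * v)) * z ^ 2) := by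
  have hR : y ^ 2 ≤ R ^ 2 := by
    rw [← sq_abs y]
    exact pow_le_pow_left₀ (abs_nonneg _) hy 2
  have hs : 0 < Real.sqrt (2 * Real.pi * v) := Real.sqrt_pos.2 (by positivity)
  have key : ∀ x : ℝ, z ^ 2 / 2 - R ^ 2 ≤ x ^ 2 → Real.exp (-(x ^ 2 / (2 * v))) ≤
      Real.exp (R ^ 2 / (2 * v)) * Real.exp (-(1 / (4 * v)) * z ^ 2) := by
    intro x hx
    rw [← Real.exp_add]
    apply Real.exp_le_exp.2
    have e : R ^ 2 / (2 * v) + -(1 / (4 * v)) * z ^ 2 = -((z ^ 2 / 2 - R ^ 2) / (2 * v)) := by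
      field_simp
      ring
    rw [e, neg_le_neg_iff]
    exact div_le_div_of_nonneg_right hx (by positivity)
  have h1 := key (y - z) (by nlinarith [sq_nonneg (z - 2 * y)])
  have h2 := key (y + z) (by nlinarith [sq_nonneg (z + 2 * y)])
  have h3 : |Real.exp (-((y - z) ^ 2 / (2 * v))) - Real.exp (-((y + z) ^ 2 / (2 * v)))| ≤
      2 * (Real.exp (R ^ 2 / (2 * v)) * Real.exp (-(1 / (4 * v)) * z ^ 2)) := by
    rw [abs_le]
    have h4 := Real.exp_pos (-((y - z) ^ 2 / (2 * v)))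
    have h5 := Real.exp_pos (-((y + z) ^ 2 / (2 * v)))
    constructor <;> linarith
  unfold hk
  rw [abs_div, abs_of_pos hs, div_le_iff₀ hs]
  refine h3.trans (le_of_eq ?_)
  field_simp

private lemma hk_int_42 {v : ℝ} (hv : 0 < v) {f : ℝ → ℝ} (hf : Measurable f) {B : ℝ}
    (hB : ∀ z, 0 < z → |f z| ≤ B) (y : ℝ) : IntegrableOn (fun z => hk v y z * f z) (Ioi 0) := by
  have hb : (0 : ℝ) < 1 / (4 * v) := by positivity
  have h1 : IntegrableOn (fun z : ℝ => 2 * Real.exp (|y| ^ 2 / (2 * v)) / Real.sqrt (2 * Real.pi * v) * B *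
      Real.exp (-(1 / (4 * v)) * z ^ 2)) (Ioi 0) :=
    ((integrable_exp_neg_mul_sq hb).const_mul _).integrableOn
  refine Integrable.mono' h1 ?_ ?_
  · exact ((hk_contz_42 v y).measurable.mul hf).aestronglyMeasurable
  · refine (ae_restrict_iff' measurableSet_Ioi).2 (Eventually.of_forall fun z hz => ?_)
    rw [Real.norm_eq_abs, abs_mul]
    have h2 := hk_bound_42 hv (le_refl |y|) z
    have h3 := hB z hz
    have h4 : 0 ≤ 2 * Real.exp (|y| ^ 2 / (2 * v)) / Real.sqrt (2 * Real.pi * v) *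
        Real.exp (-(1 / (4 * v)) * z ^ 2) := by positivity
    calc |hk v y z| * |f z| ≤ _ := mul_le_mul h2 h3 (abs_nonneg _) h4
      _ = _ := by ring

private lemma rho_int_42 {v : ℝ} (hv : 0 < v) {f : ℝ → ℝ} (hf : Measurable f) {B : ℝ}
    (hB : ∀ z, 0 < z → |f z| ≤ B) : IntegrableOn (fun z => rho v z * f z) (Ioi 0) := by
  have hb : (0 : ℝ) < 1 / (2 * v) := by positivity
  have h1 : IntegrableOn (fun z : ℝ => 1 / (Real.sqrt (Real.pi / 2) * (v * Real.sqrt v)) * B *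
      (z * Real.exp (-(1 / (2 * v)) * z ^ 2))) (Ioi 0) :=
    ((integrable_mul_exp_neg_mul_sq hb).const_mul _).integrableOn
  refine Integrable.mono' h1 ?_ ?_
  · have hr : Measurable (rho v) := by
      unfold rho
      fun_prop
    exact (hr.mul hf).aestronglyMeasurable
  · refine (ae_restrict_iff' measurableSet_Ioi).2 (Eventually.of_forall fun z hz => ?_)
    have hz0 : (0 : ℝ) < z := hz
    rw [Real.norm_eq_abs, abs_mul]
    have h2 : |rho v z| = 1 / (Real.sqrt (Real.pi / 2) * (v * Real.sqrt v)) *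
        (z * Real.exp (-(1 / (2 * v)) * z ^ 2)) := by
      have h3 : 0 ≤ rho v z := by
        unfold rho
        positivity
      rw [abs_of_nonneg h3]
      unfold rho
      have e : -(z ^ 2 / (2 * v)) = -(1 / (2 * v)) * z ^ 2 := by ring
      rw [e]
      ring
    rw [h2]
    have h3 := hB z hz
    have h4 : 0 ≤ 1 / (Real.sqrt (Real.pi / 2) * (v * Real.sqrt v)) *
        (z * Real.exp (-(1 / (2 * v)) * z ^ 2)) := by positivity
    calc _ ≤ 1 / (Real.sqrt (Real.pi / 2) * (v * Real.sqrt v)) *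
        (z * Real.exp (-(1 / (2 * v)) * z ^ 2)) * B := mul_le_mul_of_nonneg_left h3 h4
      _ = _ := by ring

private lemma tv_congr_42 {v : ℝ} {f g : ℝ → ℝ} (h : ∀ z, 0 < z → f z = g z) (y : ℝ) :
    Tv v f y = Tv v g y := by
  unfold Tv
  exact setIntegral_congr_fun measurableSet_Ioi fun z hz => by
    rw [h z hz]

private lemma la_congr_42 {v : ℝ} {f g : ℝ → ℝ} (h : ∀ z, 0 < z → f z = g z) :
    La v f = La v g := by
  unfold La
  exact setIntegral_congr_fun measurableSet_Ioi fun z hz => by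
    rw [h z hz]

private lemma tv_cont_42 {v : ℝ} (hv : 0 < v) {f : ℝ → ℝ} (hf : Measurable f) {B : ℝ}
    (hB : ∀ z, 0 < z → |f z| ≤ B) : Continuous (Tv v f) := by
  have hb : (0 : ℝ) < 1 / (4 * v) := by positivity
  rw [continuous_iff_continuousAt]
  intro y₀
  have h1 : IntegrableOn (fun z : ℝ => 2 * Real.exp ((|y₀| + 1) ^ 2 / (2 * v)) /
      Real.sqrt (2 * Real.pi * v) * B * Real.exp (-(1 / (4 * v)) * z ^ 2)) (Ioi 0) :=
    ((integrable_exp_neg_mul_sq hb).const_mul _).integrableOn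
  have h2 : ContinuousAt (fun y => ∫ z in Ioi (0 : ℝ), hk v y z * f z) y₀ := by
    refine MeasureTheory.continuousAt_of_dominated (bound := fun z : ℝ =>
      2 * Real.exp ((|y₀| + 1) ^ 2 / (2 * v)) /
      Real.sqrt (2 * Real.pi * v) * B * Real.exp (-(1 / (4 * v)) * z ^ 2)) ?_ ?_ h1 ?_
    · exact Eventually.of_forall fun y => ((hk_contz_42 v y).measurable.mul hf).aestronglyMeasurable
    · have h3 : ∀ᶠ y in nhds y₀, |y| ≤ |y₀| + 1 := by
        have h4 : ContinuousAt (fun y : ℝ => |y|) y₀ := continuous_abs.continuousAt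
        have h5 := h4.eventually (gt_mem_nhds (show |y₀| < |y₀| + 1 by linarith))
        exact h5.mono fun y hy => le_of_lt hy
      filter_upwards [h3] with y hy
      refine (ae_restrict_iff' measurableSet_Ioi).2 (Eventually.of_forall fun z hz => ?_)
      rw [Real.norm_eq_abs, abs_mul]
      have h5 := hk_bound_42 hv hy z
      have h6 := hB z hz
      have h7 : 0 ≤ 2 * Real.exp ((|y₀| + 1) ^ 2 / (2 * v)) / Real.sqrt (2 * Real.pi * v) *
          Real.exp (-(1 / (4 * v)) * z ^ 2) := by positivity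
      calc |hk v y z| * |f z| ≤ _ := mul_le_mul h5 h6 (abs_nonneg _) h7
        _ = _ := by ring
    · exact Eventually.of_forall fun z => ((hk_cont_42 v z).mul continuous_const).continuousAt
  exact h2

private lemma tv_top_42 {v : ℝ} (hv : 0 < v) {f : ℝ → ℝ} (hf : Measurable f) {B : ℝ}
    (hB : ∀ z, 0 < z → |f z| ≤ B) (ht : Tendsto f atTop (nhds 0)) :
    Tendsto (Tv v f) atTop (nhds 0) := by
  have hs : 0 < Real.sqrt (2 * Real.pi * v) := Real.sqrt_pos.2 (by positivity)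
  have hB0 : 0 ≤ B := (abs_nonneg _).trans (hB 1 one_pos)
  rw [Metric.tendsto_atTop]
  intro ε hε
  obtain ⟨Z0, hZ0⟩ := Metric.tendsto_atTop.1 ht (ε / 2) (by linarith)
  set Z : ℝ := max Z0 1 with hZdef
  have hZ1 : 0 < Z := lt_of_lt_of_le one_pos (le_max_right _ _)
  -- the two parts
  have hf1m : Measurable (fun z => if z ≤ Z then f z else 0) :=
    Measurable.ite measurableSet_Iic hf measurable_const
  have hf2m : Measurable (fun z => if z ≤ Z then 0 else f z) :=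
    Measurable.ite measurableSet_Iic measurable_const hf
  have hf1b : ∀ z, 0 < z → |(if z ≤ Z then f z else 0)| ≤ B := by
    intro z hz
    split_ifs
    · exact hB z hz
    · rw [abs_zero]; exact hB0
  have hf2b : ∀ z, 0 < z → |(if z ≤ Z then 0 else f z)| ≤ B := by
    intro z hz
    split_ifs
    · rw [abs_zero]; exact hB0
    · exact hB z hz
  have hf2e : ∀ z, 0 < z → |(if z ≤ Z then 0 else f z)| ≤ ε / 2 := by
    intro z _
    split_ifs with h
    · rw [abs_zero]; linarith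
    · have h3 := hZ0 z (le_trans (le_max_left _ _) (le_of_lt (not_le.1 h)))
      rw [Real.dist_eq, sub_zero] at h3
      exact h3.le
  have hsplit : ∀ y, Tv v f y = Tv v (fun z => if z ≤ Z then f z else 0) y +
      Tv v (fun z => if z ≤ Z then 0 else f z) y := by
    intro y
    have h3 := tv_lin hv 1 1 hf1m hf2m hf1b hf2b y
    rw [one_mul, one_mul] at h3
    rw [← h3]
    refine tv_congr_42 (fun z _ => ?_) y
    split_ifs <;> ring
  -- the first part tends to zero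
  have hpart : ∀ y, Z ≤ y → |Tv v (fun z => if z ≤ Z then f z else 0) y| ≤
      Real.exp (-((y - Z) ^ 2 / (2 * v))) / Real.sqrt (2 * Real.pi * v) * B * Z := by
    intro y hy
    have e1 : Tv v (fun z => if z ≤ Z then f z else 0) y = ∫ z in Ioc 0 Z, hk v y z * f z := by
      unfold Tv
      have e2 : Ioc (0 : ℝ) Z = Ioi 0 ∩ Iic Z := by
        ext z; simp [mem_Ioc]
      rw [e2, ← setIntegral_indicator measurableSet_Iic]
      refine setIntegral_congr_fun measurableSet_Ioi fun z _ => ?_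
      simp only
      by_cases h : z ≤ Z
      · rw [if_pos h, indicator_of_mem (mem_Iic.2 h)]
      · rw [if_neg h, indicator_of_notMem (by simpa using h), mul_zero]
    rw [e1]
    have h4 : ∀ z ∈ Ioc (0 : ℝ) Z, ‖hk v y z * f z‖ ≤
        Real.exp (-((y - Z) ^ 2 / (2 * v))) / Real.sqrt (2 * Real.pi * v) * B := by
      intro z hz
      rw [Real.norm_eq_abs, abs_mul]
      refine mul_le_mul ?_ (hB z hz.1) (abs_nonneg _) (by positivity)
      have hy0 : 0 ≤ y := by linarith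
      have h5 := hk_nonneg hv hy0 hz.1.le
      rw [abs_of_nonneg h5]
      unfold hk
      refine div_le_div_of_nonneg_right ?_ hs.le
      have h6 : Real.exp (-((y - z) ^ 2 / (2 * v))) ≤ Real.exp (-((y - Z) ^ 2 / (2 * v))) := by
        apply Real.exp_le_exp.2
        rw [neg_le_neg_iff]
        refine div_le_div_of_nonneg_right ?_ (by positivity)
        have h7 : z ≤ Z := hz.2
        nlinarith
      have h8 := Real.exp_pos (-((y + z) ^ 2 / (2 * v)))
      linarith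
    have h9 := norm_setIntegral_le_of_norm_le_const (μ := volume) (s := Ioc (0 : ℝ) Z)
      (by rw [Real.volume_Ioc]; exact ENNReal.ofReal_lt_top) h4
    rw [Real.norm_eq_abs] at h9
    refine h9.trans (le_of_eq ?_)
    rw [Measure.real, Real.volume_Ioc, sub_zero, ENNReal.toReal_ofReal hZ1.le]
  have hlim : Tendsto (fun y : ℝ => Real.exp (-((y - Z) ^ 2 / (2 * v))) /
      Real.sqrt (2 * Real.pi * v) * B * Z) atTop (nhds 0) := by
    have h1 : Tendsto (fun y : ℝ => (y - Z) ^ 2 / (2 * v)) atTop atTop := by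
      refine Tendsto.atTop_div_const (by positivity) ?_
      exact (tendsto_pow_atTop two_ne_zero).comp (tendsto_atTop_add_const_right _ (-Z) tendsto_id)
    have h2 := Real.tendsto_exp_neg_atTop_nhds_zero.comp h1
    have h3 := ((h2.div_const (Real.sqrt (2 * Real.pi * v))).mul_const B).mul_const Z
    simpa using h3
  obtain ⟨Y, hY⟩ := Metric.tendsto_atTop.1 hlim (ε / 2) (by linarith)
  refine ⟨max Y Z, fun y hy => ?_⟩
  have hyY : Y ≤ y := le_trans (le_max_left _ _) hy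
  have hyZ : Z ≤ y := le_trans (le_max_right _ _) hy
  rw [Real.dist_eq, sub_zero, hsplit y]
  have h1 := hpart y hyZ
  have h2 := hY y hyY
  rw [Real.dist_eq, sub_zero] at h2
  have h3 := le_abs_self (Real.exp (-((y - Z) ^ 2 / (2 * v))) / Real.sqrt (2 * Real.pi * v) * B * Z)
  have h4 := tv_le hv hf2m hf2e (y := y) (by linarith)
  have h5 := abs_add_le (Tv v (fun z => if z ≤ Z then f z else 0) y)
    (Tv v (fun z => if z ≤ Z then 0 else f z) y)
  linarith

end aux42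

theorem tv_cz {v : ℝ} (hv : 0 < v) {f : ℝ → ℝ} (hf : Bz f) : Cz (Tv v f) := by
  obtain ⟨B, hB⟩ := hf.bdd
  have hB' : ∀ z, 0 < z → |f z| ≤ B := fun z hz => hB z hz.le
  refine ⟨tv_cont_42 hv hf.meas hB', ?_, tv_top_42 hv hf.meas hB' hf.top⟩
  unfold Tv
  have h : ∀ z, hk v 0 z * f z = 0 := by
    intro z
    unfold hk
    simp
  simp only [h]
  simp

theorem cz_bz {f : ℝ → ℝ} (hf : Cz f) : Bz f := by
  refine ⟨hf.cont.measurable, ?_, hf.top⟩
  obtain ⟨Z, hZ⟩ := Metric.tendsto_atTop.1 hf.top 1 one_pos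
  obtain ⟨C, hC⟩ := (isCompact_Icc (a := (0 : ℝ)) (b := max Z 0)).exists_bound_of_continuousOn
    hf.cont.continuousOn
  refine ⟨max C 1, fun z hz => ?_⟩
  by_cases h : z ≤ max Z 0
  · have h1 := hC z ⟨hz, h⟩
    rw [Real.norm_eq_abs] at h1
    exact h1.trans (le_max_left _ _)
  · have h1 := hZ z (le_trans (le_max_left _ _) (le_of_lt (not_le.1 h)))
    rw [Real.dist_eq, sub_zero] at h1
    exact h1.le.trans (le_max_right _ _)

theorem rho_cz {v : ℝ} (hv : 0 < v) : Cz (rho v) := by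
  refine ⟨?_, ?_, ?_⟩
  · unfold rho
    fun_prop
  · unfold rho
    simp
  · have h1 : Tendsto (fun z : ℝ => (2 * v) * ((z ^ 2 / (2 * v)) ^ 1 * Real.exp (-(z ^ 2 / (2 * v)))) /
        (Real.sqrt (Real.pi / 2) * (v * Real.sqrt v))) atTop (nhds 0) := by
      have h2 : Tendsto (fun z : ℝ => z ^ 2 / (2 * v)) atTop atTop :=
        Tendsto.atTop_div_const (by positivity) (tendsto_pow_atTop two_ne_zero)
      have h3 := (Real.tendsto_pow_mul_exp_neg_atTop_nhds_zero 1).comp h2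
      have h4 := (h3.const_mul (2 * v)).div_const (Real.sqrt (Real.pi / 2) * (v * Real.sqrt v))
      simpa using h4
    refine squeeze_zero' ?_ ?_ h1
    · filter_upwards [eventually_ge_atTop (0 : ℝ)] with z hz
      unfold rho
      positivity
    · filter_upwards [eventually_ge_atTop (1 : ℝ)] with z hz
      unfold rho
      refine div_le_div_of_nonneg_right ?_ (by positivity)
      rw [pow_one, ← mul_assoc, mul_div_cancel₀ _ (by positivity : (2 * v) ≠ 0)]
      exact mul_le_mul_of_nonneg_right (by nlinarith) (Real.exp_pos _).le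

theorem mul_bz {φ f : ℝ → ℝ} (hφ : Measurable φ) (hφ1 : ∀ z, |φ z| ≤ 1) (hf : Cz f) : Bz (fun z => φ z * f z) := by
  obtain ⟨B, hB⟩ := (cz_bz hf).bdd
  refine ⟨hφ.mul hf.cont.measurable, ⟨B, fun z hz => ?_⟩, ?_⟩
  · rw [abs_mul]
    calc |φ z| * |f z| ≤ 1 * |f z| := mul_le_mul_of_nonneg_right (hφ1 z) (abs_nonneg _)
      _ ≤ B := by rw [one_mul]; exact hB z hz
  · refine squeeze_zero_norm (a := fun z => |f z|) (fun z => ?_) ?_
    · rw [Real.norm_eq_abs, abs_mul]
      calc |φ z| * |f z| ≤ 1 * |f z| := mul_le_mul_of_nonneg_right (hφ1 z) (abs_nonneg _)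
        _ = |f z| := one_mul _
    · simpa using hf.top.abs

theorem bl_cz {g : ℝ} (hg : 0 < g) (r : List (ℝ × (ℝ → ℝ))) (s : ℝ) (hr : Inc s r)
    (hφ : ∀ a ∈ r, Measurable a.2 ∧ ∀ z, |a.2 z| ≤ 1) : Cz (Bl g s r) := by
  induction r generalizing s with
  | nil =>
    have h : s < 2 := hr
    exact rho_cz (mul_pos hg (by linarith))
  | cons a r ih =>
    have h : s < a.1 ∧ Inc a.1 r := hr
    have h1 := ih a.1 h.2 (fun b hb => hφ b (List.mem_cons_of_mem _ hb))
    have h2 := hφ a List.mem_cons_self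
    exact tv_cz (mul_pos hg (by linarith [h.1])) (mul_bz h2.1 h2.2 h1)

private lemma inc_congr_42 (pre suf : List (ℝ × (ℝ → ℝ))) (s : ℝ) (φ ψ : ℝ → ℝ) (s' : ℝ)
    (h : Inc s' (pre ++ (s, φ) :: suf)) : Inc s' (pre ++ (s, ψ) :: suf) := by
  induction pre generalizing s' with
  | nil => exact h
  | cons a pre ih =>
    have h1 : s' < a.1 ∧ Inc a.1 (pre ++ (s, φ) :: suf) := h
    exact ⟨h1.1, ih a.1 h1.2⟩

private lemma mem_42 (pre suf : List (ℝ × (ℝ → ℝ))) (s : ℝ) (φ : ℝ → ℝ)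
    (hpre : ∀ a ∈ pre, Measurable a.2 ∧ ∀ z, |a.2 z| ≤ 1)
    (hsuf : ∀ a ∈ suf, Measurable a.2 ∧ ∀ z, |a.2 z| ≤ 1) (hφ : Measurable φ ∧ ∀ z, |φ z| ≤ 1) :
    ∀ a ∈ pre ++ (s, φ) :: suf, Measurable a.2 ∧ ∀ z, |a.2 z| ≤ 1 := by
  intro a ha
  rw [List.mem_append, List.mem_cons] at ha
  rcases ha with ha | ha | ha
  · exact hpre a ha
  · rw [ha]; exact hφ
  · exact hsuf a ha

private lemma bl_split_42 {g : ℝ} (hg : 0 < g) (pre suf : List (ℝ × (ℝ → ℝ))) (s : ℝ) (φ ψ χ : ℝ → ℝ)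
    (α γ : ℝ) (s' : ℝ)
    (hi : Inc s' (pre ++ (s, φ) :: suf)) (hpre : ∀ a ∈ pre, Measurable a.2 ∧ ∀ z, |a.2 z| ≤ 1)
    (hsuf : ∀ a ∈ suf, Measurable a.2 ∧ ∀ z, |a.2 z| ≤ 1) (hφ : Measurable φ ∧ ∀ z, |φ z| ≤ 1)
    (hψ : Measurable ψ ∧ ∀ z, |ψ z| ≤ 1) (h : ∀ z, 0 < z → χ z = α * φ z + γ * ψ z) (y : ℝ) :
    Bl g s' (pre ++ (s, χ) :: suf) y = α * Bl g s' (pre ++ (s, φ) :: suf) y +
      γ * Bl g s' (pre ++ (s, ψ) :: suf) y := by
  induction pre generalizing s' y with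
  | nil =>
    have hi' : s' < s ∧ Inc s suf := hi
    have hv : 0 < g * (s - s') := mul_pos hg (by linarith [hi'.1])
    have hz := bl_cz hg suf s hi'.2 hsuf
    have b1 := mul_bz hφ.1 hφ.2 hz
    have b2 := mul_bz hψ.1 hψ.2 hz
    obtain ⟨B1, hB1⟩ := b1.bdd
    obtain ⟨B2, hB2⟩ := b2.bdd
    have hl := tv_lin hv α γ b1.meas b2.meas (B := max B1 B2)
      (fun z hz => (hB1 z hz.le).trans (le_max_left _ _))
      (fun z hz => (hB2 z hz.le).trans (le_max_right _ _)) y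
    show Tv (g * (s - s')) (fun z => χ z * Bl g s suf z) y =
      α * Tv (g * (s - s')) (fun z => φ z * Bl g s suf z) y +
      γ * Tv (g * (s - s')) (fun z => ψ z * Bl g s suf z) y
    rw [← hl]
    refine tv_congr_42 (fun z hz => ?_) y
    rw [h z hz]
    ring
  | cons a pre ih =>
    have hi' : s' < a.1 ∧ Inc a.1 (pre ++ (s, φ) :: suf) := hi
    have hv : 0 < g * (a.1 - s') := mul_pos hg (by linarith [hi'.1])
    have hpre' : ∀ b ∈ pre, Measurable b.2 ∧ ∀ z, |b.2 z| ≤ 1 :=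
      fun b hb => hpre b (List.mem_cons_of_mem _ hb)
    have ha := hpre a List.mem_cons_self
    have z1 := bl_cz hg (pre ++ (s, φ) :: suf) a.1 hi'.2 (mem_42 pre suf s φ hpre' hsuf hφ)
    have z2 := bl_cz hg (pre ++ (s, ψ) :: suf) a.1 (inc_congr_42 pre suf s φ ψ a.1 hi'.2)
      (mem_42 pre suf s ψ hpre' hsuf hψ)
    have b1 := mul_bz ha.1 ha.2 z1
    have b2 := mul_bz ha.1 ha.2 z2
    obtain ⟨B1, hB1⟩ := b1.bdd
    obtain ⟨B2, hB2⟩ := b2.bdd
    have hl := tv_lin hv α γ b1.meas b2.meas (B := max B1 B2)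
      (fun z hz => (hB1 z hz.le).trans (le_max_left _ _))
      (fun z hz => (hB2 z hz.le).trans (le_max_right _ _)) y
    show Tv (g * (a.1 - s')) (fun z => a.2 z * Bl g a.1 (pre ++ (s, χ) :: suf) z) y =
      α * Tv (g * (a.1 - s')) (fun z => a.2 z * Bl g a.1 (pre ++ (s, φ) :: suf) z) y +
      γ * Tv (g * (a.1 - s')) (fun z => a.2 z * Bl g a.1 (pre ++ (s, ψ) :: suf) z) y
    rw [← hl]
    refine tv_congr_42 (fun z _ => ?_) y
    rw [ih a.1 hi'.2 hpre' z]
    ring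

theorem ml_split {g : ℝ} (hg : 0 < g) (pre suf : List (ℝ × (ℝ → ℝ))) (s : ℝ) (φ ψ χ : ℝ → ℝ) (α γ : ℝ)
    (hi : Inc 0 (pre ++ (s, φ) :: suf)) (hpre : ∀ a ∈ pre, Measurable a.2 ∧ ∀ z, |a.2 z| ≤ 1)
    (hsuf : ∀ a ∈ suf, Measurable a.2 ∧ ∀ z, |a.2 z| ≤ 1) (hφ : Measurable φ ∧ ∀ z, |φ z| ≤ 1)
    (hψ : Measurable ψ ∧ ∀ z, |ψ z| ≤ 1) (h : ∀ z, 0 < z → χ z = α * φ z + γ * ψ z) :
    Ml g (pre ++ (s, χ) :: suf) = α * Ml g (pre ++ (s, φ) :: suf) + γ * Ml g (pre ++ (s, ψ) :: suf) := by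
  cases pre with
  | nil =>
    have hi' : 0 < s ∧ Inc s suf := hi
    have hv : 0 < g * s := mul_pos hg hi'.1
    have hz := bl_cz hg suf s hi'.2 hsuf
    have b1 := mul_bz hφ.1 hφ.2 hz
    have b2 := mul_bz hψ.1 hψ.2 hz
    obtain ⟨B1, hB1⟩ := b1.bdd
    obtain ⟨B2, hB2⟩ := b2.bdd
    have hl := la_lin hv α γ b1.meas b2.meas (B := max B1 B2)
      (fun z hz => (hB1 z hz.le).trans (le_max_left _ _))
      (fun z hz => (hB2 z hz.le).trans (le_max_right _ _))
    show La (g * s) (fun z => χ z * Bl g s suf z) = α * La (g * s) (fun z => φ z * Bl g s suf z) +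
      γ * La (g * s) (fun z => ψ z * Bl g s suf z)
    rw [← hl]
    refine la_congr_42 (fun z hz => ?_)
    rw [h z hz]
    ring
  | cons a pre =>
    have hi' : 0 < a.1 ∧ Inc a.1 (pre ++ (s, φ) :: suf) := hi
    have hv : 0 < g * a.1 := mul_pos hg hi'.1
    have hpre' : ∀ b ∈ pre, Measurable b.2 ∧ ∀ z, |b.2 z| ≤ 1 :=
      fun b hb => hpre b (List.mem_cons_of_mem _ hb)
    have ha := hpre a List.mem_cons_self
    have z1 := bl_cz hg (pre ++ (s, φ) :: suf) a.1 hi'.2 (mem_42 pre suf s φ hpre' hsuf hφ)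
    have z2 := bl_cz hg (pre ++ (s, ψ) :: suf) a.1 (inc_congr_42 pre suf s φ ψ a.1 hi'.2)
      (mem_42 pre suf s ψ hpre' hsuf hψ)
    have b1 := mul_bz ha.1 ha.2 z1
    have b2 := mul_bz ha.1 ha.2 z2
    obtain ⟨B1, hB1⟩ := b1.bdd
    obtain ⟨B2, hB2⟩ := b2.bdd
    have hl := la_lin hv α γ b1.meas b2.meas (B := max B1 B2)
      (fun z hz => (hB1 z hz.le).trans (le_max_left _ _))
      (fun z hz => (hB2 z hz.le).trans (le_max_right _ _))
    show La (g * a.1) (fun z => a.2 z * Bl g a.1 (pre ++ (s, χ) :: suf) z) =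
      α * La (g * a.1) (fun z => a.2 z * Bl g a.1 (pre ++ (s, φ) :: suf) z) +
      γ * La (g * a.1) (fun z => a.2 z * Bl g a.1 (pre ++ (s, ψ) :: suf) z)
    rw [← hl]
    refine la_congr_42 (fun z _ => ?_)
    rw [bl_split_42 hg pre suf s φ ψ χ α γ a.1 hi'.2 hpre' hsuf hφ hψ h z]
    ring

private lemma setint_pos_42 {F : ℝ → ℝ} (hF : IntegrableOn F (Ioi 0)) (h : ∀ z, 0 < z → 0 < F z) :
    0 < ∫ z in Ioi (0 : ℝ), F z := by
  rw [setIntegral_pos_iff_support_of_nonneg_ae ?_ hF]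
  · have h1 : Function.support F ∩ Ioi 0 = Ioi 0 := by
      refine inter_eq_right.2 fun z hz => ?_
      exact (h z hz).ne'
    rw [h1, Real.volume_Ioi]
    exact ENNReal.zero_lt_top
  · exact (ae_restrict_iff' measurableSet_Ioi).2 (Eventually.of_forall fun z hz => (h z hz).le)

private lemma rho_pos_42 {v z : ℝ} (hv : 0 < v) (hz : 0 < z) : 0 < rho v z := by
  unfold rho
  have := Real.pi_pos
  positivity

private lemma hk_pos_42 {v y z : ℝ} (hv : 0 < v) (hy : 0 < y) (hz : 0 < z) : 0 < hk v y z := by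
  unfold hk
  refine div_pos (sub_pos.2 ?_) (Real.sqrt_pos.2 (by have := Real.pi_pos; positivity))
  apply Real.exp_lt_exp.2
  rw [neg_lt_neg_iff]
  refine div_lt_div_of_pos_right ?_ (by positivity)
  nlinarith [mul_pos hy hz]

private lemma bl_pos_42 {g : ℝ} (hg : 0 < g) (r : List (ℝ × (ℝ → ℝ))) (s : ℝ) (hi : Inc s r)
    (h : ∀ a ∈ r, ∀ z, 0 < z → a.2 z = 1) (hφ : ∀ a ∈ r, Measurable a.2 ∧ ∀ z, |a.2 z| ≤ 1) :
    ∀ z, 0 < z → 0 < Bl g s r z := by
  induction r generalizing s with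
  | nil =>
    intro z hz
    have h1 : s < 2 := hi
    exact rho_pos_42 (mul_pos hg (by linarith)) hz
  | cons a r ih =>
    intro y hy
    have hi' : s < a.1 ∧ Inc a.1 r := hi
    have hv : 0 < g * (a.1 - s) := mul_pos hg (by linarith [hi'.1])
    have hφ' : ∀ b ∈ r, Measurable b.2 ∧ ∀ z, |b.2 z| ≤ 1 := fun b hb => hφ b (List.mem_cons_of_mem _ hb)
    have ih' := ih a.1 hi'.2 (fun b hb => h b (List.mem_cons_of_mem _ hb)) hφ'
    have ha := hφ a List.mem_cons_self
    have b1 := mul_bz ha.1 ha.2 (bl_cz hg r a.1 hi'.2 hφ')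
    obtain ⟨B, hB⟩ := b1.bdd
    show 0 < Tv (g * (a.1 - s)) (fun z => a.2 z * Bl g a.1 r z) y
    unfold Tv
    refine setint_pos_42 (hk_int_42 hv b1.meas (fun z hz => hB z hz.le) y) fun z hz => ?_
    refine mul_pos (hk_pos_42 hv hy hz) ?_
    show 0 < a.2 z * Bl g a.1 r z
    rw [h a List.mem_cons_self z hz, one_mul]
    exact ih' z hz

theorem ml_pos {g : ℝ} (hg : 0 < g) (r : List (ℝ × (ℝ → ℝ))) (h0 : r ≠ []) (hi : Inc 0 r)
    (h : ∀ a ∈ r, ∀ z, 0 < z → a.2 z = 1) (hφ : ∀ a ∈ r, Measurable a.2 ∧ ∀ z, |a.2 z| ≤ 1) : 0 < Ml g r := by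
  cases r with
  | nil => exact absurd rfl h0
  | cons a r =>
    have hi' : 0 < a.1 ∧ Inc a.1 r := hi
    have hv : 0 < g * a.1 := mul_pos hg hi'.1
    have hφ' : ∀ b ∈ r, Measurable b.2 ∧ ∀ z, |b.2 z| ≤ 1 := fun b hb => hφ b (List.mem_cons_of_mem _ hb)
    have hp := bl_pos_42 hg r a.1 hi'.2 (fun b hb => h b (List.mem_cons_of_mem _ hb)) hφ'
    have ha := hφ a List.mem_cons_self
    have b1 := mul_bz ha.1 ha.2 (bl_cz hg r a.1 hi'.2 hφ')
    obtain ⟨B, hB⟩ := b1.bdd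
    show 0 < La (g * a.1) (fun z => a.2 z * Bl g a.1 r z)
    unfold La
    refine setint_pos_42 (rho_int_42 hv b1.meas (fun z hz => hB z hz.le)) fun z hz => ?_
    refine mul_pos (rho_pos_42 hv hz) ?_
    show 0 < a.2 z * Bl g a.1 r z
    rw [h a List.mem_cons_self z hz, one_mul]
    exact hp z hz

end Pool.Agent.Helper49.RD
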