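import Mathlib

/-!
Heat kernel on the half line: definitions.
-/

open Set Filter MeasureTheory

namespace Pool.Agent.Helper49.RD

/-- Entrance density. -/
noncomputable def rho (v z : ℝ) : ℝ := z * Real.exp (-(z ^ 2 / (2 * v))) / (Real.sqrt (Real.pi / 2) * (v * Real.sqrt v))

/-- Heat kernel of the half line with Dirichlet boundary condition. -/
noncomputable def hk (v y z : ℝ) : ℝ :=
  (Real.exp (-((y - z) ^ 2 / (2 * v))) - Real.exp (-((y + z) ^ 2 / (2 * v)))) / Real.sqrt (2 * Real.pi * v)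

/-- Heat semigroup of the half line. -/
noncomputable def Tv (v : ℝ) (f : ℝ → ℝ) (y : ℝ) : ℝ := ∫ z in Ioi (0 : ℝ), hk v y z * f z

/-- Boundary functional. -/
noncomputable def La (v : ℝ) (f : ℝ → ℝ) : ℝ := ∫ z in Ioi (0 : ℝ), rho v z * f z

/-- Sign at the level `h`. -/
noncomputable def chs (h z : ℝ) : ℝ := if z < h then -1 else 1

/-- Continuous functions vanishing at `0` and at infinity. -/
structure Cz (f : ℝ → ℝ) : Prop where
  cont : Continuous f
  zero : f 0 = 0
  top : Tendsto f atTop (nhds 0)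

/-- Measurable bounded functions vanishing at infinity. -/
structure Bz (f : ℝ → ℝ) : Prop where
  meas : Measurable f
  bdd : ∃ B : ℝ, ∀ z, 0 ≤ z → |f z| ≤ B
  top : Tendsto f atTop (nhds 0)

/-- Uniform convergence of functions on the strip of half height `n` in the diffusive scale. -/
def SupLim (u : ℕ → ℕ → ℝ) (U : ℝ → ℝ) : Prop :=
  ∀ ε : ℝ, 0 < ε → ∀ᶠ n : ℕ in atTop, ∀ y ≤ n, |u n y - U (y / Real.sqrt n)| ≤ ε

/-- Iterated kernels with multipliers `φ` at the times `s`, up to the time `2`. -/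
noncomputable def Bl (g : ℝ) : ℝ → List (ℝ × (ℝ → ℝ)) → ℝ → ℝ
  | s, [] => rho (g * (2 - s))
  | s, a :: r => Tv (g * (a.1 - s)) (fun z => a.2 z * Bl g a.1 r z)

/-- Iterated integrals. -/
noncomputable def Ml (g : ℝ) : List (ℝ × (ℝ → ℝ)) → ℝ
  | [] => 0
  | a :: r => La (g * a.1) (fun z => a.2 z * Bl g a.1 r z)

/-- The times `s < s₁ < ... < sₘ < 2` of a list. -/
def Inc : ℝ → List (ℝ × (ℝ → ℝ)) → Prop
  | s, [] => s < 2
  | s, a :: r => s < a.1 ∧ Inc a.1 r

end Pool.Agent.Helper49.RD
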