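import Pool.Agent.Helper49.DX.Row
import Pool.Agent.Helper49.DX.Gn

/-!
Definitions for the finite dimensional distributions of the interface: levels of symmetric profiles in
the strip, signs, main term.
-/

open Finset

namespace Pool.Agent.Helper49.RD

open Pool.Agent.Helper49.DL Pool.Agent.Helper49.DX

/-- Level profile on the upper half of the symmetric strip: coefficients after `k + 1` columns for the
source `E` after `L + 1` columns. -/
noncomputable def lev (t td : ℝ) (m L : ℕ) (E : ℕ → ℝ) (k y : ℕ) : ℝ :=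
  if h : m + y < 2 * m + 1 then
    (pqs t (xs t td m) (fun w => ∑ v, E (ds m v) * GS t (xs t td m) L v w) k).1 ⟨m + y, h⟩
  else 0

/-- All levels; the level `0` is the weighted output profile. -/
noncomputable def plev (t td : ℝ) (m L : ℕ) (E : ℕ → ℝ) : ℕ → ℕ → ℝ
  | 0 => fun y => (if y = 0 then td else t) * gsum t td m L E y
  | k + 1 => fun y => lev t td m L E k y

/-- The source in the middle row. -/
noncomputable def e0 (y : ℕ) : ℝ := if y = 0 then 1 else 0

/-- Pairing of symmetric profiles. -/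
noncomputable def pai (m : ℕ) (E F : ℕ → ℝ) : ℝ := ∑ v : Fin (2 * m + 1), E (ds m v) * F (ds m v)

/-- Sign of a string of half height `c`. -/
noncomputable def eps (c y : ℕ) : ℝ := if y < c then -1 else 1

/-- Variance of the limiting process. -/
noncomputable def sg (t : ℝ) : ℝ := 2 * lam t / (1 - lam t ^ 2)

/-- Levels of the main term for the strings `(l, c)` (gap `l`, half height `c`). -/
noncomputable def Bch (t td : ℝ) (m L : ℕ) : List (ℕ × ℕ) → ℕ → ℕ → ℝ
  | [] => fun k y => lev t td m L e0 k y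
  | a :: r => fun k y => lev t td m a.1 (fun z => eps a.2 z * Bch t td m L r a.1 z) k y

/-- The main term. -/
noncomputable def Mch (t td : ℝ) (m L : ℕ) : List (ℕ × ℕ) → ℝ
  | [] => gsum t td m L e0 0
  | a :: r => gsum t td m a.1 (fun z => eps a.2 z * Bch t td m L r a.1 z) 0

lemma ds_le (m : ℕ) (v : Fin (2 * m + 1)) : ds m v ≤ m := by
  have := v.2
  unfold ds
  omega

lemma eps_cases (c y : ℕ) : eps c y = 1 ∨ eps c y = -1 := by
  unfold eps
  split_ifs
  · exact Or.inr rfl
  · exact Or.inl rfl

lemma eps_abs (c y : ℕ) : |eps c y| = 1 := by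
  rcases eps_cases c y with h | h <;> rw [h] <;> norm_num

lemma eps_zero (y : ℕ) : eps 0 y = 1 := by
  unfold eps
  rw [if_neg (Nat.not_lt_zero y)]

lemma e0_nonneg (y : ℕ) : 0 ≤ e0 y := by
  unfold e0
  split_ifs <;> norm_num

lemma xs_pos {t td : ℝ} (ht : 0 < t) (htd : 0 < td) (m : ℕ) (j : Fin (2 * m + 1)) : 0 < xs t td m j := by
  unfold xs
  split_ifs <;> assumption

lemma xs_lt_one {t td : ℝ} (ht1 : t < 1) (htd1 : td < 1) (m : ℕ) (j : Fin (2 * m + 1)) :
    xs t td m j < 1 := by
  unfold xs
  split_ifs <;> assumption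

lemma ds_rev (m : ℕ) (j : Fin (2 * m + 1)) : ds m (Fin.rev j) = ds m j := by
  have hj := j.2
  unfold ds
  rw [Fin.val_rev]
  omega

lemma xs_rev (t td : ℝ) (m : ℕ) (j : Fin (2 * m + 1)) : xs t td m (Fin.rev j) = xs t td m j := by
  unfold xs
  by_cases h : (j : ℕ) = m
  · rw [if_pos h, if_pos (by rw [Fin.val_rev]; omega)]
  · rw [if_neg h, if_neg (by rw [Fin.val_rev]; omega)]

end Pool.Agent.Helper49.RD
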