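import Pool.Agent.Helper49.DX.Prof
import Pool.Agent.Helper49.DX.Gn

/-!
Transfer operators with weights depending on the gap. Definitions and first lemmas.
Columns are counted from the output side; the gap `k` is between the columns `k` and `k + 1`.
-/

open Finset

namespace Pool.Agent.Helper49.RD

open Pool.Agent.Helper49.DL Pool.Agent.Helper49.DX

variable {n : ℕ}

/-- Transfer through `L + 1` columns with weights `x k` in the gap `k`. -/
noncomputable def Xo (t : ℝ) (x : ℕ → Fin n → ℝ) : ℕ → (Col n → ℝ) → Col n → ℝ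
  | 0 => Wm t
  | L + 1 => fun Φ => Xo t x L (Vm (x L) (Wm t Φ))

/-- Transfer through the gaps `k, ..., k + d - 1` and the columns `k + 1, ..., k + d`. -/
noncomputable def Yo (t : ℝ) (x : ℕ → Fin n → ℝ) (k : ℕ) : ℕ → (Col n → ℝ) → Col n → ℝ
  | 0 => fun Φ => Φ
  | d + 1 => fun Φ => Yo t x k d (Vm (x (k + d)) (Wm t Φ))

/-- Coefficients after `k + 1` columns. -/
noncomputable def pqo (t : ℝ) (x : ℕ → Fin n → ℝ) (c : Fin n → ℝ) : ℕ → (Fin n → ℝ) × (Fin n → ℝ)
  | 0 => (wp t c (fun _ => 0), wq t c (fun _ => 0))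
  | k + 1 => (wp t (fun j => (pqo t x c k).1 j / x k j) (fun j => x k j * (pqo t x c k).2 j),
      wq t (fun j => (pqo t x c k).1 j / x k j) (fun j => x k j * (pqo t x c k).2 j))

/-- Correlation of the first and the last column. -/
noncomputable def GSo (t : ℝ) (x : ℕ → Fin n → ℝ) (L : ℕ) (u v : Fin n) : ℝ :=
  ip (fun c => sp (c v)) (Xo t x L (fun c => sp (c u))) / ip (fun _ => 1) (Xo t x L (fun _ => 1))

/-- Relation between creation and annihilation parts at the last of `k + 1` columns. -/
noncomputable def Rm (t : ℝ) (x : Fin n → ℝ) (k : ℕ) (l j : Fin n) : ℝ :=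
  (pqs t x (fun w => GS t x k j w) k).2 l

end Pool.Agent.Helper49.RD
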