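import Pool.Agent.Helper49.RD.Alg0

/-!
Block RD-A1: algebra of the transfer operators with gap dependent weights.

Paper proofs.
* `Xo_add`: induction on `d`.
* `Xo_congr`, `pqo_congr`, `Yo_congr`: induction.
* `Xo_const`: `prof_Xm_succ` (private in `DX/Prof.lean`, copy); `pqo_const`: induction; `GSo_const`: from these.
* `Xo_lin`, `Yo_lin`: the operators are linear (`Wm`, `Vm` are; finite linear combinations as in `prof_lin` of `DX/Prof.lean`).
* `opp_Xo`: `opp c 0 (Xo t x L Φ) = Xo t x L (opp p q Φ)`, `(p, q) = pqo t x c L`: induction on `L` with `opp_Wm`, `opp_Vm` (proof of `prof_comm` in `DX/Prof.lean`).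
* `opp_Yo`: `opp p_k q_k (Yo t x k d Φ) = Yo t x k d (opp p_{k+d} q_{k+d} Φ)`: induction on `d`.
* `gso_mul`: as `gs_mul` (`DX/Prof.lean`): `ip (sp (c w)) (opp c 0 Ψ) = c w * ip 1 Ψ` (`prof_ip`, private, copy) with `Ψ = Xo t x L 1`, `opp_Xo`, `an j 1 = 0`, `cr j 1 = sp (c j)`;
  only `ip 1 (Xo t x L 1) ≠ 0` and `x k j ≠ 0` are used.
* `pqo_prof`: as `profile` (`DX/Prof.lean`).
-/

open Finset

namespace Pool.Agent.Helper49.RD

open Pool.Agent.Helper49.DL Pool.Agent.Helper49.DX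

variable {n : ℕ}

private lemma oprof_Xm_succ (t : ℝ) (x : Fin n → ℝ) (L : ℕ) (Φ : Col n → ℝ) :
    Xm t x (L + 1) Φ = Xm t x L (Vm x (Wm t Φ)) := by
  induction L with
  | zero => rfl
  | succ L ih =>
    change Wm t (Vm x (Xm t x (L + 1) Φ)) = Wm t (Vm x (Xm t x L (Vm x (Wm t Φ))))
    rw [ih]

private lemma oprof_flt_flt (j : Fin n) (c : Col n) : flt j (flt j c) = c := by
  funext i
  unfold flt
  by_cases h : i < j
  · simp [h]
  · simp [h]

private lemma oprof_fle_fle (j : Fin n) (c : Col n) : fle j (fle j c) = c := by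
  funext i
  unfold fle
  by_cases h : i ≤ j
  · simp [h]
  · simp [h]

private lemma oprof_sum_flt (j : Fin n) (f : Col n → ℝ) : ∑ s, f (flt j s) = ∑ s, f s :=
  Equiv.sum_comp (Function.Involutive.toPerm (flt j) (oprof_flt_flt j)) f

private lemma oprof_sum_fle (j : Fin n) (f : Col n → ℝ) : ∑ s, f (fle j s) = ∑ s, f s :=
  Equiv.sum_comp (Function.Involutive.toPerm (fle j) (oprof_fle_fle j)) f

private lemma oprof_flt_ne {w j : Fin n} (h : w ≠ j) (s : Col n) : flt j s w = fle j s w := by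
  unfold flt fle
  by_cases h1 : w < j
  · rw [if_pos h1, if_pos h1.le]
  · rw [if_neg h1, if_neg]
    intro h2
    exact h1 (lt_of_le_of_ne h2 h)

private lemma oprof_flt_self (j : Fin n) (s : Col n) : flt j s j = s j := by
  unfold flt
  rw [if_neg (lt_irrefl _)]

private lemma oprof_fle_self (j : Fin n) (s : Col n) : fle j s j = !(s j) := by
  unfold fle
  rw [if_pos le_rfl]

private lemma oprof_cr (w j : Fin n) (Ψ : Col n → ℝ) :
    ∑ s, sp (s w) * cr j Ψ s = if w = j then ∑ s, Ψ s else 0 := by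
  have h1 : ∑ s, sp (s w) * (sp (s j) * Ψ (flt j s)) = ∑ s, sp (flt j s w) * (sp (s j) * Ψ s) := by
    rw [← oprof_sum_flt j (fun s => sp (flt j s w) * (sp (s j) * Ψ s))]
    apply Finset.sum_congr rfl
    intro s _
    rw [oprof_flt_flt, oprof_flt_self]
  have h2 : ∑ s, sp (s w) * (sp (s j) * Ψ (fle j s)) =
      ∑ s, -(sp (fle j s w) * (sp (s j) * Ψ s)) := by
    rw [← oprof_sum_fle j (fun s => -(sp (fle j s w) * (sp (s j) * Ψ s)))]
    apply Finset.sum_congr rfl
    intro s _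
    rw [oprof_fle_fle, oprof_fle_self, sp_not]
    ring
  have h3 : ∑ s, sp (s w) * cr j Ψ s =
      (∑ s, sp (flt j s w) * (sp (s j) * Ψ s) + ∑ s, -(sp (fle j s w) * (sp (s j) * Ψ s))) / 2 := by
    rw [← h1, ← h2, ← Finset.sum_add_distrib, Finset.sum_div]
    apply Finset.sum_congr rfl
    intro s _
    unfold cr xi ze
    ring
  rw [h3, ← Finset.sum_add_distrib]
  by_cases h : w = j
  · subst h
    rw [if_pos rfl, Finset.sum_div]
    apply Finset.sum_congr rfl
    intro s _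
    rw [oprof_flt_self, oprof_fle_self, sp_not]
    have := sp_mul_self (s w)
    linear_combination (Ψ s) * this
  · rw [if_neg h]
    rw [Finset.sum_eq_zero, zero_div]
    intro s _
    rw [oprof_flt_ne h]
    ring

private lemma oprof_ip (w : Fin n) (c : Fin n → ℝ) (Ψ : Col n → ℝ) :
    ip (fun s => sp (s w)) (opp c (fun _ => 0) Ψ) = c w * ip (fun _ => 1) Ψ := by
  unfold ip opp
  have h1 : ∀ s : Col n, sp (s w) * ∑ j, (c j * cr j Ψ s + 0 * an j Ψ s) =
      ∑ j, c j * (sp (s w) * cr j Ψ s) := by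
    intro s
    rw [Finset.mul_sum]
    apply Finset.sum_congr rfl
    intro j _
    ring
  simp only [h1]
  rw [Finset.sum_comm]
  simp only [← Finset.mul_sum, oprof_cr, one_mul]
  simp

private lemma oprof_one (p q : Fin n → ℝ) :
    opp p q (fun _ => 1) = fun s => ∑ j, p j * sp (s j) := by
  funext s
  unfold opp cr an xi ze
  apply Finset.sum_congr rfl
  intro j _
  ring

theorem Xo_add (t : ℝ) (x : ℕ → Fin n → ℝ) (k d : ℕ) (Φ : Col n → ℝ) :
    Xo t x (k + d) Φ = Xo t x k (Yo t x k d Φ) := by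
  induction d generalizing Φ with
  | zero => rfl
  | succ d ih =>
    change Xo t x (k + d) (Vm (x (k + d)) (Wm t Φ)) = Xo t x k (Yo t x k d (Vm (x (k + d)) (Wm t Φ)))
    exact ih _

theorem Xo_congr (t : ℝ) {x x' : ℕ → Fin n → ℝ} {L : ℕ} (h : ∀ k < L, x k = x' k) :
    Xo t x L = Xo t x' L := by
  induction L with
  | zero => rfl
  | succ L ih =>
    funext Φ
    change Xo t x L (Vm (x L) (Wm t Φ)) = Xo t x' L (Vm (x' L) (Wm t Φ))
    rw [ih fun k hk => h k (by omega), h L (by omega)]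

theorem Yo_congr (t : ℝ) {x x' : ℕ → Fin n → ℝ} {k d : ℕ} (h : ∀ i, k ≤ i → i < k + d → x i = x' i) :
    Yo t x k d = Yo t x' k d := by
  induction d with
  | zero => rfl
  | succ d ih =>
    funext Φ
    change Yo t x k d (Vm (x (k + d)) (Wm t Φ)) = Yo t x' k d (Vm (x' (k + d)) (Wm t Φ))
    rw [ih fun i hi hi' => h i hi (by omega), h (k + d) (by omega) (by omega)]

theorem pqo_congr (t : ℝ) {x x' : ℕ → Fin n → ℝ} {k : ℕ} (h : ∀ i < k, x i = x' i) (c : Fin n → ℝ) :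
    pqo t x c k = pqo t x' c k := by
  induction k with
  | zero => rfl
  | succ k ih =>
    have h1 := ih fun i hi => h i (by omega)
    have h2 := h k (by omega)
    simp only [pqo]
    rw [h1, h2]

theorem Xo_const (t : ℝ) (x : Fin n → ℝ) (L : ℕ) : Xo t (fun _ => x) L = Xm t x L := by
  induction L with
  | zero => rfl
  | succ L ih =>
    funext Φ
    change Xo t (fun _ => x) L (Vm x (Wm t Φ)) = Xm t x (L + 1) Φ
    rw [ih, oprof_Xm_succ]

theorem pqo_const (t : ℝ) (x c : Fin n → ℝ) (k : ℕ) : pqo t (fun _ => x) c k = pqs t x c k := by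
  induction k with
  | zero => rfl
  | succ k ih =>
    simp only [pqo, pqs]
    rw [ih]

theorem GSo_const (t : ℝ) (x : Fin n → ℝ) (L : ℕ) (u v : Fin n) :
    GSo t (fun _ => x) L u v = GS t x L u v := by
  unfold GSo GS
  rw [Xo_const]

private lemma Wm_lin31 (t : ℝ) {ι : Type*} (s : Finset ι) (a : ι → ℝ) (Φ : ι → Col n → ℝ) :
    Wm t (fun c => ∑ i ∈ s, a i * Φ i c) = fun c => ∑ i ∈ s, a i * Wm t (Φ i) c := by
  funext c
  unfold Wm
  rw [Finset.mul_sum]
  apply Finset.sum_congr rfl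
  intro u _
  ring

private lemma Vm_lin31 (x : Fin n → ℝ) {ι : Type*} (s : Finset ι) (a : ι → ℝ) (Φ : ι → Col n → ℝ) :
    Vm x (fun c => ∑ i ∈ s, a i * Φ i c) = fun c => ∑ i ∈ s, a i * Vm x (Φ i) c := by
  funext c
  unfold Vm
  simp only [Finset.mul_sum]
  rw [Finset.sum_comm]
  apply Finset.sum_congr rfl
  intro u _
  apply Finset.sum_congr rfl
  intro s' _
  ring

theorem Xo_lin (t : ℝ) (x : ℕ → Fin n → ℝ) (L : ℕ) {ι : Type*} (s : Finset ι) (a : ι → ℝ)
    (Φ : ι → Col n → ℝ) :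
    Xo t x L (fun c => ∑ i ∈ s, a i * Φ i c) = fun c => ∑ i ∈ s, a i * Xo t x L (Φ i) c := by
  induction L generalizing Φ with
  | zero => exact Wm_lin31 t s a Φ
  | succ L ih =>
    change Xo t x L (Vm (x L) (Wm t (fun c => ∑ i ∈ s, a i * Φ i c))) = _
    rw [Wm_lin31, Vm_lin31, ih]
    rfl

theorem Yo_lin (t : ℝ) (x : ℕ → Fin n → ℝ) (k d : ℕ) {ι : Type*} (s : Finset ι) (a : ι → ℝ)
    (Φ : ι → Col n → ℝ) :
    Yo t x k d (fun c => ∑ i ∈ s, a i * Φ i c) = fun c => ∑ i ∈ s, a i * Yo t x k d (Φ i) c := by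
  induction d generalizing Φ with
  | zero => rfl
  | succ d ih =>
    change Yo t x k d (Vm (x (k + d)) (Wm t (fun c => ∑ i ∈ s, a i * Φ i c))) = _
    rw [Wm_lin31, Vm_lin31, ih]
    rfl

theorem opp_Xo {t : ℝ} (ht : 0 < t) (ht1 : t < 1) {x : ℕ → Fin n → ℝ} (hx : ∀ k j, x k j ≠ 0)
    (L : ℕ) (c : Fin n → ℝ) (Φ : Col n → ℝ) :
    opp c (fun _ => 0) (Xo t x L Φ) = Xo t x L (opp (pqo t x c L).1 (pqo t x c L).2 Φ) := by
  induction L generalizing Φ with
  | zero =>
    change opp c (fun _ => 0) (Wm t Φ) = Wm t _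
    rw [opp_Wm ht ht1]
    rfl
  | succ L ih =>
    change opp c (fun _ => 0) (Xo t x L (Vm (x L) (Wm t Φ))) = Xo t x L (Vm (x L) (Wm t _))
    rw [ih, opp_Vm (hx L), opp_Wm ht ht1]
    rfl

theorem opp_Yo {t : ℝ} (ht : 0 < t) (ht1 : t < 1) {x : ℕ → Fin n → ℝ} (hx : ∀ k j, x k j ≠ 0)
    (k d : ℕ) (c : Fin n → ℝ) (Φ : Col n → ℝ) :
    opp (pqo t x c k).1 (pqo t x c k).2 (Yo t x k d Φ) =
      Yo t x k d (opp (pqo t x c (k + d)).1 (pqo t x c (k + d)).2 Φ) := by
  induction d generalizing Φ with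
  | zero => rfl
  | succ d ih =>
    change opp (pqo t x c k).1 (pqo t x c k).2 (Yo t x k d (Vm (x (k + d)) (Wm t Φ))) =
      Yo t x k d (Vm (x (k + d)) (Wm t _))
    rw [ih, opp_Vm (hx (k + d)), opp_Wm ht ht1]
    rfl

theorem gso_mul {t : ℝ} (ht : 0 < t) (ht1 : t < 1) {x : ℕ → Fin n → ℝ} (hx : ∀ k j, x k j ≠ 0)
    (L : ℕ) (hne : ip (fun _ => 1) (Xo t x L (fun _ => 1)) ≠ 0) (c : Fin n → ℝ) (w : Fin n) :
    ∑ u, GSo t x L u w * (pqo t x c L).1 u = c w := by
  have h1 := oprof_ip w c (Xo t x L (fun _ => 1))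
  rw [opp_Xo ht ht1 hx, oprof_one, Xo_lin t x L Finset.univ _ (fun u s => sp (s u))] at h1
  have h2 : ip (fun s => sp (s w))
      (fun s => ∑ u, (pqo t x c L).1 u * Xo t x L (fun s => sp (s u)) s) =
      ∑ u, (pqo t x c L).1 u * ip (fun s => sp (s w)) (Xo t x L (fun s => sp (s u))) := by
    unfold ip
    simp only [Finset.mul_sum]
    rw [Finset.sum_comm]
    apply Finset.sum_congr rfl
    intro u _
    apply Finset.sum_congr rfl
    intro s _
    ring
  rw [h2] at h1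
  have h3 : ∑ u, GSo t x L u w * (pqo t x c L).1 u =
      (∑ u, (pqo t x c L).1 u * ip (fun s => sp (s w)) (Xo t x L (fun s => sp (s u)))) /
        ip (fun _ => 1) (Xo t x L (fun _ => 1)) := by
    rw [Finset.sum_div]
    apply Finset.sum_congr rfl
    intro u _
    unfold GSo
    ring
  rw [h3, h1]
  exact mul_div_cancel_right₀ _ hne

theorem pqo_prof {t : ℝ} (ht : 0 < t) (ht1 : t < 1) {x : ℕ → Fin n → ℝ} (hx : ∀ k j, x k j ≠ 0)
    (L : ℕ) (hne : ip (fun _ => 1) (Xo t x L (fun _ => 1)) ≠ 0) (e : Fin n → ℝ) :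
    (pqo t x (fun w => ∑ v, e v * GSo t x L v w) L).1 = e := by
  let G : (Fin n → ℝ) →ₗ[ℝ] (Fin n → ℝ) := Matrix.mulVecLin (Matrix.of fun w u => GSo t x L u w)
  have hG : ∀ (p : Fin n → ℝ) (w : Fin n), G p w = ∑ u, GSo t x L u w * p u := by
    intro p w
    simp [G, Matrix.mulVec, dotProduct]
  have hsurj : Function.Surjective G := by
    intro c
    refine ⟨(pqo t x c L).1, ?_⟩
    funext w
    rw [hG]
    exact gso_mul ht ht1 hx L hne c w
  have hinj : Function.Injective G := LinearMap.injective_iff_surjective.mpr hsurj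
  apply hinj
  funext w
  rw [hG, hG, gso_mul ht ht1 hx L hne]
  apply Finset.sum_congr rfl
  intro u _
  ring

end Pool.Agent.Helper49.RD
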