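import Pool.Agent.Helper49.RD.Alg1

/-!
Block RD-A2: the relation between creation and annihilation operators at a column.

Paper proofs. `0 < x j < 1`, `0 < t < 1`.
* `pqs_two`: `pqs t x c k` is linear in `c`, and by `gs_mul` `c w = ∑ j, GS t x k j w * p j` with `p = (pqs t x c k).1`; so `(pqs t x c k).2 l = ∑ j, p j * Rm l j`.
* `ip_opp`: `ip 1 (opp c 0 Φ) = 0`: `ip 1 (cr j Φ) = 0` (substitute `c → flt j c`, `c → fle j c` in the two parts: `xi j`, `ze j`: `sp (fle j c j) = - sp (c j)`, `sp (flt j c j) = sp (c j)`).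
* `bra`: `opp (GS t x k j ·) 0 (Xm t x k Ψ) = Xm t x k (opp e_j (Rm · j) Ψ)` (`opp_Xo` for the constant weight, `pqo_const`, and `profile`: `(pqs ..).1 = e_j`), apply `ip 1`.
* `rm_self`, `rm_le`: `bra` with `Ψ c = sp (c v)`: `an l Ψ = if l = v then 1 else 0`, `cr j Ψ = 0` if `v = j`, and `cr j Ψ c = ± sp (c j) * sp (c v)` if `v ≠ j` (`+` for `j < v`, `-` for `v < j`).
  `ip 1 (Xm t x k 1) > 0` (all weights are positive).
-/

open Finset

namespace Pool.Agent.Helper49.RD

open Pool.Agent.Helper49.DL Pool.Agent.Helper49.DX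

variable {n : ℕ}

private lemma flt_flt24 (j : Fin n) (c : Col n) : flt j (flt j c) = c := by
  funext i
  unfold flt
  by_cases h : i < j
  · simp [h]
  · simp [h]

private lemma fle_fle24 (j : Fin n) (c : Col n) : fle j (fle j c) = c := by
  funext i
  unfold fle
  by_cases h : i ≤ j
  · simp [h]
  · simp [h]

private lemma sum_flt24 (j : Fin n) (f : Col n → ℝ) : ∑ s, f (flt j s) = ∑ s, f s :=
  Equiv.sum_comp (Function.Involutive.toPerm (flt j) (flt_flt24 j)) f

private lemma sum_fle24 (j : Fin n) (f : Col n → ℝ) : ∑ s, f (fle j s) = ∑ s, f s :=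
  Equiv.sum_comp (Function.Involutive.toPerm (fle j) (fle_fle24 j)) f

private lemma flt_ne24 {w j : Fin n} (h : w ≠ j) (s : Col n) : flt j s w = fle j s w := by
  unfold flt fle
  by_cases h1 : w < j
  · rw [if_pos h1, if_pos h1.le]
  · rw [if_neg h1, if_neg]
    intro h2
    exact h1 (lt_of_le_of_ne h2 h)

private lemma flt_self24 (j : Fin n) (s : Col n) : flt j s j = s j := by
  unfold flt
  rw [if_neg (lt_irrefl _)]

private lemma fle_self24 (j : Fin n) (s : Col n) : fle j s j = !(s j) := by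
  unfold fle
  rw [if_pos le_rfl]

private lemma sum_cr24 (j : Fin n) (Φ : Col n → ℝ) : ∑ s, cr j Φ s = 0 := by
  have h1 : ∑ s, sp (s j) * Φ (flt j s) = ∑ s, sp (s j) * Φ s := by
    rw [← sum_flt24 j (fun s => sp (s j) * Φ s)]
    apply Finset.sum_congr rfl
    intro s _
    rw [flt_self24]
  have h2 : ∑ s, sp (s j) * Φ (fle j s) = ∑ s, -(sp (s j) * Φ s) := by
    rw [← sum_fle24 j (fun s => -(sp (s j) * Φ s))]
    apply Finset.sum_congr rfl
    intro s _
    rw [fle_self24, sp_not]
    ring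
  unfold cr xi ze
  rw [← Finset.sum_div, Finset.sum_add_distrib, h1, h2, Finset.sum_neg_distrib]
  ring

private lemma nx_lin24 (p : Fin n → ℝ) (c : Fin n → Fin n → ℝ) (j : Fin n) :
    nx (fun w => ∑ u, p u * c u w) j = ∑ u, p u * nx (c u) j := by
  unfold nx
  by_cases h : (j : ℕ) + 1 < n
  · simp only [dif_pos h]
  · simp only [dif_neg h, mul_zero, Finset.sum_const_zero]

private lemma pv_lin24 (p : Fin n → ℝ) (c : Fin n → Fin n → ℝ) (j : Fin n) :
    pv (fun w => ∑ u, p u * c u w) j = ∑ u, p u * pv (c u) j := by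
  unfold pv
  by_cases h : 0 < (j : ℕ)
  · simp only [if_pos h]
  · simp only [if_neg h, mul_zero, Finset.sum_const_zero]

private lemma wp_lin24 (t : ℝ) (p : Fin n → ℝ) (c d : Fin n → Fin n → ℝ) :
    wp t (fun w => ∑ u, p u * c u w) (fun w => ∑ u, p u * d u w) =
      fun j => ∑ u, p u * wp t (c u) (d u) j := by
  funext j
  unfold wp
  simp only [nx_lin24, pv_lin24, Finset.mul_sum, ← Finset.sum_add_distrib, ← Finset.sum_sub_distrib]
  apply Finset.sum_congr rfl
  intro u _
  ring

private lemma wq_lin24 (t : ℝ) (p : Fin n → ℝ) (c d : Fin n → Fin n → ℝ) :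
    wq t (fun w => ∑ u, p u * c u w) (fun w => ∑ u, p u * d u w) =
      fun j => ∑ u, p u * wq t (c u) (d u) j := by
  funext j
  unfold wq
  simp only [nx_lin24, pv_lin24, Finset.mul_sum, ← Finset.sum_add_distrib, ← Finset.sum_sub_distrib]
  apply Finset.sum_congr rfl
  intro u _
  ring

private lemma pqs_lin24 (t : ℝ) (x p : Fin n → ℝ) (c : Fin n → Fin n → ℝ) (k : ℕ) :
    (pqs t x (fun w => ∑ u, p u * c u w) k).1 = (fun j => ∑ u, p u * (pqs t x (c u) k).1 j) ∧
    (pqs t x (fun w => ∑ u, p u * c u w) k).2 = (fun j => ∑ u, p u * (pqs t x (c u) k).2 j) := by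
  induction k with
  | zero =>
    have h0 : (fun _ : Fin n => (0 : ℝ)) = fun _ => ∑ u : Fin n, p u * (0 : ℝ) := by
      funext j
      simp
    constructor
    · have h1 := wp_lin24 t p c fun _ _ => 0
      rw [← h0] at h1
      exact h1
    · have h1 := wq_lin24 t p c fun _ _ => 0
      rw [← h0] at h1
      exact h1
  | succ k ih =>
    have h1 : (fun j => (pqs t x (fun w => ∑ u, p u * c u w) k).1 j / x j) =
        fun j => ∑ u, p u * ((pqs t x (c u) k).1 j / x j) := by
      funext j
      rw [ih.1, Finset.sum_div]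
      apply Finset.sum_congr rfl
      intro u _
      ring
    have h2 : (fun j => x j * (pqs t x (fun w => ∑ u, p u * c u w) k).2 j) =
        fun j => ∑ u, p u * (x j * (pqs t x (c u) k).2 j) := by
      funext j
      rw [ih.2, Finset.mul_sum]
      apply Finset.sum_congr rfl
      intro u _
      ring
    constructor
    · change wp t (fun j => (pqs t x (fun w => ∑ u, p u * c u w) k).1 j / x j)
        (fun j => x j * (pqs t x (fun w => ∑ u, p u * c u w) k).2 j) = _
      rw [h1, h2]
      exact wp_lin24 t p (fun u j => (pqs t x (c u) k).1 j / x j) (fun u j => x j * (pqs t x (c u) k).2 j)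
    · change wq t (fun j => (pqs t x (fun w => ∑ u, p u * c u w) k).1 j / x j)
        (fun j => x j * (pqs t x (fun w => ∑ u, p u * c u w) k).2 j) = _
      rw [h1, h2]
      exact wq_lin24 t p (fun u j => (pqs t x (c u) k).1 j / x j) (fun u j => x j * (pqs t x (c u) k).2 j)

private lemma factor24 {y : ℝ} (h0 : 0 < y) (h1 : y < 1) (a b : Bool) :
    0 < 1 + y * (sp a * sp b) := by
  cases a <;> cases b <;> simp only [sp_true, sp_false] <;> linarith

private lemma pos24 {t : ℝ} (ht : 0 < t) (ht1 : t < 1) {x : Fin n → ℝ} (hx : ∀ j, 0 < x j)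
    (hx1 : ∀ j, x j < 1) (L : ℕ) (s : Col n) : 0 < Xm t x L (fun _ => 1) s := by
  have hw : ∀ s : Col n, 0 < wc t s := by
    intro s
    unfold wc
    apply Finset.prod_pos
    intro j _
    split_ifs with h
    · exact factor24 ht ht1 _ _
    · exact one_pos
  induction L generalizing s with
  | zero =>
    change 0 < wc t s * 1
    rw [mul_one]
    exact hw s
  | succ L ih =>
    change 0 < wc t s * ∑ c' : Col n, (∏ j, (1 + x j * (sp (s j) * sp (c' j)))) *
      Xm t x L (fun _ => 1) c'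
    apply mul_pos (hw s)
    apply Finset.sum_pos
    · intro c' _
      apply mul_pos _ (ih c')
      apply Finset.prod_pos
      intro j _
      exact factor24 (hx j) (hx1 j) _ _
    · exact Finset.univ_nonempty

private lemma an_sp24 (l v : Fin n) : an l (fun c => sp (c v)) = fun _ => if l = v then 1 else 0 := by
  funext s
  unfold an xi ze
  by_cases h : l = v
  · subst h
    beta_reduce
    rw [if_pos rfl, flt_self24, fle_self24, sp_not]
    linear_combination sp_mul_self (s l)
  · beta_reduce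
    rw [if_neg h, flt_ne24 (Ne.symm h)]
    ring

private lemma cr_self24 (j : Fin n) : cr j (fun c => sp (c j)) = fun _ => 0 := by
  funext s
  unfold cr xi ze
  beta_reduce
  rw [flt_self24, fle_self24, sp_not]
  ring

private lemma cr_ne24 {v j : Fin n} (h : v ≠ j) : cr j (fun c => sp (c v)) =
    fun c => (if v < j then -1 else 1) * (sp (c j) * sp (c v)) := by
  funext s
  unfold cr xi ze
  beta_reduce
  rw [← flt_ne24 h]
  unfold flt
  by_cases h1 : v < j
  · rw [if_pos h1, if_pos h1, sp_not]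
    ring
  · rw [if_neg h1, if_neg h1]
    ring

private lemma Xm_smul24 (t : ℝ) (x : Fin n → ℝ) (k : ℕ) (a : ℝ) (Φ : Col n → ℝ) :
    Xm t x k (fun c => a * Φ c) = fun c => a * Xm t x k Φ c := by
  have h1 := Xo_lin t (fun _ => x) k (Finset.univ : Finset Unit) (fun _ => a) (fun _ => Φ)
  rw [Xo_const] at h1
  simpa using h1

theorem ip_opp (c : Fin n → ℝ) (Φ : Col n → ℝ) : ip (fun _ => 1) (opp c (fun _ => 0) Φ) = 0 := by
  unfold ip opp
  simp only [one_mul, zero_mul, add_zero]
  rw [Finset.sum_comm]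
  apply Finset.sum_eq_zero
  intro j _
  rw [← Finset.mul_sum, sum_cr24, mul_zero]

theorem Xm_one_pos {t : ℝ} (ht : 0 < t) (ht1 : t < 1) {x : Fin n → ℝ} (hx : ∀ j, 0 < x j)
    (hx1 : ∀ j, x j < 1) (k : ℕ) : 0 < ip (fun _ => 1) (Xm t x k (fun _ => 1)) := by
  unfold ip
  apply Finset.sum_pos
  · intro s _
    rw [one_mul]
    exact pos24 ht ht1 hx hx1 k s
  · exact Finset.univ_nonempty

section

variable {t : ℝ} (ht : 0 < t) (ht1 : t < 1) {x : Fin n → ℝ} (hx : ∀ j, 0 < x j) (hx1 : ∀ j, x j < 1)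
  (k : ℕ)

include ht ht1 hx hx1

theorem pqs_two (c : Fin n → ℝ) (l : Fin n) :
    (pqs t x c k).2 l = ∑ j, Rm t x k l j * (pqs t x c k).1 j := by
  have h1 : c = fun w => ∑ u, (pqs t x c k).1 u * GS t x k u w := by
    funext w
    rw [← gs_mul ht ht1 hx hx1 k c w]
    apply Finset.sum_congr rfl
    intro u _
    ring
  have h2 := (pqs_lin24 t x (pqs t x c k).1 (fun u w => GS t x k u w) k).2
  rw [← h1] at h2
  rw [h2]
  apply Finset.sum_congr rfl
  intro u _
  unfold Rm
  ring

theorem bra (j : Fin n) (Ψ : Col n → ℝ) :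
    ip (fun _ => 1) (Xm t x k (cr j Ψ)) = -∑ l, Rm t x k l j * ip (fun _ => 1) (Xm t x k (an l Ψ)) := by
  have hp : (pqs t x (fun w => GS t x k j w) k).1 = fun l => if l = j then 1 else 0 := by
    have h1 := profile ht ht1 hx hx1 k (fun l => if l = j then 1 else 0)
    have h2 : (fun w => ∑ v, (if v = j then (1 : ℝ) else 0) * GS t x k v w) = fun w => GS t x k j w := by
      funext w
      simp
    rw [h2] at h1
    exact h1
  have h3 := opp_Xo ht ht1 (x := fun _ => x) (fun _ j => (hx j).ne') k (fun w => GS t x k j w) Ψ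
  rw [Xo_const, pqo_const] at h3
  have h4 := ip_opp (fun w => GS t x k j w) (Xm t x k Ψ)
  rw [h3] at h4
  have h5 : opp (pqs t x (fun w => GS t x k j w) k).1 (pqs t x (fun w => GS t x k j w) k).2 Ψ =
      fun s => ∑ i : Fin n ⊕ Fin n, Sum.elim (pqs t x (fun w => GS t x k j w) k).1
        (pqs t x (fun w => GS t x k j w) k).2 i *
        Sum.elim (fun l => cr l Ψ) (fun l => an l Ψ) i s := by
    funext s
    rw [Fintype.sum_sum_type]
    simp only [Sum.elim_inl, Sum.elim_inr]
    unfold opp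
    rw [Finset.sum_add_distrib]
  have h6 := Xo_lin t (fun _ => x) k (Finset.univ : Finset (Fin n ⊕ Fin n))
    (Sum.elim (pqs t x (fun w => GS t x k j w) k).1 (pqs t x (fun w => GS t x k j w) k).2)
    (Sum.elim (fun l => cr l Ψ) (fun l => an l Ψ))
  rw [Xo_const] at h6
  rw [h5, h6] at h4
  have h7 : ip (fun _ => 1) (fun s => ∑ i : Fin n ⊕ Fin n, Sum.elim (pqs t x (fun w => GS t x k j w) k).1
        (pqs t x (fun w => GS t x k j w) k).2 i *
        Xm t x k (Sum.elim (fun l => cr l Ψ) (fun l => an l Ψ) i) s) =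
      ip (fun _ => 1) (Xm t x k (cr j Ψ)) + ∑ l, Rm t x k l j * ip (fun _ => 1) (Xm t x k (an l Ψ)) := by
    unfold ip
    simp only [one_mul]
    rw [Finset.sum_comm, Fintype.sum_sum_type]
    simp only [Sum.elim_inl, Sum.elim_inr, ← Finset.mul_sum]
    rw [hp]
    congr 1
    simp
  rw [h7] at h4
  linarith

theorem rm_self (j : Fin n) : Rm t x k j j = 0 := by
  have h1 := bra ht ht1 hx hx1 k j (fun c => sp (c j))
  rw [cr_self24] at h1
  have h2 := Xm_smul24 t x k 0 (fun _ => 1)
  simp only [zero_mul] at h2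
  have h3 : ip (fun _ => 1) (Xm t x k (fun _ : Col n => (0 : ℝ))) = 0 := by
    rw [h2]
    simp [ip]
  rw [h3] at h1
  have h4 : ∀ l, ip (fun _ => 1) (Xm t x k (an l (fun c => sp (c j)))) =
      if l = j then ip (fun _ => 1) (Xm t x k (fun _ => 1)) else 0 := by
    intro l
    rw [an_sp24]
    by_cases h : l = j
    · rw [if_pos h, if_pos h]
    · rw [if_neg h, if_neg h, h3]
  simp only [h4] at h1
  have h5 := Xm_one_pos ht ht1 hx hx1 k
  simp only [mul_ite, mul_zero, Finset.sum_ite_eq', Finset.mem_univ, if_true] at h1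
  have h6 : Rm t x k j j * ip (fun _ => 1) (Xm t x k (fun _ => 1)) = 0 := by linarith
  exact (mul_eq_zero.1 h6).resolve_right h5.ne'

theorem rm_le {v j : Fin n} (h : v ≠ j) : |Rm t x k v j| ≤
    |ip (fun _ => 1) (Xm t x k (fun c => sp (c j) * sp (c v)))| / ip (fun _ => 1) (Xm t x k (fun _ => 1)) := by
  have h1 := bra ht ht1 hx hx1 k j (fun c => sp (c v))
  rw [cr_ne24 h, Xm_smul24 t x k _ (fun c => sp (c j) * sp (c v))] at h1
  have h2 := Xm_smul24 t x k 0 (fun _ => 1)
  simp only [zero_mul] at h2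
  have h3 : ip (fun _ => 1) (Xm t x k (fun _ : Col n => (0 : ℝ))) = 0 := by
    rw [h2]
    simp [ip]
  have h4 : ∀ l, ip (fun _ => 1) (Xm t x k (an l (fun c => sp (c v)))) =
      if l = v then ip (fun _ => 1) (Xm t x k (fun _ => 1)) else 0 := by
    intro l
    rw [an_sp24]
    by_cases h : l = v
    · rw [if_pos h, if_pos h]
    · rw [if_neg h, if_neg h, h3]
  simp only [h4] at h1
  have h5 := Xm_one_pos ht ht1 hx hx1 k
  simp only [mul_ite, mul_zero, Finset.sum_ite_eq', Finset.mem_univ, if_true] at h1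
  have h6 : ip (fun _ => 1) (fun c => (if v < j then (-1 : ℝ) else 1) *
      Xm t x k (fun c => sp (c j) * sp (c v)) c) = (if v < j then (-1 : ℝ) else 1) *
      ip (fun _ => 1) (Xm t x k (fun c => sp (c j) * sp (c v))) := by
    unfold ip
    rw [Finset.mul_sum]
    apply Finset.sum_congr rfl
    intro s _
    ring
  rw [h6] at h1
  rw [le_div_iff₀ h5]
  have h7 : |Rm t x k v j| * ip (fun _ => 1) (Xm t x k (fun _ => 1)) =
      |Rm t x k v j * ip (fun _ => 1) (Xm t x k (fun _ => 1))| := by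
    rw [abs_mul, abs_of_pos h5]
  rw [h7]
  have h8 : Rm t x k v j * ip (fun _ => 1) (Xm t x k (fun _ => 1)) =
      -((if v < j then (-1 : ℝ) else 1) * ip (fun _ => 1) (Xm t x k (fun c => sp (c j) * sp (c v)))) := by
    linarith
  rw [h8, abs_neg, abs_mul]
  have h9 : |(if v < j then (-1 : ℝ) else 1)| = 1 := by
    split_ifs <;> simp
  rw [h9, one_mul]

end

end Pool.Agent.Helper49.RD
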