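import Pool.Agent.Helper49.RD.Alg2

/-!
Block RD-A3: the identity at a string (checked numerically).

Setting: weights `x`, `x'` equal to the constant `x0` in the gaps `< k`; in the gap `k`: `x k j = ε j * x' k j`, `ε j = ±1`; equal in the gaps `> k`; `L = k + (d + 1)`; both
normalisations nonzero. Sources `e`, outputs `c w = ∑ v, e v * GSo t x L v w`, `c'` the same with `x'`; `(P, Q) = pqo t x c k`, `(P', Q') = pqo t x' c' k`,
`Φ = Yo t x k (d + 1) 1`, `Φb = Yo t x k (d + 1) (∑ v, e v * sp (c v))`, `Z = ip 1 (Xm t x0 k Φ) = ip 1 (Xo t x L 1)` (`Xo_add`, `Xo_congr`, `Xo_const`).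

Paper proofs.
* anticommutation: `an i (cr j Ψ) + cr j (an i Ψ) = (if i = j then 1 else 0) * Ψ`, `an i (an j Ψ) + an j (an i Ψ) = 0` (`anti_cr`, `anti_an`): directly from the definitions
  (`xi i (xi j Ψ) = - xi j (xi i Ψ)` for `i ≠ j`, `xi i (xi i Ψ) = Ψ`, `ze i (ze i Ψ) = -Ψ`, `xi i (ze j Ψ) = - ze j (xi i Ψ)`, ..., by cases on the order of `i`, `j`).
* `level_formula`: `Φb = Yo (opp e q 1) = opp P Q Φ` with `(e, q) = pqo t x c L` (`pqo_prof`; `opp e q 1 = ∑ v, e v * sp (c v)` as `an j 1 = 0`; `opp_Yo`). Hence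
  `an i Φb = an i (opp P Q Φ) = P i * Φ - opp P Q (an i Φ)`, and `ip 1 (Xm t x0 k (opp P Q Ψ)) = 0` for every `Ψ`: `opp_Xo` at `k` (`pqo_congr`) and `ip_opp`. So
  `ip 1 (Xm t x0 k (an i Φb)) = P i * Z`, and `Φb = ∑ v, e v * Yo (sp (c v))` (`Yo_lin`).
* `mid`: let `Fl Ψ` be the operator with `Vm (ε x) Ψ = Fl (Vm x Ψ)`; in this form: `cr_flip`: for every `p, q` and `Ψ`, `Vm (fun j => ε j * y j) (...)`: by `opp_Vm`
  `opp (ε P') (ε Q') (Vm (x k) Ψ) = Vm (x k) (opp (ε P' / x k) (x k ε Q') Ψ) = Vm (x k) (opp (P' / x' k) (x' k Q') Ψ)` (`ε² = 1`, `x k = ε x' k`). Now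
  `Yo t x' k (d + 1) Ψ = Vm (x' k) (rest Ψ)` and `Yo t x k (d + 1) Ψ = Vm (x k) (rest Ψ)` with the same `rest` (gaps `> k`; prove `Yo t x k (d + 1) Ψ = Vm (x k) (Wm t (Yo t x (k + 1) d Ψ))`
  by induction on `d`), and as in `level_formula` the coefficients after the gap `k` for `x'` satisfy `rest (∑ e sp) = opp-form (P'/x' k, x' k Q') (rest 1)`: precisely
  `Wm t (Yo t x' (k+1) d (∑ v, e v * sp (c v))) = opp (P' / x' k) (x' k * Q') (Wm t (Yo t x' (k+1) d 1))` (`opp_Wm`, `opp_Yo` at `k + 1`, `pqo_prof` for `x'`).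
  Therefore `Φb = opp (ε P') (ε Q') Φ`, and by `level_formula` and anticommutation
  `P i * Z = ip 1 (Xm t x0 k (an i (opp (εP') (εQ') Φ))) = ε i * P' i * Z - ip 1 (Xm t x0 k (opp (εP') (εQ') (an i Φ)))`. By `bra` (linear combination)
  `ip 1 (Xm (opp (εP') (εQ') Ψ)) = ∑ l, (ε l * Q' l - ∑ j, Rm l j * (ε j * P' j)) * ip 1 (Xm (an l Ψ))`, and `Q' l = ∑ j, Rm l j * P' j` (`pqs_two`, `pqo_congr`, `pqo_const`). With
  `κ l i = ip 1 (Xm (an l (an i Φ)))/Z = -κ i l`: `P i = ε i P' i + ∑ l, κ i l ∑ j, (ε l Rm l j - Rm l j ε j) P' j`. Multiply by `ε i` (`ε l = ε l * 1`, `ε l * (1 - ε l ε j) = ε l - ε j`).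
-/

open Finset

namespace Pool.Agent.Helper49.RD

open Pool.Agent.Helper49.DL Pool.Agent.Helper49.DX

variable {n : ℕ}

private lemma flt_flt88 (j : Fin n) (c : Col n) : flt j (flt j c) = c := by
  funext i
  unfold flt
  by_cases h : i < j
  · simp [h]
  · simp [h]

private lemma fle_fle88 (j : Fin n) (c : Col n) : fle j (fle j c) = c := by
  funext i
  unfold fle
  by_cases h : i ≤ j
  · simp [h]
  · simp [h]

private lemma flt_comm88 (i j : Fin n) (c : Col n) : flt i (flt j c) = flt j (flt i c) := by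
  funext a
  unfold flt
  by_cases h : a < i <;> by_cases h' : a < j <;> simp [h, h']

private lemma fle_comm88 (i j : Fin n) (c : Col n) : fle i (fle j c) = fle j (fle i c) := by
  funext a
  unfold fle
  by_cases h : a ≤ i <;> by_cases h' : a ≤ j <;> simp [h, h']

private lemma fle_flt88 (i j : Fin n) (c : Col n) : fle i (flt j c) = flt j (fle i c) := by
  funext a
  unfold fle flt
  by_cases h : a ≤ i <;> by_cases h' : a < j <;> simp [h, h']

private lemma sp_flt_lt88 {i j : Fin n} (h : i < j) (c : Col n) : sp (flt j c i) = -sp (c i) := by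
  unfold flt
  rw [if_pos h, sp_not]

private lemma sp_flt_ge88 {i j : Fin n} (h : ¬ i < j) (c : Col n) : sp (flt j c i) = sp (c i) := by
  unfold flt
  rw [if_neg h]

private lemma sp_fle_le88 {i j : Fin n} (h : i ≤ j) (c : Col n) : sp (fle j c i) = -sp (c i) := by
  unfold fle
  rw [if_pos h, sp_not]

private lemma sp_fle_gt88 {i j : Fin n} (h : ¬ i ≤ j) (c : Col n) : sp (fle j c i) = sp (c i) := by
  unfold fle
  rw [if_neg h]

private lemma sp_sq88 (b : Bool) : sp b * sp b = 1 := sp_mul_self b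

theorem anti_cr (i j : Fin n) (Ψ : Col n → ℝ) (c : Col n) :
    an i (cr j Ψ) c + cr j (an i Ψ) c = if i = j then Ψ c else 0 := by
  unfold an cr xi ze
  beta_reduce
  rcases lt_trichotomy i j with h | h | h
  · rw [if_neg h.ne, sp_flt_lt88 h, sp_fle_le88 h.le, sp_flt_ge88 h.le.not_gt, sp_fle_gt88 h.not_ge,
      flt_comm88 i j, fle_comm88 i j, fle_flt88 i j, fle_flt88 j i]
    ring
  · subst h
    rw [if_pos rfl, sp_flt_ge88 (lt_irrefl _), sp_fle_le88 le_rfl, flt_flt88, fle_fle88, fle_flt88]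
    linear_combination (Ψ c) * sp_sq88 (c i)
  · rw [if_neg h.ne', sp_flt_lt88 h, sp_fle_le88 h.le, sp_flt_ge88 h.le.not_gt, sp_fle_gt88 h.not_ge,
      flt_comm88 i j, fle_comm88 i j, fle_flt88 i j, fle_flt88 j i]
    ring

theorem anti_an (i j : Fin n) (Ψ : Col n → ℝ) (c : Col n) : an i (an j Ψ) c + an j (an i Ψ) c = 0 := by
  unfold an xi ze
  beta_reduce
  rcases lt_trichotomy i j with h | h | h
  · rw [sp_flt_lt88 h, sp_fle_le88 h.le, sp_flt_ge88 h.le.not_gt, sp_fle_gt88 h.not_ge,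
      flt_comm88 i j, fle_comm88 i j, fle_flt88 i j, fle_flt88 j i]
    ring
  · subst h
    rw [sp_flt_ge88 (lt_irrefl _), sp_fle_le88 le_rfl, flt_flt88, fle_fle88, fle_flt88]
    ring
  · rw [sp_flt_lt88 h, sp_fle_le88 h.le, sp_flt_ge88 h.le.not_gt, sp_fle_gt88 h.not_ge,
      flt_comm88 i j, fle_comm88 i j, fle_flt88 i j, fle_flt88 j i]
    ring

private lemma ip_lin88 (Θ : Col n → ℝ) {ι : Type*} (s : Finset ι) (a : ι → ℝ) (F : ι → Col n → ℝ) :
    ip Θ (fun c => ∑ i ∈ s, a i * F i c) = ∑ i ∈ s, a i * ip Θ (F i) := by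
  unfold ip
  simp only [Finset.mul_sum]
  rw [Finset.sum_comm]
  refine Finset.sum_congr rfl fun i _ => Finset.sum_congr rfl fun c _ => ?_
  ring

private lemma Xm_lin88 (t : ℝ) (x : Fin n → ℝ) (L : ℕ) {ι : Type*} (s : Finset ι) (a : ι → ℝ)
    (Φ : ι → Col n → ℝ) :
    Xm t x L (fun c => ∑ i ∈ s, a i * Φ i c) = fun c => ∑ i ∈ s, a i * Xm t x L (Φ i) c := by
  have h := Xo_lin t (fun _ => x) L s a Φ
  simpa only [Xo_const] using h

private lemma ipX_lin88 (t : ℝ) (x : Fin n → ℝ) (L : ℕ) {ι : Type*} (s : Finset ι) (a : ι → ℝ)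
    (Φ : ι → Col n → ℝ) :
    ip (fun _ => 1) (Xm t x L (fun c => ∑ i ∈ s, a i * Φ i c)) =
      ∑ i ∈ s, a i * ip (fun _ => 1) (Xm t x L (Φ i)) := by
  rw [Xm_lin88, ip_lin88]

private lemma ipX_sub88 (t : ℝ) (x : Fin n → ℝ) (L : ℕ) (a : ℝ) (F G : Col n → ℝ) :
    ip (fun _ => 1) (Xm t x L (fun c => a * F c - G c)) =
      a * ip (fun _ => 1) (Xm t x L F) - ip (fun _ => 1) (Xm t x L G) := by
  have h := ipX_lin88 t x L (Finset.univ : Finset (Fin 2)) ![a, -1] ![F, G]
  simp only [Fin.sum_univ_two, Matrix.cons_val_zero, Matrix.cons_val_one] at h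
  have e : (fun c => a * F c - G c) = fun c => a * F c + -1 * G c := by
    funext c; ring
  rw [e, h]
  ring

private lemma an_lin88 (i : Fin n) {ι : Type*} (s : Finset ι) (a : ι → ℝ) (Φ : ι → Col n → ℝ) :
    an i (fun c => ∑ v ∈ s, a v * Φ v c) = fun c => ∑ v ∈ s, a v * an i (Φ v) c := by
  funext c
  unfold an xi ze
  beta_reduce
  rw [Finset.mul_sum, Finset.mul_sum, ← Finset.sum_sub_distrib, Finset.sum_div]
  refine Finset.sum_congr rfl fun v _ => ?_
  ring

private lemma opp_one88 (p q : Fin n → ℝ) :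
    opp p q (fun _ => 1) = fun s => ∑ j, p j * sp (s j) := by
  funext s
  unfold opp cr an xi ze
  apply Finset.sum_congr rfl
  intro j _
  ring

/-- Annihilation through a linear combination. -/
private lemma an_opp88 (i : Fin n) (p q : Fin n → ℝ) (Φ : Col n → ℝ) :
    an i (opp p q Φ) = fun c => p i * Φ c - opp p q (an i Φ) c := by
  have e : opp p q Φ = fun c => ∑ z ∈ (Finset.univ : Finset (Fin n)) ×ˢ (Finset.univ : Finset Bool),
      (if z.2 then p z.1 else q z.1) * (if z.2 then cr z.1 Φ else an z.1 Φ) c := by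
    funext c
    rw [Finset.sum_product]
    unfold opp
    refine Finset.sum_congr rfl fun j _ => ?_
    simp
  have h : an i (opp p q Φ) = fun c => ∑ j, (p j * an i (cr j Φ) c + q j * an i (an j Φ) c) := by
    rw [e, an_lin88]
    funext c
    rw [Finset.sum_product]
    refine Finset.sum_congr rfl fun j _ => ?_
    simp
  rw [h]
  funext c
  have h1 : ∀ j, p j * an i (cr j Φ) c + q j * an i (an j Φ) c =
      p j * (if i = j then Φ c else 0) - (p j * cr j (an i Φ) c + q j * an j (an i Φ) c) := by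
    intro j
    have h2 := anti_cr i j Φ c
    have h3 := anti_an i j Φ c
    linear_combination p j * h2 + q j * h3
  simp only [h1]
  rw [Finset.sum_sub_distrib]
  simp [opp]

/-- The head of the transfer. -/
private lemma Yo_head88 (t : ℝ) (x : ℕ → Fin n → ℝ) (k d : ℕ) (Ψ : Col n → ℝ) :
    Yo t x k (d + 1) Ψ = Vm (x k) (Wm t (Yo t x (k + 1) d Ψ)) := by
  induction d generalizing Ψ with
  | zero => rfl
  | succ d ih =>
    change Yo t x k (d + 1) (Vm (x (k + (d + 1))) (Wm t Ψ)) = _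
    rw [ih]
    have e : k + (d + 1) = k + 1 + d := by omega
    rw [e]
    rfl

section

variable {t : ℝ} (ht : 0 < t) (ht1 : t < 1) {x0 : Fin n → ℝ} (hx0 : ∀ j, 0 < x0 j)
  (hx01 : ∀ j, x0 j < 1) {x : ℕ → Fin n → ℝ} (hx : ∀ i j, x i j ≠ 0) {k d : ℕ}
  (hk : ∀ i < k, x i = x0) (e : Fin n → ℝ)

private lemma Xo_x0_88 (hk : ∀ i < k, x i = x0) : Xo t x k = Xm t x0 k := by
  rw [Xo_congr t (x' := fun _ => x0) (fun i hi => hk i hi)]
  exact Xo_const t x0 k

private lemma level88 (ht : 0 < t) (ht1 : t < 1) (hx : ∀ i j, x i j ≠ 0) (hk : ∀ i < k, x i = x0)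
    (hne : ip (fun _ => 1) (Xo t x (k + d) (fun _ => 1)) ≠ 0) (i : Fin n) :
    (pqo t x (fun w => ∑ v, e v * GSo t x (k + d) v w) k).1 i *
        ip (fun _ => 1) (Xo t x (k + d) (fun _ => 1)) =
      ip (fun _ => 1) (Xm t x0 k (an i (Yo t x k d (fun c => ∑ v, e v * sp (c v))))) := by
  have h1 := pqo_prof ht ht1 hx (k + d) hne e
  set cc : Fin n → ℝ := fun w => ∑ v, e v * GSo t x (k + d) v w with hcc
  have h2 := opp_Yo ht ht1 hx k d cc (fun _ => 1)
  rw [opp_one88 (pqo t x cc (k + d)).1, h1] at h2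
  rw [← h2, an_opp88, ipX_sub88]
  have h3 : ∀ Ψ : Col n → ℝ, ip (fun _ => 1) (Xm t x0 k (opp (pqo t x cc k).1 (pqo t x cc k).2 Ψ)) = 0 := by
    intro Ψ
    have h4 := opp_Xo ht ht1 hx k cc Ψ
    rw [Xo_x0_88 hk] at h4
    rw [← h4]
    exact ip_opp cc _
  rw [h3, sub_zero, Xo_add, Xo_x0_88 hk]

include ht ht1 hx0 hx01 hx hk

theorem level_formula (hne : ip (fun _ => 1) (Xo t x (k + d) (fun _ => 1)) ≠ 0) (i : Fin n) :
    (pqo t x (fun w => ∑ v, e v * GSo t x (k + d) v w) k).1 i =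
      (∑ v, e v * ip (fun _ => 1) (Xm t x0 k (an i (Yo t x k d (fun c => sp (c v)))))) /
        ip (fun _ => 1) (Xo t x (k + d) (fun _ => 1)) := by
  rw [eq_div_iff hne, level88 e ht ht1 hx hk hne i, Yo_lin, an_lin88, ipX_lin88]

theorem mid {x' : ℕ → Fin n → ℝ} (hx' : ∀ i j, x' i j ≠ 0) (hk' : ∀ i < k, x' i = x0)
    {ε : Fin n → ℝ} (hε : ∀ j, ε j = 1 ∨ ε j = -1) (hkk : x k = fun j => ε j * x' k j)
    (hgt : ∀ i, k < i → x i = x' i)
    (hne : ip (fun _ => 1) (Xo t x (k + (d + 1)) (fun _ => 1)) ≠ 0)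
    (hne' : ip (fun _ => 1) (Xo t x' (k + (d + 1)) (fun _ => 1)) ≠ 0) (i : Fin n) :
    ε i * (pqo t x (fun w => ∑ v, e v * GSo t x (k + (d + 1)) v w) k).1 i =
      (pqo t x' (fun w => ∑ v, e v * GSo t x' (k + (d + 1)) v w) k).1 i +
      ∑ l, ε i * (ip (fun _ => 1) (Xm t x0 k (an i (an l (Yo t x k (d + 1) (fun _ => 1))))) /
          ip (fun _ => 1) (Xo t x (k + (d + 1)) (fun _ => 1))) *
        ∑ j, (ε l - ε j) * Rm t x0 k l j *
          (pqo t x' (fun w => ∑ v, e v * GSo t x' (k + (d + 1)) v w) k).1 j := by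
  have hsq : ∀ j, ε j * ε j = 1 := by
    intro j
    rcases hε j with h | h <;> rw [h] <;> norm_num
  have hε0 : ∀ j, ε j ≠ 0 := by
    intro j
    rcases hε j with h | h <;> rw [h] <;> norm_num
  -- the coefficients for `x'`
  have hp := pqo_prof ht ht1 hx' (k + (d + 1)) hne' e
  set c' : Fin n → ℝ := fun w => ∑ v, e v * GSo t x' (k + (d + 1)) v w with hc'
  set P' := (pqo t x' c' k).1 with hP'
  set Q' := (pqo t x' c' k).2 with hQ'
  have hRest : Wm t (Yo t x' (k + 1) d (fun c => ∑ v, e v * sp (c v))) =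
      opp (fun j => P' j / x' k j) (fun j => x' k j * Q' j) (Wm t (Yo t x' (k + 1) d (fun _ => 1))) := by
    rw [opp_Wm ht ht1]
    have h2 := opp_Yo ht ht1 hx' (k + 1) d c' (fun _ => 1)
    have e1 : k + 1 + d = k + (d + 1) := by omega
    rw [opp_one88 (pqo t x' c' (k + 1 + d)).1, e1, hp] at h2
    rw [← h2]
    rfl
  -- transport to `x`
  have hY : Yo t x (k + 1) d = Yo t x' (k + 1) d :=
    Yo_congr t (fun i hi _ => hgt i (by omega))
  have hΦ : Yo t x k (d + 1) (fun c => ∑ v, e v * sp (c v)) =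
      opp (fun j => ε j * P' j) (fun j => ε j * Q' j) (Yo t x k (d + 1) (fun _ => 1)) := by
    rw [Yo_head88, Yo_head88, hY, hRest, opp_Vm (fun j => hx k j)]
    have e1 : (fun j => P' j / x' k j) = fun j => ε j * P' j / x k j := by
      funext j
      rw [hkk]
      have := hx' k j
      have := hε0 j
      field_simp
    have e2 : (fun j => x' k j * Q' j) = fun j => x k j * (ε j * Q' j) := by
      funext j
      rw [hkk]
      linear_combination (-(x' k j * Q' j)) * hsq j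
    rw [e1, e2]
  have hlev := level88 (d := d + 1) e ht ht1 hx hk hne i
  rw [hΦ, an_opp88, ipX_sub88] at hlev
  set P := (pqo t x (fun w => ∑ v, e v * GSo t x (k + (d + 1)) v w) k).1 with hP
  set Z := ip (fun _ => 1) (Xo t x (k + (d + 1)) (fun _ => 1)) with hZ
  set Φ := Yo t x k (d + 1) (fun _ => 1) with hΦd
  have hZΦ : ip (fun _ => 1) (Xm t x0 k Φ) = Z := by
    rw [hZ, Xo_add, Xo_x0_88 hk]
  have hQ : ∀ l, Q' l = ∑ j, Rm t x0 k l j * P' j := by
    intro l
    have h3 : pqo t x' c' k = pqs t x0 c' k := by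
      rw [pqo_congr t (x' := fun _ => x0) (fun i hi => hk' i hi)]
      exact pqo_const t x0 c' k
    rw [hQ', hP', h3]
    exact pqs_two ht ht1 hx0 hx01 k c' l
  have hopp : ∀ Ψ : Col n → ℝ,
      ip (fun _ => 1) (Xm t x0 k (opp (fun j => ε j * P' j) (fun j => ε j * Q' j) Ψ)) =
      ∑ l, ip (fun _ => 1) (Xm t x0 k (an l Ψ)) * ∑ j, (ε l - ε j) * Rm t x0 k l j * P' j := by
    intro Ψ
    have h4 : ip (fun _ => 1) (Xm t x0 k (opp (fun j => ε j * P' j) (fun j => ε j * Q' j) Ψ)) =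
        ∑ j, (ε j * P' j * ip (fun _ => 1) (Xm t x0 k (cr j Ψ)) +
          ε j * Q' j * ip (fun _ => 1) (Xm t x0 k (an j Ψ))) := by
      have e1 : opp (fun j => ε j * P' j) (fun j => ε j * Q' j) Ψ =
          fun c => ∑ z ∈ (Finset.univ : Finset (Fin n)) ×ˢ (Finset.univ : Finset Bool),
          (if z.2 then ε z.1 * P' z.1 else ε z.1 * Q' z.1) *
            (if z.2 then cr z.1 Ψ else an z.1 Ψ) c := by
        funext c
        rw [Finset.sum_product]
        unfold opp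
        refine Finset.sum_congr rfl fun j _ => ?_
        simp
      rw [e1, ipX_lin88, Finset.sum_product]
      refine Finset.sum_congr rfl fun j _ => ?_
      simp
    rw [h4]
    simp only [bra ht ht1 hx0 hx01 k]
    rw [Finset.sum_add_distrib]
    have h5 : ∑ j, ε j * P' j * -∑ l, Rm t x0 k l j * ip (fun _ => 1) (Xm t x0 k (an l Ψ)) =
        ∑ l, ip (fun _ => 1) (Xm t x0 k (an l Ψ)) * ∑ j, -(ε j * Rm t x0 k l j * P' j) := by
      simp only [Finset.mul_sum, mul_neg]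
      simp only [← Finset.sum_neg_distrib]
      rw [Finset.sum_comm]
      refine Finset.sum_congr rfl fun l _ => Finset.sum_congr rfl fun j _ => ?_
      ring
    rw [h5, ← Finset.sum_add_distrib]
    refine Finset.sum_congr rfl fun l _ => ?_
    rw [hQ l]
    have h6 : ∑ j, (ε l - ε j) * Rm t x0 k l j * P' j =
        ε l * ∑ j, Rm t x0 k l j * P' j + ∑ j, -(ε j * Rm t x0 k l j * P' j) := by
      rw [Finset.mul_sum, ← Finset.sum_add_distrib]
      refine Finset.sum_congr rfl fun j _ => ?_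
      ring
    rw [h6]
    ring
  rw [hopp, hZΦ] at hlev
  have hanti : ∀ l, ip (fun _ => 1) (Xm t x0 k (an l (an i Φ))) =
      -ip (fun _ => 1) (Xm t x0 k (an i (an l Φ))) := by
    intro l
    have e1 : an l (an i Φ) = fun c => 0 * Φ c - an i (an l Φ) c := by
      funext c
      have := anti_an l i Φ c
      linear_combination this
    rw [e1, ipX_sub88]
    ring
  simp only [hanti] at hlev
  have hsum : ∑ l, ε i * (ip (fun _ => 1) (Xm t x0 k (an i (an l Φ))) / Z) *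
      ∑ j, (ε l - ε j) * Rm t x0 k l j * P' j =
      -(ε i * (∑ l, -ip (fun _ => 1) (Xm t x0 k (an i (an l Φ))) *
        ∑ j, (ε l - ε j) * Rm t x0 k l j * P' j) / Z) := by
    rw [Finset.mul_sum, Finset.sum_div, ← Finset.sum_neg_distrib]
    refine Finset.sum_congr rfl fun l _ => ?_
    ring
  rw [hsum]
  have hlev2 : P i = (ε i * P' i * Z - ∑ l, -ip (fun _ => 1) (Xm t x0 k (an i (an l Φ))) *
      ∑ j, (ε l - ε j) * Rm t x0 k l j * P' j) / Z := by
    rw [eq_div_iff hne]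
    exact hlev
  rw [hlev2]
  have hne2 : Z ≠ 0 := hne
  have := hsq i
  field_simp
  linear_combination (P' i * Z) * this

end

end Pool.Agent.Helper49.RD
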