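import Pool.Agent.Helper49.RD.Alg0

/-!
Block RD-A4: bounds by positivity in the character basis.

Paper proofs. `fc A Φ = ∑ c, chi A c * Φ c`; `Dm Φ Ψ` means `|fc A Φ| ≤ fc A Ψ` for all `A`. The inversion formula is `Φ c = 2^(-n) ∑ A, fc A Φ * chi A c`
(`sum_chi`-type orthogonality as in `DX/Gk.lean`), but it is not needed if one works with the following formulas for `fc`:
* multiplication by `sp (c i) * sp (c j)` (or `sp (c i)`): `fc A (sp i * Φ) = fc (A ∆ {i}) Φ` (`chi A c * sp (c i) = chi (A ∆ {i}) c`). Hence multiplication by `1 + t * (sp (c j) * sp (c (j+1)))`,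
  `0 ≤ t`, preserves `Dm`, and so does `Wm t` (finite product of such factors).
* `fc A (Vm x Φ) = 2^n * (∏ j ∈ A, x j) * fc A Φ`: `∑ c, chi A c * ∏ j (1 + x j sp (c j) sp (c' j)) = 2^n (∏ j ∈ A, x j) chi A c'` (`Finset.prod_univ_sum`, the sum factorises over the
  sites). So `Dm Φ Ψ → Dm (Vm x Φ) (Vm y Ψ)` if `|x j| ≤ y j`.
* `fc A (an j Φ) = ± fc (A ∪ {j}) Φ` if `j ∉ A`, `0` if `j ∈ A`: substitute `c → flt j c` resp. `fle j c` in the two parts: `fc A (xi j Φ) = ∑ chi A (flt j c) sp (c j) Φ c`, `chi A (flt j c) = (-1)^{|A ∩ [0, j)|} chi A c`,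
  `fc A (ze j Φ) = ∑ chi A (fle j c) sp (fle j c j) Φ c = -(-1)^{|A ∩ [0, j]|} fc (A ∆ {j}) Φ`. So `|fc A (an j Φ)| ≤ |fc (A ∆ {j}) Φ|`, i.e. `Dm Φ Ψ → Dm (an j Φ) (sp j * Ψ)`.
* `Dm (fun _ => 1) (fun _ => 1)`, `Dm (sp v) (sp v)` (`fc A 1 = 2^n` if `A = ∅` else `0`), `ip 1 Φ = fc ∅ Φ`.
* `dom_one`, `dom_two`: combine (`Xm t x0 k`, `Yo t x k d` are compositions of `Wm t` and `Vm`), `|x i j| ≤ x0 j`, `0 ≤ x0 j`.
-/

open Finset

namespace Pool.Agent.Helper49.RD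

open Pool.Agent.Helper49.DL Pool.Agent.Helper49.DX

variable {n : ℕ}

private noncomputable def fc61 (A : Finset (Fin n)) (Φ : Col n → ℝ) : ℝ := ∑ c, chi A c * Φ c

private def Dm61 (Φ Ψ : Col n → ℝ) : Prop := ∀ A, |fc61 A Φ| ≤ fc61 A Ψ

private def tg61 (A : Finset (Fin n)) (j : Fin n) : Finset (Fin n) :=
  if j ∈ A then A.erase j else insert j A

private lemma chi_tg61 (A : Finset (Fin n)) (j : Fin n) (c : Col n) :
    chi (tg61 A j) c = chi A c * sp (c j) := by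
  unfold tg61
  by_cases h : j ∈ A
  · rw [if_pos h]
    unfold chi
    rw [← Finset.mul_prod_erase A (fun v => sp (c v)) h]
    have := sp_mul_self (c j)
    linear_combination (-(∏ v ∈ A.erase j, sp (c v))) * this
  · rw [if_neg h]
    unfold chi
    rw [Finset.prod_insert h, mul_comm]

private lemma fc_sp61 (A : Finset (Fin n)) (j : Fin n) (Φ : Col n → ℝ) :
    fc61 A (fun c => sp (c j) * Φ c) = fc61 (tg61 A j) Φ := by
  unfold fc61
  refine Finset.sum_congr rfl fun c _ => ?_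
  rw [chi_tg61, mul_assoc]

private lemma fc_add61 (A : Finset (Fin n)) (Φ Ψ : Col n → ℝ) (t : ℝ) :
    fc61 A (fun c => Φ c + t * Ψ c) = fc61 A Φ + t * fc61 A Ψ := by
  unfold fc61
  rw [Finset.mul_sum, ← Finset.sum_add_distrib]
  refine Finset.sum_congr rfl fun c _ => ?_
  ring

private lemma dm_sp61 {Φ Ψ : Col n → ℝ} (h : Dm61 Φ Ψ) (j : Fin n) :
    Dm61 (fun c => sp (c j) * Φ c) (fun c => sp (c j) * Ψ c) := by
  intro A
  rw [fc_sp61, fc_sp61]
  exact h _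

private lemma dm_add61 {Φ Ψ Φ' Ψ' : Col n → ℝ} (h : Dm61 Φ Ψ) (h' : Dm61 Φ' Ψ') {t : ℝ}
    (ht : 0 ≤ t) : Dm61 (fun c => Φ c + t * Φ' c) (fun c => Ψ c + t * Ψ' c) := by
  intro A
  rw [fc_add61, fc_add61]
  calc |fc61 A Φ + t * fc61 A Φ'| ≤ |fc61 A Φ| + |t * fc61 A Φ'| := abs_add_le _ _
    _ = |fc61 A Φ| + t * |fc61 A Φ'| := by rw [abs_mul, abs_of_nonneg ht]
    _ ≤ _ := add_le_add (h A) (mul_le_mul_of_nonneg_left (h' A) ht)

private lemma dm_wc61 {t : ℝ} (ht : 0 ≤ t) {Φ Ψ : Col n → ℝ} (h : Dm61 Φ Ψ) :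
    Dm61 (Wm t Φ) (Wm t Ψ) := by
  have key : ∀ s : Finset (Fin n),
      Dm61 (fun c => (∏ j ∈ s, if h : (j : ℕ) + 1 < n then
        1 + t * (sp (c j) * sp (c ⟨(j : ℕ) + 1, h⟩)) else 1) * Φ c)
      (fun c => (∏ j ∈ s, if h : (j : ℕ) + 1 < n then
        1 + t * (sp (c j) * sp (c ⟨(j : ℕ) + 1, h⟩)) else 1) * Ψ c) := by
    intro s
    induction s using Finset.induction_on with
    | empty => simpa using h
    | insert j s hj ih =>
      simp only [Finset.prod_insert hj]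
      by_cases hn : (j : ℕ) + 1 < n
      · simp only [dif_pos hn]
        have h2 := dm_add61 ih (dm_sp61 (dm_sp61 ih ⟨(j : ℕ) + 1, hn⟩) j) ht
        convert h2 using 2 <;> ring
      · simp only [dif_neg hn, one_mul]
        exact ih
  exact key Finset.univ

private lemma chi_eq_univ61 (A : Finset (Fin n)) (σ : Fin n → Bool) :
    chi A σ = ∏ v, (if v ∈ A then sp (σ v) else 1) := by
  unfold chi
  rw [Finset.prod_ite_mem, Finset.univ_inter]

private lemma sum_chi61 (A B : Finset (Fin n)) :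
    ∑ σ : Col n, chi A σ * chi B σ = if B = A then 2 ^ n else 0 := by
  have h1 : ∀ σ : Fin n → Bool, chi A σ * chi B σ =
      ∏ v, ((if v ∈ A then sp (σ v) else 1) * (if v ∈ B then sp (σ v) else 1)) := by
    intro σ
    rw [chi_eq_univ61, chi_eq_univ61, Finset.prod_mul_distrib]
  have h2 := Finset.prod_univ_sum (fun _ : Fin n => (Finset.univ : Finset Bool))
    (fun v b => (if v ∈ A then sp b else 1) * (if v ∈ B then sp b else (1 : ℝ)))
  rw [Fintype.piFinset_univ] at h2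
  rw [Finset.sum_congr rfl fun σ _ => h1 σ, ← h2]
  have h3 : ∀ v : Fin n,
      ∑ b : Bool, (if v ∈ A then sp b else 1) * (if v ∈ B then sp b else (1 : ℝ)) =
      if (v ∈ B ↔ v ∈ A) then 2 else 0 := by
    intro v
    rw [Fintype.sum_bool]
    by_cases hA : v ∈ A <;> by_cases hB : v ∈ B <;> simp [hA, hB] <;> norm_num
  rw [Finset.prod_congr rfl fun v _ => h3 v]
  by_cases hAB : B = A
  · rw [if_pos hAB]
    subst hAB
    simp
  · rw [if_neg hAB]
    have : ∃ v, ¬ (v ∈ B ↔ v ∈ A) := by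
      by_contra hcon
      push Not at hcon
      exact hAB (Finset.ext hcon)
    obtain ⟨v, hv⟩ := this
    exact Finset.prod_eq_zero (Finset.mem_univ v) (if_neg hv)

private lemma fc_V61 (x : Fin n → ℝ) (A : Finset (Fin n)) (Φ : Col n → ℝ) :
    fc61 A (Vm x Φ) = 2 ^ n * (∏ j ∈ A, x j) * fc61 A Φ := by
  have e1 : ∀ c : Col n, Vm x Φ c = ∑ B ∈ (Finset.univ : Finset (Fin n)).powerset,
      ((∏ j ∈ B, x j) * fc61 B Φ) * chi B c := by
    intro c
    have e1 : ∀ c' : Col n, (∏ j, (1 + x j * (sp (c j) * sp (c' j)))) * Φ c' =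
        ∑ B ∈ (Finset.univ : Finset (Fin n)).powerset,
          ((∏ j ∈ B, x j) * (chi B c' * Φ c')) * chi B c := by
      intro c'
      rw [Finset.prod_one_add, Finset.sum_mul]
      refine Finset.sum_congr rfl fun B _ => ?_
      rw [Finset.prod_mul_distrib, Finset.prod_mul_distrib, chi, chi]
      ring
    show ∑ c' : Col n, (∏ j, (1 + x j * (sp (c j) * sp (c' j)))) * Φ c' = _
    rw [Finset.sum_congr rfl fun c' _ => e1 c', Finset.sum_comm]
    refine Finset.sum_congr rfl fun B _ => ?_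
    unfold fc61
    rw [Finset.mul_sum, Finset.sum_mul]
  have e2 : fc61 A (Vm x Φ) = ∑ c : Col n, ∑ B ∈ (Finset.univ : Finset (Fin n)).powerset,
      ((∏ j ∈ B, x j) * fc61 B Φ) * (chi A c * chi B c) := by
    unfold fc61
    refine Finset.sum_congr rfl fun c _ => ?_
    rw [e1, Finset.mul_sum]
    refine Finset.sum_congr rfl fun B _ => ?_
    unfold fc61
    ring
  rw [e2, Finset.sum_comm]
  simp only [← Finset.mul_sum, sum_chi61]
  rw [Finset.sum_eq_single A]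
  · rw [if_pos rfl]; ring
  · intro B _ hB
    rw [if_neg hB, mul_zero]
  · intro h
    exact absurd (Finset.mem_powerset.2 (Finset.subset_univ A)) h

private lemma dm_V61 {Φ Ψ : Col n → ℝ} (h : Dm61 Φ Ψ) {x y : Fin n → ℝ}
    (hxy : ∀ j, |x j| ≤ y j) : Dm61 (Vm x Φ) (Vm y Ψ) := by
  intro A
  rw [fc_V61, fc_V61, abs_mul, abs_mul, Finset.abs_prod, abs_of_nonneg (by positivity : (0 : ℝ) ≤ 2 ^ n)]
  have h1 : ∏ j ∈ A, |x j| ≤ ∏ j ∈ A, y j :=
    Finset.prod_le_prod (fun j _ => abs_nonneg _) (fun j _ => hxy j)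
  have h2 : (0 : ℝ) ≤ 2 ^ n * ∏ j ∈ A, y j :=
    mul_nonneg (by positivity) (Finset.prod_nonneg fun j _ => (abs_nonneg _).trans (hxy j))
  exact mul_le_mul (mul_le_mul_of_nonneg_left h1 (by positivity)) (h A) (abs_nonneg _) h2

private lemma flt_flt61 (j : Fin n) (c : Col n) : flt j (flt j c) = c := by
  funext i
  unfold flt
  by_cases h : i < j
  · simp [h]
  · simp [h]

private lemma fle_fle61 (j : Fin n) (c : Col n) : fle j (fle j c) = c := by
  funext i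
  unfold fle
  by_cases h : i ≤ j
  · simp [h]
  · simp [h]

private lemma chi_sgn61 (A : Finset (Fin n)) (P : Fin n → Prop) [DecidablePred P] (c : Col n) :
    chi A (fun i => if P i then !(c i) else c i) = (∏ v ∈ A, if P v then (-1 : ℝ) else 1) * chi A c := by
  unfold chi
  rw [← Finset.prod_mul_distrib]
  refine Finset.prod_congr rfl fun v _ => ?_
  by_cases h : P v
  · simp only [if_pos h, sp_not]; ring
  · simp only [if_neg h]; ring

private lemma sgn_abs61 (A : Finset (Fin n)) (P : Fin n → Prop) [DecidablePred P] :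
    |∏ v ∈ A, (if P v then (-1 : ℝ) else 1)| = 1 := by
  rw [Finset.abs_prod]
  refine Finset.prod_eq_one fun v _ => ?_
  by_cases h : P v
  · rw [if_pos h]; norm_num
  · rw [if_neg h]; norm_num

private lemma fc_xi61 (A : Finset (Fin n)) (j : Fin n) (Φ : Col n → ℝ) :
    |fc61 A (xi j Φ)| = |fc61 (tg61 A j) Φ| := by
  have h1 : fc61 A (xi j Φ) = (∏ v ∈ A, if v < j then (-1 : ℝ) else 1) * fc61 (tg61 A j) Φ := by
    unfold fc61
    rw [← Equiv.sum_comp (Function.Involutive.toPerm (flt j) (flt_flt61 j))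
      (fun c => chi A c * xi j Φ c), Finset.mul_sum]
    refine Finset.sum_congr rfl fun c _ => ?_
    show chi A (flt j c) * (sp (flt j c j) * Φ (flt j (flt j c))) = _
    have e1 : flt j c j = c j := by
      unfold flt
      rw [if_neg (lt_irrefl _)]
    have e2 : chi A (flt j c) = (∏ v ∈ A, if v < j then (-1 : ℝ) else 1) * chi A c :=
      chi_sgn61 A (fun i => i < j) c
    rw [flt_flt61, e1, e2, chi_tg61]
    ring
  rw [h1, abs_mul, sgn_abs61, one_mul]

private lemma fc_ze61 (A : Finset (Fin n)) (j : Fin n) (Φ : Col n → ℝ) :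
    |fc61 A (ze j Φ)| = |fc61 (tg61 A j) Φ| := by
  have h1 : fc61 A (ze j Φ) = -(∏ v ∈ A, if v ≤ j then (-1 : ℝ) else 1) * fc61 (tg61 A j) Φ := by
    unfold fc61
    rw [← Equiv.sum_comp (Function.Involutive.toPerm (fle j) (fle_fle61 j))
      (fun c => chi A c * ze j Φ c), Finset.mul_sum]
    refine Finset.sum_congr rfl fun c _ => ?_
    show chi A (fle j c) * (sp (fle j c j) * Φ (fle j (fle j c))) = _
    have e1 : fle j c j = !(c j) := by
      unfold fle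
      rw [if_pos le_rfl]
    have e2 : chi A (fle j c) = (∏ v ∈ A, if v ≤ j then (-1 : ℝ) else 1) * chi A c :=
      chi_sgn61 A (fun i => i ≤ j) c
    rw [fle_fle61, e1, e2, chi_tg61, sp_not]
    ring
  rw [h1, abs_mul, abs_neg, sgn_abs61, one_mul]

private lemma dm_an61 {Φ Ψ : Col n → ℝ} (h : Dm61 Φ Ψ) (j : Fin n) :
    Dm61 (an j Φ) (fun c => sp (c j) * Ψ c) := by
  intro A
  rw [fc_sp61]
  have e : fc61 A (an j Φ) = (fc61 A (xi j Φ) - fc61 A (ze j Φ)) / 2 := by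
    unfold fc61
    rw [← Finset.sum_sub_distrib, Finset.sum_div]
    refine Finset.sum_congr rfl fun c _ => ?_
    unfold an
    ring
  have h1 := fc_xi61 A j Φ
  have h2 := fc_ze61 A j Φ
  have h3 := h (tg61 A j)
  have h4 : |fc61 A (xi j Φ) - fc61 A (ze j Φ)| ≤ |fc61 A (xi j Φ)| + |fc61 A (ze j Φ)| :=
    abs_sub _ _
  rw [e, abs_div, abs_of_pos (by norm_num : (0 : ℝ) < 2)]
  rw [div_le_iff₀ (by norm_num : (0 : ℝ) < 2)]
  linarith

private lemma dm_cone61 {Φ : Col n → ℝ} (h : Φ ∈ Cone (Fin n)) : Dm61 Φ Φ := by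
  intro A
  have h1 : 0 ≤ fc61 A Φ := cone_sum_nonneg (cone_mul (cone_chi A) h)
  rw [abs_of_nonneg h1]

private lemma dm_Xm61 {t : ℝ} (ht : 0 ≤ t) {x0 : Fin n → ℝ} (hx0 : ∀ j, 0 ≤ x0 j) (k : ℕ)
    {Φ Ψ : Col n → ℝ} (h : Dm61 Φ Ψ) : Dm61 (Xm t x0 k Φ) (Xm t x0 k Ψ) := by
  induction k with
  | zero => exact dm_wc61 ht h
  | succ k ih =>
    exact dm_wc61 ht (dm_V61 ih (fun j => by rw [abs_of_nonneg (hx0 j)]))

private lemma dm_Yo61 {t : ℝ} (ht : 0 ≤ t) {x0 : Fin n → ℝ} {x : ℕ → Fin n → ℝ}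
    (hx : ∀ i j, |x i j| ≤ x0 j) (k d : ℕ)
    {Φ Ψ : Col n → ℝ} (h : Dm61 Φ Ψ) : Dm61 (Yo t x k d Φ) (Yo t (fun _ => x0) k d Ψ) := by
  induction d generalizing Φ Ψ with
  | zero => exact h
  | succ d ih => exact ih (dm_V61 (dm_wc61 ht h) (hx _))

private lemma dm_ip61 {Φ Ψ : Col n → ℝ} (h : Dm61 Φ Ψ) :
    |ip (fun _ => 1) Φ| ≤ ip (fun _ => 1) Ψ := by
  have h1 := h ∅
  unfold fc61 at h1
  simp only [chi_empty] at h1
  exact h1

section

variable {t : ℝ} (ht : 0 ≤ t) {x0 : Fin n → ℝ} (hx0 : ∀ j, 0 ≤ x0 j) {x : ℕ → Fin n → ℝ}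
  (hx : ∀ i j, |x i j| ≤ x0 j)

include ht hx0 hx

theorem dom_one (k d : ℕ) (i v : Fin n) :
    |ip (fun _ => 1) (Xm t x0 k (an i (Yo t x k d (fun c => sp (c v)))))| ≤
      ip (fun _ => 1) (Xm t x0 k (fun c => sp (c i) * Yo t (fun _ => x0) k d (fun c => sp (c v)) c)) := by
  exact dm_ip61 (dm_Xm61 ht hx0 k (dm_an61 (dm_Yo61 ht hx k d (dm_cone61 (cone_sp v))) i))

theorem dom_two (k d : ℕ) (i l : Fin n) :
    |ip (fun _ => 1) (Xm t x0 k (an i (an l (Yo t x k d (fun _ => 1)))))| ≤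
      ip (fun _ => 1) (Xm t x0 k
        (fun c => sp (c i) * (sp (c l) * Yo t (fun _ => x0) k d (fun _ => 1) c))) := by
  exact dm_ip61 (dm_Xm61 ht hx0 k (dm_an61 (dm_an61 (dm_Yo61 ht hx k d
    (dm_cone61 (cone_const zero_le_one))) l) i))

theorem dom_spin (k : ℕ) (i l : Fin n) :
    0 ≤ ip (fun _ => 1) (Xm t x0 k (fun c => sp (c i) * sp (c l))) := by
  exact (abs_nonneg _).trans (dm_ip61 (dm_Xm61 ht hx0 k (dm_cone61 (cone_mul (cone_sp i) (cone_sp l)))))

end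

end Pool.Agent.Helper49.RD
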