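import Pool.Agent.Helper49.RD.LevO

/-!
Block RD-TB: bounds for the quantities in the identity `mid` (`RD/Alg3.lean`).

`t = exp (-β)`, `td = exp (-(β J))`, box `n n`, `L = 2 n + 1`, `x0 = xs t td n`, `x = xwl t td n r`, `c = (β - β₁) mag β₁² > 0`, `ρ i j = exp (-(c |i - j|))`.

Paper proofs.
* `psl_ch`: the sites `(l - n, c)`, `(l - n, 1 - c)` (`c ≥ 1`) of the strings are distinct (different columns for different strings), and in the box (`1 ≤ c ≤ n`, `l ≤ 2 n`).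
* `tt_low`: `ch_lower` (`RD/Gks.lean`), `mag β ≤ 1`, `card ≤ 2 * length`. `mag β > 0` (`mag_mono`).
* `hne_all`: `box_rep` with `ysl_fits`: `ip 1 (Xo t x L 1) = K * ZG ysl ∅`, `ps_tt`: `ZG ysl ∅ = avg tt (psl) * ZG xe ∅ ≠ 0`.
* `ratio_tt`: `box_rep` for `x` and for `x0` (list `[]`): the quotient of the two is `ZG ysl ∅ / ZG xe ∅ = avg tt psl`. (`Xo_const`.)
* `rm_bound`: `rm_self` if `l = j`; else `rm_le` bounds it by `|ip 1 (Xm t x0 k (sp l * sp j))| / ip 1 (Xm t x0 k 1)`. Use `box_rep` for the weights `X i = x0` for `i < k`, `X i = 0` for `k ≤ i` and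
  `v e = xe e` on the vertical edges and the gaps `< k`, `0` on the gaps `≥ k`: `Yo t X k d 1` is a positive constant function (`Vm 0 Φ` is the constant `∑ c', Φ c'`, `Wm t 1 > 0`), so `ZG v (pr p q)/ZG v ∅` is the quotient
  (`dom_spin`: the numerator is `≥ 0`). `ZG_mono` (`DX/Gk.lean`, `v ≤ xe < 1`): it is at most `G2 p q`; `G2_decay`.
* `kap_bound`: `dom_two` (`RD/Alg4.lean`), numerator `≤ ip 1 (Xm t x0 k (sp i * (sp l * Yo (const x0) k d 1))) = K * ZG xe (pr p q)` (`box_rep`, `Xo_const`), denominator: `ratio_tt`, `tt_low`; `G2_decay`.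
* `lvl_bound`: `level_formula` for `e v = e0 (ds v)` (`k + d = L`), `dom_one`, `box_rep`: `≤ G2 (p k i) b / avg tt (psl r)`; `g2_rgt` (`RD/G2pt.lean`), `tt_low`. Column `k` is `x = -n - 1 + k`, `n - x = L - k`, row `i` is `y = i - n`, `|y| = ds n i`.
-/

open Finset
open scoped Classical

namespace Pool.Agent.Helper49.RD

open Pool.Agent.Helper49.DL Pool.Agent.Helper49.DX

private theorem abs_sp52 (b : Bool) : |sp b| = 1 := by
  cases b <;> simp [sp]

private theorem psl_ch52 {n : ℕ} (hn : 1 ≤ n) : ∀ (r : List (ℕ × ℕ)) (k : ℕ), So n k r →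
    ∃ A : Finset Site, A ⊆ box n n ∧ (∀ v ∈ A, (k : ℤ) - n ≤ v.1) ∧ A.card ≤ 2 * r.length ∧ psl n r = ch A := by
  intro r
  induction r with
  | nil =>
    intro k _
    refine ⟨∅, Finset.empty_subset _, fun v hv => absurd hv (Finset.notMem_empty v), by simp, ?_⟩
    funext ω
    simp [psl, ch]
  | cons a r ih =>
    intro k hr
    obtain ⟨h1, h2, h3, h4⟩ := hr
    obtain ⟨A, hA, hk, hc, he⟩ := ih _ h4
    by_cases ha : a.2 = 0
    · refine ⟨A, hA, fun v hv => ?_, ?_, ?_⟩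
      · have := hk v hv
        push_cast at this
        omega
      · rw [List.length_cons]
        omega
      · funext ω
        rw [← he]
        simp only [psl]
        rw [if_pos ha, one_mul]
    · have n1 : ((a.1 : ℤ) - n, 1 - (a.2 : ℤ)) ∉ A := by
        intro hv
        have := hk _ hv
        push_cast at this
        omega
      have n2 : ((a.1 : ℤ) - n, (a.2 : ℤ)) ∉ insert ((a.1 : ℤ) - n, 1 - (a.2 : ℤ)) A := by
        rw [Finset.mem_insert, not_or]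
        refine ⟨fun hv => ?_, fun hv => ?_⟩
        · have := congrArg Prod.snd hv
          simp only at this
          omega
        · have := hk _ hv
          push_cast at this
          omega
      refine ⟨insert ((a.1 : ℤ) - n, (a.2 : ℤ)) (insert ((a.1 : ℤ) - n, 1 - (a.2 : ℤ)) A), ?_, ?_, ?_, ?_⟩
      · rw [Finset.insert_subset_iff, Finset.insert_subset_iff]
        refine ⟨?_, ?_, hA⟩
        · unfold DL.box
          rw [Finset.mem_product, Finset.mem_Icc, Finset.mem_Icc]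
          simp only
          omega
        · unfold DL.box
          rw [Finset.mem_product, Finset.mem_Icc, Finset.mem_Icc]
          simp only
          omega
      · intro v hv
        rw [Finset.mem_insert, Finset.mem_insert] at hv
        rcases hv with hv | hv | hv
        · rw [hv]
          simp only
          omega
        · rw [hv]
          simp only
          omega
        · have := hk v hv
          push_cast at this
          omega
      · rw [Finset.card_insert_of_notMem n2, Finset.card_insert_of_notMem n1, List.length_cons]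
        omega
      · funext ω
        unfold ch
        rw [Finset.prod_insert n2, Finset.prod_insert n1]
        have e := congrFun he ω
        unfold ch at e
        rw [← e]
        simp only [psl]
        rw [if_neg ha, mul_assoc]

theorem psl_ch {n k : ℕ} {r : List (ℕ × ℕ)} (hr : So n k r) (hn : 1 ≤ n) :
    ∃ A : Finset Site, A ⊆ box n n ∧ A.card ≤ 2 * r.length ∧ psl n r = ch A := by
  obtain ⟨A, h1, -, h2, h3⟩ := psl_ch52 hn r k hr
  exact ⟨A, h1, h2, h3⟩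

private theorem so_mem52 {n : ℕ} : ∀ (r : List (ℕ × ℕ)) (k : ℕ), So n k r → ∀ a ∈ r, a.1 ≤ 2 * n ∧ a.2 ≤ n := by
  intro r
  induction r with
  | nil => intro k _ a ha; simp at ha
  | cons b r ih =>
    intro k hr a ha
    obtain ⟨h1, h2, h3, h4⟩ := hr
    rcases List.mem_cons.1 ha with ha | ha
    · rw [ha]
      exact ⟨h2, h3⟩
    · exact ih _ h4 a ha

private theorem ch_le52 (A : Finset Site) (ω : Cfg) : ch A ω ≤ 1 := by
  refine (le_abs_self _).trans ?_
  unfold ch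
  rw [Finset.abs_prod]
  exact (Finset.prod_congr rfl fun v _ => abs_sp52 (ω v)).trans Finset.prod_const_one |>.le

private theorem xs_pos52 {β J : ℝ} (n : ℕ) (j : Fin (2 * n + 1)) :
    0 < xs (Real.exp (-β)) (Real.exp (-(β * J))) n j := xs_pos (Real.exp_pos _) (Real.exp_pos _) n j

private theorem xs_lt52 {β J : ℝ} (hβ : 0 < β) (hJ : 0 < J) (n : ℕ) (j : Fin (2 * n + 1)) :
    xs (Real.exp (-β)) (Real.exp (-(β * J))) n j < 1 :=
  xs_lt_one (by rw [Real.exp_lt_one_iff]; linarith) (by rw [Real.exp_lt_one_iff]; nlinarith [mul_pos hβ hJ]) n j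

private theorem abs_xwl52 {β J : ℝ} (n : ℕ) (r : List (ℕ × ℕ)) (i : ℕ) (j : Fin (2 * n + 1)) :
    |xwl (Real.exp (-β)) (Real.exp (-(β * J))) n r i j| ≤ xs (Real.exp (-β)) (Real.exp (-(β * J))) n j :=
  (xwl_ne (Real.exp_pos _) (Real.exp_pos _) n r i j).2.le

private theorem plq52 {n k : ℕ} (hn : 1 ≤ n) (hk : k ≤ 2 * n + 1) (j : Fin (2 * n + 1)) :
    ∃ p : PV (box (n : ℤ) n), pq k j p := by
  have hj := j.2
  refine ⟨⟨(-(n : ℤ) - 1 + (k : ℤ), -(n : ℤ) + ((j : ℕ) : ℤ)), ?_⟩, rfl⟩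
  rw [mem_PL_box (by omega) (by omega)]
  simp only
  omega

private theorem g2row52 {β₁ β J : ℝ} (h0 : 0 ≤ β₁) (h : β₁ < β) (hJ : 1 < J) {n k : ℕ} (hn : 2 ≤ n)
    {i l : Fin (2 * n + 1)} {p q : PV (box (n : ℤ) n)} (hp : pq k i p) (hq : pq k l q) :
    G2 β J n n p q ≤ Real.exp (-((β - β₁) * mag β₁ ^ 2 * |((i : ℕ) : ℝ) - (l : ℕ)|)) := by
  refine (G2_decay h0 h.le hJ.le (by omega) (by omega) p q).trans (le_of_eq ?_)
  have e1 : p.1.1 - q.1.1 = 0 := by
    rw [hp, hq]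
    simp
  have e2 : p.1.2 - q.1.2 = ((i : ℕ) : ℤ) - ((l : ℕ) : ℤ) := by
    rw [hp, hq]
    simp
  rw [e1, e2, abs_zero, max_eq_right (abs_nonneg _)]
  push_cast
  rfl

private theorem Kpos52 {β J : ℝ} (hβ : 0 < β) (hJ : 0 < J) {n : ℕ} {K : ℝ}
    (h : K * ZG dA (xe β (kap J) : LB (box (n : ℤ) n) → ℝ) ∅ = ip (fun _ => 1)
      (Xo (Real.exp (-β)) (fun _ => xs (Real.exp (-β)) (Real.exp (-(β * J))) n) (2 * n + 1) (fun _ => 1))) :
    0 < K ∧ 0 < ip (fun _ => 1) (Xm (Real.exp (-β)) (xs (Real.exp (-β)) (Real.exp (-(β * J))) n) (2 * n + 1) (fun _ => 1)) := by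
  have h1 := Xm_one_pos (Real.exp_pos (-β)) (by rw [Real.exp_lt_one_iff]; linarith) (xs_pos52 (β := β) (J := J) n)
    (xs_lt52 hβ hJ n) (2 * n + 1)
  have h2 : 0 < ZG dA (xe β (kap J) : LB (box (n : ℤ) n) → ℝ) ∅ := ZG_pos fun e => (xe_pos (kap J) e).le
  rw [Xo_const] at h
  refine ⟨?_, h1⟩
  rw [← h] at h1
  exact (pos_iff_pos_of_mul_pos h1).2 h2

section

variable {β₁ β J : ℝ} (h0 : 0 ≤ β₁) (h : β₁ < β) (hm : 0 < mag β₁) (hJ : 1 < J) {n k : ℕ} (hn : 2 ≤ n)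
  {r : List (ℕ × ℕ)} (hr : So n k r)

include h0 h hm hJ hn hr

theorem tt_low : mag β ^ (2 * r.length) ≤ avg β (kap J) (box n n) tt (psl n r) ∧ 0 < mag β ∧
    avg β (kap J) (box n n) tt (psl n r) ≤ 1 := by
  have hmag : 0 < mag β := hm.trans_le (mag_mono h0 h.le)
  obtain ⟨A, hA, hc, he⟩ := psl_ch hr (by omega)
  rw [he]
  refine ⟨?_, hmag, ?_⟩
  · refine (pow_le_pow_of_le_one hmag.le (de2_mag_le_one β) hc).trans ?_
    exact ch_lower (by linarith) hJ.le hA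
  · exact (avg_mono fun ω _ => ch_le52 A ω).trans (avg_const 1).le

theorem hne_all : ip (fun _ => 1) (Xo (Real.exp (-β)) (xwl (Real.exp (-β)) (Real.exp (-(β * J))) n r)
    (2 * n + 1) (fun _ => 1)) ≠ 0 := by
  obtain ⟨K, hK, hrep⟩ := box_rep (N := n) (M := n) (by omega)
  have h1 := (hrep _ _ _ (ysl_fits (N := n) (M := n) β J r)).1
  have h2 := ps_tt (N := n) (M := n) (by omega) β J r (so_mem52 r k hr)
  obtain ⟨h3, h4, -⟩ := tt_low h0 h hm hJ hn hr
  have h5 : 0 < avg β (kap J) (box n n) tt (psl n r) := (pow_pos h4 _).trans_le h3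
  rw [← h1]
  refine mul_ne_zero hK fun h6 => ?_
  rw [h2, h6, zero_div] at h5
  exact lt_irrefl _ h5

theorem ratio_tt : ip (fun _ => 1) (Xo (Real.exp (-β)) (xwl (Real.exp (-β)) (Real.exp (-(β * J))) n r)
      (2 * n + 1) (fun _ => 1)) =
    avg β (kap J) (box n n) tt (psl n r) * ip (fun _ => 1)
      (Xm (Real.exp (-β)) (xs (Real.exp (-β)) (Real.exp (-(β * J))) n) (2 * n + 1) (fun _ => 1)) := by
  obtain ⟨K, hK, hrep⟩ := box_rep (N := n) (M := n) (by omega)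
  have h1 := (hrep _ _ _ (ysl_fits (N := n) (M := n) β J r)).1
  have h2 := ps_tt (N := n) (M := n) (by omega) β J r (so_mem52 r k hr)
  have h3 := (hrep _ _ _ (xe_fits (N := n) (M := n) β J)).1
  have h4 : 0 < ZG dA (xe β (kap J) : LB (box (n : ℤ) n) → ℝ) ∅ := ZG_pos fun e => (xe_pos (kap J) e).le
  rw [Xo_const] at h3
  rw [← h1, h2, ← h3]
  field_simp

theorem kap_bound {d : ℕ} (hd : k + d = 2 * n + 1) (i l : Fin (2 * n + 1)) :
    |ip (fun _ => 1) (Xm (Real.exp (-β)) (xs (Real.exp (-β)) (Real.exp (-(β * J))) n) k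
      (an i (an l (Yo (Real.exp (-β)) (xwl (Real.exp (-β)) (Real.exp (-(β * J))) n r) k d (fun _ => 1))))) /
      ip (fun _ => 1) (Xo (Real.exp (-β)) (xwl (Real.exp (-β)) (Real.exp (-(β * J))) n r)
        (2 * n + 1) (fun _ => 1))| ≤
      (mag β ^ (2 * r.length))⁻¹ * Real.exp (-((β - β₁) * mag β₁ ^ 2 * |((i : ℕ) : ℝ) - (l : ℕ)|)) := by
  obtain ⟨K, hK, hrep⟩ := box_rep (N := n) (M := n) (by omega)
  obtain ⟨h1, -, h3, -⟩ := hrep _ _ _ (xe_fits (N := n) (M := n) β J)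
  obtain ⟨hKp, hZp⟩ := Kpos52 (by linarith) (by linarith) h1
  obtain ⟨p, hp⟩ := plq52 (n := n) (k := k) (by omega) (by omega) i
  obtain ⟨q, hq⟩ := plq52 (n := n) (k := k) (by omega) (by omega) l
  have h4 := h3 k d hd i l p q hp hq
  have h5 := dom_two (Real.exp_pos (-β)).le (fun j => (xs_pos52 (β := β) (J := J) n j).le)
    (fun a b => abs_xwl52 (β := β) (J := J) n r a b) k d i l
  rw [Xo_const] at h1 h4
  rw [← h4] at h5
  have h6 := g2row52 h0 h hJ hn hp hq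
  obtain ⟨h7, h8, -⟩ := tt_low h0 h hm hJ hn hr
  have hz : 0 < ZG dA (xe β (kap J) : LB (box (n : ℤ) n) → ℝ) ∅ := ZG_pos fun e => (xe_pos (kap J) e).le
  have h9 : ZG dA (xe β (kap J) : LB (box (n : ℤ) n) → ℝ) (pr p q) =
      G2 β J n n p q * ZG dA (xe β (kap J) : LB (box (n : ℤ) n) → ℝ) ∅ := by
    unfold G2
    field_simp
  have hpw : 0 < mag β ^ (2 * r.length) := pow_pos h8 _
  rw [ratio_tt h0 h hm hJ hn hr, abs_div, abs_of_pos (mul_pos (hpw.trans_le h7) hZp), div_le_iff₀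
    (mul_pos (hpw.trans_le h7) hZp)]
  refine h5.trans ?_
  rw [h9, ← h1]
  have h10 : 0 ≤ K * ZG dA (xe β (kap J) : LB (box (n : ℤ) n) → ℝ) ∅ := (mul_pos hKp hz).le
  calc K * (G2 β J n n p q * ZG dA (xe β (kap J) : LB (box (n : ℤ) n) → ℝ) ∅)
      = G2 β J n n p q * (K * ZG dA (xe β (kap J) : LB (box (n : ℤ) n) → ℝ) ∅) := by ring
    _ ≤ Real.exp (-((β - β₁) * mag β₁ ^ 2 * |((i : ℕ) : ℝ) - (l : ℕ)|)) *
        (K * ZG dA (xe β (kap J) : LB (box (n : ℤ) n) → ℝ) ∅) := mul_le_mul_of_nonneg_right h6 h10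
    _ = ((mag β ^ (2 * r.length))⁻¹ * Real.exp (-((β - β₁) * mag β₁ ^ 2 * |((i : ℕ) : ℝ) - (l : ℕ)|))) *
        (mag β ^ (2 * r.length) * (K * ZG dA (xe β (kap J) : LB (box (n : ℤ) n) → ℝ) ∅)) := by
          field_simp
    _ ≤ _ := by
          refine mul_le_mul_of_nonneg_left (mul_le_mul_of_nonneg_right h7 h10) ?_
          exact mul_nonneg (inv_nonneg.2 hpw.le) (Real.exp_pos _).le

end

private theorem Xo_smul52 {n : ℕ} (t : ℝ) (x : ℕ → Fin n → ℝ) (L : ℕ) (a : ℝ) (Φ : Col n → ℝ) :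
    Xo t x L (fun c => a * Φ c) = fun c => a * Xo t x L Φ c := by
  have h1 := Xo_lin t x L ({()} : Finset Unit) (fun _ => a) (fun _ => Φ)
  simpa using h1

private theorem ip_smul52 {n : ℕ} (a : ℝ) (Φ : Col n → ℝ) :
    ip (fun _ => 1) (fun c => a * Φ c) = a * ip (fun _ => 1) Φ := by
  unfold ip
  rw [Finset.mul_sum]
  exact Finset.sum_congr rfl fun c _ => by ring

private theorem wc_pos52 {n : ℕ} {t : ℝ} (ht : 0 < t) (ht1 : t < 1) (c : Col n) : 0 < wc t c := by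
  unfold wc
  refine Finset.prod_pos fun j _ => ?_
  split_ifs with hj
  · have h1 : |t * (sp (c j) * sp (c ⟨(j : ℕ) + 1, hj⟩))| < 1 := by
      rw [abs_mul, abs_mul, abs_sp52, abs_sp52, mul_one, mul_one, abs_of_pos ht]
      exact ht1
    have := (abs_lt.1 h1).1
    linarith
  · exact one_pos

private theorem Yo_zero52 {n : ℕ} {t : ℝ} (ht : 0 < t) (ht1 : t < 1) {X : ℕ → Fin n → ℝ} {k : ℕ}
    (hX : ∀ i, k ≤ i → X i = fun _ => 0) : ∀ (d : ℕ) (a : ℝ), 0 < a →
    ∃ b : ℝ, 0 < b ∧ Yo t X k d (fun _ => a) = fun _ => b := by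
  intro d
  induction d with
  | zero => intro a ha; exact ⟨a, ha, rfl⟩
  | succ d ih =>
    intro a ha
    have h1 : Vm (X (k + d)) (Wm t (fun _ => a)) = fun _ => ∑ c' : Col n, wc t c' * a := by
      rw [hX (k + d) (by omega)]
      funext c
      unfold Vm Wm
      refine Finset.sum_congr rfl fun c' _ => ?_
      simp
    have h2 : 0 < ∑ c' : Col n, wc t c' * a :=
      Finset.sum_pos (fun c' _ => mul_pos (wc_pos52 ht ht1 c') ha) Finset.univ_nonempty
    obtain ⟨b, hb, he⟩ := ih _ h2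
    refine ⟨b, hb, ?_⟩
    show Yo t X k d (Vm (X (k + d)) (Wm t (fun _ => a))) = _
    rw [h1, he]

theorem rm_bound {β₁ β J : ℝ} (h0 : 0 ≤ β₁) (h : β₁ < β) (hm : 0 < mag β₁) (hJ : 1 < J) {n k : ℕ}
    (hn : 2 ≤ n) (hk : k ≤ 2 * n + 1) (l j : Fin (2 * n + 1)) :
    |Rm (Real.exp (-β)) (xs (Real.exp (-β)) (Real.exp (-(β * J))) n) k l j| ≤
      Real.exp (-((β - β₁) * mag β₁ ^ 2 * |((l : ℕ) : ℝ) - (j : ℕ)|)) := by
  have hβ : 0 < β := by linarith
  have ht : 0 < Real.exp (-β) := Real.exp_pos _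
  have ht1 : Real.exp (-β) < 1 := by rw [Real.exp_lt_one_iff]; linarith
  have hx := xs_pos52 (β := β) (J := J) n
  have hx1 := xs_lt52 hβ (show 0 < J by linarith) n
  by_cases hlj : l = j
  · subst hlj
    rw [rm_self ht ht1 hx hx1 k l, abs_zero]
    exact (Real.exp_pos _).le
  refine (rm_le ht ht1 hx hx1 k hlj).trans ?_
  obtain ⟨d, hd⟩ : ∃ d, k + d = 2 * n + 1 := ⟨2 * n + 1 - k, by omega⟩
  obtain ⟨K, hK, hrep⟩ := box_rep (N := n) (M := n) (by omega)
  set v : LB (box (n : ℤ) n) → ℝ := Sum.elim (fun _ => Real.exp (-β))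
    (fun i => if i.1.1 < -(n : ℤ) + k then xe β (kap J) (Sum.inr i : LB (box (n : ℤ) n)) else 0) with hv
  set X : ℕ → Fin (2 * n + 1) → ℝ := fun a b => if a < k then xs (Real.exp (-β)) (Real.exp (-(β * J))) n b else 0
    with hXd
  have hfx := xe_fits (N := n) (M := n) β J
  have hfit : Fits (N := n) (M := n) (Real.exp (-β)) X v := by
    refine ⟨fun i => rfl, fun i k' j' h1 h2 => ?_⟩
    have h3 := hfx.2 i k' j' h1 h2
    show (if i.1.1 < -(n : ℤ) + k then xe β (kap J) (Sum.inr i : LB (box (n : ℤ) n)) else 0) =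
      if k' < k then xs (Real.exp (-β)) (Real.exp (-(β * J))) n j' else 0
    by_cases h4 : k' < k
    · rw [if_pos h4, if_pos (by omega), h3]
    · rw [if_neg h4, if_neg (by omega)]
  obtain ⟨e1, -, e3, -⟩ := hrep _ _ _ hfit
  obtain ⟨p, hp⟩ := plq52 (n := n) (k := k) (by omega) (by omega) j
  obtain ⟨q, hq⟩ := plq52 (n := n) (k := k) (by omega) (by omega) l
  have e4 := e3 k d hd j l p q hp hq
  obtain ⟨b, hb, hY⟩ := Yo_zero52 ht ht1 (X := X) (k := k) (fun i hi => by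
    funext a
    simp only [hXd]
    rw [if_neg (by omega)]) d 1 one_pos
  have hXo : Xo (Real.exp (-β)) X k = Xm (Real.exp (-β)) (xs (Real.exp (-β)) (Real.exp (-(β * J))) n) k := by
    rw [Xo_congr _ (x' := fun _ => xs (Real.exp (-β)) (Real.exp (-(β * J))) n) (fun i hi => by
      funext a
      simp only [hXd]
      rw [if_pos hi])]
    exact Xo_const _ _ _
  have e5 : K * ZG dA v ∅ = b * ip (fun _ => 1)
      (Xm (Real.exp (-β)) (xs (Real.exp (-β)) (Real.exp (-(β * J))) n) k (fun _ => 1)) := by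
    have h2 : Xo (Real.exp (-β)) X (2 * n + 1) (fun _ => 1) =
        Xo (Real.exp (-β)) X k (Yo (Real.exp (-β)) X k d (fun _ => 1)) := by
      rw [← Xo_add, hd]
    rw [e1, h2, hY, ← hXo]
    have h1 := Xo_smul52 (Real.exp (-β)) X k b (fun _ => 1)
    simp only [mul_one] at h1
    rw [h1, ip_smul52]
  have e6 : K * ZG dA v (pr p q) = b * ip (fun _ => 1)
      (Xm (Real.exp (-β)) (xs (Real.exp (-β)) (Real.exp (-(β * J))) n) k (fun c => sp (c j) * sp (c l))) := by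
    rw [e4, hY, ← hXo]
    have h1 := Xo_smul52 (Real.exp (-β)) X k b (fun c => sp (c j) * sp (c l))
    rw [← ip_smul52, ← h1]
    congr 2
    funext c
    ring
  have hxe1 : ∀ e : LB (box (n : ℤ) n), xe β (kap J) e < 1 := by
    intro e
    unfold xe
    rw [Real.exp_lt_one_iff, neg_lt_zero]
    refine mul_pos hβ ?_
    rcases e with e | e
    · exact one_pos
    · show 0 < kap J e.1
      unfold kap
      split_ifs
      · linarith
      · exact one_pos
  have hv0 : ∀ e, 0 ≤ v e := by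
    rintro (e | e)
    · exact (Real.exp_pos _).le
    · show 0 ≤ (if e.1.1 < -(n : ℤ) + k then xe β (kap J) (Sum.inr e : LB (box (n : ℤ) n)) else 0)
      split_ifs
      · exact (xe_pos (kap J) _).le
      · exact le_rfl
  have hvx : ∀ e, v e ≤ xe β (kap J) e := by
    rintro (e | e)
    · exact (hfx.1 e).ge
    · show (if e.1.1 < -(n : ℤ) + k then xe β (kap J) (Sum.inr e : LB (box (n : ℤ) n)) else 0) ≤ _
      split_ifs
      · exact le_rfl
      · exact (xe_pos (kap J) _).le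
  have hmono := ZG_mono (dA (Λ := box (n : ℤ) n)) hv0 hvx hxe1 (pr p q)
  have hz : 0 < ZG dA v ∅ := ZG_pos hv0
  have hz' : 0 < ZG dA (xe β (kap J) : LB (box (n : ℤ) n) → ℝ) ∅ := ZG_pos fun e => (xe_pos (kap J) e).le
  have hden := Xm_one_pos ht ht1 hx hx1 k
  have hKp : 0 < K := by
    have h1 : 0 < K * ZG dA v ∅ := by
      rw [e5]
      exact mul_pos hb hden
    exact (pos_iff_pos_of_mul_pos h1).2 hz
  have hnum : 0 ≤ ip (fun _ => 1)
      (Xm (Real.exp (-β)) (xs (Real.exp (-β)) (Real.exp (-(β * J))) n) k (fun c => sp (c j) * sp (c l))) := by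
    have h1 : 0 ≤ K * ZG dA v (pr p q) := mul_nonneg hKp.le (ZG_nonneg hv0 _)
    rw [e6] at h1
    exact nonneg_of_mul_nonneg_right h1 hb
  rw [abs_of_nonneg hnum, div_le_iff₀ hden]
  have h6 := g2row52 h0 h hJ hn hq hp
  have h7 : ZG dA v (pr p q) ≤ G2 β J n n p q * ZG dA v ∅ := by
    unfold G2
    rw [div_mul_eq_mul_div, le_div_iff₀ hz']
    exact hmono
  rw [G2_comm] at h6
  have h8 : b * ip (fun _ => 1)
      (Xm (Real.exp (-β)) (xs (Real.exp (-β)) (Real.exp (-(β * J))) n) k (fun c => sp (c j) * sp (c l))) ≤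
      b * (Real.exp (-((β - β₁) * mag β₁ ^ 2 * |((l : ℕ) : ℝ) - (j : ℕ)|)) * ip (fun _ => 1)
      (Xm (Real.exp (-β)) (xs (Real.exp (-β)) (Real.exp (-(β * J))) n) k (fun _ => 1))) := by
    rw [← e6, mul_left_comm b, ← e5]
    calc K * ZG dA v (pr p q) ≤ K * (G2 β J n n p q * ZG dA v ∅) := mul_le_mul_of_nonneg_left h7 hKp.le
      _ = G2 β J n n p q * (K * ZG dA v ∅) := by ring
      _ ≤ _ := mul_le_mul_of_nonneg_right h6 (mul_pos hKp hz).le
  exact le_of_mul_le_mul_left h8 hb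

theorem lvl_bound {β₁ β J : ℝ} (h0 : 0 ≤ β₁) (h : β₁ < β) (hm : 0 < mag β₁) (hJ : 1 < J) (p : ℕ) :
    ∃ C : ℝ, 0 < C ∧ ∀ n : ℕ, 2 ≤ n → ∀ (k : ℕ) (r : List (ℕ × ℕ)), So n k r → k ≤ 2 * n → r.length ≤ p →
      ∀ y ≤ n, |levo (Real.exp (-β)) (Real.exp (-(β * J))) n (2 * n + 1) r k y| ≤
        C * (1 + y) * lam (Real.exp (-β)) ^ (2 * n + 1 - k) /
          ((2 * n + 1 - k : ℕ) : ℝ) ^ (3 / 2 : ℝ) := by
  have hβ : 0 < β := by linarith
  have ht : 0 < Real.exp (-β) := Real.exp_pos _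
  have ht1 : Real.exp (-β) < 1 := by rw [Real.exp_lt_one_iff]; linarith
  have hmag : 0 < mag β := hm.trans_le (mag_mono h0 h.le)
  obtain ⟨C, hC, hg⟩ := g2_rgt h0 h hm hJ
  refine ⟨(mag β ^ (2 * p))⁻¹ * C, mul_pos (inv_pos.2 (pow_pos hmag _)) hC, ?_⟩
  intro n hn k r hr hk hrp y hy
  have hx := xs_pos52 (β := β) (J := J) n
  have hx1 := xs_lt52 hβ (show 0 < J by linarith) n
  obtain ⟨d, hd⟩ : ∃ d, k + d = 2 * n + 1 := ⟨2 * n + 1 - k, by omega⟩
  obtain ⟨K, hK, hrep⟩ := box_rep (N := n) (M := n) (by omega)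
  obtain ⟨h1, -, -, h3⟩ := hrep _ _ _ (xe_fits (N := n) (M := n) β J)
  obtain ⟨hKp, hZp⟩ := Kpos52 hβ (by linarith) h1
  have hyn : n + y < 2 * n + 1 := by omega
  have hnn : n < 2 * n + 1 := by omega
  obtain ⟨P, hP⟩ := plq52 (n := n) (k := k) (by omega) (by omega) ⟨n + y, hyn⟩
  obtain ⟨b, hb⟩ := plq52 (n := n) (k := 2 * n + 1) (by omega) le_rfl ⟨n, hnn⟩
  have hb1 : b.1 = ((n : ℤ), 0) := by
    rw [hb]
    ext
    · simp only
      push_cast
      ring
    · simp only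
      ring
  have hPx : P.1.1 = -(n : ℤ) - 1 + k := by rw [hP]
  have hPy : P.1.2 = (y : ℤ) := by
    rw [hP]
    simp only
    push_cast
    ring
  have h4 := h3 k d hd ⟨n + y, hyn⟩ ⟨n, hnn⟩ P b hP hb
  have hw : ∀ a b, xwl (Real.exp (-β)) (Real.exp (-(β * J))) n r a b ≠ 0 := fun a b =>
    (xwl_ne (Real.exp_pos _) (Real.exp_pos _) n r a b).1
  have hlt : ∀ a < k, xwl (Real.exp (-β)) (Real.exp (-(β * J))) n r a = xs (Real.exp (-β)) (Real.exp (-(β * J))) n :=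
    fun a ha => xwl_lt hr ha
  have hne := hne_all h0 h hm hJ hn hr
  have h5 := level_formula ht ht1 hx hx1 hw (d := d) hlt (fun v => if v = (⟨n, hnn⟩ : Fin (2 * n + 1)) then (1 : ℝ) else 0)
    (by rw [hd]; exact hne) ⟨n + y, hyn⟩
  rw [hd] at h5
  simp only [ite_mul, one_mul, zero_mul, Finset.sum_ite_eq', Finset.mem_univ, if_true] at h5
  have h6 := dom_one ht.le (fun j => (hx j).le) (fun a b => abs_xwl52 (β := β) (J := J) n r a b) k d ⟨n + y, hyn⟩ ⟨n, hnn⟩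
  rw [Xo_const] at h1 h4
  rw [← h4] at h6
  obtain ⟨h7, h8, -⟩ := tt_low h0 h hm hJ hn hr
  have hz : 0 < ZG dA (xe β (kap J) : LB (box (n : ℤ) n) → ℝ) ∅ := ZG_pos fun e => (xe_pos (kap J) e).le
  have h9 : ZG dA (xe β (kap J) : LB (box (n : ℤ) n) → ℝ) (pr P b) =
      G2 β J n n P b * ZG dA (xe β (kap J) : LB (box (n : ℤ) n) → ℝ) ∅ := by
    unfold G2
    field_simp
  have hpw : 0 < mag β ^ (2 * p) := pow_pos hmag _
  have hpr : mag β ^ (2 * p) ≤ avg β (kap J) (box n n) tt (psl n r) :=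
    (pow_le_pow_of_le_one hmag.le (de2_mag_le_one β) (by omega)).trans h7
  have h10 := hg n hn b P hb1 (by rw [hPx]; omega)
  have hG : G2 β J n n P b ≤ C * (1 + y) * lam (Real.exp (-β)) ^ (2 * n + 1 - k) /
      ((2 * n + 1 - k : ℕ) : ℝ) ^ (3 / 2 : ℝ) := by
    refine h10.trans (le_of_eq ?_)
    have e1 : ((n : ℤ) - P.1.1).toNat = 2 * n + 1 - k := by
      rw [hPx]
      omega
    have e2 : (n : ℝ) - (P.1.1 : ℝ) = ((2 * n + 1 - k : ℕ) : ℝ) := by
      rw [hPx, Nat.cast_sub (by omega)]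
      push_cast
      ring
    rw [e1, e2, hPy]
    simp
  have hlev : levo (Real.exp (-β)) (Real.exp (-(β * J))) n (2 * n + 1) r k y =
      ip (fun _ => 1) (Xm (Real.exp (-β)) (xs (Real.exp (-β)) (Real.exp (-(β * J))) n) k
        (an ⟨n + y, hyn⟩ (Yo (Real.exp (-β)) (xwl (Real.exp (-β)) (Real.exp (-(β * J))) n r) k d
          (fun c => sp (c ⟨n, hnn⟩))))) /
      ip (fun _ => 1) (Xo (Real.exp (-β)) (xwl (Real.exp (-β)) (Real.exp (-(β * J))) n r)
        (2 * n + 1) (fun _ => 1)) := by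
    unfold levo
    rw [dif_pos hyn]
    exact h5
  rw [hlev, ratio_tt h0 h hm hJ hn hr, abs_div, abs_of_pos (mul_pos (hpw.trans_le hpr) hZp), div_le_iff₀
    (mul_pos (hpw.trans_le hpr) hZp)]
  refine h6.trans ?_
  rw [h9, ← h1]
  have h11 : 0 ≤ K * ZG dA (xe β (kap J) : LB (box (n : ℤ) n) → ℝ) ∅ := (mul_pos hKp hz).le
  have h12 : 0 ≤ C * (1 + y) * lam (Real.exp (-β)) ^ (2 * n + 1 - k) /
      ((2 * n + 1 - k : ℕ) : ℝ) ^ (3 / 2 : ℝ) := (G2_nonneg P b).trans hG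
  calc K * (G2 β J n n P b * ZG dA (xe β (kap J) : LB (box (n : ℤ) n) → ℝ) ∅)
      = G2 β J n n P b * (K * ZG dA (xe β (kap J) : LB (box (n : ℤ) n) → ℝ) ∅) := by ring
    _ ≤ (C * (1 + y) * lam (Real.exp (-β)) ^ (2 * n + 1 - k) / ((2 * n + 1 - k : ℕ) : ℝ) ^ (3 / 2 : ℝ)) *
        (K * ZG dA (xe β (kap J) : LB (box (n : ℤ) n) → ℝ) ∅) := mul_le_mul_of_nonneg_right hG h11
    _ = ((mag β ^ (2 * p))⁻¹ * (C * (1 + y) * lam (Real.exp (-β)) ^ (2 * n + 1 - k) /
          ((2 * n + 1 - k : ℕ) : ℝ) ^ (3 / 2 : ℝ))) *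
        (mag β ^ (2 * p) * (K * ZG dA (xe β (kap J) : LB (box (n : ℤ) n) → ℝ) ∅)) := by
          rw [mul_mul_mul_comm, inv_mul_cancel₀ hpw.ne', one_mul]
    _ ≤ ((mag β ^ (2 * p))⁻¹ * (C * (1 + y) * lam (Real.exp (-β)) ^ (2 * n + 1 - k) /
          ((2 * n + 1 - k : ℕ) : ℝ) ^ (3 / 2 : ℝ))) *
        (avg β (kap J) (box n n) tt (psl n r) * (K * ZG dA (xe β (kap J) : LB (box (n : ℤ) n) → ℝ) ∅)) := by
          refine mul_le_mul_of_nonneg_left (mul_le_mul_of_nonneg_right hpr h11) ?_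
          exact mul_nonneg (inv_nonneg.2 hpw.le) h12
    _ = _ := by
          congr 1
          ring

end Pool.Agent.Helper49.RD
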