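import Pool.Agent.Helper49.RD.Chain
import Pool.Agent.Helper49.DX.Tg2

/-!
Block RD-A6: the high temperature sums of the dual of the full box are transfer matrix elements (weights depending on the gap).

The plaquettes of `box N M` are `(x, y)` with `-N - 1 ≤ x ≤ N`, `-M ≤ y ≤ M` (`mem_PL_box`). Column `k` of plaquettes is `x = -N - 1 + k` (`0 ≤ k ≤ 2 N + 1`), row `j` is `y = -M + j`.
`Sum.inl (x, y)` joins `(x, y - 1)` and `(x, y)`; `Sum.inr (x, y)` joins `(x - 1, y)` and `(x, y)` (the gap `k` with `x = -N + k`).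

Paper proof of `box_rep`. As in the proof of `rect_GS` (`DX/Tg2.lean`, copy its private lemmas; here the rectangle is the whole box, `em` is a bijection and
`xr dA v univ = v`, so it is simpler). `em k j = (-N - 1 + k, -M + j)`; `∏ e, (1 + v e * chi (dA e) σ)` is the product over the `Sum.inl` edges
(`∏ k, wc t (fun j => σ (em k j))`) times the product over the `Sum.inr` edges (`∏ k : Fin (2 * N + 1), ∏ j, (1 + X k j * ..)`), both by `tg2_prod_rect` (copy) or `Finset.prod_bij`;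
`tg2_fib` gives the constant `C`.

`box_zero`, `box_ab`, `box_pq`, `box_pb`: `spin_rep` (`DX/Gk.lean`) for `A = dA`, `x = v`, `S = ∅`, `pr a b`, `pr p q`, `pr p b`; `chi (pr a b) σ = sp (σ a) * sp (σ b)` (`tg2_chi`); `box_rep` and `chain_o`, `chain_ins`
(`X (i) ..` with `L = k + d`). The constant is `K = 2 ^ |PV| / C`: it is the same for all four and does not depend on `v`, `X`.
-/

open Finset
open scoped Classical

namespace Pool.Agent.Helper49.RD

open Pool.Agent.Helper49.DL Pool.Agent.Helper49.DX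

/-- The weights `v` of the dual edges have the form: `t` on the vertical edges, `X k j` in the gap `k` and the row `j`. -/
def Fits {N M : ℕ} (t : ℝ) (X : ℕ → Fin (2 * M + 1) → ℝ) (v : LB (box (N : ℤ) M) → ℝ) : Prop :=
  (∀ i, v (Sum.inl i) = t) ∧
    ∀ (i : {i // i ∈ vb (box (N : ℤ) M)}) (k : ℕ) (j : Fin (2 * M + 1)), i.1.1 = -N + k → i.1.2 = -M + (j : ℕ) →
      v (Sum.inr i) = X k j

/-- The plaquette in column `k` and row `j`. -/
def pq {N M : ℕ} (k : ℕ) (j : Fin (2 * M + 1)) (p : PV (box (N : ℤ) M)) : Prop :=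
  p.1 = (-N - 1 + (k : ℤ), -M + ((j : ℕ) : ℤ))

private lemma prodrect33 (T : Finset (ℤ × ℤ)) (x0 y0 : ℤ) (A B : ℕ) (w : ℤ × ℤ → ℝ)
    (hT : ∀ p : ℤ × ℤ, p ∈ T ↔ (x0 ≤ p.1 ∧ p.1 < x0 + A ∧ y0 ≤ p.2 ∧ p.2 < y0 + B)) :
    ∏ p ∈ T, w p = ∏ k : Fin A, ∏ j : Fin B, w (x0 + (k : ℕ), y0 + (j : ℕ)) := by
  have h1 : ∏ k : Fin A, ∏ j : Fin B, w (x0 + (k : ℕ), y0 + (j : ℕ)) =
      ∏ q ∈ Finset.range A ×ˢ Finset.range B, w (x0 + (q.1 : ℕ), y0 + (q.2 : ℕ)) := by
    rw [Finset.prod_product, Finset.prod_range]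
    refine Finset.prod_congr rfl fun k _ => ?_
    rw [Finset.prod_range]
  rw [h1]
  refine Finset.prod_nbij' (fun p => ((p.1 - x0).toNat, (p.2 - y0).toNat))
    (fun q => (x0 + (q.1 : ℕ), y0 + (q.2 : ℕ))) ?_ ?_ ?_ ?_ ?_
  · intro p hp
    have h2 := (hT p).1 hp
    rw [Finset.mem_product, Finset.mem_range, Finset.mem_range]
    constructor
    · change (p.1 - x0).toNat < A
      omega
    · change (p.2 - y0).toNat < B
      omega
  · intro q hq
    rw [Finset.mem_product, Finset.mem_range, Finset.mem_range] at hq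
    have h3 : x0 ≤ x0 + (q.1 : ℤ) ∧ x0 + (q.1 : ℤ) < x0 + A ∧ y0 ≤ y0 + (q.2 : ℤ) ∧
        y0 + (q.2 : ℤ) < y0 + B := by omega
    exact (hT _).2 h3
  · rintro ⟨p1, p2⟩ hp
    have h2 := (hT _).1 hp
    simp only at h2 ⊢
    refine Prod.ext ?_ ?_
    · change x0 + ((p1 - x0).toNat : ℤ) = p1
      omega
    · change y0 + ((p2 - y0).toNat : ℤ) = p2
      omega
  · rintro ⟨q1, q2⟩ _
    refine Prod.ext ?_ ?_
    · change (x0 + (q1 : ℤ) - x0).toNat = q1
      omega
    · change (y0 + (q2 : ℤ) - y0).toNat = q2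
      omega
  · rintro ⟨p1, p2⟩ hp
    have h2 := (hT _).1 hp
    simp only at h2 ⊢
    have e1 : x0 + ((p1 - x0).toNat : ℤ) = p1 := by omega
    have e2 : y0 + ((p2 - y0).toNat : ℤ) = p2 := by omega
    rw [e1, e2]

private lemma fib33 {A B V : Type} [Fintype A] [Fintype B] [Fintype V] [DecidableEq A]
    [DecidableEq B] [DecidableEq V] (em : A → B → V)
    (hem : ∀ a b a' b', em a b = em a' b' → a = a' ∧ b = b') :
    ∃ C : ℝ, C ≠ 0 ∧ ∀ H : (A → B → Bool) → ℝ,
      ∑ σ : V → Bool, H (fun a b => σ (em a b)) = C * ∑ s : A → B → Bool, H s := by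
  let em' : A × B → V := fun p => em p.1 p.2
  let D := {v : V // v ∉ Set.range em'}
  have hb : Function.Bijective (Sum.elim em' Subtype.val : (A × B) ⊕ D → V) := by
    constructor
    · rintro (p | p) (q | q) h
      · have h1 := hem _ _ _ _ (h : em p.1 p.2 = em q.1 q.2)
        rw [Prod.ext h1.1 h1.2]
      · exact (q.2 ⟨p, h⟩).elim
      · exact (p.2 ⟨q, h.symm⟩).elim
      · rw [Subtype.ext (h : p.1 = q.1)]
    · intro v
      by_cases h : v ∈ Set.range em'
      · obtain ⟨p, hp⟩ := h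
        exact ⟨Sum.inl p, hp⟩
      · exact ⟨Sum.inr ⟨v, h⟩, rfl⟩
  let E : (A × B) ⊕ D ≃ V := Equiv.ofBijective _ hb
  let e : (V → Bool) ≃ (A → B → Bool) × (D → Bool) :=
    ((Equiv.arrowCongr E.symm (Equiv.refl Bool)).trans
      (Equiv.sumArrowEquivProdArrow (A × B) D Bool)).trans
      (Equiv.prodCongr (Equiv.curry A B Bool) (Equiv.refl _))
  refine ⟨Fintype.card (D → Bool), ?_, fun H => ?_⟩
  · exact_mod_cast Fintype.card_ne_zero
  have h1 : ∑ σ : V → Bool, H (fun a b => σ (em a b)) =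
      ∑ p : (A → B → Bool) × (D → Bool), H p.1 :=
    Fintype.sum_equiv e _ _ (fun σ => rfl)
  rw [h1, Fintype.sum_prod_type, Finset.mul_sum]
  refine Finset.sum_congr rfl fun s _ => ?_
  refine (Finset.sum_const (H s)).trans ?_
  rw [nsmul_eq_mul, Finset.card_univ]

private lemma wc33 {n : ℕ} (t : ℝ) (c : Col (n + 1)) :
    wc t c = ∏ j : Fin n, (1 + t * (sp (c j.castSucc) * sp (c j.succ))) := by
  unfold wc
  rw [Fin.prod_univ_castSucc, dif_neg (by simp), mul_one]
  refine Finset.prod_congr rfl fun j _ => ?_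
  rw [dif_pos (by simp)]
  rfl

section

variable {N M : ℤ}

/-- The spin at a plaquette, `1` off the box. -/
private noncomputable def s33 (σ : PV (box N M) → Bool) (p : Site) : ℝ :=
  if h : p ∈ PL (box N M) then sp (σ ⟨p, h⟩) else 1

private lemma factor33 (v : LB (box N M) → ℝ) (σ : PV (box N M) → Bool) (e : LB (box N M)) :
    1 + v e * chi (dA e) σ = 1 + v e * (s33 σ (dp e) * s33 σ (dq e)) := by
  have h2 : chi (dA e) σ = s33 σ (dp e) * s33 σ (dq e) := by
    unfold chi s33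
    rw [WI2.dA_pair, Finset.prod_pair, dif_pos (WI2.dp_mem_PL e), dif_pos (WI2.dq_mem_PL e)]
    intro h
    exact WI2.dp_ne_dq e (congrArg Subtype.val h)
  rw [h2]

private lemma chi33 (a b : PV (box N M)) (σ : PV (box N M) → Bool) :
    chi (pr a b) σ = sp (σ a) * sp (σ b) := by
  by_cases h : a = b
  · subst h
    rw [pr_self, chi_empty, sp_mul_self]
  · rw [pr_ne h]
    unfold chi
    rw [Finset.prod_pair h]

end

private lemma weight33 {N M : ℕ} (hM : 1 ≤ M) {L : ℕ} (hL : L = 2 * N + 1)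
    (em : Fin (L + 1) → Fin (2 * M + 1) → PV (box (N : ℤ) M))
    (hem : ∀ k j, (em k j).1 = (-N - 1 + ((k : ℕ) : ℤ), -M + ((j : ℕ) : ℤ)))
    (t : ℝ) (X : ℕ → Fin (2 * M + 1) → ℝ) (v : LB (box (N : ℤ) M) → ℝ) (hv : Fits t X v)
    (σ : PV (box (N : ℤ) M) → Bool) :
    ∏ e, (1 + v e * chi (dA e) σ) =
      (∏ k, wc t (fun j => σ (em k j))) *
        ∏ k : Fin L, ∏ j : Fin (2 * M + 1),
          (1 + X k j * (sp (σ (em k.castSucc j)) * sp (σ (em k.succ j)))) := by
  have hM' : (1 : ℤ) ≤ M := by exact_mod_cast hM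
  have hN' : (0 : ℤ) ≤ N := by positivity
  have hs : ∀ (p : Site) (k : Fin (L + 1)) (j : Fin (2 * M + 1)), p.1 = -N - 1 + ((k : ℕ) : ℤ) →
      p.2 = -M + ((j : ℕ) : ℤ) → s33 σ p = sp (σ (em k j)) := by
    intro p k j hp1 hp2
    have h5 : p = (em k j).1 := by rw [hem]; exact Prod.ext hp1 hp2
    subst h5
    unfold s33
    rw [dif_pos (em k j).2]
  rw [Fintype.prod_sum_type]
  congr 1
  · have h6 : ∀ i : {i // i ∈ hb (box (N : ℤ) M)},
        1 + v (Sum.inl i) * chi (dA (Sum.inl i)) σ =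
        (fun p : Site => 1 + t * (s33 σ p * s33 σ (p - e2))) i.1 := by
      intro i
      rw [factor33, hv.1 i]
      rfl
    rw [Finset.prod_congr rfl fun i _ => h6 i]
    refine (Finset.prod_coe_sort (hb (box (N : ℤ) M)) (fun p : Site =>
        1 + t * (s33 σ p * s33 σ (p - e2)))).trans ?_
    refine (prodrect33 (hb (box (N : ℤ) M)) (-N - 1) (-M + 1) (L + 1) (2 * M)
      (fun p : Site => 1 + t * (s33 σ p * s33 σ (p - e2))) ?_).trans ?_
    · rintro ⟨p1, p2⟩
      rw [mem_hb_box hN']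
      simp only
      push_cast
      omega
    · refine Finset.prod_congr rfl fun k _ => ?_
      rw [wc33]
      refine Finset.prod_congr rfl fun j _ => ?_
      have h7 : s33 σ (-N - 1 + ((k : ℕ) : ℤ), -M + 1 + ((j : ℕ) : ℤ)) = sp (σ (em k j.succ)) :=
        hs _ _ _ rfl (by rw [Fin.val_succ]; push_cast; ring)
      have h8 : s33 σ ((-N - 1 + ((k : ℕ) : ℤ), -M + 1 + ((j : ℕ) : ℤ)) - e2) =
          sp (σ (em k j.castSucc)) :=
        hs _ _ _ (by simp [e2]) (by simp [e2]; ring)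
      simp only [h7, h8]
      ring
  · let X' : Site → ℝ := fun p => if h : (p.2 + M).toNat < 2 * M + 1 then
      X (p.1 + N).toNat ⟨(p.2 + M).toNat, h⟩ else 0
    have h6 : ∀ i : {i // i ∈ vb (box (N : ℤ) M)},
        1 + v (Sum.inr i) * chi (dA (Sum.inr i)) σ =
        (fun p : Site => 1 + X' p * (s33 σ p * s33 σ (p - e1))) i.1 := by
      rintro ⟨⟨i1, i2⟩, hi⟩
      have hi' := (mem_vb_box hM').1 hi
      rw [factor33]
      have h9 : (i2 + M).toNat < 2 * M + 1 := by omega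
      have h10 : v (Sum.inr ⟨(i1, i2), hi⟩) = X (i1 + N).toNat ⟨(i2 + M).toNat, h9⟩ := by
        refine hv.2 ⟨(i1, i2), hi⟩ _ _ ?_ ?_
        · simp only
          omega
        · simp only
          omega
      have h11 : X' (i1, i2) = X (i1 + N).toNat ⟨(i2 + M).toNat, h9⟩ := dif_pos h9
      rw [h10]
      change _ = 1 + X' (i1, i2) * _
      rw [h11]
      rfl
    rw [Finset.prod_congr rfl fun i _ => h6 i]
    refine (Finset.prod_coe_sort (vb (box (N : ℤ) M)) (fun p : Site =>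
        1 + X' p * (s33 σ p * s33 σ (p - e1)))).trans ?_
    refine (prodrect33 (vb (box (N : ℤ) M)) (-N) (-M) L (2 * M + 1)
      (fun p : Site => 1 + X' p * (s33 σ p * s33 σ (p - e1))) ?_).trans ?_
    · rintro ⟨p1, p2⟩
      rw [mem_vb_box hM']
      simp only
      push_cast
      omega
    · refine Finset.prod_congr rfl fun k _ => Finset.prod_congr rfl fun j _ => ?_
      have h7 : s33 σ (-N + ((k : ℕ) : ℤ), -M + ((j : ℕ) : ℤ)) = sp (σ (em k.succ j)) :=
        hs _ _ _ (by simp only [Fin.val_succ]; push_cast; ring) rfl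
      have h8 : s33 σ ((-N + ((k : ℕ) : ℤ), -M + ((j : ℕ) : ℤ)) - e1) =
          sp (σ (em k.castSucc j)) :=
        hs _ _ _ (by simp [e1]; ring) (by simp [e1])
      have h9 : X' (-N + ((k : ℕ) : ℤ), -M + ((j : ℕ) : ℤ)) = X k j := by
        have h10 : ((-M + ((j : ℕ) : ℤ)) + M).toNat < 2 * M + 1 := by
          have := j.2
          omega
        have h11 : X' (-N + ((k : ℕ) : ℤ), -M + ((j : ℕ) : ℤ)) =
            X ((-N + ((k : ℕ) : ℤ)) + N).toNat ⟨((-M + ((j : ℕ) : ℤ)) + M).toNat, h10⟩ := dif_pos h10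
        rw [h11]
        have h12 : ((-N + ((k : ℕ) : ℤ)) + N).toNat = k := by omega
        have h13 : (⟨((-M + ((j : ℕ) : ℤ)) + M).toNat, h10⟩ : Fin (2 * M + 1)) = j := by
          apply Fin.ext
          simp only
          omega
        rw [h12, h13]
      simp only [h7, h8, h9]
      ring

theorem box_rep {N M : ℕ} (hM : 1 ≤ M) : ∃ K : ℝ, K ≠ 0 ∧
    ∀ (t : ℝ) (X : ℕ → Fin (2 * M + 1) → ℝ) (v : LB (box (N : ℤ) M) → ℝ), Fits t X v →
      (K * ZG dA v ∅ = ip (fun _ => 1) (Xo t X (2 * N + 1) (fun _ => 1))) ∧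
      (∀ (i j : Fin (2 * M + 1)) (a b : PV (box (N : ℤ) M)), pq 0 i a → pq (2 * N + 1) j b →
        K * ZG dA v (pr a b) = ip (fun c => sp (c i)) (Xo t X (2 * N + 1) (fun c => sp (c j)))) ∧
      (∀ (k d : ℕ), k + d = 2 * N + 1 → ∀ (i j : Fin (2 * M + 1)) (p q : PV (box (N : ℤ) M)),
        pq k i p → pq k j q →
        K * ZG dA v (pr p q) =
          ip (fun _ => 1) (Xo t X k (fun c => sp (c i) * (sp (c j) * Yo t X k d (fun _ => 1) c)))) ∧
      (∀ (k d : ℕ), k + d = 2 * N + 1 → ∀ (i j : Fin (2 * M + 1)) (p b : PV (box (N : ℤ) M)),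
        pq k i p → pq (2 * N + 1) j b →
        K * ZG dA v (pr p b) =
          ip (fun _ => 1) (Xo t X k (fun c => sp (c i) * Yo t X k d (fun c => sp (c j)) c))) := by
  have hM' : (1 : ℤ) ≤ M := by exact_mod_cast hM
  have hN' : (0 : ℤ) ≤ N := by positivity
  obtain ⟨L, hL⟩ : ∃ L : ℕ, L = 2 * N + 1 := ⟨_, rfl⟩
  rw [← hL]
  obtain ⟨em, hem⟩ : ∃ em : Fin (L + 1) → Fin (2 * M + 1) → PV (box (N : ℤ) M),
      ∀ k j, (em k j).1 = (-N - 1 + ((k : ℕ) : ℤ), -M + ((j : ℕ) : ℤ)) := by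
    have hmem : ∀ (k : Fin (L + 1)) (j : Fin (2 * M + 1)),
        ((-N - 1 + ((k : ℕ) : ℤ), -M + ((j : ℕ) : ℤ)) : Site) ∈ PL (box (N : ℤ) M) := by
      intro k j
      rw [mem_PL_box hN' hM']
      have := k.2
      have := j.2
      simp only
      omega
    exact ⟨fun k j => ⟨_, hmem k j⟩, fun k j => rfl⟩
  obtain ⟨C, hC0, hC⟩ := fib33 em (by
    intro k j k' j' h
    have h5 : ((-N - 1 + ((k : ℕ) : ℤ), -M + ((j : ℕ) : ℤ)) : Site) =
        (-N - 1 + ((k' : ℕ) : ℤ), -M + ((j' : ℕ) : ℤ)) := by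
      rw [← hem, ← hem, h]
    rw [Prod.mk.injEq] at h5
    refine ⟨Fin.ext ?_, Fin.ext ?_⟩
    · have := h5.1
      omega
    · have := h5.2
      omega)
  have hpq : ∀ (k : Fin (L + 1)) (j : Fin (2 * M + 1)) (p : PV (box (N : ℤ) M)), pq (k : ℕ) j p → p = em k j := by
    intro k j p h
    apply Subtype.ext
    rw [hem]
    exact h
  have key : ∀ (t : ℝ) (X : ℕ → Fin (2 * M + 1) → ℝ) (v : LB (box (N : ℤ) M) → ℝ), Fits t X v →
      ∀ (S : Finset (PV (box (N : ℤ) M))) (G : (Fin (L + 1) → Col (2 * M + 1)) → ℝ),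
        (∀ σ, chi S σ = G (fun k j => σ (em k j))) →
      2 ^ Fintype.card (PV (box (N : ℤ) M)) / C * ZG dA v S =
        ∑ s : Fin (L + 1) → Col (2 * M + 1), G s * (∏ i, wc t (s i)) *
          (∏ i : Fin L, ∏ j, (1 + X i j * (sp (s i.castSucc j) * sp (s i.succ j)))) := by
    intro t X v hv S G hG
    have h1 := spin_rep (dA (Λ := box (N : ℤ) M)) v S
    have h2 : ∑ σ : PV (box (N : ℤ) M) → Bool, chi S σ * ∏ e, (1 + v e * chi (dA e) σ) =
        C * ∑ s : Fin (L + 1) → Col (2 * M + 1), G s * (∏ i, wc t (s i)) *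
          (∏ i : Fin L, ∏ j, (1 + X i j * (sp (s i.castSucc j) * sp (s i.succ j)))) := by
      rw [← hC (fun s => G s * (∏ i, wc t (s i)) *
          (∏ i : Fin L, ∏ j, (1 + X i j * (sp (s i.castSucc j) * sp (s i.succ j)))))]
      refine Finset.sum_congr rfl fun σ _ => ?_
      rw [weight33 hM hL em hem t X v hv σ, hG, mul_assoc]
    rw [h2] at h1
    rw [div_mul_eq_mul_div, ← h1, mul_div_cancel_left₀ _ hC0]
  refine ⟨2 ^ Fintype.card (PV (box (N : ℤ) M)) / C, by positivity, fun t X v hv => ⟨?_, ?_, ?_, ?_⟩⟩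
  · rw [key t X v hv ∅ (fun _ => 1 * 1) (fun σ => by rw [chi_empty, mul_one])]
    exact chain_o t X L (fun _ => 1) (fun _ => 1)
  · intro i j a b ha hb
    have ea : a = em 0 i := hpq 0 i a (by simpa using ha)
    have eb : b = em (Fin.last L) j := hpq (Fin.last L) j b (by simpa using hb)
    rw [key t X v hv (pr a b) (fun s => sp (s 0 i) * sp (s (Fin.last L) j)) (fun σ => by
      rw [chi33, ea, eb])]
    exact chain_o t X L (fun c => sp (c i)) (fun c => sp (c j))
  · intro k d hkd i j p q hp hq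
    subst hkd
    have ep : p = em ⟨k, by omega⟩ i := hpq ⟨k, by omega⟩ i p hp
    have eq : q = em ⟨k, by omega⟩ j := hpq ⟨k, by omega⟩ j q hq
    rw [key t X v hv (pr p q) (fun s => 1 * (sp (s ⟨k, by omega⟩ i) * sp (s ⟨k, by omega⟩ j)) * 1)
      (fun σ => by rw [chi33, ep, eq, one_mul, mul_one])]
    have h1 := chain_ins t X k d (fun c => sp (c i) * sp (c j)) (fun _ => 1) (fun _ => 1)
    refine h1.trans ?_
    simp only [mul_assoc]
  · intro k d hkd i j p b hp hb
    subst hkd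
    have ep : p = em ⟨k, by omega⟩ i := hpq ⟨k, by omega⟩ i p hp
    have eb : b = em (Fin.last (k + d)) j := hpq (Fin.last (k + d)) j b (by simpa using hb)
    rw [key t X v hv (pr p b) (fun s => 1 * sp (s ⟨k, by omega⟩ i) * sp (s (Fin.last (k + d)) j))
      (fun σ => by rw [chi33, ep, eb, one_mul])]
    exact chain_ins t X k d (fun c => sp (c i)) (fun _ => 1) (fun c => sp (c j))

end Pool.Agent.Helper49.RD
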