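import Pool.Agent.Helper49.RD.Alg0
import Pool.Agent.Helper49.DX.Tg1

/-!
Block RD-A5: the sum over all configurations of a strip, weights depending on the gap, as an iterated transfer.

Paper proof. `chain_o`: as `chain_sum` (`DX/Tg1.lean`; there the last column is the outermost one, here column `0` is the output side and the last column is
the innermost one): induction on `L` for all `h`, split off the last column `c` (`Fin.snocEquiv`, `Fin.prod_univ_castSucc`): the sum over `c` of
`wc t c * h c * ∏ j, (1 + x L j * (sp (s (Fin.last L) j) * sp (c j)))` is `Vm (x L) (Wm t h) (s (Fin.last L))`, and `Xo t x (L + 1) h = Xo t x L (Vm (x L) (Wm t h))`.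
`chain_ins`: induction on `d` for all `h`, in the same way (`Yo t x k (d + 1) h = Yo t x k d (Vm (x (k + d)) (Wm t h))`); the case `d = 0` is `chain_o` with `f * h`.
-/

open Finset

namespace Pool.Agent.Helper49.RD

open Pool.Agent.Helper49.DL Pool.Agent.Helper49.DX

variable {n : ℕ}

private theorem split61 (t : ℝ) (x : ℕ → Fin n → ℝ) (L : ℕ) (G : (Fin (L + 1) → Col n) → ℝ)
    (h : Col n → ℝ) :
    ∑ s : Fin (L + 2) → Col n, G (fun i => s i.castSucc) * h (s (Fin.last (L + 1))) *
        (∏ i, wc t (s i)) *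
        (∏ i : Fin (L + 1), ∏ j, (1 + x i j * (sp (s i.castSucc j) * sp (s i.succ j)))) =
      ∑ s : Fin (L + 1) → Col n, G s * Vm (x L) (Wm t h) (s (Fin.last L)) * (∏ i, wc t (s i)) *
        (∏ i : Fin L, ∏ j, (1 + x i j * (sp (s i.castSucc j) * sp (s i.succ j)))) := by
  rw [← (Fin.snocEquiv (fun _ : Fin (L + 2) => Col n)).sum_comp, Fintype.sum_prod_type,
    Finset.sum_comm]
  refine Finset.sum_congr rfl fun s _ => ?_
  simp only [Vm, Wm]
  rw [Finset.mul_sum, Finset.sum_mul, Finset.sum_mul]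
  refine Finset.sum_congr rfl fun c _ => ?_
  have e1 : ∀ k : Fin (L + 1), (Fin.snoc s c : Fin (L + 2) → Col n) k.castSucc = s k := fun k =>
    Fin.snoc_castSucc (α := fun _ : Fin (L + 2) => Col n) c s k
  have e2 : (Fin.snoc s c : Fin (L + 2) → Col n) (Fin.last (L + 1)) = c :=
    Fin.snoc_last (α := fun _ : Fin (L + 2) => Col n) c s
  have e3 : ∀ k : Fin L, (Fin.snoc s c : Fin (L + 2) → Col n) k.castSucc.succ = s k.succ :=
    fun k => by rw [Fin.succ_castSucc, e1]
  have e4 : (Fin.snoc s c : Fin (L + 2) → Col n) (Fin.last L).succ = c := by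
    rw [Fin.succ_last, e2]
  have e5 : (Fin.snocEquiv (fun _ : Fin (L + 2) => Col n)) (c, s) = Fin.snoc s c := rfl
  have q0 : (fun i : Fin (L + 1) => (Fin.snoc s c : Fin (L + 2) → Col n) i.castSucc) = s :=
    funext e1
  have q1 : ∏ k : Fin (L + 2), wc t ((Fin.snoc s c : Fin (L + 2) → Col n) k) =
      (∏ k, wc t (s k)) * wc t c := by
    rw [Fin.prod_univ_castSucc]
    simp only [e1, e2]
  have q2 : ∏ k : Fin (L + 1), ∏ j, (1 + x k j * (sp ((Fin.snoc s c : Fin (L + 2) → Col n) k.castSucc j) *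
        sp ((Fin.snoc s c : Fin (L + 2) → Col n) k.succ j))) =
      (∏ k : Fin L, ∏ j, (1 + x k j * (sp (s k.castSucc j) * sp (s k.succ j)))) *
        ∏ j, (1 + x L j * (sp (s (Fin.last L) j) * sp (c j))) := by
    rw [Fin.prod_univ_castSucc]
    simp only [e1, e3, e4, Fin.val_castSucc, Fin.val_last]
  rw [e5, q0, q1, q2, e2]
  ring

theorem chain_o (t : ℝ) (x : ℕ → Fin n → ℝ) (L : ℕ) (g h : Col n → ℝ) :
    ∑ s : Fin (L + 1) → Col n, g (s 0) * h (s (Fin.last L)) * (∏ i, wc t (s i)) *
        (∏ i : Fin L, ∏ j, (1 + x i j * (sp (s i.castSucc j) * sp (s i.succ j)))) =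
      ip g (Xo t x L h) := by
  induction L generalizing h with
  | zero =>
    unfold ip Xo Wm
    rw [← (Equiv.funUnique (Fin 1) (Col n)).symm.sum_comp]
    refine Finset.sum_congr rfl fun c _ => ?_
    simp [Equiv.funUnique]
    ring
  | succ L ih =>
    have h1 := split61 t x L (fun s => g (s 0)) h
    have h2 := ih (Vm (x L) (Wm t h))
    exact h1.trans h2

theorem chain_ins (t : ℝ) (x : ℕ → Fin n → ℝ) (k d : ℕ) (f g h : Col n → ℝ) :
    ∑ s : Fin (k + d + 1) → Col n, g (s 0) * f (s ⟨k, by omega⟩) * h (s (Fin.last (k + d))) *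
        (∏ i, wc t (s i)) *
        (∏ i : Fin (k + d), ∏ j, (1 + x i j * (sp (s i.castSucc j) * sp (s i.succ j)))) =
      ip g (Xo t x k (fun c => f c * Yo t x k d h c)) := by
  induction d generalizing h with
  | zero =>
    have h1 := chain_o t x k g (fun c => f c * h c)
    refine Eq.trans ?_ h1
    refine Finset.sum_congr rfl fun s _ => ?_
    exact congrArg₂ (· * ·) (congrArg₂ (· * ·)
      (mul_assoc (g (s 0)) (f (s (Fin.last k))) (h (s (Fin.last k)))) rfl) rfl
  | succ d ih =>
    have h1 := split61 t x (k + d) (fun s => g (s 0) * f (s ⟨k, by omega⟩)) h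
    have h2 := ih (Vm (x (k + d)) (Wm t h))
    exact h1.trans h2

end Pool.Agent.Helper49.RD
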