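import Pool.Agent.Helper49.DX.Minp

/-!
Block RD-SA: super solutions with nonnegative values on the last level are nonnegative on all levels.

Paper proof. In the proof of `sup_nonneg` (`DX/Minp.lean`) the lemma `minp` and the private lemma `sup_all52` give `0 ≤ p k y` for
all `k ≤ L + 1`, `y ≤ m`. Copy the private lemmas and export this.
-/

open Finset

namespace Pool.Agent.Helper49.RD

open Pool.Agent.Helper49.DL Pool.Agent.Helper49.DX

private theorem geo32 {t c : ℝ} (ht : 0 < t) (ht1 : t < 1) (hc : c ≤ 2 * t ^ 2 / (1 - t)) (k : ℕ) :
    2 * t * (∑ i ∈ Finset.range k, t ^ (i + 1)) + t ^ k * c ≤ 2 * t ^ 2 / (1 - t) := by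
  have h1 : (1 - t) ≠ 0 := by linarith
  have h2 : 2 * t * (∑ i ∈ Finset.range k, t ^ (i + 1)) = 2 * t ^ 2 / (1 - t) * (1 - t ^ k) := by
    induction k with
    | zero => simp
    | succ k ih =>
      rw [Finset.sum_range_succ, mul_add, ih]
      field_simp
      ring
  rw [h2]
  have h3 := mul_le_mul_of_nonneg_left hc (pow_pos ht k).le
  have h4 : 2 * t ^ 2 / (1 - t) * (1 - t ^ k) + t ^ k * (2 * t ^ 2 / (1 - t)) =
    2 * t ^ 2 / (1 - t) := by ring
  linarith

private theorem sup_all32 {t td : ℝ} (ht : 0 < t) (hq : t ^ 2 + 2 * t < 1) (htd : 0 < td)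
    (htt : td ≤ t) {m L : ℕ} (hm : 2 ≤ m) {g : ℕ → ℝ} {p : ℕ → ℕ → ℝ} (h : Sup t td m L g p)
    (h0 : ∀ y ≤ m, 0 ≤ p (L + 1) y) {M : ℝ} (hM : 0 < M) {k y : ℕ} (hk : k ≤ L + 1) (hy : y ≤ m)
    (hky : p k y = -(M * (if y = 0 then 1 / the t td else 1)))
    (hB : ∀ k ≤ L + 1, ∀ y ≤ m, -(M * (if y = 0 then 1 / the t td else 1)) ≤ p k y) : False := by
  have ht1 := t_lt_one ht hq
  have hth1 := the_ge_one (t := t) (td := td) ht ht1 htd htt
  have hth0 : 0 < the t td := by linarith
  have hB1 : ∀ k ≤ L + 1, ∀ y ≤ m, y ≠ 0 → -M ≤ p k y := by
    intro k hk y hy hy0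
    have := hB k hk y hy
    rwa [if_neg hy0, mul_one] at this
  have hB0 : ∀ k ≤ L + 1, -(M / the t td) ≤ p k 0 := by
    intro k hk
    have := hB k hk 0 (Nat.zero_le _)
    rwa [if_pos rfl, mul_one_div] at this
  have hB0' : ∀ k ≤ L + 1, -M ≤ the t td * p k 0 := by
    intro k hk
    have h1 := mul_le_mul_of_nonneg_left (hB0 k hk) hth0.le
    have h2 : the t td * -(M / the t td) = -M := by
      field_simp
    linarith
  have hg1 : ∀ y ≤ m, y ≠ 0 → -M ≤ t * g y := by
    intro y hy hy0
    have h1 := hB1 0 (Nat.zero_le _) y hy hy0
    rwa [h.lev y hy, if_neg hy0] at h1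
  have hg0 : -(M / the t td) ≤ td * g 0 := by
    have h1 := hB0 0 (Nat.zero_le _)
    rwa [h.lev 0 (Nat.zero_le _), if_pos rfl] at h1
  have hzt := zet_le_the (t := t) (td := td) ht ht1 htd htt
  have hze := zet_ge_one (t := t) (td := td) ht htd htt
  have hgall : ∀ y ≤ m, -M ≤ t * g y := by
    intro y hy
    by_cases hy0 : y = 0
    · subst hy0
      have h1 : zet t td * td = t := by
        unfold zet
        field_simp
      have h2 := mul_le_mul_of_nonneg_left hg0 (by linarith : (0 : ℝ) ≤ zet t td)
      have h3 : zet t td * (td * g 0) = t * g 0 := by rw [← mul_assoc, h1]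
      have h4 : zet t td * (M / the t td) ≤ M := by
        rw [← mul_div_assoc, div_le_iff₀ hth0]
        nlinarith
      linarith
    · exact hg1 y hy hy0
  have hA := A2_gt ht hq
  have hch := ch_gt ht hq
  have hmu := mu_nonneg (t := t) (td := td) htd htt
  have hshp := shh_pos ht ht1
  have hchp := chh_pos ht ht1
  rcases Nat.eq_zero_or_pos k with hk0 | hk0
  · -- level zero
    subst hk0
    rcases Nat.eq_zero_or_pos y with hy0 | hy0
    · subst hy0
      rw [if_pos rfl, mul_one_div, h.lev 0 (Nat.zero_le _), if_pos rfl] at hky
      have h1 := h.gzero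
      have h2 := hg1 1 (by omega) one_ne_zero
      have h3 := hB0' 1 (by omega)
      -- multiply by θ t
      have e1 : the t td * (td * g 0) = -M := by
        rw [hky]
        field_simp
      have hz : zet t td * td = t := by
        unfold zet
        field_simp
      have e2 : the t td * (t * g 0) = -(M * zet t td) := by
        calc the t td * (t * g 0) = the t td * (zet t td * td * g 0) := by rw [hz]
          _ = zet t td * (the t td * (td * g 0)) := by ring
          _ = -(M * zet t td) := by rw [e1]; ring
      have h4 := mul_le_mul_of_nonneg_left h1 (mul_pos hth0 ht).le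
      have h5 : the t td * t * (chh t * g 0) = -(M * (chh t * zet t td)) := by
        calc the t td * t * (chh t * g 0) = chh t * (the t td * (t * g 0)) := by ring
          _ = -(M * (chh t * zet t td)) := by rw [e2]; ring
      have h6 : -(M * (the t td * shh t)) ≤ the t td * t * (shh t * g 1) := by
        have := mul_le_mul_of_nonneg_left h2 (mul_pos hth0 hshp).le
        calc -(M * (the t td * shh t)) = the t td * shh t * -M := by ring
          _ ≤ _ := this
          _ = _ := by ring
      have h7 : -(M * t) ≤ the t td * t * p 1 0 := by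
        have := mul_le_mul_of_nonneg_left h3 ht.le
        calc -(M * t) = t * -M := by ring
          _ ≤ _ := this
          _ = _ := by ring
      have h8 : M * (chh t * zet t td) ≤ M * (the t td * shh t + t) := by
        rw [mul_add] at h4
        rw [h5] at h4
        linarith
      have h9 := le_of_mul_le_mul_left h8 hM
      have hze2 := zet_eq (t := t) (td := td) ht
      have h10 := ch_t_gt ht hq
      rw [hze2] at h9
      unfold the at h9
      have h11 := mul_le_mul_of_nonneg_left h10.le hmu
      have h12 : chh t * (1 + t * mu t td) = chh t + mu t td * (chh t * t) := by ring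
      have h13 : (1 + mu t td * shh t / 2) * shh t + t =
        shh t + t + mu t td * (shh t ^ 2 / 2) := by ring
      rw [h12, h13] at h9
      linarith
    · rw [if_neg hy0.ne', mul_one, h.lev y hy, if_neg hy0.ne'] at hky
      rcases Nat.lt_or_ge y m with hym | hym
      · have h1 := h.gbulk y hy0 hym
        have h2 := hgall (y + 1) (by omega)
        have h3 := hgall (y - 1) (by omega)
        have h4 := hB1 1 (by omega) y hy hy0.ne'
        have h5 := mul_le_mul_of_nonneg_left h1 ht.le
        have h6 := mul_le_mul_of_nonneg_left h2 (by linarith : (0 : ℝ) ≤ shh t / 2)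
        have h7 := mul_le_mul_of_nonneg_left h3 (by linarith : (0 : ℝ) ≤ shh t / 2)
        have h8 := mul_le_mul_of_nonneg_left h4 ht.le
        have h9 : t * (chh t * g y) = -(M * chh t) := by
          calc t * (chh t * g y) = chh t * (t * g y) := by ring
            _ = _ := by rw [hky]; ring
        rw [h9] at h5
        have h10 : M * chh t ≤ M * (shh t + t) := by
          have e : t * (shh t / 2 * (g (y + 1) + g (y - 1)) + p 1 y) =
            shh t / 2 * (t * g (y + 1)) + shh t / 2 * (t * g (y - 1)) + t * p 1 y := by ring
          rw [e] at h5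
          linarith
        have h11 := le_of_mul_le_mul_left h10 hM
        linarith
      · have hym' : y = m := le_antisymm hy hym
        subst hym'
        have h1 := h.gtop
        have h3 := hgall (y - 1) (by omega)
        have h4 := hB1 1 (by omega) y hy hy0.ne'
        have h5 := mul_le_mul_of_nonneg_left h1 ht.le
        have h7 := mul_le_mul_of_nonneg_left h3 (by linarith : (0 : ℝ) ≤ shh t / 2)
        have h8 := mul_le_mul_of_nonneg_left h4 ht.le
        have h9 : t * ((1 + chh t) / 2 * g y) = -(M * ((1 + chh t) / 2)) := by
          calc t * ((1 + chh t) / 2 * g y) = (1 + chh t) / 2 * (t * g y) := by ring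
            _ = _ := by rw [hky]; ring
        rw [h9] at h5
        have h10 : M * ((1 + chh t) / 2) ≤ M * (shh t / 2 + t) := by
          have e : t * (shh t / 2 * g (y - 1) + p 1 y) =
            shh t / 2 * (t * g (y - 1)) + t * p 1 y := by ring
          rw [e] at h5
          linarith
        have h11 := le_of_mul_le_mul_left h10 hM
        have h12 := ch_sub_sh ht ht1
        have h13 : 2 * t - 1 < (1 - t) / (1 + t) := by
          rw [lt_div_iff₀ (by linarith)]
          nlinarith
        linarith
  · rcases Nat.lt_or_ge L k with hkL | hkL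
    · have hkL' : k = L + 1 := le_antisymm hk hkL
      subst hkL'
      have h1 := h0 y hy
      rw [hky] at h1
      have h2 : 0 < (if y = 0 then 1 / the t td else (1 : ℝ)) := by
        split_ifs
        · positivity
        · exact one_pos
      have h3 := mul_pos hM h2
      linarith
    · obtain ⟨k, rfl⟩ : ∃ k', k = k' + 1 := ⟨k - 1, by omega⟩
      have hkl : k < L := hkL
      rcases Nat.eq_zero_or_pos y with hy0 | hy0
      · subst hy0
        rw [if_pos rfl, mul_one_div] at hky
        have h1 := h.zero k hkl
        have h2 := hB0' (k + 2) (by omega)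
        have h3 := hB0' k (by omega)
        have h4 := hB1 (k + 1) (by omega) 1 (by omega) one_ne_zero
        have e1 : the t td * p (k + 1) 0 = -M := by
          rw [hky]
          field_simp
        have h5 := mul_le_mul_of_nonneg_left h1 hth0.le
        have h6 := mul_le_mul_of_nonneg_left h3 (by linarith : (0 : ℝ) ≤ zet t td)
        have h7 := mul_le_mul_of_nonneg_left h4 hth0.le
        have h8 : the t td * ((A2 t + mu t td * chh t) * p (k + 1) 0) =
            -(M * (A2 t + mu t td * chh t)) := by
          calc the t td * ((A2 t + mu t td * chh t) * p (k + 1) 0) =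
              (A2 t + mu t td * chh t) * (the t td * p (k + 1) 0) := by ring
            _ = _ := by rw [e1]; ring
        rw [h8] at h5
        have h9 : M * (A2 t + mu t td * chh t) ≤ M * (1 + zet t td + 2 * the t td) := by
          have e : the t td * (p (k + 2) 0 + zet t td * p k 0 + 2 * p (k + 1) 1) =
            the t td * p (k + 2) 0 + zet t td * (the t td * p k 0) + 2 * (the t td * p (k + 1) 1) := by
            ring
          rw [e] at h5
          linarith
        have h10 := le_of_mul_le_mul_left h9 hM
        have hze2 := zet_eq (t := t) (td := td) ht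
        rw [hze2] at h10
        unfold the at h10
        have h11 := mul_le_mul_of_nonneg_left hch.le hmu
        have h12 : 1 + (1 + t * mu t td) + 2 * (1 + mu t td * shh t / 2) =
          4 + mu t td * (shh t + t) := by ring
        rw [h12] at h10
        linarith
      · rw [if_neg hy0.ne', mul_one] at hky
        rcases Nat.lt_or_ge y m with hym | hym
        · have h2 := hB1 (k + 2) (by omega) y hy hy0.ne'
          have h3 := hB1 k (by omega) y hy hy0.ne'
          have h4 := hB1 (k + 1) (by omega) (y + 1) (by omega) (by omega)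
          have key : M * A2 t ≤ M * 4 := by
            rcases Nat.lt_or_ge y 2 with hy2 | hy2
            · have hy1 : y = 1 := by omega
              subst hy1
              have h1 := h.one k hkl
              have h5 := hB0' (k + 1) (by omega)
              rw [hky] at h1
              have h6 : p (k + 1) (1 + 1) = p (k + 1) 2 := rfl
              rw [h6] at h4
              linarith
            · have h1 := h.bulk k y hkl hy2 hym
              have h5 := hB1 (k + 1) (by omega) (y - 1) (by omega) (by omega)
              rw [hky] at h1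
              linarith
          have h11 := le_of_mul_le_mul_left key hM
          linarith
        · have hym' : y = m := le_antisymm hy hym
          subst hym'
          have h1 := h.top k hkl
          have h2 := hB1 (k + 2) (by omega) y hy hy0.ne'
          have h3 := hB1 k (by omega) y hy hy0.ne'
          have h4 := hB1 (k + 1) (by omega) (y - 1) (by omega) (by omega)
          have h5 : -(M * ∑ i ∈ Finset.range k, t ^ (i + 1)) ≤
              ∑ i ∈ Finset.range k, t ^ (i + 1) * p (k - i) y := by
            rw [Finset.mul_sum, ← Finset.sum_neg_distrib]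
            refine Finset.sum_le_sum fun i _ => ?_
            have h6 := hB1 (k - i) (by omega) y hy hy0.ne'
            have h7 := mul_le_mul_of_nonneg_left h6 (pow_pos ht (i + 1)).le
            linarith
          have hc1 : 0 ≤ chh t - 1 := by
            rw [ch_sub_one ht ht1]
            positivity
          have h6 : -(M * (t ^ k * (chh t - 1))) ≤ t ^ (k + 1) * (chh t - 1) * g y := by
            have h7 := mul_le_mul_of_nonneg_left (hgall y hy) (mul_nonneg (pow_pos ht k).le hc1)
            calc -(M * (t ^ k * (chh t - 1))) = t ^ k * (chh t - 1) * -M := by ring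
              _ ≤ _ := h7
              _ = _ := by rw [pow_succ]; ring
          have h7 := geo32 ht ht1 (ch_sub_one_le ht ht1) k
          have h8 := lam_eq (t := t) ht1
          have h9 := lam_lt_one ht hq
          have h10 : M * (A2 t - t) ≤ M * (3 + 2 * t * (∑ i ∈ Finset.range k, t ^ (i + 1)) +
              t ^ k * (chh t - 1)) := by
            rw [hky] at h1
            have h11 := mul_le_mul_of_nonneg_left h5 (by linarith : (0 : ℝ) ≤ 2 * t)
            linarith
          have h11 := le_of_mul_le_mul_left h10 hM
          linarith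

theorem sup_all {t td : ℝ} (ht : 0 < t) (hq : t ^ 2 + 2 * t < 1) (htd : 0 < td) (htt : td ≤ t)
    {m L : ℕ} (hm : 2 ≤ m) {g : ℕ → ℝ} {p : ℕ → ℕ → ℝ} (h : Sup t td m L g p)
    (h0 : ∀ y ≤ m, 0 ≤ p (L + 1) y) : (∀ k ≤ L + 1, ∀ y ≤ m, 0 ≤ p k y) ∧ ∀ y ≤ m, 0 ≤ g y := by
  have ht1 := t_lt_one ht hq
  have hth1 := the_ge_one (t := t) (td := td) ht ht1 htd htt
  have hth0 : 0 < the t td := by linarith
  have key := minp (I := Fin (L + 2) × Fin (m + 1)) (fun i => p i.1 i.2)
    (fun i => if (i.2 : ℕ) = 0 then 1 / the t td else 1)
    (fun i => by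
      show (0 : ℝ) < (if (i.2 : ℕ) = 0 then 1 / the t td else 1)
      split_ifs
      · positivity
      · exact one_pos)
    (fun _ _ => Set.toFinite _)
    (fun M hM i hi hj => sup_all32 ht hq htd htt hm h h0 hM (k := i.1) (y := i.2)
      (by have := i.1.isLt; omega) (by have := i.2.isLt; omega) hi
      (fun k hk y hy => hj (⟨k, by omega⟩, ⟨y, by omega⟩)))
  have key2 : ∀ k ≤ L + 1, ∀ y ≤ m, 0 ≤ p k y :=
    fun k hk y hy => key (⟨k, by omega⟩, ⟨y, by omega⟩)
  refine ⟨key2, fun y hy => ?_⟩
  have h1 : 0 ≤ p 0 y := key2 0 (Nat.zero_le _) y hy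
  rw [h.lev y hy] at h1
  have h2 : 0 < (if y = 0 then td else t) := by
    split_ifs
    · exact htd
    · exact ht
  exact nonneg_of_mul_nonneg_right h1 h2

end Pool.Agent.Helper49.RD
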