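import Pool.Agent.Helper49.RD.Lev1
import Pool.Agent.Helper49.RD.SupAll

/-!
Block RD-L2: comparison, linearity, composition and duality for the levels.

Paper proofs. `c^E w = ∑ v, E (ds m v) * GS t (xs t td m) L v w`.
* `lev_congr`, `gsum_congr`: `ds m v ≤ m` (`ds_le`).
* `lev_lin`, `gsum_lin`: `c^E` is linear in `E`, `pqs t x c k` is linear in `c` (induction on `k`, `wp`, `wq` are linear).
* `lev_le`: `Sup` is linear (private lemma `sup_add71` of `DX/Row.lean`, copy it): with `lev_sol` the differences `g - gsum`,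
  `p - plev` are a super solution with nonnegative last level (`Sol.src`); `sup_all`; `plev (k + 1) = lev k`.
* `lev_nonneg`, `gsum_nonneg`: `sup_all` for `plev` (a `Sol` is a `Sup`).
* `lev_mono`: `lev_nonneg` for `F - E` and `lev_lin`.
* `lev_comp`, `gsum_comp`: by `gs_mul` (`DX/Prof.lean`) with `L := l`, `c = c^E`: `c w = ∑ u, GS l u w * (pqs c l).1 u`, and
  `(pqs c l).1 u = lev t td m L E l (ds m u)` (`lev_pqs`), so `c^E` (for `L`) is `c^{E'}` (for `l`) with `E' z = lev t td m L E l z`.
  The levels `≤ l` only depend on `c`.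
* `pai_dual`: `gsum k w (ds v) = ∑ u, w (ds u) * GS k u v` (`gsum_row`), exchange the sums, `GS k u v = GS k v u` (`GS_symm`),
  `∑ v, GS k v u * lev L E k (ds v) = c^E u` (`gs_mul`, `lev_pqs`) `= gsum L E (ds u)`.
* `gsum_pai`: `gsum L E 0 = c^E (middle)`; `GS_symm`; `gsum L e0 (ds v) = ∑ v', e0 (ds v') * GS L v' v = GS L (middle) v`
  (`ds m v' = 0` iff `v' = ⟨m, _⟩`).
-/

open Finset

namespace Pool.Agent.Helper49.RD

open Pool.Agent.Helper49.DL Pool.Agent.Helper49.DX

private theorem nx_linL2 {n : ℕ} (a b : ℝ) (c d : Fin n → ℝ) (j : Fin n) :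
    nx (fun i => a * c i + b * d i) j = a * nx c j + b * nx d j := by
  unfold nx
  split_ifs
  · rfl
  · ring

private theorem pv_linL2 {n : ℕ} (a b : ℝ) (c d : Fin n → ℝ) (j : Fin n) :
    pv (fun i => a * c i + b * d i) j = a * pv c j + b * pv d j := by
  unfold pv
  split_ifs
  · rfl
  · ring

private theorem wp_linL2 {n : ℕ} (t a b : ℝ) (c c' d d' : Fin n → ℝ) (j : Fin n) :
    wp t (fun i => a * c i + b * c' i) (fun i => a * d i + b * d' i) j =
      a * wp t c d j + b * wp t c' d' j := by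
  unfold wp
  rw [nx_linL2, pv_linL2, nx_linL2, pv_linL2]
  ring

private theorem wq_linL2 {n : ℕ} (t a b : ℝ) (c c' d d' : Fin n → ℝ) (j : Fin n) :
    wq t (fun i => a * c i + b * c' i) (fun i => a * d i + b * d' i) j =
      a * wq t c d j + b * wq t c' d' j := by
  unfold wq
  rw [nx_linL2, pv_linL2, nx_linL2, pv_linL2]
  ring

private theorem pqs_linL2 {n : ℕ} (t a b : ℝ) (x c c' : Fin n → ℝ) (k : ℕ) :
    (pqs t x (fun w => a * c w + b * c' w) k).1 =
        (fun j => a * (pqs t x c k).1 j + b * (pqs t x c' k).1 j) ∧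
      (pqs t x (fun w => a * c w + b * c' w) k).2 =
        (fun j => a * (pqs t x c k).2 j + b * (pqs t x c' k).2 j) := by
  induction k with
  | zero =>
    have h0 : (fun _ : Fin n => (0 : ℝ)) = fun i => a * (fun _ : Fin n => (0 : ℝ)) i +
        b * (fun _ : Fin n => (0 : ℝ)) i := by
      funext i
      simp
    constructor
    · funext j
      show wp t (fun w => a * c w + b * c' w) (fun _ => 0) j = _
      rw [h0, wp_linL2]
      rfl
    · funext j
      show wq t (fun w => a * c w + b * c' w) (fun _ => 0) j = _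
      rw [h0, wq_linL2]
      rfl
  | succ k ih =>
    have e1 : (fun j => (pqs t x (fun w => a * c w + b * c' w) k).1 j / x j) =
        fun j => a * (fun j => (pqs t x c k).1 j / x j) j + b * (fun j => (pqs t x c' k).1 j / x j) j := by
      funext j
      rw [ih.1]
      ring
    have e2 : (fun j => x j * (pqs t x (fun w => a * c w + b * c' w) k).2 j) =
        fun j => a * (fun j => x j * (pqs t x c k).2 j) j + b * (fun j => x j * (pqs t x c' k).2 j) j := by
      funext j
      rw [ih.2]
      ring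
    constructor
    · funext j
      show wp t (fun j => (pqs t x (fun w => a * c w + b * c' w) k).1 j / x j)
        (fun j => x j * (pqs t x (fun w => a * c w + b * c' w) k).2 j) j = _
      rw [e1, e2, wp_linL2]
      rfl
    · funext j
      show wq t (fun j => (pqs t x (fun w => a * c w + b * c' w) k).1 j / x j)
        (fun j => x j * (pqs t x (fun w => a * c w + b * c' w) k).2 j) j = _
      rw [e1, e2, wq_linL2]
      rfl

private theorem sup_addL2 {t td : ℝ} {m L : ℕ} {E : ℕ → ℝ} {g g' : ℕ → ℝ} {p p' : ℕ → ℕ → ℝ} (c : ℝ)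
    (h : Sup t td m L g p) (s : Sol t td m L E g' p') :
    Sup t td m L (fun y => g y + c * g' y) (fun k y => p k y + c * p' k y) where
  lev := by
    intro y hy
    have h1 := h.lev y hy
    have h2 := s.lev y hy
    rw [h1, h2]
    ring
  bulk := by
    intro k y hk hy hym
    have h1 := h.bulk k y hk hy hym
    have h2 := s.bulk k y hk hy hym
    linear_combination h1 + c * h2
  one := by
    intro k hk
    have h1 := h.one k hk
    have h2 := s.one k hk
    linear_combination h1 + c * h2
  zero := by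
    intro k hk
    have h1 := h.zero k hk
    have h2 := s.zero k hk
    linear_combination h1 + c * h2
  top := by
    intro k hk
    have h1 := h.top k hk
    have h2 := s.top k hk
    have h3 : ∑ i ∈ Finset.range k, t ^ (i + 1) * (p (k - i) m + c * p' (k - i) m) =
        ∑ i ∈ Finset.range k, t ^ (i + 1) * p (k - i) m +
          c * ∑ i ∈ Finset.range k, t ^ (i + 1) * p' (k - i) m := by
      rw [Finset.mul_sum, ← Finset.sum_add_distrib]
      exact Finset.sum_congr rfl fun i _ => by ring
    rw [h3]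
    linear_combination h1 + c * h2
  gbulk := by
    intro y hy hym
    have h1 := h.gbulk y hy hym
    have h2 := s.gbulk y hy hym
    linear_combination h1 + c * h2
  gzero := by
    have h1 := h.gzero
    have h2 := s.gzero
    linear_combination h1 + c * h2
  gtop := by
    have h1 := h.gtop
    have h2 := s.gtop
    linear_combination h1 + c * h2

private theorem sup_of_solL2 {t td : ℝ} {m L : ℕ} {E : ℕ → ℝ} {g : ℕ → ℝ} {p : ℕ → ℕ → ℝ}
    (s : Sol t td m L E g p) : Sup t td m L g p where
  lev := s.lev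
  bulk := fun k y h1 h2 h3 => (s.bulk k y h1 h2 h3).le
  one := fun k h => (s.one k h).le
  zero := fun k h => (s.zero k h).le
  top := fun k h => (s.top k h).le
  gbulk := fun y h1 h2 => (s.gbulk y h1 h2).le
  gzero := s.gzero.le
  gtop := s.gtop.le

/-- The output profile. -/
private noncomputable def outL2 (t td : ℝ) (m L : ℕ) (E : ℕ → ℝ) : Fin (2 * m + 1) → ℝ :=
  fun w => ∑ v, E (ds m v) * GS t (xs t td m) L v w

private theorem lev_outL2 (t td : ℝ) (m L : ℕ) (E : ℕ → ℝ) (k y : ℕ) :
    lev t td m L E k y = if h : m + y < 2 * m + 1 then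
      (pqs t (xs t td m) (outL2 t td m L E) k).1 ⟨m + y, h⟩ else 0 := rfl

private theorem gsum_outL2 (t td : ℝ) (m L : ℕ) (E : ℕ → ℝ) (y : ℕ) :
    gsum t td m L E y = if h : m + y < 2 * m + 1 then outL2 t td m L E ⟨m + y, h⟩ else 0 := rfl

private theorem out_congrL2 (t td : ℝ) {m L : ℕ} {E F : ℕ → ℝ} (h : ∀ y ≤ m, E y = F y) :
    outL2 t td m L E = outL2 t td m L F := by
  funext w
  unfold outL2
  exact Finset.sum_congr rfl fun v _ => by rw [h _ (ds_le m v)]

private theorem out_linL2 (t td : ℝ) (m L : ℕ) (a b : ℝ) (E F : ℕ → ℝ) :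
    outL2 t td m L (fun z => a * E z + b * F z) =
      fun w => a * outL2 t td m L E w + b * outL2 t td m L F w := by
  funext w
  unfold outL2
  rw [Finset.mul_sum, Finset.mul_sum, ← Finset.sum_add_distrib]
  exact Finset.sum_congr rfl fun v _ => by ring

theorem lev_congr (t td : ℝ) {m L : ℕ} {E F : ℕ → ℝ} (h : ∀ y ≤ m, E y = F y) (k y : ℕ) :
    lev t td m L E k y = lev t td m L F k y := by
  rw [lev_outL2, lev_outL2, out_congrL2 t td h]

theorem gsum_congr (t td : ℝ) {m L : ℕ} {E F : ℕ → ℝ} (h : ∀ y ≤ m, E y = F y) (y : ℕ) :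
    gsum t td m L E y = gsum t td m L F y := by
  rw [gsum_outL2, gsum_outL2, out_congrL2 t td h]

theorem lev_lin (t td : ℝ) (m L : ℕ) (a b : ℝ) (E F : ℕ → ℝ) (k y : ℕ) :
    lev t td m L (fun z => a * E z + b * F z) k y = a * lev t td m L E k y + b * lev t td m L F k y := by
  rw [lev_outL2, lev_outL2, lev_outL2, out_linL2]
  split_ifs with h
  · rw [(pqs_linL2 t a b (xs t td m) (outL2 t td m L E) (outL2 t td m L F) k).1]
  · ring

theorem gsum_lin (t td : ℝ) (m L : ℕ) (a b : ℝ) (E F : ℕ → ℝ) (y : ℕ) :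
    gsum t td m L (fun z => a * E z + b * F z) y = a * gsum t td m L E y + b * gsum t td m L F y := by
  rw [gsum_outL2, gsum_outL2, gsum_outL2, out_linL2]
  split_ifs with h
  · rfl
  · ring

section

variable {t td : ℝ} (ht : 0 < t) (hq : t ^ 2 + 2 * t < 1) (htd : 0 < td) (htt : td ≤ t) {m L : ℕ}
  (hm : 2 ≤ m) {E F : ℕ → ℝ}

include ht hq htd htt hm

theorem lev_le {g : ℕ → ℝ} {p : ℕ → ℕ → ℝ} (h : Sup t td m L g p) (h0 : ∀ y ≤ m, E y ≤ p (L + 1) y) :
    (∀ k ≤ L, ∀ y ≤ m, lev t td m L E k y ≤ p (k + 1) y) ∧ ∀ y ≤ m, gsum t td m L E y ≤ g y := by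
  have ht1 := t_lt_one ht hq
  have s := lev_sol ht ht1 htd (htt.trans_lt ht1) hm L E
  have h1 := sup_all ht hq htd htt hm (sup_addL2 (-1) h s) (fun y hy => by
    have h2 := h0 y hy
    have h3 := s.src y hy
    rw [h3]
    linarith)
  refine ⟨fun k hk y hy => ?_, fun y hy => ?_⟩
  · have h2 : 0 ≤ p (k + 1) y + -1 * lev t td m L E k y := h1.1 (k + 1) (by omega) y hy
    linarith
  · have h2 := h1.2 y hy
    linarith

theorem lev_nonneg (h0 : ∀ y ≤ m, 0 ≤ E y) :
    (∀ k ≤ L, ∀ y ≤ m, 0 ≤ lev t td m L E k y) ∧ ∀ y ≤ m, 0 ≤ gsum t td m L E y := by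
  have ht1 := t_lt_one ht hq
  have s := lev_sol ht ht1 htd (htt.trans_lt ht1) hm L E
  have h1 := sup_all ht hq htd htt hm (sup_of_solL2 s) (fun y hy => by
    rw [s.src y hy]
    exact h0 y hy)
  exact ⟨fun k hk y hy => h1.1 (k + 1) (by omega) y hy, h1.2⟩

theorem lev_mono (h0 : ∀ y ≤ m, E y ≤ F y) :
    (∀ k ≤ L, ∀ y ≤ m, lev t td m L E k y ≤ lev t td m L F k y) ∧
      ∀ y ≤ m, gsum t td m L E y ≤ gsum t td m L F y := by
  have h1 := lev_nonneg (L := L) (E := fun z => 1 * F z + (-1) * E z) ht hq htd htt hm (fun y hy => by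
    have := h0 y hy
    linarith)
  refine ⟨fun k hk y hy => ?_, fun y hy => ?_⟩
  · have h2 := h1.1 k hk y hy
    rw [lev_lin] at h2
    linarith
  · have h2 := h1.2 y hy
    rw [gsum_lin] at h2
    linarith

private theorem out_compL2 (l : ℕ) :
    outL2 t td m L E = outL2 t td m l (lev t td m L E l) := by
  have ht1 := t_lt_one ht hq
  funext w
  have h1 := gs_mul ht ht1 (fun j => xs_pos ht htd m j)
    (fun j => xs_lt_one ht1 (htt.trans_lt ht1) m j) l (outL2 t td m L E) w
  rw [← h1]
  show _ = ∑ v, lev t td m L E l (ds m v) * GS t (xs t td m) l v w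
  refine Finset.sum_congr rfl fun u _ => ?_
  have h2 : (pqs t (xs t td m) (outL2 t td m L E) l).1 u = lev t td m L E l (ds m u) :=
    lev_pqs t td m L E l u
  rw [h2]
  ring

theorem lev_comp {k l : ℕ} (hkl : k ≤ l) (hlL : l ≤ L) (y : ℕ) :
    lev t td m L E k y = lev t td m l (lev t td m L E l) k y := by
  have _ := hkl
  have _ := hlL
  rw [lev_outL2, lev_outL2, ← out_compL2 ht hq htd htt hm l]

theorem gsum_comp {l : ℕ} (hlL : l ≤ L) (y : ℕ) :
    gsum t td m L E y = gsum t td m l (lev t td m L E l) y := by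
  have _ := hlL
  rw [gsum_outL2, gsum_outL2, ← out_compL2 ht hq htd htt hm l]

theorem pai_dual {k : ℕ} (hk : k ≤ L) (w : ℕ → ℝ) :
    pai m (gsum t td m k w) (lev t td m L E k) = pai m w (gsum t td m L E) := by
  have _ := hk
  have ht1 := t_lt_one ht hq
  have h1 : ∀ u : Fin (2 * m + 1), ∑ v, GS t (xs t td m) k u v * lev t td m L E k (ds m v) =
      gsum t td m L E (ds m u) := by
    intro u
    rw [← gsum_row]
    have h2 := gs_mul ht ht1 (fun j => xs_pos ht htd m j)
      (fun j => xs_lt_one ht1 (htt.trans_lt ht1) m j) k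
      (fun w => ∑ v, E (ds m v) * GS t (xs t td m) L v w) u
    rw [← h2]
    refine Finset.sum_congr rfl fun v _ => ?_
    rw [lev_pqs, GS_symm t _ k u v]
  unfold pai
  have h3 : ∀ v : Fin (2 * m + 1), gsum t td m k w (ds m v) * lev t td m L E k (ds m v) =
      ∑ u, w (ds m u) * (GS t (xs t td m) k u v * lev t td m L E k (ds m v)) := by
    intro v
    rw [← gsum_row, Finset.sum_mul]
    exact Finset.sum_congr rfl fun u _ => by ring
  rw [Finset.sum_congr rfl fun v _ => h3 v, Finset.sum_comm]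
  refine Finset.sum_congr rfl fun u _ => ?_
  rw [← Finset.mul_sum, h1]

end

theorem gsum_pai (t td : ℝ) (m L : ℕ) (E : ℕ → ℝ) :
    gsum t td m L E 0 = pai m E (gsum t td m L e0) := by
  have hb : m + 0 < 2 * m + 1 := by omega
  have h1 : ∀ v : Fin (2 * m + 1), gsum t td m L e0 (ds m v) = GS t (xs t td m) L v ⟨m + 0, hb⟩ := by
    intro v
    rw [← gsum_row, Finset.sum_eq_single (⟨m + 0, hb⟩ : Fin (2 * m + 1))]
    · have h2 : ds m (⟨m + 0, hb⟩ : Fin (2 * m + 1)) = 0 := by
        unfold ds
        simp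
      rw [h2, GS_symm]
      unfold e0
      simp
    · intro u _ hu
      have h2 : ds m u ≠ 0 := by
        intro h3
        apply hu
        apply Fin.ext
        unfold ds at h3
        simp only
        omega
      unfold e0
      rw [if_neg h2, zero_mul]
    · intro h
      exact absurd (Finset.mem_univ _) h
  unfold pai
  rw [gsum, dif_pos hb]
  exact Finset.sum_congr rfl fun v _ => by rw [h1 v]

end Pool.Agent.Helper49.RD
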