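import Pool.Agent.Helper49.RD.FfK
import Pool.Agent.Helper49.RD.Lev2
import Pool.Agent.Helper49.DX.Up

/-!
Block RD-LU: upper bounds for the levels of the source in the middle row.

Paper proof. Fix `ε > 0` with `λ ≤ e^{-ε}` (`ε = -log λ / 2`), `F` from `fsys_exists_all`. By the private lemmas of `DX/Up.lean` (`sup67`, copy what is needed) for a suitable
`e` the functions `w k y = F k (y + e + 1)` (`y ≠ 0`), `F k (e + 1)/θ` (`y = 0`), `wg y = w 0 y / (t or td)` are a super solution. `e0 y ≤ w (L + 1) y / W` with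
`W = w (L + 1) 0 = (e + 1) e^{-ε (e + 1)}/θ > 0` (`F (L + 1) ≥ 0`, `f_nonneg`). So by `lev_le` (`Sup` is homogeneous; or apply `lev_le` to the source `W * e0` and use `lev_lin`)
`lev e0 k y ≤ w (k + 1) y / W ≤ F (k + 1) (y + e + 1)/W ≤ C (y + e + 1) λ^(L-k) (L - k)^(-3/2)` for `k < L`, and
`gsum e0 y ≤ wg y / W ≤ F 0 (y + e + 1)/(td W) ≤ C (y + e + 1) λ^(L+1) (L+1)^(-3/2)`.
-/

open Finset

namespace Pool.Agent.Helper49.RD

open Pool.Agent.Helper49.DL Pool.Agent.Helper49.DX

private noncomputable def w14 (θ : ℝ) (d : ℕ) (F : ℕ → ℕ → ℝ) (k y : ℕ) : ℝ :=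
  if y = 0 then F k d / θ else F k (y + d)

private noncomputable def wg14 (t td θ : ℝ) (d : ℕ) (F : ℕ → ℕ → ℝ) (y : ℕ) : ℝ :=
  if y = 0 then F 0 d / θ / td else F 0 (y + d) / t

/-- The inequality for `zero`, multiplied by `θ`. -/
private lemma alg_zero14 {t μ sh ch A D φ b c e f : ℝ} (hD : 0 < D) (ht : 0 ≤ t) (hμ : 0 ≤ μ)
    (hsh : 0 ≤ sh) (h1 : A * φ = f + e + (b + c)) (h2 : e ≤ φ) (h3 : D * b ≤ (D + 1) * φ)
    (h4 : (D - 1) * φ ≤ D * c) (h5 : 0 ≤ φ) (hd : μ * sh + 2 ≤ D * (μ * (ch - sh - t))) :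
    f + (1 + t * μ) * e + 2 * (1 + μ * sh / 2) * b ≤ (A + μ * ch) * φ := by
  have k1 := mul_le_mul_of_nonneg_left h2 (show 0 ≤ t * μ * D by positivity)
  have k2 := mul_le_mul_of_nonneg_left h3 (show 0 ≤ 1 + μ * sh by positivity)
  have k3 := mul_le_mul_of_nonneg_right hd h5
  have k4 : 0 ≤ D * (c + μ * ch * φ - t * μ * e - (1 + μ * sh) * b) := by linarith
  have k5 := (mul_nonneg_iff_of_pos_left hD).1 k4
  linarith

/-- The inequality for `gzero`, multiplied by `θ t`. -/
private lemma alg_gzero14 {t μ sh ch D φ b c f : ℝ} (hD : 0 < D) (hμ : 0 ≤ μ)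
    (hsh : 0 ≤ sh) (h1 : ch * φ = sh / 2 * (b + c) + t * f) (h3 : D * b ≤ (D + 1) * φ)
    (h4 : (D - 1) * φ ≤ D * c) (h5 : 0 ≤ φ)
    (hd : μ * sh ^ 2 / 2 + sh ≤ D * (μ * (ch * t - sh ^ 2 / 2))) :
    sh * (1 + μ * sh / 2) * b + t * f ≤ ch * (1 + t * μ) * φ := by
  have k2 := mul_le_mul_of_nonneg_left h3 (show 0 ≤ μ * sh ^ 2 / 2 + sh / 2 by positivity)
  have k1 := mul_le_mul_of_nonneg_left h4 (show 0 ≤ sh / 2 by positivity)
  have k3 := mul_le_mul_of_nonneg_right hd h5
  have k4 : 0 ≤ D * (ch * (1 + t * μ) * φ - t * f - sh * (1 + μ * sh / 2) * b) := by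
    have e1 : D * (ch * (1 + t * μ) * φ - t * f - sh * (1 + μ * sh / 2) * b) =
        D * (ch * t * μ * φ) + D * (sh / 2 * (b + c)) - D * (sh * (1 + μ * sh / 2) * b) := by
      linear_combination D * h1
    rw [e1]
    linarith
  have k5 := (mul_nonneg_iff_of_pos_left hD).1 k4
  linarith

private lemma geo14 {t q : ℝ} (hq : q * (1 - t) = 2 * t ^ 2) (k : ℕ) :
    2 * t * ∑ i ∈ Finset.range k, t ^ (i + 1) = q * (1 - t ^ k) := by
  induction k with
  | zero => simp
  | succ k ih =>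
    rw [Finset.sum_range_succ, mul_add, ih]
    linear_combination -(t ^ k) * hq

private lemma sup14 {t td ε : ℝ} (ht : 0 < t) (hq : t ^ 2 + 2 * t < 1) (htd : 0 < td)
    (htt : td < t) (hε : 0 < ε) (hl : lam t ≤ Real.exp (-ε)) {e : ℕ} (he : 1 ≤ e)
    (h1 : mu t td * shh t + 2 ≤ ((e : ℝ) + 1) * (mu t td * (chh t - shh t - t)))
    (h2 : mu t td * shh t ^ 2 / 2 + shh t ≤
      ((e : ℝ) + 1) * (mu t td * (chh t * t - shh t ^ 2 / 2)))
    {m L : ℕ} (hm : 2 ≤ m) {F : ℕ → ℕ → ℝ} (hF : FSys t ε L F) :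
    Sup t td m L (wg14 t td (the t td) (e + 1) F) (w14 (the t td) (e + 1) F) := by
  have ht1 := t_lt_one ht hq
  have hθ1 := the_ge_one ht ht1 htd htt.le
  have hθ : 0 < the t td := lt_of_lt_of_le one_pos hθ1
  have hn := f_nonneg ht hq hε hF
  have hr := f_ratio ht hq hε hF
  have hmo := f_mono ht hq hε hl hF
  have hst := f_step ht hq hε hF
  have hμ : 0 ≤ mu t td := mu_nonneg htd htt.le
  have hsh := shh_pos ht ht1
  have hζ : zet t td = 1 + t * mu t td := zet_eq ht
  have hlt := lam_eq ht1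
  have h1t : 0 < 1 - t := by linarith
  have hqq : (2 * t ^ 2 / (1 - t)) * (1 - t) = 2 * t ^ 2 := by field_simp
  have hq0 : 0 ≤ 2 * t ^ 2 / (1 - t) := by positivity
  have hchq := ch_sub_one_le ht ht1
  have hch1 : 0 ≤ chh t - 1 := by rw [ch_sub_one ht ht1]; positivity
  -- monotonicity in the level
  have hmono : ∀ j a b : ℕ, a ≤ b → b ≤ L + 1 → F a j ≤ F b j := by
    intro j a b hab
    induction b, hab using Nat.le_induction with
    | base => intro _; exact le_rfl
    | succ b _ ih =>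
      intro hb
      exact (ih (by omega)).trans (hmo b (by omega) j)
  have hr1 : ∀ k, k ≤ L + 1 → ((e : ℝ) + 1) * F k (e + 1 + 1) ≤ ((e : ℝ) + 1 + 1) * F k (e + 1) := by
    intro k hk
    have := hr k hk (e + 1) (by omega)
    push_cast at this
    exact this
  have hr2 : ∀ k, k ≤ L + 1 → ((e : ℝ) + 1 - 1) * F k (e + 1) ≤ ((e : ℝ) + 1) * F k e := by
    intro k hk
    have := hr k hk e he
    rw [add_sub_cancel_right]
    exact this
  have hD : 0 < (e : ℝ) + 1 := by positivity
  have hw : ∀ k y, y ≠ 0 → w14 (the t td) (e + 1) F k y = F k (y + (e + 1)) :=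
    fun k y hy => if_neg hy
  have hw0 : ∀ k, w14 (the t td) (e + 1) F k 0 = F k (e + 1) / the t td := fun k => if_pos rfl
  have hg : ∀ y, y ≠ 0 → wg14 t td (the t td) (e + 1) F y = F 0 (y + (e + 1)) / t :=
    fun y hy => if_neg hy
  have hg0 : wg14 t td (the t td) (e + 1) F 0 = F 0 (e + 1) / the t td / td := if_pos rfl
  have htg0 : t * (F 0 (e + 1) / the t td / td) = zet t td * (F 0 (e + 1) / the t td) := by
    unfold zet
    field_simp
  refine ⟨?_, ?_, ?_, ?_, ?_, ?_, ?_, ?_⟩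
  · -- lev
    intro y _
    by_cases hy : y = 0
    · rw [hy, hw0, hg0, if_pos rfl]
      field_simp
    · rw [hw 0 y hy, hg y hy, if_neg hy]
      field_simp
  · -- bulk
    intro k y hk hy1 hy2
    have e0 := hF.bulk k (y + (e + 1)) hk (by omega)
    rw [show y + (e + 1) + 1 = y + 1 + (e + 1) by omega,
      show y + (e + 1) - 1 = y - 1 + (e + 1) by omega] at e0
    rw [hw (k + 2) y (by omega), hw k y (by omega), hw (k + 1) (y + 1) (by omega),
      hw (k + 1) (y - 1) (by omega), hw (k + 1) y (by omega)]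
    exact e0.symm.le
  · -- one
    intro k hk
    have e0 := hF.bulk k (1 + (e + 1)) hk (by omega)
    rw [show 1 + (e + 1) + 1 = 2 + (e + 1) by omega,
      show 1 + (e + 1) - 1 = e + 1 by omega] at e0
    have e1 : the t td * (F (k + 1) (e + 1) / the t td) = F (k + 1) (e + 1) := by field_simp
    rw [hw (k + 2) 1 (by omega), hw k 1 (by omega), hw (k + 1) 2 (by omega), hw0,
      hw (k + 1) 1 (by omega), e1]
    exact e0.symm.le
  · -- zero
    intro k hk
    have e0 := hF.bulk k (e + 1) hk (by omega)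
    rw [show e + 1 - 1 = e by omega] at e0
    have e1 := alg_zero14 (c := F (k + 1) e) (b := F (k + 1) (e + 1 + 1)) (f := F (k + 2) (e + 1))
      hD ht.le hμ hsh.le e0 (hmo k (by omega) (e + 1)) (hr1 (k + 1) (by omega))
      (hr2 (k + 1) (by omega)) (hn (k + 1) (by omega) _) h1
    rw [hw0, hw0, hw0, hw (k + 1) 1 (by omega), show 1 + (e + 1) = e + 1 + 1 by omega, hζ]
    have e2 : F (k + 2) (e + 1) / the t td + (1 + t * mu t td) * (F k (e + 1) / the t td) +
        2 * F (k + 1) (e + 1 + 1) = (F (k + 2) (e + 1) + (1 + t * mu t td) * F k (e + 1) +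
          2 * the t td * F (k + 1) (e + 1 + 1)) / the t td := by
      field_simp
    rw [e2, ← mul_div_assoc]
    exact div_le_div_of_nonneg_right e1 hθ.le
  · -- top
    intro k hk
    have e0 := hF.bulk k (m + (e + 1)) hk (by omega)
    rw [show m + (e + 1) - 1 = m - 1 + (e + 1) by omega] at e0
    have e1 : ∑ i ∈ Finset.range k, t ^ (i + 1) * w14 (the t td) (e + 1) F (k - i) m ≤
        (∑ i ∈ Finset.range k, t ^ (i + 1)) * F (k + 1) (m + (e + 1)) := by
      rw [Finset.sum_mul]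
      apply Finset.sum_le_sum
      intro i _
      rw [hw (k - i) m (by omega)]
      exact mul_le_mul_of_nonneg_left (hmono _ _ _ (by omega) (by omega)) (by positivity)
    have e2 := mul_le_mul_of_nonneg_left e1 (show 0 ≤ 2 * t by positivity)
    rw [← mul_assoc, geo14 hqq k] at e2
    have e3 : t ^ (k + 1) * (chh t - 1) * (F 0 (m + (e + 1)) / t) =
        t ^ k * (chh t - 1) * F 0 (m + (e + 1)) := by
      rw [pow_succ]
      field_simp
    have e4 : t ^ k * (chh t - 1) * F 0 (m + (e + 1)) ≤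
        t ^ k * (2 * t ^ 2 / (1 - t)) * F (k + 1) (m + (e + 1)) := by
      apply mul_le_mul (mul_le_mul_of_nonneg_left hchq (by positivity))
        (hmono _ _ _ (by omega) (by omega)) (hn 0 (by omega) _) (by positivity)
    have e5 := hst (k + 1) (by omega) (m + (e + 1))
    have e6 : (t + 2 * t ^ 2 / (1 - t)) * F (k + 1) (m + (e + 1)) ≤
        F (k + 1) (m + (e + 1) + 1) := by
      rw [← hlt]
      exact (mul_le_mul_of_nonneg_right hl (hn (k + 1) (by omega) _)).trans e5
    rw [hw (k + 2) m (by omega), hw k m (by omega), hw (k + 1) (m - 1) (by omega),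
      hw (k + 1) m (by omega), hg m (by omega), e3]
    linarith
  · -- gbulk
    intro y hy1 hy2
    have e0 := hF.bot (y + (e + 1)) (by omega)
    rw [show y + (e + 1) + 1 = y + 1 + (e + 1) by omega,
      show y + (e + 1) - 1 = y - 1 + (e + 1) by omega] at e0
    have e1 : wg14 t td (the t td) (e + 1) F (y - 1) ≤ F 0 (y - 1 + (e + 1)) / t := by
      by_cases hy : y - 1 = 0
      · rw [hy, hg0, Nat.zero_add, div_div, div_le_div_iff₀ (by positivity) ht]
        have hz : t ≤ the t td * td := by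
          have := zet_le_the ht ht1 htd htt.le
          unfold zet at this
          rwa [div_le_iff₀ htd] at this
        exact mul_le_mul_of_nonneg_left hz (hn 0 (by omega) _)
      · rw [hg (y - 1) hy]
    rw [hg (y + 1) (by omega), hg y (by omega), hw 1 y (by omega)]
    have e2 := mul_le_mul_of_nonneg_left e1 (show 0 ≤ shh t / 2 by positivity)
    have e3 : chh t * (F 0 (y + (e + 1)) / t) = shh t / 2 * (F 0 (y + 1 + (e + 1)) / t) +
        shh t / 2 * (F 0 (y - 1 + (e + 1)) / t) + F 1 (y + (e + 1)) := by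
      field_simp
      linear_combination 2 * e0
    rw [e3]
    linarith
  · -- gzero
    have e0 := hF.bot (e + 1) (by omega)
    rw [show e + 1 - 1 = e by omega] at e0
    have e1 := alg_gzero14 hD hμ hsh.le e0 (hr1 0 (by omega)) (hr2 0 (by omega))
      (hn 0 (by omega) _) h2
    rw [hg 1 (by omega), hw0, hg0, show 1 + (e + 1) = e + 1 + 1 by omega]
    have e2 : chh t * (F 0 (e + 1) / the t td / td) =
        chh t * (1 + t * mu t td) * F 0 (e + 1) / (the t td * t) := by
      have := htg0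
      rw [hζ] at this
      rw [eq_div_iff (by positivity)]
      have h3 : F 0 (e + 1) / the t td / td * t * the t td =
          (1 + t * mu t td) * F 0 (e + 1) := by
        rw [mul_comm _ t, this]
        field_simp
      linear_combination chh t * h3
    have e3 : shh t * (F 0 (e + 1 + 1) / t) + F 1 (e + 1) / the t td =
        (shh t * (1 + mu t td * shh t / 2) * F 0 (e + 1 + 1) + t * F 1 (e + 1)) /
          (the t td * t) := by
      have h3 : 1 + mu t td * shh t / 2 = the t td := rfl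
      rw [h3]
      field_simp
    rw [e2, e3]
    exact div_le_div_of_nonneg_right e1 (by positivity)
  · -- gtop
    have e0 := hF.bot (m + (e + 1)) (by omega)
    rw [show m + (e + 1) - 1 = m - 1 + (e + 1) by omega] at e0
    have e5 := hst 0 (by omega) (m + (e + 1))
    have e6 : t * F 0 (m + (e + 1)) ≤ F 0 (m + (e + 1) + 1) := by
      refine le_trans (mul_le_mul_of_nonneg_right ?_ (hn 0 (by omega) _)) e5
      exact le_trans (by linarith) hl
    have e7 := mul_le_mul_of_nonneg_left e6 (show 0 ≤ shh t / 2 by positivity)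
    have e8 : t * shh t = chh t - 1 := (ch_sub_one ht ht1).symm
    rw [hg (m - 1) (by omega), hg m (by omega), hw 1 m (by omega)]
    have e9 : shh t / 2 * (F 0 (m - 1 + (e + 1)) / t) + F 1 (m + (e + 1)) =
        (shh t / 2 * F 0 (m - 1 + (e + 1)) + t * F 1 (m + (e + 1))) / t := by
      field_simp
    rw [e9, ← mul_div_assoc]
    apply div_le_div_of_nonneg_right _ ht.le
    have e10 : (1 + chh t) / 2 * F 0 (m + (e + 1)) -
        (shh t / 2 * F 0 (m - 1 + (e + 1)) + t * F 1 (m + (e + 1))) =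
        shh t / 2 * F 0 (m + (e + 1) + 1) - shh t / 2 * (t * F 0 (m + (e + 1))) := by
      linear_combination e0 + (F 0 (m + (e + 1))) / 2 * e8
    linarith

private lemma lam_lt_one14 {t : ℝ} (ht : 0 < t) (hq : t ^ 2 + 2 * t < 1) : lam t < 1 := by
  have ht1 := t_lt_one ht hq
  rw [lam_eq ht1]
  have h1 : 0 < 1 - t := by linarith
  have h2 : t + 2 * t ^ 2 / (1 - t) = (t + t ^ 2) / (1 - t) := by
    field_simp
    ring
  rw [h2, div_lt_one h1]
  linarith

theorem lev_up {t td : ℝ} (ht : 0 < t) (hq : t ^ 2 + 2 * t < 1) (htd : 0 < td) (htt : td < t) :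
    ∃ C : ℝ, 0 < C ∧ ∀ m L : ℕ, 2 ≤ m →
      (∀ k < L, ∀ y ≤ m, lev t td m L e0 k y ≤
        C * (1 + y) * lam t ^ (L - k) / ((L - k : ℕ) : ℝ) ^ (3 / 2 : ℝ)) ∧
      (∀ y ≤ m, gsum t td m L e0 y ≤ C * (1 + y) * lam t ^ L / ((L + 1 : ℕ) : ℝ) ^ (3 / 2 : ℝ)) := by
  have ht1 := t_lt_one ht hq
  have hlp := lam_pos ht ht1
  have hl1 := lam_lt_one14 ht hq
  obtain ⟨ε, hεe⟩ : ∃ ε : ℝ, ε = -Real.log (lam t) / 2 := ⟨_, rfl⟩
  have hlog : Real.log (lam t) < 0 := Real.log_neg hlp hl1
  have hε : 0 < ε := by rw [hεe]; linarith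
  have hl : lam t ≤ Real.exp (-ε) := by
    rw [← Real.log_le_iff_le_exp hlp, hεe]
    linarith
  have hμ : 0 < mu t td := by
    unfold mu
    have := one_div_lt_one_div_of_lt htd htt
    linarith
  have hch := ch_gt ht hq
  have hct := ch_t_gt ht hq
  have hθ1 := the_ge_one ht ht1 htd htt.le
  have hθ : 0 < the t td := lt_of_lt_of_le one_pos hθ1
  obtain ⟨C, hC, hFC⟩ := fsys_exists_all ht hq hε
  obtain ⟨e, he1, he2, he3⟩ : ∃ e : ℕ, 1 ≤ e ∧
      (mu t td * shh t + 2 ≤ ((e : ℝ) + 1) * (mu t td * (chh t - shh t - t))) ∧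
      (mu t td * shh t ^ 2 / 2 + shh t ≤
        ((e : ℝ) + 1) * (mu t td * (chh t * t - shh t ^ 2 / 2))) := by
    have a1 : 0 < mu t td * (chh t - shh t - t) := mul_pos hμ (by linarith)
    have a2 : 0 < mu t td * (chh t * t - shh t ^ 2 / 2) := mul_pos hμ (by linarith)
    obtain ⟨e, he⟩ := exists_nat_ge (max 1
      (max ((mu t td * shh t + 2) / (mu t td * (chh t - shh t - t)))
        ((mu t td * shh t ^ 2 / 2 + shh t) / (mu t td * (chh t * t - shh t ^ 2 / 2)))))
    refine ⟨e, ?_, ?_, ?_⟩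
    · exact_mod_cast (le_max_left _ _).trans he
    · have := ((le_max_left _ _).trans (le_max_right _ _)).trans he
      rw [div_le_iff₀ a1] at this
      exact this.trans (mul_le_mul_of_nonneg_right (by linarith) a1.le)
    · have := ((le_max_right _ _).trans (le_max_right _ _)).trans he
      rw [div_le_iff₀ a2] at this
      exact this.trans (mul_le_mul_of_nonneg_right (by linarith) a2.le)
  obtain ⟨W, hW⟩ : ∃ W, W = ((e : ℝ) + 1) * Real.exp (-(ε * ((e : ℝ) + 1))) / the t td := ⟨_, rfl⟩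
  have hW0 : 0 < W := by rw [hW]; positivity
  refine ⟨C * ((e : ℝ) + 1) * (1 + 1 / td) / W, by positivity, fun m L hm => ?_⟩
  obtain ⟨F, hF, hFb⟩ := hFC L
  have hs := sup14 ht hq htd htt hε hl he1 he2 he3 hm hF
  have hn := f_nonneg ht hq hε hF
  have hw : ∀ k, k ≤ L + 1 → ∀ y, w14 (the t td) (e + 1) F k y ≤ F k (y + (e + 1)) := by
    intro k hk y
    unfold w14
    split_ifs with h
    · rw [h, Nat.zero_add]
      exact div_le_self (hn k hk _) hθ1
    · exact le_rfl
  have hwn : ∀ y, 0 ≤ w14 (the t td) (e + 1) F (L + 1) y := by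
    intro y
    unfold w14
    split_ifs with h
    · exact div_nonneg (hn _ le_rfl _) hθ.le
    · exact hn _ le_rfl _
  have hgd : ∀ y, wg14 t td (the t td) (e + 1) F y ≤ F 0 (y + (e + 1)) / td := by
    intro y
    unfold wg14
    split_ifs with h
    · rw [h, Nat.zero_add]
      exact div_le_div_of_nonneg_right (div_le_self (hn 0 (by omega) _) hθ1) htd.le
    · exact div_le_div_of_nonneg_left (hn 0 (by omega) _) htd htt.le
  have hWw : W = w14 (the t td) (e + 1) F (L + 1) 0 := by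
    unfold w14
    rw [if_pos rfl, hF.src, hW]
    push_cast
    rfl
  have hle := lev_le ht hq htd htt.le hm (E := fun z => W * e0 z + 0 * e0 z) hs (fun y _ => by
    show W * e0 y + 0 * e0 y ≤ w14 (the t td) (e + 1) F (L + 1) y
    unfold e0
    split_ifs with h
    · rw [h, ← hWw]
      linarith
    · have := hwn y
      linarith)
  have hlin : ∀ k y, lev t td m L (fun z => W * e0 z + 0 * e0 z) k y = W * lev t td m L e0 k y := by
    intro k y
    rw [lev_lin]
    ring
  have hglin : ∀ y, gsum t td m L (fun z => W * e0 z + 0 * e0 z) y = W * gsum t td m L e0 y := by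
    intro y
    rw [gsum_lin]
    ring
  have hye : ∀ y : ℕ, ((y + (e + 1) : ℕ) : ℝ) ≤ ((e : ℝ) + 1) * (1 + y) := by
    intro y
    push_cast
    nlinarith [mul_nonneg (Nat.cast_nonneg (α := ℝ) e) (Nat.cast_nonneg (α := ℝ) y)]
  have h1td : 1 ≤ 1 + 1 / td := by
    have : 0 < 1 / td := by positivity
    linarith
  constructor
  · intro k hk y hy
    have h1 := hle.1 k hk.le y hy
    rw [hlin] at h1
    have h2 := h1.trans (hw (k + 1) (by omega) y)
    have h3 := h2.trans (hFb (k + 1) (by omega) (y + (e + 1)))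
    rw [show L + 1 - (k + 1) = L - k by omega] at h3
    have hX : 0 ≤ lam t ^ (L - k) / ((L - k : ℕ) : ℝ) ^ (3 / 2 : ℝ) := by positivity
    have h4 : W * lev t td m L e0 k y ≤ C * (((e : ℝ) + 1) * (1 + y)) *
        (lam t ^ (L - k) / ((L - k : ℕ) : ℝ) ^ (3 / 2 : ℝ)) := by
      refine h3.trans ?_
      rw [mul_div_assoc]
      exact mul_le_mul_of_nonneg_right (mul_le_mul_of_nonneg_left (hye y) hC.le) hX
    have h5 : W * lev t td m L e0 k y ≤ (1 + 1 / td) * (C * (((e : ℝ) + 1) * (1 + y)) *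
        (lam t ^ (L - k) / ((L - k : ℕ) : ℝ) ^ (3 / 2 : ℝ))) := by
      refine h4.trans ?_
      exact le_mul_of_one_le_left (by positivity) h1td
    rw [mul_comm, ← le_div_iff₀ hW0] at h5
    refine h5.trans (le_of_eq ?_)
    ring
  · intro y hy
    have h1 := hle.2 y hy
    rw [hglin] at h1
    have h2 := h1.trans (hgd y)
    have h3 := h2.trans (div_le_div_of_nonneg_right (hFb 0 (by omega) (y + (e + 1))) htd.le)
    rw [Nat.sub_zero] at h3
    have hX : 0 ≤ lam t ^ L / ((L + 1 : ℕ) : ℝ) ^ (3 / 2 : ℝ) := by positivity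
    have hpow : lam t ^ (L + 1) ≤ lam t ^ L := pow_le_pow_of_le_one hlp.le hl1.le (by omega)
    have hXX : lam t ^ (L + 1) / ((L + 1 : ℕ) : ℝ) ^ (3 / 2 : ℝ) ≤
        lam t ^ L / ((L + 1 : ℕ) : ℝ) ^ (3 / 2 : ℝ) :=
      div_le_div_of_nonneg_right hpow (by positivity)
    have h4 : W * gsum t td m L e0 y ≤ C * (((e : ℝ) + 1) * (1 + y)) *
        (lam t ^ L / ((L + 1 : ℕ) : ℝ) ^ (3 / 2 : ℝ)) / td := by
      refine h3.trans (div_le_div_of_nonneg_right ?_ htd.le)
      rw [mul_div_assoc]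
      exact mul_le_mul (mul_le_mul_of_nonneg_left (hye y) hC.le) hXX (by positivity) (by positivity)
    have h5 : W * gsum t td m L e0 y ≤ (1 + 1 / td) * (C * (((e : ℝ) + 1) * (1 + y)) *
        (lam t ^ L / ((L + 1 : ℕ) : ℝ) ^ (3 / 2 : ℝ))) := by
      refine h4.trans ?_
      rw [div_eq_mul_one_div, mul_comm]
      exact mul_le_mul_of_nonneg_right (by linarith) (by positivity)
    rw [mul_comm, ← le_div_iff₀ hW0] at h5
    refine h5.trans (le_of_eq ?_)
    ring

end Pool.Agent.Helper49.RD
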