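import Pool.Agent.Helper49.RD.Bounds
import Pool.Agent.Helper49.RD.LevUp

/-!
Block RD-DE: the error at a string, and the error of the main term.

`t = exp (-β)`, `td = exp (-(β J))`, `λ = lam t`, strip of half height `n`, `L = 2 n + 1`. `Λ k = λ^(L - k) / (L - k)^(3/2)`.

Paper proofs.
* `delta_bound`: list `a :: r`, `k = a.1`, `c = a.2`, `x = xwl (a :: r)`, `x' = xwl r`, `ε j = eps c (ds j)`. `mid` (`RD/Alg3.lean`) with `x0 = xs t td n`, `e v = e0 (ds v)`, `d + 1 = L - k` (`xwl_cons`, `xwl_lt`, `hne_all`): at the row `i = n + y` (`levo_sym`)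
  `ε i * levo (a :: r) k y - levo r k y = ∑ l, ε i * κ i l * ∑ j, (ε l - ε j) * Rm l j * levo r k (ds j)` where `|κ i l| ≤ C e^{-c₀ |i - l|}` (`kap_bound`), `|Rm l j| ≤ e^{-c₀ |l - j|}` (`rm_bound`), `|levo r k (ds j)| ≤ C (1 + ds j) Λ k`
  (`lvl_bound`). If `ε l ≠ ε j` then `c` lies between `ds l` and `ds j`: `|ds l - c| + |ds j - c| ≤ |ds l - ds j| + 1 ≤ |l - j| + 1`. With `1 + ds j ≤ (1 + c)(1 + |ds j - c|)` the inner sum is at most
  `C (1 + c) Λ k e^{-c₀ |ds l - c|/2}` (geometric sums; at most two rows with a given `ds`), and the outer sum at most `C (1 + c) Λ k e^{-c₁ |y - c|}` (`|ds l - c| ≥ |y - c| - |i - l|`).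
* `main_err`: `GSo mid mid = gsum l₁ (levo (a :: r) l₁) 0` (`levo_out`), `Mch (a :: r) = gsum t l₁ (eps c₁ * Bch r l₁) 0`. Put `δ_b y = |eps b.2 y * levo (b :: r') b.1 y - levo r' b.1 y|`. Claim: for every admissible list `r` (`So n k r`)
  `|levo r k y - Bch r k y| ≤ ∑_{b ∈ r} lev b.1 δ_b k y` for `y ≤ n` (sum over the suffixes `b :: r'` of `r`), by induction on `r` (for all `k`): `r = []`: `levo_nil`. `r = b :: r'`: `levo r k = lev b.1 (levo r b.1) k` (`levo_comp`),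
  `Bch r k = lev b.1 (eps b.2 * Bch r' b.1) k`, the difference of the sources is `eps b.2 * (δ-term + levo r' b.1 - Bch r' b.1)` up to sign (`eps² = 1`), so by linearity and positivity (`lev_lin`, `lev_mono`, `lev_nonneg`)
  it is at most `lev b.1 (δ_b + ∑_{b' ∈ r'} lev b'.1 δ_{b'} b.1) k = lev b.1 δ_b k + ∑ lev b'.1 δ_{b'} k` (`lev_comp`). In the same way for `gsum` (`gsum_comp`): `|GSo mid mid - Mch| ≤ ∑_b gsum b.1 δ_b 0`.
  At last `gsum l δ 0 = ∑ v, δ (ds v) * gsum l e0 (ds v)` (`gsum_pai`) `≤ ∑ v, C (1 + c) Λ l e^{-c₁ |ds v - c|} * C (1 + ds v) λ^l/(l + 1)^(3/2) ≤ C' (1 + c)² Λ l λ^l/(l+1)^(3/2)` (`lev_up`).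
-/

open Finset
open scoped Classical

namespace Pool.Agent.Helper49.RD

open Pool.Agent.Helper49.DL Pool.Agent.Helper49.DX

/-- Geometric series over the integers. -/
private lemma geo8 {b : ℝ} (hb : 0 < b) : Summable fun z : ℤ => Real.exp (-(b * |(z : ℝ)|)) := by
  have h1 : Summable fun n : ℕ => Real.exp (-(b * (n : ℝ))) := by
    have h2 : (fun n : ℕ => Real.exp (-(b * (n : ℝ)))) = fun n : ℕ => Real.exp (-b) ^ n := by
      funext n
      rw [← Real.exp_nat_mul]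
      congr 1
      ring
    rw [h2]
    exact summable_geometric_of_lt_one (Real.exp_pos _).le (by rw [Real.exp_lt_one_iff]; linarith)
  refine Summable.of_nat_of_neg ?_ ?_
  · simpa using h1
  · simpa using h1

private lemma inj8 {b : ℝ} (hb : 0 < b) {m : ℕ} (φ : Fin m → ℤ) (hφ : Function.Injective φ) :
    ∑ j, Real.exp (-(b * |((φ j : ℤ) : ℝ)|)) ≤ ∑' z : ℤ, Real.exp (-(b * |(z : ℝ)|)) := by
  have h := (geo8 hb).sum_le_tsum (Finset.univ.map ⟨φ, hφ⟩) (fun _ _ => (Real.exp_pos _).le)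
  rw [Finset.sum_map] at h
  exact h

/-- Sum over the rows of an exponential in the distance to a height. -/
private lemma row8 {b : ℝ} (hb : 0 < b) (m c : ℕ) :
    ∑ j : Fin (2 * m + 1), Real.exp (-(b * |(ds m j : ℝ) - c|)) ≤
      2 * ∑' z : ℤ, Real.exp (-(b * |(z : ℝ)|)) := by
  have h1 := inj8 hb (fun j : Fin (2 * m + 1) => ((j : ℕ) : ℤ) - m - c) (by
    intro i j h
    apply Fin.ext
    simp only at h
    omega)
  have h2 := inj8 hb (fun j : Fin (2 * m + 1) => (m : ℤ) - ((j : ℕ) : ℤ) - c) (by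
    intro i j h
    apply Fin.ext
    simp only at h
    omega)
  have h3 : ∑ j : Fin (2 * m + 1), Real.exp (-(b * |(ds m j : ℝ) - c|)) ≤
      ∑ j : Fin (2 * m + 1), (Real.exp (-(b * |(((((j : ℕ) : ℤ) - m - c : ℤ)) : ℝ)|)) +
        Real.exp (-(b * |((((m : ℤ) - ((j : ℕ) : ℤ) - c : ℤ)) : ℝ)|))) := by
    refine Finset.sum_le_sum fun j _ => ?_
    rcases le_total m (j : ℕ) with h | h
    · have h4 : ((ds m j : ℕ) : ℝ) - c = (((((j : ℕ) : ℤ) - m - c : ℤ)) : ℝ) := by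
        have : ((ds m j : ℕ) : ℤ) = ((j : ℕ) : ℤ) - m := by
          unfold ds
          omega
        rw [← Int.cast_natCast (ds m j), this]
        push_cast
        ring
      rw [h4]
      linarith [Real.exp_pos (-(b * |((((m : ℤ) - ((j : ℕ) : ℤ) - c : ℤ)) : ℝ)|))]
    · have h4 : ((ds m j : ℕ) : ℝ) - c = ((((m : ℤ) - ((j : ℕ) : ℤ) - c : ℤ)) : ℝ) := by
        have : ((ds m j : ℕ) : ℤ) = (m : ℤ) - ((j : ℕ) : ℤ) := by
          unfold ds
          omega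
        rw [← Int.cast_natCast (ds m j), this]
        push_cast
        ring
      rw [h4]
      linarith [Real.exp_pos (-(b * |(((((j : ℕ) : ℤ) - m - c : ℤ)) : ℝ)|))]
  rw [Finset.sum_add_distrib] at h3
  linarith

private lemma poly8 {b : ℝ} (hb : 0 < b) {x : ℝ} (hx : 0 ≤ x) :
    (1 + x) * Real.exp (-(b * x)) ≤ (1 + 2 / b) * Real.exp (-(b / 2 * x)) := by
  have h1 : 1 + b / 2 * x ≤ Real.exp (b / 2 * x) := by
    have := Real.add_one_le_exp (b / 2 * x)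
    linarith
  have h2 : 1 + x ≤ (1 + 2 / b) * Real.exp (b / 2 * x) := by
    have h3 : x ≤ 2 / b * Real.exp (b / 2 * x) := by
      have h4 : 2 / b * (1 + b / 2 * x) ≤ 2 / b * Real.exp (b / 2 * x) :=
        mul_le_mul_of_nonneg_left h1 (by positivity)
      have h5 : 2 / b * (1 + b / 2 * x) = 2 / b + x := by
        field_simp
      have h6 : 0 < 2 / b := by positivity
      linarith
    have h7 : 1 ≤ Real.exp (b / 2 * x) := by
      have : 0 ≤ b / 2 * x := by positivity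
      linarith
    linarith
  have h8 : Real.exp (-(b * x)) = Real.exp (-(b / 2 * x)) * Real.exp (-(b / 2 * x)) := by
    rw [← Real.exp_add]
    congr 1
    ring
  have h9 : Real.exp (b / 2 * x) * Real.exp (-(b / 2 * x)) = 1 := by
    rw [← Real.exp_add]
    simp
  calc (1 + x) * Real.exp (-(b * x))
      = (1 + x) * Real.exp (-(b / 2 * x)) * Real.exp (-(b / 2 * x)) := by rw [h8]; ring
    _ ≤ (1 + 2 / b) * Real.exp (b / 2 * x) * Real.exp (-(b / 2 * x)) * Real.exp (-(b / 2 * x)) := by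
        gcongr
    _ = (1 + 2 / b) * (Real.exp (b / 2 * x) * Real.exp (-(b / 2 * x))) * Real.exp (-(b / 2 * x)) := by ring
    _ = (1 + 2 / b) * Real.exp (-(b / 2 * x)) := by rw [h9]; ring

/-- Sum over the rows with a linear factor. -/
private lemma rowp8 {b : ℝ} (hb : 0 < b) (m c : ℕ) :
    ∑ j : Fin (2 * m + 1), (1 + (ds m j : ℝ)) * Real.exp (-(b * |(ds m j : ℝ) - c|)) ≤
      (1 + c) * ((1 + 2 / b) * (2 * ∑' z : ℤ, Real.exp (-(b / 2 * |(z : ℝ)|)))) := by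
  have h1 : ∀ j : Fin (2 * m + 1), (1 + (ds m j : ℝ)) * Real.exp (-(b * |(ds m j : ℝ) - c|)) ≤
      (1 + c) * ((1 + 2 / b) * Real.exp (-(b / 2 * |(ds m j : ℝ) - c|))) := by
    intro j
    have h2 := poly8 hb (abs_nonneg ((ds m j : ℝ) - c))
    have h3 : 1 + (ds m j : ℝ) ≤ (1 + c) * (1 + |(ds m j : ℝ) - c|) := by
      have h4 := le_abs_self ((ds m j : ℝ) - c)
      have h5 : (0 : ℝ) ≤ c * |(ds m j : ℝ) - c| := by positivity
      nlinarith
    calc (1 + (ds m j : ℝ)) * Real.exp (-(b * |(ds m j : ℝ) - c|))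
        ≤ (1 + c) * (1 + |(ds m j : ℝ) - c|) * Real.exp (-(b * |(ds m j : ℝ) - c|)) := by gcongr
      _ = (1 + c) * ((1 + |(ds m j : ℝ) - c|) * Real.exp (-(b * |(ds m j : ℝ) - c|))) := by ring
      _ ≤ _ := by gcongr
  refine (Finset.sum_le_sum fun j _ => h1 j).trans ?_
  rw [← Finset.mul_sum, ← Finset.mul_sum]
  have h4 := row8 (half_pos hb) m c
  gcongr

private lemma tsum_pos8 (b : ℝ) : 0 ≤ ∑' z : ℤ, Real.exp (-(b * |(z : ℝ)|)) :=
  tsum_nonneg fun _ => (Real.exp_pos _).le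

private lemma ds_diff8 (m : ℕ) (i j : Fin (2 * m + 1)) :
    |(ds m i : ℝ) - ds m j| ≤ |((i : ℕ) : ℝ) - (j : ℕ)| := by
  have h : |((ds m i : ℤ)) - ds m j| ≤ |((i : ℕ) : ℤ) - ((j : ℕ) : ℤ)| := by
    unfold ds
    have h1 : (((((i : ℕ) : ℤ) - m).natAbs : ℕ) : ℤ) = |((i : ℕ) : ℤ) - m| := Int.natCast_natAbs _
    have h2 : (((((j : ℕ) : ℤ) - m).natAbs : ℕ) : ℤ) = |((j : ℕ) : ℤ) - m| := Int.natCast_natAbs _
    rw [h1, h2]
    refine (abs_abs_sub_abs_le_abs_sub _ _).trans (le_of_eq ?_)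
    congr 1
    ring
  have h3 : ((|((ds m i : ℤ)) - ds m j| : ℤ) : ℝ) ≤ ((|((i : ℕ) : ℤ) - ((j : ℕ) : ℤ)| : ℤ) : ℝ) := by
    exact_mod_cast h
  push_cast at h3
  exact h3

/-- The difference of two signs vanishes unless the height is between the two rows. -/
private lemma sign8 (c u v : ℕ) {b X : ℝ} (hb : 0 ≤ b) (hX : |(u : ℝ) - v| ≤ X) :
    |eps c u - eps c v| * Real.exp (-(b * X)) ≤
      2 * (Real.exp (-(b * |(u : ℝ) - c|)) * Real.exp (-(b * |(v : ℝ) - c|))) := by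
  have hp : 0 ≤ 2 * (Real.exp (-(b * |(u : ℝ) - c|)) * Real.exp (-(b * |(v : ℝ) - c|))) := by
    positivity
  by_cases he : eps c u = eps c v
  · rw [he, sub_self, abs_zero, zero_mul]
    exact hp
  have h2 : |eps c u - eps c v| ≤ 2 := by
    have := abs_sub (eps c u) (eps c v)
    rw [eps_abs, eps_abs] at this
    linarith
  have h3 : |(u : ℝ) - c| + |(v : ℝ) - c| ≤ |(u : ℝ) - v| := by
    unfold eps at he
    by_cases h4 : u < c <;> by_cases h5 : v < c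
    · simp [h4, h5] at he
    · have h6 : (u : ℝ) < c := by exact_mod_cast h4
      have h7 : (c : ℝ) ≤ v := by exact_mod_cast (not_lt.mp h5)
      rw [abs_of_neg (by linarith), abs_of_nonneg (by linarith), abs_of_neg (by linarith)]
      linarith
    · have h6 : (v : ℝ) < c := by exact_mod_cast h5
      have h7 : (c : ℝ) ≤ u := by exact_mod_cast (not_lt.mp h4)
      rw [abs_of_nonneg (by linarith), abs_of_neg (by linarith), abs_of_pos (by linarith)]
      linarith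
    · simp [h4, h5] at he
  have h4 : Real.exp (-(b * X)) ≤ Real.exp (-(b * |(u : ℝ) - c|)) * Real.exp (-(b * |(v : ℝ) - c|)) := by
    rw [← Real.exp_add]
    apply Real.exp_le_exp.mpr
    have : b * (|(u : ℝ) - c| + |(v : ℝ) - c|) ≤ b * X :=
      mul_le_mul_of_nonneg_left (h3.trans hX) hb
    linarith
  exact mul_le_mul h2 h4 (Real.exp_pos _).le (by norm_num)

private lemma src8 (t : ℝ) (m L : ℕ) (x : ℕ → Fin (2 * m + 1) → ℝ) :
    (fun w => ∑ v, e0 (ds m v) * GSo t x L v w) = fun w => GSo t x L ⟨m, by omega⟩ w := by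
  funext w
  rw [Finset.sum_eq_single (⟨m, by omega⟩ : Fin (2 * m + 1))]
  · have h2 : ds m (⟨m, by omega⟩ : Fin (2 * m + 1)) = 0 := by
      unfold ds
      simp
    rw [h2]
    unfold e0
    simp
  · intro u _ hu
    have h2 : ds m u ≠ 0 := by
      intro h3
      apply hu
      apply Fin.ext
      unfold ds at h3
      simp only
      omega
    unfold e0
    rw [if_neg h2, zero_mul]
  · intro h
    exact absurd (Finset.mem_univ _) h

private lemma So_self8 {m k : ℕ} {a : ℕ × ℕ} {r : List (ℕ × ℕ)} (h : So m k (a :: r)) :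
    So m a.1 (a :: r) := ⟨le_rfl, h.2.1, h.2.2.1, h.2.2.2⟩

private lemma So_tail8 {m k : ℕ} {a : ℕ × ℕ} {r : List (ℕ × ℕ)} (h : So m k (a :: r)) :
    So m a.1 r := So_mono (Nat.le_succ _) h.2.2.2

private lemma base8 {β₁ β J : ℝ} (h0 : 0 ≤ β₁) (h : β₁ < β) (hm : 0 < mag β₁) (hJ : 1 < J) :
    0 < Real.exp (-β) ∧ Real.exp (-β) ^ 2 + 2 * Real.exp (-β) < 1 ∧ Real.exp (-β) < 1 ∧
    0 < Real.exp (-(β * J)) ∧ Real.exp (-(β * J)) < Real.exp (-β) ∧ Real.exp (-(β * J)) < 1 ∧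
    0 < mag β ∧ mag β ≤ 1 ∧ 0 < (β - β₁) * mag β₁ ^ 2 := by
  have hβ : 0 < β := lt_of_le_of_lt h0 h
  have hq := t_small h0 h hm
  have ht1 := t_lt_one (Real.exp_pos (-β)) hq
  have h2 : Real.exp (-(β * J)) < Real.exp (-β) := by
    rw [Real.exp_lt_exp]
    nlinarith
  exact ⟨Real.exp_pos _, hq, ht1, Real.exp_pos _, h2, h2.trans ht1,
    lt_of_lt_of_le hm (mag_mono h0 h.le), de2_mag_le_one β, mul_pos (by linarith) (pow_pos hm 2)⟩

/-- The double sum. -/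
private lemma core8 {b : ℝ} (hb : 0 < b) {K H : ℝ} (hK : 0 ≤ K) (hH : 0 ≤ H) (m c : ℕ)
    (i : Fin (2 * m + 1)) (s : ℝ) (hs : |s| = 1) (κ : Fin (2 * m + 1) → ℝ)
    (hκ : ∀ l, |κ l| ≤ K * Real.exp (-(b * |((i : ℕ) : ℝ) - (l : ℕ)|)))
    (R : Fin (2 * m + 1) → Fin (2 * m + 1) → ℝ)
    (hR : ∀ l j, |R l j| ≤ Real.exp (-(b * |((l : ℕ) : ℝ) - (j : ℕ)|)))
    (g : Fin (2 * m + 1) → ℝ) (hg : ∀ j, |g j| ≤ H * (1 + (ds m j : ℝ))) :
    |∑ l, s * κ l * ∑ j, (eps c (ds m l) - eps c (ds m j)) * R l j * g j| ≤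
      K * H * (2 * ((1 + 2 / b) * (2 * ∑' z : ℤ, Real.exp (-(b / 2 * |(z : ℝ)|)))) *
        ∑' z : ℤ, Real.exp (-(b / 2 * |(z : ℝ)|))) * (1 + c) *
        Real.exp (-(b / 2 * |(ds m i : ℝ) - c|)) := by
  set T : ℝ := ∑' z : ℤ, Real.exp (-(b / 2 * |(z : ℝ)|)) with hT
  have hT0 : 0 ≤ T := tsum_pos8 (b / 2)
  set A : ℝ := (1 + 2 / b) * (2 * T) with hA
  have hA0 : 0 ≤ A := by positivity
  have hinner : ∀ l, |∑ j, (eps c (ds m l) - eps c (ds m j)) * R l j * g j| ≤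
      2 * H * ((1 + c) * A) * Real.exp (-(b * |(ds m l : ℝ) - c|)) := by
    intro l
    have h1 : ∀ j, |(eps c (ds m l) - eps c (ds m j)) * R l j * g j| ≤
        2 * H * Real.exp (-(b * |(ds m l : ℝ) - c|)) *
          ((1 + (ds m j : ℝ)) * Real.exp (-(b * |(ds m j : ℝ) - c|))) := by
      intro j
      rw [abs_mul, abs_mul]
      have h2 : |eps c (ds m l) - eps c (ds m j)| * |R l j| ≤
          2 * (Real.exp (-(b * |(ds m l : ℝ) - c|)) * Real.exp (-(b * |(ds m j : ℝ) - c|))) :=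
        (mul_le_mul_of_nonneg_left (hR l j) (abs_nonneg _)).trans
          (sign8 c (ds m l) (ds m j) hb.le (ds_diff8 m l j))
      calc |eps c (ds m l) - eps c (ds m j)| * |R l j| * |g j|
          ≤ 2 * (Real.exp (-(b * |(ds m l : ℝ) - c|)) * Real.exp (-(b * |(ds m j : ℝ) - c|))) *
            (H * (1 + (ds m j : ℝ))) := mul_le_mul h2 (hg j) (abs_nonneg _) (by positivity)
        _ = _ := by ring
    calc |∑ j, (eps c (ds m l) - eps c (ds m j)) * R l j * g j|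
        ≤ ∑ j, |(eps c (ds m l) - eps c (ds m j)) * R l j * g j| := Finset.abs_sum_le_sum_abs _ _
      _ ≤ ∑ j, 2 * H * Real.exp (-(b * |(ds m l : ℝ) - c|)) *
          ((1 + (ds m j : ℝ)) * Real.exp (-(b * |(ds m j : ℝ) - c|))) :=
        Finset.sum_le_sum fun j _ => h1 j
      _ = 2 * H * Real.exp (-(b * |(ds m l : ℝ) - c|)) *
          ∑ j, (1 + (ds m j : ℝ)) * Real.exp (-(b * |(ds m j : ℝ) - c|)) := by
        rw [Finset.mul_sum]
      _ ≤ 2 * H * Real.exp (-(b * |(ds m l : ℝ) - c|)) * ((1 + c) * A) :=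
        mul_le_mul_of_nonneg_left (rowp8 hb m c) (by positivity)
      _ = _ := by ring
  have h3 : ∀ l, |s * κ l * ∑ j, (eps c (ds m l) - eps c (ds m j)) * R l j * g j| ≤
      K * (2 * H * ((1 + c) * A)) * Real.exp (-(b / 2 * |(ds m i : ℝ) - c|)) *
        Real.exp (-(b / 2 * |(((((i : ℕ) : ℤ) - ((l : ℕ) : ℤ)) : ℤ) : ℝ)|)) := by
    intro l
    rw [abs_mul, abs_mul, hs, one_mul]
    have h4 : Real.exp (-(b * |((i : ℕ) : ℝ) - (l : ℕ)|)) * Real.exp (-(b * |(ds m l : ℝ) - c|)) ≤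
        Real.exp (-(b / 2 * |(ds m i : ℝ) - c|)) *
          Real.exp (-(b / 2 * |(((((i : ℕ) : ℤ) - ((l : ℕ) : ℤ)) : ℤ) : ℝ)|)) := by
      rw [← Real.exp_add, ← Real.exp_add]
      apply Real.exp_le_exp.mpr
      have h5 := ds_diff8 m i l
      have h6 : |(ds m i : ℝ) - c| ≤ |(ds m i : ℝ) - ds m l| + |(ds m l : ℝ) - c| :=
        abs_sub_le _ _ _
      have h7 : (((((i : ℕ) : ℤ) - ((l : ℕ) : ℤ)) : ℤ) : ℝ) = ((i : ℕ) : ℝ) - (l : ℕ) := by
        push_cast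
        ring
      rw [h7]
      have h8 : b / 2 * |(ds m i : ℝ) - c| ≤
          b / 2 * (|((i : ℕ) : ℝ) - (l : ℕ)| + |(ds m l : ℝ) - c|) :=
        mul_le_mul_of_nonneg_left (by linarith) (by positivity)
      have h9 : 0 ≤ b / 2 * |(ds m l : ℝ) - c| := by positivity
      have h10 : b * |((i : ℕ) : ℝ) - (l : ℕ)| = b / 2 * |((i : ℕ) : ℝ) - (l : ℕ)| +
          b / 2 * |((i : ℕ) : ℝ) - (l : ℕ)| := by ring
      have h11 : b * |(ds m l : ℝ) - c| = b / 2 * |(ds m l : ℝ) - c| +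
          b / 2 * |(ds m l : ℝ) - c| := by ring
      linarith
    calc |κ l| * |∑ j, (eps c (ds m l) - eps c (ds m j)) * R l j * g j|
        ≤ K * Real.exp (-(b * |((i : ℕ) : ℝ) - (l : ℕ)|)) *
          (2 * H * ((1 + c) * A) * Real.exp (-(b * |(ds m l : ℝ) - c|))) :=
          mul_le_mul (hκ l) (hinner l) (abs_nonneg _) (by positivity)
      _ = K * (2 * H * ((1 + c) * A)) * (Real.exp (-(b * |((i : ℕ) : ℝ) - (l : ℕ)|)) *
          Real.exp (-(b * |(ds m l : ℝ) - c|))) := by ring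
      _ ≤ K * (2 * H * ((1 + c) * A)) * (Real.exp (-(b / 2 * |(ds m i : ℝ) - c|)) *
          Real.exp (-(b / 2 * |(((((i : ℕ) : ℤ) - ((l : ℕ) : ℤ)) : ℤ) : ℝ)|))) :=
          mul_le_mul_of_nonneg_left h4 (by positivity)
      _ = _ := by ring
  have h12 := inj8 (half_pos hb) (fun l : Fin (2 * m + 1) => ((i : ℕ) : ℤ) - ((l : ℕ) : ℤ)) (by
    intro u v huv
    apply Fin.ext
    simp only at huv
    omega)
  calc |∑ l, s * κ l * ∑ j, (eps c (ds m l) - eps c (ds m j)) * R l j * g j|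
      ≤ ∑ l, |s * κ l * ∑ j, (eps c (ds m l) - eps c (ds m j)) * R l j * g j| :=
        Finset.abs_sum_le_sum_abs _ _
    _ ≤ ∑ l : Fin (2 * m + 1), K * (2 * H * ((1 + c) * A)) * Real.exp (-(b / 2 * |(ds m i : ℝ) - c|)) *
        Real.exp (-(b / 2 * |(((((i : ℕ) : ℤ) - ((l : ℕ) : ℤ)) : ℤ) : ℝ)|)) :=
        Finset.sum_le_sum fun l _ => h3 l
    _ = K * (2 * H * ((1 + c) * A)) * Real.exp (-(b / 2 * |(ds m i : ℝ) - c|)) *
        ∑ l : Fin (2 * m + 1), Real.exp (-(b / 2 * |(((((i : ℕ) : ℤ) - ((l : ℕ) : ℤ)) : ℤ) : ℝ)|)) := by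
        rw [Finset.mul_sum]
    _ ≤ K * (2 * H * ((1 + c) * A)) * Real.exp (-(b / 2 * |(ds m i : ℝ) - c|)) * T :=
        mul_le_mul_of_nonneg_left h12 (by positivity)
    _ = _ := by ring

theorem delta_bound {β₁ β J : ℝ} (h0 : 0 ≤ β₁) (h : β₁ < β) (hm : 0 < mag β₁) (hJ : 1 < J) (p : ℕ) :
    ∃ C c : ℝ, 0 < C ∧ 0 < c ∧ ∀ n : ℕ, 2 ≤ n → ∀ (a : ℕ × ℕ) (r : List (ℕ × ℕ)), So n 0 (a :: r) →
      (a :: r).length ≤ p → ∀ y ≤ n,
      |eps a.2 y * levo (Real.exp (-β)) (Real.exp (-(β * J))) n (2 * n + 1) (a :: r) a.1 y -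
        levo (Real.exp (-β)) (Real.exp (-(β * J))) n (2 * n + 1) r a.1 y| ≤
        C * (1 + a.2) * Real.exp (-(c * |(y : ℝ) - a.2|)) * lam (Real.exp (-β)) ^ (2 * n + 1 - a.1) /
          ((2 * n + 1 - a.1 : ℕ) : ℝ) ^ (3 / 2 : ℝ) := by
  obtain ⟨ht, hq, ht1, htd, htt, htd1, hmg, hmg1, hb⟩ := base8 h0 h hm hJ
  have hlp := lam_pos ht ht1
  obtain ⟨Cl, hCl, hlvl⟩ := lvl_bound h0 h hm hJ p
  have hT0 : 0 ≤ ∑' z : ℤ, Real.exp (-((β - β₁) * mag β₁ ^ 2 / 2 * |(z : ℝ)|)) :=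
    tsum_pos8 _
  obtain ⟨S, hS⟩ : ∃ S : ℝ, S = 2 * ((1 + 2 / ((β - β₁) * mag β₁ ^ 2)) *
      (2 * ∑' z : ℤ, Real.exp (-((β - β₁) * mag β₁ ^ 2 / 2 * |(z : ℝ)|)))) *
        ∑' z : ℤ, Real.exp (-((β - β₁) * mag β₁ ^ 2 / 2 * |(z : ℝ)|)) := ⟨_, rfl⟩
  have hS0 : 0 ≤ S := by
    rw [hS]
    exact mul_nonneg (mul_nonneg zero_le_two (mul_nonneg (by linarith [div_pos two_pos hb]) (mul_nonneg zero_le_two hT0))) hT0
  refine ⟨(mag β ^ (2 * p))⁻¹ * Cl * S + 1, (β - β₁) * mag β₁ ^ 2 / 2,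
    add_pos_of_nonneg_of_pos (mul_nonneg (mul_nonneg (inv_nonneg.2 (pow_nonneg hmg.le _)) hCl.le) hS0) one_pos,
    half_pos hb, ?_⟩
  intro n hn a r hr hlen y hy
  have hr1 : So n a.1 (a :: r) := So_self8 hr
  have hr2 : So n a.1 r := So_tail8 hr
  have ha : a.1 ≤ 2 * n := hr.2.1
  have hlr : r.length ≤ p := by
    have := hlen
    rw [List.length_cons] at this
    omega
  obtain ⟨d, hd⟩ : ∃ d, a.1 + (d + 1) = 2 * n + 1 := ⟨2 * n - a.1, by omega⟩
  set t := Real.exp (-β) with htdef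
  set td := Real.exp (-(β * J)) with htddef
  have hne := hne_all h0 h hm hJ hn hr1
  have hne' := hne_all h0 h hm hJ hn hr2
  rw [← htdef, ← htddef] at hne hne'
  set i : Fin (2 * n + 1) := ⟨n + y, by omega⟩ with hi
  have hdi : ds n i = y := by
    rw [hi]
    unfold ds
    simp only
    omega
  have hmid := mid (d := d) ht ht1 (xs_pos ht htd n) (xs_lt_one ht1 htd1 n)
    (x := xwl t td n (a :: r)) (fun i j => (xwl_ne ht htd n (a :: r) i j).1) (k := a.1)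
    (fun i hi => xwl_lt hr1 hi) (fun v => e0 (ds n v)) (x' := xwl t td n r)
    (fun i j => (xwl_ne ht htd n r i j).1) (fun i hi => xwl_lt hr2 hi)
    (ε := fun j => eps a.2 (ds n j)) (fun j => eps_cases _ _) (xwl_cons hr1 (i := 0)).1
    (fun i hi => (xwl_cons hr1 (i := i)).2 (by omega)) (by rw [hd]; exact hne) (by rw [hd]; exact hne') i
  rw [hd] at hmid
  rw [src8, src8] at hmid
  simp only [levo_sym ht hq htd htt hn hne, levo_sym ht hq htd htt hn hne'] at hmid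
  rw [hdi] at hmid
  rw [hmid, add_sub_cancel_left]
  obtain ⟨W, hW⟩ : ∃ W : ℝ, W = lam t ^ (2 * n + 1 - a.1) / ((2 * n + 1 - a.1 : ℕ) : ℝ) ^ (3 / 2 : ℝ) :=
    ⟨_, rfl⟩
  have hW0 : 0 ≤ W := by
    rw [hW]
    positivity
  have hcore := core8 hb (K := (mag β ^ (2 * p))⁻¹) (H := Cl * W) (inv_nonneg.2 (pow_nonneg hmg.le _))
    (mul_nonneg hCl.le hW0)
    n a.2 i (eps a.2 y) (eps_abs _ _)
    (fun l => ip (fun _ => 1) (Xm t (xs t td n) a.1 (an i (an l (Yo t (xwl t td n (a :: r)) a.1 (d + 1)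
      (fun _ => 1))))) / ip (fun _ => 1) (Xo t (xwl t td n (a :: r)) (2 * n + 1) (fun _ => 1))) (by
      intro l
      refine (kap_bound h0 h hm hJ hn hr1 hd i l).trans ?_
      apply mul_le_mul_of_nonneg_right _ (Real.exp_pos _).le
      apply inv_anti₀ (pow_pos hmg _)
      exact pow_le_pow_of_le_one hmg.le hmg1 (by omega))
    (fun l j => Rm t (xs t td n) a.1 l j) (by
      intro l j
      exact rm_bound h0 h hm hJ hn (by omega) l j)
    (fun j => levo t td n (2 * n + 1) r a.1 (ds n j)) (by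
      intro j
      refine (hlvl n hn a.1 r hr2 ha hlr (ds n j) (ds_le n j)).trans (le_of_eq ?_)
      rw [hW, htdef]
      ring)
  rw [hdi, ← hS] at hcore
  refine hcore.trans ?_
  have h9 : 0 ≤ (1 + (a.2 : ℝ)) * Real.exp (-((β - β₁) * mag β₁ ^ 2 / 2 * |(y : ℝ) - a.2|)) * W := by
    positivity
  calc (mag β ^ (2 * p))⁻¹ * (Cl * W) * S * (1 + (a.2 : ℝ)) *
        Real.exp (-((β - β₁) * mag β₁ ^ 2 / 2 * |(y : ℝ) - a.2|))
      = ((mag β ^ (2 * p))⁻¹ * Cl * S) * ((1 + (a.2 : ℝ)) *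
        Real.exp (-((β - β₁) * mag β₁ ^ 2 / 2 * |(y : ℝ) - a.2|)) * W) := by ring
    _ ≤ ((mag β ^ (2 * p))⁻¹ * Cl * S + 1) * ((1 + (a.2 : ℝ)) *
        Real.exp (-((β - β₁) * mag β₁ ^ 2 / 2 * |(y : ℝ) - a.2|)) * W) :=
        mul_le_mul_of_nonneg_right (by linarith) h9
    _ = _ := by
        rw [hW]
        ring

/-- The error at a string. -/
private noncomputable def del8 (t td : ℝ) (m : ℕ) (a : ℕ × ℕ) (r : List (ℕ × ℕ)) (z : ℕ) : ℝ :=
  |eps a.2 z * levo t td m (2 * m + 1) (a :: r) a.1 z - levo t td m (2 * m + 1) r a.1 z|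

/-- The majorant of the error of the levels. -/
private noncomputable def D8 (t td : ℝ) (m : ℕ) : List (ℕ × ℕ) → ℕ → ℕ → ℝ
  | [] => fun _ _ => 0
  | a :: r => fun k y => lev t td m a.1 (fun z => del8 t td m a r z + D8 t td m r a.1 z) k y

/-- The majorant of the error of the main term. -/
private noncomputable def G8 (t td : ℝ) (m : ℕ) : List (ℕ × ℕ) → ℝ
  | [] => 0
  | a :: r => gsum t td m a.1 (del8 t td m a r) 0 + G8 t td m r

private lemma gsum_add8 (t td : ℝ) (m L : ℕ) (E F : ℕ → ℝ) (y : ℕ) :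
    gsum t td m L (fun z => E z + F z) y = gsum t td m L E y + gsum t td m L F y := by
  have h := gsum_lin t td m L 1 1 E F y
  simpa only [one_mul] using h

private lemma gsum_zero8 (t td : ℝ) (m L : ℕ) (y : ℕ) : gsum t td m L (fun _ => 0) y = 0 := by
  have h := gsum_lin t td m L 0 0 (fun _ => 0) (fun _ => 0) y
  simpa only [zero_mul, add_zero] using h

private lemma lev_sub8 (t td : ℝ) (m L : ℕ) (E F : ℕ → ℝ) (k y : ℕ) :
    lev t td m L (fun z => E z - F z) k y = lev t td m L E k y - lev t td m L F k y := by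
  have h := lev_lin t td m L 1 (-1) E F k y
  simp only [one_mul] at h
  have e : (fun z => E z - F z) = fun z => E z + -1 * F z := by
    funext z
    ring
  rw [e, h]
  ring

private lemma gsum_sub8 (t td : ℝ) (m L : ℕ) (E F : ℕ → ℝ) (y : ℕ) :
    gsum t td m L (fun z => E z - F z) y = gsum t td m L E y - gsum t td m L F y := by
  have h := gsum_lin t td m L 1 (-1) E F y
  simp only [one_mul] at h
  have e : (fun z => E z - F z) = fun z => E z + -1 * F z := by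
    funext z
    ring
  rw [e, h]
  ring

private lemma lev_abs8 {t td : ℝ} (ht : 0 < t) (hq : t ^ 2 + 2 * t < 1) (htd : 0 < td) (htt : td ≤ t)
    {m L : ℕ} (hm : 2 ≤ m) {E F : ℕ → ℝ} (h0 : ∀ y ≤ m, |E y| ≤ F y) :
    (∀ k ≤ L, ∀ y ≤ m, |lev t td m L E k y| ≤ lev t td m L F k y) ∧
      ∀ y ≤ m, |gsum t td m L E y| ≤ gsum t td m L F y := by
  have h1 := lev_mono (L := L) ht hq htd htt hm (E := E) (F := F) fun y hy => (abs_le.mp (h0 y hy)).2
  have h2 := lev_mono (L := L) ht hq htd htt hm (E := fun z => -1 * F z + 0 * F z) (F := E) fun y hy => by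
    have := (abs_le.mp (h0 y hy)).1
    linarith
  refine ⟨fun k hk y hy => abs_le.mpr ⟨?_, h1.1 k hk y hy⟩, fun y hy => abs_le.mpr ⟨?_, h1.2 y hy⟩⟩
  · have h3 := h2.1 k hk y hy
    rw [lev_lin] at h3
    linarith
  · have h3 := h2.2 y hy
    rw [gsum_lin] at h3
    linarith

section

variable {β₁ β J : ℝ} (h0 : 0 ≤ β₁) (h : β₁ < β) (hm : 0 < mag β₁) (hJ : 1 < J) {n : ℕ} (hn : 2 ≤ n)

include h0 h hm hJ hn

private lemma src_bound8 {a : ℕ × ℕ} {r : List (ℕ × ℕ)} {z : ℕ}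
    (hz : |levo (Real.exp (-β)) (Real.exp (-(β * J))) n (2 * n + 1) r a.1 z -
      Bch (Real.exp (-β)) (Real.exp (-(β * J))) n (2 * n + 1) r a.1 z| ≤
      D8 (Real.exp (-β)) (Real.exp (-(β * J))) n r a.1 z) :
    |levo (Real.exp (-β)) (Real.exp (-(β * J))) n (2 * n + 1) (a :: r) a.1 z -
      eps a.2 z * Bch (Real.exp (-β)) (Real.exp (-(β * J))) n (2 * n + 1) r a.1 z| ≤
      del8 (Real.exp (-β)) (Real.exp (-(β * J))) n a r z +
        D8 (Real.exp (-β)) (Real.exp (-(β * J))) n r a.1 z := by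
  have _ := h0
  have _ := h
  have _ := hm
  have _ := hJ
  have _ := hn
  have hsq : eps a.2 z * eps a.2 z = 1 := by
    rcases eps_cases a.2 z with h1 | h1 <;> rw [h1] <;> norm_num
  have e : levo (Real.exp (-β)) (Real.exp (-(β * J))) n (2 * n + 1) (a :: r) a.1 z -
      eps a.2 z * Bch (Real.exp (-β)) (Real.exp (-(β * J))) n (2 * n + 1) r a.1 z =
      eps a.2 z * ((eps a.2 z * levo (Real.exp (-β)) (Real.exp (-(β * J))) n (2 * n + 1) (a :: r) a.1 z -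
        levo (Real.exp (-β)) (Real.exp (-(β * J))) n (2 * n + 1) r a.1 z) +
        (levo (Real.exp (-β)) (Real.exp (-(β * J))) n (2 * n + 1) r a.1 z -
      Bch (Real.exp (-β)) (Real.exp (-(β * J))) n (2 * n + 1) r a.1 z)) := by
    linear_combination (-levo (Real.exp (-β)) (Real.exp (-(β * J))) n (2 * n + 1) (a :: r) a.1 z) * hsq
  rw [e, abs_mul, eps_abs, one_mul]
  refine (abs_add_le _ _).trans (add_le_add (le_of_eq rfl) hz)

private lemma claimA8 (r : List (ℕ × ℕ)) : ∀ k : ℕ, So n k r → ∀ y ≤ n,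
    |levo (Real.exp (-β)) (Real.exp (-(β * J))) n (2 * n + 1) r k y -
      Bch (Real.exp (-β)) (Real.exp (-(β * J))) n (2 * n + 1) r k y| ≤
      D8 (Real.exp (-β)) (Real.exp (-(β * J))) n r k y := by
  obtain ⟨ht, hq, ht1, htd, htt, htd1, hmg, hmg1, hb⟩ := base8 h0 h hm hJ
  induction r with
  | nil =>
    intro k _ y hy
    rw [levo_nil ht hq htd htt hn hy]
    simp [Bch, D8]
  | cons a r ih =>
    intro k hk y hy
    have hne := hne_all h0 h hm hJ hn hk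
    rw [levo_comp ht hq htd htt hn hne hk.1 (So_self8 hk)]
    have h1 := (lev_abs8 ht hq htd htt.le hn (L := a.1)
      (E := fun z => levo (Real.exp (-β)) (Real.exp (-(β * J))) n (2 * n + 1) (a :: r) a.1 z -
        eps a.2 z * Bch (Real.exp (-β)) (Real.exp (-(β * J))) n (2 * n + 1) r a.1 z)
      (F := fun z => del8 (Real.exp (-β)) (Real.exp (-(β * J))) n a r z +
        D8 (Real.exp (-β)) (Real.exp (-(β * J))) n r a.1 z)
      (fun z hz => src_bound8 h0 h hm hJ hn (ih a.1 (So_tail8 hk) z hz))).1 k hk.1 y hy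
    rw [lev_sub8] at h1
    exact h1

private lemma claimB8 {a : ℕ × ℕ} {r : List (ℕ × ℕ)} (hk : So n 0 (a :: r)) :
    |GSo (Real.exp (-β)) (xwl (Real.exp (-β)) (Real.exp (-(β * J))) n (a :: r)) (2 * n + 1)
          ⟨n, by omega⟩ ⟨n, by omega⟩ -
        Mch (Real.exp (-β)) (Real.exp (-(β * J))) n (2 * n + 1) (a :: r)| ≤
      gsum (Real.exp (-β)) (Real.exp (-(β * J))) n a.1 (fun z =>
        del8 (Real.exp (-β)) (Real.exp (-(β * J))) n a r z +
        D8 (Real.exp (-β)) (Real.exp (-(β * J))) n r a.1 z) 0 := by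
  obtain ⟨ht, hq, ht1, htd, htt, htd1, hmg, hmg1, hb⟩ := base8 h0 h hm hJ
  have hne := hne_all h0 h hm hJ hn hk
  rw [levo_out ht hq htd htt hn hne (So_self8 hk)]
  have h1 := (lev_abs8 ht hq htd htt.le hn (L := a.1)
      (E := fun z => levo (Real.exp (-β)) (Real.exp (-(β * J))) n (2 * n + 1) (a :: r) a.1 z -
        eps a.2 z * Bch (Real.exp (-β)) (Real.exp (-(β * J))) n (2 * n + 1) r a.1 z)
      (F := fun z => del8 (Real.exp (-β)) (Real.exp (-(β * J))) n a r z +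
        D8 (Real.exp (-β)) (Real.exp (-(β * J))) n r a.1 z)
      (fun z hz => src_bound8 h0 h hm hJ hn (claimA8 h0 h hm hJ hn r a.1 (So_tail8 hk) z hz))).2 0
        (Nat.zero_le _)
  rw [gsum_sub8] at h1
  exact h1

private lemma claimC8 (r : List (ℕ × ℕ)) : ∀ l : ℕ, So n l r →
    gsum (Real.exp (-β)) (Real.exp (-(β * J))) n l
      (fun z => D8 (Real.exp (-β)) (Real.exp (-(β * J))) n r l z) 0 =
      G8 (Real.exp (-β)) (Real.exp (-(β * J))) n r := by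
  obtain ⟨ht, hq, ht1, htd, htt, htd1, hmg, hmg1, hb⟩ := base8 h0 h hm hJ
  induction r with
  | nil =>
    intro l _
    simp only [D8, G8]
    exact gsum_zero8 _ _ _ _ _
  | cons a r ih =>
    intro l hl
    have h1 := gsum_comp ht hq htd htt.le hn (E := fun z =>
        del8 (Real.exp (-β)) (Real.exp (-(β * J))) n a r z +
        D8 (Real.exp (-β)) (Real.exp (-(β * J))) n r a.1 z) hl.1 0
    rw [gsum_add8] at h1
    have h2 := ih a.1 (So_tail8 hl)
    change gsum (Real.exp (-β)) (Real.exp (-(β * J))) n l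
      (lev (Real.exp (-β)) (Real.exp (-(β * J))) n a.1 (fun z =>
        del8 (Real.exp (-β)) (Real.exp (-(β * J))) n a r z +
        D8 (Real.exp (-β)) (Real.exp (-(β * J))) n r a.1 z) l) 0 =
      gsum (Real.exp (-β)) (Real.exp (-(β * J))) n a.1
        (del8 (Real.exp (-β)) (Real.exp (-(β * J))) n a r) 0 +
        G8 (Real.exp (-β)) (Real.exp (-(β * J))) n r
    rw [← h1, h2]

end

theorem main_err {β₁ β J : ℝ} (h0 : 0 ≤ β₁) (h : β₁ < β) (hm : 0 < mag β₁) (hJ : 1 < J) (p : ℕ) :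
    ∃ C : ℝ, 0 < C ∧ ∀ n : ℕ, 2 ≤ n → ∀ (r : List (ℕ × ℕ)), So n 0 r → r ≠ [] → r.length ≤ p →
      |GSo (Real.exp (-β)) (xwl (Real.exp (-β)) (Real.exp (-(β * J))) n r) (2 * n + 1)
          ⟨n, by omega⟩ ⟨n, by omega⟩ -
        Mch (Real.exp (-β)) (Real.exp (-(β * J))) n (2 * n + 1) r| ≤
        C * lam (Real.exp (-β)) ^ (2 * n + 1) * (r.map (fun a => (1 + (a.2 : ℝ)) ^ 2 /
          ((((a.1 + 1 : ℕ) : ℝ) ^ (3 / 2 : ℝ)) * ((2 * n + 1 - a.1 : ℕ) : ℝ) ^ (3 / 2 : ℝ)))).sum := by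
  obtain ⟨ht, hq, ht1, htd, htt, htd1, hmg, hmg1, hb⟩ := base8 h0 h hm hJ
  have hlp := lam_pos ht ht1
  obtain ⟨C1, c, hC1, hc, hdel⟩ := delta_bound h0 h hm hJ p
  obtain ⟨C2, hC2, hup⟩ := lev_up ht hq htd htt
  obtain ⟨S, hS⟩ : ∃ S : ℝ, S = (1 + 2 / c) * (2 * ∑' z : ℤ, Real.exp (-(c / 2 * |(z : ℝ)|))) :=
    ⟨_, rfl⟩
  have hS0 : 0 ≤ S := by
    have := tsum_pos8 (c / 2)
    rw [hS]
    positivity
  -- one string
  have hone : ∀ n : ℕ, 2 ≤ n → ∀ (a : ℕ × ℕ) (r : List (ℕ × ℕ)), So n 0 (a :: r) →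
      (a :: r).length ≤ p →
      gsum (Real.exp (-β)) (Real.exp (-(β * J))) n a.1
        (del8 (Real.exp (-β)) (Real.exp (-(β * J))) n a r) 0 ≤
        (C1 * C2 * S + 1) * lam (Real.exp (-β)) ^ (2 * n + 1) * ((1 + (a.2 : ℝ)) ^ 2 /
          ((((a.1 + 1 : ℕ) : ℝ) ^ (3 / 2 : ℝ)) * ((2 * n + 1 - a.1 : ℕ) : ℝ) ^ (3 / 2 : ℝ))) := by
    intro n hn a r hr hlen
    have ha : a.1 ≤ 2 * n := hr.2.1
    rw [gsum_pai]
    unfold pai
    obtain ⟨W1, hW1⟩ : ∃ W1 : ℝ, W1 = lam (Real.exp (-β)) ^ (2 * n + 1 - a.1) /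
        ((2 * n + 1 - a.1 : ℕ) : ℝ) ^ (3 / 2 : ℝ) := ⟨_, rfl⟩
    obtain ⟨W2, hW2⟩ : ∃ W2 : ℝ, W2 = lam (Real.exp (-β)) ^ a.1 /
        ((a.1 + 1 : ℕ) : ℝ) ^ (3 / 2 : ℝ) := ⟨_, rfl⟩
    have hW10 : 0 ≤ W1 := by
      rw [hW1]
      positivity
    have hW20 : 0 ≤ W2 := by
      rw [hW2]
      positivity
    have h1 : ∀ v : Fin (2 * n + 1), del8 (Real.exp (-β)) (Real.exp (-(β * J))) n a r (ds n v) *
        gsum (Real.exp (-β)) (Real.exp (-(β * J))) n a.1 e0 (ds n v) ≤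
        C1 * C2 * (1 + (a.2 : ℝ)) * (W1 * W2) *
          ((1 + (ds n v : ℝ)) * Real.exp (-(c * |(ds n v : ℝ) - a.2|))) := by
      intro v
      have h2 := hdel n hn a r hr hlen (ds n v) (ds_le n v)
      have h3 := (hup n a.1 hn).2 (ds n v) (ds_le n v)
      have h4 : 0 ≤ del8 (Real.exp (-β)) (Real.exp (-(β * J))) n a r (ds n v) := abs_nonneg _
      have h5 : 0 ≤ C2 * (1 + (ds n v : ℝ)) * lam (Real.exp (-β)) ^ a.1 /
          ((a.1 + 1 : ℕ) : ℝ) ^ (3 / 2 : ℝ) := by positivity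
      calc del8 (Real.exp (-β)) (Real.exp (-(β * J))) n a r (ds n v) *
            gsum (Real.exp (-β)) (Real.exp (-(β * J))) n a.1 e0 (ds n v)
          ≤ del8 (Real.exp (-β)) (Real.exp (-(β * J))) n a r (ds n v) *
            (C2 * (1 + (ds n v : ℝ)) * lam (Real.exp (-β)) ^ a.1 /
          ((a.1 + 1 : ℕ) : ℝ) ^ (3 / 2 : ℝ)) := mul_le_mul_of_nonneg_left h3 h4
        _ ≤ (C1 * (1 + a.2) * Real.exp (-(c * |(ds n v : ℝ) - a.2|)) *
            lam (Real.exp (-β)) ^ (2 * n + 1 - a.1) /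
              ((2 * n + 1 - a.1 : ℕ) : ℝ) ^ (3 / 2 : ℝ)) *
            (C2 * (1 + (ds n v : ℝ)) * lam (Real.exp (-β)) ^ a.1 /
          ((a.1 + 1 : ℕ) : ℝ) ^ (3 / 2 : ℝ)) := mul_le_mul_of_nonneg_right h2 h5
        _ = _ := by
          rw [hW1, hW2]
          ring
    have h6 := rowp8 hc n a.2
    rw [← hS] at h6
    have hlam : W1 * W2 = lam (Real.exp (-β)) ^ (2 * n + 1) /
        ((((a.1 + 1 : ℕ) : ℝ) ^ (3 / 2 : ℝ)) * ((2 * n + 1 - a.1 : ℕ) : ℝ) ^ (3 / 2 : ℝ)) := by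
      have h7 : lam (Real.exp (-β)) ^ (2 * n + 1) =
          lam (Real.exp (-β)) ^ (2 * n + 1 - a.1) * lam (Real.exp (-β)) ^ a.1 := by
        rw [← pow_add]
        congr 1
        omega
      rw [hW1, hW2, h7, div_mul_div_comm]
      rw [mul_comm (((2 * n + 1 - a.1 : ℕ) : ℝ) ^ (3 / 2 : ℝ))]
    calc ∑ v : Fin (2 * n + 1), del8 (Real.exp (-β)) (Real.exp (-(β * J))) n a r (ds n v) *
          gsum (Real.exp (-β)) (Real.exp (-(β * J))) n a.1 e0 (ds n v)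
        ≤ ∑ v : Fin (2 * n + 1), C1 * C2 * (1 + (a.2 : ℝ)) * (W1 * W2) *
          ((1 + (ds n v : ℝ)) * Real.exp (-(c * |(ds n v : ℝ) - a.2|))) :=
          Finset.sum_le_sum fun v _ => h1 v
      _ = C1 * C2 * (1 + (a.2 : ℝ)) * (W1 * W2) * ∑ v : Fin (2 * n + 1),
          (1 + (ds n v : ℝ)) * Real.exp (-(c * |(ds n v : ℝ) - a.2|)) := by rw [Finset.mul_sum]
      _ ≤ C1 * C2 * (1 + (a.2 : ℝ)) * (W1 * W2) * ((1 + (a.2 : ℝ)) * S) :=
          mul_le_mul_of_nonneg_left h6 (by positivity)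
      _ = C1 * C2 * S * ((1 + (a.2 : ℝ)) ^ 2 * (W1 * W2)) := by ring
      _ ≤ (C1 * C2 * S + 1) * ((1 + (a.2 : ℝ)) ^ 2 * (W1 * W2)) :=
          mul_le_mul_of_nonneg_right (by linarith) (by positivity)
      _ = _ := by
          rw [hlam]
          ring
  have hG : ∀ n : ℕ, 2 ≤ n → ∀ r : List (ℕ × ℕ), So n 0 r → r.length ≤ p →
      G8 (Real.exp (-β)) (Real.exp (-(β * J))) n r ≤
        (C1 * C2 * S + 1) * lam (Real.exp (-β)) ^ (2 * n + 1) * (r.map (fun a => (1 + (a.2 : ℝ)) ^ 2 /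
          ((((a.1 + 1 : ℕ) : ℝ) ^ (3 / 2 : ℝ)) * ((2 * n + 1 - a.1 : ℕ) : ℝ) ^ (3 / 2 : ℝ)))).sum := by
    intro n hn r
    induction r with
    | nil =>
      intro _ _
      simp [G8]
    | cons a r ih =>
      intro hr hlen
      have hlr : r.length ≤ p := by
        have := hlen
        rw [List.length_cons] at this
        omega
      have h1 := hone n hn a r hr hlen
      have h2 := ih (So_mono (Nat.zero_le _) (So_tail8 hr)) hlr
      rw [List.map_cons, List.sum_cons, mul_add]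
      exact add_le_add h1 h2
  refine ⟨C1 * C2 * S + 1, by positivity, ?_⟩
  intro n hn r hr hne hlen
  cases r with
  | nil => exact absurd rfl hne
  | cons a r =>
    refine (claimB8 h0 h hm hJ hn hr).trans ?_
    rw [gsum_add8, claimC8 h0 h hm hJ hn r a.1 (So_tail8 hr)]
    exact hG n hn (a :: r) hr hlen

end Pool.Agent.Helper49.RD
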