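import Pool.Agent.Helper49.RD.Def
import Pool.Agent.Helper49.DX.Hb

/-!
Block RD-HA: asymptotics of the multipliers `Hh t θ k` (analysis, self-contained).

Paper proof of `hh_log`. `λ = lam t < 1`, `a = A2 t - 2 cos θ ≥ 1/λ + λ` (`A2_eq`), `R k = H (k + 1) / H k ≥ 1/λ` (`hh_low`), `R 0 = (ch - sh cos θ)/t`,
`R (k + 1) = a - 1 / R k`. Let `ρ ≥ 1/λ` be the larger root of `ρ + 1/ρ = a` (`ρ = (a + √(a² - 4))/2`). `R (k+1) - ρ = (R k - ρ)/(R k ρ)`, so `|R k - ρ| ≤ λ^(2k) |R 0 - ρ|`, and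
`|R 0 - ρ| ≤ C θ²`: at `θ = 0` both are `1/λ` (`ch - sh = t/λ`); `R 0 - 1/λ = (sh/t)(1 - cos θ)`, and `(ρ - 1/λ)(1 - λ/ρ) = a - 1/λ - λ = 2 (1 - cos θ)`, `1 - λ/ρ ≥ 1 - λ²`.
So `|log H k - log t - k log ρ| ≤ ∑_i |log R i - log ρ| ≤ ∑_i λ |R i - ρ| ≤ C' θ²`. With `ρ λ = e^δ`, `δ ≥ 0`: from `(ρ - 1/λ)(1 - λ/ρ) = 2 (1 - cos θ)`:
`(e^δ - 1)(1/λ - λ e^{-δ}) = 2 (1 - cos θ) = θ² + O(θ⁴)`, hence `δ = θ²/(1/λ - λ) + O(θ⁴)`, and `1/(1/λ - λ) = λ/(1 - λ²) = sg t / 2`. (Everything for `|θ| ≤ 1`; `δ ≤ C θ²` first.)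

`hh_ratio_lim`: from `hh_log`: `log (λ^(-(l - k)) H k / H l) = -(l - k) sg θ²/2 + O(θ² + l θ⁴)`. `hh_lim` is the case of one multiplier.
-/

open Finset Filter

namespace Pool.Agent.Helper49.RD

open Pool.Agent.Helper49.DL Pool.Agent.Helper49.DX

private lemma rho26 {l c : ℝ} (hl : 0 < l) (hc : 0 ≤ c) :
    ∃ ρ : ℝ, 1 / l ≤ ρ ∧ ρ + 1 / ρ = 1 / l + l + 2 * c := by
  set a := 1 / l + l + 2 * c with ha
  have hl0 : 0 < 1 / l := by positivity
  have h1 : l * (1 / l) = 1 := by field_simp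
  have ha2 : 2 ≤ a := by nlinarith [sq_nonneg (1 / l - l)]
  have hD : 0 ≤ a ^ 2 - 4 := by nlinarith
  have hs := Real.sq_sqrt hD
  have hs0 := Real.sqrt_nonneg (a ^ 2 - 4)
  have h2 : 2 / l - a ≤ √(a ^ 2 - 4) := by
    refine Real.le_sqrt_of_sq_le ?_
    have h3 : (2 / l - a) ^ 2 - (a ^ 2 - 4) = 4 * ((1 / l) ^ 2 - (1 / l) * a + 1) := by
      have : 2 / l = 2 * (1 / l) := by ring
      rw [this]
      ring
    have h4 : (1 / l) ^ 2 - (1 / l) * a + 1 = -(2 * c * (1 / l)) := by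
      rw [ha]
      linear_combination (-1 : ℝ) * h1
    have h5 : 0 ≤ 2 * c * (1 / l) := by positivity
    nlinarith
  refine ⟨(a + √(a ^ 2 - 4)) / 2, ?_, ?_⟩
  · have : 2 / l = 2 * (1 / l) := by ring
    linarith
  · have h6 : (0 : ℝ) < (a + √(a ^ 2 - 4)) / 2 := by linarith
    field_simp
    nlinarith

private lemma log_lip26 {l x y : ℝ} (hl : 0 < l) (hx : 1 / l ≤ x) (hy : 1 / l ≤ y) :
    |Real.log x - Real.log y| ≤ l * |x - y| := by
  have hl0 : 0 < 1 / l := by positivity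
  have key : ∀ u v : ℝ, 1 / l ≤ u → 1 / l ≤ v → Real.log u - Real.log v ≤ l * |u - v| := by
    intro u v hu hv
    have hu0 : 0 < u := by linarith
    have hv0 : 0 < v := by linarith
    rw [← Real.log_div hu0.ne' hv0.ne']
    have h1 := Real.log_le_sub_one_of_pos (div_pos hu0 hv0)
    have h2 : u / v - 1 = (1 / v) * (u - v) := by field_simp
    have h3 : 1 / v ≤ l := by
      rw [div_le_iff₀ hv0]
      rw [div_le_iff₀ hl] at hv
      linarith
    calc Real.log (u / v) ≤ (1 / v) * (u - v) := by rw [← h2]; exact h1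
      _ ≤ (1 / v) * |u - v| := mul_le_mul_of_nonneg_left (le_abs_self _) (by positivity)
      _ ≤ l * |u - v| := mul_le_mul_of_nonneg_right h3 (abs_nonneg _)
  rw [abs_le]
  constructor
  · have := key y x hy hx
    rw [abs_sub_comm] at this
    linarith
  · exact key x y hx hy

private lemma conv26 {l a ρ : ℝ} (hl : 0 < l) (hρ : 1 / l ≤ ρ) (ha : ρ + 1 / ρ = a) {R : ℕ → ℝ}
    (hR : ∀ k, 1 / l ≤ R k) (hrec : ∀ k, R (k + 1) = a - 1 / R k) (k : ℕ) :
    |R k - ρ| ≤ (l ^ 2) ^ k * |R 0 - ρ| := by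
  have hl0 : 0 < 1 / l := by positivity
  have hρ0 : 0 < ρ := by linarith
  have hinv : ∀ x : ℝ, 1 / l ≤ x → 0 < 1 / x ∧ 1 / x ≤ l := by
    intro x hx
    have hx0 : 0 < x := by linarith
    refine ⟨by positivity, ?_⟩
    rw [div_le_iff₀ hx0]
    rw [div_le_iff₀ hl] at hx
    linarith
  induction k with
  | zero => simp
  | succ k ih =>
    have hRk : 0 < R k := by linarith [hR k]
    have h1 : R (k + 1) - ρ = (1 / ρ) * (1 / R k) * (R k - ρ) := by
      rw [hrec k, ← ha]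
      field_simp
      ring
    obtain ⟨h2, h3⟩ := hinv ρ hρ
    obtain ⟨h4, h5⟩ := hinv (R k) (hR k)
    have h6 : (1 / ρ) * (1 / R k) ≤ l * l := mul_le_mul h3 h5 h4.le hl.le
    rw [h1, abs_mul, abs_of_pos (mul_pos h2 h4)]
    calc (1 / ρ) * (1 / R k) * |R k - ρ| ≤ (l * l) * ((l ^ 2) ^ k * |R 0 - ρ|) :=
          mul_le_mul h6 ih (abs_nonneg _) (by positivity)
      _ = (l ^ 2) ^ (k + 1) * |R 0 - ρ| := by ring

private lemma sum26 {l a ρ : ℝ} (hl : 0 < l) (hl1 : l < 1) (hρ : 1 / l ≤ ρ) (ha : ρ + 1 / ρ = a)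
    {R : ℕ → ℝ} (hR : ∀ k, 1 / l ≤ R k) (hrec : ∀ k, R (k + 1) = a - 1 / R k) (k : ℕ) :
    |∑ i ∈ range k, (Real.log (R i) - Real.log ρ)| ≤ l / (1 - l ^ 2) * |R 0 - ρ| := by
  have hd : 0 < 1 - l ^ 2 := by nlinarith
  have hgeom : ∑ i ∈ range k, (l ^ 2) ^ i ≤ 1 / (1 - l ^ 2) := by
    rw [le_div_iff₀ hd, mul_comm, mul_neg_geom_sum]
    have : 0 ≤ (l ^ 2) ^ k := by positivity
    linarith
  calc |∑ i ∈ range k, (Real.log (R i) - Real.log ρ)|
      ≤ ∑ i ∈ range k, |Real.log (R i) - Real.log ρ| := abs_sum_le_sum_abs _ _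
    _ ≤ ∑ i ∈ range k, l * ((l ^ 2) ^ i * |R 0 - ρ|) := by
        refine sum_le_sum fun i _ => (log_lip26 hl (hR i) hρ).trans ?_
        exact mul_le_mul_of_nonneg_left (conv26 hl hρ ha hR hrec i) hl.le
    _ = l * |R 0 - ρ| * ∑ i ∈ range k, (l ^ 2) ^ i := by
        rw [mul_sum]
        exact sum_congr rfl fun i _ => by ring
    _ ≤ l * |R 0 - ρ| * (1 / (1 - l ^ 2)) :=
        mul_le_mul_of_nonneg_left hgeom (by positivity)
    _ = l / (1 - l ^ 2) * |R 0 - ρ| := by ring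

/-- the exponent -/
private lemma delta26 {l c θ ρ : ℝ} (hl : 0 < l) (hl1 : l < 1) (hc : 0 ≤ c) (hcθ : 2 * c ≤ θ ^ 2)
    (hcθ' : θ ^ 2 - 2 * c ≤ θ ^ 4) (hρ : 1 / l ≤ ρ) (ha : ρ + 1 / ρ = 1 / l + l + 2 * c) :
    |Real.log (ρ * l) - l / (1 - l ^ 2) * θ ^ 2| ≤
      ((l / (1 - l ^ 2)) ^ 2 + (l + l * (l / (1 - l ^ 2)) + (l / (1 - l ^ 2)) ^ 2) / (1 - l ^ 2)) *
        θ ^ 4 ∧ ρ - 1 / l ≤ θ ^ 2 / (1 - l ^ 2) := by
  have hd : 0 < 1 - l ^ 2 := by nlinarith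
  have hd1 : 1 - l ^ 2 ≤ 1 := by nlinarith
  have hρ0 : 0 < ρ := lt_of_lt_of_le (by positivity) hρ
  obtain ⟨x, hx⟩ : ∃ x, x = ρ * l - 1 := ⟨_, rfl⟩
  have hρx : ρ * l = 1 + x := by linarith
  have hx0 : 0 ≤ x := by
    rw [div_le_iff₀ hl] at hρ
    linarith
  have hE : x * (1 - l ^ 2) + x ^ 2 = 2 * c * l + 2 * c * l * x := by
    have h1 : (ρ * l) ^ 2 + l ^ 2 = (ρ * l) * (1 + l ^ 2 + 2 * c * l) := by
      have h2 : (ρ + 1 / ρ) * (ρ * l ^ 2) = (1 / l + l + 2 * c) * (ρ * l ^ 2) := by rw [ha]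
      have h3 : (ρ + 1 / ρ) * (ρ * l ^ 2) = (ρ * l) ^ 2 + l ^ 2 := by
        field_simp
      have h4 : (1 / l + l + 2 * c) * (ρ * l ^ 2) = (ρ * l) * (1 + l ^ 2 + 2 * c * l) := by
        field_simp
      rw [← h3, h2, h4]
    rw [hρx] at h1
    nlinarith
  have hxd : x * (1 - l ^ 2) ≤ 2 * c * l := by
    by_contra hcon
    push Not at hcon
    have h1 : 2 * c * l * x ≤ x * (1 - l ^ 2) * x := mul_le_mul_of_nonneg_right hcon.le hx0
    have h2 : x * (1 - l ^ 2) * x ≤ x ^ 2 := by nlinarith [mul_nonneg hx0 hx0]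
    linarith
  have hcl : 2 * c * l ≤ l * θ ^ 2 := by nlinarith
  obtain ⟨K, hK⟩ : ∃ K, K = l / (1 - l ^ 2) := ⟨_, rfl⟩
  rw [← hK]
  have hK0 : 0 < K := by rw [hK]; positivity
  have hKd : K * (1 - l ^ 2) = l := by rw [hK]; field_simp
  have hxK : x ≤ K * θ ^ 2 := by
    have h1 : x * (1 - l ^ 2) ≤ K * θ ^ 2 * (1 - l ^ 2) := by
      have : K * θ ^ 2 * (1 - l ^ 2) = l * θ ^ 2 := by linear_combination θ ^ 2 * hKd
      rw [this]
      linarith
    exact le_of_mul_le_mul_right h1 hd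
  have hx2 : x ^ 2 ≤ K ^ 2 * θ ^ 4 := by
    calc x ^ 2 ≤ (K * θ ^ 2) ^ 2 := by gcongr
      _ = K ^ 2 * θ ^ 4 := by ring
  have hlog1 : Real.log (ρ * l) ≤ x := by
    have := Real.log_le_sub_one_of_pos (show 0 < ρ * l by positivity)
    linarith
  have hlog2 : x - x ^ 2 ≤ Real.log (ρ * l) := by
    have h1 := Real.one_sub_inv_le_log_of_pos (show 0 < ρ * l by positivity)
    rw [hρx] at h1 ⊢
    have h2 : x - x ^ 2 ≤ 1 - (1 + x)⁻¹ := by
      have h3 : 1 - (1 + x)⁻¹ = x / (1 + x) := by field_simp; ring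
      rw [h3, le_div_iff₀ (by linarith)]
      nlinarith [mul_nonneg hx0 (mul_nonneg hx0 hx0)]
    linarith
  have hxa : |x - K * θ ^ 2| ≤ (l + l * K + K ^ 2) / (1 - l ^ 2) * θ ^ 4 := by
    have h1 : (x - K * θ ^ 2) * (1 - l ^ 2) = l * (2 * c - θ ^ 2) + 2 * c * l * x - x ^ 2 := by
      have : K * θ ^ 2 * (1 - l ^ 2) = l * θ ^ 2 := by linear_combination θ ^ 2 * hKd
      linarith
    have h2 : |x - K * θ ^ 2| * (1 - l ^ 2) ≤ (l + l * K + K ^ 2) * θ ^ 4 := by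
      have e0 : |x - K * θ ^ 2| * (1 - l ^ 2) = |(x - K * θ ^ 2) * (1 - l ^ 2)| := by
        rw [abs_mul, abs_of_pos hd]
      rw [e0, h1]
      have h3 : |l * (2 * c - θ ^ 2)| ≤ l * θ ^ 4 := by
        rw [abs_mul, abs_of_pos hl]
        refine mul_le_mul_of_nonneg_left ?_ hl.le
        rw [abs_le]
        constructor <;> nlinarith [pow_nonneg (sq_nonneg θ) 2]
      have h4 : |2 * c * l * x| ≤ l * K * θ ^ 4 := by
        rw [abs_of_nonneg (by positivity)]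
        calc 2 * c * l * x ≤ l * θ ^ 2 * (K * θ ^ 2) :=
              mul_le_mul hcl hxK hx0 (by positivity)
          _ = l * K * θ ^ 4 := by ring
      have h5 : |x ^ 2| ≤ K ^ 2 * θ ^ 4 := by
        rw [abs_of_nonneg (by positivity)]
        exact hx2
      have h6 := abs_sub (l * (2 * c - θ ^ 2) + 2 * c * l * x) (x ^ 2)
      have h7 := abs_add_le (l * (2 * c - θ ^ 2)) (2 * c * l * x)
      linarith
    have e3 : (l + l * K + K ^ 2) / (1 - l ^ 2) * θ ^ 4 =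
        ((l + l * K + K ^ 2) * θ ^ 4) / (1 - l ^ 2) := by ring
    rw [e3, le_div_iff₀ hd]
    exact h2
  refine ⟨?_, ?_⟩
  · have h8 : |Real.log (ρ * l) - x| ≤ K ^ 2 * θ ^ 4 := by
      rw [abs_le]
      constructor
      · linarith
      · have : 0 ≤ K ^ 2 * θ ^ 4 := by positivity
        linarith
    have h9 := abs_add_le (Real.log (ρ * l) - x) (x - K * θ ^ 2)
    rw [sub_add_sub_cancel] at h9
    rw [add_mul]
    linarith
  · rw [le_div_iff₀ hd]
    have h1 : (ρ - 1 / l) * (1 - l ^ 2) * l = x * (1 - l ^ 2) := by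
      have : (ρ - 1 / l) * l = x := by
        rw [sub_mul, one_div, inv_mul_cancel₀ hl.ne', hρx]
        ring
      rw [← this]
      ring
    have h2 : (ρ - 1 / l) * (1 - l ^ 2) * l ≤ θ ^ 2 * l := by
      rw [h1]
      linarith
    exact le_of_mul_le_mul_right h2 hl

theorem hh_log {t : ℝ} (ht : 0 < t) (hq : t ^ 2 + 2 * t < 1) : ∃ C : ℝ, 0 < C ∧ ∀ θ : ℝ, |θ| ≤ 1 → ∀ k : ℕ,
    |Real.log (Hh t θ k * lam t ^ k / t) - k * (sg t * θ ^ 2 / 2)| ≤ C * (θ ^ 2 + k * θ ^ 4) := by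
  have ht1 := t_lt_one ht hq
  have hl := lam_pos ht ht1
  have hl1 := lam_lt_one ht hq
  have hsh := shh_pos ht ht1
  set l := lam t with hldef
  have hd : 0 < 1 - l ^ 2 := by nlinarith
  set K := l / (1 - l ^ 2) with hK
  have hK0 : 0 < K := by positivity
  set C1 := shh t / t + 1 / (1 - l ^ 2) with hC1
  have hC10 : 0 < C1 := by positivity
  set C3 := K ^ 2 + (l + l * K + K ^ 2) / (1 - l ^ 2) with hC3
  have hC30 : 0 < C3 := by positivity
  refine ⟨K * C1 + C3, by positivity, fun θ hθ k => ?_⟩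
  obtain ⟨c, hc⟩ : ∃ c, c = 1 - Real.cos θ := ⟨_, rfl⟩
  have hc0 : 0 ≤ c := by rw [hc]; linarith [Real.cos_le_one θ]
  have hcθ : 2 * c ≤ θ ^ 2 := by
    have := Real.one_sub_sq_div_two_le_cos (x := θ)
    rw [hc]
    linarith
  have hcθ' : θ ^ 2 - 2 * c ≤ θ ^ 4 := by
    have h1 := (abs_le.1 (Real.cos_bound hθ)).2
    have h2 : |θ| ^ 4 = θ ^ 4 := by
      rw [← abs_pow, abs_of_nonneg (by positivity)]
    rw [h2] at h1
    have h3 : 0 ≤ θ ^ 4 := by positivity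
    rw [hc]
    linarith
  obtain ⟨ρ, hρ, hρa⟩ := rho26 hl hc0
  have hρ0 : 0 < ρ := lt_of_lt_of_le (by positivity) hρ
  obtain ⟨hδ, hρ1⟩ := delta26 hl hl1 hc0 hcθ hcθ' hρ hρa
  have hpos : ∀ i, 0 < Hh t θ i := fun i => (hh_low ht hq θ i).1
  have hR : ∀ i, 1 / l ≤ Hh t θ (i + 1) / Hh t θ i := by
    intro i
    rw [le_div_iff₀ (hpos i)]
    have h1 := (hh_low ht hq θ i).2
    rw [← hc, ← hldef] at h1
    have h2 : 0 ≤ 2 * c * Hh t θ i := mul_nonneg (by linarith) (hpos i).le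
    nlinarith
  have hrec : ∀ i, Hh t θ (i + 1 + 1) / Hh t θ (i + 1) =
      (1 / l + l + 2 * c) - 1 / (Hh t θ (i + 1) / Hh t θ i) := by
    intro i
    have h1 : Hh t θ (i + 2) = (A2 t - 2 * Real.cos θ) * Hh t θ (i + 1) - Hh t θ i := rfl
    have h2 : A2 t - 2 * Real.cos θ = 1 / l + l + 2 * c := by
      rw [A2_eq ht ht1, hc, ← hldef]
      ring
    rw [show i + 1 + 1 = i + 2 by ring, h1, h2]
    have h3 := (hpos i).ne'
    have h4 := (hpos (i + 1)).ne'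
    rw [sub_div, mul_div_cancel_right₀ _ h4, one_div_div]
  have hR0 : |Hh t θ (0 + 1) / Hh t θ 0 - ρ| ≤ C1 * θ ^ 2 := by
    have h1 : Hh t θ (0 + 1) / Hh t θ 0 = 1 / l + shh t / t * c := by
      have h2 : Hh t θ (0 + 1) = chh t - shh t * Real.cos θ := rfl
      have h3 : Hh t θ 0 = t := rfl
      have h4 : chh t - shh t * Real.cos θ = t / l + shh t * c := by
        have := ch_sub_sh' ht ht1
        rw [← hldef] at this
        rw [← this, hc]
        ring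
      rw [h2, h3, h4]
      field_simp
    rw [h1]
    have h5 : 0 ≤ shh t / t * c := by positivity
    have h6 : shh t / t * c ≤ shh t / t * θ ^ 2 :=
      mul_le_mul_of_nonneg_left (by nlinarith) (by positivity)
    have h7 : 0 ≤ shh t / t * θ ^ 2 := by positivity
    have h8 : 0 ≤ θ ^ 2 / (1 - l ^ 2) := by positivity
    rw [hC1, add_mul, abs_le]
    have h9 : 1 / (1 - l ^ 2) * θ ^ 2 = θ ^ 2 / (1 - l ^ 2) := by ring
    rw [h9]
    constructor <;> linarith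
  have hsum := sum26 hl hl1 hρ hρa hR hrec k
  have hlogH : ∀ i, Real.log (Hh t θ i) =
      Real.log t + ∑ j ∈ range i, Real.log (Hh t θ (j + 1) / Hh t θ j) := by
    intro i
    induction i with
    | zero =>
      rw [range_zero, sum_empty, add_zero]
      rfl
    | succ i ih =>
      rw [sum_range_succ, ← add_assoc, ← ih, Real.log_div (hpos _).ne' (hpos _).ne']
      ring
  have hmain : Real.log (Hh t θ k * l ^ k / t) =
      (∑ i ∈ range k, (Real.log (Hh t θ (i + 1) / Hh t θ i) - Real.log ρ)) +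
        k * Real.log (ρ * l) := by
    rw [Real.log_div (mul_pos (hpos k) (pow_pos hl k)).ne' ht.ne',
      Real.log_mul (hpos k).ne' (pow_pos hl k).ne', Real.log_pow, hlogH k, sum_sub_distrib,
      sum_const, card_range, nsmul_eq_mul, Real.log_mul hρ0.ne' hl.ne']
    ring
  have hsg : sg t * θ ^ 2 / 2 = K * θ ^ 2 := by
    rw [sg, ← hldef, hK]
    ring
  rw [hmain, hsg]
  have e1 : (∑ i ∈ range k, (Real.log (Hh t θ (i + 1) / Hh t θ i) - Real.log ρ)) +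
      k * Real.log (ρ * l) - k * (K * θ ^ 2) =
      (∑ i ∈ range k, (Real.log (Hh t θ (i + 1) / Hh t θ i) - Real.log ρ)) +
        k * (Real.log (ρ * l) - K * θ ^ 2) := by ring
  rw [e1]
  have h1 : |(k : ℝ) * (Real.log (ρ * l) - K * θ ^ 2)| ≤ k * (C3 * θ ^ 4) := by
    rw [abs_mul, abs_of_nonneg (Nat.cast_nonneg k)]
    exact mul_le_mul_of_nonneg_left hδ (Nat.cast_nonneg k)
  have h2 : K * |Hh t θ (0 + 1) / Hh t θ 0 - ρ| ≤ K * (C1 * θ ^ 2) :=
    mul_le_mul_of_nonneg_left hR0 hK0.le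
  have h3 := abs_add_le
    (∑ i ∈ range k, (Real.log (Hh t θ (i + 1) / Hh t θ i) - Real.log ρ))
    (k * (Real.log (ρ * l) - K * θ ^ 2))
  have h4 : 0 ≤ K * C1 * (k * θ ^ 4) := by positivity
  have h5 : 0 ≤ C3 * θ ^ 2 := by positivity
  have e2 : (K * C1 + C3) * (θ ^ 2 + k * θ ^ 4) =
      K * (C1 * θ ^ 2) + k * (C3 * θ ^ 4) + K * C1 * (k * θ ^ 4) + C3 * θ ^ 2 := by ring
  rw [e2]
  linarith

theorem hh_lim {t : ℝ} (ht : 0 < t) (hq : t ^ 2 + 2 * t < 1) {θ : ℕ → ℝ} {k : ℕ → ℕ} {u s : ℝ}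
    (hθ : Tendsto (fun n : ℕ => θ n * Real.sqrt n) atTop (nhds u))
    (hk : Tendsto (fun n : ℕ => (k n : ℝ) / n) atTop (nhds s)) :
    Tendsto (fun n => Hh t (θ n) (k n) * lam t ^ k n) atTop (nhds (t * Real.exp (sg t * s * u ^ 2 / 2))) := by
  have ht1 := t_lt_one ht hq
  have hl := lam_pos ht ht1
  obtain ⟨C, hC0, hC⟩ := hh_log ht hq
  have hsq : Tendsto (fun n : ℕ => Real.sqrt n) atTop atTop :=
    Real.tendsto_sqrt_atTop.comp tendsto_natCast_atTop_atTop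
  have hθ0 : Tendsto θ atTop (nhds 0) := by
    have h1 := hθ.mul (tendsto_inv_atTop_zero.comp hsq)
    rw [mul_zero] at h1
    refine h1.congr' ?_
    filter_upwards [eventually_gt_atTop 0] with n hn
    have h2 : 0 < Real.sqrt n := Real.sqrt_pos.2 (by exact_mod_cast hn)
    simp only [Function.comp_apply]
    field_simp
  have hnθ : Tendsto (fun n : ℕ => (n : ℝ) * θ n ^ 2) atTop (nhds (u ^ 2)) := by
    refine (hθ.pow 2).congr fun n => ?_
    rw [mul_pow, Real.sq_sqrt (Nat.cast_nonneg n), mul_comm]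
  have hkθ : Tendsto (fun n : ℕ => (k n : ℝ) * θ n ^ 2) atTop (nhds (s * u ^ 2)) := by
    refine (hk.mul hnθ).congr' ?_
    filter_upwards [eventually_gt_atTop 0] with n hn
    have h2 : (0 : ℝ) < n := by exact_mod_cast hn
    field_simp
  have herr : Tendsto (fun n : ℕ => C * (θ n ^ 2 + k n * θ n ^ 4)) atTop (nhds 0) := by
    have h1 : Tendsto (fun n : ℕ => θ n ^ 2) atTop (nhds 0) := by
      have := hθ0.pow 2
      rwa [zero_pow two_ne_zero] at this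
    have h2 := ((h1.add (hkθ.mul h1)).const_mul C)
    rw [mul_zero, add_zero, mul_zero] at h2
    refine h2.congr fun n => ?_
    ring
  have hlog : Tendsto (fun n => Real.log (Hh t (θ n) (k n) * lam t ^ k n / t)) atTop
      (nhds (sg t * s * u ^ 2 / 2)) := by
    have h1 : Tendsto (fun n => Real.log (Hh t (θ n) (k n) * lam t ^ k n / t) -
        k n * (sg t * θ n ^ 2 / 2)) atTop (nhds 0) := by
      refine squeeze_zero_norm' ?_ herr
      filter_upwards [hθ0.eventually (Metric.ball_mem_nhds (0 : ℝ) one_pos)] with n hn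
      have hn : |θ n| < 1 := by
        have h5 : dist (θ n) 0 < 1 := hn
        rwa [dist_zero_right, Real.norm_eq_abs] at h5
      rw [Real.norm_eq_abs]
      exact hC (θ n) hn.le (k n)
    have h2 := h1.add (hkθ.const_mul (sg t / 2))
    rw [zero_add] at h2
    have e1 : sg t / 2 * (s * u ^ 2) = sg t * s * u ^ 2 / 2 := by ring
    rw [e1] at h2
    refine h2.congr fun n => ?_
    ring
  have h3 := ((Real.continuous_exp.tendsto _).comp hlog).const_mul t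
  refine h3.congr fun n => ?_
  have h4 : 0 < Hh t (θ n) (k n) * lam t ^ k n / t :=
    div_pos (mul_pos (hh_low ht hq (θ n) (k n)).1 (pow_pos hl _)) ht
  simp only [Function.comp_apply]
  rw [Real.exp_log h4]
  field_simp

theorem hh_ratio_lim {t : ℝ} (ht : 0 < t) (hq : t ^ 2 + 2 * t < 1) {θ : ℕ → ℝ} {k l : ℕ → ℕ} {u s s' : ℝ}
    (hθ : Tendsto (fun n : ℕ => θ n * Real.sqrt n) atTop (nhds u)) (hkl : ∀ᶠ n in atTop, k n ≤ l n)
    (hk : Tendsto (fun n : ℕ => (k n : ℝ) / n) atTop (nhds s))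
    (hl : Tendsto (fun n : ℕ => (l n : ℝ) / n) atTop (nhds s')) :
    Tendsto (fun n => Hh t (θ n) (k n) / Hh t (θ n) (l n) / lam t ^ (l n - k n)) atTop
      (nhds (Real.exp (-(sg t * (s' - s) * u ^ 2 / 2)))) := by
  have ht1 := t_lt_one ht hq
  have hl' := hl
  replace hl := lam_pos ht ht1
  have h1 := hh_lim ht hq hθ hk
  have h2 := hh_lim ht hq hθ hl'
  have h3 : t * Real.exp (sg t * s' * u ^ 2 / 2) ≠ 0 := mul_ne_zero ht.ne' (Real.exp_pos _).ne'
  have h4 := h1.div h2 h3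
  have e1 : t * Real.exp (sg t * s * u ^ 2 / 2) / (t * Real.exp (sg t * s' * u ^ 2 / 2)) =
      Real.exp (-(sg t * (s' - s) * u ^ 2 / 2)) := by
    rw [mul_div_mul_left _ _ ht.ne', ← Real.exp_sub]
    congr 1
    ring
  rw [e1] at h4
  refine h4.congr' ?_
  filter_upwards [hkl] with n hn
  have h5 := (hh_low ht hq (θ n) (l n)).1.ne'
  obtain ⟨j, hj⟩ := Nat.exists_eq_add_of_le hn
  have h6 : l n - k n = j := by omega
  rw [Pi.div_apply, h6, hj, pow_add]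
  rw [hj] at h5
  have h7 := (pow_pos hl (k n)).ne'
  have h8 := (pow_pos hl j).ne'
  field_simp

end Pool.Agent.Helper49.RD
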