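import Pool.Agent.Helper49.RD.ExpA
import Pool.Agent.Helper49.RD.Lev2

/-!
Block RD-LB: bounds for the levels from the exponential super solutions.

Paper proofs.
* `lev_exp`: `sup_exp` and `lev_le`: the source `e^{-ε y}` is at most `θ * bex (L + 1) y` (`θ ≥ 1`); `θ * bex (k + 1) y ≤ θ e^{-ε y} r^(L - k)`,
  `θ * bxg y ≤ (θ/td) e^{-ε y} r^(L+1)` (`td ≤ t`), `r = λ e^{K ε²}`; `C = θ / td * e` (`td < 1`, `r ≤ λ e`). (`Sup` is invariant under multiplication with a
  constant `≥ 0`; or use `lev_lin` for the source divided by `θ`.)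
* `ell_sinh`: the source `sinh (ε y) ≤ θ * bsh (L + 1) y`, value `θ * bsg 0 = sinh (ε d) r^(L+1)/td ≤ (2 ε d + ...) `: `sinh x ≤ x e^x ≤ x e^d` for `x = ε d ≤ d`.
* `lev_one`: `ε = 0` in `lev_exp`.
-/

open Finset

namespace Pool.Agent.Helper49.RD

open Pool.Agent.Helper49.DL Pool.Agent.Helper49.DX

private lemma t_lt_one50 {t : ℝ} (ht : 0 < t) (hq : t ^ 2 + 2 * t < 1) : t < 1 := by
  nlinarith [sq_nonneg t]

private lemma lev_scale50 (t td : ℝ) (m L : ℕ) (a : ℝ) (E : ℕ → ℝ) (k y : ℕ) :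
    lev t td m L (fun z => a * E z) k y = a * lev t td m L E k y := by
  have h := lev_lin t td m L a 0 E (fun _ => 0) k y
  have h2 : (fun z => a * E z + 0 * (fun _ : ℕ => (0 : ℝ)) z) = fun z => a * E z := by
    funext z
    simp
  rw [h2] at h
  rw [h]
  ring

private lemma gsum_scale50 (t td : ℝ) (m L : ℕ) (a : ℝ) (E : ℕ → ℝ) (y : ℕ) :
    gsum t td m L (fun z => a * E z) y = a * gsum t td m L E y := by
  have h := gsum_lin t td m L a 0 E (fun _ => 0) y
  have h2 : (fun z => a * E z + 0 * (fun _ : ℕ => (0 : ℝ)) z) = fun z => a * E z := by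
    funext z
    simp
  rw [h2] at h
  rw [h]
  ring

/-- Comparison with a multiple of a super solution. -/
private lemma lev_le_mul50 {t td : ℝ} (ht : 0 < t) (hq : t ^ 2 + 2 * t < 1) (htd : 0 < td)
    (htt : td ≤ t) {m L : ℕ} (hm : 2 ≤ m) {E : ℕ → ℝ} {g : ℕ → ℝ} {p : ℕ → ℕ → ℝ}
    (h : Sup t td m L g p) {c : ℝ} (hc : 0 < c) (h0 : ∀ y ≤ m, E y ≤ c * p (L + 1) y) :
    (∀ k ≤ L, ∀ y ≤ m, lev t td m L E k y ≤ c * p (k + 1) y) ∧
      ∀ y ≤ m, gsum t td m L E y ≤ c * g y := by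
  have hs : ∀ y ≤ m, (fun z => c⁻¹ * E z) y ≤ p (L + 1) y := by
    intro y hy
    have h1 := h0 y hy
    show c⁻¹ * E y ≤ p (L + 1) y
    rw [inv_mul_le_iff₀ hc]
    exact h1
  obtain ⟨h1, h2⟩ := lev_le ht hq htd htt hm h hs
  refine ⟨fun k hk y hy => ?_, fun y hy => ?_⟩
  · have h3 := h1 k hk y hy
    rw [lev_scale50, inv_mul_le_iff₀ hc] at h3
    exact h3
  · have h3 := h2 y hy
    rw [gsum_scale50, inv_mul_le_iff₀ hc] at h3
    exact h3

private lemma rad_le50 {t : ℝ} (ht : 0 < t) (hq : t ^ 2 + 2 * t < 1) {K ε ε₀ : ℝ} (hK : 0 < K)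
    (hε : |ε| ≤ ε₀) (h1 : K * ε₀ ^ 2 ≤ 1) :
    0 < lam t * Real.exp (K * ε ^ 2) ∧ lam t * Real.exp (K * ε ^ 2) ≤ Real.exp 1 := by
  have hl := lam_pos ht (t_lt_one50 ht hq)
  have hl1 := lam_lt_one ht hq
  refine ⟨by positivity, ?_⟩
  have h2 : ε ^ 2 ≤ ε₀ ^ 2 := by
    rw [← sq_abs ε]
    exact pow_le_pow_left₀ (abs_nonneg ε) hε 2
  have h3 : K * ε ^ 2 ≤ 1 := le_trans (mul_le_mul_of_nonneg_left h2 hK.le) h1
  calc lam t * Real.exp (K * ε ^ 2) ≤ 1 * Real.exp (K * ε ^ 2) :=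
        mul_le_mul_of_nonneg_right hl1.le (Real.exp_pos _).le
    _ = Real.exp (K * ε ^ 2) := one_mul _
    _ ≤ Real.exp 1 := Real.exp_le_exp.mpr h3

private lemma sinh_le50 {x : ℝ} (_hx : 0 ≤ x) : Real.sinh x ≤ x * Real.exp x := by
  rw [Real.sinh_eq]
  have h1 : Real.exp (-x) = Real.exp x * Real.exp (-(2 * x)) := by
    rw [← Real.exp_add]
    congr 1
    ring
  have h2 := Real.add_one_le_exp (-(2 * x))
  rw [h1]
  nlinarith [Real.exp_pos x, mul_le_mul_of_nonneg_left h2 (Real.exp_pos x).le]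

theorem lev_exp {t td : ℝ} (ht : 0 < t) (hq : t ^ 2 + 2 * t < 1) (htd : 0 < td) (htt : td < t) :
    ∃ C K ε₀ : ℝ, 1 ≤ C ∧ 0 < K ∧ 0 < ε₀ ∧ ε₀ ≤ 1 ∧ ∀ ε : ℝ, |ε| ≤ ε₀ → ∀ m : ℕ, 2 ≤ m → ∀ L : ℕ,
      (∀ k ≤ L, ∀ y ≤ m, lev t td m L (fun z => Real.exp (-(ε * z))) k y ≤
        C * Real.exp (-(ε * y)) * (lam t * Real.exp (K * ε ^ 2)) ^ (L - k)) ∧
      (∀ y ≤ m, gsum t td m L (fun z => Real.exp (-(ε * z))) y ≤
        C * Real.exp (-(ε * y)) * (lam t * Real.exp (K * ε ^ 2)) ^ L) := by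
  obtain ⟨K, ε₀, hK, hε₀, hε₁, hKε, hsup⟩ := sup_exp ht hq htd htt
  have ht1 := t_lt_one50 ht hq
  have hth : 1 ≤ the t td := the_ge_one ht ht1 htd htt.le
  have hth0 : 0 < the t td := by linarith
  have htd1 : td < 1 := by linarith
  have he1 : (1 : ℝ) ≤ Real.exp 1 := by
    have := Real.add_one_le_exp (1 : ℝ)
    linarith
  have hC1 : the t td ≤ the t td / td * Real.exp 1 := by
    have h1 : the t td ≤ the t td / td := by
      rw [le_div_iff₀ htd]
      nlinarith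
    calc the t td ≤ the t td / td := h1
      _ = the t td / td * 1 := (mul_one _).symm
      _ ≤ the t td / td * Real.exp 1 := mul_le_mul_of_nonneg_left he1 (by positivity)
  refine ⟨the t td / td * Real.exp 1, K, ε₀, le_trans hth hC1, hK, hε₀, hε₁, ?_⟩
  intro ε hε m hm L
  obtain ⟨hr0, hr1⟩ := rad_le50 ht hq hK hε hKε
  set r := lam t * Real.exp (K * ε ^ 2) with hr
  have hif : ∀ y : ℕ, (if y = 0 then 1 / the t td else 1) ≤ 1 := by
    intro y
    split_ifs
    · rw [div_le_one hth0]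
      exact hth
    · exact le_rfl
  have hif' : ∀ y : ℕ, 1 ≤ the t td * (if y = 0 then 1 / the t td else 1) := by
    intro y
    split_ifs
    · rw [mul_one_div_cancel hth0.ne']
    · linarith
  obtain ⟨h1, h2⟩ := lev_le_mul50 ht hq htd htt.le hm (hsup ε hε m hm L) hth0
    (E := fun z => Real.exp (-(ε * z))) (by
      intro y _
      show Real.exp (-(ε * y)) ≤ the t td * bex t td r ε L (L + 1) y
      unfold bex
      rw [Nat.sub_self, pow_zero, mul_one, ← mul_assoc]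
      have := mul_le_mul_of_nonneg_right (hif' y) (Real.exp_pos (-(ε * y))).le
      linarith)
  refine ⟨fun k hk y hy => ?_, fun y hy => ?_⟩
  · refine le_trans (h1 k hk y hy) ?_
    unfold bex
    have hk2 : L + 1 - (k + 1) = L - k := by omega
    rw [hk2]
    have hp : 0 ≤ Real.exp (-(ε * y)) * r ^ (L - k) := by positivity
    calc the t td * ((if y = 0 then 1 / the t td else 1) * (Real.exp (-(ε * y)) * r ^ (L - k)))
        ≤ the t td * (1 * (Real.exp (-(ε * y)) * r ^ (L - k))) :=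
          mul_le_mul_of_nonneg_left (mul_le_mul_of_nonneg_right (hif y) hp) hth0.le
      _ = the t td * (Real.exp (-(ε * y)) * r ^ (L - k)) := by ring
      _ ≤ the t td / td * Real.exp 1 * (Real.exp (-(ε * y)) * r ^ (L - k)) :=
          mul_le_mul_of_nonneg_right hC1 hp
      _ = the t td / td * Real.exp 1 * Real.exp (-(ε * y)) * r ^ (L - k) := by ring
  · refine le_trans (h2 y hy) ?_
    unfold bxg bex
    rw [Nat.sub_zero]
    have hp : 0 ≤ Real.exp (-(ε * y)) * r ^ (L + 1) := by positivity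
    have hw : td ≤ (if y = 0 then td else t) := by
      split_ifs
      · exact le_rfl
      · exact htt.le
    have hA : (if y = 0 then 1 / the t td else 1) * (Real.exp (-(ε * y)) * r ^ (L + 1)) /
        (if y = 0 then td else t) ≤ Real.exp (-(ε * y)) * r ^ (L + 1) / td := by
      refine div_le_div₀ hp ?_ htd hw
      have := mul_le_mul_of_nonneg_right (hif y) hp
      linarith
    calc the t td * ((if y = 0 then 1 / the t td else 1) * (Real.exp (-(ε * y)) * r ^ (L + 1)) /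
        (if y = 0 then td else t))
        ≤ the t td * (Real.exp (-(ε * y)) * r ^ (L + 1) / td) :=
          mul_le_mul_of_nonneg_left hA hth0.le
      _ = the t td / td * Real.exp (-(ε * y)) * r ^ L * r := by
          rw [pow_succ]
          ring
      _ ≤ the t td / td * Real.exp (-(ε * y)) * r ^ L * Real.exp 1 :=
          mul_le_mul_of_nonneg_left hr1 (by positivity)
      _ = the t td / td * Real.exp 1 * Real.exp (-(ε * y)) * r ^ L := by ring

theorem lev_one {t td : ℝ} (ht : 0 < t) (hq : t ^ 2 + 2 * t < 1) (htd : 0 < td) (htt : td < t) :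
    ∃ C : ℝ, 1 ≤ C ∧ ∀ m : ℕ, 2 ≤ m → ∀ L : ℕ,
      (∀ k ≤ L, ∀ y ≤ m, lev t td m L (fun _ => 1) k y ≤ C * lam t ^ (L - k)) ∧
      (∀ y ≤ m, gsum t td m L (fun _ => 1) y ≤ C * lam t ^ L) := by
  obtain ⟨C, K, ε₀, hC, hK, hε₀, hε₁, h⟩ := lev_exp ht hq htd htt
  refine ⟨C, hC, fun m hm L => ?_⟩
  obtain ⟨h1, h2⟩ := h 0 (by rw [abs_zero]; exact hε₀.le) m hm L
  have hE : (fun z : ℕ => Real.exp (-((0 : ℝ) * z))) = fun _ => 1 := by
    funext z
    simp
  have hr : lam t * Real.exp (K * (0 : ℝ) ^ 2) = lam t := by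
    simp
  rw [hE, hr] at h1 h2
  refine ⟨fun k hk y hy => ?_, fun y hy => ?_⟩
  · have := h1 k hk y hy
    rwa [zero_mul, neg_zero, Real.exp_zero, mul_one] at this
  · have := h2 y hy
    rwa [zero_mul, neg_zero, Real.exp_zero, mul_one] at this

theorem ell_sinh {t td : ℝ} (ht : 0 < t) (hq : t ^ 2 + 2 * t < 1) (htd : 0 < td) (htt : td < t) :
    ∃ C K ε₀ : ℝ, 0 < C ∧ 0 < K ∧ 0 < ε₀ ∧ ε₀ ≤ 1 ∧ ∀ ε : ℝ, 0 < ε → ε ≤ ε₀ → ∀ m : ℕ, 2 ≤ m → ∀ L : ℕ,
      gsum t td m L (fun z => Real.sinh (ε * z)) 0 ≤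
        C * ε * (lam t * Real.exp (K * ε ^ 2)) ^ L := by
  obtain ⟨K, ε₀, d, hK, hε₀, hε₁, hKε, hd, hsup⟩ := sup_sinh ht hq htd htt
  have ht1 := t_lt_one50 ht hq
  have hth : 1 ≤ the t td := the_ge_one ht ht1 htd htt.le
  have hth0 : 0 < the t td := by linarith
  have hd1 : (1 : ℝ) ≤ d := by exact_mod_cast hd
  have hd0 : (0 : ℝ) < d := by linarith
  refine ⟨d * Real.exp d / td * Real.exp 1, K, ε₀, by positivity, hK, hε₀, hε₁, ?_⟩
  intro ε hε0 hε m hm L
  have hεa : |ε| ≤ ε₀ := by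
    rw [abs_of_pos hε0]
    exact hε
  obtain ⟨hr0, hr1⟩ := rad_le50 ht hq hK hεa hKε
  set r := lam t * Real.exp (K * ε ^ 2) with hr
  have hif' : ∀ y : ℕ, 1 ≤ the t td * (if y = 0 then 1 / the t td else 1) := by
    intro y
    split_ifs
    · rw [mul_one_div_cancel hth0.ne']
    · linarith
  obtain ⟨-, h2⟩ := lev_le_mul50 ht hq htd htt.le hm (hsup ε hε0 hε m hm L) hth0
    (E := fun z => Real.sinh (ε * z)) (by
      intro y _
      show Real.sinh (ε * y) ≤ the t td * bsh t td r ε d L (L + 1) y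
      unfold bsh
      rw [Nat.sub_self, pow_zero, mul_one, ← mul_assoc]
      have hs0 : 0 ≤ Real.sinh (ε * ((y : ℝ) + d)) := Real.sinh_nonneg_iff.mpr (by positivity)
      have hs1 : Real.sinh (ε * y) ≤ Real.sinh (ε * ((y : ℝ) + d)) := by
        refine Real.sinh_le_sinh.mpr ?_
        nlinarith
      have := mul_le_mul_of_nonneg_right (hif' y) hs0
      linarith)
  refine le_trans (h2 0 (Nat.zero_le m)) ?_
  unfold bsg bsh
  rw [if_pos rfl, if_pos rfl, Nat.sub_zero, Nat.cast_zero, zero_add]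
  have hs : Real.sinh (ε * d) ≤ ε * d * Real.exp d := by
    refine le_trans (sinh_le50 (by positivity)) ?_
    refine mul_le_mul_of_nonneg_left (Real.exp_le_exp.mpr ?_) (by positivity)
    nlinarith
  calc the t td * (1 / the t td * (Real.sinh (ε * d) * r ^ (L + 1)) / td)
      = Real.sinh (ε * d) * (r ^ (L + 1) / td) := by
        field_simp
    _ ≤ ε * d * Real.exp d * (r ^ (L + 1) / td) :=
        mul_le_mul_of_nonneg_right hs (by positivity)
    _ = d * Real.exp d / td * ε * r ^ L * r := by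
        rw [pow_succ]
        ring
    _ ≤ d * Real.exp d / td * ε * r ^ L * Real.exp 1 :=
        mul_le_mul_of_nonneg_left hr1 (by positivity)
    _ = d * Real.exp d / td * Real.exp 1 * ε * r ^ L := by ring

end Pool.Agent.Helper49.RD
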