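import Pool.Agent.Helper49.RD.Lev2
import Pool.Agent.Helper49.DX.Hb

/-!
Block RD-SN: the source `sin (θ y)`, `θ m ∈ π ℕ`: the levels are those of the half line up to an error of order `θ`.

Paper proof. `λ = lam t`, `H k = Hh t θ k > 0` (`hh_low`), `H (k + 2) = (A2 - 2 cos θ) H (k + 1) - H k`, `H 0 = t`, `H 1 = ch - sh cos θ`, and
`H (k + 1) ≥ (1/λ + 2 (1 - cos θ)) H k ≥ H k / λ` (`hh_low`), so `ρ k := H k / H (L + 1) ≤ λ^(L+1-k)`. Put `F k y = sin (θ y) ρ k`, `F0g y = F 0 y / t = sin (θ y) / H (L + 1)`.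
`F` satisfies (sum formula `sin (θ (y+1)) + sin (θ (y-1)) = 2 cos θ sin (θ y)`):
`A2 F (k+1) y = F (k+2) y + F k y + F (k+1) (y+1) + F (k+1) (y-1)` for `y ≥ 1`, `ch F0g y = sh/2 (F0g (y+1) + F0g (y-1)) + F 1 y` for `y ≥ 1`, `F k 0 = 0`,
`F k m = 0` (`sin (π j) = 0`), `F k (m+1) = ± sin θ ρ k`, `F k (m - 1) = -F k (m + 1)`. Let `D k y = plev k y - F k y`, `Dg y = gsum y - F0g y` (source `0`). Then the
equations of `Sol` hold for `D` with the following errors, all bounded by `θ ρ ≤ θ λ^(L-k)` times a constant (`|sin θ| ≤ θ`):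
`zero`: `D (k+2) 0 + ζ D k 0 + 2 D (k+1) 1 + 2 F (k+1) 1 = (A2 + μ ch) D (k+1) 0`; `top`: `D (k+2) m + D k m + D (k+1) (m-1) + 2 t ∑ .. + .. - F (k+1) (m+1) = (A2 - t) D (k+1) m`;
`gzero`: `sh Dg 1 + D 1 0 + sh F0g 1 = ch Dg 0`; `gtop`: `sh/2 Dg (m-1) + D 1 m - sh/2 F0g (m+1) = (1 + ch)/2 Dg m`; no error in `lev`, `bulk`, `one`, `gbulk`.
Comparison function `w k y = λ^(L+1-k)` (`y ≥ 1`), `λ^(L+1-k)/θ'` (`y = 0`, `θ' = the t td`), `wg y = w 0 y / (t or td)` (as `ww71`, `wg71` of `DX/Row.lean`, divided by `θ'`): its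
inequalities (proof of `gs_row`) hold with margins: `zero`: `μ (t/λ - t λ) λ^(L-k) / θ'`; `top`: `(1 - t - λ (λ - t)) λ^(L-k)` (the sum `2 t ∑ t^(i+1) λ^(i+1) + t^k (ch-1) λ^(k+1) ≤
λ (λ - t)`); `gzero`: `(ch t - sh²/2) μ λ^(L+1) / (θ' t)`; `gtop`: `(1 - (ch - sh)) λ^(L+1) / (2 t)`. Hence for a constant `C = C (t, td)` the functions
`C θ w ± D`, `C θ wg ± Dg` are super solutions (`Sup`) with nonnegative last level, and `sup_all` gives `|D k y| ≤ C θ w k y`, `|Dg y| ≤ C θ wg y`. At last `w (k + 1) y ≤ λ^(L-k)`,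
`wg y ≤ λ^(L+1)/td`, `θ' ≥ 1`.
-/

open Finset

namespace Pool.Agent.Helper49.RD

open Pool.Agent.Helper49.DL Pool.Agent.Helper49.DX

section

variable {t td : ℝ}

private noncomputable def wwSN (t td : ℝ) (L k y : ℕ) : ℝ :=
  if y = 0 then lam t ^ (L + 1 - k) / the t td else lam t ^ (L + 1 - k)

private noncomputable def wgSN (t td : ℝ) (L y : ℕ) : ℝ :=
  if y = 0 then lam t ^ (L + 1) / the t td / td else lam t ^ (L + 1) / t

/-- Super solutions with margins. -/
private structure MarSN (t td c : ℝ) (m L : ℕ) (g : ℕ → ℝ) (p : ℕ → ℕ → ℝ) : Prop where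
  lev : ∀ y ≤ m, p 0 y = (if y = 0 then td else t) * g y
  bulk : ∀ k y, k < L → 2 ≤ y → y < m →
    p (k + 2) y + p k y + (p (k + 1) (y + 1) + p (k + 1) (y - 1)) ≤ A2 t * p (k + 1) y
  one : ∀ k, k < L →
    p (k + 2) 1 + p k 1 + (p (k + 1) 2 + the t td * p (k + 1) 0) ≤ A2 t * p (k + 1) 1
  zero : ∀ k, k < L →
    p (k + 2) 0 + zet t td * p k 0 + 2 * p (k + 1) 1 + c * lam t ^ (L - k) ≤
      (A2 t + mu t td * chh t) * p (k + 1) 0
  top : ∀ k, k < L →
    p (k + 2) m + p k m + p (k + 1) (m - 1) +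
      2 * t * (∑ i ∈ Finset.range k, t ^ (i + 1) * p (k - i) m) +
      t ^ (k + 1) * (chh t - 1) * g m + c * lam t ^ (L - k) ≤ (A2 t - t) * p (k + 1) m
  gbulk : ∀ y, 1 ≤ y → y < m → shh t / 2 * (g (y + 1) + g (y - 1)) + p 1 y ≤ chh t * g y
  gzero : shh t * g 1 + p 1 0 + c * lam t ^ (L + 1) ≤ chh t * g 0
  gtop : shh t / 2 * g (m - 1) + p 1 m + c * lam t ^ (L + 1) ≤ (1 + chh t) / 2 * g m

/-- Approximate solutions with zero source. -/
private structure ErrSN (t td e : ℝ) (m L : ℕ) (g : ℕ → ℝ) (p : ℕ → ℕ → ℝ) : Prop where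
  src : ∀ y ≤ m, p (L + 1) y = 0
  lev : ∀ y ≤ m, p 0 y = (if y = 0 then td else t) * g y
  bulk : ∀ k y, k < L → 2 ≤ y → y < m →
    p (k + 2) y + p k y + (p (k + 1) (y + 1) + p (k + 1) (y - 1)) = A2 t * p (k + 1) y
  one : ∀ k, k < L →
    p (k + 2) 1 + p k 1 + (p (k + 1) 2 + the t td * p (k + 1) 0) = A2 t * p (k + 1) 1
  zero : ∀ k, k < L →
    |p (k + 2) 0 + zet t td * p k 0 + 2 * p (k + 1) 1 - (A2 t + mu t td * chh t) * p (k + 1) 0| ≤
      e * lam t ^ (L - k)
  top : ∀ k, k < L →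
    |p (k + 2) m + p k m + p (k + 1) (m - 1) +
      2 * t * (∑ i ∈ Finset.range k, t ^ (i + 1) * p (k - i) m) +
      t ^ (k + 1) * (chh t - 1) * g m - (A2 t - t) * p (k + 1) m| ≤ e * lam t ^ (L - k)
  gbulk : ∀ y, 1 ≤ y → y < m → shh t / 2 * (g (y + 1) + g (y - 1)) + p 1 y = chh t * g y
  gzero : |shh t * g 1 + p 1 0 - chh t * g 0| ≤ e * lam t ^ (L + 1)
  gtop : |shh t / 2 * g (m - 1) + p 1 m - (1 + chh t) / 2 * g m| ≤ e * lam t ^ (L + 1)

private lemma combSN (ht : 0 < t) (hq : t ^ 2 + 2 * t < 1) {c e B s : ℝ} {m L : ℕ}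
    {g g' : ℕ → ℝ} {p p' : ℕ → ℕ → ℝ}
    (hw : MarSN t td c m L g p) (hD : ErrSN t td e m L g' p') (hs : s = 1 ∨ s = -1) (hB : 0 ≤ B)
    (hB' : e ≤ B * c) :
    Sup t td m L (fun y => B * g y + s * g' y) (fun k y => B * p k y + s * p' k y) := by
  have hl := lam_pos ht (t_lt_one ht hq)
  have habs : ∀ X r : ℝ, |X| ≤ r → s * X ≤ r := by
    intro X r h
    have h1 := abs_le.1 h
    rcases hs with rfl | rfl
    · linarith
    · linarith
  have hp : ∀ n : ℕ, e * lam t ^ n ≤ B * c * lam t ^ n := fun n =>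
    mul_le_mul_of_nonneg_right hB' (pow_pos hl n).le
  refine ⟨?_, ?_, ?_, ?_, ?_, ?_, ?_, ?_⟩
  · intro y hy
    have h1 := hw.lev y hy
    have h2 := hD.lev y hy
    rw [h1, h2]
    ring
  · intro k y hk hy hym
    have h1 := mul_le_mul_of_nonneg_left (hw.bulk k y hk hy hym) hB
    have h2 := hD.bulk k y hk hy hym
    linear_combination h1 + s * h2
  · intro k hk
    have h1 := mul_le_mul_of_nonneg_left (hw.one k hk) hB
    have h2 := hD.one k hk
    linear_combination h1 + s * h2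
  · intro k hk
    have h1 := mul_le_mul_of_nonneg_left (hw.zero k hk) hB
    have h2 := habs _ _ (hD.zero k hk)
    linear_combination h1 + h2 + hp (L - k)
  · intro k hk
    have h1 := mul_le_mul_of_nonneg_left (hw.top k hk) hB
    have h2 := habs _ _ (hD.top k hk)
    have h3 : ∑ i ∈ Finset.range k, t ^ (i + 1) * (B * p (k - i) m + s * p' (k - i) m) =
        B * ∑ i ∈ Finset.range k, t ^ (i + 1) * p (k - i) m +
          s * ∑ i ∈ Finset.range k, t ^ (i + 1) * p' (k - i) m := by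
      rw [Finset.mul_sum, Finset.mul_sum, ← Finset.sum_add_distrib]
      exact Finset.sum_congr rfl fun i _ => by ring
    rw [h3]
    linear_combination h1 + h2 + hp (L - k)
  · intro y hy hym
    have h1 := mul_le_mul_of_nonneg_left (hw.gbulk y hy hym) hB
    have h2 := hD.gbulk y hy hym
    linear_combination h1 + s * h2
  · have h1 := mul_le_mul_of_nonneg_left hw.gzero hB
    have h2 := habs _ _ hD.gzero
    linear_combination h1 + h2 + hp (L + 1)
  · have h1 := mul_le_mul_of_nonneg_left hw.gtop hB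
    have h2 := habs _ _ hD.gtop
    linear_combination h1 + h2 + hp (L + 1)

private lemma geoSN (ht : 0 < t) (hq : t ^ 2 + 2 * t < 1) (k : ℕ) :
    2 * t * ∑ i ∈ Finset.range k, t ^ (i + 1) * lam t ^ (i + 1) + t ^ k * (chh t - 1) * lam t ^ (k + 1)
      ≤ lam t - t := by
  have ht1 := t_lt_one ht hq
  have hl0 := lam_pos ht ht1
  have hl1 := lam_lt_one ht hq
  have hch : 0 ≤ chh t - 1 := by
    rw [ch_sub_one ht ht1]
    exact mul_nonneg ht.le (shh_pos ht ht1).le
  have h1t : 0 < 1 - t := by linarith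
  have e1 : ∑ i ∈ Finset.range k, t ^ (i + 1) * lam t ^ (i + 1) ≤ ∑ i ∈ Finset.range k, t ^ (i + 1) := by
    refine Finset.sum_le_sum fun i _ => ?_
    have : lam t ^ (i + 1) ≤ 1 := pow_le_one₀ hl0.le hl1.le
    have h2 : 0 ≤ t ^ (i + 1) := by positivity
    nlinarith
  have e2 : (∑ i ∈ Finset.range k, t ^ (i + 1)) * (1 - t) = t * (1 - t ^ k) := by
    clear e1
    induction k with
    | zero => simp
    | succ k ih => rw [Finset.sum_range_succ, add_mul, ih]; ring
  have e3 : ∑ i ∈ Finset.range k, t ^ (i + 1) = t * (1 - t ^ k) / (1 - t) := by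
    rw [eq_div_iff h1t.ne', e2]
  have e4 : t ^ k * (chh t - 1) * lam t ^ (k + 1) ≤ t ^ k * (2 * t ^ 2 / (1 - t)) := by
    have a1 : lam t ^ (k + 1) ≤ 1 := pow_le_one₀ hl0.le hl1.le
    have a2 : 0 ≤ t ^ k * (chh t - 1) := by positivity
    calc t ^ k * (chh t - 1) * lam t ^ (k + 1) ≤ t ^ k * (chh t - 1) * 1 :=
          mul_le_mul_of_nonneg_left a1 a2
      _ ≤ t ^ k * (2 * t ^ 2 / (1 - t)) := by
          rw [mul_one]
          exact mul_le_mul_of_nonneg_left (ch_sub_one_le ht ht1) (by positivity)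
  have e5 : 2 * t * (t * (1 - t ^ k) / (1 - t)) + t ^ k * (2 * t ^ 2 / (1 - t)) = 2 * t ^ 2 / (1 - t) := by
    field_simp
    ring
  have e6 := lam_eq ht1
  have e7 : 2 * t * ∑ i ∈ Finset.range k, t ^ (i + 1) * lam t ^ (i + 1) ≤
      2 * t * (t * (1 - t ^ k) / (1 - t)) := by
    rw [← e3]
    exact mul_le_mul_of_nonneg_left e1 (by positivity)
  linarith

private lemma marSN (ht : 0 < t) (hq : t ^ 2 + 2 * t < 1) (htd : 0 < td) (htt : td < t) :
    ∃ c : ℝ, 0 < c ∧ ∀ m L : ℕ, 2 ≤ m → MarSN t td c m L (wgSN t td L) (wwSN t td L) := by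
  have ht1 := t_lt_one ht hq
  have hl0 := lam_pos ht ht1
  have hl1 := lam_lt_one ht hq
  have hth := the_ge_one ht ht1 htd htt.le
  have hzt := zet_le_the ht ht1 htd htt.le
  have hmu : 0 < mu t td := by
    unfold mu
    have := one_div_lt_one_div_of_lt htd htt
    linarith
  have hsh := shh_pos ht ht1
  have hch0 := chh_pos ht ht1
  have hA : A2 t * lam t = 1 + lam t ^ 2 + 2 * lam t := by
    rw [A2_eq ht ht1]
    field_simp
  have hcs : (chh t - shh t) * lam t = t := by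
    rw [ch_sub_sh' ht ht1]
    field_simp
  have hz := zet_eq (td := td) ht
  have hzd : 1 / td = zet t td / t := by
    unfold zet
    field_simp
  have hthd : the t td = 1 + mu t td * shh t / 2 := rfl
  obtain ⟨θ, hθ⟩ : ∃ θ, the t td = θ := ⟨_, rfl⟩
  obtain ⟨ζ, hζ⟩ : ∃ ζ, zet t td = ζ := ⟨_, rfl⟩
  obtain ⟨μ, hμ⟩ : ∃ μ, mu t td = μ := ⟨_, rfl⟩
  obtain ⟨l, hl⟩ : ∃ l, lam t = l := ⟨_, rfl⟩
  obtain ⟨sh, hsh'⟩ : ∃ sh, shh t = sh := ⟨_, rfl⟩
  obtain ⟨ch, hch'⟩ : ∃ ch, chh t = ch := ⟨_, rfl⟩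
  have hgeo := geoSN ht hq
  have hct := ch_t_gt ht hq
  have hcs1 := ch_sub_sh ht ht1
  simp only [hθ, hζ, hμ, hl, hsh', hch'] at hl0 hl1 hth hzt hmu hsh hch0 hA hcs hz hzd hthd hgeo hct hcs1 ⊢
  have hθ0 : 0 < θ := by linarith
  have hcs2 : ch - sh < 1 := by
    rw [hcs1, div_lt_one (by linarith)]
    linarith
  have hll : l ^ 2 < 1 := by nlinarith
  -- the four margins
  set c1 : ℝ := μ * t * (1 - l ^ 2) / (θ * l) with hc1
  set c2 : ℝ := 1 - l with hc2
  set c3 : ℝ := μ * (ch * t - sh ^ 2 / 2) / (θ * t) with hc3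
  set c4 : ℝ := (1 - (ch - sh)) / (2 * t) with hc4
  have p1 : 0 < c1 := by
    have : 0 < 1 - l ^ 2 := by linarith
    positivity
  have p2 : 0 < c2 := by linarith
  have p3 : 0 < c3 := by
    have : 0 < ch * t - sh ^ 2 / 2 := by linarith
    positivity
  have p4 : 0 < c4 := by
    have : 0 < 1 - (ch - sh) := by linarith
    positivity
  set c : ℝ := min (min c1 c2) (min c3 c4) with hc
  have q1 : c ≤ c1 := (min_le_left _ _).trans (min_le_left _ _)
  have q2 : c ≤ c2 := (min_le_left _ _).trans (min_le_right _ _)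
  have q3 : c ≤ c3 := (min_le_right _ _).trans (min_le_left _ _)
  have q4 : c ≤ c4 := (min_le_right _ _).trans (min_le_right _ _)
  refine ⟨c, lt_min (lt_min p1 p2) (lt_min p3 p4), ?_⟩
  clear_value c
  intro m L hm
  have hq0 : 0 < l ^ (L + 1) / t := by positivity
  have hLL : l ^ (L + 1 - (0 + 1)) = (ch - sh) * (l ^ (L + 1) / t) := by
    have e1 : l ^ (L + 1 - (0 + 1)) = l ^ L := by congr 1
    rw [e1, pow_succ, eq_comm]
    calc (ch - sh) * (l ^ L * l / t) = ((ch - sh) * l) * l ^ L / t := by ring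
      _ = l ^ L := by rw [hcs]; field_simp
  have hd0 : l ^ (L + 1) / θ / td = ζ * (l ^ (L + 1) / t) / θ := by
    calc l ^ (L + 1) / θ / td = l ^ (L + 1) * (1 / td) / θ := by ring
      _ = ζ * (l ^ (L + 1) / t) / θ := by rw [hzd]; ring
  have hpow : ∀ k, k < L → l ^ (L + 1 - (k + 1)) = l ^ (L + 1 - (k + 2)) * l ∧
      l ^ (L + 1 - k) = l ^ (L + 1 - (k + 2)) * l ^ 2 ∧ l ^ (L - k) = l ^ (L + 1 - (k + 2)) * l := by
    intro k hk
    refine ⟨?_, ?_, ?_⟩
    · rw [← pow_succ]; congr 1; omega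
    · rw [← pow_add]; congr 1; omega
    · rw [← pow_succ]; congr 1; omega
  constructor
  all_goals try simp only [hθ, hζ, hμ, hsh', hch', hl, wwSN, wgSN]
  · intro y _
    by_cases hy : y = 0
    · simp only [if_pos hy, Nat.sub_zero]
      field_simp
    · simp only [if_neg hy, Nat.sub_zero]
      field_simp
  · intro k y hk hy hym
    obtain ⟨p1, p2, p3⟩ := hpow k hk
    rw [if_neg (by omega), if_neg (by omega), if_neg (by omega), if_neg (by omega), if_neg (by omega),
      p1, p2]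
    linear_combination (-(l ^ (L + 1 - (k + 2)))) * hA
  · intro k hk
    obtain ⟨p1, p2, p3⟩ := hpow k hk
    rw [if_neg one_ne_zero, if_neg one_ne_zero, if_neg two_ne_zero, if_pos trivial, if_neg one_ne_zero,
      p1, p2]
    have h1 : θ * (l ^ (L + 1 - (k + 2)) * l / θ) = l ^ (L + 1 - (k + 2)) * l := by
      field_simp
    rw [h1]
    linear_combination (-(l ^ (L + 1 - (k + 2)))) * hA
  · intro k hk
    obtain ⟨p1, p2, p3⟩ := hpow k hk
    rw [if_pos trivial, if_pos trivial, if_neg one_ne_zero, if_pos trivial, p1, p2, p3]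
    obtain ⟨Λ, hΛ⟩ : ∃ Λ, l ^ (L + 1 - (k + 2)) = Λ := ⟨_, rfl⟩
    have hΛ0 : 0 < Λ := by rw [← hΛ]; positivity
    rw [hΛ]
    have h1 : c * (Λ * l) ≤ c1 * (Λ * l) := mul_le_mul_of_nonneg_right q1 (by positivity)
    refine le_trans (add_le_add_right h1 _) ?_
    have h2 : c1 * (Λ * l) = Λ * (μ * t * (1 - l ^ 2)) / θ := by
      rw [hc1]
      field_simp
    rw [h2]
    rw [← mul_le_mul_iff_of_pos_right hθ0]
    have h3 : (Λ / θ + ζ * (Λ * l ^ 2 / θ) + 2 * (Λ * l) + Λ * (μ * t * (1 - l ^ 2)) / θ) * θ =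
        Λ + ζ * (Λ * l ^ 2) + 2 * (Λ * l) * θ + Λ * (μ * t * (1 - l ^ 2)) := by
      field_simp
    have h4 : (A2 t + μ * ch) * (Λ * l / θ) * θ = (A2 t + μ * ch) * (Λ * l) := by
      field_simp
    rw [h3, h4]
    apply le_of_eq
    linear_combination (-Λ) * hA + Λ * l ^ 2 * hz + 2 * (Λ * l) * hthd - Λ * μ * hcs
  · intro k hk
    obtain ⟨p1, p2, p3⟩ := hpow k hk
    have hs : ∑ i ∈ Finset.range k, t ^ (i + 1) * (if m = 0 then l ^ (L + 1 - (k - i)) / θ else
        l ^ (L + 1 - (k - i))) =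
        l ^ (L + 1 - (k + 2)) * l * ∑ i ∈ Finset.range k, t ^ (i + 1) * l ^ (i + 1) := by
      rw [Finset.mul_sum]
      refine Finset.sum_congr rfl fun i hi => ?_
      have hi' := Finset.mem_range.mp hi
      have e : l ^ (L + 1 - (k - i)) = l ^ (L + 1 - (k + 2)) * l ^ (i + 2) := by
        rw [← pow_add]; congr 1; omega
      rw [if_neg (by omega), e]
      ring
    have hg : t ^ (k + 1) * (ch - 1) * (l ^ (L + 1) / t) =
        l ^ (L + 1 - (k + 2)) * l * (t ^ k * (ch - 1) * l ^ (k + 1)) := by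
      have e : l ^ (L + 1) = l ^ (L + 1 - (k + 2)) * l ^ (k + 2) := by
        rw [← pow_add]; congr 1; omega
      rw [e]
      field_simp
      ring
    rw [hs, if_neg (by omega), if_neg (by omega), if_neg (by omega), if_neg (by omega), if_neg (by omega),
      hg, p1, p2, p3]
    have h2 : 0 ≤ l ^ (L + 1 - (k + 2)) * l := by positivity
    have h3 := mul_le_mul_of_nonneg_left (hgeo k) h2
    have h4 : c * (l ^ (L + 1 - (k + 2)) * l) ≤ c2 * (l ^ (L + 1 - (k + 2)) * l) :=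
      mul_le_mul_of_nonneg_right q2 h2
    rw [hc2] at h4
    linear_combination h3 + h4 - l ^ (L + 1 - (k + 2)) * hA
  · intro y hy hym
    have h1 : (if y - 1 = 0 then l ^ (L + 1) / θ / td else l ^ (L + 1) / t) ≤ (l ^ (L + 1) / t) := by
      split_ifs
      · rw [hd0, div_le_iff₀ hθ0, mul_comm]
        exact mul_le_mul_of_nonneg_left hzt hq0.le
      · exact le_rfl
    have hy0 : y ≠ 0 := by omega
    rw [if_neg (Nat.succ_ne_zero y), if_neg hy0, if_neg hy0]
    have h2 : l ^ (L + 1 - 1) = (ch - sh) * (l ^ (L + 1) / t) := hLL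
    rw [h2]
    have h3 := mul_le_mul_of_nonneg_left h1 hsh.le
    linear_combination h3 / 2
  · rw [if_neg one_ne_zero, if_pos trivial, if_pos trivial, hd0]
    have h2 : l ^ (L + 1 - 1) = (ch - sh) * (l ^ (L + 1) / t) := hLL
    rw [h2]
    have h1 : c * l ^ (L + 1) ≤ c3 * l ^ (L + 1) := mul_le_mul_of_nonneg_right q3 (by positivity)
    refine le_trans (add_le_add_right h1 _) ?_
    have h5 : c3 * l ^ (L + 1) = μ * (ch * t - sh ^ 2 / 2) * (l ^ (L + 1) / t) / θ := by
      rw [hc3]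
      field_simp
    rw [h5]
    obtain ⟨q, hqq⟩ : ∃ q, l ^ (L + 1) / t = q := ⟨_, rfl⟩
    rw [hqq]
    rw [← mul_le_mul_iff_of_pos_right hθ0]
    have h6 : (sh * q + (ch - sh) * q / θ + μ * (ch * t - sh ^ 2 / 2) * q / θ) * θ =
        sh * q * θ + (ch - sh) * q + μ * (ch * t - sh ^ 2 / 2) * q := by
      field_simp
    have h7 : ch * (ζ * q / θ) * θ = ch * (ζ * q) := by
      field_simp
    rw [h6, h7]
    apply le_of_eq
    linear_combination (-(ch * q)) * hz + sh * q * hthd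
  · rw [if_neg (by omega), if_neg (by omega), if_neg (by omega)]
    have h2 : l ^ (L + 1 - 1) = (ch - sh) * (l ^ (L + 1) / t) := hLL
    rw [h2]
    have h1 : c * l ^ (L + 1) ≤ c4 * l ^ (L + 1) := mul_le_mul_of_nonneg_right q4 (by positivity)
    refine le_trans (add_le_add_right h1 _) ?_
    have h5 : c4 * l ^ (L + 1) = (1 - (ch - sh)) / 2 * (l ^ (L + 1) / t) := by
      rw [hc4]
      field_simp
    rw [h5]
    apply le_of_eq
    ring

end

theorem lev_sin {t td : ℝ} (ht : 0 < t) (hq : t ^ 2 + 2 * t < 1) (htd : 0 < td) (htt : td < t) :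
    ∃ C : ℝ, 0 < C ∧ ∀ m L : ℕ, 2 ≤ m → ∀ (j : ℕ) (θ : ℝ), 0 ≤ θ → θ * m = Real.pi * j →
      (∀ k ≤ L, ∀ y ≤ m, |lev t td m L (fun z => Real.sin (θ * z)) k y -
        Real.sin (θ * y) * (Hh t θ (k + 1) / Hh t θ (L + 1))| ≤ C * θ * lam t ^ (L - k)) ∧
      (∀ y ≤ m, |gsum t td m L (fun z => Real.sin (θ * z)) y - Real.sin (θ * y) / Hh t θ (L + 1)| ≤
        C * θ * lam t ^ (L + 1)) := by
  have ht1 := t_lt_one ht hq
  have hl0 := lam_pos ht ht1
  have hl1 := lam_lt_one ht hq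
  have hsh := shh_pos ht ht1
  have hth := the_ge_one ht ht1 htd htt.le
  have htd1 : td < 1 := htt.trans ht1
  obtain ⟨c, hc, hM⟩ := marSN ht hq htd htt
  set e0 : ℝ := 2 + shh t / t with he0
  have he0p : 0 < e0 := by positivity
  set C0 : ℝ := e0 / c with hC0
  have hC0p : 0 < C0 := by positivity
  refine ⟨C0 + C0 / td, by positivity, ?_⟩
  intro m L hm j θ hθ hθm
  have hsin : ∀ x : ℕ, Real.sin (θ * ((x + 1 : ℕ) : ℝ)) =
      Real.sin (θ * x) * Real.cos θ + Real.cos (θ * x) * Real.sin θ := by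
    intro x
    rw [← Real.sin_add]
    congr 1
    push_cast
    ring
  have hsin' : ∀ x : ℕ, 1 ≤ x → Real.sin (θ * ((x - 1 : ℕ) : ℝ)) =
      Real.sin (θ * x) * Real.cos θ - Real.cos (θ * x) * Real.sin θ := by
    intro x hx
    rw [← Real.sin_sub]
    congr 1
    rw [Nat.cast_sub hx]
    push_cast
    ring
  have hsθ : |Real.sin θ| ≤ θ := by
    have := Real.abs_sin_le_abs (x := θ)
    rwa [abs_of_nonneg hθ] at this
  have hHpos : ∀ k, 0 < Hh t θ k := fun k => (hh_low ht hq θ k).1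
  have hHstep : ∀ k, Hh t θ k ≤ lam t * Hh t θ (k + 1) := by
    intro k
    have h1 := (hh_low ht hq θ k).2
    have h2 : 0 ≤ 1 - Real.cos θ := by linarith [Real.cos_le_one θ]
    have h3 : 1 / lam t * Hh t θ k ≤ Hh t θ (k + 1) := by
      refine le_trans (mul_le_mul_of_nonneg_right ?_ (hHpos k).le) h1
      linarith
    have h4 := mul_le_mul_of_nonneg_left h3 hl0.le
    have h5 : lam t * (1 / lam t * Hh t θ k) = Hh t θ k := by field_simp
    linarith
  have hHpow : ∀ n k, Hh t θ k ≤ lam t ^ n * Hh t θ (k + n) := by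
    intro n
    induction n with
    | zero => intro k; simp
    | succ n ih =>
      intro k
      have h1 := ih k
      have h2 := hHstep (k + n)
      have h3 := mul_le_mul_of_nonneg_left h2 (pow_pos hl0 n).le
      calc Hh t θ k ≤ lam t ^ n * Hh t θ (k + n) := h1
        _ ≤ lam t ^ n * (lam t * Hh t θ (k + n + 1)) := h3
        _ = lam t ^ (n + 1) * Hh t θ (k + (n + 1)) := by rw [pow_succ, add_assoc]; ring
  have hHL := hHpos (L + 1)
  have hρ : ∀ k, k ≤ L → Hh t θ (k + 1) / Hh t θ (L + 1) ≤ lam t ^ (L - k) := by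
    intro k hk
    rw [div_le_iff₀ hHL]
    have h1 := hHpow (L - k) (k + 1)
    rwa [show k + 1 + (L - k) = L + 1 by omega] at h1
  have hρ0 : 1 / Hh t θ (L + 1) ≤ lam t ^ (L + 1) / t := by
    rw [div_le_iff₀ hHL]
    have h1 := hHpow (L + 1) 0
    have h2 : Hh t θ 0 = t := rfl
    rw [h2, zero_add] at h1
    calc (1 : ℝ) = t / t := by field_simp
      _ ≤ lam t ^ (L + 1) * Hh t θ (L + 1) / t := div_le_div_of_nonneg_right h1 ht.le
      _ = lam t ^ (L + 1) / t * Hh t θ (L + 1) := by ring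
  -- the approximate solution
  set E : ℕ → ℝ := fun z => Real.sin (θ * z) with hE
  set ρ : ℕ → ℝ := fun k => Hh t θ k / Hh t θ (L + 1) with hρd
  have hρnn : ∀ k, 0 ≤ ρ k := fun k => div_nonneg (hHpos k).le hHL.le
  have hρrec : ∀ k, ρ (k + 2) + ρ k + 2 * Real.cos θ * ρ (k + 1) = A2 t * ρ (k + 1) := by
    intro k
    have h1 : Hh t θ (k + 2) = (A2 t - 2 * Real.cos θ) * Hh t θ (k + 1) - Hh t θ k := rfl
    simp only [hρd]
    rw [h1]
    field_simp
    ring
  have hρ1 : ρ 1 = (chh t - shh t * Real.cos θ) * (1 / Hh t θ (L + 1)) := by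
    have h1 : Hh t θ 1 = chh t - shh t * Real.cos θ := rfl
    simp only [hρd]
    rw [h1]
    ring
  have hρz : ρ 0 = t * (1 / Hh t θ (L + 1)) := by
    have h1 : Hh t θ 0 = t := rfl
    simp only [hρd]
    rw [h1]
    ring
  have hE0 : E 0 = 0 := by simp [hE]
  have hE1 : E 1 = Real.sin θ := by simp [hE]
  have hEm : E m = 0 := by
    simp only [hE]
    rw [hθm, mul_comm]
    exact Real.sin_nat_mul_pi j
  have hEm1 : |E (m - 1)| ≤ θ := by
    have h1 := hsin' m (by omega)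
    have h2 : Real.sin (θ * (m : ℝ)) = 0 := hEm
    simp only [hE]
    rw [h1, h2, zero_mul, zero_sub, abs_neg, abs_mul]
    calc |Real.cos (θ * (m : ℝ))| * |Real.sin θ| ≤ 1 * θ :=
          mul_le_mul (Real.abs_cos_le_one _) hsθ (abs_nonneg _) zero_le_one
      _ = θ := one_mul _
  have hEs : ∀ y, 1 ≤ y → E (y + 1) + E (y - 1) = 2 * Real.cos θ * E y := by
    intro y hy
    simp only [hE]
    rw [hsin y, hsin' y hy]
    ring
  have hS := lev_sol ht ht1 htd htd1 hm L E
  obtain ⟨G, hG⟩ : ∃ G, gsum t td m L E = G := ⟨_, rfl⟩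
  obtain ⟨P, hP⟩ : ∃ P, plev t td m L E = P := ⟨_, rfl⟩
  rw [hG, hP] at hS
  obtain ⟨h1H, h1Hd⟩ : ∃ r, 1 / Hh t θ (L + 1) = r := ⟨_, rfl⟩
  rw [h1Hd] at hρ1 hρz hρ0
  have h1Hp : 0 ≤ h1H := by rw [← h1Hd]; positivity
  have hρL : ρ (L + 1) = 1 := by
    simp only [hρd]
    exact div_self hHL.ne'
  have hρb : ∀ k, k ≤ L → ρ (k + 1) ≤ lam t ^ (L - k) := hρ
  clear_value ρ E
  have herr : ErrSN t td (e0 * θ) m L (fun y => G y - E y * h1H) (fun k y => P k y - E y * ρ k) := by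
    refine ⟨?_, ?_, ?_, ?_, ?_, ?_, ?_, ?_, ?_⟩
    · intro y hy
      rw [hS.src y hy, hρL]
      ring
    · intro y hy
      rw [hS.lev y hy, hρz]
      split_ifs with h
      · rw [h, hE0]
        ring
      · ring
    · intro k y hk hy hym
      have h1 := hS.bulk k y hk hy hym
      have h2 := hEs y (by omega)
      have h3 := hρrec k
      linear_combination h1 - ρ (k + 1) * h2 - E y * h3
    · intro k hk
      have h1 := hS.one k hk
      have h2 := hEs 1 le_rfl
      have h3 := hρrec k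
      simp only [Nat.sub_self, show 1 + 1 = 2 from rfl] at h2
      rw [hE0] at h2 ⊢
      linear_combination h1 - ρ (k + 1) * h2 - E 1 * h3
    · intro k hk
      have h1 := hS.zero k hk
      have h2 : P (k + 2) 0 - E 0 * ρ (k + 2) + zet t td * (P k 0 - E 0 * ρ k) +
          2 * (P (k + 1) 1 - E 1 * ρ (k + 1)) -
          (A2 t + mu t td * chh t) * (P (k + 1) 0 - E 0 * ρ (k + 1)) = -(2 * (Real.sin θ * ρ (k + 1))) := by
        rw [hE0, hE1]
        linear_combination h1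
      rw [h2, abs_neg, abs_mul, abs_mul, abs_two, abs_of_nonneg (hρnn (k + 1))]
      have h3 := hρb k hk.le
      calc 2 * (|Real.sin θ| * ρ (k + 1)) ≤ 2 * (θ * lam t ^ (L - k)) := by
            have := mul_le_mul hsθ h3 (hρnn _) hθ
            linarith
        _ ≤ e0 * θ * lam t ^ (L - k) := by
            have h4 : 2 ≤ e0 := by
              rw [he0]
              have : 0 < shh t / t := by positivity
              linarith
            have h5 : 0 ≤ θ * lam t ^ (L - k) := by positivity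
            nlinarith
    · intro k hk
      have h1 := hS.top k hk
      have h2 : P (k + 2) m - E m * ρ (k + 2) + (P k m - E m * ρ k) +
          (P (k + 1) (m - 1) - E (m - 1) * ρ (k + 1)) +
          2 * t * (∑ i ∈ Finset.range k, t ^ (i + 1) * (P (k - i) m - E m * ρ (k - i))) +
          t ^ (k + 1) * (chh t - 1) * (G m - E m * h1H) -
          (A2 t - t) * (P (k + 1) m - E m * ρ (k + 1)) = -(E (m - 1) * ρ (k + 1)) := by
        simp only [hEm, zero_mul, sub_zero]
        linear_combination h1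
      rw [h2, abs_neg, abs_mul, abs_of_nonneg (hρnn (k + 1))]
      have h3 := hρb k hk.le
      calc |E (m - 1)| * ρ (k + 1) ≤ θ * lam t ^ (L - k) := mul_le_mul hEm1 h3 (hρnn _) hθ
        _ ≤ e0 * θ * lam t ^ (L - k) := by
            have h4 : 1 ≤ e0 := by
              rw [he0]
              have : 0 < shh t / t := by positivity
              linarith
            have h5 : 0 ≤ θ * lam t ^ (L - k) := by positivity
            nlinarith
    · intro y hy hym
      have h1 := hS.gbulk y hy hym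
      have h2 := hEs y hy
      linear_combination h1 - shh t / 2 * h1H * h2 - E y * hρ1
    · have h1 := hS.gzero
      have h2 : shh t * (G 1 - E 1 * h1H) + (P 1 0 - E 0 * ρ 1) - chh t * (G 0 - E 0 * h1H) =
          -(shh t * (Real.sin θ * h1H)) := by
        rw [hE0, hE1]
        linear_combination h1
      rw [h2, abs_neg, abs_mul, abs_mul, abs_of_pos hsh, abs_of_nonneg h1Hp]
      have h3 := mul_le_mul hsθ hρ0 h1Hp hθ
      calc shh t * (|Real.sin θ| * h1H) ≤ shh t * (θ * (lam t ^ (L + 1) / t)) :=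
            mul_le_mul_of_nonneg_left h3 hsh.le
        _ = shh t / t * (θ * lam t ^ (L + 1)) := by ring
        _ ≤ e0 * θ * lam t ^ (L + 1) := by
            rw [he0]
            have h5 : 0 ≤ θ * lam t ^ (L + 1) := by positivity
            linear_combination 2 * h5
    · have h1 := hS.gtop
      have h2 : shh t / 2 * (G (m - 1) - E (m - 1) * h1H) + (P 1 m - E m * ρ 1) -
          (1 + chh t) / 2 * (G m - E m * h1H) = -(shh t / 2 * (E (m - 1) * h1H)) := by
        rw [hEm]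
        linear_combination h1
      rw [h2, abs_neg, abs_mul, abs_mul, abs_of_pos (half_pos hsh), abs_of_nonneg h1Hp]
      have h3 := mul_le_mul hEm1 hρ0 h1Hp hθ
      calc shh t / 2 * (|E (m - 1)| * h1H) ≤ shh t / 2 * (θ * (lam t ^ (L + 1) / t)) :=
            mul_le_mul_of_nonneg_left h3 (half_pos hsh).le
        _ = shh t / t / 2 * (θ * lam t ^ (L + 1)) := by ring
        _ ≤ e0 * θ * lam t ^ (L + 1) := by
            rw [he0]
            have h5 : 0 ≤ θ * lam t ^ (L + 1) := by positivity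
            have h6 : 0 ≤ shh t / t * (θ * lam t ^ (L + 1)) := by positivity
            linear_combination 2 * h5 + h6 / 2
  have hB0 : 0 ≤ C0 * θ := by positivity
  have hBc : e0 * θ ≤ C0 * θ * c := by
    rw [hC0]
    apply le_of_eq
    field_simp
  have hwL : ∀ y, 0 ≤ wwSN t td L (L + 1) y := by
    intro y
    unfold wwSN
    have : 0 < the t td := by linarith
    split_ifs <;> positivity
  have hsup : ∀ s : ℝ, (s = 1 ∨ s = -1) →
      (∀ k ≤ L + 1, ∀ y ≤ m, 0 ≤ C0 * θ * wwSN t td L k y + s * (P k y - E y * ρ k)) ∧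
      ∀ y ≤ m, 0 ≤ C0 * θ * wgSN t td L y + s * (G y - E y * h1H) := by
    intro s hs
    have h1 := combSN ht hq (hM m L hm) herr hs hB0 hBc
    refine sup_all ht hq htd htt.le hm h1 ?_
    intro y hy
    have h2 := herr.src y hy
    rw [h2, mul_zero, add_zero]
    exact mul_nonneg hB0 (hwL y)
  obtain ⟨a1, a2⟩ := hsup 1 (Or.inl rfl)
  obtain ⟨b1, b2⟩ := hsup (-1) (Or.inr rfl)
  have hww : ∀ k y, wwSN t td L (k + 1) y ≤ lam t ^ (L - k) := by
    intro k y
    unfold wwSN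
    have e1 : L + 1 - (k + 1) = L - k := by omega
    rw [e1]
    split_ifs
    · exact div_le_self (by positivity) hth
    · exact le_rfl
  have hwg : ∀ y, wgSN t td L y ≤ lam t ^ (L + 1) / td := by
    intro y
    unfold wgSN
    split_ifs
    · exact div_le_div_of_nonneg_right (div_le_self (by positivity) hth) htd.le
    · exact div_le_div_of_nonneg_left (by positivity) htd htt.le
  constructor
  · intro k hk y hy
    have h1 := a1 (k + 1) (by omega) y hy
    have h2 := b1 (k + 1) (by omega) y hy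
    have h3 : lev t td m L E k y = P (k + 1) y := by rw [← hP]; rfl
    have h4 := mul_le_mul_of_nonneg_left (hww k y) hB0
    have h5 : 0 ≤ C0 / td * θ * lam t ^ (L - k) := by positivity
    have h7 : Real.sin (θ * (y : ℝ)) = E y := by rw [hE]
    have h8 : Hh t θ (k + 1) / Hh t θ (L + 1) = ρ (k + 1) := by rw [hρd]
    rw [h3, h7, h8, abs_le]
    constructor
    · linear_combination h1 + h4 + h5
    · linear_combination h2 + h4 + h5
  · intro y hy
    have h7 : Real.sin (θ * (y : ℝ)) = E y := by rw [hE]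
    have h1 := a2 y hy
    have h2 := b2 y hy
    have h4 := mul_le_mul_of_nonneg_left (hwg y) hB0
    have h5 : 0 ≤ C0 * θ * lam t ^ (L + 1) := by positivity
    have h6 : E y / Hh t θ (L + 1) = E y * h1H := by rw [← h1Hd]; ring
    rw [hG, h7, h6, abs_le]
    constructor
    · linear_combination h1 + h4 + h5
    · linear_combination h2 + h4 + h5

end Pool.Agent.Helper49.RD
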