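import Pool.Agent.Helper49.RD.Gam
import Pool.Agent.Helper49.RD.LevUp
import Pool.Agent.Helper49.RD.LevB
import Pool.Agent.Helper49.RD.Sin
import Pool.Agent.Helper49.RD.HhA

/-!
Block RD-EL: the boundary functional `gsum t td m l f 0` on simple functions.

Paper proofs. `ℓ_l (f) = gsum t td m l f 0 = ∑ v, f (ds v) * gsum l e0 (ds v)` (`gsum_pai`), monotone in `f` (`gsum_mono` is part of `lev_mono`), linear (`gsum_lin`).
* `ell_lin`: `z ≤ sinh (ε z)/ε` with `ε = min (ε₀, (l + 1)^(-1/2))`: `ell_sinh`: `≤ C (λ e^{K ε²})^l ≤ C e^K λ^l`.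
* `ell_cube`: `z³ ≤ 6 sinh (ε z)/ε³`, the same `ε`: `ε^(-2) ≤ (l + 1)/ε₀²`.
* `ell_tail`: `1_{A ≤ z} ≤ sinh (ε z)/sinh (ε A)` for `A > 0`.
* `ell_one`: with `a = √(l + 1)`: `1 ≤ 1_{z ≤ a} + z/a`; `ℓ_l (1_{z ≤ a}) ≤ ∑_{v : ds v ≤ a} C (1 + ds v) λ^l (l + 1)^(-3/2) ≤ C' (1 + a)² λ^l (l + 1)^(-3/2)` (`lev_up`; at most two rows with a given `ds`).
* `ell_low`: `gam_low`, and `gsum L e0 0 = gsum l (lev L e0 l) 0` (`gsum_comp`), `lev L e0 l z ≤ C (1 + z) λ^(L-l) (L - l)^(-3/2)` (`lev_up`), `L = 2 n + 1`, `L - l ≥ n + 1`.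
-/

open Finset Filter

namespace Pool.Agent.Helper49.RD

open Pool.Agent.Helper49.DL Pool.Agent.Helper49.DX

private lemma t_lt65 {t : ℝ} (ht : 0 < t) (hq : t ^ 2 + 2 * t < 1) : t < 1 := by nlinarith

private lemma cube65 {x : ℝ} (hx : 0 ≤ x) : x ^ 3 ≤ 12 * Real.sinh x := by
  have h1 := Real.sum_le_exp_of_nonneg hx 4
  have h2 : Real.exp (-x) ≤ 1 := Real.exp_le_one_iff.2 (by linarith)
  have h3 : ∑ i ∈ range 4, x ^ i / (Nat.factorial i : ℝ) = 1 + x + x ^ 2 / 2 + x ^ 3 / 6 := by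
    simp only [Finset.sum_range_succ, Finset.sum_range_zero, Nat.factorial]
    push_cast
    ring
  rw [h3] at h1
  rw [Real.sinh_eq]
  nlinarith [pow_nonneg hx 2]

private lemma card65 (m b : ℕ) :
    ((Finset.univ : Finset (Fin (2 * m + 1))).filter fun v => ds m v ≤ b).card ≤ 2 * b + 1 := by
  have h1 : (((Finset.univ : Finset (Fin (2 * m + 1))).filter fun v => ds m v ≤ b).map
      Fin.valEmbedding) ⊆ Finset.Icc (m - b) (m + b) := by
    intro x hx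
    rw [Finset.mem_map] at hx
    obtain ⟨v, hv, rfl⟩ := hx
    rw [Finset.mem_filter] at hv
    have hv2 := hv.2
    unfold ds at hv2
    rw [Finset.mem_Icc, Fin.valEmbedding_apply]
    omega
  have h2 := Finset.card_le_card h1
  rw [Finset.card_map, Nat.card_Icc] at h2
  omega

private lemma pw65 {lm K e0' : ℝ} (hl : 0 < lm) (hK : 0 < K) {l : ℕ} :
    (lm * Real.exp (K * (e0' / Real.sqrt ((l : ℝ) + 1)) ^ 2)) ^ l ≤ Real.exp (K * e0' ^ 2) * lm ^ l := by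
  rw [mul_pow, ← Real.exp_nat_mul, mul_comm]
  refine mul_le_mul_of_nonneg_right (Real.exp_le_exp.2 ?_) (pow_pos hl l).le
  have h1 : (0 : ℝ) ≤ (l : ℝ) := Nat.cast_nonneg l
  have h2 : (0 : ℝ) < (l : ℝ) + 1 := by linarith
  rw [div_pow, Real.sq_sqrt h2.le]
  have h3 : (l : ℝ) * (K * (e0' ^ 2 / ((l : ℝ) + 1))) = K * e0' ^ 2 * ((l : ℝ) / ((l : ℝ) + 1)) := by
    field_simp
  rw [h3]
  have h4 : (l : ℝ) / ((l : ℝ) + 1) ≤ 1 := by
    rw [div_le_one h2]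
    linarith
  have h5 : 0 ≤ K * e0' ^ 2 := by positivity
  nlinarith

private lemma eps65 {e : ℝ} (he : 0 < e) (l : ℕ) :
    0 < e / Real.sqrt ((l : ℝ) + 1) ∧ e / Real.sqrt ((l : ℝ) + 1) ≤ e := by
  have h1 : (0 : ℝ) ≤ (l : ℝ) := Nat.cast_nonneg l
  have h2 : (1 : ℝ) ≤ Real.sqrt ((l : ℝ) + 1) := by
    rw [Real.one_le_sqrt]
    linarith
  exact ⟨by positivity, div_le_self he.le h2⟩

private lemma use65 {t td : ℝ} (ht : 0 < t) (hq : t ^ 2 + 2 * t < 1) (htd : 0 < td) (htt : td < t)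
    {m l : ℕ} (hm : 2 ≤ m) {E : ℕ → ℝ} {c ε B : ℝ} (hc : 0 ≤ c)
    (h : ∀ y ≤ m, E y ≤ c * Real.sinh (ε * y))
    (hB : gsum t td m l (fun z => Real.sinh (ε * z)) 0 ≤ B) : gsum t td m l E 0 ≤ c * B := by
  have h1 := (lev_mono (L := l) (E := E) (F := fun z => c * Real.sinh (ε * z) + 0 * 0) ht hq htd htt.le hm
    (fun y hy => by
      have := h y hy
      simpa using this)).2 0 (Nat.zero_le m)
  rw [gsum_lin t td m l c 0 (fun z => Real.sinh (ε * z)) (fun _ => 0) 0] at h1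
  have h2 := mul_le_mul_of_nonneg_left hB hc
  linarith

section

variable {t td : ℝ} (ht : 0 < t) (hq : t ^ 2 + 2 * t < 1) (htd : 0 < td) (htt : td < t)

include ht hq htd htt

theorem ell_lin : ∃ C : ℝ, 0 < C ∧ ∀ m l : ℕ, 2 ≤ m → gsum t td m l (fun z => (z : ℝ)) 0 ≤ C * lam t ^ l := by
  obtain ⟨C, K, ε₀, hC, hK, hε, hε1, H⟩ := ell_sinh ht hq htd htt
  have hl := lam_pos ht (t_lt65 ht hq)
  refine ⟨C * Real.exp (K * ε₀ ^ 2), by positivity, fun m l hm => ?_⟩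
  obtain ⟨h0, h1⟩ := eps65 hε l
  have h2 := H _ h0 h1 m hm l
  have h3 := pw65 (lm := lam t) (e0' := ε₀) hl hK (l := l)
  set e := ε₀ / Real.sqrt ((l : ℝ) + 1) with he
  have h4 := use65 ht hq htd htt hm (c := 1 / e) (E := fun z => (z : ℝ)) (by positivity) (fun y _ => by
    have h5 : e * y ≤ Real.sinh (e * y) := Real.self_le_sinh_iff.2 (by positivity)
    have h6 : (y : ℝ) = 1 / e * (e * y) := by field_simp
    calc (y : ℝ) = 1 / e * (e * y) := h6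
      _ ≤ 1 / e * Real.sinh (e * y) := mul_le_mul_of_nonneg_left h5 (by positivity)) h2
  refine h4.trans ?_
  have h7 : 1 / e * (C * e * (lam t * Real.exp (K * e ^ 2)) ^ l) = C * (lam t * Real.exp (K * e ^ 2)) ^ l := by
    field_simp
  rw [h7, mul_assoc]
  exact mul_le_mul_of_nonneg_left h3 hC.le

theorem ell_cube : ∃ C : ℝ, 0 < C ∧ ∀ m l : ℕ, 2 ≤ m →
    gsum t td m l (fun z => (z : ℝ) ^ 3) 0 ≤ C * (l + 1) * lam t ^ l := by
  obtain ⟨C, K, ε₀, hC, hK, hε, hε1, H⟩ := ell_sinh ht hq htd htt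
  have hl := lam_pos ht (t_lt65 ht hq)
  refine ⟨12 * C * Real.exp (K * ε₀ ^ 2) / ε₀ ^ 2, by positivity, fun m l hm => ?_⟩
  obtain ⟨h0, h1⟩ := eps65 hε l
  have h2 := H _ h0 h1 m hm l
  have h3 := pw65 (lm := lam t) (e0' := ε₀) hl hK (l := l)
  have hl1 : (0 : ℝ) < (l : ℝ) + 1 := by positivity
  have h8 : (ε₀ / Real.sqrt ((l : ℝ) + 1)) ^ 2 = ε₀ ^ 2 / ((l : ℝ) + 1) := by
    rw [div_pow, Real.sq_sqrt hl1.le]
  set e := ε₀ / Real.sqrt ((l : ℝ) + 1) with he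
  have h4 := use65 ht hq htd htt hm (c := 12 / e ^ 3) (E := fun z => (z : ℝ) ^ 3) (by positivity) (fun y _ => by
    have h5 : (e * y) ^ 3 ≤ 12 * Real.sinh (e * y) := cube65 (by positivity)
    have h6 : (y : ℝ) ^ 3 = 1 / e ^ 3 * (e * y) ^ 3 := by field_simp
    calc (y : ℝ) ^ 3 = 1 / e ^ 3 * (e * y) ^ 3 := h6
      _ ≤ 1 / e ^ 3 * (12 * Real.sinh (e * y)) := mul_le_mul_of_nonneg_left h5 (by positivity)
      _ = 12 / e ^ 3 * Real.sinh (e * y) := by ring) h2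
  refine h4.trans ?_
  have h7 : 12 / e ^ 3 * (C * e * (lam t * Real.exp (K * e ^ 2)) ^ l) =
      12 * C / e ^ 2 * (lam t * Real.exp (K * e ^ 2)) ^ l := by
    field_simp
  rw [h7]
  refine (mul_le_mul_of_nonneg_left h3 (by positivity)).trans (le_of_eq ?_)
  rw [h8]
  field_simp

theorem ell_tail : ∃ C K ε₀ : ℝ, 0 < C ∧ 0 < K ∧ 0 < ε₀ ∧ ε₀ ≤ 1 ∧ ∀ ε : ℝ, 0 < ε → ε ≤ ε₀ → ∀ A : ℝ, 0 < A →
    ∀ m l : ℕ, 2 ≤ m → gsum t td m l (fun z => if A ≤ z then 1 else 0) 0 ≤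
      C * ε * (lam t * Real.exp (K * ε ^ 2)) ^ l / Real.sinh (ε * A) := by
  obtain ⟨C, K, ε₀, hC, hK, hε, hε1, H⟩ := ell_sinh ht hq htd htt
  refine ⟨C, K, ε₀, hC, hK, hε, hε1, fun e he hee A hA m l hm => ?_⟩
  have h2 := H e he hee m hm l
  have hs : 0 < Real.sinh (e * A) := Real.sinh_pos_iff.2 (by positivity)
  have h4 := use65 ht hq htd htt hm (c := 1 / Real.sinh (e * A))
    (E := fun z => if A ≤ (z : ℝ) then 1 else 0) (by positivity) (fun y _ => by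
      have h9 : 0 ≤ Real.sinh (e * y) := Real.sinh_nonneg_iff.2 (by positivity)
      by_cases hy : A ≤ (y : ℝ)
      · rw [if_pos hy]
        have h5 : Real.sinh (e * A) ≤ Real.sinh (e * y) :=
          Real.sinh_le_sinh.2 (mul_le_mul_of_nonneg_left hy he.le)
        calc (1 : ℝ) = 1 / Real.sinh (e * A) * Real.sinh (e * A) := by field_simp
          _ ≤ 1 / Real.sinh (e * A) * Real.sinh (e * y) := mul_le_mul_of_nonneg_left h5 (by positivity)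
      · rw [if_neg hy]
        positivity) h2
  refine h4.trans (le_of_eq ?_)
  ring

theorem ell_one : ∃ C : ℝ, 0 < C ∧ ∀ m l : ℕ, 2 ≤ m →
    gsum t td m l (fun _ => 1) 0 ≤ C * lam t ^ l / Real.sqrt (l + 1) := by
  obtain ⟨C1, hC1, H1⟩ := ell_lin ht hq htd htt
  obtain ⟨C2, hC2, H2⟩ := lev_up ht hq htd htt
  have hl := lam_pos ht (t_lt65 ht hq)
  refine ⟨6 * C2 + C1, by positivity, fun m l hm => ?_⟩
  have hl1 : (0 : ℝ) < (l : ℝ) + 1 := by positivity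
  have hl0 : (0 : ℝ) ≤ (l : ℝ) := Nat.cast_nonneg l
  have ha1 : (1 : ℝ) ≤ Real.sqrt ((l : ℝ) + 1) := by
    rw [Real.one_le_sqrt]
    linarith
  have ha2 : Real.sqrt ((l : ℝ) + 1) * Real.sqrt ((l : ℝ) + 1) = (l : ℝ) + 1 := Real.mul_self_sqrt hl1.le
  have ha3 : ((l + 1 : ℕ) : ℝ) ^ (3 / 2 : ℝ) = ((l : ℝ) + 1) * Real.sqrt ((l : ℝ) + 1) := by
    rw [Real.sqrt_eq_rpow]
    push_cast
    nth_rewrite 2 [← Real.rpow_one ((l : ℝ) + 1)]
    rw [← Real.rpow_add hl1]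
    norm_num
  set a := Real.sqrt ((l : ℝ) + 1) with ha
  have ha0 : 0 < a := by linarith
  -- the first part
  have hA : gsum t td m l (fun z => if (z : ℝ) ≤ a then (1 : ℝ) else 0) 0 ≤ 6 * C2 * lam t ^ l / a := by
    rw [gsum_pai]
    unfold pai
    have hb : ∀ v : Fin (2 * m + 1), (if ((ds m v : ℕ) : ℝ) ≤ a then (1 : ℝ) else 0) * gsum t td m l e0 (ds m v) ≤
        (if ds m v ≤ ⌊a⌋₊ then (1 : ℝ) else 0) * (C2 * (2 * a) * lam t ^ l / (((l : ℝ) + 1) * a)) := by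
      intro v
      by_cases hv : ((ds m v : ℕ) : ℝ) ≤ a
      · rw [if_pos hv, if_pos (Nat.le_floor hv), one_mul, one_mul]
        refine ((H2 m l hm).2 _ (ds_le m v)).trans ?_
        rw [ha3]
        refine div_le_div_of_nonneg_right ?_ (by positivity)
        refine mul_le_mul_of_nonneg_right ?_ (pow_pos hl l).le
        refine mul_le_mul_of_nonneg_left ?_ hC2.le
        linarith
      · rw [if_neg hv, zero_mul]
        have : 0 ≤ (if ds m v ≤ ⌊a⌋₊ then (1 : ℝ) else 0) := by split_ifs <;> norm_num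
        have := pow_pos hl l
        positivity
    refine (Finset.sum_le_sum fun v _ => hb v).trans ?_
    rw [← Finset.sum_mul, Finset.sum_boole]
    have hc := card65 m ⌊a⌋₊
    have hf := Nat.floor_le ha0.le
    have hcr : ((((Finset.univ : Finset (Fin (2 * m + 1))).filter fun v => ds m v ≤ ⌊a⌋₊).card : ℕ) : ℝ) ≤ 3 * a := by
      have hc' : ((((Finset.univ : Finset (Fin (2 * m + 1))).filter fun v => ds m v ≤ ⌊a⌋₊).card : ℕ) : ℝ) ≤
          2 * (⌊a⌋₊ : ℝ) + 1 := by exact_mod_cast hc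
      linarith
    refine (mul_le_mul_of_nonneg_right hcr (by
      have := pow_pos hl l
      positivity)).trans (le_of_eq ?_)
    rw [← ha2]
    field_simp
    ring
  have hB := H1 m l hm
  have hM := (lev_mono (L := l) (E := fun _ => (1 : ℝ))
    (F := fun z => 1 * (if (z : ℝ) ≤ a then (1 : ℝ) else 0) + 1 / a * (z : ℝ)) ht hq htd htt.le hm
    (fun y _ => by
      have hy0 : (0 : ℝ) ≤ (y : ℝ) := Nat.cast_nonneg y
      by_cases hy : (y : ℝ) ≤ a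
      · rw [if_pos hy]
        have : 0 ≤ 1 / a * (y : ℝ) := by positivity
        linarith
      · rw [if_neg hy]
        have h5 : 1 ≤ 1 / a * (y : ℝ) := by
          rw [one_div_mul_eq_div, le_div_iff₀ ha0]
          linarith [not_le.1 hy]
        linarith)).2 0 (Nat.zero_le m)
  rw [gsum_lin t td m l 1 (1 / a) (fun z => if (z : ℝ) ≤ a then (1 : ℝ) else 0) (fun z => (z : ℝ)) 0] at hM
  have hB2 := mul_le_mul_of_nonneg_left hB (show 0 ≤ 1 / a by positivity)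
  have e1 : (6 * C2 + C1) * lam t ^ l / a = 1 * (6 * C2 * lam t ^ l / a) + 1 / a * (C1 * lam t ^ l) := by
    field_simp
  rw [e1]
  linarith

theorem ell_low : ∃ (c : ℝ) (n₀ : ℕ), 0 < c ∧ ∀ n : ℕ, n₀ ≤ n → ∀ l ≤ n,
    c * lam t ^ l ≤ gsum t td n l (fun z => 1 + (z : ℝ)) 0 := by
  obtain ⟨c0, n₀, hc0, H0⟩ := gam_low ht hq htd htt
  obtain ⟨C2, hC2, H2⟩ := lev_up ht hq htd htt
  have hl := lam_pos ht (t_lt65 ht hq)
  refine ⟨c0 / (4 * C2), max n₀ 2, by positivity, fun n hn l hln => ?_⟩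
  have hn1 : n₀ ≤ n := (le_max_left _ _).trans hn
  have hn2 : 2 ≤ n := (le_max_right _ _).trans hn
  have h1 := H0 n hn1
  have hlL : l ≤ 2 * n + 1 := by omega
  have hlL' : l < 2 * n + 1 := by omega
  rw [gsum_comp (E := e0) ht hq htd htt.le hn2 hlL 0] at h1
  obtain ⟨L, hL⟩ : ∃ L, L = 2 * n + 1 := ⟨_, rfl⟩
  rw [← hL] at h1 hlL hlL'
  obtain ⟨r, hr⟩ : ∃ r, r = L - l := ⟨_, rfl⟩
  have hr1 : 1 ≤ r := by omega
  have hrL : L ≤ 2 * r := by omega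
  have hLlr : L = l + r := by omega
  have hrp : (0 : ℝ) < (r : ℝ) := by exact_mod_cast hr1
  have hLp : (0 : ℝ) < (L : ℝ) := by exact_mod_cast (by omega : 0 < L)
  have hR : (0 : ℝ) < (r : ℝ) ^ (3 / 2 : ℝ) := Real.rpow_pos_of_pos hrp _
  have hLR : (0 : ℝ) < (L : ℝ) ^ (3 / 2 : ℝ) := Real.rpow_pos_of_pos hLp _
  have hD : (L : ℝ) ^ (3 / 2 : ℝ) ≤ 4 * (r : ℝ) ^ (3 / 2 : ℝ) := by
    have h2 : (L : ℝ) ≤ 2 * (r : ℝ) := by exact_mod_cast hrL
    have h3 : (L : ℝ) ^ (3 / 2 : ℝ) ≤ (2 * (r : ℝ)) ^ (3 / 2 : ℝ) :=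
      Real.rpow_le_rpow hLp.le h2 (by norm_num)
    rw [Real.mul_rpow (by norm_num) hrp.le] at h3
    have h4 : (2 : ℝ) ^ (3 / 2 : ℝ) ≤ 4 := by
      have h5 : (2 : ℝ) ^ (3 / 2 : ℝ) ≤ (2 : ℝ) ^ (2 : ℝ) :=
        Real.rpow_le_rpow_of_exponent_le (by norm_num) (by norm_num)
      have h6 : (2 : ℝ) ^ (2 : ℝ) = 4 := by
        rw [show (2 : ℝ) = ((2 : ℕ) : ℝ) by norm_num, Real.rpow_natCast]
        norm_num
      linarith
    exact h3.trans (mul_le_mul_of_nonneg_right h4 hR.le)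
  have hM := (lev_mono (L := l) (E := lev t td n L e0 l)
    (F := fun z => C2 * lam t ^ r / (r : ℝ) ^ (3 / 2 : ℝ) * (1 + (z : ℝ)) + 0 * 0) ht hq htd htt.le hn2
    (fun y hy => by
      have h5 := (H2 n L hn2).1 l hlL' y hy
      rw [← hr] at h5
      refine h5.trans (le_of_eq ?_)
      ring)).2 0 (Nat.zero_le n)
  rw [gsum_lin t td n l (C2 * lam t ^ r / (r : ℝ) ^ (3 / 2 : ℝ)) 0 (fun z => 1 + (z : ℝ)) (fun _ => 0) 0] at hM
  set G := gsum t td n l (fun z => 1 + (z : ℝ)) 0 with hG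
  have hrw : 0 < lam t ^ r := pow_pos hl r
  have hlw : 0 < lam t ^ l := pow_pos hl l
  have h6 : c0 * lam t ^ L / (L : ℝ) ^ (3 / 2 : ℝ) ≤ C2 * lam t ^ r / (r : ℝ) ^ (3 / 2 : ℝ) * G := by linarith
  have h7 : c0 * lam t ^ L / (4 * (r : ℝ) ^ (3 / 2 : ℝ)) ≤ c0 * lam t ^ L / (L : ℝ) ^ (3 / 2 : ℝ) :=
    div_le_div_of_nonneg_left (by positivity) hLR hD
  have h8 := h7.trans h6
  have e1 : c0 * lam t ^ L / (4 * (r : ℝ) ^ (3 / 2 : ℝ)) =
      C2 * lam t ^ r / (r : ℝ) ^ (3 / 2 : ℝ) * (c0 / (4 * C2) * lam t ^ l) := by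
    rw [hLlr, pow_add]
    field_simp
  rw [e1] at h8
  exact le_of_mul_le_mul_left h8 (by positivity)

end

end Pool.Agent.Helper49.RD
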