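import Pool.Agent.Helper49.RD.HkDef

/-!
Block RD-TG: approximation of a function vanishing at `0` and at infinity by a sine polynomial (pure analysis).

Proof. Choose `A ≥ A₀`, `A ≥ 2` with `|f z| ≤ δ/2` for `z ≥ A - 1`. On `[0, A]` let `f₁ = f * w`, `w = 1` on `[0, A - 1]`, linear to `0` at `A`, `f₁ 0 = f₁ A = 0`, `|f₁| ≤ B`. The odd `2 A`-periodic
continuation of `f₁` is continuous; the density of the trigonometric polynomials gives a trigonometric polynomial at distance at most `δ/2`, and its odd part is a sine polynomial.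
-/

open Finset Filter

namespace Pool.Agent.Helper49.RD

private theorem sin_span_h5 {A : ℝ} (hA : 0 < A) [Fact (0 < 2 * A)]
    (p : C(AddCircle (2 * A), ℂ)) (hp : p ∈ Submodule.span ℂ (Set.range (@fourier (2 * A)))) :
    ∃ (K : ℕ) (c : ℕ → ℂ), ∀ y : ℝ, (p (y : AddCircle (2 * A)) - p ((-y : ℝ) : AddCircle (2 * A))) / 2
      = ∑ j ∈ range K, c j * ((Real.sin (j * (Real.pi / A) * y) : ℝ) : ℂ) := by
  have hA0 : (A : ℂ) ≠ 0 := by exact_mod_cast hA.ne'
  induction hp using Submodule.span_induction with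
  | mem p hp =>
    obtain ⟨n, rfl⟩ := hp
    have key : ∀ y : ℝ, ((fourier n (y : AddCircle (2 * A)) : ℂ) -
        fourier n ((-y : ℝ) : AddCircle (2 * A))) / 2
        = Complex.I * ((Real.sin (n * (Real.pi / A) * y) : ℝ) : ℂ) := by
      intro y
      rw [fourier_coe_apply, fourier_coe_apply]
      have e1 : (2 * Real.pi * Complex.I * n * (y : ℂ) / ((2 * A : ℝ) : ℂ) : ℂ)
          = ((n * (Real.pi / A) * y : ℝ) : ℂ) * Complex.I := by
        push_cast; field_simp
      have e2 : (2 * Real.pi * Complex.I * n * ((-y : ℝ) : ℂ) / ((2 * A : ℝ) : ℂ) : ℂ)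
          = -((n * (Real.pi / A) * y : ℝ) : ℂ) * Complex.I := by
        push_cast; field_simp
      rw [e1, e2, Complex.exp_mul_I, Complex.exp_mul_I, Complex.cos_neg, Complex.sin_neg,
        Complex.ofReal_sin]
      ring
    rcases Int.eq_nat_or_neg n with ⟨m, rfl | rfl⟩
    · refine ⟨m + 1, fun j => if j = m then Complex.I else 0, fun y => ?_⟩
      rw [key y, Finset.sum_eq_single m]
      · simp
      · intro j _ hj; simp [hj]
      · intro h; exact absurd (Finset.mem_range.mpr (Nat.lt_succ_self m)) h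
    · refine ⟨m + 1, fun j => if j = m then -Complex.I else 0, fun y => ?_⟩
      rw [key y, Finset.sum_eq_single m]
      · have e3 : (((-(m : ℤ) : ℤ) : ℝ) * (Real.pi / A) * y) = -((m : ℝ) * (Real.pi / A) * y) := by
          push_cast; ring
        rw [e3, Real.sin_neg]
        simp only [if_true]
        push_cast
        ring
      · intro j _ hj; simp [hj]
      · intro h; exact absurd (Finset.mem_range.mpr (Nat.lt_succ_self m)) h
  | zero => exact ⟨0, fun _ => 0, fun y => by simp⟩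
  | add p q _ _ hp hq =>
    obtain ⟨K, c, hc⟩ := hp
    obtain ⟨L, d, hd⟩ := hq
    refine ⟨K + L, fun j => (if j < K then c j else 0) + (if j < L then d j else 0), fun y => ?_⟩
    have h1 : ∀ (N M : ℕ) (a : ℕ → ℂ) (s : ℕ → ℂ), N ≤ M →
        ∑ j ∈ range N, a j * s j = ∑ j ∈ range M, (if j < N then a j else 0) * s j := by
      intro N M a s hNM
      rw [← Finset.sum_subset (Finset.range_subset_range.mpr hNM)]
      · refine Finset.sum_congr rfl fun j hj => ?_
        rw [if_pos (Finset.mem_range.mp hj)]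
      · intro j _ hj
        rw [if_neg (fun h => hj (Finset.mem_range.mpr h)), zero_mul]
    have h2 : ((p + q) (y : AddCircle (2 * A)) - (p + q) ((-y : ℝ) : AddCircle (2 * A))) / 2
        = (p (y : AddCircle (2 * A)) - p ((-y : ℝ) : AddCircle (2 * A))) / 2
          + (q (y : AddCircle (2 * A)) - q ((-y : ℝ) : AddCircle (2 * A))) / 2 := by
      simp only [ContinuousMap.add_apply]
      ring
    rw [h2, hc y, hd y, h1 K (K + L) c _ (Nat.le_add_right K L), h1 L (K + L) d _ (Nat.le_add_left L K),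
      ← Finset.sum_add_distrib]
    refine Finset.sum_congr rfl fun j _ => ?_
    ring
  | smul a p _ hp =>
    obtain ⟨K, c, hc⟩ := hp
    refine ⟨K, fun j => a * c j, fun y => ?_⟩
    have h2 : ((a • p) (y : AddCircle (2 * A)) - (a • p) ((-y : ℝ) : AddCircle (2 * A))) / 2
        = a * ((p (y : AddCircle (2 * A)) - p ((-y : ℝ) : AddCircle (2 * A))) / 2) := by
      simp only [ContinuousMap.smul_apply, smul_eq_mul]
      ring
    rw [h2, hc y, Finset.mul_sum]
    refine Finset.sum_congr rfl fun j _ => ?_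
    ring

theorem trig_approx {f : ℝ → ℝ} (hf : Cz f) {B : ℝ} (hB : ∀ z, 0 ≤ z → |f z| ≤ B) {δ : ℝ} (hδ : 0 < δ) (A₀ : ℝ) :
    ∃ (A : ℝ) (K : ℕ) (c : ℕ → ℝ), 1 ≤ A ∧ A₀ ≤ A ∧
      (∀ y, 0 ≤ y → y ≤ A → |f y - ∑ j ∈ range K, c j * Real.sin (j * (Real.pi / A) * y)| ≤ δ) ∧
      ∀ y, |∑ j ∈ range K, c j * Real.sin (j * (Real.pi / A) * y)| ≤ B + δ := by
  have hB0 : 0 ≤ B := (abs_nonneg _).trans (hB 0 le_rfl)
  obtain ⟨z₀, hz₀⟩ : ∃ z₀ : ℝ, ∀ z, z₀ ≤ z → |f z| ≤ δ / 2 := by
    have h1 := (Metric.tendsto_nhds.mp hf.top (δ / 2) (by linarith))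
    obtain ⟨z₀, hz₀⟩ := Filter.eventually_atTop.mp h1
    refine ⟨z₀, fun z hz => ?_⟩
    have := hz₀ z hz
    rw [Real.dist_eq, sub_zero] at this
    exact this.le
  set A : ℝ := max 2 (max A₀ (z₀ + 1)) with hAdef
  have hA2 : 2 ≤ A := le_max_left _ _
  have hAA : A₀ ≤ A := (le_max_left _ _).trans (le_max_right _ _)
  have hAz : z₀ + 1 ≤ A := (le_max_right _ _).trans (le_max_right _ _)
  have hA : 0 < A := by linarith
  have : Fact (0 < 2 * A) := ⟨by linarith⟩
  -- the truncated function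
  let w : ℝ → ℝ := fun y => max 0 (min 1 (A - y))
  let f₁ : ℝ → ℝ := fun y => f y * w y
  have hwc : Continuous w := by
    exact continuous_const.max (continuous_const.min (continuous_const.sub continuous_id))
  have hf₁c : Continuous f₁ := hf.cont.mul hwc
  have hw0 : ∀ y, 0 ≤ w y := fun y => le_max_left _ _
  have hw1 : ∀ y, w y ≤ 1 := fun y => max_le zero_le_one (min_le_left _ _)
  have hf₁0 : f₁ 0 = 0 := by simp [f₁, hf.zero]
  have hf₁A : f₁ A = 0 := by simp [f₁, w]
  have hf₁B : ∀ y, 0 ≤ y → |f₁ y| ≤ B := by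
    intro y hy
    simp only [f₁]
    rw [abs_mul, abs_of_nonneg (hw0 y)]
    calc |f y| * w y ≤ |f y| * 1 := mul_le_mul_of_nonneg_left (hw1 y) (abs_nonneg _)
      _ ≤ B := by rw [mul_one]; exact hB y hy
  have hf₁f : ∀ y, 0 ≤ y → |f y - f₁ y| ≤ δ / 2 := by
    intro y hy
    have e : f y - f₁ y = f y * (1 - w y) := by simp only [f₁]; ring
    rw [e, abs_mul, abs_of_nonneg (show 0 ≤ 1 - w y by linarith [hw1 y])]
    rcases le_or_gt y (A - 1) with h | h
    · have : w y = 1 := by
        simp only [w]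
        rw [min_eq_left (by linarith), max_eq_right zero_le_one]
      rw [this]; simp; linarith
    · have h1 := hz₀ y (by linarith)
      calc |f y| * (1 - w y) ≤ |f y| * 1 :=
            mul_le_mul_of_nonneg_left (by linarith [hw0 y]) (abs_nonneg _)
        _ ≤ δ / 2 := by rw [mul_one]; exact h1
  -- the odd continuation
  let G : ℝ → ℝ := fun y => f₁ (max y 0) - f₁ (max (-y) 0)
  have hGc : Continuous G :=
    (hf₁c.comp (continuous_id.max continuous_const)).sub (hf₁c.comp (continuous_neg.max continuous_const))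
  have hGpos : ∀ y, 0 ≤ y → G y = f₁ y := by
    intro y hy
    simp only [G]
    rw [max_eq_left hy, max_eq_right (by linarith), hf₁0, sub_zero]
  have hGneg : ∀ y, 0 ≤ y → G (-y) = -f₁ y := by
    intro y hy
    simp only [G]
    rw [neg_neg, max_eq_right (by linarith), max_eq_left hy, hf₁0, zero_sub]
  have hGB : ∀ y, |G y| ≤ B := by
    intro y
    rcases le_total 0 y with h | h
    · rw [hGpos y h]; exact hf₁B y h
    · have h0 : 0 ≤ -y := by linarith
      have h1 := hGneg (-y) h0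
      rw [neg_neg] at h1
      rw [h1, abs_neg]; exact hf₁B (-y) h0
  have hGA : G A = 0 := by rw [hGpos A hA.le, hf₁A]
  have hGA' : G (-A) = 0 := by rw [hGneg A hA.le, hf₁A, neg_zero]
  let Gc : ℝ → ℂ := fun y => (G y : ℂ)
  have hGcc : Continuous Gc := Complex.continuous_ofReal.comp hGc
  have hper : Gc (-A) = Gc (-A + 2 * A) := by
    have e : -A + 2 * A = A := by ring
    rw [e]
    simp only [Gc]
    rw [hGA, hGA']
  let F : C(AddCircle (2 * A), ℂ) :=
    ⟨AddCircle.liftIco (2 * A) (-A) Gc, AddCircle.liftIco_continuous hper hGcc.continuousOn⟩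
  have hF1 : ∀ y : ℝ, -A ≤ y → y < A → F (y : AddCircle (2 * A)) = Gc y := by
    intro y h1 h2
    have h3 : y ∈ Set.Ico (-A) (-A + 2 * A) := ⟨h1, by linarith⟩
    have h4 : AddCircle.liftIco (2 * A) (-A) Gc (y : AddCircle (2 * A)) = Gc y :=
      AddCircle.liftIco_coe_apply h3
    exact h4
  have hF2 : F ((A : ℝ) : AddCircle (2 * A)) = Gc A := by
    have e : ((A : ℝ) : AddCircle (2 * A)) = ((-A : ℝ) : AddCircle (2 * A)) := by
      have e2 := AddCircle.coe_add_period (2 * A) (-A)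
      rw [← e2]
      congr 1
      ring
    rw [e, hF1 (-A) le_rfl (by linarith)]
    simp only [Gc]
    rw [hGA, hGA']
  have hFB : ∀ x : AddCircle (2 * A), ‖F x‖ ≤ B := by
    intro x
    obtain ⟨y, hy, rfl⟩ : ∃ y : ℝ, y ∈ Set.Ico (-A) (-A + 2 * A) ∧ (y : AddCircle (2 * A)) = x := by
      obtain ⟨⟨y, hy⟩, h⟩ := (AddCircle.equivIco (2 * A) (-A)).symm.surjective x
      exact ⟨y, hy, h⟩
    rw [hF1 y hy.1 (by linarith [hy.2])]
    simp only [Gc]
    rw [Complex.norm_real, Real.norm_eq_abs]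
    exact hGB y
  obtain ⟨p, hp, hpF⟩ : ∃ p ∈ Submodule.span ℂ (Set.range (@fourier (2 * A))), ‖F - p‖ < δ / 2 := by
    have h1 : F ∈ (Submodule.span ℂ (Set.range (@fourier (2 * A)))).topologicalClosure := by
      rw [span_fourier_closure_eq_top]; exact Submodule.mem_top
    have h2 : F ∈ closure ((Submodule.span ℂ (Set.range (@fourier (2 * A))) : Submodule ℂ _) :
        Set C(AddCircle (2 * A), ℂ)) := h1
    obtain ⟨p, hp, hd⟩ := Metric.mem_closure_iff.mp h2 (δ / 2) (by linarith)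
    exact ⟨p, hp, by rwa [dist_eq_norm] at hd⟩
  obtain ⟨K, c, hc⟩ := sin_span_h5 hA p hp
  have hpt : ∀ x : AddCircle (2 * A), ‖F x - p x‖ ≤ δ / 2 := fun x =>
    ((F - p).norm_coe_le_norm x).trans hpF.le
  have hre : ∀ y : ℝ, ∑ j ∈ range K, (c j).re * Real.sin (j * (Real.pi / A) * y)
      = ((p (y : AddCircle (2 * A)) - p ((-y : ℝ) : AddCircle (2 * A))) / 2).re := by
    intro y
    rw [hc y, Complex.re_sum]
    refine Finset.sum_congr rfl fun j _ => ?_
    rw [Complex.re_mul_ofReal]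
  refine ⟨A, K, fun j => (c j).re, by linarith, hAA, fun y hy0 hyA => ?_, fun y => ?_⟩
  · rw [hre y]
    have hFy : F (y : AddCircle (2 * A)) = (f₁ y : ℂ) := by
      rcases hyA.lt_or_eq with h | h
      · rw [hF1 y (by linarith) h]
        simp only [Gc]
        rw [hGpos y hy0]
      · rw [h, hF2]
        simp only [Gc]
        rw [hGpos A hA.le]
    have hFny : F ((-y : ℝ) : AddCircle (2 * A)) = -(f₁ y : ℂ) := by
      rw [hF1 (-y) (by linarith) (by linarith)]
      simp only [Gc]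
      rw [hGneg y hy0]
      push_cast; rfl
    have h1 := hpt (y : AddCircle (2 * A))
    have h2 := hpt ((-y : ℝ) : AddCircle (2 * A))
    rw [hFy] at h1
    rw [hFny] at h2
    have h3 : ‖(f₁ y : ℂ) - (p (y : AddCircle (2 * A)) - p ((-y : ℝ) : AddCircle (2 * A))) / 2‖ ≤ δ / 2 := by
      have e : (f₁ y : ℂ) - (p (y : AddCircle (2 * A)) - p ((-y : ℝ) : AddCircle (2 * A))) / 2
          = (((f₁ y : ℂ) - p (y : AddCircle (2 * A))) - (-(f₁ y : ℂ) - p ((-y : ℝ) : AddCircle (2 * A)))) / 2 := by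
        ring
      rw [e, norm_div]
      have h4 := norm_sub_le ((f₁ y : ℂ) - p (y : AddCircle (2 * A)))
        (-(f₁ y : ℂ) - p ((-y : ℝ) : AddCircle (2 * A)))
      rw [Complex.norm_ofNat]
      linarith
    have h5 := (Complex.abs_re_le_norm _).trans h3
    rw [Complex.sub_re, Complex.ofReal_re] at h5
    have h6 := hf₁f y hy0
    have h7 := abs_sub_le (f y) (f₁ y)
      ((p (y : AddCircle (2 * A)) - p ((-y : ℝ) : AddCircle (2 * A))) / 2).re
    linarith
  · rw [hre y]
    refine (Complex.abs_re_le_norm _).trans ?_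
    rw [norm_div, Complex.norm_ofNat]
    have b : ∀ x : AddCircle (2 * A), ‖p x‖ ≤ B + δ / 2 := by
      intro x
      have h1 := hpt x
      have h2 := hFB x
      have h3 := norm_sub_norm_le (p x) (F x)
      rw [norm_sub_rev] at h3
      linarith
    have h1 := b (y : AddCircle (2 * A))
    have h2 := b ((-y : ℝ) : AddCircle (2 * A))
    have h4 := norm_sub_le (p (y : AddCircle (2 * A))) (p ((-y : ℝ) : AddCircle (2 * A)))
    linarith

/-- Frequencies adapted to the strip of half height `n`. -/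
theorem freq_exists {A : ℝ} (hA : 1 ≤ A) : ∃ (θ : ℕ → ℝ) (j : ℕ → ℕ), (∀ n, 0 ≤ θ n) ∧
    (∀ n, θ n * n = Real.pi * j n) ∧ Tendsto (fun n : ℕ => θ n * Real.sqrt n) atTop (nhds (Real.pi / A)) := by
  have hA0 : 0 < A := by linarith
  refine ⟨fun n => Real.pi * ⌊A⁻¹ * Real.sqrt n⌋₊ / n, fun n => ⌊A⁻¹ * Real.sqrt n⌋₊,
    fun n => by positivity, fun n => ?_, ?_⟩
  · rcases n.eq_zero_or_pos with h | h
    · subst h; simp
    · have : (n : ℝ) ≠ 0 := by positivity
      field_simp
  · have h1 : Tendsto (fun x : ℝ => (⌊A⁻¹ * x⌋₊ : ℝ) / x) atTop (nhds A⁻¹) :=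
      tendsto_nat_floor_mul_div_atTop (inv_nonneg.mpr hA0.le)
    have h2 : Tendsto (fun n : ℕ => Real.sqrt n) atTop atTop :=
      Real.tendsto_sqrt_atTop.comp tendsto_natCast_atTop_atTop
    have h3 := (h1.comp h2).const_mul Real.pi
    rw [← div_eq_mul_inv] at h3
    refine h3.congr' ?_
    filter_upwards [eventually_gt_atTop 0] with n hn
    have hn' : (0 : ℝ) < n := by exact_mod_cast hn
    have hs : 0 < Real.sqrt n := Real.sqrt_pos.mpr hn'
    have hss : Real.sqrt n * Real.sqrt n = n := Real.mul_self_sqrt hn'.le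
    simp only [Function.comp]
    rw [mul_comm (A⁻¹) (Real.sqrt n)]
    field_simp
    rw [pow_two, hss]
    ring

end Pool.Agent.Helper49.RD
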