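import Pool.Agent.Helper49.RD.EllSin
import Pool.Agent.Helper49.RD.Trig
import Pool.Agent.Helper49.RD.Hk2

/-!
Block RD-EF: the boundary functional on continuous functions vanishing at `0` and at infinity.

Paper proof of `ell_cz`. Let `|f z| ≤ B` for `z ≥ 0`, `B ≥ 1`. Fix `0 < δ ≤ 1` and `A₀`; `A`, `K`, `c` from `trig_approx`, `p y = ∑ c j sin (j (π/A) y)`; `θ`, `i` from `freq_exists` for `A`, `p_n z = ∑ c j sin (j θ_n z)`, so
`p_n z = p (A θ_n z/π)`, hence `|p_n| ≤ B + δ` everywhere; for `z ≤ A √n`: `|p_n z - p (z/√n)| ≤ ∑ |c j| j |θ_n √n - π/A| A → 0` (uniformly). So for large `n`, all `z`: `|f (z/√n) - p_n z| ≤ 2 δ + (2 B + δ) 1_{z ≥ A √n}`.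
`|√n ℓ_l (f (·/√n) - p_n)/λ^l| ≤ √n ℓ_l (2 δ + 3 B 1_{z ≥ A √n})/λ^l ≤ C δ + C B/sinh A` for large `n`, with `C` depending on `s` only (`ell_one`: `√n/√(l + 1)` is bounded; `ell_tail` with `ε = 1/√n`: `(e^{K/n})^l ≤ e^{2 K s}`; for large `n`). By `Nrm` (frequencies
`j θ_n`, `(j θ_n) n = π (j i_n)`, `j θ_n √n → j π/A`): `√n ℓ_l (p_n)/(a_n λ^l) → ∑ c j (j π/A) exp (-(g s (j π/A)²/2)) = La (g s) p` (`la_sin`, `la_lin`), and `|La (g s) (f - p)| ≤ C δ + C (2 B + δ) ∫_{z > A} rho` (`la_le` applied to the parts of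
`f - p` on `(0, A]` and on `(A, ∞)`; the tail `∫_{z > A} rho (g s) z dz = √(2/(π g s)) e^{-A²/(2 g s)}`, or use: it tends to `0` as `A → ∞` by integrability). `δ → 0`, `A₀ → ∞`.

`ell_step`: for `v n` with `SupLim v V`, `V` in `Cz`, and multipliers `eps (c n)`, `c n/√n → h > 0` (or `c n = 0`, `h = 0`): limit `La (g s) (chs h * V)`. Proof. `|ℓ_l (eps * (v - V (·/√n)))| ≤ sup |..| ℓ_l (1)`, so one may replace `v n z` by `V (z/√n)` (`ell_one`).
If `h = 0`, `c n = 0`: `eps 0 = 1`, `chs 0 z = 1` for `z > 0`: `ell_cz`. If `h > 0`: for `0 < δ < h/4` let `κ z = max (-1, min (1, (z - h)/δ))` and `b z = max (0, 2 - |z - h|/δ)` (continuous; `b` supported in `[h - 2 δ, h + 2 δ]`, `0 ≤ b ≤ 2`): for large `n`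
`|eps (c n) z - κ (z/√n)| ≤ 2 b (z/√n)` for all `z` (if `|z/√n - h| ≥ δ` both signs agree as soon as `|c n/√n - h| < δ`; else `b ≥ 1`), and `|chs h z - κ z| ≤ 2 b z`. `κ V` and `b` are in `Cz`: `ell_cz` for `κ V`, and
`|ℓ_l ((eps - κ) V)| ≤ 2 sup |V| ℓ_l (b (·/√n))`, `√n ℓ_l (b (·/√n))/(a_n λ^l) → La (g s) b ≤ 8 δ/(g s)` (`la_small`). `δ → 0`.
-/

open Finset Filter

namespace Pool.Agent.Helper49.RD

open Pool.Agent.Helper49.DL Pool.Agent.Helper49.DX

/-- The half heights `c n` have the limit `h` in the diffusive scale, or vanish. -/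
def Hgt (c : ℕ → ℕ) (h : ℝ) : Prop :=
  (0 < h ∧ Tendsto (fun n : ℕ => (c n : ℝ) / Real.sqrt n) atTop (nhds h)) ∨ (h = 0 ∧ ∀ n, c n = 0)

/-- A family of positive linear functionals on the profiles, with its limit functionals. -/
structure Fam97 (N : ℕ → ℕ → (ℕ → ℝ) → ℝ) (T : ℝ → (ℝ → ℝ) → ℝ) : Prop where
  lin : ∀ (n y : ℕ) (a b : ℝ) (E F : ℕ → ℝ), N n y (fun z => a * E z + b * F z) = a * N n y E + b * N n y F
  mono : ∀ᶠ n : ℕ in atTop, ∀ y ≤ n, ∀ E F : ℕ → ℝ, (∀ z ≤ n, E z ≤ F z) → N n y E ≤ N n y F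
  one : ∃ C : ℝ, 0 ≤ C ∧ ∀ᶠ n : ℕ in atTop, ∀ y ≤ n, N n y (fun _ => 1) ≤ C
  tlin : ∀ y, 0 ≤ y → ∀ (a b B : ℝ) (f g : ℝ → ℝ), Measurable f → Measurable g → (∀ z, 0 < z → |f z| ≤ B) →
    (∀ z, 0 < z → |g z| ≤ B) → T y (fun z => a * f z + b * g z) = a * T y f + b * T y g
  tcongr : ∀ (y : ℝ) (f g : ℝ → ℝ), (∀ z, 0 < z → f z = g z) → T y f = T y g
  tle : ∃ C : ℝ, 0 ≤ C ∧ ∀ y, 0 ≤ y → ∀ (B : ℝ) (f : ℝ → ℝ), Measurable f → (∀ z, 0 < z → |f z| ≤ B) →
    |T y f| ≤ C * B

section

variable {N : ℕ → ℕ → (ℕ → ℝ) → ℝ} {T : ℝ → (ℝ → ℝ) → ℝ}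

private lemma fzero97 (h : Fam97 N T) (n y : ℕ) : N n y (fun _ => 0) = 0 := by
  have h1 := h.lin n y 0 0 (fun _ => 0) (fun _ => 0)
  simpa using h1

private lemma fsmul97 (h : Fam97 N T) (n y : ℕ) (a : ℝ) (E : ℕ → ℝ) : N n y (fun z => a * E z) = a * N n y E := by
  have h1 := h.lin n y a 0 E E
  simpa using h1

private lemma fsub97 (h : Fam97 N T) (n y : ℕ) (E F : ℕ → ℝ) :
    N n y (fun z => E z - F z) = N n y E - N n y F := by
  have h1 := h.lin n y 1 (-1) E F
  have h2 : (fun z => 1 * E z + (-1) * F z) = fun z => E z - F z := by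
    funext z
    ring
  rw [h2] at h1
  rw [h1]
  ring

private lemma fneg97 (h : Fam97 N T) (n y : ℕ) (E : ℕ → ℝ) : N n y (fun z => -E z) = -N n y E := by
  have h1 := fsmul97 h n y (-1) E
  simpa using h1

private lemma fsum97 (h : Fam97 N T) (n y : ℕ) (c : ℕ → ℝ) (E : ℕ → ℕ → ℝ) (K : ℕ) :
    N n y (fun z => ∑ j ∈ range K, c j * E j z) = ∑ j ∈ range K, c j * N n y (E j) := by
  induction K with
  | zero =>
    simp only [range_zero, sum_empty]
    exact fzero97 h n y
  | succ K ih =>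
    rw [sum_range_succ, ← ih]
    have h1 := h.lin n y 1 (c K) (fun z => ∑ j ∈ range K, c j * E j z) (E K)
    rw [one_mul] at h1
    rw [← h1]
    congr 1
    funext z
    rw [sum_range_succ, one_mul]

private lemma fabs97 (h : Fam97 N T) : ∀ᶠ n : ℕ in atTop, ∀ y ≤ n, ∀ E F : ℕ → ℝ, (∀ z ≤ n, |E z| ≤ F z) →
    |N n y E| ≤ N n y F := by
  filter_upwards [h.mono] with n hn y hy E F hEF
  rw [abs_le]
  constructor
  · have h1 := hn y hy (fun z => -F z) E (fun z hz => (abs_le.1 (hEF z hz)).1)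
    rw [fneg97 h] at h1
    exact h1
  · exact hn y hy E F (fun z hz => (abs_le.1 (hEF z hz)).2)

private lemma tsub97 (h : Fam97 N T) {y : ℝ} (hy : 0 ≤ y) {B : ℝ} {f g : ℝ → ℝ} (hf : Measurable f)
    (hg : Measurable g) (hfB : ∀ z, 0 < z → |f z| ≤ B) (hgB : ∀ z, 0 < z → |g z| ≤ B) :
    T y (fun z => f z - g z) = T y f - T y g := by
  have h1 := h.tlin y hy 1 (-1) B f g hf hg hfB hgB
  have h2 : (fun z => 1 * f z + (-1) * g z) = fun z => f z - g z := by
    funext z
    ring
  rw [h2] at h1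
  rw [h1]
  ring

private lemma tsum97 (h : Fam97 N T) {y : ℝ} (hy : 0 ≤ y) (c : ℕ → ℝ) (E : ℕ → ℝ → ℝ)
    (hE : ∀ j, Measurable (E j)) (hB : ∀ j z, |E j z| ≤ 1) (K : ℕ) :
    T y (fun z => ∑ j ∈ range K, c j * E j z) = ∑ j ∈ range K, c j * T y (E j) := by
  induction K with
  | zero =>
    simp only [range_zero, sum_empty]
    have h1 := h.tlin y hy 0 0 0 (fun _ => 0) (fun _ => 0) measurable_const measurable_const
      (fun z _ => by simp) (fun z _ => by simp)
    simpa using h1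
  | succ K ih =>
    rw [sum_range_succ, ← ih]
    have hm : Measurable (fun z => ∑ j ∈ range K, c j * E j z) :=
      Finset.measurable_fun_sum _ (fun j _ => (hE j).const_mul _)
    have hb0 : 0 ≤ ∑ j ∈ range K, |c j| := sum_nonneg (fun j _ => abs_nonneg _)
    have hb : ∀ z, 0 < z → |∑ j ∈ range K, c j * E j z| ≤ ∑ j ∈ range K, |c j| + 1 := by
      intro z _
      have h2 : |∑ j ∈ range K, c j * E j z| ≤ ∑ j ∈ range K, |c j| := by
        refine (abs_sum_le_sum_abs _ _).trans (sum_le_sum fun j _ => ?_)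
        rw [abs_mul]
        exact mul_le_of_le_one_right (abs_nonneg _) (hB j z)
      linarith
    have h1 := h.tlin y hy 1 (c K) (∑ j ∈ range K, |c j| + 1) (fun z => ∑ j ∈ range K, c j * E j z) (E K)
      hm (hE K) hb (fun z _ => by linarith [hB K z])
    rw [one_mul] at h1
    rw [← h1]
    congr 1
    funext z
    rw [sum_range_succ, one_mul]

/-- The difference of a function and its sine approximation, on the profiles. -/
private lemma appr97 {f : ℝ → ℝ} {B : ℝ} (hB : ∀ z, 0 ≤ z → |f z| ≤ B) {δ A : ℝ} (hδ : 0 < δ)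
    (hA : 1 ≤ A) {K : ℕ} {c : ℕ → ℝ}
    (h1 : ∀ y, 0 ≤ y → y ≤ A → |f y - ∑ j ∈ range K, c j * Real.sin (j * (Real.pi / A) * y)| ≤ δ)
    (h2 : ∀ y, |∑ j ∈ range K, c j * Real.sin (j * (Real.pi / A) * y)| ≤ B + δ) {θ : ℕ → ℝ}
    (hθ : Tendsto (fun n : ℕ => θ n * Real.sqrt n) atTop (nhds (Real.pi / A))) :
    ∀ᶠ n : ℕ in atTop, ∀ z : ℕ, |f (z / Real.sqrt n) - ∑ j ∈ range K, c j * Real.sin (j * θ n * z)| ≤
      2 * δ * 1 + (2 * B + δ) * (if A * Real.sqrt n ≤ z then 1 else 0) := by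
  have hB0 : 0 ≤ B := (abs_nonneg _).trans (hB 0 le_rfl)
  have hA0 : 0 < A := by linarith
  set M := ∑ j ∈ range K, |c j| * j with hM
  have hM0 : 0 ≤ M := sum_nonneg (fun j _ => by positivity)
  have h3 : ∀ᶠ n : ℕ in atTop, |θ n * Real.sqrt n - Real.pi / A| < δ / (M * A + 1) := by
    have h4 := Metric.tendsto_nhds.1 hθ (δ / (M * A + 1)) (by positivity)
    filter_upwards [h4] with n hn
    rwa [Real.dist_eq] at hn
  filter_upwards [h3, eventually_gt_atTop 0] with n hn hn0 z
  have hn' : (0 : ℝ) < n := by exact_mod_cast hn0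
  have hs : 0 < Real.sqrt n := Real.sqrt_pos.mpr hn'
  have hz0 : (0 : ℝ) ≤ z := Nat.cast_nonneg z
  by_cases hz : A * Real.sqrt n ≤ z
  · rw [if_pos hz]
    have h5 := hB ((z : ℝ) / Real.sqrt n) (by positivity)
    have h6 := h2 (A * θ n * z / Real.pi)
    have h7 : ∑ j ∈ range K, c j * Real.sin (j * (Real.pi / A) * (A * θ n * z / Real.pi)) =
        ∑ j ∈ range K, c j * Real.sin (j * θ n * z) := by
      refine sum_congr rfl fun j _ => ?_
      congr 2
      have := Real.pi_ne_zero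
      field_simp
    rw [h7] at h6
    have h8 := abs_sub (f (z / Real.sqrt n)) (∑ j ∈ range K, c j * Real.sin (j * θ n * z))
    linarith
  · rw [if_neg hz]
    push Not at hz
    have hy : (z : ℝ) / Real.sqrt n ≤ A := by
      rw [div_le_iff₀ hs]
      exact hz.le
    have hy0 : 0 ≤ (z : ℝ) / Real.sqrt n := by positivity
    have h5 := h1 _ hy0 hy
    have h6 : |∑ j ∈ range K, c j * Real.sin (j * (Real.pi / A) * (z / Real.sqrt n)) -
        ∑ j ∈ range K, c j * Real.sin (j * θ n * z)| ≤ δ := by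
      rw [← sum_sub_distrib]
      have h7 : |∑ j ∈ range K, (c j * Real.sin (j * (Real.pi / A) * (z / Real.sqrt n)) -
          c j * Real.sin (j * θ n * z))| ≤ ∑ j ∈ range K, |c j| * j * (A * |θ n * Real.sqrt n - Real.pi / A|) := by
        refine (abs_sum_le_sum_abs _ _).trans (sum_le_sum fun j _ => ?_)
        rw [← mul_sub, abs_mul, mul_assoc (|c j|)]
        refine mul_le_mul_of_nonneg_left ?_ (abs_nonneg (c j))
        refine (Real.abs_sin_sub_sin_le _ _).trans ?_
        have h8 : (j : ℝ) * (Real.pi / A) * (z / Real.sqrt n) - j * θ n * z =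
            -(j * ((z / Real.sqrt n) * (θ n * Real.sqrt n - Real.pi / A))) := by
          field_simp
          ring
        rw [h8, abs_neg, abs_mul, abs_mul, abs_of_nonneg (Nat.cast_nonneg j), abs_of_nonneg hy0]
        exact mul_le_mul_of_nonneg_left (mul_le_mul_of_nonneg_right hy (abs_nonneg _)) (Nat.cast_nonneg j)
      rw [← sum_mul, ← hM] at h7
      refine h7.trans ?_
      have h9 : M * (A * |θ n * Real.sqrt n - Real.pi / A|) ≤ M * (A * (δ / (M * A + 1))) := by
        gcongr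
      refine h9.trans ?_
      have h10 : M * (A * (δ / (M * A + 1))) = δ * (M * A / (M * A + 1)) := by ring
      rw [h10]
      have h11 : M * A / (M * A + 1) ≤ 1 := by
        rw [div_le_one (by positivity)]
        linarith
      nlinarith
    have h8 := abs_sub_le (f (z / Real.sqrt n)) (∑ j ∈ range K, c j * Real.sin (j * (Real.pi / A) * (z / Real.sqrt n)))
      (∑ j ∈ range K, c j * Real.sin (j * θ n * z))
    linarith

/-- Convergence on the compact part. -/
theorem fam_cz97 (h : Fam97 N T) {R : ℝ}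
    (htail : ∀ η : ℝ, 0 < η → ∃ A₀ : ℝ, ∀ A, A₀ ≤ A → ∀ᶠ n : ℕ in atTop, ∀ y ≤ n, (y : ℝ) ≤ R * Real.sqrt n →
      N n y (fun z => if A * Real.sqrt n ≤ z then 1 else 0) ≤ η)
    (hsin : ∀ (θ : ℕ → ℝ) (j : ℕ → ℕ) (u : ℝ), (∀ n, 0 ≤ θ n) → (∀ n, θ n * n = Real.pi * j n) →
      Tendsto (fun n : ℕ => θ n * Real.sqrt n) atTop (nhds u) → ∀ ε : ℝ, 0 < ε → ∀ᶠ n : ℕ in atTop,
        ∀ y ≤ n, (y : ℝ) ≤ R * Real.sqrt n →
          |N n y (fun z => Real.sin (θ n * z)) - T (y / Real.sqrt n) (fun z => Real.sin (u * z))| ≤ ε)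
    (hT : ∀ η : ℝ, 0 < η → ∃ A₀ : ℝ, ∀ A, A₀ ≤ A → ∀ y, 0 ≤ y → y ≤ R → ∀ g : ℝ → ℝ, Measurable g →
      (∀ z, 0 < z → |g z| ≤ 1) → (∀ z, 0 < z → z ≤ A → g z = 0) → |T y g| ≤ η)
    {f : ℝ → ℝ} (hf : Cz f) {ε : ℝ} (hε : 0 < ε) :
    ∀ᶠ n : ℕ in atTop, ∀ y ≤ n, (y : ℝ) ≤ R * Real.sqrt n →
      |N n y (fun z => f (z / Real.sqrt n)) - T (y / Real.sqrt n) f| ≤ ε := by
  obtain ⟨B0, hB0⟩ := (cz_bz hf).bdd
  obtain ⟨B, hBd⟩ : ∃ B, B = max 1 B0 := ⟨_, rfl⟩
  have hB1 : 1 ≤ B := by rw [hBd]; exact le_max_left _ _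
  have hB : ∀ z, 0 ≤ z → |f z| ≤ B := fun z hz => (hB0 z hz).trans (by rw [hBd]; exact le_max_right _ _)
  obtain ⟨C1, hC1, h1⟩ := h.one
  obtain ⟨CT, hCT, hle⟩ := h.tle
  obtain ⟨η, hη⟩ : ∃ η, η = ε / (24 * B) := ⟨_, rfl⟩
  have hη0 : 0 < η := by rw [hη]; positivity
  have hηB : 6 * B * η = ε / 4 := by
    rw [hη]
    field_simp
    norm_num
  obtain ⟨δ, hδ⟩ : ∃ δ, δ = min 1 (ε / (4 * (2 * C1 + CT + 1))) := ⟨_, rfl⟩
  have hδ0 : 0 < δ := by
    rw [hδ]
    exact lt_min one_pos (by positivity)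
  have hδ1 : δ ≤ 1 := by rw [hδ]; exact min_le_left _ _
  have hδ2 : δ * (2 * C1 + CT) ≤ ε / 4 := by
    have h2 : δ ≤ ε / (4 * (2 * C1 + CT + 1)) := by rw [hδ]; exact min_le_right _ _
    have h3 : δ * (2 * C1 + CT + 1) ≤ ε / 4 := by
      calc δ * (2 * C1 + CT + 1) ≤ ε / (4 * (2 * C1 + CT + 1)) * (2 * C1 + CT + 1) :=
            mul_le_mul_of_nonneg_right h2 (by positivity)
        _ = ε / 4 := by field_simp
    nlinarith
  obtain ⟨A1, hA1⟩ := htail η hη0
  obtain ⟨A2, hA2⟩ := hT η hη0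
  obtain ⟨A, K, c, hA, hAA, hp1, hp2⟩ := trig_approx hf hB hδ0 (max A1 A2)
  have hA0 : 0 < A := by linarith
  have htl := hA1 A ((le_max_left _ _).trans hAA)
  have hTt := hA2 A ((le_max_right _ _).trans hAA)
  obtain ⟨θ, i, hθ0, hθi, hθ⟩ := freq_exists hA
  have hap := appr97 hB hδ0 hA hp1 hp2 hθ
  obtain ⟨S, hS⟩ : ∃ S, S = ∑ j ∈ range K, |c j| := ⟨_, rfl⟩
  have hS0 : 0 ≤ S := by rw [hS]; exact sum_nonneg (fun j _ => abs_nonneg _)
  have hsn : ∀ᶠ n : ℕ in atTop, ∀ j ∈ range K, ∀ y ≤ n, (y : ℝ) ≤ R * Real.sqrt n →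
      |N n y (fun z => Real.sin (j * θ n * z)) - T (y / Real.sqrt n) (fun z => Real.sin (j * (Real.pi / A) * z))| ≤
        ε / (4 * (S + 1)) := by
    rw [Filter.eventually_all_finset]
    intro j _
    refine hsin (fun n => j * θ n) (fun n => j * i n) (j * (Real.pi / A)) (fun n => ?_) (fun n => ?_) ?_ _
      (by positivity)
    · exact mul_nonneg (Nat.cast_nonneg j) (hθ0 n)
    · push_cast
      rw [mul_assoc, hθi n]
      ring
    · have h4 := hθ.const_mul (j : ℝ)
      refine h4.congr fun n => ?_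
      ring
  filter_upwards [hap, hsn, fabs97 h, h1, htl, eventually_gt_atTop 0] with n e1 e2 e3 e4 e5 e6 y hy hyR
  have hn' : (0 : ℝ) < n := by exact_mod_cast e6
  have hs : 0 < Real.sqrt n := Real.sqrt_pos.mpr hn'
  have hy0 : 0 ≤ (y : ℝ) / Real.sqrt n := by positivity
  have hyR' : (y : ℝ) / Real.sqrt n ≤ R := by
    rw [div_le_iff₀ hs]
    exact hyR
  -- the profile part
  have p1 : |N n y (fun z => f (z / Real.sqrt n)) - N n y (fun z => ∑ j ∈ range K, c j * Real.sin (j * θ n * z))| ≤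
      2 * δ * C1 + 3 * B * η := by
    rw [← fsub97 h]
    refine (e3 y hy _ _ (fun z _ => e1 z)).trans ?_
    rw [h.lin]
    have q1 := e4 y hy
    have q2 := e5 y hy hyR
    have q3 : 2 * δ * N n y (fun _ => 1) ≤ 2 * δ * C1 := mul_le_mul_of_nonneg_left q1 (by positivity)
    have q4 : (2 * B + δ) * N n y (fun z => if A * Real.sqrt n ≤ z then 1 else 0) ≤ 3 * B * η := by
      refine (mul_le_mul_of_nonneg_left q2 (by positivity)).trans ?_
      exact mul_le_mul_of_nonneg_right (by linarith) hη0.le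
    linarith
  -- the sine polynomials
  have p2 : |N n y (fun z => ∑ j ∈ range K, c j * Real.sin (j * θ n * z)) -
      T (y / Real.sqrt n) (fun z => ∑ j ∈ range K, c j * Real.sin (j * (Real.pi / A) * z))| ≤ ε / 4 := by
    rw [fsum97 h n y c (fun j z => Real.sin (j * θ n * z)) K,
      tsum97 h hy0 c (fun j z => Real.sin (j * (Real.pi / A) * z))
        (fun j => (by fun_prop)) (fun j z => Real.abs_sin_le_one _) K, ← sum_sub_distrib]
    refine (abs_sum_le_sum_abs _ _).trans ?_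
    have q1 : ∀ j ∈ range K, |c j * N n y (fun z => Real.sin (j * θ n * z)) -
        c j * T (y / Real.sqrt n) (fun z => Real.sin (j * (Real.pi / A) * z))| ≤ |c j| * (ε / (4 * (S + 1))) := by
      intro j hj
      rw [← mul_sub, abs_mul]
      exact mul_le_mul_of_nonneg_left (e2 j hj y hy hyR) (abs_nonneg _)
    refine (sum_le_sum q1).trans ?_
    rw [← sum_mul, ← hS]
    have q2 : S * (ε / (4 * (S + 1))) = ε / 4 * (S / (S + 1)) := by
      field_simp
    rw [q2]
    have q3 : S / (S + 1) ≤ 1 := by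
      rw [div_le_one (by positivity)]
      linarith
    nlinarith
  -- the limit part
  have hpm : Measurable (fun z => ∑ j ∈ range K, c j * Real.sin (j * (Real.pi / A) * z)) := by
    fun_prop
  have hfm : Measurable f := hf.cont.measurable
  have hb3 : ∀ z, 0 < z → |f z - ∑ j ∈ range K, c j * Real.sin (j * (Real.pi / A) * z)| ≤ 3 * B := by
    intro z hz
    have q1 := abs_sub (f z) (∑ j ∈ range K, c j * Real.sin (j * (Real.pi / A) * z))
    have q2 := hB z hz.le
    have q3 := hp2 z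
    linarith
  obtain ⟨G, hG⟩ : ∃ G : ℝ → ℝ, G = fun z => f z - ∑ j ∈ range K, c j * Real.sin (j * (Real.pi / A) * z) := ⟨_, rfl⟩
  have hGm : Measurable G := by rw [hG]; exact hfm.sub hpm
  have hGb : ∀ z, 0 < z → |G z| ≤ 3 * B := by rw [hG]; exact hb3
  have hm1 : Measurable (fun z => if z ≤ A then G z else 0) :=
    Measurable.ite measurableSet_Iic hGm measurable_const
  have hm2 : Measurable (fun z => if z ≤ A then 0 else G z / (3 * B)) :=
    Measurable.ite measurableSet_Iic measurable_const (hGm.div_const _)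
  have p3 : |T (y / Real.sqrt n) G| ≤ CT * δ + 3 * B * η := by
    have q1 := h.tlin _ hy0 1 (3 * B) (3 * B) (fun z => if z ≤ A then G z else 0)
      (fun z => if z ≤ A then 0 else G z / (3 * B)) hm1 hm2 (fun z hz => by
        split_ifs
        · exact hGb z hz
        · rw [abs_zero]
          positivity) (fun z hz => by
        split_ifs
        · rw [abs_zero]
          positivity
        · rw [abs_div, abs_of_pos (by positivity : (0 : ℝ) < 3 * B)]
          calc |G z| / (3 * B) ≤ 3 * B / (3 * B) := div_le_div_of_nonneg_right (hGb z hz) (by positivity)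
            _ = 1 := div_self (by positivity)
            _ ≤ 3 * B := by linarith)
    have q2 : T (y / Real.sqrt n) (fun z => 1 * (if z ≤ A then G z else 0) +
        3 * B * (if z ≤ A then 0 else G z / (3 * B))) = T (y / Real.sqrt n) G := by
      refine h.tcongr _ _ _ (fun z _ => ?_)
      split_ifs
      · ring
      · field_simp
        ring
    rw [q2] at q1
    rw [q1, one_mul]
    have q3 := hle _ hy0 δ (fun z => if z ≤ A then G z else 0) hm1 (fun z hz => by
      split_ifs with hzA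
      · rw [hG]
        exact hp1 z hz.le hzA
      · rw [abs_zero]
        exact hδ0.le)
    have q4 := hTt _ hy0 hyR' (fun z => if z ≤ A then 0 else G z / (3 * B)) hm2 (fun z hz => by
      split_ifs
      · rw [abs_zero]
        exact zero_le_one
      · rw [abs_div, abs_of_pos (by positivity : (0 : ℝ) < 3 * B), div_le_one (by positivity)]
        exact hGb z hz) (fun z _ hzA => by
      rw [if_pos hzA])
    refine (abs_add_le _ _).trans ?_
    rw [abs_mul, abs_of_pos (by positivity : (0 : ℝ) < 3 * B)]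
    have q5 := mul_le_mul_of_nonneg_left q4 (by positivity : (0 : ℝ) ≤ 3 * B)
    linarith
  have p4 : T (y / Real.sqrt n) G = T (y / Real.sqrt n) f -
      T (y / Real.sqrt n) (fun z => ∑ j ∈ range K, c j * Real.sin (j * (Real.pi / A) * z)) := by
    rw [hG]
    refine tsub97 h hy0 (B := 3 * B) hfm hpm (fun z hz => (hB z hz.le).trans (by linarith)) (fun z _ => ?_)
    have := hp2 z
    linarith
  rw [p4, abs_sub_comm] at p3
  have p5 : N n y (fun z => f (z / Real.sqrt n)) - T (y / Real.sqrt n) f =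
      (N n y (fun z => f (z / Real.sqrt n)) - N n y (fun z => ∑ j ∈ range K, c j * Real.sin (j * θ n * z))) +
      (N n y (fun z => ∑ j ∈ range K, c j * Real.sin (j * θ n * z)) -
        T (y / Real.sqrt n) (fun z => ∑ j ∈ range K, c j * Real.sin (j * (Real.pi / A) * z))) +
      (T (y / Real.sqrt n) (fun z => ∑ j ∈ range K, c j * Real.sin (j * (Real.pi / A) * z)) -
        T (y / Real.sqrt n) f) := by ring
  rw [p5]
  refine (abs_add_three _ _ _).trans ?_
  have p6 : 2 * δ * C1 + CT * δ ≤ ε / 4 := by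
    refine le_trans (le_of_eq ?_) hδ2
    ring
  linarith

private lemma kap_cont97 (h δ : ℝ) : Continuous (fun z : ℝ => max (-1) (min 1 ((z - h) / δ))) := by
  fun_prop

private lemma kap_abs97 (h δ z : ℝ) : |max (-1) (min 1 ((z - h) / δ))| ≤ 1 := by
  rw [abs_le]
  exact ⟨le_max_left _ _, max_le (by norm_num) (min_le_left _ _)⟩

private lemma kap_hi97 {h δ z : ℝ} (hδ : 0 < δ) (hz : h + δ ≤ z) : max (-1) (min 1 ((z - h) / δ)) = 1 := by
  have h1 : 1 ≤ (z - h) / δ := by
    rw [le_div_iff₀ hδ]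
    linarith
  rw [min_eq_left h1]
  norm_num

private lemma kap_lo97 {h δ z : ℝ} (hδ : 0 < δ) (hz : z ≤ h - δ) : max (-1) (min 1 ((z - h) / δ)) = -1 := by
  have h1 : (z - h) / δ ≤ -1 := by
    rw [div_le_iff₀ hδ]
    linarith
  rw [min_eq_right (by linarith), max_eq_left h1]

/-- Multipliers with a sign. -/
theorem fam_step97 (hN : Fam97 N T)
    (hcz : ∀ f, Cz f → SupLim (fun n y => N n y (fun z => f (z / Real.sqrt n))) (fun y => T y f))
    (hts : ∃ C : ℝ, 0 ≤ C ∧ ∀ y, 0 ≤ y → ∀ (B a b : ℝ) (f : ℝ → ℝ), a ≤ b → 0 ≤ B → Measurable f →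
      (∀ z, 0 < z → |f z| ≤ B) → (∀ z, 0 < z → z ∉ Set.Icc a b → f z = 0) → |T y f| ≤ C * (B * (b - a)))
    {v : ℕ → ℕ → ℝ} {V : ℝ → ℝ} (hV : Cz V) (hv : SupLim v V) {c : ℕ → ℕ} {h : ℝ} (hc : Hgt c h) :
    SupLim (fun n y => N n y (fun z => eps (c n) z * v n z)) (fun y => T y (fun z => chs h z * V z)) := by
  intro ε hε
  obtain ⟨B0, hB0⟩ := (cz_bz hV).bdd
  obtain ⟨B, hBd⟩ : ∃ B, B = max 1 B0 := ⟨_, rfl⟩
  have hB1 : 1 ≤ B := by rw [hBd]; exact le_max_left _ _
  have hB : ∀ z, 0 ≤ z → |V z| ≤ B := fun z hz => (hB0 z hz).trans (by rw [hBd]; exact le_max_right _ _)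
  obtain ⟨C1, hC1, h1⟩ := hN.one
  have s1 : ∀ᶠ n : ℕ in atTop, ∀ y ≤ n,
      |N n y (fun z => eps (c n) z * v n z) - N n y (fun z => eps (c n) z * V (z / Real.sqrt n))| ≤ ε / 4 := by
    have hε' : 0 < ε / (4 * (C1 + 1)) := by positivity
    filter_upwards [hv _ hε', h1, fabs97 hN] with n e1 e2 e3 y hy
    rw [← fsub97 hN]
    refine (e3 y hy _ (fun _ => ε / (4 * (C1 + 1)) * 1) (fun z hz => ?_)).trans ?_
    · rw [← mul_sub, abs_mul, eps_abs, one_mul, mul_one]
      exact e1 z hz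
    · rw [fsmul97 hN]
      refine (mul_le_mul_of_nonneg_left (e2 y hy) hε'.le).trans ?_
      have q2 : ε / (4 * (C1 + 1)) * C1 = ε / 4 * (C1 / (C1 + 1)) := by
        field_simp
      rw [q2]
      have q3 : C1 / (C1 + 1) ≤ 1 := by
        rw [div_le_one (by positivity)]
        linarith
      nlinarith
  rcases hc with ⟨hh, hc⟩ | ⟨hh, hc⟩
  · obtain ⟨C, hC, hts⟩ := hts
    obtain ⟨δ, hδ⟩ : ∃ δ, δ = min (h / 8) (ε / (80 * (B * (C + 1)))) := ⟨_, rfl⟩
    have hδ0 : 0 < δ := by
      rw [hδ]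
      exact lt_min (by positivity) (by positivity)
    have hδ1 : δ ≤ h / 8 := by rw [hδ]; exact min_le_left _ _
    have hδ2 : 20 * (B * C * δ) ≤ ε / 4 := by
      have h2 : δ ≤ ε / (80 * (B * (C + 1))) := by rw [hδ]; exact min_le_right _ _
      have h3 : B * (C + 1) * δ ≤ ε / 80 := by
        calc B * (C + 1) * δ ≤ B * (C + 1) * (ε / (80 * (B * (C + 1)))) :=
              mul_le_mul_of_nonneg_left h2 (by positivity)
          _ = ε / 80 := by field_simp
      have h4 : B * C * δ ≤ B * (C + 1) * δ := by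
        have : B * (C + 1) * δ = B * C * δ + B * δ := by ring
        have h5 : 0 ≤ B * δ := by positivity
        linarith
      linarith
    obtain ⟨κ, hκ⟩ : ∃ κ : ℝ → ℝ, κ = fun z => max (-1) (min 1 ((z - h) / δ)) := ⟨_, rfl⟩
    obtain ⟨b, hb⟩ : ∃ b : ℝ → ℝ, b = fun z => max 0 (2 - |z - h| / δ) := ⟨_, rfl⟩
    have hκc : Continuous κ := by rw [hκ]; exact kap_cont97 h δ
    have hκ1 : ∀ z, |κ z| ≤ 1 := fun z => by rw [hκ]; exact kap_abs97 h δ z
    have hbc : Continuous b := by rw [hb]; fun_prop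
    have hb0 : ∀ z, 0 ≤ b z := fun z => by rw [hb]; exact le_max_left _ _
    have hb2 : ∀ z, b z ≤ 2 := fun z => by
      rw [hb]
      refine max_le (by norm_num) ?_
      have : 0 ≤ |z - h| / δ := by positivity
      linarith
    have hbz : ∀ z, z ∉ Set.Icc (h - 2 * δ) (h + 2 * δ) → b z = 0 := by
      intro z hz
      rw [hb]
      refine max_eq_left ?_
      have h2 : 2 ≤ |z - h| / δ := by
        rw [le_div_iff₀ hδ0]
        rw [Set.mem_Icc, not_and_or, not_le, not_le] at hz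
        rcases hz with hz | hz
        · rw [abs_of_nonpos (by linarith)]
          linarith
        · rw [abs_of_nonneg (by linarith)]
          linarith
      linarith
    have hbm : ∀ z, |z - h| < δ → 1 ≤ b z := by
      intro z hz
      rw [hb]
      refine le_trans ?_ (le_max_right _ _)
      have h2 : |z - h| / δ ≤ 1 := by
        rw [div_le_one hδ0]
        exact hz.le
      linarith
    have hκV : Cz (fun z => κ z * V z) := by
      refine ⟨hκc.mul hV.cont, by simp only [hV.zero, mul_zero], ?_⟩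
      refine squeeze_zero_norm (fun z => ?_) (tendsto_norm_zero.comp hV.top)
      simp only [Function.comp, norm_mul, Real.norm_eq_abs]
      exact mul_le_of_le_one_left (abs_nonneg _) (hκ1 z)
    have hbC : Cz b := by
      refine ⟨hbc, hbz 0 ?_, ?_⟩
      · rw [Set.mem_Icc, not_and_or]
        left
        linarith
      · refine tendsto_const_nhds.congr' ?_
        filter_upwards [eventually_gt_atTop (h + 2 * δ)] with z hz
        symm
        refine hbz z ?_
        rw [Set.mem_Icc, not_and_or]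
        right
        linarith
    have hcn : ∀ᶠ n : ℕ in atTop, |(c n : ℝ) / Real.sqrt n - h| < δ := by
      have h4 := Metric.tendsto_nhds.1 hc δ hδ0
      filter_upwards [h4] with n hn
      rwa [Real.dist_eq] at hn
    have hε' : 0 < ε / (16 * B) := by positivity
    filter_upwards [s1, hcn, hcz _ hκV (ε / 8) (by positivity), hcz _ hbC _ hε', fabs97 hN,
      eventually_gt_atTop 0] with n e1 e2 e3 e4 e5 e6 y hy
    have hn' : (0 : ℝ) < n := by exact_mod_cast e6
    have hs : 0 < Real.sqrt n := Real.sqrt_pos.mpr hn'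
    have hy0 : 0 ≤ (y : ℝ) / Real.sqrt n := by positivity
    have f1 := e1 y hy
    have f3 := e3 y hy
    have f4 := e4 y hy
    -- comparison on the profiles
    have g1 : ∀ z : ℕ, |eps (c n) z - κ (z / Real.sqrt n)| ≤ 2 * b (z / Real.sqrt n) := by
      intro z
      by_cases hz : |(z : ℝ) / Real.sqrt n - h| < δ
      · have q1 := hbm _ hz
        have q2 := abs_sub (eps (c n) z) (κ (z / Real.sqrt n))
        rw [eps_abs] at q2
        have q3 := hκ1 (z / Real.sqrt n)
        linarith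
      · rw [not_lt, le_abs] at hz
        rw [abs_lt] at e2
        have q0 := hb0 (z / Real.sqrt n)
        rcases hz with hz | hz
        · have q1 : κ (z / Real.sqrt n) = 1 := by
            rw [hκ]
            exact kap_hi97 hδ0 (by linarith)
          have q2 : eps (c n) z = 1 := by
            unfold eps
            rw [if_neg]
            intro hlt
            have q3 : (z : ℝ) / Real.sqrt n < c n / Real.sqrt n :=
              div_lt_div_of_pos_right (by exact_mod_cast hlt) hs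
            linarith [e2.2]
          rw [q1, q2, sub_self, abs_zero]
          positivity
        · have q1 : κ (z / Real.sqrt n) = -1 := by
            rw [hκ]
            exact kap_lo97 hδ0 (by linarith)
          have q2 : eps (c n) z = -1 := by
            unfold eps
            rw [if_pos]
            by_contra hlt
            rw [not_lt] at hlt
            have q3 : (c n : ℝ) / Real.sqrt n ≤ z / Real.sqrt n :=
              div_le_div_of_nonneg_right (by exact_mod_cast hlt) hs.le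
            linarith [e2.1]
          rw [q1, q2, sub_self, abs_zero]
          positivity
    have g2 : |N n y (fun z => eps (c n) z * V (z / Real.sqrt n)) -
        N n y (fun z => κ (z / Real.sqrt n) * V (z / Real.sqrt n))| ≤
        2 * B * N n y (fun z => b (z / Real.sqrt n)) := by
      rw [← fsub97 hN, ← fsmul97 hN]
      refine e5 y hy _ _ (fun z _ => ?_)
      rw [← sub_mul, abs_mul]
      have q1 := hB ((z : ℝ) / Real.sqrt n) (by positivity)
      calc |eps (c n) z - κ (z / Real.sqrt n)| * |V (z / Real.sqrt n)| ≤ 2 * b (z / Real.sqrt n) * B :=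
            mul_le_mul (g1 z) q1 (abs_nonneg _) (by have := hb0 ((z : ℝ) / Real.sqrt n); positivity)
        _ = 2 * B * b (z / Real.sqrt n) := by ring
    have g3 := hts _ hy0 2 (h - 2 * δ) (h + 2 * δ) b (by linarith) (by norm_num) hbc.measurable
      (fun z _ => by rw [abs_of_nonneg (hb0 z)]; exact hb2 z) (fun z _ hz => hbz z hz)
    have g4 : 2 * B * N n y (fun z => b (z / Real.sqrt n)) ≤ 16 * (B * C * δ) + ε / 8 := by
      have q1 : N n y (fun z => b (z / Real.sqrt n)) ≤ C * (2 * (h + 2 * δ - (h - 2 * δ))) + ε / (16 * B) := by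
        have := (abs_le.1 f4).2
        have := (abs_le.1 g3).2
        linarith
      refine (mul_le_mul_of_nonneg_left q1 (by positivity : (0 : ℝ) ≤ 2 * B)).trans (le_of_eq ?_)
      field_simp
      ring
    -- comparison of the limits
    have hcm : Measurable (chs h) := by
      unfold chs
      exact Measurable.ite measurableSet_Iio measurable_const measurable_const
    have hc1 : ∀ z, |chs h z| ≤ 1 := by
      intro z
      unfold chs
      split_ifs <;> norm_num
    have g5 : |T (y / Real.sqrt n) (fun z => chs h z * V z) - T (y / Real.sqrt n) (fun z => κ z * V z)| ≤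
        4 * (B * C * δ) := by
      have q0 := tsub97 (f := fun z => chs h z * V z) (g := fun z => κ z * V z) hN hy0 (B := B)
        (hcm.mul hV.cont.measurable) (hκc.measurable.mul hV.cont.measurable)
        (fun z hz => by
          rw [abs_mul]
          calc |chs h z| * |V z| ≤ 1 * B := mul_le_mul (hc1 z) (hB z hz.le) (abs_nonneg _) zero_le_one
            _ = B := one_mul _)
        (fun z hz => by
          rw [abs_mul]
          calc |κ z| * |V z| ≤ 1 * B := mul_le_mul (hκ1 z) (hB z hz.le) (abs_nonneg _) zero_le_one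
            _ = B := one_mul _)
      rw [← q0]
      refine (hts _ hy0 (2 * B) (h - δ) (h + δ) _ (by linarith) (by positivity) ?_ (fun z hz => ?_)
        (fun z hz hzn => ?_)).trans (le_of_eq ?_)
      · exact (hcm.mul hV.cont.measurable).sub (hκc.measurable.mul hV.cont.measurable)
      · rw [← sub_mul, abs_mul]
        have q2 := abs_sub (chs h z) (κ z)
        calc |chs h z - κ z| * |V z| ≤ 2 * B := mul_le_mul (by linarith [hc1 z, hκ1 z]) (hB z hz.le)
              (abs_nonneg _) (by norm_num)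
          _ = 2 * B := rfl
      · rw [Set.mem_Icc, not_and_or, not_le, not_le] at hzn
        rcases hzn with hzn | hzn
        · have q1 : κ z = -1 := by
            rw [hκ]
            exact kap_lo97 hδ0 hzn.le
          have q2 : chs h z = -1 := by
            unfold chs
            rw [if_pos (by linarith)]
          rw [q1, q2, sub_self]
        · have q1 : κ z = 1 := by
            rw [hκ]
            exact kap_hi97 hδ0 hzn.le
          have q2 : chs h z = 1 := by
            unfold chs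
            rw [if_neg (by linarith)]
          rw [q1, q2, sub_self]
      · ring
    have g6 : N n y (fun z => eps (c n) z * v n z) - T (y / Real.sqrt n) (fun z => chs h z * V z) =
        (N n y (fun z => eps (c n) z * v n z) - N n y (fun z => eps (c n) z * V (z / Real.sqrt n))) +
        (N n y (fun z => eps (c n) z * V (z / Real.sqrt n)) -
          N n y (fun z => κ (z / Real.sqrt n) * V (z / Real.sqrt n))) +
        ((N n y (fun z => κ (z / Real.sqrt n) * V (z / Real.sqrt n)) -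
          T (y / Real.sqrt n) (fun z => κ z * V z)) -
        (T (y / Real.sqrt n) (fun z => chs h z * V z) - T (y / Real.sqrt n) (fun z => κ z * V z))) := by ring
    rw [g6]
    refine (abs_add_three _ _ _).trans ?_
    have g7 := abs_sub (N n y (fun z => κ (z / Real.sqrt n) * V (z / Real.sqrt n)) -
          T (y / Real.sqrt n) (fun z => κ z * V z))
        (T (y / Real.sqrt n) (fun z => chs h z * V z) - T (y / Real.sqrt n) (fun z => κ z * V z))
    linarith
  · filter_upwards [s1, hcz V hV (ε / 4) (by positivity)] with n e1 e2 y hy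
    have f1 := e1 y hy
    have f2 := e2 y hy
    have f3 : (fun z : ℕ => eps (c n) z * V (z / Real.sqrt n)) = fun z : ℕ => V (z / Real.sqrt n) := by
      funext z
      rw [hc n, eps_zero, one_mul]
    rw [f3] at f1
    have f4 : T (y / Real.sqrt n) (fun z => chs h z * V z) = T (y / Real.sqrt n) V := by
      refine hN.tcongr _ _ _ (fun z hz => ?_)
      unfold chs
      rw [hh, if_neg (by linarith), one_mul]
    rw [f4]
    have f5 := abs_sub_le (N n y (fun z => eps (c n) z * v n z)) (N n y (fun z => V (z / Real.sqrt n)))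
      (T (y / Real.sqrt n) V)
    linarith

end

section

variable {t td : ℝ} (ht : 0 < t) (hq : t ^ 2 + 2 * t < 1) (htd : 0 < td) (htt : td < t) {a : ℕ → ℝ}
  (ha : Nrm t td a)

/-- The variance is positive. -/
theorem sg_pos97 {t : ℝ} (ht : 0 < t) (hq : t ^ 2 + 2 * t < 1) : 0 < sg t := by
  have h1 := lam_pos ht (t_lt_one ht hq)
  have h2 := lam_lt_one ht hq
  have h3 : 0 < 1 - lam t ^ 2 := by nlinarith
  unfold sg
  positivity

private lemma rhoi97 {v : ℝ} (hv : 0 < v) : MeasureTheory.Integrable (fun z => rho v z) := by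
  have h1 : MeasureTheory.Integrable (fun x : ℝ => x * Real.exp (-(1 / (2 * v)) * x ^ 2)) :=
    integrable_mul_exp_neg_mul_sq (by positivity)
  have h2 := h1.div_const (Real.sqrt (Real.pi / 2) * (v * Real.sqrt v))
  refine h2.congr (Filter.Eventually.of_forall fun x => ?_)
  unfold rho
  simp only
  congr 3
  ring

private lemma tail97 {v : ℝ} (hv : 0 < v) {η : ℝ} (hη : 0 < η) : ∃ A₀ : ℝ, ∀ A, A₀ ≤ A → ∀ g : ℝ → ℝ,
    (∀ z, 0 < z → |g z| ≤ 1) → (∀ z, 0 < z → z ≤ A → g z = 0) → |La v g| ≤ η := by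
  have h1 : Tendsto (fun A : ℝ => ∫ z in Set.Ioi A, rho v z) atTop (nhds 0) := by
    have h2 := MeasureTheory.tendsto_setIntegral_of_antitone (ι := ℝ) (μ := MeasureTheory.volume)
      (f := fun z => rho v z) (s := fun A : ℝ => Set.Ioi A) (fun _ => measurableSet_Ioi)
      (fun a b hab => Set.Ioi_subset_Ioi hab) ⟨0, (rhoi97 hv).integrableOn⟩
    have h3 : (⋂ n : ℝ, Set.Ioi n) = (∅ : Set ℝ) := by
      rw [Set.eq_empty_iff_forall_notMem]
      intro x hx
      exact lt_irrefl x (Set.mem_iInter.1 hx x)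
    rw [h3, MeasureTheory.setIntegral_empty] at h2
    exact h2
  obtain ⟨A1, hA1⟩ := Filter.eventually_atTop.1 (Metric.tendsto_nhds.1 h1 η hη)
  refine ⟨max A1 0, fun A hA g hg1 hg0 => ?_⟩
  have hA0 : 0 ≤ A := (le_max_right _ _).trans hA
  have h2 := hA1 A ((le_max_left _ _).trans hA)
  rw [Real.dist_eq, sub_zero] at h2
  have h3 : La v g = ∫ z in Set.Ioi A, rho v z * g z := by
    unfold La
    refine MeasureTheory.setIntegral_eq_of_subset_of_forall_sdiff_eq_zero measurableSet_Ioi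
      (Set.Ioi_subset_Ioi hA0) (fun x hx => ?_)
    have hx1 : 0 < x := hx.1
    have hx2 : x ≤ A := not_lt.1 hx.2
    rw [hg0 x hx1 hx2, mul_zero]
  rw [h3, ← Real.norm_eq_abs]
  have h4 : ‖∫ z in Set.Ioi A, rho v z * g z‖ ≤ ∫ z in Set.Ioi A, rho v z := by
    refine MeasureTheory.norm_integral_le_of_norm_le (rhoi97 hv).integrableOn ?_
    rw [MeasureTheory.ae_restrict_iff' measurableSet_Ioi]
    refine Filter.Eventually.of_forall (fun z hz => ?_)
    have hz' : (0 : ℝ) < z := lt_of_le_of_lt hA0 hz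
    have h0 : 0 ≤ rho v z := by
      unfold rho
      positivity
    rw [norm_mul, Real.norm_eq_abs, Real.norm_eq_abs, abs_of_nonneg h0]
    exact mul_le_of_le_one_right h0 (hg1 z hz')
  linarith [le_abs_self (∫ z in Set.Ioi A, rho v z)]

include ht hq htd htt ha

private lemma efam97 {l : ℕ → ℕ} {s : ℝ} (hs : 0 < s)
    (hl : Tendsto (fun n : ℕ => (l n : ℝ) / n) atTop (nhds s)) :
    Fam97 (fun n _ E => Real.sqrt n * gsum t td n (l n) E 0 / (a n * lam t ^ l n)) (fun _ f => La (sg t * s) f) := by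
  have hsg : 0 < sg t := sg_pos97 ht hq
  have hv : 0 < sg t * s := mul_pos hsg hs
  have hlam := lam_pos ht (t_lt_one ht hq)
  obtain ⟨⟨c, C, hc, hca⟩, -⟩ := ha
  refine ⟨?_, ?_, ?_, ?_, ?_, ?_⟩
  · intro n y a' b' E F
    rw [gsum_lin]
    ring
  · filter_upwards [hca, eventually_ge_atTop 2] with n e1 e2 y hy E F hEF
    have h1 := (lev_mono (L := l n) (E := E) (F := F) ht hq htd htt.le e2 hEF).2 0 (Nat.zero_le n)
    have h2 : 0 < a n := lt_of_lt_of_le hc e1.1
    have h3 := pow_pos hlam (l n)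
    refine div_le_div_of_nonneg_right ?_ (by positivity)
    exact mul_le_mul_of_nonneg_left h1 (Real.sqrt_nonneg _)
  · obtain ⟨C1, hC1, H1⟩ := ell_one ht hq htd htt
    refine ⟨C1 * Real.sqrt (2 / s) / c, by positivity, ?_⟩
    have h4 : ∀ᶠ n : ℕ in atTop, s / 2 < (l n : ℝ) / n := hl.eventually (lt_mem_nhds (by linarith))
    filter_upwards [hca, h4, eventually_ge_atTop 2] with n e1 e2 e3 y hy
    have hn' : (0 : ℝ) < n := by
      have : (0 : ℕ) < n := by omega
      exact_mod_cast this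
    have h5 := H1 n (l n) e3
    have h6 : 0 < a n := lt_of_lt_of_le hc e1.1
    have h7 := pow_pos hlam (l n)
    have hl1 : (0 : ℝ) < (l n : ℝ) + 1 := by positivity
    rw [div_le_iff₀ (by positivity)]
    have h8 : Real.sqrt n * gsum t td n (l n) (fun _ => 1) 0 ≤ Real.sqrt n * (C1 * lam t ^ l n / Real.sqrt (l n + 1)) :=
      mul_le_mul_of_nonneg_left h5 (Real.sqrt_nonneg _)
    refine h8.trans ?_
    have h9 : Real.sqrt n / Real.sqrt (l n + 1) ≤ Real.sqrt (2 / s) := by
      rw [← Real.sqrt_div hn'.le]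
      refine Real.sqrt_le_sqrt ?_
      rw [lt_div_iff₀ hn'] at e2
      rw [div_le_div_iff₀ hl1 hs]
      linarith
    have h10 : Real.sqrt n * (C1 * lam t ^ l n / Real.sqrt (l n + 1)) =
        C1 * (Real.sqrt n / Real.sqrt (l n + 1)) * lam t ^ l n := by ring
    rw [h10]
    have h11 : C1 * Real.sqrt (2 / s) / c * (a n * lam t ^ l n) =
        C1 * Real.sqrt (2 / s) * (a n / c) * lam t ^ l n := by ring
    rw [h11]
    refine mul_le_mul_of_nonneg_right ?_ h7.le
    have h12 : 1 ≤ a n / c := by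
      rw [one_le_div hc]
      exact e1.1
    calc C1 * (Real.sqrt n / Real.sqrt (l n + 1)) ≤ C1 * Real.sqrt (2 / s) := mul_le_mul_of_nonneg_left h9 hC1.le
      _ ≤ C1 * Real.sqrt (2 / s) * (a n / c) := le_mul_of_one_le_right (by positivity) h12
  · intro y _ a' b' B f g hf hg hfB hgB
    exact la_lin hv a' b' hf hg hfB hgB
  · intro y f g hfg
    unfold La
    refine MeasureTheory.setIntegral_congr_fun measurableSet_Ioi (fun z hz => ?_)
    rw [hfg z hz]
  · refine ⟨1 / Real.sqrt (sg t * s), by positivity, fun y _ B f hf hB => ?_⟩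
    refine (la_le hv hf hB).trans (le_of_eq ?_)
    ring

private lemma etail97 {l : ℕ → ℕ} {s : ℝ} (hs : 0 < s)
    (hl : Tendsto (fun n : ℕ => (l n : ℝ) / n) atTop (nhds s)) {η : ℝ} (hη : 0 < η) :
    ∃ A₀ : ℝ, ∀ A, A₀ ≤ A → ∀ᶠ n : ℕ in atTop,
      Real.sqrt n * gsum t td n (l n) (fun z => if A * Real.sqrt n ≤ z then 1 else 0) 0 / (a n * lam t ^ l n) ≤ η := by
  have hlam := lam_pos ht (t_lt_one ht hq)
  obtain ⟨⟨c, C, hc, hca⟩, -⟩ := ha
  obtain ⟨C1, K, ε₀, hC1, hK, hε, hε1, H⟩ := ell_tail ht hq htd htt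
  obtain ⟨D, hD⟩ : ∃ D, D = C1 * Real.exp (K * (2 * s)) / c := ⟨_, rfl⟩
  have hD0 : 0 < D := by rw [hD]; positivity
  refine ⟨max 1 (D / η), fun A hA => ?_⟩
  have hA1 : 1 ≤ A := (le_max_left _ _).trans hA
  have hA2 : D / η ≤ A := (le_max_right _ _).trans hA
  have h4 : ∀ᶠ n : ℕ in atTop, (l n : ℝ) / n < 2 * s := hl.eventually (gt_mem_nhds (by linarith))
  have h5 : ∀ᶠ n : ℕ in atTop, 1 / ε₀ ≤ Real.sqrt n :=
    (Real.tendsto_sqrt_atTop.comp tendsto_natCast_atTop_atTop).eventually_ge_atTop _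
  filter_upwards [hca, h4, h5, eventually_ge_atTop 2] with n e1 e2 e3 e4
  have hn' : (0 : ℝ) < n := by
    have : (0 : ℕ) < n := by omega
    exact_mod_cast this
  have hsn : 0 < Real.sqrt n := Real.sqrt_pos.mpr hn'
  have h6 : 0 < a n := lt_of_lt_of_le hc e1.1
  have h7 := pow_pos hlam (l n)
  have h8 := H (1 / Real.sqrt n) (by positivity) (by
    rw [div_le_iff₀ hsn]
    rw [div_le_iff₀ hε] at e3
    linarith) (A * Real.sqrt n) (by positivity) n (l n) e4
  have h9 : 1 / Real.sqrt n * (A * Real.sqrt n) = A := by field_simp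
  rw [h9] at h8
  have h10 : (1 / Real.sqrt n) ^ 2 = 1 / n := by
    rw [div_pow, Real.sq_sqrt hn'.le, one_pow]
  rw [h10, mul_pow, ← Real.exp_nat_mul] at h8
  have h11 : Real.exp ((l n : ℝ) * (K * (1 / n))) ≤ Real.exp (K * (2 * s)) := by
    rw [Real.exp_le_exp]
    have : (l n : ℝ) * (K * (1 / n)) = K * ((l n : ℝ) / n) := by ring
    rw [this]
    exact mul_le_mul_of_nonneg_left e2.le hK.le
  have h12 : A ≤ Real.sinh A := Real.self_le_sinh_iff.2 (by linarith)
  rw [div_le_iff₀ (by positivity)]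
  have h13 : Real.sqrt n * gsum t td n (l n) (fun z => if A * Real.sqrt n ≤ z then 1 else 0) 0 ≤
      Real.sqrt n * (C1 * (1 / Real.sqrt n) * (lam t ^ l n * Real.exp ((l n : ℝ) * (K * (1 / n)))) / Real.sinh A) :=
    mul_le_mul_of_nonneg_left h8 hsn.le
  refine h13.trans ?_
  have hA0 : 0 < A := by linarith
  have hsA : 0 < Real.sinh A := by linarith
  have h14 : Real.sqrt n * (C1 * (1 / Real.sqrt n) * (lam t ^ l n * Real.exp ((l n : ℝ) * (K * (1 / n)))) / Real.sinh A) =
      C1 * Real.exp ((l n : ℝ) * (K * (1 / n))) / Real.sinh A * lam t ^ l n := by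
    field_simp
  rw [h14, ← mul_assoc η]
  refine mul_le_mul_of_nonneg_right ?_ h7.le
  have h15 : C1 * Real.exp ((l n : ℝ) * (K * (1 / n))) / Real.sinh A ≤ C1 * Real.exp (K * (2 * s)) / A := by
    gcongr
  refine h15.trans ?_
  have h16 : C1 * Real.exp (K * (2 * s)) = D * c := by
    rw [hD]
    field_simp
  rw [h16]
  have h17 : D / A ≤ η := by
    rw [div_le_iff₀ hA0]
    rw [div_le_iff₀ hη] at hA2
    linarith
  calc D * c / A = D / A * c := by ring
    _ ≤ η * c := mul_le_mul_of_nonneg_right h17 hc.le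
    _ ≤ η * a n := mul_le_mul_of_nonneg_left e1.1 hη.le

theorem ell_cz {f : ℝ → ℝ} (hf : Cz f) {l : ℕ → ℕ} {s : ℝ} (hs : 0 < s)
    (hl : Tendsto (fun n : ℕ => (l n : ℝ) / n) atTop (nhds s)) :
    Tendsto (fun n : ℕ => Real.sqrt n * gsum t td n (l n) (fun z => f (z / Real.sqrt n)) 0 /
      (a n * lam t ^ l n)) atTop (nhds (La (sg t * s) f)) := by
  have hfam := efam97 ht hq htd htt ha hs hl
  have hv : 0 < sg t * s := mul_pos (sg_pos97 ht hq) hs
  rw [Metric.tendsto_nhds]
  intro ε hε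
  have h1 := fam_cz97 hfam (R := 0) (fun η hη => by
      obtain ⟨A₀, hA₀⟩ := etail97 ht hq htd htt ha hs hl hη
      refine ⟨A₀, fun A hA => ?_⟩
      filter_upwards [hA₀ A hA] with n hn y _ _
      exact hn)
    (fun θ j u hθ0 hθj hθu ε' hε' => by
      have h2 := ha.2 θ j l u s hs hθ0 hθj hθu hl
      filter_upwards [Metric.tendsto_nhds.1 h2 ε' hε'] with n hn y _ _
      rw [Real.dist_eq] at hn
      rw [la_sin hv]
      exact hn.le)
    (fun η hη => by
      obtain ⟨A₀, hA₀⟩ := tail97 hv hη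
      exact ⟨A₀, fun A hA y _ _ g _ hg1 hg0 => hA₀ A hA g hg1 hg0⟩) hf (half_pos hε)
  filter_upwards [h1] with n hn
  have h3 := hn 0 (Nat.zero_le n) (by simp)
  rw [Real.dist_eq]
  linarith

theorem ell_step {v : ℕ → ℕ → ℝ} {V : ℝ → ℝ} (hV : Cz V) (hv : SupLim v V) {l c : ℕ → ℕ} {s h : ℝ} (hs : 0 < s)
    (hl : Tendsto (fun n : ℕ => (l n : ℝ) / n) atTop (nhds s)) (hc : Hgt c h) :
    Tendsto (fun n : ℕ => Real.sqrt n * gsum t td n (l n) (fun z => eps (c n) z * v n z) 0 /
      (a n * lam t ^ l n)) atTop (nhds (La (sg t * s) (fun z => chs h z * V z))) := by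
  have hfam := efam97 ht hq htd htt ha hs hl
  have hv' : 0 < sg t * s := mul_pos (sg_pos97 ht hq) hs
  have h1 := fam_step97 hfam (fun f hf ε hε => by
      have h2 := ell_cz ht hq htd htt ha hf hs hl
      filter_upwards [Metric.tendsto_nhds.1 h2 ε hε] with n hn y _
      rw [Real.dist_eq] at hn
      exact hn.le)
    ⟨1 / (sg t * s), by positivity, fun y _ B a' b' f hab hB0 hf hfB hf0 =>
      (la_small hv' hab hB0 hf hfB hf0).trans (le_of_eq (by ring))⟩ hV hv hc
  rw [Metric.tendsto_nhds]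
  intro ε hε
  filter_upwards [h1 (ε / 2) (half_pos hε)] with n hn
  have h3 := hn 0 (Nat.zero_le n)
  rw [Real.dist_eq]
  linarith

end

end Pool.Agent.Helper49.RD
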