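import Pool.Agent.Helper49.RD.Ell

/-!
Block RD-ES: the boundary functional on sine functions; its normalisation.

`ℓ_l (f) = gsum t td n l f 0`, strip of half height `n`, `λ = lam t`, `g = sg t`, `L = 2 n + 1`.

Paper proof of `nrm_exists`. Let `θ⁰ n = π ⌊√n/π⌋ / n`, `θ⁰ n * √n → 1`, and `a n = √n e^g ℓ_L (sin (θ⁰ n ·)) / λ^L`. Let `θ, j, u, l, s` be as in the definition of `Nrm`. Fix `0 < η < min (s, 1)`, `k n = ⌊η n⌋`.
(1) `ℓ_l (sin θ) = ℓ_k (lev l (sin θ) k)` (`gsum_comp`, `k ≤ l` eventually) `= (H (k+1)/H (l+1)) ℓ_k (sin θ) + E`, `|E| ≤ C θ λ^(l-k) ℓ_k (1) ≤ C' θ λ^l (k + 1)^(-1/2)` (`lev_sin`, `ell_one`, positivity), and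
`(H (k+1)/H (l+1)) / λ^(l-k) → exp (-(g (s - η) u²/2))` (`hh_ratio_lim` for `k + 1`, `l + 1`).
(2) `|sin x - x| ≤ x³/6` for `x ≥ 0`: `|ℓ_k (sin θ) - θ ℓ_k (z)| ≤ θ³/6 ℓ_k (z³) ≤ C θ³ (k + 1) λ^k` (`ell_cube`).
(3) `m n = ℓ_k (z)/λ^k` satisfies `c' ≤ m n ≤ C` for large `n` (`ell_low` minus `ell_one`, `ell_lin`), where `c'` does not depend on `η`.
Hence `√n ℓ_l (sin θ)/λ^l = exp (-(g (s - η) u²/2)) u m n + O (u³ η) + o (1)` (constants independent of `η`; `√n θ n → u`, `√n θ³ k → u³ η`), and the same for `θ⁰` and `L` (`u = 1`, `s = 2`): `a n = exp (g η/2) m n + O (η) + o (1)`. So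
`a n` is bounded and, for `η` small, `≥ c'/2` for large `n`; and `limsup |√n ℓ_l (sin θ)/λ^l - u exp (-(g s u²/2)) a n| ≤ C η` for every `η`, so it is `0`; divide by `a n ≥ c'/2`.
-/

open Finset Filter

namespace Pool.Agent.Helper49.RD

open Pool.Agent.Helper49.DL Pool.Agent.Helper49.DX

/-- The sequence `a` normalises the boundary functional. -/
def Nrm (t td : ℝ) (a : ℕ → ℝ) : Prop :=
  (∃ c C : ℝ, 0 < c ∧ ∀ᶠ n in atTop, c ≤ a n ∧ a n ≤ C) ∧
    ∀ (θ : ℕ → ℝ) (j l : ℕ → ℕ) (u s : ℝ), 0 < s → (∀ n, 0 ≤ θ n) → (∀ n, θ n * n = Real.pi * j n) →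
      Tendsto (fun n : ℕ => θ n * Real.sqrt n) atTop (nhds u) →
      Tendsto (fun n : ℕ => (l n : ℝ) / n) atTop (nhds s) →
      Tendsto (fun n : ℕ => Real.sqrt n * gsum t td n (l n) (fun z => Real.sin (θ n * z)) 0 /
        (a n * lam t ^ l n)) atTop (nhds (u * Real.exp (-(sg t * s * u ^ 2 / 2))))

private lemma sin_h85 {x : ℝ} (hx : 0 ≤ x) : x - 2 * x ^ 3 ≤ Real.sin x ∧ Real.sin x ≤ x := by
  refine ⟨?_, Real.sin_le hx⟩
  rcases hx.eq_or_lt with rfl | hx0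
  · simp
  have h2 := Real.sin_gt_sub_cube hx0
  have h3 : 0 ≤ x ^ 3 := by positivity
  linarith

private lemma tz_h85 {θ : ℕ → ℝ} {u : ℝ} (hθ : Tendsto (fun n : ℕ => θ n * Real.sqrt n) atTop (nhds u)) :
    Tendsto (fun n : ℕ => (n : ℝ) * θ n ^ 2) atTop (nhds (u ^ 2)) := by
  refine (hθ.pow 2).congr fun n => ?_
  rw [mul_pow, Real.sq_sqrt (Nat.cast_nonneg n), mul_comm]

private lemma fl_h85 {η : ℝ} (hη : 0 ≤ η) :
    Tendsto (fun n : ℕ => ((⌊η * n⌋₊ : ℕ) : ℝ) / n) atTop (nhds η) :=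
  (tendsto_nat_floor_mul_div_atTop hη).comp tendsto_natCast_atTop_atTop

private lemma inv_h85 : Tendsto (fun n : ℕ => (1 : ℝ) / n) atTop (nhds 0) :=
  tendsto_one_div_atTop_nhds_zero_nat

private lemma add1_h85 {k : ℕ → ℕ} {s : ℝ} (hk : Tendsto (fun n : ℕ => (k n : ℝ) / n) atTop (nhds s)) :
    Tendsto (fun n : ℕ => ((k n + 1 : ℕ) : ℝ) / n) atTop (nhds s) := by
  have h1 := hk.add inv_h85
  rw [add_zero] at h1
  refine h1.congr fun n => ?_
  push_cast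
  rw [add_div]

private lemma kinf_h85 {η : ℝ} (hη : 0 < η) :
    Tendsto (fun n : ℕ => (1 : ℝ) / Real.sqrt (((⌊η * n⌋₊ : ℕ) : ℝ) + 1)) atTop (nhds 0) := by
  have h1 : Tendsto (fun n : ℕ => ((⌊η * n⌋₊ : ℕ) : ℝ)) atTop atTop := by
    refine tendsto_natCast_atTop_atTop.comp (tendsto_nat_floor_atTop.comp ?_)
    exact tendsto_natCast_atTop_atTop.const_mul_atTop hη
  have h2 : Tendsto (fun n : ℕ => Real.sqrt (((⌊η * n⌋₊ : ℕ) : ℝ) + 1)) atTop atTop :=
    Real.tendsto_sqrt_atTop.comp (tendsto_atTop_add_const_right _ _ h1)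
  simp only [one_div]
  exact tendsto_inv_atTop_zero.comp h2

private lemma gsum_sc_h85 (t td : ℝ) (m l : ℕ) (a : ℝ) (E : ℕ → ℝ) :
    gsum t td m l (fun z => a * E z) 0 = a * gsum t td m l E 0 := by
  have h1 := gsum_lin t td m l a 0 E E 0
  rw [zero_mul, add_zero] at h1
  rw [← h1]
  exact gsum_congr t td (fun y _ => by ring) 0

/-- the pointwise comparison -/
private lemma cmp_h85 {t td : ℝ} (ht : 0 < t) (hq : t ^ 2 + 2 * t < 1) (htd : 0 < td) (htt : td < t) {m : ℕ} (hm : 2 ≤ m)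
    (l : ℕ) {F E G : ℕ → ℝ} {a b : ℝ} (h : ∀ y ≤ m, |F y - a * E y| ≤ b * G y) :
    |gsum t td m l F 0 - a * gsum t td m l E 0| ≤ b * gsum t td m l G 0 := by
  have h1 := (lev_mono (L := l) (E := F) (F := fun z => a * E z + b * G z) ht hq htd htt.le hm (fun y hy => by
    have := (abs_le.1 (h y hy)).2
    linarith)).2 0 (by omega)
  have h2 := (lev_mono (L := l) (E := fun z => a * E z + (-b) * G z) (F := F) ht hq htd htt.le hm (fun y hy => by
    have := (abs_le.1 (h y hy)).1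
    linarith)).2 0 (by omega)
  rw [gsum_lin] at h1 h2
  rw [abs_le]
  constructor <;> linarith

/-- the main estimate -/
private lemma main_h85 {t td : ℝ} (ht : 0 < t) (hq : t ^ 2 + 2 * t < 1) (htd : 0 < td) (htt : td < t)
    {θ : ℕ → ℝ} {j l : ℕ → ℕ} {u s : ℝ} (hθ0 : ∀ n, 0 ≤ θ n) (hj : ∀ n, θ n * n = Real.pi * j n)
    (hθ : Tendsto (fun n : ℕ => θ n * Real.sqrt n) atTop (nhds u))
    (hl : Tendsto (fun n : ℕ => (l n : ℝ) / n) atTop (nhds s)) :
    ∃ D : ℝ, 0 ≤ D ∧ ∀ η : ℝ, 0 < η → η < s → ∀ ε : ℝ, 0 < ε → ∀ᶠ n : ℕ in atTop,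
      |Real.sqrt n * gsum t td n (l n) (fun z => Real.sin (θ n * z)) 0 / lam t ^ l n -
        Real.exp (-(sg t * (s - η) * u ^ 2 / 2)) * u *
          (gsum t td n ⌊η * n⌋₊ (fun z => (z : ℝ)) 0 / lam t ^ ⌊η * n⌋₊)| ≤ D * η + ε := by
  have ht1 := t_lt_one ht hq
  have hlam := lam_pos ht ht1
  have hlam1 := lam_lt_one ht hq
  have hsg : 0 ≤ sg t := by
    unfold sg
    have : 0 < 1 - lam t ^ 2 := by nlinarith
    positivity
  obtain ⟨C1, hC1, h1⟩ := lev_sin ht hq htd htt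
  obtain ⟨C2, hC2, h2⟩ := ell_one ht hq htd htt
  obtain ⟨C3, hC3, h3⟩ := ell_cube ht hq htd htt
  obtain ⟨C4, hC4, h4⟩ := ell_lin ht hq htd htt
  have hu : 0 ≤ u := ge_of_tendsto' hθ fun n => mul_nonneg (hθ0 n) (Real.sqrt_nonneg _)
  refine ⟨2 * C3 * u ^ 3, by positivity, fun η hη hηs ε hε => ?_⟩
  obtain ⟨k, hk⟩ : ∃ k : ℕ → ℕ, ∀ n, k n = ⌊η * n⌋₊ := ⟨_, fun _ => rfl⟩
  have hkl : Tendsto (fun n : ℕ => (k n : ℝ) / n) atTop (nhds η) := by
    refine (fl_h85 hη.le).congr fun n => ?_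
    rw [hk]
  have hkle : ∀ᶠ n in atTop, k n ≤ l n := by
    have e1 : ∀ᶠ n : ℕ in atTop, η < (l n : ℝ) / n := hl.eventually (lt_mem_nhds hηs)
    filter_upwards [e1, eventually_gt_atTop 0] with n e2 hn
    have hn' : (0 : ℝ) < n := by exact_mod_cast hn
    rw [lt_div_iff₀ hn'] at e2
    have e3 : (k n : ℝ) ≤ η * n := by
      rw [hk]
      exact Nat.floor_le (by positivity)
    have e4 : (k n : ℝ) < l n := lt_of_le_of_lt e3 e2
    exact_mod_cast e4.le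
  obtain ⟨R, hR⟩ : ∃ R, R = Real.exp (-(sg t * (s - η) * u ^ 2 / 2)) := ⟨_, rfl⟩
  have hR0 : 0 < R := by rw [hR]; exact Real.exp_pos _
  have hR1 : R ≤ 1 := by
    rw [hR, Real.exp_le_one_iff]
    have : 0 ≤ sg t * (s - η) * u ^ 2 := mul_nonneg (mul_nonneg hsg (by linarith)) (sq_nonneg u)
    linarith
  obtain ⟨ρ, hρ⟩ : ∃ ρ : ℕ → ℝ, ∀ n, ρ n = Hh t (θ n) (k n + 1) / Hh t (θ n) (l n + 1) / lam t ^ (l n + 1 - (k n + 1)) :=
    ⟨_, fun _ => rfl⟩
  have hρlim : Tendsto ρ atTop (nhds R) := by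
    have e1 := hh_ratio_lim ht hq hθ (k := fun n => k n + 1) (l := fun n => l n + 1)
      (hkle.mono fun n hn => by omega) (add1_h85 hkl) (add1_h85 hl)
    rw [← hR] at e1
    exact e1.congr fun n => (hρ n).symm
  have hρ0 : ∀ n, 0 < ρ n := by
    intro n
    rw [hρ]
    exact div_pos (div_pos (hh_low ht hq _ _).1 (hh_low ht hq _ _).1) (pow_pos hlam _)
  -- the error terms
  have hsθ : Tendsto (fun n : ℕ => Real.sqrt n * θ n) atTop (nhds u) := hθ.congr fun n => mul_comm _ _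
  have E1 : Tendsto (fun n : ℕ => C1 * C2 * ((Real.sqrt n * θ n) * (1 / Real.sqrt ((k n : ℝ) + 1)))) atTop (nhds 0) := by
    have e1 : Tendsto (fun n : ℕ => (1 : ℝ) / Real.sqrt ((k n : ℝ) + 1)) atTop (nhds 0) := by
      refine (kinf_h85 hη).congr fun n => ?_
      rw [hk]
    have e2 := (hsθ.mul e1).const_mul (C1 * C2)
    rwa [mul_zero, mul_zero] at e2
  have E2 : Tendsto (fun n : ℕ => ρ n * (2 * C3) * ((Real.sqrt n * θ n) * (((k n + 1 : ℕ) : ℝ) / n * (n * θ n ^ 2)))) atTop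
      (nhds (R * (2 * C3) * (u * (η * u ^ 2)))) :=
    (hρlim.mul_const _).mul (hsθ.mul ((add1_h85 hkl).mul (tz_h85 hθ)))
  have E3 : Tendsto (fun n : ℕ => |ρ n * (Real.sqrt n * θ n) - R * u| * C4) atTop (nhds 0) := by
    have e1 := ((hρlim.mul hsθ).sub_const (R * u)).abs.mul_const C4
    rwa [sub_self, abs_zero, zero_mul] at e1
  have E := (E1.add E2).add E3
  rw [zero_add, add_zero] at E
  have hlt : R * (2 * C3) * (u * (η * u ^ 2)) < 2 * C3 * u ^ 3 * η + ε := by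
    have e1 : 0 ≤ (2 * C3) * (u * (η * u ^ 2)) := by positivity
    have e2 : R * ((2 * C3) * (u * (η * u ^ 2))) ≤ 1 * ((2 * C3) * (u * (η * u ^ 2))) :=
      mul_le_mul_of_nonneg_right hR1 e1
    have e3 : R * (2 * C3) * (u * (η * u ^ 2)) = R * ((2 * C3) * (u * (η * u ^ 2))) := by ring
    rw [e3]
    have e4 : 1 * ((2 * C3) * (u * (η * u ^ 2))) = 2 * C3 * u ^ 3 * η := by ring
    linarith
  filter_upwards [E.eventually (gt_mem_nhds hlt), hkle, eventually_ge_atTop 2] with n hn hkn hn2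
  refine le_trans ?_ hn.le
  have hn0 : (0 : ℝ) < n := by
    have : 0 < n := by omega
    exact_mod_cast this
  rw [← hk n, ← hR]
  obtain ⟨d, hd⟩ := Nat.exists_eq_add_of_le hkn
  have hd1 : l n - k n = d := by omega
  have hd2 : l n + 1 - (k n + 1) = d := by omega
  have hpd : 0 < lam t ^ d := pow_pos hlam _
  have hpk : 0 < lam t ^ k n := pow_pos hlam _
  have hpl : lam t ^ l n = lam t ^ k n * lam t ^ d := by rw [← pow_add, ← hd]
  obtain ⟨Ls, hLs⟩ : ∃ x, x = gsum t td n (l n) (fun z => Real.sin (θ n * z)) 0 := ⟨_, rfl⟩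
  obtain ⟨Ks, hKs⟩ : ∃ x, x = gsum t td n (k n) (fun z => Real.sin (θ n * z)) 0 := ⟨_, rfl⟩
  obtain ⟨Kz, hKz⟩ : ∃ x, x = gsum t td n (k n) (fun z => (z : ℝ)) 0 := ⟨_, rfl⟩
  obtain ⟨r, hr⟩ : ∃ r, r = Hh t (θ n) (k n + 1) / Hh t (θ n) (l n + 1) := ⟨_, rfl⟩
  have hρr : ρ n = r / lam t ^ d := by rw [hρ, hd2, hr]
  rw [← hLs, ← hKz]
  -- step 1
  have s1 : |Ls - r * Ks| ≤ C1 * θ n * lam t ^ d * (C2 * lam t ^ k n / Real.sqrt (k n + 1)) := by
    have e1 : Ls = gsum t td n (k n) (lev t td n (l n) (fun z => Real.sin (θ n * z)) (k n)) 0 := by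
      rw [hLs]
      exact gsum_comp ht hq htd htt.le hn2 hkn 0
    rw [e1, hKs]
    have e2 := cmp_h85 ht hq htd htt hn2 (k n) (F := lev t td n (l n) (fun z => Real.sin (θ n * z)) (k n))
      (E := fun z => Real.sin (θ n * z)) (G := fun _ => 1) (a := r) (b := C1 * θ n * lam t ^ d) (fun y hy => by
        have e3 := (h1 n (l n) hn2 (j n) (θ n) (hθ0 n) (hj n)).1 (k n) hkn y hy
        rw [hd1, ← hr] at e3
        rw [mul_one, mul_comm r]
        exact e3)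
    refine e2.trans (mul_le_mul_of_nonneg_left (h2 n (k n) hn2) ?_)
    exact mul_nonneg (mul_nonneg hC1.le (hθ0 n)) hpd.le
  -- step 2
  have s2 : |Ks - θ n * Kz| ≤ 2 * θ n ^ 3 * (C3 * (k n + 1) * lam t ^ k n) := by
    rw [hKs, hKz]
    have e2 := cmp_h85 ht hq htd htt hn2 (k n) (F := fun z => Real.sin (θ n * z))
      (E := fun z => (z : ℝ)) (G := fun z => (z : ℝ) ^ 3) (a := θ n) (b := 2 * θ n ^ 3) (fun y _ => by
        have e3 := sin_h85 (x := θ n * y) (mul_nonneg (hθ0 n) (Nat.cast_nonneg y))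
        have e4 : (0 : ℝ) ≤ 2 * θ n ^ 3 * (y : ℝ) ^ 3 :=
          mul_nonneg (mul_nonneg (by norm_num) (pow_nonneg (hθ0 n) 3)) (by positivity)
        have e5 : 2 * (θ n * (y : ℝ)) ^ 3 = 2 * θ n ^ 3 * (y : ℝ) ^ 3 := by ring
        rw [e5] at e3
        rw [abs_le]
        constructor <;> linarith [e3.1, e3.2])
    refine e2.trans (mul_le_mul_of_nonneg_left (h3 n (k n) hn2) ?_)
    exact mul_nonneg (by norm_num) (pow_nonneg (hθ0 n) 3)
  -- step 3
  have s3 : Kz / lam t ^ k n ≤ C4 := by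
    rw [div_le_iff₀ hpk, hKz]
    exact h4 n (k n) hn2
  have s3' : 0 ≤ Kz / lam t ^ k n := by
    refine div_nonneg ?_ hpk.le
    rw [hKz]
    exact (lev_nonneg (L := k n) (E := fun z => (z : ℝ)) ht hq htd htt.le hn2 (fun y _ => Nat.cast_nonneg y)).2 0 (by omega)
  have t1 : |Real.sqrt n * Ls / lam t ^ l n - ρ n * (Real.sqrt n * Ks / lam t ^ k n)| ≤
      C1 * C2 * ((Real.sqrt n * θ n) * (1 / Real.sqrt ((k n : ℝ) + 1))) := by
    have e1 : Real.sqrt n * Ls / lam t ^ l n - ρ n * (Real.sqrt n * Ks / lam t ^ k n) =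
        Real.sqrt n / (lam t ^ k n * lam t ^ d) * (Ls - r * Ks) := by
      rw [hpl, hρr]
      field_simp
    rw [e1, abs_mul, abs_of_nonneg (by positivity)]
    refine (mul_le_mul_of_nonneg_left s1 (by positivity)).trans (le_of_eq ?_)
    field_simp
  have t2 : |ρ n * (Real.sqrt n * Ks / lam t ^ k n) - ρ n * (Real.sqrt n * θ n) * (Kz / lam t ^ k n)| ≤
      ρ n * (2 * C3) * ((Real.sqrt n * θ n) * (((k n + 1 : ℕ) : ℝ) / n * (n * θ n ^ 2))) := by
    have e1 : ρ n * (Real.sqrt n * Ks / lam t ^ k n) - ρ n * (Real.sqrt n * θ n) * (Kz / lam t ^ k n) =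
        ρ n * Real.sqrt n / lam t ^ k n * (Ks - θ n * Kz) := by
      ring
    rw [e1, abs_mul, abs_of_nonneg (div_nonneg (mul_nonneg (hρ0 n).le (Real.sqrt_nonneg _)) hpk.le)]
    refine (mul_le_mul_of_nonneg_left s2
      (div_nonneg (mul_nonneg (hρ0 n).le (Real.sqrt_nonneg _)) hpk.le)).trans (le_of_eq ?_)
    push_cast
    field_simp
  have t3 : |ρ n * (Real.sqrt n * θ n) * (Kz / lam t ^ k n) - R * u * (Kz / lam t ^ k n)| ≤
      |ρ n * (Real.sqrt n * θ n) - R * u| * C4 := by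
    rw [← sub_mul, abs_mul, abs_of_nonneg s3']
    exact mul_le_mul_of_nonneg_left s3 (abs_nonneg _)
  have a1 := abs_sub_le (Real.sqrt n * Ls / lam t ^ l n) (ρ n * (Real.sqrt n * Ks / lam t ^ k n))
    (R * u * (Kz / lam t ^ k n))
  have a2 := abs_sub_le (ρ n * (Real.sqrt n * Ks / lam t ^ k n)) (ρ n * (Real.sqrt n * θ n) * (Kz / lam t ^ k n))
    (R * u * (Kz / lam t ^ k n))
  linarith

private lemma low_h85 {t td : ℝ} (ht : 0 < t) (hq : t ^ 2 + 2 * t < 1) (htd : 0 < td) (htt : td < t) :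
    ∃ c C : ℝ, 0 < c ∧ 0 < C ∧ ∀ η : ℝ, 0 < η → η ≤ 1 → ∀ᶠ n : ℕ in atTop,
      c ≤ gsum t td n ⌊η * n⌋₊ (fun z => (z : ℝ)) 0 / lam t ^ ⌊η * n⌋₊ ∧
        gsum t td n ⌊η * n⌋₊ (fun z => (z : ℝ)) 0 / lam t ^ ⌊η * n⌋₊ ≤ C := by
  have ht1 := t_lt_one ht hq
  have hlam := lam_pos ht ht1
  obtain ⟨C2, hC2, h2⟩ := ell_one ht hq htd htt
  obtain ⟨C4, hC4, h4⟩ := ell_lin ht hq htd htt
  obtain ⟨c, n₀, hc, h5⟩ := ell_low ht hq htd htt
  refine ⟨c / 2, C4, by positivity, hC4, fun η hη hη1 => ?_⟩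
  have e1 : ∀ᶠ n : ℕ in atTop, C2 * (1 / Real.sqrt (((⌊η * n⌋₊ : ℕ) : ℝ) + 1)) < c / 2 := by
    have e2 := (kinf_h85 hη).const_mul C2
    rw [mul_zero] at e2
    exact e2.eventually (gt_mem_nhds (by positivity))
  filter_upwards [e1, eventually_ge_atTop 2, eventually_ge_atTop n₀] with n e3 hn2 hn0
  have hpk : 0 < lam t ^ ⌊η * n⌋₊ := pow_pos hlam _
  have hkn : ⌊η * (n : ℝ)⌋₊ ≤ n := by
    have : η * (n : ℝ) ≤ n := by nlinarith [Nat.cast_nonneg (α := ℝ) n]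
    calc ⌊η * (n : ℝ)⌋₊ ≤ ⌊(n : ℝ)⌋₊ := Nat.floor_le_floor this
      _ = n := Nat.floor_natCast n
  constructor
  · rw [le_div_iff₀ hpk]
    have k1 := h5 n hn0 _ hkn
    have k2 := h2 n ⌊η * n⌋₊ hn2
    have k3 : gsum t td n ⌊η * n⌋₊ (fun z => 1 + (z : ℝ)) 0 =
        gsum t td n ⌊η * n⌋₊ (fun _ => 1) 0 + gsum t td n ⌊η * n⌋₊ (fun z => (z : ℝ)) 0 := by
      have := gsum_lin t td n ⌊η * n⌋₊ 1 1 (fun _ => 1) (fun z => (z : ℝ)) 0
      simp only [one_mul] at this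
      exact this
    rw [k3] at k1
    have k4 : C2 * lam t ^ ⌊η * n⌋₊ / Real.sqrt (((⌊η * n⌋₊ : ℕ) : ℝ) + 1) ≤ c / 2 * lam t ^ ⌊η * n⌋₊ := by
      have k5 := mul_le_mul_of_nonneg_right e3.le hpk.le
      refine le_trans (le_of_eq ?_) k5
      ring
    linarith
  · rw [div_le_iff₀ hpk]
    exact h4 n _ hn2

theorem nrm_exists {t td : ℝ} (ht : 0 < t) (hq : t ^ 2 + 2 * t < 1) (htd : 0 < td) (htt : td < t) :
    ∃ a : ℕ → ℝ, Nrm t td a := by
  have ht1 := t_lt_one ht hq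
  have hlam := lam_pos ht ht1
  have hpi := Real.pi_pos
  -- the base sequence
  obtain ⟨θ₀, hθ₀⟩ : ∃ θ₀ : ℕ → ℝ, ∀ n, θ₀ n = Real.pi * ⌊Real.sqrt n / Real.pi⌋₊ / n := ⟨_, fun _ => rfl⟩
  have b1 : ∀ n, 0 ≤ θ₀ n := by
    intro n
    rw [hθ₀]
    positivity
  have b2 : ∀ n, θ₀ n * n = Real.pi * ((⌊Real.sqrt n / Real.pi⌋₊ : ℕ) : ℝ) := by
    intro n
    rw [hθ₀]
    rcases Nat.eq_zero_or_pos n with rfl | hn
    · simp
    · have : (n : ℝ) ≠ 0 := by positivity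
      field_simp
  have hsq : Tendsto (fun n : ℕ => Real.sqrt n) atTop atTop :=
    Real.tendsto_sqrt_atTop.comp tendsto_natCast_atTop_atTop
  have b3 : Tendsto (fun n : ℕ => θ₀ n * Real.sqrt n) atTop (nhds 1) := by
    have e1 := (tendsto_nat_floor_mul_div_atTop (a := 1 / Real.pi) (by positivity)).comp hsq
    have e2 := e1.const_mul Real.pi
    rw [mul_one_div_cancel hpi.ne'] at e2
    refine e2.congr' ?_
    filter_upwards [eventually_gt_atTop 0] with n hn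
    have h1 : 0 < Real.sqrt n := Real.sqrt_pos.2 (by exact_mod_cast hn)
    have h2 : Real.sqrt n * Real.sqrt n = n := Real.mul_self_sqrt (Nat.cast_nonneg n)
    have h3 : 1 / Real.pi * Real.sqrt n = Real.sqrt n / Real.pi := by ring
    simp only [Function.comp_apply]
    rw [hθ₀, h3]
    have h4 : Real.pi * (⌊Real.sqrt n / Real.pi⌋₊ : ℝ) / n * Real.sqrt n =
        Real.pi * (⌊Real.sqrt n / Real.pi⌋₊ : ℝ) * (Real.sqrt n / (Real.sqrt n * Real.sqrt n)) := by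
      rw [h2]
      ring
    rw [h4]
    field_simp
  have b4 : Tendsto (fun n : ℕ => ((2 * n + 1 : ℕ) : ℝ) / n) atTop (nhds 2) := by
    have e1 := (tendsto_const_nhds (x := (2 : ℝ)) (f := (atTop : Filter ℕ))).add inv_h85
    rw [add_zero] at e1
    refine e1.congr' ?_
    filter_upwards [eventually_gt_atTop 0] with n hn
    have : (n : ℝ) ≠ 0 := by positivity
    push_cast
    field_simp
  obtain ⟨D₀, hD₀, hmain₀⟩ := main_h85 ht hq htd htt b1 b2 b3 b4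
  obtain ⟨c, C, hc, hC, hlow⟩ := low_h85 ht hq htd htt
  obtain ⟨g, hg⟩ : ∃ g, g = sg t := ⟨_, rfl⟩
  obtain ⟨A₀, hA₀⟩ : ∃ A₀ : ℕ → ℝ, ∀ n, A₀ n = Real.sqrt n *
      gsum t td n (2 * n + 1) (fun z => Real.sin (θ₀ n * z)) 0 / lam t ^ (2 * n + 1) := ⟨_, fun _ => rfl⟩
  obtain ⟨M, hM⟩ : ∃ M : ℝ → ℕ → ℝ, ∀ η n, M η n =
      gsum t td n ⌊η * n⌋₊ (fun z => (z : ℝ)) 0 / lam t ^ ⌊η * n⌋₊ := ⟨_, fun _ _ => rfl⟩
  have eg : Real.exp g * Real.exp (-g) = 1 := by rw [← Real.exp_add, add_neg_cancel, Real.exp_zero]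
  -- comparison of `a` with `M`
  have ha : ∀ η : ℝ, 0 < η → η ≤ 1 → ∀ ε : ℝ, 0 < ε → ∀ᶠ n : ℕ in atTop,
      |Real.exp g * A₀ n - Real.exp (g * η / 2) * M η n| ≤ Real.exp g * (D₀ * η + ε) := by
    intro η hη hη1 ε hε
    filter_upwards [hmain₀ η hη (by linarith) ε hε] with n hn
    rw [← hA₀, ← hM, ← hg] at hn
    have e1 : Real.exp g * A₀ n - Real.exp (g * η / 2) * M η n =
        Real.exp g * (A₀ n - Real.exp (-(g * (2 - η) * 1 ^ 2 / 2)) * 1 * M η n) := by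
      have e2 : Real.exp (g * η / 2) = Real.exp g * Real.exp (-(g * (2 - η) * 1 ^ 2 / 2)) := by
        rw [← Real.exp_add]
        congr 1
        ring
      rw [e2]
      ring
    rw [e1, abs_mul, abs_of_pos (Real.exp_pos _)]
    exact mul_le_mul_of_nonneg_left hn (Real.exp_pos _).le
  -- lower and upper bounds
  have hlow' : ∀ η : ℝ, 0 < η → η ≤ 1 → ∀ᶠ n : ℕ in atTop, c ≤ M η n ∧ M η n ≤ C := by
    intro η hη hη1
    filter_upwards [hlow η hη hη1] with n hn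
    rw [hM]
    exact hn
  have hg0 : 0 ≤ g := by
    rw [hg]
    unfold sg
    have hlam1 := lam_lt_one ht hq
    have : 0 < 1 - lam t ^ 2 := by nlinarith
    positivity
  have hbd : ∃ c' C' : ℝ, 0 < c' ∧ ∀ᶠ n : ℕ in atTop, c' ≤ Real.exp g * A₀ n ∧ Real.exp g * A₀ n ≤ C' := by
    obtain ⟨η, hη, hη1, hη2⟩ : ∃ η : ℝ, 0 < η ∧ η ≤ 1 ∧ Real.exp g * (D₀ * η) ≤ c / 4 := by
      have e0 : 0 < Real.exp g * D₀ + 1 := by positivity
      refine ⟨min 1 (c / 4 / (Real.exp g * D₀ + 1)), lt_min one_pos (by positivity), min_le_left _ _, ?_⟩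
      have e1 : min 1 (c / 4 / (Real.exp g * D₀ + 1)) ≤ c / 4 / (Real.exp g * D₀ + 1) := min_le_right _ _
      have e2 : (Real.exp g * D₀ + 1) * min 1 (c / 4 / (Real.exp g * D₀ + 1)) ≤ c / 4 := by
        have := mul_le_mul_of_nonneg_left e1 e0.le
        rwa [mul_div_cancel₀ _ e0.ne'] at this
      have e3 : 0 ≤ min 1 (c / 4 / (Real.exp g * D₀ + 1)) := (lt_min one_pos (by positivity)).le
      nlinarith
    refine ⟨c / 2, Real.exp (g * η / 2) * C + c / 2, by positivity, ?_⟩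
    filter_upwards [ha η hη hη1 (c / 4 / Real.exp g) (by positivity), hlow' η hη hη1] with n h1 h2
    have e1 : Real.exp g * (D₀ * η + c / 4 / Real.exp g) = Real.exp g * (D₀ * η) + c / 4 := by
      have := (Real.exp_pos g).ne'
      field_simp
    rw [e1] at h1
    have h3 := abs_le.1 h1
    have e2 : 1 ≤ Real.exp (g * η / 2) := Real.one_le_exp (by positivity)
    have e3 : c ≤ Real.exp (g * η / 2) * M η n := by
      have := mul_le_mul e2 h2.1 hc.le (by positivity)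
      linarith
    have e4 : Real.exp (g * η / 2) * M η n ≤ Real.exp (g * η / 2) * C :=
      mul_le_mul_of_nonneg_left h2.2 (Real.exp_pos _).le
    constructor <;> linarith [h3.1, h3.2]
  refine ⟨fun n => Real.exp g * A₀ n, hbd.elim fun c' h => ?_, ?_⟩
  · obtain ⟨C', h1, h2⟩ := h
    exact ⟨c', C', h1, h2⟩
  intro θ j l u s hs hθ0 hj hθ hl
  obtain ⟨D, hD, hmain⟩ := main_h85 ht hq htd htt hθ0 hj hθ hl
  have hu : 0 ≤ u := ge_of_tendsto' hθ fun n => mul_nonneg (hθ0 n) (Real.sqrt_nonneg _)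
  obtain ⟨A, hA⟩ : ∃ A : ℕ → ℝ, ∀ n, A n = Real.sqrt n *
      gsum t td n (l n) (fun z => Real.sin (θ n * z)) 0 / lam t ^ l n := ⟨_, fun _ => rfl⟩
  obtain ⟨v, hv⟩ : ∃ v, v = u * Real.exp (-(g * s * u ^ 2 / 2)) := ⟨_, rfl⟩
  have hv0 : 0 ≤ v := by rw [hv]; positivity
  -- the difference tends to zero
  have hdiff : Tendsto (fun n => A n - v * (Real.exp g * A₀ n)) atTop (nhds 0) := by
    rw [Metric.tendsto_nhds]
    intro ε hε
    -- choice of `η`
    have hcont : Tendsto (fun η : ℝ => D * η + η + v * (C * |Real.exp (g * η * u ^ 2 / 2) - Real.exp (g * η / 2)| +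
        Real.exp g * (D₀ * η + η))) (nhds 0) (nhds 0) := by
      have e1 : Continuous fun η : ℝ => D * η + η + v * (C * |Real.exp (g * η * u ^ 2 / 2) - Real.exp (g * η / 2)| +
        Real.exp g * (D₀ * η + η)) := by fun_prop
      have e2 := e1.tendsto 0
      simpa using e2
    have hex : ∃ η : ℝ, 0 < η ∧ η < s ∧ η ≤ 1 ∧
        D * η + η + v * (C * |Real.exp (g * η * u ^ 2 / 2) - Real.exp (g * η / 2)| +
          Real.exp g * (D₀ * η + η)) < ε := by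
      have e1 := hcont.eventually (gt_mem_nhds hε)
      have e2 : ∀ᶠ η : ℝ in nhds 0, η < s := gt_mem_nhds hs
      have e3 : ∀ᶠ η : ℝ in nhds 0, η < 1 := gt_mem_nhds one_pos
      have e4 : ∀ᶠ η in nhdsWithin (0 : ℝ) (Set.Ioi 0), 0 < η := self_mem_nhdsWithin
      obtain ⟨η, ⟨⟨h1, h2⟩, h3⟩, h4⟩ :=
        ((((e1.and e2).and e3).filter_mono nhdsWithin_le_nhds).and e4).exists
      exact ⟨η, h4, h2, h3.le, h1⟩
    obtain ⟨η, hη, hηs, hη1, hηε⟩ := hex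
    filter_upwards [hmain η hη hηs η hη, ha η hη hη1 η hη, hlow' η hη hη1] with n k1 k2 k3
    rw [← hA, ← hM, ← hg] at k1
    rw [dist_zero_right, Real.norm_eq_abs]
    have e1 : A n - v * (Real.exp g * A₀ n) = (A n - Real.exp (-(g * (s - η) * u ^ 2 / 2)) * u * M η n) +
        v * ((Real.exp (g * η * u ^ 2 / 2) - Real.exp (g * η / 2)) * M η n -
          (Real.exp g * A₀ n - Real.exp (g * η / 2) * M η n)) := by
      have e2 : Real.exp (-(g * (s - η) * u ^ 2 / 2)) = Real.exp (-(g * s * u ^ 2 / 2)) * Real.exp (g * η * u ^ 2 / 2) := by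
        rw [← Real.exp_add]
        congr 1
        ring
      rw [e2, hv]
      ring
    rw [e1]
    have e3 : |v * ((Real.exp (g * η * u ^ 2 / 2) - Real.exp (g * η / 2)) * M η n -
          (Real.exp g * A₀ n - Real.exp (g * η / 2) * M η n))| ≤
        v * (C * |Real.exp (g * η * u ^ 2 / 2) - Real.exp (g * η / 2)| + Real.exp g * (D₀ * η + η)) := by
      rw [abs_mul, abs_of_nonneg hv0]
      refine mul_le_mul_of_nonneg_left ?_ hv0
      refine (abs_sub _ _).trans (add_le_add ?_ k2)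
      rw [abs_mul, abs_of_nonneg (hc.le.trans k3.1), mul_comm]
      exact mul_le_mul_of_nonneg_right k3.2 (abs_nonneg _)
    have e4 := abs_add_le (A n - Real.exp (-(g * (s - η) * u ^ 2 / 2)) * u * M η n)
      (v * ((Real.exp (g * η * u ^ 2 / 2) - Real.exp (g * η / 2)) * M η n -
          (Real.exp g * A₀ n - Real.exp (g * η / 2) * M η n)))
    linarith
  obtain ⟨c', C', hc', hcC⟩ := hbd
  rw [← hg, ← hv]
  have hquot : Tendsto (fun n => (A n - v * (Real.exp g * A₀ n)) / (Real.exp g * A₀ n) + v) atTop (nhds v) := by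
    have e1 : Tendsto (fun n => (A n - v * (Real.exp g * A₀ n)) / (Real.exp g * A₀ n)) atTop (nhds 0) := by
      have e2 := hdiff.abs
      rw [abs_zero] at e2
      have e3 := e2.mul_const (1 / c')
      rw [zero_mul] at e3
      refine squeeze_zero_norm' ?_ e3
      filter_upwards [hcC] with n hn
      have h1 : 0 < Real.exp g * A₀ n := lt_of_lt_of_le hc' hn.1
      rw [Real.norm_eq_abs, abs_div, abs_of_pos h1, div_eq_mul_one_div]
      exact mul_le_mul_of_nonneg_left (one_div_le_one_div_of_le hc' hn.1) (abs_nonneg _)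
    have e4 := e1.add_const v
    rwa [zero_add] at e4
  refine hquot.congr' ?_
  filter_upwards [hcC] with n hn
  have h1 : Real.exp g * A₀ n ≠ 0 := (lt_of_lt_of_le hc' hn.1).ne'
  rw [sub_div, mul_div_cancel_right₀ _ h1, sub_add_cancel, hA]
  rw [div_div, mul_comm (lam t ^ l n)]

end Pool.Agent.Helper49.RD
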