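import Pool.Agent.Helper49.RD.Def
import Pool.Agent.Helper49.DX.Row

/-!
Block RD-EA: exponential super solutions.

`λ = lam t`, `θ = the t td = 1 + μ sh / 2`, `ζ = zet t td = 1 + t μ`, `μ = mu t td > 0`, `ch - sh = t / λ` (`ch_sub_sh'`), `A2 = 1/λ + λ + 2`.

Paper proof of `sup_exp`. Let `r = λ exp (K ε²)`, `p k y = (1 or 1/θ) e^{-ε y} r^(L+1-k)`, so `p (k + 2) = p (k + 1) / r`, `p k = r p (k + 1)` (`k < L`).
Take `K` with `K (1/λ - λ) ≥ 8`, `K t / λ ≥ 4 sh` and then `ε₀ ≤ 1` small. With `x = K ε² ≤ 1`: `1 - e^{-x} ≥ x - x²/2`, `e^x - 1 ≤ x + x²`,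
`cosh ε - 1 ≤ ε²` (`|ε| ≤ 1`). Divide each inequality by the positive common factor:
* `lev`: definition of `bxg`.
* `bulk`, `one` (for `one` use `θ * (1/θ) = 1`): `1/r + r + e^ε + e^{-ε} ≤ A2`, i.e.
  `(1/λ) (1 - e^{-x}) ≥ λ (e^x - 1) + 2 (cosh ε - 1)`: true for `x (1/λ - λ)/2 ≥ 2 ε²` and `x` small. (B)
* `zero` (times `θ`): `1/r + ζ r + 2 θ e^{-ε} ≤ A2 + μ ch`; strict at `ε = 0` with margin `μ (t/λ - t λ)` (`A2 = 1/λ + λ + 2`, `sh + t/λ = ch`).
* `top`: `1/r + r + e^ε + 2 t ∑_{i<k} (t r)^(i+1) + t^k (ch - 1) r^(k+1) ≤ A2 - t`; by (B) it suffices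
  `2 t ∑_{i<k} (t r)^(i+1) + t^k (ch - 1) r^(k+1) ≤ e^{-ε} - t`; the left side is at most `r (2 t ∑ t^(i+1) + t^k (ch - 1)) ≤ r * 2 t²/(1 - t) = r (λ - t)`
  (`r ≤ 1`; `lam_eq`, `ch_sub_one_le`, geometric sum as `geo71` in `DX/Row.lean`), and `λ (λ - t) < 1 - t` (strict at `ε = 0`, uniformly in `k`).
* `gbulk`: `2 ≤ y`: `sh cosh ε + t/r ≤ ch`, i.e. `sh (cosh ε - 1) ≤ (t/λ)(1 - e^{-x})`: as `1 - e^{-x} ≥ x/2` and `K t/λ ≥ 4 sh`. `y = 1`: moreover
  `g 0 = r^(L+1)/(θ td) ≤ r^(L+1)/t` as `ζ ≤ θ` (`zet_le_the`).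
* `gzero` (times `θ t / r^(L+1)`): `sh θ e^{-ε} + t/r ≤ ch ζ`: strict at `ε = 0` as `sh²/2 < ch t` (`ch_t_gt`).
* `gtop` (times `2 t`): `sh e^ε + 2 t/r ≤ 1 + ch`: strict at `ε = 0` as `ch - sh = (1-t)/(1+t) < 1` (`ch_sub_sh`).
The strict inequalities persist for small `|ε|` by continuity (`ContinuousAt`, `Filter.Eventually`, or explicit bounds).

Paper proof of `sup_sinh`. The same with `p k y = (1 or 1/θ) sinh (ε (y + d)) r^(L+1-k)`, `0 < ε`. `sinh (a + ε) + sinh (a - ε) = 2 cosh ε sinh a`, so `bulk`, `one`,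
`gbulk` as before. `sinh (ε (d+1)) = sinh (ε d) (cosh ε + c)`, `c = sinh ε coth (ε d) ≤ 2/d + 2 ε` (`x cosh x ≤ (1 + x) sinh x` for `x ≥ 0`, `sinh ε ≤ 2 ε`):
`zero`: by (B) suffices `t μ r + μ sh cosh ε + 2 θ c ≤ μ ch`: strict at `ε = c = 0`. `gzero`: `sh θ (cosh ε + c) + t/r ≤ ch ζ`. `top`, `gtop`: `sinh (ε (m - 1 + d)) ≤
sinh (ε (m + d))`, then as for `ε = 0` before, using (B). Choose `d` large, then `ε₀` small.
-/

open Finset

namespace Pool.Agent.Helper49.RD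

open Pool.Agent.Helper49.DL Pool.Agent.Helper49.DX

/-- Exponential profile. -/
noncomputable def bex (t td r ε : ℝ) (L k y : ℕ) : ℝ :=
  (if y = 0 then 1 / the t td else 1) * (Real.exp (-(ε * y)) * r ^ (L + 1 - k))

/-- Its output profile. -/
noncomputable def bxg (t td r ε : ℝ) (L y : ℕ) : ℝ := bex t td r ε L 0 y / (if y = 0 then td else t)

/-- Profile growing like `sinh`. -/
noncomputable def bsh (t td r ε : ℝ) (d L k y : ℕ) : ℝ :=
  (if y = 0 then 1 / the t td else 1) * (Real.sinh (ε * (y + d)) * r ^ (L + 1 - k))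

/-- Its output profile. -/
noncomputable def bsg (t td r ε : ℝ) (d L y : ℕ) : ℝ := bsh t td r ε d L 0 y / (if y = 0 then td else t)

private lemma sup38 {t td : ℝ} (ht : 0 < t) (hq : t ^ 2 + 2 * t < 1) (htd : 0 < td) (htt : td ≤ t)
    {m L : ℕ} (hm : 2 ≤ m) {F : ℕ → ℝ} {r c u v : ℝ} (hr : 0 < r) (hr1 : r ≤ 1)
    (hF : ∀ y, 0 ≤ F y) (h1 : ∀ y, F (y + 2) + F y = 2 * c * F (y + 1)) (h2 : F 1 ≤ u * F 0)
    (h3 : F (m - 1) ≤ v * F m)
    (hB : 1 + r ^ 2 + 2 * c * r ≤ A2 t * r)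
    (hZ : 1 + zet t td * r ^ 2 + 2 * the t td * u * r ≤ (A2 t + mu t td * chh t) * r)
    (hT : 1 + r ^ 2 + v * r + r ^ 2 * (lam t - t) ≤ (A2 t - t) * r)
    (hG : shh t * c * r + t ≤ chh t * r)
    (hGZ : shh t * the t td * u * r + t ≤ chh t * zet t td * r)
    (hGT : shh t * v * r + 2 * t ≤ (1 + chh t) * r) :
    Sup t td m L (fun y => (if y = 0 then 1 / the t td else 1) * (F y * r ^ (L + 1 - 0)) /
        (if y = 0 then td else t))
      (fun k y => (if y = 0 then 1 / the t td else 1) * (F y * r ^ (L + 1 - k))) := by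
  have ht1 := t_lt_one ht hq
  have hth := the_ge_one ht ht1 htd htt
  have hzt := zet_le_the ht ht1 htd htt
  have hsh := shh_pos ht ht1
  have hch0 := chh_pos ht ht1
  have hch : 0 ≤ chh t - 1 := by
    rw [ch_sub_one ht ht1]
    exact mul_nonneg ht.le hsh.le
  have hchl := ch_sub_one_le ht ht1
  have hle := lam_eq ht1
  have h1t : 0 < 1 - t := by linarith
  have hzd : 1 / td = zet t td / t := by
    unfold zet
    field_simp
  have hgeo : ∀ k : ℕ, 2 * t * ∑ i ∈ Finset.range k, t ^ (i + 1) * r ^ (i + 1) +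
      t ^ k * (chh t - 1) * r ^ (k + 1) ≤ r * (lam t - t) := by
    intro k
    have e1 : ∑ i ∈ Finset.range k, t ^ (i + 1) * r ^ (i + 1) ≤ r * ∑ i ∈ Finset.range k, t ^ (i + 1) := by
      rw [Finset.mul_sum]
      refine Finset.sum_le_sum fun i _ => ?_
      have a1 : r ^ i ≤ 1 := pow_le_one₀ hr.le hr1
      have a2 : 0 ≤ t ^ (i + 1) * r := by positivity
      calc t ^ (i + 1) * r ^ (i + 1) = t ^ (i + 1) * r * r ^ i := by ring
        _ ≤ t ^ (i + 1) * r * 1 := mul_le_mul_of_nonneg_left a1 a2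
        _ = r * t ^ (i + 1) := by ring
    have e2 : (∑ i ∈ Finset.range k, t ^ (i + 1)) * (1 - t) = t * (1 - t ^ k) := by
      clear e1
      induction k with
      | zero => simp
      | succ k ih => rw [Finset.sum_range_succ, add_mul, ih]; ring
    have e3 : ∑ i ∈ Finset.range k, t ^ (i + 1) = t * (1 - t ^ k) / (1 - t) := by
      rw [eq_div_iff h1t.ne', e2]
    have e4 : t ^ k * (chh t - 1) * r ^ (k + 1) ≤ r * (t ^ k * (2 * t ^ 2 / (1 - t))) := by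
      have a1 : r ^ k ≤ 1 := pow_le_one₀ hr.le hr1
      have a2 : 0 ≤ t ^ k * (chh t - 1) * r := by positivity
      calc t ^ k * (chh t - 1) * r ^ (k + 1) = t ^ k * (chh t - 1) * r * r ^ k := by ring
        _ ≤ t ^ k * (chh t - 1) * r * 1 := mul_le_mul_of_nonneg_left a1 a2
        _ = r * t ^ k * (chh t - 1) := by ring
        _ ≤ r * t ^ k * (2 * t ^ 2 / (1 - t)) := mul_le_mul_of_nonneg_left hchl (by positivity)
        _ = r * (t ^ k * (2 * t ^ 2 / (1 - t))) := by ring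
    have e5 : 2 * t * (t * (1 - t ^ k) / (1 - t)) + t ^ k * (2 * t ^ 2 / (1 - t)) = 2 * t ^ 2 / (1 - t) := by
      field_simp
      ring
    have e7 : 2 * t * ∑ i ∈ Finset.range k, t ^ (i + 1) * r ^ (i + 1) ≤
        r * (2 * t * (t * (1 - t ^ k) / (1 - t))) := by
      rw [← e3]
      calc 2 * t * ∑ i ∈ Finset.range k, t ^ (i + 1) * r ^ (i + 1) ≤
          2 * t * (r * ∑ i ∈ Finset.range k, t ^ (i + 1)) := mul_le_mul_of_nonneg_left e1 (by positivity)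
        _ = r * (2 * t * ∑ i ∈ Finset.range k, t ^ (i + 1)) := by ring
    have e8 : lam t - t = 2 * t * (t * (1 - t ^ k) / (1 - t)) + t ^ k * (2 * t ^ 2 / (1 - t)) := by
      rw [e5]
      linarith
    rw [e8]
    linarith
  obtain ⟨θ, hθ⟩ : ∃ θ, the t td = θ := ⟨_, rfl⟩
  obtain ⟨ζ, hζ⟩ : ∃ ζ, zet t td = ζ := ⟨_, rfl⟩
  obtain ⟨μ, hμ⟩ : ∃ μ, mu t td = μ := ⟨_, rfl⟩
  obtain ⟨l, hl⟩ : ∃ l, lam t = l := ⟨_, rfl⟩
  obtain ⟨sh, hsh'⟩ : ∃ sh, shh t = sh := ⟨_, rfl⟩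
  obtain ⟨ch, hch'⟩ : ∃ ch, chh t = ch := ⟨_, rfl⟩
  obtain ⟨A, hA'⟩ : ∃ A, A2 t = A := ⟨_, rfl⟩
  simp only [hθ, hζ, hμ, hl, hsh', hch', hA'] at hth hzt hsh hch0 hch hzd hgeo hB hZ hT hG hGZ hGT ⊢
  have hθ0 : 0 < θ := by linarith
  obtain ⟨H, hH⟩ : ∃ H, 1 / θ = H := ⟨_, rfl⟩
  have hθH : θ * H = 1 := by
    rw [← hH]
    field_simp
  have hH0 : 0 ≤ H := by
    rw [← hH]
    positivity
  rw [hH]
  have hpow : ∀ k, k < L → r ^ (L + 1 - (k + 1)) = r ^ (L + 1 - (k + 2)) * r ∧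
      r ^ (L + 1 - k) = r ^ (L + 1 - (k + 2)) * r ^ 2 := by
    intro k hk
    constructor
    · rw [← pow_succ]; congr 1; omega
    · rw [← pow_add]; congr 1; omega
  have hS0 : 0 ≤ r ^ L / t := by positivity
  obtain ⟨S, hS⟩ : ∃ S, r ^ L / t = S := ⟨_, rfl⟩
  rw [hS] at hS0
  have hL : r ^ (L + 1 - 1) = S * t := by
    rw [← hS, Nat.add_sub_cancel]
    field_simp
  have hL1 : r ^ (L + 1) = S * t * r := by
    rw [pow_succ, ← hS]
    field_simp
  have hg : ∀ x : ℝ, 1 * (x * r ^ (L + 1)) / t = x * (S * r) := by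
    intro x
    rw [hL1]
    field_simp
  have hg0 : ∀ x : ℝ, H * (x * r ^ (L + 1)) / td = H * x * ζ * (S * r) := by
    intro x
    calc H * (x * r ^ (L + 1)) / td = H * (x * r ^ (L + 1)) * (1 / td) := by ring
      _ = H * (x * r ^ (L + 1)) * (ζ / t) := by rw [hzd]
      _ = H * x * ζ * (S * r) := by rw [hL1]; field_simp
  constructor
  all_goals try simp only [hθ, hζ, hμ, hsh', hch', hA', Nat.sub_zero]
  · intro y _
    by_cases hy : y = 0
    · simp only [if_pos hy]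
      field_simp
    · simp only [if_neg hy]
      field_simp
  · intro k y hk hy hym
    obtain ⟨p1, p2⟩ := hpow k hk
    rw [if_neg (by omega), if_neg (by omega), if_neg (by omega), p1, p2]
    have a1 := h1 (y - 1)
    have a2 : y - 1 + 2 = y + 1 := by omega
    have a3 : y - 1 + 1 = y := by omega
    rw [a2, a3] at a1
    have a4 : 0 ≤ F y * r ^ (L + 1 - (k + 2)) := mul_nonneg (hF y) (by positivity)
    have a5 := mul_le_mul_of_nonneg_left hB a4
    linear_combination a5 + r ^ (L + 1 - (k + 2)) * r * a1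
  · intro k hk
    obtain ⟨p1, p2⟩ := hpow k hk
    rw [if_neg one_ne_zero, if_neg two_ne_zero, if_pos trivial, p1, p2]
    have a1 := h1 0
    have a4 : 0 ≤ F 1 * r ^ (L + 1 - (k + 2)) := mul_nonneg (hF 1) (by positivity)
    have a5 := mul_le_mul_of_nonneg_left hB a4
    linear_combination a5 + r ^ (L + 1 - (k + 2)) * r * a1 + F 0 * r ^ (L + 1 - (k + 2)) * r * hθH
  · intro k hk
    obtain ⟨p1, p2⟩ := hpow k hk
    rw [if_pos trivial, if_neg one_ne_zero, p1, p2]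
    have a4 : 0 ≤ H * F 0 * r ^ (L + 1 - (k + 2)) :=
      mul_nonneg (mul_nonneg hH0 (hF 0)) (by positivity)
    have a5 := mul_le_mul_of_nonneg_left hZ a4
    have a6 : 0 ≤ 2 * r ^ (L + 1 - (k + 2)) * r := by positivity
    have a7 := mul_le_mul_of_nonneg_left h2 a6
    linear_combination a5 + a7 - 2 * F 0 * r ^ (L + 1 - (k + 2)) * u * r * hθH
  · intro k hk
    obtain ⟨p1, p2⟩ := hpow k hk
    have hs : ∑ i ∈ Finset.range k, t ^ (i + 1) * ((if m = 0 then H else 1) * (F m * r ^ (L + 1 - (k - i)))) =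
        F m * r ^ (L + 1 - (k + 2)) * r * ∑ i ∈ Finset.range k, t ^ (i + 1) * r ^ (i + 1) := by
      rw [Finset.mul_sum]
      refine Finset.sum_congr rfl fun i hi => ?_
      have hi' := Finset.mem_range.mp hi
      have e : r ^ (L + 1 - (k - i)) = r ^ (L + 1 - (k + 2)) * r ^ (i + 2) := by
        rw [← pow_add]; congr 1; omega
      rw [if_neg (by omega), e]
      ring
    have hgm : t ^ (k + 1) * (ch - 1) * (1 * (F m * r ^ (L + 1)) / t) =
        F m * r ^ (L + 1 - (k + 2)) * r * (t ^ k * (ch - 1) * r ^ (k + 1)) := by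
      have e : r ^ (L + 1) = r ^ (L + 1 - (k + 2)) * r ^ (k + 2) := by
        rw [← pow_add]; congr 1; omega
      rw [e]
      field_simp
      ring
    rw [hs, if_neg (by omega), if_neg (by omega), if_neg (by omega), hgm, p1, p2]
    have a2 : 0 ≤ F m * r ^ (L + 1 - (k + 2)) * r :=
      mul_nonneg (mul_nonneg (hF m) (by positivity)) hr.le
    have a3 := mul_le_mul_of_nonneg_left (hgeo k) a2
    have a4 : 0 ≤ F m * r ^ (L + 1 - (k + 2)) := mul_nonneg (hF m) (by positivity)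
    have a5 := mul_le_mul_of_nonneg_left hT a4
    have a6 : 0 ≤ r ^ (L + 1 - (k + 2)) * r := by positivity
    have a7 := mul_le_mul_of_nonneg_left h3 a6
    linear_combination a3 + a5 + a7
  · intro y hy hym
    have b1 : (if y - 1 = 0 then H else 1) * (F (y - 1) * r ^ (L + 1)) / (if y - 1 = 0 then td else t) ≤
        F (y - 1) * (S * r) := by
      split_ifs
      · rw [hg0]
        have c1 : H * ζ ≤ 1 := by
          rw [← hθH, mul_comm θ H]
          exact mul_le_mul_of_nonneg_left hzt hH0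
        have c2 : 0 ≤ F (y - 1) * (S * r) := mul_nonneg (hF _) (by positivity)
        have c3 := mul_le_mul_of_nonneg_right c1 c2
        linear_combination c3
      · rw [hg]
    have hy0 : y ≠ 0 := by omega
    have a1 := h1 (y - 1)
    have a2 : y - 1 + 2 = y + 1 := by omega
    have a3 : y - 1 + 1 = y := by omega
    rw [a2, a3] at a1
    rw [if_neg (Nat.succ_ne_zero y), if_neg (Nat.succ_ne_zero y), if_neg hy0, if_neg hy0, hg, hg, hL]
    have a4 : 0 ≤ F y * S := mul_nonneg (hF y) hS0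
    have a5 := mul_le_mul_of_nonneg_left hG a4
    have a6 := mul_le_mul_of_nonneg_left b1 (by positivity : (0 : ℝ) ≤ sh / 2)
    linear_combination a5 + a6 + sh / 2 * (S * r) * a1
  · rw [if_neg one_ne_zero, if_neg one_ne_zero, if_pos trivial, if_pos trivial, hg, hg0, hL]
    have a4 : 0 ≤ H * F 0 * S := mul_nonneg (mul_nonneg hH0 (hF 0)) hS0
    have a5 := mul_le_mul_of_nonneg_left hGZ a4
    have a6 : 0 ≤ sh * (S * r) := by positivity
    have a7 := mul_le_mul_of_nonneg_left h2 a6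
    linear_combination a5 + a7 - sh * u * F 0 * S * r * hθH
  · rw [if_neg (by omega), if_neg (by omega), if_neg (by omega), if_neg (by omega), hg, hg, hL]
    have a4 : 0 ≤ F m * S / 2 := div_nonneg (mul_nonneg (hF m) hS0) two_pos.le
    have a5 := mul_le_mul_of_nonneg_left hGT a4
    have a6 : 0 ≤ sh / 2 * (S * r) := by positivity
    have a7 := mul_le_mul_of_nonneg_left h3 a6
    linear_combination a5 + a7

private lemma del38 {t td : ℝ} (ht : 0 < t) (hq : t ^ 2 + 2 * t < 1) (htd : 0 < td) (htt : td < t) :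
    ∃ δ : ℝ, 0 < δ ∧ δ ≤ 1 ∧ ∀ r u v : ℝ, |r - lam t| ≤ δ → |u - 1| ≤ δ → |v - 1| ≤ δ →
      0 < r ∧ r ≤ 1 ∧
      1 + zet t td * r ^ 2 + 2 * the t td * u * r ≤ (A2 t + mu t td * chh t) * r ∧
      1 + r ^ 2 + v * r + r ^ 2 * (lam t - t) ≤ (A2 t - t) * r ∧
      shh t * the t td * u * r + t ≤ chh t * zet t td * r ∧
      shh t * v * r + 2 * t ≤ (1 + chh t) * r := by
  have ht1 := t_lt_one ht hq
  have hl0 := lam_pos ht ht1
  have hl1 := lam_lt_one ht hq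
  have hsh := shh_pos ht ht1
  have hch0 := chh_pos ht ht1
  have hmu : 0 < mu t td := by
    unfold mu
    have := one_div_lt_one_div_of_lt htd htt
    linarith
  have hA : A2 t * lam t = 1 + lam t ^ 2 + 2 * lam t := by
    rw [A2_eq ht ht1]
    field_simp
  have hcs : (chh t - shh t) * lam t = t := by
    rw [ch_sub_sh' ht ht1]
    field_simp
  have hz := zet_eq (td := td) ht
  have hthd : the t td = 1 + mu t td * shh t / 2 := rfl
  have hct := ch_t_gt ht hq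
  have hcs1 : chh t - shh t < 1 := by
    rw [ch_sub_sh ht ht1, div_lt_one (by linarith)]
    linarith
  have hcsp : t * lam t < chh t - shh t := by
    have a1 : 0 < chh t - shh t := by
      have : 0 < (chh t - shh t) * lam t := by rw [hcs]; exact ht
      exact (mul_pos_iff_of_pos_right hl0).1 this
    have a2 : t < chh t - shh t := by
      calc t = (chh t - shh t) * lam t := hcs.symm
        _ < (chh t - shh t) * 1 := mul_lt_mul_of_pos_left hl1 a1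
        _ = chh t - shh t := mul_one _
    have a3 : t * lam t < t * 1 := mul_lt_mul_of_pos_left hl1 ht
    linarith
  have c1 : 1 + zet t td * lam t ^ 2 + 2 * the t td * 1 * lam t < (A2 t + mu t td * chh t) * lam t := by
    have b1 : 0 < mu t td * lam t * (chh t - shh t - t * lam t) :=
      mul_pos (mul_pos hmu hl0) (by linarith)
    rw [hz, hthd]
    linear_combination b1 - hA
  have c2 : 1 + lam t ^ 2 + 1 * lam t + lam t ^ 2 * (lam t - t) < (A2 t - t) * lam t := by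
    have b0 := lam_eq ht1
    have b1 : 0 < lam t - t := by
      have : 0 < 2 * t ^ 2 / (1 - t) := div_pos (by positivity) (by linarith)
      linarith
    have b2 : lam t * (lam t - t) < 1 * (lam t - t) := mul_lt_mul_of_pos_right hl1 b1
    have b3 : 0 < lam t * ((1 - t) - lam t * (lam t - t)) := mul_pos hl0 (by linarith)
    linear_combination b3 - hA
  have c3 : shh t * the t td * 1 * lam t + t < chh t * zet t td * lam t := by
    have b1 : 0 < mu t td * (chh t * t - shh t ^ 2 / 2) * lam t :=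
      mul_pos (mul_pos hmu (by linarith)) hl0
    rw [hz, hthd]
    linear_combination b1 - hcs
  have c4 : shh t * 1 * lam t + 2 * t < (1 + chh t) * lam t := by
    have b1 : 0 < (1 - (chh t - shh t)) * lam t := mul_pos (by linarith) hl0
    linear_combination b1 - 2 * hcs
  have key : ∀ (f g : ℝ × ℝ × ℝ → ℝ), Continuous f → Continuous g → f (lam t, 1, 1) < g (lam t, 1, 1) →
      ∀ᶠ z in nhds ((lam t, 1, 1) : ℝ × ℝ × ℝ), f z < g z := fun f g hf hg h =>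
    (isOpen_lt hf hg).mem_nhds h
  have e1 := key (fun _ => 0) (fun z => z.1) (by fun_prop) (by fun_prop) hl0
  have e2 := key (fun z => z.1) (fun _ => 1) (by fun_prop) (by fun_prop) hl1
  have e3 := key (fun z => 1 + zet t td * z.1 ^ 2 + 2 * the t td * z.2.1 * z.1)
    (fun z => (A2 t + mu t td * chh t) * z.1) (by fun_prop) (by fun_prop) c1
  have e4 := key (fun z => 1 + z.1 ^ 2 + z.2.2 * z.1 + z.1 ^ 2 * (lam t - t))
    (fun z => (A2 t - t) * z.1) (by fun_prop) (by fun_prop) c2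
  have e5 := key (fun z => shh t * the t td * z.2.1 * z.1 + t)
    (fun z => chh t * zet t td * z.1) (by fun_prop) (by fun_prop) c3
  have e6 := key (fun z => shh t * z.2.2 * z.1 + 2 * t)
    (fun z => (1 + chh t) * z.1) (by fun_prop) (by fun_prop) c4
  obtain ⟨δ, hδ, h⟩ := Metric.eventually_nhds_iff.1 (e1.and (e2.and (e3.and (e4.and (e5.and e6)))))
  refine ⟨min (δ / 2) 1, lt_min (half_pos hδ) one_pos, min_le_right _ _, fun r u v h1 h2 h3 => ?_⟩
  have d1 : min (δ / 2) 1 < δ := lt_of_le_of_lt (min_le_left _ _) (half_lt_self hδ)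
  have d2 : dist ((r, u, v) : ℝ × ℝ × ℝ) (lam t, 1, 1) < δ := by
    rw [Prod.dist_eq, Prod.dist_eq]
    simp only [Real.dist_eq]
    exact max_lt (h1.trans_lt d1) (max_lt (h2.trans_lt d1) (h3.trans_lt d1))
  obtain ⟨g1, g2, g3, g4, g5, g6⟩ := h d2
  exact ⟨g1, g2.le, g3.le, g4.le, g5.le, g6.le⟩

private lemma cosh38 {ε : ℝ} (h : |ε| ≤ 1) : Real.cosh ε - 1 ≤ ε ^ 2 := by
  have h2 : ε ^ 2 ≤ 1 := by
    rw [← sq_abs]
    exact pow_le_one₀ (abs_nonneg _) h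
  have h3 : |ε ^ 2 / 2| ≤ 1 := by
    rw [abs_of_nonneg (by positivity)]
    linarith
  have h4 := (abs_le.1 (Real.abs_exp_sub_one_sub_id_le h3)).2
  have h5 := Real.cosh_le_exp_half_sq ε
  nlinarith [sq_nonneg ε]

private lemma bg38 {t : ℝ} (ht : 0 < t) (hq : t ^ 2 + 2 * t < 1) :
    ∃ K δ : ℝ, 0 < K ∧ 0 < δ ∧ δ ≤ 1 ∧ ∀ ε : ℝ, |ε| ≤ 1 → K * ε ^ 2 ≤ δ →
      1 + (lam t * Real.exp (K * ε ^ 2)) ^ 2 + 2 * Real.cosh ε * (lam t * Real.exp (K * ε ^ 2)) ≤
        A2 t * (lam t * Real.exp (K * ε ^ 2)) ∧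
      shh t * Real.cosh ε * (lam t * Real.exp (K * ε ^ 2)) + t ≤
        chh t * (lam t * Real.exp (K * ε ^ 2)) := by
  have ht1 := t_lt_one ht hq
  have hl0 := lam_pos ht ht1
  have hl1 := lam_lt_one ht hq
  have hsh := shh_pos ht ht1
  have hA : A2 t * lam t = 1 + lam t ^ 2 + 2 * lam t := by
    rw [A2_eq ht ht1]
    field_simp
  have hcs : (chh t - shh t) * lam t = t := by
    rw [ch_sub_sh' ht ht1]
    field_simp
  obtain ⟨l, hl⟩ : ∃ l, lam t = l := ⟨_, rfl⟩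
  obtain ⟨sh, hsh'⟩ : ∃ sh, shh t = sh := ⟨_, rfl⟩
  obtain ⟨ch, hch'⟩ : ∃ ch, chh t = ch := ⟨_, rfl⟩
  obtain ⟨A, hA'⟩ : ∃ A, A2 t = A := ⟨_, rfl⟩
  simp only [hl, hsh', hch', hA'] at hl0 hl1 hsh hA hcs ⊢
  have hl2 : 0 < 1 - l ^ 2 := by
    have := pow_lt_one₀ hl0.le hl1 two_ne_zero
    linarith
  -- constants
  set K : ℝ := 8 * l / (1 - l ^ 2) + 4 * sh * l / t with hK
  have hK1 : 8 * l ≤ K * (1 - l ^ 2) := by
    have a1 : 0 ≤ 4 * sh * l / t := by positivity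
    have a2 : 8 * l / (1 - l ^ 2) * (1 - l ^ 2) = 8 * l := by field_simp
    rw [hK, add_mul, a2]
    have := mul_nonneg a1 hl2.le
    linarith
  have hK2 : 4 * sh * l ≤ K * t := by
    have a1 : 0 ≤ 8 * l / (1 - l ^ 2) := by positivity
    have a2 : 4 * sh * l / t * t = 4 * sh * l := by field_simp
    rw [hK, add_mul, a2]
    have := mul_nonneg a1 ht.le
    linarith
  have hK0 : 0 < K := by positivity
  have hd0 : 0 < (1 - l ^ 2) / (2 * (1 + l ^ 2)) := by positivity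
  refine ⟨K, min (1 / 2) ((1 - l ^ 2) / (2 * (1 + l ^ 2))), hK0, lt_min (by norm_num) hd0,
    (min_le_left _ _).trans (by norm_num), fun ε hε hx => ?_⟩
  have hx1 := hx.trans (min_le_left _ _)
  have hx2 := hx.trans (min_le_right _ _)
  rw [le_div_iff₀ (by positivity)] at hx2
  have hc := cosh38 hε
  have hc1 : 0 < Real.cosh ε := Real.cosh_pos ε
  have he0 : 0 ≤ ε ^ 2 := sq_nonneg ε
  obtain ⟨e2, he2⟩ : ∃ e, ε ^ 2 = e := ⟨_, rfl⟩
  obtain ⟨c, hcc⟩ : ∃ c, Real.cosh ε = c := ⟨_, rfl⟩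
  rw [he2] at hx hx1 hx2 hc he0 ⊢
  rw [hcc] at hc hc1 ⊢
  obtain ⟨x, hxx⟩ : ∃ x, K * e2 = x := ⟨_, rfl⟩
  rw [hxx] at hx hx1 hx2 ⊢
  have hx0 : 0 ≤ x := by
    rw [← hxx]
    positivity
  have hab : |x| ≤ 1 := by
    rw [abs_of_nonneg hx0]
    linarith
  have hab' : |(-x)| ≤ 1 := by
    rw [abs_neg]
    exact hab
  have q1 := (abs_le.1 (Real.abs_exp_sub_one_sub_id_le hab)).2
  have q2 := (abs_le.1 (Real.abs_exp_sub_one_sub_id_le hab')).2
  have q3 : Real.exp x * Real.exp (-x) = 1 := by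
    rw [← Real.exp_add, add_neg_cancel, Real.exp_zero]
  have q4 : 0 < Real.exp x := Real.exp_pos x
  obtain ⟨E, hE⟩ : ∃ E, Real.exp x = E := ⟨_, rfl⟩
  obtain ⟨G, hG⟩ : ∃ G, Real.exp (-x) = G := ⟨_, rfl⟩
  rw [hE] at q1 q3 q4 ⊢
  rw [hG] at q2 q3
  -- `E * G = 1`, `E ≤ 1 + x + x²`, `G ≤ 1 - x + x²`
  constructor
  · -- `1 + l² E² + 2 c l E ≤ A l E`
    have w1 : l * ((1 - l ^ 2) * x) ≤ l * 1 * x := by nlinarith [mul_nonneg (mul_nonneg hl0.le hx0) (sq_nonneg l)]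
    have w2 : 8 * l * e2 ≤ (1 - l ^ 2) * x := by
      rw [← hxx]
      have := mul_le_mul_of_nonneg_right hK1 he0
      linarith
    have w3 : x ^ 2 * (2 * (1 + l ^ 2)) ≤ x * (1 - l ^ 2) := by
      have := mul_le_mul_of_nonneg_left hx2 hx0
      linarith
    -- divided by `E`: `G + l² E + 2 c l ≤ 1 + l² + 2 l`
    have w4 : G + l ^ 2 * E + 2 * c * l ≤ 1 + l ^ 2 + 2 * l := by
      have v1 : l ^ 2 * E ≤ l ^ 2 * (1 + x + x ^ 2) := mul_le_mul_of_nonneg_left (by linarith) (sq_nonneg l)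
      have v2 : 2 * l * c ≤ 2 * l * (1 + e2) := mul_le_mul_of_nonneg_left (by linarith) (by positivity)
      nlinarith
    have w5 := mul_le_mul_of_nonneg_left w4 q4.le
    linear_combination w5 - q3 - E * hA
  · -- `sh c l E + t ≤ ch l E`, divided by `E`: `sh c l + t G ≤ ch l = sh l + t`
    have w2 : 4 * sh * l * e2 ≤ t * x := by
      rw [← hxx]
      have := mul_le_mul_of_nonneg_right hK2 he0
      linarith
    have w3 : x ^ 2 ≤ x / 2 := by nlinarith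
    have w4 : sh * c * l + t * G ≤ ch * l := by
      have v1 : t * G ≤ t * (1 - x + x ^ 2) := mul_le_mul_of_nonneg_left (by linarith) ht.le
      have v2 : sh * l * c ≤ sh * l * (1 + e2) := mul_le_mul_of_nonneg_left (by linarith) (by positivity)
      have v3 : t * x ^ 2 ≤ t * (x / 2) := mul_le_mul_of_nonneg_left w3 ht.le
      have v4 : 0 ≤ sh * l * e2 := by positivity
      linarith
    have w5 := mul_le_mul_of_nonneg_left w4 q4.le
    linear_combination w5 - t * q3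

private lemma choose38 {t td : ℝ} (ht : 0 < t) (hq : t ^ 2 + 2 * t < 1) (htd : 0 < td) (htt : td < t) :
    ∃ K ε₀ δ : ℝ, 0 < K ∧ 0 < ε₀ ∧ ε₀ ≤ 1 ∧ K * ε₀ ^ 2 ≤ 1 ∧ 0 < δ ∧ 6 * ε₀ ≤ δ ∧ δ ≤ 1 ∧
      ∀ ε : ℝ, |ε| ≤ ε₀ → ∀ u v : ℝ, |u - 1| ≤ δ → |v - 1| ≤ δ → ∀ m L : ℕ, 2 ≤ m → ∀ F : ℕ → ℝ,
        (∀ y, 0 ≤ F y) → (∀ y, F (y + 2) + F y = 2 * Real.cosh ε * F (y + 1)) → F 1 ≤ u * F 0 →
        F (m - 1) ≤ v * F m →
        Sup t td m L (fun y => (if y = 0 then 1 / the t td else 1) *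
            (F y * (lam t * Real.exp (K * ε ^ 2)) ^ (L + 1 - 0)) / (if y = 0 then td else t))
          (fun k y => (if y = 0 then 1 / the t td else 1) *
            (F y * (lam t * Real.exp (K * ε ^ 2)) ^ (L + 1 - k))) := by
  have ht1 := t_lt_one ht hq
  have hl0 := lam_pos ht ht1
  have hl1 := lam_lt_one ht hq
  obtain ⟨δ, hδ, hδ1, hd⟩ := del38 ht hq htd htt
  obtain ⟨K, δ', hK, hδ', hδ1', hk⟩ := bg38 ht hq
  have hm0 : 0 < min (δ / 6) (min δ' (δ / 2) / K) := by positivity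
  obtain ⟨ε₀, he⟩ : ∃ e, min (δ / 6) (min δ' (δ / 2) / K) = e := ⟨_, rfl⟩
  have h1 : ε₀ ≤ δ / 6 := he ▸ min_le_left _ _
  have h2 : ε₀ ≤ min δ' (δ / 2) / K := he ▸ min_le_right _ _
  rw [he] at hm0
  have h3 : K * ε₀ ≤ min δ' (δ / 2) := by
    rw [le_div_iff₀ hK] at h2
    linarith
  have h4 : ε₀ ≤ 1 := by linarith
  have h5 : K * ε₀ ^ 2 ≤ min δ' (δ / 2) := by
    have : K * ε₀ * ε₀ ≤ K * ε₀ * 1 := mul_le_mul_of_nonneg_left h4 (by positivity)
    calc K * ε₀ ^ 2 = K * ε₀ * ε₀ := by ring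
      _ ≤ K * ε₀ * 1 := this
      _ = K * ε₀ := mul_one _
      _ ≤ _ := h3
  have h6 : K * ε₀ ^ 2 ≤ 1 := (h5.trans (min_le_left _ _)).trans hδ1'
  refine ⟨K, ε₀, δ, hK, hm0, h4, h6, hδ, by linarith, hδ1, fun ε hε u v hu hv m L hm F hF g1 g2 g3 => ?_⟩
  have k1 : K * ε ^ 2 ≤ K * ε₀ ^ 2 := by
    refine mul_le_mul_of_nonneg_left ?_ hK.le
    rw [← sq_abs ε]
    exact pow_le_pow_left₀ (abs_nonneg _) hε 2
  obtain ⟨b1, b2⟩ := hk ε (hε.trans h4) (k1.trans (h5.trans (min_le_left _ _)))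
  have k2 : K * ε ^ 2 ≤ δ / 2 := k1.trans (h5.trans (min_le_right _ _))
  have k3 : 0 ≤ K * ε ^ 2 := by positivity
  have k4 : |K * ε ^ 2| ≤ 1 := by
    rw [abs_of_nonneg k3]
    exact k1.trans h6
  have k5 := (abs_le.1 (Real.abs_exp_sub_one_sub_id_le k4)).2
  have k6 : 1 ≤ Real.exp (K * ε ^ 2) := Real.one_le_exp k3
  have k7 : |lam t * Real.exp (K * ε ^ 2) - lam t| ≤ δ := by
    rw [abs_of_nonneg (by nlinarith)]
    have a1 : (K * ε ^ 2) ^ 2 ≤ K * ε ^ 2 := by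
      have := k1.trans h6
      nlinarith
    have a2 : Real.exp (K * ε ^ 2) - 1 ≤ δ := by linarith
    calc lam t * Real.exp (K * ε ^ 2) - lam t = lam t * (Real.exp (K * ε ^ 2) - 1) := by ring
      _ ≤ 1 * (Real.exp (K * ε ^ 2) - 1) := mul_le_mul_of_nonneg_right hl1.le (by linarith)
      _ ≤ δ := by linarith
  obtain ⟨c0, c1, c2, c3, c4, c5⟩ := hd _ u v k7 hu hv
  exact sup38 ht hq htd htt.le hm c0 c1 hF g1 g2 g3 b1 c2 c3 b2 c4 c5

private lemma expd38 {ε : ℝ} (h : |ε| ≤ 1) : |Real.exp ε - 1| ≤ 2 * |ε| := by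
  have h1 := Real.abs_exp_sub_one_sub_id_le h
  have h2 : ε ^ 2 ≤ |ε| := by
    rw [← sq_abs]
    nlinarith [abs_nonneg ε]
  calc |Real.exp ε - 1| = |(Real.exp ε - 1 - ε) + ε| := by congr 1; ring
    _ ≤ |Real.exp ε - 1 - ε| + |ε| := abs_add_le _ _
    _ ≤ 2 * |ε| := by linarith

private lemma sinh38 {ε : ℝ} (h0 : 0 < ε) (h1 : ε ≤ 1) {d : ℕ} (hd : 1 ≤ d) :
    Real.sinh (ε * (((1 : ℕ) : ℝ) + d)) ≤ (1 + (ε ^ 2 + (2 * ε + 2 / d))) * Real.sinh (ε * (((0 : ℕ) : ℝ) + d)) := by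
  have hd0 : (0 : ℝ) < d := by exact_mod_cast hd
  have e0 : ε * (((1 : ℕ) : ℝ) + d) = ε * d + ε := by
    push_cast
    ring
  have e1 : ε * (((0 : ℕ) : ℝ) + d) = ε * d := by
    push_cast
    ring
  rw [e0, e1, Real.sinh_add]
  obtain ⟨x, hx⟩ : ∃ x, ε * (d : ℝ) = x := ⟨_, rfl⟩
  have hx0 : 0 < x := by
    rw [← hx]
    positivity
  rw [hx]
  have a1 : x ≤ Real.sinh x := Real.self_le_sinh_iff.2 hx0.le
  have a2 : Real.cosh x - Real.sinh x = Real.exp (-x) := Real.cosh_sub_sinh x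
  have a3 : Real.exp (-x) ≤ 1 := Real.exp_le_one_iff.2 (by linarith)
  have a4 : x * Real.cosh x ≤ (1 + x) * Real.sinh x := by nlinarith
  have hab : |ε| ≤ 1 := by
    rw [abs_of_pos h0]
    exact h1
  have hab' : |(-ε)| ≤ 1 := by
    rw [abs_neg]
    exact hab
  have b1 := (abs_le.1 (Real.abs_exp_sub_one_sub_id_le hab)).2
  have b2 := (abs_le.1 (Real.abs_exp_sub_one_sub_id_le hab')).1
  have b3 : Real.sinh ε ≤ 2 * ε := by
    rw [Real.sinh_eq]
    nlinarith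
  have b4 := cosh38 hab
  have s0 : 0 < Real.sinh x := lt_of_lt_of_le hx0 a1
  have c1 : Real.cosh x * Real.sinh ε ≤ (2 * ε + 2 / d) * Real.sinh x := by
    have c2 : Real.cosh x ≤ (1 + x) * Real.sinh x / x := by
      rw [le_div_iff₀ hx0]
      linarith
    calc Real.cosh x * Real.sinh ε ≤ Real.cosh x * (2 * ε) :=
          mul_le_mul_of_nonneg_left b3 (Real.cosh_pos x).le
      _ ≤ (1 + x) * Real.sinh x / x * (2 * ε) := mul_le_mul_of_nonneg_right c2 (by positivity)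
      _ = (2 * ε + 2 / d) * Real.sinh x := by
          rw [← hx]
          field_simp
          ring
  have c3 : Real.sinh x * Real.cosh ε ≤ (1 + ε ^ 2) * Real.sinh x := by
    rw [mul_comm]
    exact mul_le_mul_of_nonneg_right (by linarith) s0.le
  linarith

theorem sup_exp {t td : ℝ} (ht : 0 < t) (hq : t ^ 2 + 2 * t < 1) (htd : 0 < td) (htt : td < t) :
    ∃ K ε₀ : ℝ, 0 < K ∧ 0 < ε₀ ∧ ε₀ ≤ 1 ∧ K * ε₀ ^ 2 ≤ 1 ∧ ∀ ε : ℝ, |ε| ≤ ε₀ → ∀ m : ℕ, 2 ≤ m → ∀ L : ℕ,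
      Sup t td m L (bxg t td (lam t * Real.exp (K * ε ^ 2)) ε L)
        (bex t td (lam t * Real.exp (K * ε ^ 2)) ε L) := by
  obtain ⟨K, ε₀, δ, hK, he, he1, hKe, hδ, hδe, hδ1, h⟩ := choose38 ht hq htd htt
  refine ⟨K, ε₀, hK, he, he1, hKe, fun ε hε m hm L => ?_⟩
  have h1 : |ε| ≤ 1 := hε.trans he1
  have h1' : |(-ε)| ≤ 1 := by
    rw [abs_neg]
    exact h1
  have h2 := expd38 h1
  have h3 := expd38 h1'
  rw [abs_neg] at h3
  refine h ε hε (Real.exp (-ε)) (Real.exp ε) (by linarith) (by linarith) m L hm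
    (fun y => Real.exp (-(ε * y))) (fun y => (Real.exp_pos _).le) (fun y => ?_) ?_ ?_
  · have e1 : -(ε * ((y + 2 : ℕ) : ℝ)) = -(ε * ((y + 1 : ℕ) : ℝ)) + -ε := by
      push_cast
      ring
    have e2 : -(ε * (y : ℝ)) = -(ε * ((y + 1 : ℕ) : ℝ)) + ε := by
      push_cast
      ring
    simp only [e1, e2, Real.exp_add, Real.cosh_eq]
    ring
  · simp only [Nat.cast_one, Nat.cast_zero, mul_one, mul_zero, neg_zero, Real.exp_zero]
    exact le_rfl
  · have e1 : -(ε * ((m - 1 : ℕ) : ℝ)) = ε + -(ε * (m : ℝ)) := by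
      rw [Nat.cast_sub (by omega)]
      push_cast
      ring
    simp only [e1, Real.exp_add]
    exact le_rfl

theorem sup_sinh {t td : ℝ} (ht : 0 < t) (hq : t ^ 2 + 2 * t < 1) (htd : 0 < td) (htt : td < t) :
    ∃ (K ε₀ : ℝ) (d : ℕ), 0 < K ∧ 0 < ε₀ ∧ ε₀ ≤ 1 ∧ K * ε₀ ^ 2 ≤ 1 ∧ 1 ≤ d ∧ ∀ ε : ℝ, 0 < ε → ε ≤ ε₀ →
      ∀ m : ℕ, 2 ≤ m → ∀ L : ℕ,
        Sup t td m L (bsg t td (lam t * Real.exp (K * ε ^ 2)) ε d L)
          (bsh t td (lam t * Real.exp (K * ε ^ 2)) ε d L) := by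
  obtain ⟨K, ε₀, δ, hK, he, he1, hKe, hδ, hδe, hδ1, h⟩ := choose38 ht hq htd htt
  obtain ⟨d, hd⟩ := exists_nat_gt (6 / δ)
  have hd0 : (0 : ℝ) < d := lt_trans (by positivity) hd
  have hd1 : 1 ≤ d := by
    have : 0 < d := by exact_mod_cast hd0
    omega
  have hd2 : 2 / (d : ℝ) ≤ δ / 3 := by
    rw [div_lt_iff₀ hδ] at hd
    rw [div_le_div_iff₀ hd0 (by norm_num)]
    linarith
  refine ⟨K, ε₀, d, hK, he, he1, hKe, hd1, fun ε hε0 hε m hm L => ?_⟩
  have hab : |ε| ≤ ε₀ := by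
    rw [abs_of_pos hε0]
    exact hε
  have h1 : ε ≤ 1 := hε.trans he1
  have h2 : ε ^ 2 ≤ ε := by nlinarith
  refine h ε hab (1 + (ε ^ 2 + (2 * ε + 2 / d))) 1 ?_ (by rw [sub_self, abs_zero]; exact hδ.le) m L hm
    (fun y => Real.sinh (ε * (y + d))) (fun y => Real.sinh_nonneg_iff.2 (by positivity)) (fun y => ?_)
    (sinh38 hε0 h1 hd1) ?_
  · rw [add_sub_cancel_left, abs_of_nonneg (by positivity)]
    linarith
  · have e1 : ε * (((y + 2 : ℕ) : ℝ) + d) = ε * (((y + 1 : ℕ) : ℝ) + d) + ε := by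
      push_cast
      ring
    have e2 : ε * ((y : ℝ) + d) = ε * (((y + 1 : ℕ) : ℝ) + d) - ε := by
      push_cast
      ring
    simp only [e1, e2, Real.sinh_add, Real.sinh_sub]
    ring
  · rw [one_mul]
    refine Real.sinh_le_sinh.2 (mul_le_mul_of_nonneg_left ?_ hε0.le)
    rw [Nat.cast_sub (by omega)]
    push_cast
    linarith

end Pool.Agent.Helper49.RD
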