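import Pool.Agent.Helper49.RD.Neg

/-!
Block RD-F3: the finite dimensional distributions.

`Fe g p s φ = Ml g [(1 + s 0, φ 0), ..., (1 + s (p - 1), φ (p - 1))]`.

Paper proof of `fdd`. Replace `x n i`, `K n i` by natural numbers: `l n = (x n i + n).toNat`, `c n = |K n i|.toNat` (eventually `x n i = l n - n`, as `-1 < s i`, and `K n i = ± c n` as `h i ≠ 0`). Three cases.
(a) All `h i > 0`: `above_lim` for the list `D` of the `(l, c, 1 + s i, h i)` (for large `n` all `c n ≥ 1`), `E1 = 1/2 Ml (lin D)/Ml (one D)`; the second summand vanishes: the multiplier `z ↦ ind (h i) (-z)` is `0` on `(0, ∞)` (`ml_split` with `α = γ = 0`).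
(b) All `h i < 0`: `below_lim` for `(l, c, 1 + s i, - h i)`: `K n i = - c n`. The limit is `1/2 + 1/2 Ml (lib D)/Ml (one D)`: the first summand of the claim is `1/2` (`ind (h i) = 1` on `(0, ∞)`), and `1 - ind (-h i) z = 1` iff `z < - h i`, while `ind (h i) (-z) = 1` iff `z ≤ - h i`: they agree up to one point, and the
integrals do not change (`Ml` only depends on the classes almost everywhere).
(c) Mixed: let `D` be the list of all `i` with `c = 0`, `h = 0` if `h i < 0`. `AllA n (ev D n)` is the condition for the `i` with `h i > 0`; by `mixed_eq` the further conditions `Above n (x n i) (K n i)`, `K n i ≤ 1`, change the probability by `o (1)` (`Above n x 1` implies `Above n x K` for `K ≤ 1`, `above_mono`). `above_lim`. The second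
summand of the claim vanishes since some `ind (h i) (-z) = 0` on `(0, ∞)`; in the first `ind (h i) = 1` on `(0, ∞)` if `h i < 0`.
`Gd 0 D`: `s` is strictly increasing, `0 < 1 + s i < 2`. Lists: `List.ofFn`.
-/

open Finset Filter
open scoped Classical

namespace Pool.Agent.Helper49.RD

open Pool.Agent.Helper49.DL Pool.Agent.Helper49.DX

private theorem bl_congr74 {g : ℝ} : ∀ (r r' : List (ℝ × (ℝ → ℝ))) (s : ℝ),
    List.Forall₂ (fun a b => a.1 = b.1 ∧ ∀ᵐ z ∂(MeasureTheory.volume.restrict (Set.Ioi (0 : ℝ))), a.2 z = b.2 z) r r' →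
      Bl g s r = Bl g s r' := by
  intro r
  induction r with
  | nil =>
    intro r' s h
    cases h
    rfl
  | cons a r ih =>
    intro r' s h
    cases h with
    | cons h1 h2 =>
      rename_i b r'
      obtain ⟨h3, h4⟩ := h1
      funext y
      show Tv _ _ y = Tv _ _ y
      unfold Tv
      rw [h3, ih r' b.1 h2]
      refine MeasureTheory.integral_congr_ae ?_
      filter_upwards [h4] with z hz
      rw [hz]

private theorem ml_congr74 {g : ℝ} {r r' : List (ℝ × (ℝ → ℝ))}
    (h : List.Forall₂ (fun a b => a.1 = b.1 ∧ ∀ᵐ z ∂(MeasureTheory.volume.restrict (Set.Ioi (0 : ℝ))), a.2 z = b.2 z) r r') :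
    Ml g r = Ml g r' := by
  cases h with
  | nil => rfl
  | cons h1 h2 =>
    rename_i a b r r'
    obtain ⟨h3, h4⟩ := h1
    show La _ _ = La _ _
    unfold La
    rw [h3, bl_congr74 r r' b.1 h2]
    refine MeasureTheory.integral_congr_ae ?_
    filter_upwards [h4] with z hz
    rw [hz]

private theorem bl_zero74 {g : ℝ} : ∀ (r : List (ℝ × (ℝ → ℝ))) (s : ℝ), (∃ a ∈ r, ∀ z, 0 < z → a.2 z = 0) →
    Bl g s r = fun _ => 0 := by
  intro r
  induction r with
  | nil =>
    rintro s ⟨a, ha, _⟩
    simp at ha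
  | cons a r ih =>
    rintro s ⟨c, hc, h0⟩
    funext y
    show Tv _ _ y = 0
    unfold Tv
    refine MeasureTheory.setIntegral_eq_zero_of_forall_eq_zero ?_
    intro z hz
    rcases List.mem_cons.1 hc with h1 | h1
    · subst h1
      show hk _ y z * (c.2 z * Bl g c.1 r z) = 0
      rw [h0 z hz]
      ring
    · show hk _ y z * (a.2 z * Bl g a.1 r z) = 0
      rw [ih a.1 ⟨c, h1, h0⟩]
      ring

private theorem ml_zero74 {g : ℝ} {r : List (ℝ × (ℝ → ℝ))} (h : ∃ a ∈ r, ∀ z, 0 < z → a.2 z = 0) : Ml g r = 0 := by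
  obtain ⟨c, hc, h0⟩ := h
  cases r with
  | nil => rfl
  | cons a r =>
    show La _ _ = 0
    unfold La
    refine MeasureTheory.setIntegral_eq_zero_of_forall_eq_zero ?_
    intro z hz
    rcases List.mem_cons.1 hc with h1 | h1
    · subst h1
      show rho _ z * (c.2 z * Bl g c.1 r z) = 0
      rw [h0 z hz]
      ring
    · show rho _ z * (a.2 z * Bl g a.1 r z) = 0
      rw [bl_zero74 r a.1 ⟨c, h1, h0⟩]
      ring

private theorem gd_ofFn74 : ∀ (p : ℕ) (F : Fin p → SD) (r : ℝ), r < 2 → (∀ i, r < (F i).s) → (∀ i, (F i).s < 2) →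
    StrictMono (fun i => (F i).s) → (∀ i, Tendsto (fun n : ℕ => ((F i).l n : ℝ) / n) atTop (nhds (F i).s)) →
    (∀ i, Hgt (F i).c (F i).h) → Gd r (List.ofFn F) := by
  intro p
  induction p with
  | zero =>
    intro F r hr _ _ _ _ _
    rw [List.ofFn_zero]
    exact hr
  | succ p ih =>
    intro F r hr h1 h2 h3 h4 h5
    rw [List.ofFn_succ]
    refine ⟨h1 0, h4 0, h5 0, ?_⟩
    refine ih (fun i => F i.succ) _ (h2 0) (fun i => ?_) (fun i => h2 _) ?_ (fun i => h4 _) (fun i => h5 _)
    · exact h3 (Fin.succ_pos i)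
    · intro i j hij
      exact h3 (Fin.succ_lt_succ_iff.2 hij)

private theorem inc_ofFn74 : ∀ (p : ℕ) (F : Fin p → ℝ × (ℝ → ℝ)) (r : ℝ), r < 2 → (∀ i, r < (F i).1) → (∀ i, (F i).1 < 2) →
    StrictMono (fun i => (F i).1) → Inc r (List.ofFn F) := by
  intro p
  induction p with
  | zero =>
    intro F r hr _ _ _
    rw [List.ofFn_zero]
    exact hr
  | succ p ih =>
    intro F r hr h1 h2 h3
    rw [List.ofFn_succ]
    refine ⟨h1 0, ?_⟩
    refine ih (fun i => F i.succ) _ (h2 0) (fun i => ?_) (fun i => h2 _) ?_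
    · exact h3 (Fin.succ_pos i)
    · intro i j hij
      exact h3 (Fin.succ_lt_succ_iff.2 hij)

private theorem forall2_ofFn74 {α : Type*} {R : α → α → Prop} : ∀ (p : ℕ) (F G : Fin p → α), (∀ i, R (F i) (G i)) →
    List.Forall₂ R (List.ofFn F) (List.ofFn G) := by
  intro p
  induction p with
  | zero =>
    intro F G _
    rw [List.ofFn_zero, List.ofFn_zero]
    exact List.Forall₂.nil
  | succ p ih =>
    intro F G h
    rw [List.ofFn_succ, List.ofFn_succ]
    exact List.Forall₂.cons (h 0) (ih _ _ (fun i => h _))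

private theorem sg_pos74 {t : ℝ} (ht : 0 < t) (hq : t ^ 2 + 2 * t < 1) : 0 < sg t := by
  have h1 := lam_pos ht (t_lt_one ht hq)
  have h2 := lam_lt_one ht hq
  unfold sg
  have h3 : 0 < 1 - lam t ^ 2 := by nlinarith
  positivity

theorem fdd {β₁ β J : ℝ} (h0 : 0 ≤ β₁) (h : β₁ < β) (hm : 0 < mag β₁) (hJ : 1 < J) {p : ℕ} (hp : 1 ≤ p)
    {s b : Fin p → ℝ} (hs : StrictMono s) (hs1 : ∀ i, -1 < s i ∧ s i < 1) (hb : ∀ i, b i ≠ 0)
    {x K : ℕ → Fin p → ℤ} (hx : ∀ i, Tendsto (fun n : ℕ => (x n i : ℝ) / n) atTop (nhds (s i)))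
    (hK : ∀ i, Tendsto (fun n : ℕ => (K n i : ℝ) / Real.sqrt n) atTop (nhds (b i))) :
    Tendsto (fun n : ℕ => PJ β J n (fun ω => ∀ i, Above n (x n i) (K n i) ω)) atTop
      (nhds ((Fe (sg (Real.exp (-β))) p s (fun i z => ind (b i) z) +
        Fe (sg (Real.exp (-β))) p s (fun i z => ind (b i) (-z))) /
          (2 * Fe (sg (Real.exp (-β))) p s (fun _ _ => 1)))) := by
  have hq := t_small h0 h hm
  have hg : 0 < sg (Real.exp (-β)) := sg_pos74 (Real.exp_pos _) hq
  set g := sg (Real.exp (-β)) with hgd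
  -- the denominator
  have hden : 0 < Fe g p s (fun _ _ => 1) := by
    unfold Fe
    refine ml_pos hg _ ?_ ?_ ?_ ?_
    · intro h1
      have h2 := congrArg List.length h1
      simp only [List.length_ofFn, List.length_nil] at h2
      omega
    · refine inc_ofFn74 p _ 0 (by norm_num) (fun i => ?_) (fun i => ?_) ?_
      · show 0 < 1 + s i
        linarith [(hs1 i).1]
      · show 1 + s i < 2
        linarith [(hs1 i).2]
      · intro i j hij
        show 1 + s i < 1 + s j
        linarith [hs hij]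
    · intro a ha z _
      rw [List.mem_ofFn] at ha
      obtain ⟨i, rfl⟩ := ha
      rfl
    · intro a ha
      rw [List.mem_ofFn] at ha
      obtain ⟨i, rfl⟩ := ha
      refine ⟨measurable_const, fun z => ?_⟩
      simp
  -- a margin
  obtain ⟨δ, hδ, hδs⟩ : ∃ δ : ℝ, 0 < δ ∧ ∀ i, |s i| < 1 - δ := by
    have : Nonempty (Fin p) := ⟨⟨0, hp⟩⟩
    obtain ⟨i₀, hi₀⟩ := Finite.exists_min (fun i => 1 - |s i|)
    have h1 : 0 < 1 - |s i₀| := by
      have := abs_lt.2 (hs1 i₀)
      linarith
    refine ⟨(1 - |s i₀|) / 2, by linarith, fun i => ?_⟩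
    have := hi₀ i
    linarith
  have hxe : ∀ᶠ n : ℕ in atTop, ∀ i, |(x n i : ℝ)| ≤ (1 - δ) * n := by
    rw [eventually_all]
    intro i
    have h1 : Tendsto (fun n : ℕ => |(x n i : ℝ) / n|) atTop (nhds |s i|) := (hx i).abs
    filter_upwards [h1.eventually (gt_mem_nhds (hδs i)), eventually_ge_atTop 1] with n hn hn1
    have hn0 : (0 : ℝ) < n := by exact_mod_cast hn1
    rw [abs_div, abs_of_pos hn0, div_lt_iff₀ hn0] at hn
    exact hn.le
  have hKe : ∀ᶠ n : ℕ in atTop, ∀ i, (0 < b i → 0 < K n i) ∧ (b i < 0 → K n i < 0) := by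
    rw [eventually_all]
    intro i
    rcases lt_or_gt_of_ne (hb i) with h1 | h1
    · filter_upwards [(hK i).eventually (gt_mem_nhds h1), eventually_ge_atTop 1] with n hn hn1
      have hn0 : (0 : ℝ) < Real.sqrt n := Real.sqrt_pos.2 (by exact_mod_cast hn1)
      refine ⟨fun h2 => absurd h2 (by linarith), fun _ => ?_⟩
      rw [div_lt_iff₀ hn0, zero_mul] at hn
      exact_mod_cast hn
    · filter_upwards [(hK i).eventually (lt_mem_nhds h1), eventually_ge_atTop 1] with n hn hn1
      have hn0 : (0 : ℝ) < Real.sqrt n := Real.sqrt_pos.2 (by exact_mod_cast hn1)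
      refine ⟨fun _ => ?_, fun h2 => absurd h2 (by linarith)⟩
      rw [lt_div_iff₀ hn0, zero_mul] at hn
      exact_mod_cast hn
  have hxn : ∀ n : ℕ, ∀ i, |(x n i : ℝ)| ≤ (1 - δ) * n → 0 ≤ x n i + n := by
    intro n i h1
    have h2 := (abs_le.1 h1).1
    have h3 : (0 : ℝ) ≤ (x n i : ℝ) + n := by
      have h4 : 0 ≤ δ * (n : ℝ) := by positivity
      nlinarith
    exact_mod_cast h3
  have hl : ∀ i, Tendsto (fun n : ℕ => (((x n i + n).toNat : ℕ) : ℝ) / n) atTop (nhds (1 + s i)) := by
    intro i
    have h1 : Tendsto (fun n : ℕ => 1 + (x n i : ℝ) / n) atTop (nhds (1 + s i)) := (hx i).const_add 1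
    refine h1.congr' ?_
    filter_upwards [hxe, eventually_ge_atTop 1] with n hn hn1
    have hn0 : (0 : ℝ) < n := by exact_mod_cast hn1
    have h2 := hxn n i (hn i)
    have h3 : (((x n i + n).toNat : ℕ) : ℝ) = (x n i : ℝ) + n := by
      have h4 : (((x n i + n).toNat : ℕ) : ℤ) = x n i + n := Int.toNat_of_nonneg h2
      have h5 : ((((x n i + n).toNat : ℕ) : ℤ) : ℝ) = ((x n i + n : ℤ) : ℝ) := by rw [h4]
      push_cast at h5
      exact h5
    rw [h3]
    field_simp
    ring
  have hlz : ∀ n : ℕ, ∀ i, |(x n i : ℝ)| ≤ (1 - δ) * n → (((x n i + n).toNat : ℕ) : ℤ) - n = x n i := by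
    intro n i h1
    rw [Int.toNat_of_nonneg (hxn n i h1)]
    ring
  have hsm : StrictMono (fun i => 1 + s i) := by
    intro i j hij
    show 1 + s i < 1 + s j
    linarith [hs hij]
  have hlim : ∀ (c : Fin p → ℕ → ℕ) (e : Fin p → ℝ), (∀ i, Hgt (c i) (e i)) →
      Gd 0 (List.ofFn (fun i => (⟨fun n => (x n i + n).toNat, c i, 1 + s i, e i⟩ : SD))) := by
    intro c e hce
    refine gd_ofFn74 p _ 0 (by norm_num) (fun i => ?_) (fun i => ?_) hsm hl hce
    · show 0 < 1 + s i
      linarith [(hs1 i).1]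
    · show 1 + s i < 2
      linarith [(hs1 i).2]
  have hone : ∀ (c : Fin p → ℕ → ℕ) (e : Fin p → ℝ),
      Ml g (one (List.ofFn (fun i => (⟨fun n => (x n i + n).toNat, c i, 1 + s i, e i⟩ : SD)))) =
        Fe g p s (fun _ _ => 1) := by
    intro c e
    unfold one Fe
    rw [List.map_ofFn]
    rfl
  have hlin : ∀ (c : Fin p → ℕ → ℕ) (e : Fin p → ℝ),
      Ml g (lin (List.ofFn (fun i => (⟨fun n => (x n i + n).toNat, c i, 1 + s i, e i⟩ : SD)))) =
        Fe g p s (fun i z => ind (e i) z) := by
    intro c e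
    unfold lin Fe
    rw [List.map_ofFn]
    rfl
  have hlib : ∀ (c : Fin p → ℕ → ℕ) (e : Fin p → ℝ),
      Ml g (lib (List.ofFn (fun i => (⟨fun n => (x n i + n).toNat, c i, 1 + s i, e i⟩ : SD)))) =
        Fe g p s (fun i z => 1 - ind (e i) z) := by
    intro c e
    unfold lib Fe
    rw [List.map_ofFn]
    rfl
  have hmem : ∀ (c : Fin p → ℕ → ℕ) (e : Fin p → ℝ) (n : ℕ) (Q : ℕ × ℕ → Prop),
      (∀ a ∈ ev (List.ofFn (fun i => (⟨fun n => (x n i + n).toNat, c i, 1 + s i, e i⟩ : SD))) n, Q a) ↔
        ∀ i, Q ((x n i + n).toNat, c i n) := by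
    intro c e n Q
    unfold ev
    rw [List.map_ofFn]
    constructor
    · intro h1 i
      exact h1 _ (List.mem_ofFn.2 ⟨i, rfl⟩)
    · intro h1 a ha
      rw [List.mem_ofFn] at ha
      obtain ⟨i, rfl⟩ := ha
      exact h1 i
  by_cases hpos : ∃ i, 0 < b i
  · -- some threshold is positive
    obtain ⟨i₁, hi₁⟩ := hpos
    have hz : Fe g p s (fun i z => ind (b i) (-z)) = 0 := by
      unfold Fe
      refine ml_zero74 ⟨_, List.mem_ofFn.2 ⟨i₁, rfl⟩, fun z hz => ?_⟩
      show ind (b i₁) (-z) = 0
      unfold ind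
      rw [if_neg (by linarith)]
    rw [hz]
    -- the list
    set c : Fin p → ℕ → ℕ := fun i n => if 0 < b i then (K n i).toNat else 0 with hc
    set e : Fin p → ℝ := fun i => if 0 < b i then b i else 0 with he
    have hce : ∀ i, Hgt (c i) (e i) := by
      intro i
      by_cases h1 : 0 < b i
      · left
        refine ⟨by rw [he]; simp only [if_pos h1]; exact h1, ?_⟩
        have h2 : e i = b i := by rw [he]; simp only [if_pos h1]
        rw [h2]
        refine (hK i).congr' ?_
        filter_upwards [hKe] with n hn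
        have h3 := (hn i).1 h1
        have h4 : ((c i n : ℕ) : ℝ) = (K n i : ℝ) := by
          have h5 : ((c i n : ℕ) : ℤ) = K n i := by
            rw [hc]
            simp only [if_pos h1]
            exact Int.toNat_of_nonneg h3.le
          exact_mod_cast congrArg (fun t : ℤ => (t : ℝ)) h5
        rw [h4]
      · right
        refine ⟨by rw [he]; simp only [if_neg h1], fun n => by rw [hc]; simp only [if_neg h1]⟩
    have hD := hlim c e hce
    have hex : ∃ d ∈ List.ofFn (fun i => (⟨fun n => (x n i + n).toNat, c i, 1 + s i, e i⟩ : SD)), 0 < d.h := by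
      refine ⟨_, List.mem_ofFn.2 ⟨i₁, rfl⟩, ?_⟩
      show 0 < e i₁
      rw [he]
      simp only [if_pos hi₁]
      exact hi₁
    have hA := above_lim h0 h hm hJ hD hex
    have hB := mixed_eq h0 h hm hJ hD hex hδ
    rw [← hgd, hone, hlin] at hA
    have hF : Fe g p s (fun i z => ind (e i) z) = Fe g p s (fun i z => ind (b i) z) := by
      unfold Fe
      refine ml_congr74 (forall2_ofFn74 p _ _ fun i => ⟨rfl, ?_⟩)
      refine (MeasureTheory.ae_restrict_iff' measurableSet_Ioi).2 (Eventually.of_forall fun z hz => ?_)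
      have hz0 : 0 < z := hz
      show ind (e i) z = ind (b i) z
      by_cases h1 : 0 < b i
      · rw [he]
        simp only [if_pos h1]
      · rw [he]
        simp only [if_neg h1]
        unfold ind
        rw [if_pos hz0.le, if_pos (by linarith)]
    rw [hF] at hA
    have hval : (Fe g p s (fun i z => ind (b i) z) + 0) / (2 * Fe g p s (fun _ _ => 1)) =
        1 / 2 * (Fe g p s (fun i z => ind (b i) z) / Fe g p s (fun _ _ => 1)) := by
      field_simp
      ring
    rw [hval]
    have hsub := hA.sub hB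
    rw [sub_zero] at hsub
    refine tendsto_of_tendsto_of_tendsto_of_le_of_le' hsub hA ?_ ?_
    · filter_upwards [hxe, hKe] with n hn1 hn2
      rw [sub_le_iff_le_add]
      refine PJ_or fun ω hω => ?_
      by_cases hbad : ∃ y : ℤ, |(y : ℝ)| ≤ (1 - δ) * n ∧ ¬ Above n y 1 ω
      · exact Or.inr ⟨hω, hbad⟩
      · left
        intro i
        by_cases h1 : 0 < b i
        · have h2 := (hmem c e n (fun a => a.2 ≠ 0 → Above n ((a.1 : ℤ) - n) a.2 ω)).1 hω i
          have h3 : ((c i n : ℕ) : ℤ) = K n i := by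
            rw [hc]
            simp only [if_pos h1]
            exact Int.toNat_of_nonneg ((hn2 i).1 h1).le
          have h4 : c i n ≠ 0 := by
            intro h5
            rw [h5] at h3
            have := (hn2 i).1 h1
            simp at h3
            omega
          have h5 := h2 h4
          simp only at h5
          rw [h3, hlz n i (hn1 i)] at h5
          exact h5
        · have h2 : b i < 0 := lt_of_le_of_ne (not_lt.1 h1) (hb i)
          have h3 : Above n (x n i) 1 ω := by
            by_contra h4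
            exact hbad ⟨x n i, hn1 i, h4⟩
          exact above_mono (by have := (hn2 i).2 h2; omega) h3
    · filter_upwards [hxe, hKe] with n hn1 hn2
      refine PJ_mono fun ω hω => ?_
      refine (hmem c e n (fun a => a.2 ≠ 0 → Above n ((a.1 : ℤ) - n) a.2 ω)).2 fun i hi => ?_
      simp only at hi ⊢
      by_cases h1 : 0 < b i
      · have h3 : ((c i n : ℕ) : ℤ) = K n i := by
          rw [hc]
          simp only [if_pos h1]
          exact Int.toNat_of_nonneg ((hn2 i).1 h1).le
        rw [h3, hlz n i (hn1 i)]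
        exact hω i
      · exfalso
        apply hi
        rw [hc]
        simp only [if_neg h1]
  · -- all thresholds are negative
    have hneg : ∀ i, b i < 0 := fun i => lt_of_le_of_ne (not_lt.1 fun h1 => hpos ⟨i, h1⟩) (hb i)
    set c : Fin p → ℕ → ℕ := fun i n => (-(K n i)).toNat with hc
    set e : Fin p → ℝ := fun i => -(b i) with he
    have hcz : ∀ᶠ n : ℕ in atTop, ∀ i, ((c i n : ℕ) : ℤ) = -(K n i) := by
      filter_upwards [hKe] with n hn i
      exact Int.toNat_of_nonneg (by have := (hn i).2 (hneg i); omega)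
    have hce : ∀ i, Hgt (c i) (e i) := by
      intro i
      left
      refine ⟨by rw [he]; show 0 < -(b i); linarith [hneg i], ?_⟩
      have h1 : Tendsto (fun n : ℕ => -((K n i : ℝ) / Real.sqrt n)) atTop (nhds (-(b i))) := (hK i).neg
      refine h1.congr' ?_
      filter_upwards [hcz] with n hn
      have h4 : ((c i n : ℕ) : ℝ) = -(K n i : ℝ) := by
        have := congrArg (fun t : ℤ => (t : ℝ)) (hn i)
        push_cast at this
        exact this
      rw [h4]
      ring
    have hD := hlim c e hce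
    have hne : List.ofFn (fun i => (⟨fun n => (x n i + n).toNat, c i, 1 + s i, e i⟩ : SD)) ≠ [] := by
      intro h1
      have h2 := congrArg List.length h1
      simp only [List.length_ofFn, List.length_nil] at h2
      omega
    have hall : ∀ d ∈ List.ofFn (fun i => (⟨fun n => (x n i + n).toNat, c i, 1 + s i, e i⟩ : SD)), 0 < d.h := by
      intro d hd
      rw [List.mem_ofFn] at hd
      obtain ⟨i, rfl⟩ := hd
      show 0 < e i
      rw [he]
      show 0 < -(b i)
      linarith [hneg i]
    have hA := below_lim h0 h hm hJ hne hD hall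
    rw [← hgd, hone, hlib] at hA
    have hF1 : Fe g p s (fun i z => ind (b i) z) = Fe g p s (fun _ _ => 1) := by
      unfold Fe
      refine ml_congr74 (forall2_ofFn74 p _ _ fun i => ⟨rfl, ?_⟩)
      refine (MeasureTheory.ae_restrict_iff' measurableSet_Ioi).2 (Eventually.of_forall fun z hz => ?_)
      have hz0 : 0 < z := hz
      show ind (b i) z = 1
      unfold ind
      rw [if_pos (by linarith [hneg i])]
    have hF2 : Fe g p s (fun i z => ind (b i) (-z)) = Fe g p s (fun i z => 1 - ind (e i) z) := by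
      unfold Fe
      refine ml_congr74 (forall2_ofFn74 p _ _ fun i => ⟨rfl, ?_⟩)
      refine MeasureTheory.ae_restrict_of_ae ?_
      have h1 : ∀ᵐ z : ℝ, z ≠ -(b i) := by
        rw [MeasureTheory.ae_iff]
        simp
      filter_upwards [h1] with z hz
      show ind (b i) (-z) = 1 - ind (e i) z
      rw [he]
      unfold ind
      by_cases h2 : b i ≤ -z
      · rw [if_pos h2]
        have h3 : ¬ (-(b i) ≤ z) := by
          intro h4
          apply hz
          linarith
        show (1 : ℝ) = 1 - (if -(b i) ≤ z then 1 else 0)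
        rw [if_neg h3]
        ring
      · rw [if_neg h2]
        have h3 : -(b i) ≤ z := by linarith
        show (0 : ℝ) = 1 - (if -(b i) ≤ z then 1 else 0)
        rw [if_pos h3]
        ring
    rw [hF1, hF2]
    have hval : (Fe g p s (fun _ _ => 1) + Fe g p s (fun i z => 1 - ind (e i) z)) / (2 * Fe g p s (fun _ _ => 1)) =
        1 / 2 + 1 / 2 * (Fe g p s (fun i z => 1 - ind (e i) z) / Fe g p s (fun _ _ => 1)) := by
      field_simp
    rw [hval]
    refine hA.congr' ?_
    filter_upwards [hxe, hcz] with n hn1 hn2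
    congr 1
    funext ω
    apply propext
    rw [hmem c e n (fun a => Above n ((a.1 : ℤ) - n) (-(a.2 : ℤ)) ω)]
    refine forall_congr' fun i => ?_
    simp only
    rw [hn2 i, hlz n i (hn1 i), Int.neg_neg]

end Pool.Agent.Helper49.RD
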