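import Pool.Agent.Helper49.DX.Fou

/-!
Block RD-FK: the size of the Fourier integrals on all levels (analysis).

Paper proof. As `ff_bound` (`DX/FouC.lean`, copy its private lemmas) with `Hh t θ k / Hh t θ (L + 1)` instead of `Hh t θ 0 / Hh t θ (L + 1)`: by
`hh_low` (`DX/Hb.lean`) `Hh (j + 1) ≥ (1/λ + 2 (1 - cos θ)) Hh j > 0`, so with `l = L + 1 - k ≥ 1`
`Hh k / Hh (L + 1) ≤ (1/λ + 2 (1 - cos θ))^(-l) ≤ λ^l exp (-(4 λ/(π² (1 + 4 λ)) l) θ²)` on `[0, π]`. The rest is the same (`L` there is `l` here).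
`fsys_exists_all`: the solution `FF t ε L` of `fsys_exists` (`DX/Fou.lean`; its proof gives `FSys t ε L (FF t ε L)` for all `L`, copy).
-/

open Finset

namespace Pool.Agent.Helper49.RD

open Pool.Agent.Helper49.DL Pool.Agent.Helper49.DX

private lemma cos_low1K {θ : ℝ} (h0 : 0 ≤ θ) (h1 : θ ≤ Real.pi) :
    2 * θ ^ 2 / Real.pi ^ 2 ≤ 1 - Real.cos θ := by
  have hp := Real.pi_pos
  have e1 : 1 - Real.cos θ = 2 * Real.sin (θ / 2) ^ 2 := by
    have h2 := Real.cos_sq_add_sin_sq (θ / 2)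
    have h3 : Real.cos θ = 2 * Real.cos (θ / 2) ^ 2 - 1 := by
      rw [← Real.cos_two_mul]; congr 1; ring
    rw [h3]; linarith
  have h2 := Real.mul_le_sin (x := θ / 2) (by linarith) (by linarith)
  have h3 : 2 / Real.pi * (θ / 2) = θ / Real.pi := by field_simp
  rw [h3] at h2
  have h4 : 0 ≤ θ / Real.pi := by positivity
  have h5 : (θ / Real.pi) ^ 2 ≤ Real.sin (θ / 2) ^ 2 := pow_le_pow_left₀ h4 h2 2
  rw [e1]
  calc 2 * θ ^ 2 / Real.pi ^ 2 = 2 * (θ / Real.pi) ^ 2 := by rw [div_pow]; ring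
    _ ≤ 2 * Real.sin (θ / 2) ^ 2 := by linarith

private lemma exp_low1K {u B : ℝ} (hu : 0 ≤ u) (hB : u ≤ B) :
    Real.exp (u / (1 + B)) ≤ 1 + u := by
  have h1 : 0 < 1 + u := by linarith
  rw [← Real.le_log_iff_exp_le h1]
  have h2 := Real.one_sub_inv_le_log_of_pos h1
  refine le_trans ?_ h2
  have h3 : 1 - (1 + u)⁻¹ = u / (1 + u) := by field_simp; ring
  rw [h3]
  exact div_le_div_of_nonneg_left hu h1 (by linarith)

private lemma gauss_int1K {c : ℝ} (hc : 0 < c) :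
    ∫ θ in (0 : ℝ)..Real.pi, θ ^ 2 * Real.exp (-c * θ ^ 2) ≤
      c ^ (-(3 / 2) : ℝ) * (1 / 2) * Real.Gamma (3 / 2) := by
  have h1 := integral_rpow_mul_exp_neg_mul_rpow (p := 2) (q := 2) (b := c) two_pos (by norm_num) hc
  have h2 := integrableOn_rpow_mul_exp_neg_mul_rpow (p := 2) (s := 2) (b := c) (by norm_num) two_pos hc
  have e1 : (-((2 : ℝ) + 1) / 2) = (-(3 / 2) : ℝ) := by norm_num
  have e2 : (((2 : ℝ) + 1) / 2) = (3 / 2 : ℝ) := by norm_num
  rw [e1, e2] at h1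
  simp only [Real.rpow_two] at h1 h2
  rw [← h1, intervalIntegral.integral_of_le Real.pi_pos.le]
  refine MeasureTheory.setIntegral_mono_set h2 ?_ ?_
  · exact Filter.Eventually.of_forall fun x => by
      show 0 ≤ x ^ 2 * Real.exp (-c * x ^ 2)
      positivity
  · exact (Set.Ioc_subset_Ioi_self).eventuallyLE

private lemma sf_nonneg1K {ε θ : ℝ} (hε : 0 < ε) (h0 : 0 ≤ θ) (h1 : θ ≤ Real.pi) :
    0 ≤ Sf ε θ := by
  unfold Sf
  have h2 := Real.sinh_pos_iff.2 hε
  have h3 := Real.sin_nonneg_of_nonneg_of_le_pi h0 h1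
  positivity

private lemma sf_le1K {ε θ : ℝ} (hε : 0 < ε) (h0 : 0 ≤ θ) :
    Sf ε θ ≤ Real.sinh ε / (2 * (Real.cosh ε - 1) ^ 2) * θ := by
  unfold Sf
  have h2 := Real.sinh_pos_iff.2 hε
  have h3 : 1 < Real.cosh ε := Real.one_lt_cosh.2 hε.ne'
  have h4 := Real.cos_le_one θ
  have h5 : Real.sin θ ≤ θ := Real.sin_le h0
  have h6 : 0 < Real.cosh ε - 1 := by linarith
  have h7 : (Real.cosh ε - 1) ^ 2 ≤ (Real.cosh ε - Real.cos θ) ^ 2 :=
    pow_le_pow_left₀ h6.le (by linarith) 2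
  have h8 : 0 < (Real.cosh ε - 1) ^ 2 := by positivity
  rw [div_mul_eq_mul_div]
  exact div_le_div₀ (by positivity) (mul_le_mul_of_nonneg_left h5 h2.le) (by positivity)
    (by linarith)

private lemma pow_ratK {t : ℝ} (ht : 0 < t) (hq : t ^ 2 + 2 * t < 1) (θ : ℝ) (k l : ℕ) :
    (1 / lam t + 2 * (1 - Real.cos θ)) ^ l * Hh t θ k ≤ Hh t θ (k + l) := by
  have ht1 := t_lt_one ht hq
  have hl := lam_pos ht ht1
  have hc : 0 ≤ 1 - Real.cos θ := by linarith [Real.cos_le_one θ]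
  have ha0 : 0 < 1 / lam t + 2 * (1 - Real.cos θ) := by positivity
  induction l with
  | zero => rw [pow_zero, one_mul, add_zero]
  | succ l ih =>
    calc (1 / lam t + 2 * (1 - Real.cos θ)) ^ (l + 1) * Hh t θ k
        = (1 / lam t + 2 * (1 - Real.cos θ)) *
          ((1 / lam t + 2 * (1 - Real.cos θ)) ^ l * Hh t θ k) := by ring
      _ ≤ (1 / lam t + 2 * (1 - Real.cos θ)) * Hh t θ (k + l) :=
          mul_le_mul_of_nonneg_left ih ha0.le
      _ ≤ _ := (hh_low ht hq θ (k + l)).2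

private lemma ratio_leK {t : ℝ} (ht : 0 < t) (hq : t ^ 2 + 2 * t < 1) (k l : ℕ) {θ : ℝ}
    (h0 : 0 ≤ θ) (h1 : θ ≤ Real.pi) :
    Hh t θ k / Hh t θ (k + l) ≤ lam t ^ l *
      Real.exp (-(4 * lam t / (Real.pi ^ 2 * (1 + 4 * lam t)) * l) * θ ^ 2) := by
  have hp := Real.pi_pos
  have hl := lam_pos ht (t_lt_one ht hq)
  have h2 := pow_ratK ht hq θ k l
  have h4 := cos_low1K h0 h1
  have hk : 0 < Hh t θ k := (hh_low ht hq θ k).1
  obtain ⟨c, hcdef⟩ : ∃ c, c = lam t := ⟨_, rfl⟩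
  rw [← hcdef] at hl h2 ⊢
  obtain ⟨w, hw⟩ : ∃ w : ℝ, w = 4 * c * θ ^ 2 / Real.pi ^ 2 := ⟨_, rfl⟩
  have hw0 : 0 ≤ w := by rw [hw]; positivity
  have hw1 : w ≤ 4 * c := by
    rw [hw, div_le_iff₀ (by positivity)]
    have : θ ^ 2 ≤ Real.pi ^ 2 := pow_le_pow_left₀ h0 h1 2
    exact mul_le_mul_of_nonneg_left this (by positivity)
  have h5 : 1 / c * (1 + w) ≤ 1 / c + 2 * (1 - Real.cos θ) := by
    have e1 : 1 / c * (1 + w) = 1 / c + 2 * (2 * θ ^ 2 / Real.pi ^ 2) := by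
      rw [hw]; field_simp; ring
    rw [e1]; linarith
  have h6 : Real.exp (w / (1 + 4 * c)) ≤ 1 + w := exp_low1K hw0 hw1
  have h7 : 1 / c * Real.exp (w / (1 + 4 * c)) ≤ 1 / c + 2 * (1 - Real.cos θ) :=
    (mul_le_mul_of_nonneg_left h6 (by positivity)).trans h5
  have h8 : (1 / c * Real.exp (w / (1 + 4 * c))) ^ l ≤
      (1 / c + 2 * (1 - Real.cos θ)) ^ l :=
    pow_le_pow_left₀ (by positivity) h7 l
  have h9 : 0 < Hh t θ (k + l) := (hh_low ht hq θ (k + l)).1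
  have h10 : Real.exp (4 * c / (Real.pi ^ 2 * (1 + 4 * c)) * l * θ ^ 2) =
      Real.exp (w / (1 + 4 * c)) ^ l := by
    rw [← Real.exp_nat_mul]
    congr 1
    rw [hw]; field_simp
  have h11 : (1 / c) ^ l * Real.exp (4 * c / (Real.pi ^ 2 * (1 + 4 * c)) * l * θ ^ 2) *
      Hh t θ k ≤ Hh t θ (k + l) := by
    refine le_trans (mul_le_mul_of_nonneg_right ?_ hk.le) h2
    rw [h10, ← mul_pow]
    exact h8
  rw [div_le_iff₀ h9]
  refine le_trans (le_of_eq ?_) (mul_le_mul_of_nonneg_left h11 (by positivity))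
  have e3 : Real.exp (-(4 * c / (Real.pi ^ 2 * (1 + 4 * c)) * l) * θ ^ 2) *
      Real.exp (4 * c / (Real.pi ^ 2 * (1 + 4 * c)) * l * θ ^ 2) = 1 := by
    rw [← Real.exp_add, ← Real.exp_zero]
    congr 1
    ring
  have e4 : c ^ l * (1 / c) ^ l = 1 := by
    rw [← mul_pow, mul_one_div_cancel hl.ne', one_pow]
  calc Hh t θ k = Hh t θ k * 1 * 1 := by ring
    _ = Hh t θ k * (c ^ l * (1 / c) ^ l) *
        (Real.exp (-(4 * c / (Real.pi ^ 2 * (1 + 4 * c)) * l) * θ ^ 2) *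
          Real.exp (4 * c / (Real.pi ^ 2 * (1 + 4 * c)) * l * θ ^ 2)) := by rw [e3, e4]
    _ = _ := by ring

/-- A linear relation between the multipliers gives the relation between the integrals. -/
private lemma FF_linK {t ε : ℝ} (ht : 0 < t) (hq : t ^ 2 + 2 * t < 1) (hε : 0 < ε) {L : ℕ} {j : ℕ}
    (hj : 1 ≤ j) (k : ℕ) :
    FF t ε L k (j + 1) + FF t ε L k (j - 1) =
      2 / Real.pi * ∫ θ in (0 : ℝ)..Real.pi,
        Real.sin (j * θ) * (Sf ε θ * (2 * Real.cos θ * Hh t θ k / Hh t θ (L + 1))) := by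
  have h1 := (FF_cont ht hq hε L k (j + 1)).intervalIntegrable (μ := MeasureTheory.volume) 0 Real.pi
  have h2 := (FF_cont ht hq hε L k (j - 1)).intervalIntegrable (μ := MeasureTheory.volume) 0 Real.pi
  unfold FF
  rw [← mul_add, ← intervalIntegral.integral_add h1 h2]
  congr 1
  refine intervalIntegral.integral_congr fun θ _ => ?_
  have e : ((j - 1 : ℕ) : ℝ) = j - 1 := by
    rw [Nat.cast_sub hj]; simp
  rw [e]
  have e2 : Real.sin (((j + 1 : ℕ) : ℝ) * θ) + Real.sin (((j : ℝ) - 1) * θ) =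
      2 * Real.cos θ * Real.sin (j * θ) := by
    push_cast
    rw [add_mul, sub_mul, one_mul, Real.sin_add, Real.sin_sub]
    ring
  calc _ = (Real.sin (((j + 1 : ℕ) : ℝ) * θ) + Real.sin (((j : ℝ) - 1) * θ)) *
        (Sf ε θ * (Hh t θ k / Hh t θ (L + 1))) := by ring
    _ = _ := by rw [e2]; ring

theorem ff_bound_all {t ε : ℝ} (ht : 0 < t) (hq : t ^ 2 + 2 * t < 1) (hε : 0 < ε) :
    ∃ C : ℝ, 0 < C ∧ ∀ L k : ℕ, k ≤ L → ∀ j : ℕ,
      FF t ε L k j ≤ C * j * lam t ^ (L + 1 - k) / ((L + 1 - k : ℕ) : ℝ) ^ (3 / 2 : ℝ) := by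
  have hp := Real.pi_pos
  have hl := lam_pos ht (t_lt_one ht hq)
  have hsh := Real.sinh_pos_iff.2 hε
  have hch : 1 < Real.cosh ε := Real.one_lt_cosh.2 hε.ne'
  have hch' : 0 < Real.cosh ε - 1 := by linarith
  set D : ℝ := Real.sinh ε / (2 * (Real.cosh ε - 1) ^ 2) with hD
  have hDp : 0 < D := by positivity
  set a : ℝ := 4 * lam t / (Real.pi ^ 2 * (1 + 4 * lam t)) with ha
  have hap : 0 < a := by positivity
  have hG : 0 < Real.Gamma (3 / 2) := Real.Gamma_pos_of_pos (by norm_num)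
  refine ⟨2 / Real.pi * (D * (a ^ (-(3 / 2) : ℝ) * (1 / 2) * Real.Gamma (3 / 2))),
    by positivity, fun L k hk j => ?_⟩
  obtain ⟨l, hl1, hkl⟩ : ∃ l : ℕ, 1 ≤ l ∧ L + 1 = k + l := ⟨L + 1 - k, by omega, by omega⟩
  have hlk : L + 1 - k = l := by omega
  rw [hlk]
  have hL0 : (0 : ℝ) < l := by exact_mod_cast hl1
  unfold FF
  have h1 : ∫ θ in (0 : ℝ)..Real.pi, Real.sin (j * θ) * (Sf ε θ * (Hh t θ k / Hh t θ (L + 1))) ≤
      ∫ θ in (0 : ℝ)..Real.pi, (j * D * lam t ^ l) *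
        (θ ^ 2 * Real.exp (-(a * l) * θ ^ 2)) := by
    refine intervalIntegral.integral_mono_on hp.le
      ((FF_cont ht hq hε L k j).intervalIntegrable _ _) ?_ ?_
    · exact Continuous.intervalIntegrable (by fun_prop) _ _
    · intro θ hθ
      have hθ0 : 0 ≤ θ := hθ.1
      have hθ1 : θ ≤ Real.pi := hθ.2
      have h2 := sf_nonneg1K hε hθ0 hθ1
      have h3 := sf_le1K hε hθ0
      have h4 := ratio_leK ht hq k l hθ0 hθ1
      rw [← hkl] at h4
      have h5 : 0 ≤ Hh t θ k / Hh t θ (L + 1) :=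
        (div_pos (hh_low ht hq θ k).1 (hh_low ht hq θ (L + 1)).1).le
      have h6 : Real.sin (j * θ) ≤ j * θ := Real.sin_le (by positivity)
      rw [← hD] at h3
      rw [← ha] at h4
      have h7 : Sf ε θ * (Hh t θ k / Hh t θ (L + 1)) ≤
          (D * θ) * (lam t ^ l * Real.exp (-(a * l) * θ ^ 2)) :=
        mul_le_mul h3 h4 h5 (by positivity)
      calc Real.sin (j * θ) * (Sf ε θ * (Hh t θ k / Hh t θ (L + 1)))
          ≤ (j * θ) * (Sf ε θ * (Hh t θ k / Hh t θ (L + 1))) :=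
            mul_le_mul_of_nonneg_right h6 (mul_nonneg h2 h5)
        _ ≤ (j * θ) * ((D * θ) * (lam t ^ l * Real.exp (-(a * l) * θ ^ 2))) :=
            mul_le_mul_of_nonneg_left h7 (by positivity)
        _ = _ := by ring
  rw [intervalIntegral.integral_const_mul] at h1
  have h2 := gauss_int1K (c := a * l) (by positivity)
  have h3 : (a * l) ^ (-(3 / 2) : ℝ) = a ^ (-(3 / 2) : ℝ) / (l : ℝ) ^ (3 / 2 : ℝ) := by
    rw [Real.mul_rpow hap.le hL0.le, Real.rpow_neg hL0.le]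
    exact (div_eq_mul_inv _ _).symm
  rw [h3] at h2
  have h4 := h1.trans (mul_le_mul_of_nonneg_left h2 (by positivity))
  have h5 := mul_le_mul_of_nonneg_left h4 (show (0 : ℝ) ≤ 2 / Real.pi by positivity)
  refine h5.trans (le_of_eq ?_)
  ring

theorem fsys_exists_all {t ε : ℝ} (ht : 0 < t) (hq : t ^ 2 + 2 * t < 1) (hε : 0 < ε) :
    ∃ C : ℝ, 0 < C ∧ ∀ L : ℕ, ∃ F : ℕ → ℕ → ℝ, FSys t ε L F ∧ ∀ k ≤ L, ∀ j : ℕ,
      F k j ≤ C * j * lam t ^ (L + 1 - k) / ((L + 1 - k : ℕ) : ℝ) ^ (3 / 2 : ℝ) := by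
  obtain ⟨C, hC, hb⟩ := ff_bound_all ht hq hε
  refine ⟨C, hC, fun L => ⟨FF t ε L, ⟨?_, ?_, ?_, ?_, ?_⟩, hb L⟩⟩
  · intro j
    rw [← sf_coeff hε j]
    unfold FF
    congr 1
    refine intervalIntegral.integral_congr fun θ _ => ?_
    rw [div_self (hh_low ht hq θ (L + 1)).1.ne', mul_one]
  · intro k _
    unfold FF
    simp
  · intro k j _ hj
    rw [FF_linK ht hq hε hj (k + 1)]
    have hc : ∀ k, IntervalIntegrable (fun θ => Real.sin (j * θ) *
        (Sf ε θ * (Hh t θ k / Hh t θ (L + 1)))) MeasureTheory.volume 0 Real.pi := fun k =>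
      (FF_cont ht hq hε L k j).intervalIntegrable 0 Real.pi
    have hc2 : IntervalIntegrable (fun θ => Real.sin (j * θ) *
        (Sf ε θ * (2 * Real.cos θ * Hh t θ (k + 1) / Hh t θ (L + 1)))) MeasureTheory.volume 0
          Real.pi := by
      have h1 := (Continuous.mul (g := fun θ => Real.sin (j * θ) *
        (Sf ε θ * (Hh t θ (k + 1) / Hh t θ (L + 1)))) (show Continuous fun θ => 2 * Real.cos θ by
          fun_prop) (FF_cont ht hq hε L (k + 1) j)).intervalIntegrable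
            (μ := MeasureTheory.volume) 0 Real.pi
      refine h1.congr_ae (Filter.Eventually.of_forall fun θ => ?_)
      simp only [Pi.mul_apply]
      ring
    unfold FF
    rw [← mul_add, ← mul_add, ← intervalIntegral.integral_add (hc (k + 2)) (hc k),
      ← intervalIntegral.integral_add ((hc (k + 2)).add (hc k)) hc2, ← mul_assoc, mul_comm (A2 t),
      mul_assoc, ← intervalIntegral.integral_const_mul]
    congr 1
    refine intervalIntegral.integral_congr fun θ _ => ?_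
    have e : Hh t θ (k + 2) = (A2 t - 2 * Real.cos θ) * Hh t θ (k + 1) - Hh t θ k := rfl
    rw [e]
    ring
  · intro j hj
    rw [FF_linK ht hq hε hj 0]
    have hc : ∀ k, IntervalIntegrable (fun θ => Real.sin (j * θ) *
        (Sf ε θ * (Hh t θ k / Hh t θ (L + 1)))) MeasureTheory.volume 0 Real.pi := fun k =>
      (FF_cont ht hq hε L k j).intervalIntegrable 0 Real.pi
    have hc2 : IntervalIntegrable (fun θ => Real.sin (j * θ) *
        (Sf ε θ * (2 * Real.cos θ * Hh t θ 0 / Hh t θ (L + 1)))) MeasureTheory.volume 0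
          Real.pi := by
      have h1 := (Continuous.mul (g := fun θ => Real.sin (j * θ) *
        (Sf ε θ * (Hh t θ 0 / Hh t θ (L + 1)))) (show Continuous fun θ => 2 * Real.cos θ by
          fun_prop) (FF_cont ht hq hε L 0 j)).intervalIntegrable
            (μ := MeasureTheory.volume) 0 Real.pi
      refine h1.congr_ae (Filter.Eventually.of_forall fun θ => ?_)
      simp only [Pi.mul_apply]
      ring
    have key : chh t * (∫ θ in (0 : ℝ)..Real.pi, Real.sin (j * θ) *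
        (Sf ε θ * (Hh t θ 0 / Hh t θ (L + 1)))) = shh t / 2 * (∫ θ in (0 : ℝ)..Real.pi,
          Real.sin (j * θ) * (Sf ε θ * (2 * Real.cos θ * Hh t θ 0 / Hh t θ (L + 1)))) +
        t * ∫ θ in (0 : ℝ)..Real.pi, Real.sin (j * θ) *
        (Sf ε θ * (Hh t θ 1 / Hh t θ (L + 1))) := by
      rw [← intervalIntegral.integral_const_mul, ← intervalIntegral.integral_const_mul,
        ← intervalIntegral.integral_const_mul, ← intervalIntegral.integral_add
          (hc2.const_mul _) ((hc 1).const_mul _)]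
      refine intervalIntegral.integral_congr fun θ _ => ?_
      have e : Hh t θ 1 = chh t - shh t * Real.cos θ := rfl
      have e' : Hh t θ 0 = t := rfl
      rw [e, e']
      ring
    unfold FF
    linear_combination (2 / Real.pi) * key
  · intro k _
    have h1 := (sin_coeff_tendsto (f := fun θ => Sf ε θ * (Hh t θ k / Hh t θ (L + 1)))
      ((Sf_cont hε).mul (Continuous.div (hh_cont t k) (hh_cont t (L + 1))
        fun θ => (hh_low ht hq θ (L + 1)).1.ne'))).const_mul (2 / Real.pi)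
    rw [mul_zero] at h1
    exact h1

end Pool.Agent.Helper49.RD
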