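import Pool.Agent.Helper49.RD.BoxRep
import Pool.Agent.Helper49.RD.Lev2
import Pool.Agent.Helper49.RD.Alg1
import Pool.Agent.Helper49.DX.Gl
import Pool.Agent.Helper49.DX.Ct

/-!
Block RD-GA: the two-point function of the ends of the middle row.

Paper proofs.
* `xe_fits`: definitions: `xe β (kap J)` is `exp (-(β * 1))` on the vertical dual edges (`Sum.inl`), `exp (-(β * kap J (x, y)))` on `Sum.inr (x, y)`, `kap J (x, y) = J` iff `y = 0`, and row `j = M` is `y = -M + j = 0`.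
* `g2_ab`: `box_rep` (second part for the middle rows, first part) with `X = fun _ => xs t td M` and `xe_fits`: `G2 a b = ZG (pr a b)/ZG ∅ = GSo t (fun _ => x0) (2 N + 1) mid mid = GS t x0 (2 N + 1) mid mid` (`GSo_const`; or `Xo_const`), and `gsum t td M L e0 0 = ∑ v, e0 (ds v) * GS L v mid = GS L mid mid`
  (`ds M v = 0` iff `v` is the middle row). (Alternatively `rect_GS` of `DX/Tg2.lean` for the full rectangle.)
* `gam_low`: `g2_low` (`DX/Gl.lean`) with `N = M = n` (`2 √n + 5 ≤ n` for large `n`), `β = -log t > 0`, `J = log td/log t > 1`, `exp (-β) = t`, `exp (-(β J)) = td`; `g2_ab`; `(2 * N + 1).toNat = 2 n + 1`.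
-/

open Finset
open scoped Classical

namespace Pool.Agent.Helper49.RD

open Pool.Agent.Helper49.DL Pool.Agent.Helper49.DX

theorem xe_fits {N M : ℕ} (β J : ℝ) : Fits (N := N) (Real.exp (-β))
    (fun _ => xs (Real.exp (-β)) (Real.exp (-(β * J))) M) (xe β (kap J)) := by
  refine ⟨fun i => ?_, fun i k j _ h2 => ?_⟩
  · simp [xe, lk]
  · unfold xe xs kap lk
    by_cases h : (j : ℕ) = M
    · have h3 : i.1.2 = 0 := by rw [h2, h]; simp
      simp only [h3, if_true, h]
    · have h3 : ¬ i.1.2 = 0 := by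
        rw [h2]; omega
      simp only [h3, if_false, h, mul_one]

theorem g2_ab {N M : ℕ} (hM : 2 ≤ M) {β J : ℝ} (hβ : 0 < β) (hJ : 0 < J) {a b : PV (box (N : ℤ) M)}
    (ha : a.1 = (-(N : ℤ) - 1, 0)) (hb : b.1 = ((N : ℤ), 0)) :
    G2 β J N M a b = gsum (Real.exp (-β)) (Real.exp (-(β * J))) M (2 * N + 1) e0 0 := by
  obtain ⟨K, hK, H⟩ := box_rep (N := N) (M := M) (by omega)
  obtain ⟨h0, h1, -, -⟩ := H _ _ _ (xe_fits (N := N) (M := M) β J)
  have hmid : M < 2 * M + 1 := by omega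
  have h2 := h1 ⟨M, hmid⟩ ⟨M, hmid⟩ a b (by
    unfold pq
    rw [ha]
    simp) (by
    unfold pq
    rw [hb]
    simp only [Prod.mk.injEq]
    push_cast
    constructor <;> ring)
  have h3 : G2 β J N M a b = GS (Real.exp (-β)) (xs (Real.exp (-β)) (Real.exp (-(β * J))) M)
      (2 * N + 1) ⟨M, hmid⟩ ⟨M, hmid⟩ := by
    unfold G2 GS
    rw [Xo_const] at h0 h2
    rw [← h0, ← h2, mul_div_mul_left _ _ hK]
  rw [h3]
  unfold gsum
  rw [dif_pos (by omega : M + 0 < 2 * M + 1)]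
  rw [Finset.sum_eq_single (⟨M, hmid⟩ : Fin (2 * M + 1))]
  · have : ds M (⟨M, hmid⟩ : Fin (2 * M + 1)) = 0 := by simp [ds]
    rw [this]
    simp [e0]
  · intro v _ hv
    have : ds M v ≠ 0 := by
      unfold ds
      intro h
      apply hv
      apply Fin.ext
      simp only
      omega
    simp [e0, this]
  · intro h
    exact absurd (Finset.mem_univ _) h

theorem gam_low {t td : ℝ} (ht : 0 < t) (hq : t ^ 2 + 2 * t < 1) (htd : 0 < td) (htt : td < t) :
    ∃ (c : ℝ) (n₀ : ℕ), 0 < c ∧ ∀ n : ℕ, n₀ ≤ n →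
      c * lam t ^ (2 * n + 1) / ((2 * n + 1 : ℕ) : ℝ) ^ (3 / 2 : ℝ) ≤ gsum t td n (2 * n + 1) e0 0 := by
  have ht1 : t < 1 := by nlinarith
  have hlt : Real.log t < 0 := Real.log_neg ht ht1
  have hltd : Real.log td < 0 := Real.log_neg htd (htt.trans ht1)
  have hβ : 0 < -Real.log t := by linarith
  have hJ : 0 < Real.log td / Real.log t := div_pos_of_neg_of_neg hltd hlt
  have hne : Real.log t ≠ 0 := hlt.ne
  have e1 : Real.exp (-(-Real.log t)) = t := by rw [_root_.neg_neg, Real.exp_log ht]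
  have e2 : Real.exp (-(-Real.log t * (Real.log td / Real.log t))) = td := by
    have : -(-Real.log t * (Real.log td / Real.log t)) = Real.log td := by
      rw [neg_mul, _root_.neg_neg, mul_div_assoc', mul_div_cancel_left₀ _ hne]
    rw [this, Real.exp_log htd]
  obtain ⟨c, hc, H⟩ := g2_low hβ hJ (by rw [e1]; exact hq)
  refine ⟨c, 16, hc, fun n hn => ?_⟩
  have hs : 2 * Nat.sqrt n + 5 ≤ n := by
    have h4 : 4 ≤ Nat.sqrt n := by
      rw [Nat.le_sqrt]
      omega
    have h5 := Nat.sqrt_le n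
    nlinarith
  have hN0 : (0 : ℤ) ≤ (n : ℤ) := by omega
  have hM1 : (1 : ℤ) ≤ (n : ℤ) := by omega
  have ha : ((-(n : ℤ) - 1, 0) : Site) ∈ PL (box (n : ℤ) n) := (mem_PL_box hN0 hM1).2
    ⟨by simp, by simp only; omega, by simp only; omega, by simp only; omega⟩
  have hb : (((n : ℤ), 0) : Site) ∈ PL (box (n : ℤ) n) := (mem_PL_box hN0 hM1).2
    ⟨by simp only; omega, by simp, by simp only; omega, by simp only; omega⟩
  have h6 := H (n : ℤ) (n : ℤ) hM1 (by rw [Int.toNat_natCast]; exact_mod_cast hs) ⟨_, ha⟩ ⟨_, hb⟩ rfl rfl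
  rw [g2_ab (by omega) hβ hJ rfl rfl, e1, e2] at h6
  have h7 : (2 * (n : ℤ) + 1).toNat = 2 * n + 1 := by omega
  rw [h7] at h6
  have h8 : ((2 * n + 1 : ℕ) : ℝ) = 2 * (((n : ℤ)) : ℝ) + 1 := by push_cast; ring
  rw [h8]
  exact h6

end Pool.Agent.Helper49.RD
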