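import Pool.Agent.Helper49.RD.LevUp
import Pool.Agent.Helper49.RD.Gam
import Pool.Agent.Helper49.RD.Alg4
import Pool.Agent.Helper49.RD.Alg3
import Pool.Agent.Helper49.DX.Sd
import Pool.Agent.Helper49.DX.Ct
import Pool.Agent.Helper49.DX.Al

/-!
Block RD-GP: point bounds for the two-point function of the dual box, mass and tails of the levels.

`t = exp (-β)`, `td = exp (-(β J))`, `λ = lam t`; `t² + 2 t < 1` (`t_small`, `DX/Al.lean`), `td < t` (`J > 1`), strip of half height `m = n`, box `n n`, `L = 2 n + 1`. `gsum n l e0 (ds v) = GS l (middle) v` (`e0 (ds v') = 0` unless `v'` is the middle row; `gsum_row`,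
`GS_symm`), so `GS l (middle) v ≤ C (1 + ds v) λ^l / (l + 1)^(3/2)` (`lev_up`). `G2 (q v) p ≤ exp (-(c |v - row p|))` (`G2_decay`, `c = (β - β₁) mag β₁² > 0`).

Paper proofs.
* `g2_lft`: `g2_left` (`DX/Sd.lean`) with `l = p.1.1 + n ≥ 0`: `G2 a p ≤ ∑ v, GS l mid v * G2 (q v) p ≤ C λ^l (l+1)^(-3/2) ∑ v, (1 + |v - n|) e^{-c |v - n - y|} ≤ C' (1 + |y|) λ^(l+1) (l+1)^(-3/2)` (`1 + |v - n| ≤ (1 + |y|)(1 + |v - n - y|)`, geometric sums).
* `g2_rgt`: the same with `g2_right`, `l = n - 1 - p.1.1`, so `l + 1 = n - p.1.1`.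
* `lev_le_g2`: the level profile `lev n L e0 k (ds i)` is `(pqo t (fun _ => x0) .. k).1 i` (`lev_pqs`, `pqo_const`, `GSo_const`), `x0 = xs t td n`; `level_formula` for the constant weight with `e v = e0 (ds v)` (the indicator of the middle row): it is
  `ip 1 (Xm t x0 k (an i (Yo k d (sp (· mid))))) / ip 1 (Xo .. L 1)`, `k + d = L`; `dom_one`; `box_rep` for `X = fun _ => x0` and `v = xe β (kap J)` (`Fits`: definitions of `xe`, `kap`, `xs`): `= ZG (pr p b)/ZG ∅ = G2 p b` (`Xo_const`).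
* `h_mass`: by `lev_le_g2` and `g2_right` (`l = L - k - 1 = 2 n - k`): `lev e0 k (ds i) ≤ ∑ v, GS l mid v * e^{-c |v - i|}`; `∑_{i : B ≤ ds i} e^{-c |v - i|} ≤ C (1_{ds v ≥ B/2} + e^{-c B/4})` (if `ds v < B/2` then `|v - i| ≥ B/2`);
  `∑ v, GS l mid v * w (ds v) = gsum n l w 0` (`GS_symm`).
* `on_le`: `contact_le` (`DX/Ct.lean`): `G2 a p * G2 p b / G2 a b`, `g2_lft`, `g2_rgt`, `g2_ab` and `gam_low` (`RD/Gam.lean`), `p.1.1 + n ≥ δ n`, `n - p.1.1 ≥ δ n`. The site `p` with `|p.1| ≤ (1 - δ) n`, `|p.2| ≤ n` is a plaquette (`mem_PL_box`).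
-/

open Finset
open scoped Classical

namespace Pool.Agent.Helper49.RD

open Pool.Agent.Helper49.DL Pool.Agent.Helper49.DX

/-- Two-sided exponential sums. -/
private lemma two_sum23 {c : ℝ} (hc : 0 < c) : ∃ K : ℝ, 0 < K ∧ ∀ s : Finset ℤ,
    ∑ z ∈ s, (1 + |(z : ℝ)|) * Real.exp (-(c * |(z : ℝ)|)) ≤ K := by
  have h1 : Summable (fun n : ℕ => (1 + (n : ℝ)) * Real.exp (-(c * n))) := by
    have a0 := Real.summable_pow_mul_exp_neg_nat_mul 0 hc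
    have a1 := Real.summable_pow_mul_exp_neg_nat_mul 1 hc
    refine (a0.add a1).congr (fun n => ?_)
    rw [pow_zero, pow_one, neg_mul]
    ring
  have h2 : Summable (fun z : ℤ => (1 + |(z : ℝ)|) * Real.exp (-(c * |(z : ℝ)|))) := by
    refine Summable.of_nat_of_neg ?_ ?_
    · refine h1.congr (fun n => ?_)
      rw [Int.cast_natCast, Nat.abs_cast]
    · refine h1.congr (fun n => ?_)
      rw [Int.cast_neg, Int.cast_natCast, abs_neg, Nat.abs_cast]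
  have h0 : ∀ z : ℤ, 0 ≤ (1 + |(z : ℝ)|) * Real.exp (-(c * |(z : ℝ)|)) := fun z => by positivity
  refine ⟨1 + ∑' z : ℤ, (1 + |(z : ℝ)|) * Real.exp (-(c * |(z : ℝ)|)), ?_, fun s => ?_⟩
  · have : (0 : ℝ) ≤ ∑' z : ℤ, (1 + |(z : ℝ)|) * Real.exp (-(c * |(z : ℝ)|)) := tsum_nonneg h0
    linarith
  · have := h2.sum_le_tsum s (fun z _ => h0 z)
    linarith

private lemma two_sum_fin23 {c : ℝ} (hc : 0 < c) : ∃ K : ℝ, 0 < K ∧ ∀ (m : ℕ) (y : ℤ),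
    ∑ v : Fin (2 * m + 1), (1 + |((((v : ℕ) : ℤ) - m - y : ℤ) : ℝ)|) *
      Real.exp (-(c * |((((v : ℕ) : ℤ) - m - y : ℤ) : ℝ)|)) ≤ K := by
  obtain ⟨K, hK, h⟩ := two_sum23 hc
  refine ⟨K, hK, fun m y => ?_⟩
  have h1 := h (Finset.univ.image (fun v : Fin (2 * m + 1) => ((v : ℕ) : ℤ) - m - y))
  rw [Finset.sum_image] at h1
  · refine le_trans (le_of_eq ?_) h1
    exact Finset.sum_congr rfl fun v _ => by push_cast; rfl
  · intro a _ b _ hab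
    apply Fin.ext
    have : ((a : ℕ) : ℤ) - m - y = ((b : ℕ) : ℤ) - m - y := hab
    omega

private lemma ds_abs23 (m : ℕ) (v : Fin (2 * m + 1)) : ((ds m v : ℕ) : ℝ) = |((((v : ℕ) : ℤ) - m : ℤ) : ℝ)| := by
  unfold ds
  rw [Nat.cast_natAbs, Int.cast_abs]

private lemma ds_mid23 (m : ℕ) (h : m < 2 * m + 1) : ds m (⟨m, h⟩ : Fin (2 * m + 1)) = 0 := by
  unfold ds
  simp

/-- Sums against the middle row. -/
private lemma mid_sum23 (t td : ℝ) (m L : ℕ) (w : ℕ → ℝ) (h : m < 2 * m + 1) :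
    ∑ v, GS t (xs t td m) L ⟨m, h⟩ v * w (ds m v) = gsum t td m L w 0 := by
  have h1 := gsum_row t td m L w ⟨m, h⟩
  rw [ds_mid23] at h1
  rw [← h1]
  exact Finset.sum_congr rfl fun v _ => by rw [GS_symm]; ring

private lemma e0_ds23 (m : ℕ) (v : Fin (2 * m + 1)) (h : m < 2 * m + 1) :
    e0 (ds m v) = if v = ⟨m, h⟩ then 1 else 0 := by
  unfold e0
  refine if_congr ?_ rfl rfl
  unfold ds
  constructor
  · intro h1
    apply Fin.ext
    simp only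
    omega
  · intro h1
    rw [h1]
    simp

private lemma gs_mid23 (t td : ℝ) (m L : ℕ) (u : Fin (2 * m + 1)) (h : m < 2 * m + 1) :
    GS t (xs t td m) L ⟨m, h⟩ u = gsum t td m L e0 (ds m u) := by
  rw [← gsum_row t td m L e0 u]
  have : ∀ v ∈ (Finset.univ : Finset (Fin (2 * m + 1))), e0 (ds m v) * GS t (xs t td m) L v u =
      if v = ⟨m, h⟩ then GS t (xs t td m) L v u else 0 := by
    intro v _
    rw [e0_ds23 m v h]
    split_ifs <;> simp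
  rw [Finset.sum_congr rfl this, Finset.sum_ite_eq' Finset.univ]
  simp

/-- The row of a plaquette. -/
private lemma exists_row23 {n : ℕ} (hn : 2 ≤ n) (p : PV (box (n : ℤ) n)) :
    ∃ q : Fin (2 * n + 1) → PV (box (n : ℤ) n), ∀ v, (q v).1 = (p.1.1, (v : ℤ) - n) := by
  have hp := (mem_PL_box (N := (n : ℤ)) (M := n) (by omega) (by omega)).1 p.2
  refine ⟨fun v => ⟨(p.1.1, (v : ℤ) - n), (mem_PL_box (by omega) (by omega)).2 ?_⟩, fun v => rfl⟩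
  have hv := v.2
  refine ⟨hp.1, hp.2.1, ?_, ?_⟩ <;> dsimp only <;> omega

section

variable {β₁ β J : ℝ} (h0 : 0 ≤ β₁) (h : β₁ < β) (hm : 0 < mag β₁) (hJ : 1 < J)

include h0 h hm hJ

private lemma base23 : 0 < β ∧ 0 < J ∧ 0 < Real.exp (-(β * J)) ∧ Real.exp (-(β * J)) < Real.exp (-β) ∧
    Real.exp (-β) < 1 ∧ 0 < (β - β₁) * mag β₁ ^ 2 ∧ 0 < lam (Real.exp (-β)) := by
  have hβ : 0 < β := lt_of_le_of_lt h0 h
  have hq := t_small h0 h hm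
  have ht1 := t_lt_one (Real.exp_pos (-β)) hq
  refine ⟨hβ, by linarith, Real.exp_pos _, ?_, ht1, mul_pos (by linarith) (pow_pos hm 2),
    lam_pos (Real.exp_pos _) ht1⟩
  rw [Real.exp_lt_exp]
  nlinarith

private lemma row_decay23 {n : ℕ} (hn : 2 ≤ n) (p : PV (box (n : ℤ) n))
    (q : Fin (2 * n + 1) → PV (box (n : ℤ) n)) (hq : ∀ v, (q v).1 = (p.1.1, (v : ℤ) - n))
    (v : Fin (2 * n + 1)) : G2 β J n n (q v) p ≤
      Real.exp (-((β - β₁) * mag β₁ ^ 2 * |((((v : ℕ) : ℤ) - n - p.1.2 : ℤ) : ℝ)|)) := by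
  have h1 := G2_decay h0 h.le hJ.le (N := (n : ℤ)) (M := n) (by omega) (by omega) (q v) p
  refine h1.trans (le_of_eq ?_)
  rw [hq v]
  simp only [sub_self, abs_zero]
  rw [max_eq_right (abs_nonneg _), Int.cast_abs]

private lemma row_bound23 : ∃ C : ℝ, 0 < C ∧ ∀ n : ℕ, 2 ≤ n → ∀ (p : PV (box (n : ℤ) n))
    (q : Fin (2 * n + 1) → PV (box (n : ℤ) n)), (∀ v, (q v).1 = (p.1.1, (v : ℤ) - n)) → ∀ l : ℕ,
    ∑ v : Fin (2 * n + 1), GS (Real.exp (-β)) (xs (Real.exp (-β)) (Real.exp (-(β * J))) n) l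
        ⟨n, by omega⟩ v * G2 β J n n (q v) p ≤
      C * (1 + |(p.1.2 : ℝ)|) * lam (Real.exp (-β)) ^ (l + 1) / ((l : ℝ) + 1) ^ (3 / 2 : ℝ) := by
  obtain ⟨hβ, hJ0, htd, htt, ht1, hc, hl⟩ := base23 h0 h hm hJ
  obtain ⟨C, hC, hup⟩ := lev_up (Real.exp_pos (-β)) (t_small h0 h hm) htd htt
  obtain ⟨K, hK, hsum⟩ := two_sum_fin23 hc
  refine ⟨C * K / lam (Real.exp (-β)), by positivity, fun n hn p q hq l => ?_⟩
  set t := Real.exp (-β) with ht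
  set td := Real.exp (-(β * J)) with htd'
  set X : ℝ := lam t ^ l / ((l : ℝ) + 1) ^ (3 / 2 : ℝ) with hX
  have hX0 : 0 ≤ X := by positivity
  have h1 : ∀ v : Fin (2 * n + 1), GS t (xs t td n) l ⟨n, by omega⟩ v * G2 β J n n (q v) p ≤
      C * (1 + |(p.1.2 : ℝ)|) * X * ((1 + |((((v : ℕ) : ℤ) - n - p.1.2 : ℤ) : ℝ)|) *
        Real.exp (-((β - β₁) * mag β₁ ^ 2 * |((((v : ℕ) : ℤ) - n - p.1.2 : ℤ) : ℝ)|))) := by
    intro v
    have a1 := (hup n l hn).2 (ds n v) (ds_le n v)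
    rw [gs_mid23]
    have a2 := row_decay23 h0 h hm hJ hn p q hq v
    have a3 : C * (1 + ((ds n v : ℕ) : ℝ)) * lam t ^ l / ((l + 1 : ℕ) : ℝ) ^ (3 / 2 : ℝ) =
        C * (1 + ((ds n v : ℕ) : ℝ)) * X := by
      rw [hX]
      push_cast
      ring
    rw [a3] at a1
    have a4 : (1 + ((ds n v : ℕ) : ℝ)) ≤
        (1 + |(p.1.2 : ℝ)|) * (1 + |((((v : ℕ) : ℤ) - n - p.1.2 : ℤ) : ℝ)|) := by
      rw [ds_abs23]
      have b1 : |((((v : ℕ) : ℤ) - n : ℤ) : ℝ)| ≤ |(p.1.2 : ℝ)| + |((((v : ℕ) : ℤ) - n - p.1.2 : ℤ) : ℝ)| := by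
        have := abs_add_le (p.1.2 : ℝ) ((((v : ℕ) : ℤ) - n - p.1.2 : ℤ) : ℝ)
        refine le_trans (le_of_eq ?_) this
        congr 1
        push_cast
        ring
      have b2 : 0 ≤ |(p.1.2 : ℝ)| * |((((v : ℕ) : ℤ) - n - p.1.2 : ℤ) : ℝ)| := by positivity
      nlinarith
    calc gsum t td n l e0 (ds n v) * G2 β J n n (q v) p
        ≤ (C * (1 + ((ds n v : ℕ) : ℝ)) * X) * G2 β J n n (q v) p :=
          mul_le_mul_of_nonneg_right a1 (G2_nonneg _ _)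
      _ ≤ (C * (1 + ((ds n v : ℕ) : ℝ)) * X) *
          Real.exp (-((β - β₁) * mag β₁ ^ 2 * |((((v : ℕ) : ℤ) - n - p.1.2 : ℤ) : ℝ)|)) :=
          mul_le_mul_of_nonneg_left a2 (by positivity)
      _ ≤ (C * ((1 + |(p.1.2 : ℝ)|) * (1 + |((((v : ℕ) : ℤ) - n - p.1.2 : ℤ) : ℝ)|)) * X) *
          Real.exp (-((β - β₁) * mag β₁ ^ 2 * |((((v : ℕ) : ℤ) - n - p.1.2 : ℤ) : ℝ)|)) := by
          gcongr
      _ = _ := by ring
  refine (Finset.sum_le_sum fun v _ => h1 v).trans ?_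
  rw [← Finset.mul_sum]
  refine (mul_le_mul_of_nonneg_left (hsum n p.1.2) (by positivity)).trans (le_of_eq ?_)
  rw [hX, pow_succ]
  field_simp

theorem g2_lft : ∃ C : ℝ, 0 < C ∧ ∀ n : ℕ, 2 ≤ n → ∀ a p : PV (box (n : ℤ) n), a.1 = (-(n : ℤ) - 1, 0) →
    -(n : ℤ) ≤ p.1.1 → G2 β J n n a p ≤ C * (1 + |(p.1.2 : ℝ)|) *
      lam (Real.exp (-β)) ^ (p.1.1 + n + 1).toNat / ((p.1.1 : ℝ) + n + 1) ^ (3 / 2 : ℝ) := by
  obtain ⟨C, hC, hrow⟩ := row_bound23 h0 h hm hJ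
  obtain ⟨hβ, hJ0, htd, htt, ht1, hc, hl⟩ := base23 h0 h hm hJ
  refine ⟨C, hC, fun n hn a p ha hp => ?_⟩
  obtain ⟨q, hq⟩ := exists_row23 hn p
  obtain ⟨l, hl'⟩ : ∃ l : ℕ, (l : ℤ) = p.1.1 + n := ⟨(p.1.1 + n).toNat, by omega⟩
  have h1 := g2_left (N := (n : ℤ)) (m := n) (by omega) (by omega) hβ hJ0 ha p hl' q hq
  refine h1.trans ((hrow n hn p q hq l).trans (le_of_eq ?_))
  have e1 : (p.1.1 + n + 1).toNat = l + 1 := by omega
  have e2 : (p.1.1 : ℝ) + n + 1 = (l : ℝ) + 1 := by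
    have : ((l : ℤ) : ℝ) = ((p.1.1 + n : ℤ) : ℝ) := by rw [hl']
    push_cast at this
    linarith
  rw [e1, e2]

theorem g2_rgt : ∃ C : ℝ, 0 < C ∧ ∀ n : ℕ, 2 ≤ n → ∀ b p : PV (box (n : ℤ) n), b.1 = ((n : ℤ), 0) →
    p.1.1 ≤ (n : ℤ) - 1 → G2 β J n n p b ≤ C * (1 + |(p.1.2 : ℝ)|) *
      lam (Real.exp (-β)) ^ ((n : ℤ) - p.1.1).toNat / ((n : ℝ) - p.1.1) ^ (3 / 2 : ℝ) := by
  obtain ⟨C, hC, hrow⟩ := row_bound23 h0 h hm hJ
  obtain ⟨hβ, hJ0, htd, htt, ht1, hc, hl⟩ := base23 h0 h hm hJ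
  refine ⟨C, hC, fun n hn b p hb hp => ?_⟩
  obtain ⟨q, hq⟩ := exists_row23 hn p
  obtain ⟨l, hl'⟩ : ∃ l : ℕ, (l : ℤ) + 1 = n - p.1.1 := ⟨(n - 1 - p.1.1).toNat, by omega⟩
  have h1 := g2_right (N := (n : ℤ)) (m := n) (by omega) (by omega) hβ hJ0 hb p hl' q hq
  rw [G2_comm]
  refine h1.trans ((hrow n hn p q hq l).trans (le_of_eq ?_))
  have e1 : ((n : ℤ) - p.1.1).toNat = l + 1 := by omega
  have e2 : (n : ℝ) - p.1.1 = (l : ℝ) + 1 := by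
    have : (((l : ℤ) + 1 : ℤ) : ℝ) = ((n - p.1.1 : ℤ) : ℝ) := by rw [hl']
    push_cast at this
    linarith
  rw [e1, e2]

theorem lev_le_g2 {n : ℕ} (hn : 2 ≤ n) {k : ℕ} (hk : k ≤ 2 * n) (i : Fin (2 * n + 1)) {p b : PV (box (n : ℤ) n)}
    (hp : pq k i p) (hb : b.1 = ((n : ℤ), 0)) :
    lev (Real.exp (-β)) (Real.exp (-(β * J))) n (2 * n + 1) e0 k (ds n i) ≤ G2 β J n n p b := by
  obtain ⟨hβ, hJ0, htd, htt, ht1, hc, hl⟩ := base23 h0 h hm hJ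
  set t := Real.exp (-β) with ht
  set td := Real.exp (-(β * J)) with htd'
  have ht0 : 0 < t := Real.exp_pos _
  have hx0 : ∀ j, 0 < xs t td n j := fun j => xs_pos ht0 htd n j
  have hx1 : ∀ j, xs t td n j < 1 := fun j => xs_lt_one ht1 (htt.trans ht1) n j
  obtain ⟨d, hd⟩ : ∃ d, k + d = 2 * n + 1 := ⟨2 * n + 1 - k, by omega⟩
  have hZ : 0 < ip (fun _ => 1) (Xo t (fun _ => xs t td n) (k + d) (fun _ => 1)) := by
    rw [Xo_const]
    exact Xm_one_pos ht0 ht1 hx0 hx1 _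
  have hmid : n < 2 * n + 1 := by omega
  have h1 := level_formula ht0 ht1 hx0 hx1 (x := fun _ => xs t td n) (fun _ j => (hx0 j).ne')
    (k := k) (d := d) (fun _ _ => rfl) (fun v => e0 (ds n v)) hZ.ne' i
  rw [pqo_const] at h1
  have h2 : (fun w => ∑ v, e0 (ds n v) * GSo t (fun _ => xs t td n) (k + d) v w) =
      fun w => ∑ v, e0 (ds n v) * GS t (xs t td n) (2 * n + 1) v w := by
    funext w
    refine Finset.sum_congr rfl fun v _ => ?_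
    rw [GSo_const, hd]
  rw [h2, lev_pqs] at h1
  rw [h1]
  have h3 : (∑ v, e0 (ds n v) * ip (fun _ => 1) (Xm t (xs t td n) k (an i
      (Yo t (fun _ => xs t td n) k d (fun c => sp (c v)))))) =
      ip (fun _ => 1) (Xm t (xs t td n) k (an i
      (Yo t (fun _ => xs t td n) k d (fun c => sp (c ⟨n, hmid⟩))))) := by
    have h4 : ∀ v ∈ (Finset.univ : Finset (Fin (2 * n + 1))),
        e0 (ds n v) * ip (fun _ => 1) (Xm t (xs t td n) k (an i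
          (Yo t (fun _ => xs t td n) k d (fun c => sp (c v))))) =
        if v = ⟨n, hmid⟩ then ip (fun _ => 1) (Xm t (xs t td n) k (an i
          (Yo t (fun _ => xs t td n) k d (fun c => sp (c v))))) else 0 := by
      intro v _
      rw [e0_ds23 n v hmid]
      split_ifs <;> simp
    rw [Finset.sum_congr rfl h4, Finset.sum_ite_eq' Finset.univ]
    simp
  rw [h3]
  have h5 := (le_abs_self _).trans (dom_one ht0.le (fun j => (hx0 j).le)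
    (x := fun _ => xs t td n) (fun _ j => (abs_of_pos (hx0 j)).le) k d i ⟨n, hmid⟩)
  refine (div_le_div_of_nonneg_right h5 hZ.le).trans (le_of_eq ?_)
  obtain ⟨K, hK, hrep⟩ := box_rep (N := n) (M := n) (by omega)
  obtain ⟨r1, -, -, r2⟩ := hrep t (fun _ => xs t td n) (xe β (kap J)) (xe_fits β J)
  have hb' : pq (2 * n + 1) (⟨n, hmid⟩ : Fin (2 * n + 1)) b := by
    unfold pq
    rw [hb]
    refine Prod.ext ?_ ?_
    · show (n : ℤ) = -(n : ℤ) - 1 + ((2 * n + 1 : ℕ) : ℤ)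
      push_cast
      ring
    · show (0 : ℤ) = -(n : ℤ) + ((n : ℕ) : ℤ)
      ring
  have r3 := r2 k d hd i ⟨n, hmid⟩ p b hp hb'
  rw [Xo_const t (xs t td n) k] at r3
  rw [hd, ← r1, ← r3]
  unfold G2
  rw [mul_div_mul_left _ _ hK]

theorem h_mass : ∃ C c : ℝ, 0 < C ∧ 0 < c ∧ ∀ n : ℕ, 2 ≤ n → ∀ k ≤ 2 * n, ∀ B : ℝ, 0 ≤ B →
    ∑ v : Fin (2 * n + 1), (if B ≤ ds n v then
        lev (Real.exp (-β)) (Real.exp (-(β * J))) n (2 * n + 1) e0 k (ds n v) else 0) ≤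
      C * (gsum (Real.exp (-β)) (Real.exp (-(β * J))) n (2 * n - k) (fun z => if B / 2 ≤ z then 1 else 0) 0 +
        Real.exp (-(c * B)) *
          gsum (Real.exp (-β)) (Real.exp (-(β * J))) n (2 * n - k) (fun _ => 1) 0) := by
  obtain ⟨hβ, hJ0, htd, htt, ht1, hc, hl⟩ := base23 h0 h hm hJ
  set c := (β - β₁) * mag β₁ ^ 2 with hcc
  obtain ⟨K, hK, hsum⟩ := two_sum_fin23 (half_pos hc)
  refine ⟨K, c / 4, hK, by positivity, fun n hn k hk B hB => ?_⟩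
  have hmid : n < 2 * n + 1 := by omega
  have hrow : ∀ i : Fin (2 * n + 1), lev (Real.exp (-β)) (Real.exp (-(β * J))) n (2 * n + 1) e0 k (ds n i) ≤
      ∑ v : Fin (2 * n + 1), GS (Real.exp (-β)) (xs (Real.exp (-β)) (Real.exp (-(β * J))) n) (2 * n - k)
        ⟨n, hmid⟩ v * Real.exp (-(c * |((((v : ℕ) : ℤ) - ((i : ℕ) : ℤ) : ℤ) : ℝ)|)) := by
    intro i
    have hi := i.2
    have hpm : ((-(n : ℤ) - 1 + (k : ℤ), -(n : ℤ) + ((i : ℕ) : ℤ)) : Site) ∈ PL (box (n : ℤ) n) :=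
      (mem_PL_box (by omega) (by omega)).2 (by dsimp only; omega)
    have hbm : (((n : ℤ), 0) : Site) ∈ PL (box (n : ℤ) n) :=
      (mem_PL_box (by omega) (by omega)).2 (by dsimp only; omega)
    have a1 := lev_le_g2 h0 h hm hJ hn hk i (p := ⟨_, hpm⟩) (b := ⟨_, hbm⟩) rfl rfl
    refine a1.trans ?_
    obtain ⟨q, hq⟩ := exists_row23 hn (⟨_, hpm⟩ : PV (box (n : ℤ) n))
    have hL : ((2 * n - k : ℕ) : ℤ) + 1 = (n : ℤ) - (-(n : ℤ) - 1 + (k : ℤ)) := by omega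
    have a2 := g2_right (N := (n : ℤ)) (m := n) (by omega) (by omega) hβ hJ0 (b := ⟨_, hbm⟩) rfl
      (⟨_, hpm⟩ : PV (box (n : ℤ) n)) hL q hq
    rw [G2_comm]
    refine a2.trans (Finset.sum_le_sum fun v _ => ?_)
    refine mul_le_mul_of_nonneg_left ?_ (GS_nonneg (Real.exp_pos _).le
      (fun j => (xs_pos (Real.exp_pos _) htd n j).le) _ _ _)
    refine (row_decay23 h0 h hm hJ hn _ q hq v).trans (le_of_eq ?_)
    rw [← hcc]
    congr 4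
    push_cast
    ring
  have hin : ∀ v : Fin (2 * n + 1), ∑ i : Fin (2 * n + 1), (if B ≤ ds n i then
      Real.exp (-(c * |((((v : ℕ) : ℤ) - ((i : ℕ) : ℤ) : ℤ) : ℝ)|)) else 0) ≤
      K * ((if B / 2 ≤ ds n v then (1 : ℝ) else 0) + Real.exp (-(c / 4 * B))) := by
    intro v
    have b0 : ∀ i : Fin (2 * n + 1), (if B ≤ ds n i then
        Real.exp (-(c * |((((v : ℕ) : ℤ) - ((i : ℕ) : ℤ) : ℤ) : ℝ)|)) else 0) ≤
        ((1 + |((((i : ℕ) : ℤ) - n - (((v : ℕ) : ℤ) - n) : ℤ) : ℝ)|) *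
          Real.exp (-(c / 2 * |((((i : ℕ) : ℤ) - n - (((v : ℕ) : ℤ) - n) : ℤ) : ℝ)|))) *
        ((if B / 2 ≤ ds n v then (1 : ℝ) else 0) + Real.exp (-(c / 4 * B))) := by
      intro i
      have hr : |((((v : ℕ) : ℤ) - ((i : ℕ) : ℤ) : ℤ) : ℝ)| =
          |((((i : ℕ) : ℤ) - n - (((v : ℕ) : ℤ) - n) : ℤ) : ℝ)| := by
        rw [← abs_neg]
        congr 1
        push_cast
        ring
      rw [hr]
      set r := |((((i : ℕ) : ℤ) - n - (((v : ℕ) : ℤ) - n) : ℤ) : ℝ)| with hrr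
      have hr0 : 0 ≤ r := abs_nonneg _
      have hE0 := Real.exp_pos (-(c / 4 * B))
      have hI0 : 0 ≤ (if B / 2 ≤ ds n v then (1 : ℝ) else 0) := by split_ifs <;> norm_num
      by_cases hB1 : B ≤ ds n i
      · rw [if_pos hB1]
        by_cases hB2 : B / 2 ≤ ds n v
        · rw [if_pos hB2]
          have c1 : Real.exp (-(c * r)) ≤ Real.exp (-(c / 2 * r)) := by
            rw [Real.exp_le_exp]
            nlinarith
          have c2 : 1 * Real.exp (-(c / 2 * r)) ≤ (1 + r) * Real.exp (-(c / 2 * r)) :=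
            mul_le_mul_of_nonneg_right (by linarith) (Real.exp_pos _).le
          have c3 : 0 ≤ (1 + r) * Real.exp (-(c / 2 * r)) := by positivity
          nlinarith
        · rw [if_neg hB2, zero_add]
          have c0 : B / 2 ≤ r := by
            have d1 := ds_abs23 n i
            have d2 := ds_abs23 n v
            have d3 : |((((i : ℕ) : ℤ) - n : ℤ) : ℝ)| ≤ |((((v : ℕ) : ℤ) - n : ℤ) : ℝ)| + r := by
              rw [hrr]
              have := abs_add_le ((((v : ℕ) : ℤ) - n : ℤ) : ℝ) ((((i : ℕ) : ℤ) - n - (((v : ℕ) : ℤ) - n) : ℤ) : ℝ)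
              refine le_trans (le_of_eq ?_) this
              congr 1
              push_cast
              ring
            rw [← d1, ← d2] at d3
            push Not at hB2
            linarith
          have c1 : Real.exp (-(c * r)) ≤ Real.exp (-(c / 2 * r)) * Real.exp (-(c / 4 * B)) := by
            rw [← Real.exp_add, Real.exp_le_exp]
            nlinarith
          refine c1.trans (mul_le_mul_of_nonneg_right ?_ hE0.le)
          have c2 := Real.exp_pos (-(c / 2 * r))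
          nlinarith
      · rw [if_neg hB1]
        positivity
    refine (Finset.sum_le_sum fun i _ => b0 i).trans ?_
    rw [← Finset.sum_mul]
    refine mul_le_mul_of_nonneg_right (hsum n (((v : ℕ) : ℤ) - n)) ?_
    have hE0 := Real.exp_pos (-(c / 4 * B))
    have hI0 : 0 ≤ (if B / 2 ≤ ds n v then (1 : ℝ) else 0) := by split_ifs <;> norm_num
    linarith
  have hG0 : ∀ v : Fin (2 * n + 1), 0 ≤ GS (Real.exp (-β)) (xs (Real.exp (-β)) (Real.exp (-(β * J))) n)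
      (2 * n - k) ⟨n, hmid⟩ v := fun v => GS_nonneg (Real.exp_pos _).le
      (fun j => (xs_pos (Real.exp_pos _) htd n j).le) _ _ _
  calc ∑ v : Fin (2 * n + 1), (if B ≤ ds n v then
        lev (Real.exp (-β)) (Real.exp (-(β * J))) n (2 * n + 1) e0 k (ds n v) else 0)
      ≤ ∑ i : Fin (2 * n + 1), ∑ v : Fin (2 * n + 1),
          GS (Real.exp (-β)) (xs (Real.exp (-β)) (Real.exp (-(β * J))) n) (2 * n - k) ⟨n, hmid⟩ v *
          (if B ≤ ds n i then Real.exp (-(c * |((((v : ℕ) : ℤ) - ((i : ℕ) : ℤ) : ℤ) : ℝ)|)) else 0) := by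
        refine Finset.sum_le_sum fun i _ => ?_
        by_cases hB1 : B ≤ ds n i
        · simp only [if_pos hB1]
          exact hrow i
        · simp only [if_neg hB1, mul_zero, Finset.sum_const_zero]
          exact le_rfl
    _ = ∑ v : Fin (2 * n + 1),
          GS (Real.exp (-β)) (xs (Real.exp (-β)) (Real.exp (-(β * J))) n) (2 * n - k) ⟨n, hmid⟩ v *
          ∑ i : Fin (2 * n + 1), (if B ≤ ds n i then
            Real.exp (-(c * |((((v : ℕ) : ℤ) - ((i : ℕ) : ℤ) : ℤ) : ℝ)|)) else 0) := by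
        rw [Finset.sum_comm]
        exact Finset.sum_congr rfl fun v _ => by rw [Finset.mul_sum]
    _ ≤ ∑ v : Fin (2 * n + 1),
          GS (Real.exp (-β)) (xs (Real.exp (-β)) (Real.exp (-(β * J))) n) (2 * n - k) ⟨n, hmid⟩ v *
          (K * ((if B / 2 ≤ ds n v then (1 : ℝ) else 0) + Real.exp (-(c / 4 * B)))) :=
        Finset.sum_le_sum fun v _ => mul_le_mul_of_nonneg_left (hin v) (hG0 v)
    _ = K * ((∑ v : Fin (2 * n + 1),
          GS (Real.exp (-β)) (xs (Real.exp (-β)) (Real.exp (-(β * J))) n) (2 * n - k) ⟨n, hmid⟩ v *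
          (fun z : ℕ => if B / 2 ≤ (z : ℝ) then (1 : ℝ) else 0) (ds n v)) + Real.exp (-(c / 4 * B)) *
          ∑ v : Fin (2 * n + 1),
          GS (Real.exp (-β)) (xs (Real.exp (-β)) (Real.exp (-(β * J))) n) (2 * n - k) ⟨n, hmid⟩ v *
          (fun _ : ℕ => (1 : ℝ)) (ds n v)) := by
        rw [Finset.mul_sum, ← Finset.sum_add_distrib, Finset.mul_sum]
        exact Finset.sum_congr rfl fun v _ => by ring
    _ = _ := by rw [← mid_sum23 _ _ _ _ (fun z : ℕ => if B / 2 ≤ (z : ℝ) then (1 : ℝ) else 0) hmid,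
                  ← mid_sum23 _ _ _ _ (fun _ : ℕ => (1 : ℝ)) hmid]

theorem on_le {δ : ℝ} (hδ : 0 < δ) : ∃ (C : ℝ) (n₀ : ℕ), 0 < C ∧ ∀ n : ℕ, n₀ ≤ n → ∀ p : Site,
    |(p.1 : ℝ)| ≤ (1 - δ) * n → |p.2| ≤ n →
      avg β (kap J) (box n n) (eta 0) (fun ω => if On n ω p then 1 else 0) ≤
        C * (1 + |(p.2 : ℝ)|) ^ 2 / (n : ℝ) ^ (3 / 2 : ℝ) := by
  obtain ⟨hβ, hJ0, htd, htt, ht1, hc, hl⟩ := base23 h0 h hm hJ
  obtain ⟨C1, hC1, hlft⟩ := g2_lft h0 h hm hJ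
  obtain ⟨C2, hC2, hrgt⟩ := g2_rgt h0 h hm hJ
  obtain ⟨g, n₁, hg, hgam⟩ := gam_low (Real.exp_pos (-β)) (t_small h0 h hm) htd htt
  refine ⟨C1 * C2 / g * (3 : ℝ) ^ (3 / 2 : ℝ) / δ ^ 3, max n₁ 2, by positivity, fun n hn p hp1 hp2 => ?_⟩
  have hn1 : n₁ ≤ n := (le_max_left _ _).trans hn
  have hn2 : 2 ≤ n := (le_max_right _ _).trans hn
  have hnR : (2 : ℝ) ≤ n := by exact_mod_cast hn2
  have hn0 : (0 : ℝ) < n := by linarith
  have hd0 : 0 < δ * n := mul_pos hδ hn0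
  have hp1' := abs_le.1 hp1
  have hpn1 : p.1 < (n : ℤ) := by
    have : (p.1 : ℝ) < ((n : ℤ) : ℝ) := by push_cast; linarith [hp1'.2]
    exact_mod_cast this
  have hpn2 : -(n : ℤ) < p.1 := by
    have : ((-(n : ℤ) : ℤ) : ℝ) < (p.1 : ℝ) := by push_cast; linarith [hp1'.1]
    exact_mod_cast this
  have hp2' := abs_le.1 hp2
  have hpm : p ∈ PL (box (n : ℤ) n) := (mem_PL_box (by omega) (by omega)).2 (by omega)
  have ham : ((-(n : ℤ) - 1, 0) : Site) ∈ PL (box (n : ℤ) n) :=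
    (mem_PL_box (by omega) (by omega)).2 (by dsimp only; omega)
  have hbm : (((n : ℤ), 0) : Site) ∈ PL (box (n : ℤ) n) :=
    (mem_PL_box (by omega) (by omega)).2 (by dsimp only; omega)
  have h1 := contact_le (N := (n : ℤ)) (M := n) (by omega) (by omega) hβ.le hJ0.le
    (a := ⟨_, ham⟩) (b := ⟨_, hbm⟩) rfl rfl ⟨p, hpm⟩
  refine h1.trans ?_
  have h2 := hlft n hn2 ⟨_, ham⟩ ⟨p, hpm⟩ rfl (by dsimp only; omega)
  have h3 := hrgt n hn2 ⟨_, hbm⟩ ⟨p, hpm⟩ rfl (by dsimp only; omega)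
  have h4 := hgam n hn1
  rw [← g2_ab (N := n) (M := n) hn2 hβ hJ0 (a := ⟨_, ham⟩) (b := ⟨_, hbm⟩) rfl rfl] at h4
  simp only at h2 h3
  set t := Real.exp (-β) with ht
  set Y : ℝ := 1 + |(p.2 : ℝ)| with hY
  have hY0 : 0 < Y := by positivity
  have hA : 0 ≤ G2 β J n n ⟨_, ham⟩ ⟨p, hpm⟩ := G2_nonneg _ _
  have hB : 0 ≤ G2 β J n n ⟨p, hpm⟩ ⟨_, hbm⟩ := G2_nonneg _ _
  -- the denominators
  have e1 : (δ * n) ^ (3 / 2 : ℝ) ≤ ((p.1 : ℝ) + n + 1) ^ (3 / 2 : ℝ) :=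
    Real.rpow_le_rpow hd0.le (by linarith [hp1'.1]) (by norm_num)
  have e2 : (δ * n) ^ (3 / 2 : ℝ) ≤ ((n : ℝ) - p.1) ^ (3 / 2 : ℝ) :=
    Real.rpow_le_rpow hd0.le (by linarith [hp1'.2]) (by norm_num)
  have e3 : (((2 * n + 1 : ℕ) : ℝ)) ^ (3 / 2 : ℝ) ≤ (3 * n) ^ (3 / 2 : ℝ) :=
    Real.rpow_le_rpow (Nat.cast_nonneg _) (by push_cast; linarith) (by norm_num)
  have e0' : 0 < (δ * n) ^ (3 / 2 : ℝ) := Real.rpow_pos_of_pos hd0 _
  have h2' : G2 β J n n ⟨_, ham⟩ ⟨p, hpm⟩ ≤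
      C1 * Y * lam t ^ (p.1 + n + 1).toNat / (δ * n) ^ (3 / 2 : ℝ) :=
    h2.trans (div_le_div_of_nonneg_left (by positivity) e0' e1)
  have h3' : G2 β J n n ⟨p, hpm⟩ ⟨_, hbm⟩ ≤
      C2 * Y * lam t ^ ((n : ℤ) - p.1).toNat / (δ * n) ^ (3 / 2 : ℝ) :=
    h3.trans (div_le_div_of_nonneg_left (by positivity) e0' e2)
  have e4 : 0 < (((2 * n + 1 : ℕ) : ℝ)) ^ (3 / 2 : ℝ) := Real.rpow_pos_of_pos (by positivity) _
  have h4' : g * lam t ^ (2 * n + 1) / (3 * n) ^ (3 / 2 : ℝ) ≤ G2 β J n n ⟨_, ham⟩ ⟨_, hbm⟩ :=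
    (div_le_div_of_nonneg_left (by positivity) e4 e3).trans h4
  have e5 : 0 < g * lam t ^ (2 * n + 1) / (3 * n) ^ (3 / 2 : ℝ) := by positivity
  have e6 : lam t ^ (p.1 + n + 1).toNat * lam t ^ ((n : ℤ) - p.1).toNat = lam t ^ (2 * n + 1) := by
    rw [← pow_add]
    congr 1
    omega
  have e7 : (δ * n) ^ (3 / 2 : ℝ) * (δ * n) ^ (3 / 2 : ℝ) = δ ^ 3 * (n : ℝ) ^ 3 := by
    rw [← Real.rpow_add hd0]
    norm_num
    rw [mul_pow]
  have e8 : (3 * (n : ℝ)) ^ (3 / 2 : ℝ) = (3 : ℝ) ^ (3 / 2 : ℝ) * (n : ℝ) ^ (3 / 2 : ℝ) :=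
    Real.mul_rpow (by norm_num) hn0.le
  have e9 : (n : ℝ) ^ (3 / 2 : ℝ) * (n : ℝ) ^ (3 / 2 : ℝ) = (n : ℝ) ^ 3 := by
    rw [← Real.rpow_add hn0]
    norm_num
  calc G2 β J n n ⟨_, ham⟩ ⟨p, hpm⟩ * G2 β J n n ⟨p, hpm⟩ ⟨_, hbm⟩ / G2 β J n n ⟨_, ham⟩ ⟨_, hbm⟩
      ≤ (C1 * Y * lam t ^ (p.1 + n + 1).toNat / (δ * n) ^ (3 / 2 : ℝ)) *
          (C2 * Y * lam t ^ ((n : ℤ) - p.1).toNat / (δ * n) ^ (3 / 2 : ℝ)) /
          (g * lam t ^ (2 * n + 1) / (3 * n) ^ (3 / 2 : ℝ)) :=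
        div_le_div₀ (by positivity) (mul_le_mul h2' h3' hB (by positivity)) e5 h4'
    _ = C1 * C2 * Y ^ 2 * (lam t ^ (p.1 + n + 1).toNat * lam t ^ ((n : ℤ) - p.1).toNat) /
          ((δ * n) ^ (3 / 2 : ℝ) * (δ * n) ^ (3 / 2 : ℝ)) /
          (g * lam t ^ (2 * n + 1) / (3 * n) ^ (3 / 2 : ℝ)) := by
        congr 1
        rw [div_mul_div_comm]
        congr 1
        ring
    _ = C1 * C2 / g * (3 : ℝ) ^ (3 / 2 : ℝ) / δ ^ 3 * Y ^ 2 / (n : ℝ) ^ (3 / 2 : ℝ) := by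
        rw [e6, e7, e8, ← e9]
        have k1 : lam t ^ (2 * n + 1) ≠ 0 := by positivity
        have k2 : (n : ℝ) ^ (3 / 2 : ℝ) ≠ 0 := (Real.rpow_pos_of_pos hn0 _).ne'
        have k3 : (3 : ℝ) ^ (3 / 2 : ℝ) ≠ 0 := (Real.rpow_pos_of_pos (by norm_num) _).ne'
        have k4 : δ ≠ 0 := hδ.ne'
        field_simp

end

end Pool.Agent.Helper49.RD
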