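import Pool.Agent.Helper49.DL.Win2
import Pool.Agent.Helper49.DL.IntFinal

/-!
Block RD-P2: conditioning on the interface (gauge transformation).

`sgg N M ω i = 1` if the site `i` is above the interface (`gg = 0`), `-1` if it is below. `Vg N M ω` is the set of the sites of the box which are corners of a plaquette touched by the interface.

Paper proof of `cond_gg`. Let `ω₀ ∈ confs (box N M) (eta 0)`, `I₀ = Interface N ω₀`, `g₀ = gg N M ω₀`, `W = box N M \ Vg N M ω₀`, `C = {ω ∈ confs | Interface N ω = I₀ (for all bonds)}`. On `C`, `ig`, `gg`, `Vg` and `G` are those of `ω₀`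
(`G` only depends on the interface by hypothesis). Claim: `ω ↦ ω'`, `ω' i = (ω i == (g₀ i = 0))` (i.e. `sp (ω' i) = sgg i * sp (ω i)`) is a bijection from `C` to `confs W tt` with inverse given by the same formula, and
`en (kap..) (box N M) ω = en .. W ω' + const (ω₀)`.
(a) Every corner `i` of a plaquette touched by `I₀` has `ω' i = true` for `ω ∈ C`: along a plaquette touched by an interface bond all its broken bonds are interface bonds (`interface_side`), so for two adjacent corners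
  `sp ω` changes iff the bond is broken iff `ig = 1` iff `g₀` changes (`gg_vert`, `gg_hor`, `DL/Contour.lean`): `sp (ω') ` is constant on the four corners. The interface is connected through touching bonds to
  `((N + 1, 0), false)`, whose endpoint `(N + 1, 0)` is off the box with `ω = false`, `g₀ = 1` (`gg_low`): `sp (ω') = 1`. Induction along `SameContour`.
(b) Off the box `ω' = true`: `gg_low` for `i.2 ≤ 0`; for `i.2 ≥ 1` `ω i = true` and `g₀ i = 0`: above `M` the sum is empty; for `1 ≤ i.2 ≤ M`, `|i.1| > N`: the bonds `((i.1, y), false)`, `y ≥ 1`, are not broken (both ends are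
  `true`). So `ω' ∈ confs W tt`.
(c) Conversely let `ω' ∈ confs W tt` and `ω i = (ω' i == (g₀ i = 0))`. `ω ∈ confs (box N M) (eta 0)` (by (b) for `ω₀`). Claim `Interface N ω b ↔ I₀ b`. If `I₀ b`: the endpoints of all bonds of `I₀` are corners of touched plaquettes or off the box,
  there `ω' = true`, and `g₀` differs at the endpoints, so `ω` differs: the path in `I₀` from `b` to `((N + 1, 0), false)` is a path of broken bonds of `ω`. If `Interface N ω b`: induction along the path from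
  `((N + 1, 0), false)`: the next bond is broken in `ω` and has a plaquette in common with a bond of `I₀`, so its endpoints have `ω' = true`, so `g₀` differs at the endpoints, i.e. `ig = 1`.
(d) Energy: for a bond not in `I₀` `g₀` is the same at both ends, so `agr (ω i) (ω j) = agr (ω' i) (ω' j)`; for a bond in `I₀` the first is `0` and the second `1` (both ends `true` in `ω'`). The bonds meeting the box but
  not meeting `W` have both ends `true` in `ω'`. So `en (box) ω = en W ω' + const` (`DL/Gibbs.lean`, `en` is the sum over `hb`, `vb`; `W ⊆ box`). It may be convenient to compare with a fixed configuration: `en_swap` with `Λ' = W` applied to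
  `ω'` and `tt`: `en box ω' + en W tt = en box tt + en W ω'`.
Therefore `∑ ω ∈ C, wg ω * (G ω * ch A ω) = G ω₀ * (∏ i ∈ A, sgg ω₀ i) * K * ∑ ω' ∈ confs W tt, wg W ω' * ch A ω'` and `∑ ω ∈ C, wg ω = K * ∑ ω' ∈ confs W tt, wg W ω'`, hence
`∑ ω ∈ C, wg ω * (G * ch A) = ∑ ω ∈ C, wg ω * (G ω * ∏ sgg ω i * avg W tt (ch A))`; sum over the classes (partition of `confs` by the interface, e.g. `Finset.sum_fiberwise` for the map `ω ↦` (finite set of the interface bonds among
the bonds meeting the box) -- or prove the identity of the weighted sums by `Finset.sum_comm` over pairs `(ω, ω₀)` with equal interfaces).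
-/

open Finset
open scoped Classical

namespace Pool.Agent.Helper49.RD

open Pool.Agent.Helper49.DL

/-- Side of a site: `1` above the interface, `-1` below. -/
noncomputable def sgg (N M : ℤ) (ω : Cfg) (i : Site) : ℝ := if gg N M ω i = 0 then 1 else -1

/-- The plaquette `p` is touched by the interface. -/
def Tch (N : ℤ) (ω : Cfg) (p : Site) : Prop := ∃ b, Side p b ∧ Interface N ω b

/-- The sites of the box at the corners of the plaquettes touched by the interface. -/
noncomputable def Vg (N M : ℤ) (ω : Cfg) : Finset Site :=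
  (box N M).filter (fun i => Tch N ω i ∨ Tch N ω (i - e1) ∨ Tch N ω (i - e2) ∨ Tch N ω (i - e1 - e2))


private def Tg1 (g : Site → ZMod 2) (ω : Cfg) : Cfg := fun i => if g i = 0 then ω i else !(ω i)

private theorem dec1 : ∀ (a b : Bool) (u v : ZMod 2), u + v = 0 →
    (((if u = 0 then a else !a) = (if v = 0 then b else !b)) ↔ a = b) := by decide

private theorem dec2 : ∀ (a b : Bool) (u v : ZMod 2), u + v = 1 →
    (((if u = 0 then a else !a) = (if v = 0 then b else !b)) ↔ a ≠ b) := by decide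

private theorem Tg_Tg1 (g : Site → ZMod 2) (ω : Cfg) : Tg1 g (Tg1 g ω) = ω := by
  funext i
  unfold Tg1
  by_cases h : g i = 0
  · simp [h]
  · simp [h]

private theorem f1 {N M : ℤ} {ω : Cfg} (h : ω ∈ confs (box N M) (eta 0)) (hM : 0 ≤ M) (b : Bond) :
    gg N M ω b.1 + gg N M ω (bend b) = ig N ω b := by
  obtain ⟨⟨x, y⟩, c⟩ := b
  cases c
  · have h1 : bend ((x, y), false) = (x, y + 1) := by simp [bend, e2]
    rw [h1]
    simp only
    rw [gg_vert h hM x y, add_assoc, zz, add_zero]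
  · have h1 : bend ((x, y), true) = (x + 1, y) := by simp [bend, e1]
    rw [h1]
    exact gg_hor h hM x y

private theorem ig_iff1 {N : ℤ} {ω : Cfg} {b : Bond} : ig N ω b = 1 ↔ Interface N ω b := by
  unfold ig
  by_cases h : Interface N ω b
  · simp [h]
  · simp [h]

private theorem ig_zero1 {N : ℤ} {ω : Cfg} {b : Bond} (h : ¬ Interface N ω b) : ig N ω b = 0 := by
  unfold ig
  simp [h]

private theorem tg0 {N M : ℤ} {ω₀ : Cfg} (h : ω₀ ∈ confs (box N M) (eta 0)) (hM : 0 ≤ M) (ω : Cfg) {b : Bond}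
    (hb : ¬ Interface N ω₀ b) :
    (Tg1 (gg N M ω₀) ω b.1 = Tg1 (gg N M ω₀) ω (bend b)) ↔ ω b.1 = ω (bend b) := by
  have h1 := f1 h hM b
  rw [ig_zero1 hb] at h1
  exact dec1 _ _ _ _ h1

private theorem tg1 {N M : ℤ} {ω₀ : Cfg} (h : ω₀ ∈ confs (box N M) (eta 0)) (hM : 0 ≤ M) (ω : Cfg) {b : Bond}
    (hb : Interface N ω₀ b) :
    (Tg1 (gg N M ω₀) ω b.1 = Tg1 (gg N M ω₀) ω (bend b)) ↔ ω b.1 ≠ ω (bend b) := by
  have h1 := f1 h hM b
  rw [ig_iff1.2 hb] at h1
  exact dec2 _ _ _ _ h1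

private theorem root1 {N M : ℤ} {ω : Cfg} (h : ω ∈ confs (box N M) (eta 0)) :
    Interface N ω ((N + 1, 0), false) := by
  refine ⟨?_, Relation.ReflTransGen.refl⟩
  have hout : ∀ y : ℤ, ((N + 1, y) : Site) ∉ box N M := by
    intro y; rw [mem_box]; simp only; omega
  have hω : ∀ y : ℤ, ω (N + 1, y) = decide (1 ≤ y) := by
    intro y
    rw [mem_confs] at h
    rw [h _ (hout y)]
    simp [eta]
  unfold Broken bend
  simp only [Bool.false_eq_true, if_false, e2, Prod.mk_add_mk, add_zero, zero_add, ne_eq]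
  rw [hω, hω]; decide

private theorem off1 {N M : ℤ} {ω : Cfg} (h : ω ∈ confs (box N M) (eta 0)) (hN : 0 ≤ N) (hM : 1 ≤ M) {i : Site}
    (hi : i ∉ box N M) : Tg1 (gg N M ω) ω i = true := by
  unfold Tg1
  by_cases h2 : i.2 ≤ 0
  · rw [gg_low h hN hM hi h2, conf_low h hi h2]
    decide
  · push Not at h2
    have h3 : gg N M ω i = 0 := by
      unfold gg
      refine Finset.sum_eq_zero fun y hy => ?_
      rw [Finset.mem_Icc] at hy
      apply ig_unbroken
      have hi2 : ¬ (-N ≤ i.1 ∧ i.1 ≤ N) := by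
        intro h4
        apply hi
        rw [mem_box]
        omega
      have hout : ∀ z : ℤ, ((i.1, z) : Site) ∉ box N M := by
        intro z
        rw [mem_box]
        simp only
        omega
      unfold Broken bend
      simp only [Bool.false_eq_true, if_false, e2, Prod.mk_add_mk, add_zero, ne_eq, not_not]
      rw [mem_confs] at h
      rw [h _ (hout _), h _ (hout _)]
      have h1 : 1 ≤ y := by omega
      have h2 : 1 ≤ y + 1 := by omega
      simp [eta, h1, h2]
    rw [h3, if_pos rfl]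
    rw [mem_confs] at h
    rw [h i hi]
    simp only [eta, decide_eq_true_eq]
    omega

private def Cor1 (p i : Site) : Prop := i = p ∨ i = p + e1 ∨ i = p + e2 ∨ i = p + e1 + e2

private theorem side_cor1 {p : Site} {b : Bond} (h : Side p b) : Cor1 p b.1 ∧ Cor1 p (bend b) := by
  rcases h with rfl | rfl | rfl | rfl
  · exact ⟨Or.inl rfl, Or.inr (Or.inl (by simp [bend]))⟩
  · exact ⟨Or.inl rfl, Or.inr (Or.inr (Or.inl (by simp [bend])))⟩
  · exact ⟨Or.inr (Or.inl rfl), Or.inr (Or.inr (Or.inr (by simp [bend])))⟩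
  · refine ⟨Or.inr (Or.inr (Or.inl rfl)), Or.inr (Or.inr (Or.inr ?_))⟩
    simp only [bend, if_true]
    rw [add_right_comm]

private theorem cor_const1 {σ : Cfg} {p : Site} (h : ∀ b, Side p b → σ b.1 = σ (bend b)) {i : Site} (hi : Cor1 p i) :
    σ i = σ p := by
  have h1 := h (p, true) (Or.inl rfl)
  have h2 := h (p, false) (Or.inr (Or.inl rfl))
  have h3 := h (p + e1, false) (Or.inr (Or.inr (Or.inl rfl)))
  simp only [bend, Bool.false_eq_true, if_false, if_true] at h1 h2 h3
  rcases hi with rfl | rfl | rfl | rfl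
  · rfl
  · exact h1.symm
  · exact h2.symm
  · rw [← h3, ← h1]

private theorem plaq1 {N M : ℤ} {ω : Cfg} (h : ω ∈ confs (box N M) (eta 0)) (hM : 0 ≤ M) {p : Site} {c : Bond}
    (hc : Side p c) (hI : Interface N ω c) {i : Site} (hi : Cor1 p i) :
    Tg1 (gg N M ω) ω i = Tg1 (gg N M ω) ω p := by
  refine cor_const1 (fun b hb => ?_) hi
  by_cases hbr : Broken ω b
  · exact (tg1 h hM ω (interface_side hc hb hbr hI)).2 hbr
  · have h1 : ¬ Interface N ω b := fun h' => hbr h'.1
    refine (tg0 h hM ω h1).2 ?_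
    unfold Broken at hbr
    push Not at hbr
    exact hbr

private theorem int_true1 {N M : ℤ} {ω : Cfg} (h : ω ∈ confs (box N M) (eta 0)) (hN : 0 ≤ N) (hM : 1 ≤ M) {b : Bond}
    (hI : Interface N ω b) : Tg1 (gg N M ω) ω b.1 = true ∧ Tg1 (gg N M ω) ω (bend b) = true := by
  have hM0 : 0 ≤ M := by omega
  obtain ⟨hb, hp⟩ := hI
  induction hp using Relation.ReflTransGen.head_induction_on with
  | refl =>
    have h1 : Tg1 (gg N M ω) ω ((N + 1, 0) : Site) = true := by
      refine off1 h hN hM ?_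
      rw [mem_box]; simp only; omega
    have h2 := (tg1 h hM0 ω (root1 h)).2 (root1 h).1
    simp only at h2
    exact ⟨h1, by rw [← h2]; exact h1⟩
  | @head b c hbc hc ih =>
    obtain ⟨hb1, hc1, p, hpb, hpc⟩ := hbc
    have ih1 := ih hc1
    have hIc : Interface N ω c := ⟨hc1, hc⟩
    have h3 : Tg1 (gg N M ω) ω p = true := by
      rw [← plaq1 h hM0 hpc hIc (side_cor1 hpc).1]
      exact ih1.1
    exact ⟨by rw [plaq1 h hM0 hpc hIc (side_cor1 hpb).1, h3],
      by rw [plaq1 h hM0 hpc hIc (side_cor1 hpb).2, h3]⟩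

private theorem tch_true1 {N M : ℤ} {ω : Cfg} (h : ω ∈ confs (box N M) (eta 0)) (hN : 0 ≤ N) (hM : 1 ≤ M) {p : Site}
    (hp : Tch N ω p) {i : Site} (hi : Cor1 p i) : Tg1 (gg N M ω) ω i = true := by
  obtain ⟨b, hb, hI⟩ := hp
  rw [plaq1 h (by omega) hb hI hi, ← plaq1 h (by omega) hb hI (side_cor1 hb).1]
  exact (int_true1 h hN hM hI).1

private theorem mem_V1 {N M : ℤ} {ω : Cfg} {p i : Site} (hp : Tch N ω p) (hi : Cor1 p i) (hb : i ∈ box N M) :
    i ∈ Vg N M ω := by
  unfold Vg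
  rw [Finset.mem_filter]
  refine ⟨hb, ?_⟩
  rcases hi with rfl | rfl | rfl | rfl
  · exact Or.inl hp
  · right; left; simpa using hp
  · right; right; left; simpa using hp
  · right; right; right
    have : p + e1 + e2 - e1 - e2 = p := by abel
    rwa [this]

private theorem V_cor1 {N M : ℤ} {ω : Cfg} {i : Site} (h : i ∈ Vg N M ω) : ∃ p, Tch N ω p ∧ Cor1 p i := by
  unfold Vg at h
  rw [Finset.mem_filter] at h
  rcases h.2 with h | h | h | h
  · exact ⟨i, h, Or.inl rfl⟩
  · exact ⟨_, h, Or.inr (Or.inl (by abel))⟩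
  · exact ⟨_, h, Or.inr (Or.inr (Or.inl (by abel)))⟩
  · exact ⟨_, h, Or.inr (Or.inr (Or.inr (by abel)))⟩

private theorem fwd1 {N M : ℤ} {ω : Cfg} (h : ω ∈ confs (box N M) (eta 0)) (hN : 0 ≤ N) (hM : 1 ≤ M) :
    Tg1 (gg N M ω) ω ∈ confs (box N M \ Vg N M ω) tt := by
  rw [mem_confs]
  intro i hi
  rw [Finset.mem_sdiff] at hi
  push Not at hi
  unfold tt
  by_cases hb : i ∈ box N M
  · obtain ⟨p, hp, hc⟩ := V_cor1 (hi hb)
    exact tch_true1 h hN hM hp hc
  · exact off1 h hN hM hb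

private theorem corW1 {N M : ℤ} {ω₀ σ : Cfg} (hσ : σ ∈ confs (box N M \ Vg N M ω₀) tt)
    {p i : Site} (hp : Tch N ω₀ p) (hi : Cor1 p i) : σ i = true := by
  rw [mem_confs] at hσ
  have := hσ i (by
    rw [Finset.mem_sdiff]
    push Not
    intro hb
    exact mem_V1 hp hi hb)
  rw [this]
  rfl

private theorem side_self1 (b : Bond) : Side b.1 b := by
  obtain ⟨i, c⟩ := b
  cases c
  · exact Or.inr (Or.inl rfl)
  · exact Or.inl rfl

private theorem bwd1 {N M : ℤ} {ω₀ σ : Cfg} (h : ω₀ ∈ confs (box N M) (eta 0)) (hN : 0 ≤ N) (hM : 1 ≤ M)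
    (hσ : σ ∈ confs (box N M \ Vg N M ω₀) tt) :
    Tg1 (gg N M ω₀) σ ∈ confs (box N M) (eta 0) ∧
      ∀ b, Interface N (Tg1 (gg N M ω₀) σ) b ↔ Interface N ω₀ b := by
  have hM0 : 0 ≤ M := by omega
  -- broken bonds
  have hbr : ∀ c, Interface N ω₀ c → Broken (Tg1 (gg N M ω₀) σ) c := by
    intro c hc
    have h1 : σ c.1 = true := corW1 hσ ⟨c, side_self1 c, hc⟩ (side_cor1 (side_self1 c)).1
    have h2 : σ (bend c) = true := corW1 hσ ⟨c, side_self1 c, hc⟩ (side_cor1 (side_self1 c)).2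
    intro h3
    exact (tg1 h hM0 σ hc).1 h3 (by rw [h1, h2])
  refine ⟨?_, fun b => ⟨?_, ?_⟩⟩
  · rw [mem_confs]
    intro i hi
    have h1 := off1 h hN hM hi
    have h2 : σ i = true := by
      rw [mem_confs] at hσ
      rw [hσ i (fun h' => hi (Finset.mem_sdiff.1 h').1)]
      rfl
    have h3 : Tg1 (gg N M ω₀) σ i = Tg1 (gg N M ω₀) (Tg1 (gg N M ω₀) ω₀) i := by
      conv_lhs => unfold Tg1
      conv_rhs => unfold Tg1
      have h4 : σ i = (fun i => if gg N M ω₀ i = 0 then ω₀ i else !(ω₀ i)) i := by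
        rw [h2]
        exact h1.symm
      rw [h4]
    rw [h3, Tg_Tg1]
    rw [mem_confs] at h
    exact h i hi
  · rintro ⟨hb, hp⟩
    induction hp using Relation.ReflTransGen.head_induction_on with
    | refl => exact root1 h
    | @head b c hbc hc ih =>
      obtain ⟨hb1, hc1, p, hpb, hpc⟩ := hbc
      have ih1 := ih hc1
      have hT : Tch N ω₀ p := ⟨c, hpc, ih1⟩
      have s1 := corW1 hσ hT (side_cor1 hpb).1
      have s2 := corW1 hσ hT (side_cor1 hpb).2
      by_contra hnot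
      exact hb1 ((tg0 h hM0 σ hnot).2 (by rw [s1, s2]))
  · rintro ⟨hb, hp⟩
    induction hp using Relation.ReflTransGen.head_induction_on with
    | refl => exact ⟨hbr _ (root1 h), Relation.ReflTransGen.refl⟩
    | @head b c hbc hc ih =>
      obtain ⟨hb1, hc1, ht⟩ := hbc
      have ih1 := ih hc1
      have hIb : Interface N ω₀ b := ⟨hb1, Relation.ReflTransGen.head ⟨hb1, hc1, ht⟩ hc⟩
      exact ⟨hbr _ hIb, Relation.ReflTransGen.head ⟨hbr _ hIb, ih1.1, ht⟩ ih1.2⟩

private noncomputable def Dd1 (N M : ℤ) (κ : Site → ℝ) (ω₀ : Cfg) : ℝ :=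
  ∑ i ∈ hb (box N M), (if Interface N ω₀ (i, true) then 1 else 0) +
    ∑ i ∈ vb (box N M), κ i * (if Interface N ω₀ (i, false) then 1 else 0)

private theorem agr1 {N M : ℤ} {ω : Cfg} (h : ω ∈ confs (box N M) (eta 0)) (hN : 0 ≤ N) (hM : 1 ≤ M) (b : Bond) :
    agr (Tg1 (gg N M ω) ω b.1) (Tg1 (gg N M ω) ω (bend b)) =
      agr (ω b.1) (ω (bend b)) + (if Interface N ω b then 1 else 0) := by
  by_cases hI : Interface N ω b
  · obtain ⟨h1, h2⟩ := int_true1 h hN hM hI
    rw [h1, h2, if_pos hI]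
    have h3 : ω b.1 ≠ ω (bend b) := hI.1
    unfold agr
    rw [if_pos rfl, if_neg h3, zero_add]
  · rw [if_neg hI, add_zero]
    unfold agr
    by_cases h3 : ω b.1 = ω (bend b)
    · rw [if_pos h3, if_pos ((tg0 h (by omega) ω hI).2 h3)]
    · rw [if_neg h3, if_neg (fun h4 => h3 ((tg0 h (by omega) ω hI).1 h4))]

private theorem en1 {N M : ℤ} {ω : Cfg} (h : ω ∈ confs (box N M) (eta 0)) (hN : 0 ≤ N) (hM : 1 ≤ M) (κ : Site → ℝ) :
    en κ (box N M) (Tg1 (gg N M ω) ω) = en κ (box N M) ω + Dd1 N M κ ω := by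
  unfold en Dd1
  have h1 : ∀ i : Site, agr (Tg1 (gg N M ω) ω i) (Tg1 (gg N M ω) ω (i + e1)) =
      agr (ω i) (ω (i + e1)) + (if Interface N ω (i, true) then 1 else 0) := fun i => agr1 h hN hM (i, true)
  have h2 : ∀ i : Site, agr (Tg1 (gg N M ω) ω i) (Tg1 (gg N M ω) ω (i + e2)) =
      agr (ω i) (ω (i + e2)) + (if Interface N ω (i, false) then 1 else 0) := fun i => agr1 h hN hM (i, false)
  simp only [h1, h2, mul_add, Finset.sum_add_distrib]
  ring

private theorem gg_congr1 {N M : ℤ} {ω ξ : Cfg} (h : ∀ b, Interface N ω b ↔ Interface N ξ b) : gg N M ω = gg N M ξ := by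
  funext i
  unfold gg ig
  refine Finset.sum_congr rfl fun y _ => ?_
  simp only [h]

private theorem Vg_congr1 {N M : ℤ} {ω ξ : Cfg} (h : ∀ b, Interface N ω b ↔ Interface N ξ b) : Vg N M ω = Vg N M ξ := by
  unfold Vg Tch
  simp only [h]

private theorem Dd_congr1 {N M : ℤ} {κ : Site → ℝ} {ω ξ : Cfg} (h : ∀ b, Interface N ω b ↔ Interface N ξ b) :
    Dd1 N M κ ω = Dd1 N M κ ξ := by
  unfold Dd1
  simp only [h]

private noncomputable def Cl1 (N M : ℤ) (ω₀ : Cfg) : Finset Cfg :=
  (confs (box N M) (eta 0)).filter (fun ω => ∀ b, Interface N ω b ↔ Interface N ω₀ b)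

private theorem sum1 {N M : ℤ} {ω₀ : Cfg} (h : ω₀ ∈ confs (box N M) (eta 0)) (hN : 0 ≤ N) (hM : 1 ≤ M) (β : ℝ)
    (κ : Site → ℝ) (H : Cfg → ℝ) :
    ∑ ω ∈ Cl1 N M ω₀, wg β κ (box N M) ω * H (Tg1 (gg N M ω₀) ω) =
      Real.exp (β * (en κ (box N M) tt - en κ (box N M \ Vg N M ω₀) tt - Dd1 N M κ ω₀)) *
        Zg β κ (box N M \ Vg N M ω₀) tt H := by
  unfold Zg
  rw [Finset.mul_sum]
  refine Finset.sum_bij' (fun ω _ => Tg1 (gg N M ω₀) ω) (fun σ _ => Tg1 (gg N M ω₀) σ) ?_ ?_ ?_ ?_ ?_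
  · intro ω hω
    unfold Cl1 at hω
    rw [Finset.mem_filter] at hω
    rw [← gg_congr1 hω.2, ← Vg_congr1 hω.2]
    exact fwd1 hω.1 hN hM
  · intro σ hσ
    unfold Cl1
    rw [Finset.mem_filter]
    exact bwd1 h hN hM hσ
  · intro ω _
    exact Tg_Tg1 _ _
  · intro σ _
    exact Tg_Tg1 _ _
  · intro ω hω
    unfold Cl1 at hω
    rw [Finset.mem_filter] at hω
    have h1 := en1 hω.1 hN hM κ
    rw [gg_congr1 hω.2, Dd_congr1 hω.2] at h1
    have h2 : Tg1 (gg N M ω₀) ω ∈ confs (box N M \ Vg N M ω₀) tt := by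
      rw [← gg_congr1 hω.2, ← Vg_congr1 hω.2]
      exact fwd1 hω.1 hN hM
    have h3 := en_swap (κ := κ) (Finset.sdiff_subset (s := box N M) (t := Vg N M ω₀)) h2
    rw [← mul_assoc]
    congr 1
    unfold wg
    rw [← Real.exp_add]
    congr 1
    have h4 : en κ (box N M) ω = en κ (box N M) tt + en κ (box N M \ Vg N M ω₀) (Tg1 (gg N M ω₀) ω) -
        en κ (box N M \ Vg N M ω₀) tt - Dd1 N M κ ω₀ := by
      linarith
    rw [h4]
    ring

private theorem ch1 {N M : ℤ} (ω₀ ω : Cfg) (A : Finset Site) :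
    ch A ω = (∏ i ∈ A, sgg N M ω₀ i) * ch A (Tg1 (gg N M ω₀) ω) := by
  unfold ch
  rw [← Finset.prod_mul_distrib]
  refine Finset.prod_congr rfl fun i _ => ?_
  unfold sgg Tg1
  by_cases h : gg N M ω₀ i = 0
  · rw [if_pos h, if_pos h, one_mul]
  · rw [if_neg h, if_neg h]
    unfold sp
    cases ω i <;> simp

theorem cond_gg {N M : ℤ} (hN : 0 ≤ N) (hM : 1 ≤ M) (β J : ℝ) (A : Finset Site) (G : Cfg → ℝ)
    (hG : ∀ ω ξ : Cfg, (∀ b, Interface N ω b ↔ Interface N ξ b) → G ω = G ξ) :
    avg β (kap J) (box N M) (eta 0) (fun ω => G ω * ch A ω) =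
      avg β (kap J) (box N M) (eta 0) (fun ω => G ω * ((∏ i ∈ A, sgg N M ω i) *
        avg β (kap J) (box N M \ Vg N M ω) tt (ch A))) := by
  have key : Zg β (kap J) (box N M) (eta 0) (fun ω => G ω * ch A ω) =
      Zg β (kap J) (box N M) (eta 0) (fun ω => G ω * ((∏ i ∈ A, sgg N M ω i) *
        avg β (kap J) (box N M \ Vg N M ω) tt (ch A))) := by
    have hcl : ∀ F : Cfg → ℝ, ∑ y ∈ (confs (box N M) (eta 0)).image (fun ω => fun b => Interface N ω b),
        ∑ ω ∈ (confs (box N M) (eta 0)).filter (fun ω => (fun b => Interface N ω b) = y), F ω =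
          ∑ ω ∈ confs (box N M) (eta 0), F ω := fun F =>
      Finset.sum_fiberwise_of_maps_to (fun ω hω => Finset.mem_image_of_mem _ hω) F
    change ∑ ω ∈ confs (box N M) (eta 0), wg β (kap J) (box N M) ω * (G ω * ch A ω) =
      ∑ ω ∈ confs (box N M) (eta 0), wg β (kap J) (box N M) ω * (G ω * ((∏ i ∈ A, sgg N M ω i) *
        avg β (kap J) (box N M \ Vg N M ω) tt (ch A)))
    rw [← hcl, ← hcl]
    refine Finset.sum_congr rfl fun y hy => ?_
    rw [Finset.mem_image] at hy
    obtain ⟨ω₀, h0, rfl⟩ := hy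
    have hC : (confs (box N M) (eta 0)).filter (fun ω => (fun b => Interface N ω b) = (fun b => Interface N ω₀ b)) =
        Cl1 N M ω₀ := by
      unfold Cl1
      refine Finset.filter_congr fun ω _ => ?_
      constructor
      · intro h b
        exact iff_of_eq (congrFun h b)
      · intro h
        funext b
        exact propext (h b)
    rw [hC]
    have h1 : ∀ ω ∈ Cl1 N M ω₀, wg β (kap J) (box N M) ω * (G ω * ch A ω) =
        (G ω₀ * ∏ i ∈ A, sgg N M ω₀ i) * (wg β (kap J) (box N M) ω * ch A (Tg1 (gg N M ω₀) ω)) := by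
      intro ω hω
      unfold Cl1 at hω
      rw [Finset.mem_filter] at hω
      rw [hG ω ω₀ hω.2, ch1 (N := N) (M := M) ω₀ ω A]
      ring
    have h2 : ∀ ω ∈ Cl1 N M ω₀, wg β (kap J) (box N M) ω * (G ω * ((∏ i ∈ A, sgg N M ω i) *
        avg β (kap J) (box N M \ Vg N M ω) tt (ch A))) =
        (G ω₀ * (∏ i ∈ A, sgg N M ω₀ i) * avg β (kap J) (box N M \ Vg N M ω₀) tt (ch A)) *
          (wg β (kap J) (box N M) ω * (fun _ => (1 : ℝ)) (Tg1 (gg N M ω₀) ω)) := by
      intro ω hω
      unfold Cl1 at hω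
      rw [Finset.mem_filter] at hω
      have h3 : ∀ i, sgg N M ω i = sgg N M ω₀ i := by
        intro i
        unfold sgg
        rw [gg_congr1 hω.2]
      simp only [h3]
      rw [hG ω ω₀ hω.2, Vg_congr1 hω.2]
      ring
    rw [Finset.sum_congr rfl h1, Finset.sum_congr rfl h2, ← Finset.mul_sum, ← Finset.mul_sum,
      sum1 h0 hN hM β (kap J) (ch A), sum1 h0 hN hM β (kap J) (fun _ => 1)]
    have hpos := Zg_one_pos (β := β) (κ := kap J) (Λ := box N M \ Vg N M ω₀) (η := tt)
    unfold avg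
    field_simp
  change Zg _ _ _ _ _ / _ = Zg _ _ _ _ _ / _
  rw [key]

end Pool.Agent.Helper49.RD
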