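import Pool.Agent.Helper49.DL.Half

/-!
Block RD-P3: products of spins in the plus phase.

Paper proofs.
* `griffiths2`: `avg_ch` (`DL/Plus.lean`) gives `avg (ch A) = PN (sub A) / PN ∅`; `ch A * ch B = ch (A ∆ B)` (spins squared are `1`), or work directly with `Zg_ex`. With `J e = lJ β κ tt e ≥ 0` it is
  `∑ σ, ∑ σ', wt J σ * wt J σ' * (chi A σ * chi B σ - chi A σ * chi B σ') ≥ 0`: by `dup_nonneg` (`DL/Cone.lean`) it suffices that for every `τ` the function
  `wt J σ * wt J (mulc σ τ) * chi A σ * chi B σ * (1 - chi B τ)` of `σ` is in `Cone`: `chi e (mulc σ τ) = chi e σ * chi e τ` (`chi_mulc`), `wt J σ * wt J (mulc σ τ) = ∏ e, exp (J e (1 + chi e τ) chi e σ)`,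
  `exp (x chi) = cosh x + sinh x chi` with `x ≥ 0` (`exp_chi`, `cone_lin`), `1 - chi B τ ≥ 0`.
* `ch_lower`: induction on `A` (`Finset.induction_on`): `ch (insert v A) = sp (ω v) * ch A ω`, `griffiths2`, `mag_le`, `avg_tt_nonneg`, `mag_nonneg`.
* `ch_upper`: let `Λ' = A.biUnion (fun v => tr v (box r r)) ⊆ Λ`, `A ⊆ Λ'` (`1 ≤ r`). `avg_dom_mono`: `|avg Λ η (ch A)| ≤ avg Λ' tt (ch A)`. Claim `avg Λ' tt (ch B) = ar ^ card B` for `B ⊆ A` by induction on `B`: for
  `B = insert v B'`: `Zg_cond` (`DL/Trans.lean`) with `Λ' ⊇ ball v = tr v (box r r)`, `G = ch B'` (sites off `ball v`), `F = sp (ω v)`: for `ω ∈ confs Λ' tt` the sites off `ball v` which are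
  neighbours of `ball v` are not in `Λ'` (the balls are far from each other), so `ω = true` there, and `avg (ball v) ω F = avg (ball v) tt F` (`avg_sameBdry`) `= ar β r`: as `avg_ball` (`DL/Half.lean`);
  for `v.2 ≤ -r - 1` in the same way (the vertical bonds meeting the ball are `(i, i + e2)` with `v.2 - r ≤ i.2 ≤ v.2 + r`, so `i.2 ≠ 0`).
-/

open Finset

namespace Pool.Agent.Helper49.RD

open Pool.Agent.Helper49.DL

private lemma gks46 {V ι : Type*} [Fintype ι] [Fintype V] [DecidableEq V] (A : ι → Finset V) {J : ι → ℝ}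
    (hJ : ∀ i, 0 ≤ J i) (B C : Finset V) :
    (∑ σ : V → Bool, wt A J σ * chi B σ) * (∑ σ : V → Bool, wt A J σ * chi C σ) ≤
      (∑ σ : V → Bool, wt A J σ) * (∑ σ : V → Bool, wt A J σ * (chi B σ * chi C σ)) := by
  have key := dup_nonneg (V := V) (fun σ σ' =>
      (wt A J σ * wt A J σ') * (chi B σ * chi C σ - chi B σ * chi C σ')) (by
    intro τ
    have h1 := base_cone A (J1 := J) (J2 := J) (fun i => (abs_of_nonneg (hJ i)).le)
      (Finset.Subset.refl (∅ : Finset V)) τ
    have h2 : (fun σ => chi B σ * chi C σ * (1 - chi C τ)) ∈ Cone V := by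
      refine cone_mul (cone_mul (cone_chi B) (cone_chi C)) (cone_const ?_)
      rcases chi_cases C τ with h | h <;> rw [h] <;> norm_num
    convert cone_mul h1 h2 using 1
    funext σ
    rw [chi_mulc]
    simp only [frc, Finset.prod_empty, mul_one]
    ring)
  have e : ∑ σ : V → Bool, ∑ σ' : V → Bool,
      (wt A J σ * wt A J σ') * (chi B σ * chi C σ - chi B σ * chi C σ') =
      (∑ σ : V → Bool, wt A J σ * (chi B σ * chi C σ)) * (∑ σ : V → Bool, wt A J σ) -
        (∑ σ : V → Bool, wt A J σ * chi B σ) * (∑ σ : V → Bool, wt A J σ * chi C σ) := by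
    rw [Finset.sum_mul_sum, Finset.sum_mul_sum, ← Finset.sum_sub_distrib]
    refine Finset.sum_congr rfl fun σ _ => ?_
    rw [← Finset.sum_sub_distrib]
    refine Finset.sum_congr rfl fun σ' _ => ?_
    ring
  rw [e] at key
  linarith

theorem griffiths2 {β : ℝ} (hβ : 0 ≤ β) {κ : Site → ℝ} (hκ : ∀ i, 0 ≤ κ i) {Λ A B : Finset Site} (hA : A ⊆ Λ)
    (hB : B ⊆ Λ) : avg β κ Λ tt (ch A) * avg β κ Λ tt (ch B) ≤ avg β κ Λ tt (fun ω => ch A ω * ch B ω) := by
  classical
  have hJ : ∀ e : LB Λ, 0 ≤ lJ β κ tt e := by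
    intro e
    unfold lJ
    rw [osp_tt, osp_tt]
    have := lk_nonneg hκ e
    positivity
  have hk := gks46 (lA (Λ := Λ)) hJ (sub Λ A) (sub Λ B)
  have hK := lK_pos (Λ := Λ) β κ
  have eA : Zg β κ Λ tt (ch A) = lK Λ β κ * ∑ c : LV Λ → Bool, wt lA (lJ β κ tt) c * chi (sub Λ A) c := by
    rw [Zg_ex]
    congr 1
    exact Finset.sum_congr rfl fun c _ => by rw [ch_ex tt c hA]
  have eB : Zg β κ Λ tt (ch B) = lK Λ β κ * ∑ c : LV Λ → Bool, wt lA (lJ β κ tt) c * chi (sub Λ B) c := by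
    rw [Zg_ex]
    congr 1
    exact Finset.sum_congr rfl fun c _ => by rw [ch_ex tt c hB]
  have eAB : Zg β κ Λ tt (fun ω => ch A ω * ch B ω) =
      lK Λ β κ * ∑ c : LV Λ → Bool, wt lA (lJ β κ tt) c * (chi (sub Λ A) c * chi (sub Λ B) c) := by
    rw [Zg_ex]
    congr 1
    exact Finset.sum_congr rfl fun c _ => by rw [ch_ex tt c hA, ch_ex tt c hB]
  have e1' : Zg β κ Λ tt (fun _ => 1) = lK Λ β κ * ∑ c : LV Λ → Bool, wt lA (lJ β κ tt) c := by
    rw [Zg_ex]
    congr 1
    exact Finset.sum_congr rfl fun c _ => by rw [mul_one]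
  have hZ := Zg_one_pos (β := β) (κ := κ) (Λ := Λ) (η := tt)
  unfold avg
  rw [div_mul_div_comm, div_le_div_iff₀ (mul_pos hZ hZ) hZ, eA, eB, eAB]
  have hs : 0 < ∑ c : LV Λ → Bool, wt lA (lJ β κ tt) c := by
    rw [e1'] at hZ
    exact (mul_pos_iff_of_pos_left hK).1 hZ
  rw [e1']
  have h2 := mul_le_mul_of_nonneg_left hk (show 0 ≤ lK Λ β κ ^ 3 * ∑ c : LV Λ → Bool, wt lA (lJ β κ tt) c by positivity)
  nlinarith [h2]

private lemma ch_insert46 {v : Site} {A : Finset Site} (hv : v ∉ A) (ω : Cfg) :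
    ch (insert v A) ω = sp (ω v) * ch A ω := by
  unfold ch
  rw [Finset.prod_insert hv]

theorem ch_lower {β J : ℝ} (hβ : 0 ≤ β) (hJ : 1 ≤ J) {Λ A : Finset Site} (hA : A ⊆ Λ) :
    mag β ^ A.card ≤ avg β (kap J) Λ tt (ch A) := by
  classical
  induction A using Finset.induction_on with
  | empty =>
    have h1 : ch ∅ = fun _ => (1 : ℝ) := by funext ω; simp [ch]
    rw [h1, avg_const, Finset.card_empty, pow_zero]
  | insert v s hv ih =>
    have hs : s ⊆ Λ := (Finset.subset_insert v s).trans hA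
    have hvΛ : v ∈ Λ := hA (Finset.mem_insert_self v s)
    have h1 := griffiths2 hβ (κ := kap J) (kap_nonneg (by linarith)) (Finset.singleton_subset_iff.2 hvΛ) hs
    have h2 := mag_le (J := J) hβ hJ hvΛ
    have h3 := mag_nonneg hβ
    have h4 := ih hs
    have e : (fun ω => ch {v} ω * ch s ω) = ch (insert v s) := by
      funext ω
      rw [ch_insert46 hv, ch_singleton]
    rw [e, ch_singleton] at h1
    rw [Finset.card_insert_of_notMem hv, pow_succ']
    exact (mul_le_mul h2 h4 (pow_nonneg h3 _) (h3.trans h2)).trans h1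

/-- One-point function at the centre of a ball which does not meet the defect line. -/
private lemma avg_ball46 {β J : ℝ} {v : Site} {r : ℕ} (hv : (r : ℤ) + 1 ≤ |v.2|) :
    avg β (kap J) (tr v (box r r)) tt (fun ω => sp (ω v)) = ar β r := by
  have h : ∀ i ∈ vb (tr v (box (r : ℤ) r)), kap J i = kap 1 i := by
    intro i hi
    rw [mem_vb, mem_ball, mem_ball] at hi
    unfold kap
    have : i.2 ≠ 0 := by
      rcases le_abs.1 hv with h1 | h1 <;> rcases hi with hi | hi
      · omega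
      · simp only [e2, Prod.snd_add] at hi; omega
      · omega
      · simp only [e2, Prod.snd_add] at hi; omega
    rw [if_neg this, if_neg this]
  rw [avg_kap_congr h]
  have := avg_tr (β := β) (κ := kap 1) (Λ := box (r : ℤ) r) (η := tt) v (fun ω => sp (ω v))
  rw [shift_tt, kap_one_shift] at this
  rw [this]
  unfold ar
  congr 1
  funext ω
  simp only [shift, sub_self]
  rfl

private lemma far46 {v w i : Site} {r : ℕ} (h : 2 * (r : ℤ) + 2 ≤ max |v.1 - w.1| |v.2 - w.2|)
    (h1 : i ∈ tr v (box r r) ∨ (i + e1 ∈ tr v (box r r) ∨ i - e1 ∈ tr v (box r r) ∨ i + e2 ∈ tr v (box r r) ∨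
      i - e2 ∈ tr v (box r r))) : i ∉ tr w (box (r : ℤ) r) := by
  intro hi
  rw [mem_ball] at hi
  have hb : (v.1 - r - 1 ≤ i.1 ∧ i.1 ≤ v.1 + r + 1) ∧ (v.2 - r ≤ i.2 ∧ i.2 ≤ v.2 + r + 1) := by
    rcases h1 with h1 | h1 | h1 | h1 | h1 <;> rw [mem_ball] at h1
    · omega
    all_goals
      simp only [e1, e2, Prod.fst_add, Prod.snd_add, Prod.fst_sub, Prod.snd_sub] at h1
      omega
  rcases le_max_iff.1 h with h2 | h2
  · rcases le_abs.1 h2 with h3 | h3 <;> omega
  · rcases le_abs.1 h2 with h3 | h3 <;> omega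

theorem ch_upper {β J : ℝ} (hβ : 0 ≤ β) (hJ : 1 ≤ J) {Λ A : Finset Site} (η : Cfg) {r : ℕ} (hr : 1 ≤ r)
    (hb : ∀ v ∈ A, tr v (box r r) ⊆ Λ) (hv : ∀ v ∈ A, (r : ℤ) + 1 ≤ |v.2|)
    (hs : ∀ v ∈ A, ∀ w ∈ A, v ≠ w → 2 * (r : ℤ) + 2 ≤ max |v.1 - w.1| |v.2 - w.2|) :
    |avg β (kap J) Λ η (ch A)| ≤ ar β r ^ A.card := by
  classical
  have hself : ∀ v : Site, v ∈ tr v (box (r : ℤ) r) := by
    intro v
    rw [mem_ball]
    omega
  obtain ⟨Λ', hΛ'⟩ : ∃ Λ' : Finset Site, Λ' = A.biUnion (fun v => tr v (box r r)) := ⟨_, rfl⟩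
  have hsub : Λ' ⊆ Λ := by
    rw [hΛ', Finset.biUnion_subset]
    exact hb
  have hAΛ : A ⊆ Λ' := by
    intro v hvA
    rw [hΛ', Finset.mem_biUnion]
    exact ⟨v, hvA, hself v⟩
  have hclaim : ∀ B : Finset Site, B ⊆ A → avg β (kap J) Λ' tt (ch B) = ar β r ^ B.card := by
    intro B
    induction B using Finset.induction_on with
    | empty =>
      intro _
      have h1 : ch ∅ = fun _ => (1 : ℝ) := by funext ω; simp [ch]
      rw [h1, avg_const, Finset.card_empty, pow_zero]
    | insert v s hvs ih =>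
      intro hBA
      have hvA : v ∈ A := hBA (Finset.mem_insert_self v s)
      have hsA : s ⊆ A := (Finset.subset_insert v s).trans hBA
      have hball : tr v (box (r : ℤ) r) ⊆ Λ' := by
        rw [hΛ']
        exact Finset.subset_biUnion_of_mem (fun v => tr v (box (r : ℤ) r)) hvA
      have hc := Zg_cond (β := β) (κ := kap J) (η := tt) hball (ch s) (fun ω => sp (ω v)) (by
        intro ω ξ hξ
        rw [mem_confs] at hξ
        unfold ch
        refine Finset.prod_congr rfl fun w hw => ?_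
        have hne : w ≠ v := by
          rintro rfl
          exact hvs hw
        rw [hξ w (far46 (hs w (hsA hw) v hvA hne) (Or.inl (hself w)))]) (ar β r) (by
        intro ω hω _
        rw [← avg_ball46 (β := β) (J := J) (hv v hvA)]
        refine avg_sameBdry (fun i hi hadj => ?_) (fun ω ω' h => by
          have := h v (hself v)
          simp only [this])
        rw [mem_confs] at hω
        refine (hω i ?_).symm
        rw [hΛ', Finset.mem_biUnion]
        rintro ⟨w, hw, hwi⟩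
        by_cases hne : v = w
        · subst hne
          exact hi hwi
        · exact far46 (hs v hvA w hw hne) (Or.inr hadj) hwi)
      have e : (fun ω => ch s ω * sp (ω v)) = ch (insert v s) := by
        funext ω
        rw [ch_insert46 hvs, mul_comm]
      rw [e] at hc
      rw [Finset.card_insert_of_notMem hvs, pow_succ', ← ih hsA]
      unfold avg
      rw [hc, mul_div_assoc]
  have h := avg_dom_mono hβ (κ := kap J) (kap_nonneg (by linarith)) hsub η hAΛ
  rw [hclaim A (Finset.Subset.refl A)] at h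
  exact h

end Pool.Agent.Helper49.RD
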