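import Pool.Agent.Helper49.RD.EllCz
import Pool.Agent.Helper49.RD.G2pt

/-!
Block RD-HM: the levels of the source in the middle row as a measure.

`t = exp (-β)`, `td = exp (-(β J))`, `λ = lam t`, `g = sg t`, `L = 2 n + 1`, `k = k n`, `k n/n → s < 2`, `h y = lev t td n L e0 k y ≥ 0` (`lev_nonneg`), `uh n y = 2 n λ/(a n t) * h y / λ^(L - k)`, `v₀ = g (2 - s)`.

Paper proofs.
* `uh_pt`: `lev_up` (`L - k ≥ c n`), `a n ≥ c`.
* `uh_tail`: `h_mass` (`RD/G2pt.lean`) with `B √n`: `∑_{v : ds v ≥ B √n} h (ds v) ≤ C (ℓ (1_{z ≥ B √n/2}) + e^{-c B √n} ℓ (1))`, `ℓ = gsum n (2 n - k) · 0`; `2 n - k = L - k - 1 → (2 - s) n`; `ell_tail` with `ε = 1/√n` (for `B > 0`), `ell_one`. Each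
  `y ≥ 1` is `ds v` for two rows `v`, `y = 0` for one.
* `h_meas`: first for sines: `θ n * n = π j n`, `θ n √n → u`: `pai_dual` with `w = sin (θ n ·)`, `E = e0`: `pai n (gsum k w) h = pai n w (gsum L e0) = gsum L w 0` (`gsum_pai`), and `|gsum k w y - sin (θ y)/H (k+1)| ≤ C θ λ^(k+1)` (`lev_sin`). So
  `|∑ v, sin (θ ds v) h (ds v) - H (k+1) ℓ_L (w)| ≤ C H (k+1) θ λ^(k+1) ∑ v, h (ds v) ≤ C' θ λ^(L-k) n^(-1/2)` (`H (k+1) λ^(k+1) → t e^{g s u²/2}`, `hh_lim`; `uh_tail` with `B = 0`). The sum over `v` is twice the sum over `1 ≤ y ≤ n`. Multiply by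
  `√n λ/(a_n t λ^(L-k))`: `(√n)⁻¹ ∑_y sin (θ y) uh y = (H (k+1) λ^(k+1)/t) (√n ℓ_L (w)/(a_n λ^L)) + O (θ) → e^{g s u²/2} u e^{-g u²} = u e^{-v₀ u²/2}` (`Nrm`, `s = 2` there). For general `f` in `Cz` approximate as in the proof of `ell_cz` (RD-EF):
  `|f (z/√n) - p_n z| ≤ 2 δ + (2 B + δ) 1_{z ≥ A √n}`, masses and tails by `uh_tail`, `la_sin`, `la_lin`, `la_le`.
-/

open Finset Filter

namespace Pool.Agent.Helper49.RD

open Pool.Agent.Helper49.DL Pool.Agent.Helper49.DX

/-- Rescaled levels of the source in the middle row. -/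
noncomputable def uh (t td : ℝ) (a : ℕ → ℝ) (k : ℕ → ℕ) (n y : ℕ) : ℝ :=
  2 * n * lam t / (a n * t) * lev t td n (2 * n + 1) e0 (k n) y / lam t ^ (2 * n + 1 - k n)

private theorem basicsHM {β₁ β J : ℝ} (h0 : 0 ≤ β₁) (h : β₁ < β) (hm : 0 < mag β₁) (hJ : 1 < J) :
    0 < Real.exp (-β) ∧ Real.exp (-β) ^ 2 + 2 * Real.exp (-β) < 1 ∧ 0 < Real.exp (-(β * J)) ∧
      Real.exp (-(β * J)) < Real.exp (-β) := by
  refine ⟨Real.exp_pos _, t_small h0 h hm, Real.exp_pos _, Real.exp_lt_exp.2 ?_⟩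
  have := mul_pos (lt_of_le_of_lt h0 h) (sub_pos.2 hJ)
  nlinarith

private theorem gapHM {k : ℕ → ℕ} {s : ℝ} (hs : s < 2)
    (hk : Tendsto (fun n : ℕ => (k n : ℝ) / n) atTop (nhds s)) :
    ∀ᶠ n : ℕ in atTop, 2 ≤ n ∧ k n ≤ 2 * n ∧ (2 - s) / 2 * n ≤ ((2 * n + 1 - k n : ℕ) : ℝ) := by
  filter_upwards [hk.eventually (gt_mem_nhds (show s < (s + 2) / 2 by linarith)),
    eventually_ge_atTop 2] with n h1 h2
  have hn : (0 : ℝ) < n := by exact_mod_cast (by omega : 0 < n)
  rw [div_lt_iff₀ hn] at h1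
  have h3 : (k n : ℝ) < 2 * n := by nlinarith
  have h4 : k n < 2 * n := by exact_mod_cast h3
  refine ⟨h2, h4.le, ?_⟩
  rw [Nat.cast_sub (by omega)]
  push_cast
  linarith

private noncomputable def pfHM (t : ℝ) (a : ℕ → ℝ) (k : ℕ → ℕ) (n : ℕ) : ℝ :=
  2 * n * lam t / (a n * t) / lam t ^ (2 * n + 1 - k n)

private theorem uh_pfHM (t td : ℝ) (a : ℕ → ℝ) (k : ℕ → ℕ) (n y : ℕ) :
    uh t td a k n y = pfHM t a k n * lev t td n (2 * n + 1) e0 (k n) y := by
  unfold uh pfHM
  ring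

private theorem pf_powHM {t : ℝ} (hl : 0 < lam t) {a : ℕ → ℝ} {k : ℕ → ℕ} {n : ℕ}
    (hkn : k n ≤ 2 * n) : pfHM t a k n * lam t ^ (2 * n - k n) = 2 * n / (a n * t) := by
  unfold pfHM
  have h1 : 2 * n + 1 - k n = (2 * n - k n) + 1 := by omega
  rw [h1, pow_succ]
  have h2 := (pow_pos hl (2 * n - k n)).ne'
  have h3 := hl.ne'
  field_simp

private theorem pf_nonnegHM {t : ℝ} (ht : 0 < t) (hl : 0 < lam t) {a : ℕ → ℝ} {k : ℕ → ℕ} {n : ℕ}
    (han : 0 < a n) : 0 ≤ pfHM t a k n := by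
  unfold pfHM
  positivity

private theorem sum_dsHM (n : ℕ) (F : ℕ → ℝ) :
    ∑ v : Fin (2 * n + 1), F (ds n v) = 2 * ∑ y ∈ range (n + 1), F y - F 0 := by
  have h1 : ∑ v : Fin (2 * n + 1), F (ds n v) =
      ∑ i ∈ range (2 * n + 1), F (Int.natAbs ((i : ℤ) - n)) :=
    Fin.sum_univ_eq_sum_range (fun i => F (Int.natAbs ((i : ℤ) - n))) (2 * n + 1)
  have h2 : 2 * n + 1 = n + (n + 1) := by ring
  rw [h1, h2, sum_range_add]
  have h3 : ∑ x ∈ range n, F (Int.natAbs ((x : ℤ) - n)) = ∑ x ∈ range n, F (x + 1) := by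
    rw [← sum_range_reflect (fun x => F (x + 1)) n]
    refine sum_congr rfl fun x hx => ?_
    rw [mem_range] at hx
    congr 1
    omega
  have h4 : ∑ x ∈ range (n + 1), F (Int.natAbs (((n + x : ℕ) : ℤ) - n)) = ∑ x ∈ range (n + 1), F x := by
    refine sum_congr rfl fun x _ => ?_
    congr 1
    omega
  rw [h3, h4, sum_range_succ']
  ring

private theorem range_leHM {n : ℕ} {F : ℕ → ℝ} (hF : ∀ y ≤ n, 0 ≤ F y) :
    ∑ y ∈ range (n + 1), F y ≤ ∑ v : Fin (2 * n + 1), F (ds n v) ∧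
      ∑ v : Fin (2 * n + 1), F (ds n v) ≤ 2 * ∑ y ∈ range (n + 1), F y := by
  rw [sum_dsHM]
  have h1 : F 0 ≤ ∑ y ∈ range (n + 1), F y :=
    single_le_sum (f := F) (fun y hy => hF y (by rw [mem_range] at hy; omega)) (mem_range.2 (by omega))
  have h2 := hF 0 (Nat.zero_le n)
  constructor <;> linarith

private theorem inv_sqrtHM : Tendsto (fun n : ℕ => (Real.sqrt n)⁻¹) atTop (nhds 0) :=
  tendsto_inv_atTop_zero.comp (Real.tendsto_sqrt_atTop.comp tendsto_natCast_atTop_atTop)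

private theorem theta_zeroHM {θ : ℕ → ℝ} {u : ℝ}
    (hθ : Tendsto (fun n : ℕ => θ n * Real.sqrt n) atTop (nhds u)) : Tendsto θ atTop (nhds 0) := by
  have h1 := hθ.mul inv_sqrtHM
  rw [mul_zero] at h1
  refine h1.congr' ?_
  filter_upwards [eventually_gt_atTop 0] with n hn
  have h2 : 0 < Real.sqrt n := Real.sqrt_pos.2 (by exact_mod_cast hn)
  field_simp

private theorem rho_intHM {v : ℝ} (hv : 0 < v) : MeasureTheory.Integrable (rho v) := by
  have h1 := (integrable_mul_exp_neg_mul_sq (show 0 < 1 / (2 * v) by positivity)).div_const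
    (Real.sqrt (Real.pi / 2) * (v * Real.sqrt v))
  refine h1.congr (MeasureTheory.ae_of_all _ fun z => ?_)
  show z * Real.exp (-(1 / (2 * v)) * z ^ 2) / _ = rho v z
  unfold rho
  congr 3
  ring

private theorem tailHM {v : ℝ} (hv : 0 < v) :
    Tendsto (fun A : ℝ => ∫ z in Set.Ioi A, rho v z) atTop (nhds 0) := by
  have h1 := MeasureTheory.tendsto_setIntegral_of_antitone (f := rho v) (μ := MeasureTheory.volume)
    (s := fun A : ℝ => Set.Ioi A) (fun A => measurableSet_Ioi)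
    (fun A B hAB => Set.Ioi_subset_Ioi hAB) ⟨0, (rho_intHM hv).integrableOn⟩
  have h2 : ⋂ A : ℝ, Set.Ioi A = (∅ : Set ℝ) := by
    ext z
    simp only [Set.mem_iInter, Set.mem_Ioi, Set.mem_empty_iff_false, iff_false, not_forall, not_lt]
    exact ⟨z, le_rfl⟩
  rw [h2, MeasureTheory.setIntegral_empty] at h1
  exact h1

/-- Sine polynomials. -/
private noncomputable def spHM (K : ℕ) (c w : ℕ → ℝ) (z : ℝ) : ℝ := ∑ j ∈ range K, c j * Real.sin (w j * z)

private theorem sp_measHM (K : ℕ) (c w : ℕ → ℝ) : Measurable (spHM K c w) := by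
  unfold spHM
  fun_prop

private theorem sp_absHM (K : ℕ) (c w : ℕ → ℝ) (z : ℝ) : |spHM K c w z| ≤ ∑ j ∈ range K, |c j| := by
  unfold spHM
  refine (abs_sum_le_sum_abs _ _).trans (sum_le_sum fun j _ => ?_)
  rw [abs_mul]
  exact mul_le_of_le_one_right (abs_nonneg _) (Real.abs_sin_le_one _)

private theorem la_spHM {v : ℝ} (hv : 0 < v) (K : ℕ) (c w : ℕ → ℝ) :
    La v (spHM K c w) = ∑ j ∈ range K, c j * (w j * Real.exp (-(v * w j ^ 2 / 2))) := by
  induction K with
  | zero =>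
    rw [sum_range_zero]
    have : spHM 0 c w = fun _ => 0 := by
      funext z
      unfold spHM
      rw [sum_range_zero]
    rw [this]
    unfold La
    simp
  | succ K ih =>
    have h1 : spHM (K + 1) c w = fun z => 1 * spHM K c w z + c K * Real.sin (w K * z) := by
      funext z
      unfold spHM
      rw [sum_range_succ, one_mul]
    have h2 := la_lin hv 1 (c K) (f := spHM K c w) (g := fun z => Real.sin (w K * z))
      (B := max (∑ j ∈ range K, |c j|) 1) (sp_measHM K c w) (by fun_prop)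
      (fun z _ => (sp_absHM K c w z).trans (le_max_left _ _))
      (fun z _ => (Real.abs_sin_le_one _).trans (le_max_right _ _))
    rw [h1, h2, ih, la_sin hv, one_mul, sum_range_succ]

private theorem la_diffHM {v : ℝ} (hv : 0 < v) {f p : ℝ → ℝ} (hf : Measurable f) (hp : Measurable p)
    {Bf Bp δ M A : ℝ} (hA : 0 ≤ A) (hM : 0 ≤ M) (hδ : 0 ≤ δ) (hfB : ∀ z, 0 < z → |f z| ≤ Bf)
    (hpB : ∀ z, 0 < z → |p z| ≤ Bp) (h1 : ∀ z, 0 < z → z ≤ A → |f z - p z| ≤ δ)
    (h2 : ∀ z, A < z → |f z - p z| ≤ M) :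
    |La v f - La v p| ≤ δ / Real.sqrt v + M * ∫ z in Set.Ioi A, rho v z := by
  have hd : Measurable fun z => 1 * f z + (-1) * p z := (hf.const_mul 1).add (hp.const_mul (-1))
  have e1 : La v f - La v p = La v (fun z => 1 * f z + (-1) * p z) := by
    rw [la_lin hv 1 (-1) (B := max Bf Bp) hf hp (fun z hz => (hfB z hz).trans (le_max_left _ _))
      (fun z hz => (hpB z hz).trans (le_max_right _ _))]
    ring
  have hsetA : MeasurableSet (Set.Ioi A) := measurableSet_Ioi
  have hsetA' : MeasurableSet (Set.Iic A) := measurableSet_Iic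
  set g1 : ℝ → ℝ := (Set.Iic A).indicator fun z => f z - p z with hg1
  set g2 : ℝ → ℝ := (Set.Ioi A).indicator fun z => f z - p z with hg2
  have hm1 : Measurable g1 := (hf.sub hp).indicator hsetA'
  have hm2 : Measurable g2 := (hf.sub hp).indicator hsetA
  have hb1 : ∀ z, 0 < z → |g1 z| ≤ δ := by
    intro z hz
    by_cases h : z ≤ A
    · rw [hg1, Set.indicator_of_mem (show z ∈ Set.Iic A from h)]
      exact h1 z hz h
    · rw [hg1, Set.indicator_of_notMem (show z ∉ Set.Iic A from h), abs_zero]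
      exact hδ
  have hb2 : ∀ z, |g2 z| ≤ M * (Set.Ioi A).indicator (fun _ => 1) z := by
    intro z
    by_cases h : A < z
    · rw [hg2, Set.indicator_of_mem (show z ∈ Set.Ioi A from h),
        Set.indicator_of_mem (show z ∈ Set.Ioi A from h), mul_one]
      exact h2 z h
    · rw [hg2, Set.indicator_of_notMem (show z ∉ Set.Ioi A from h),
        Set.indicator_of_notMem (show z ∉ Set.Ioi A from h), abs_zero, mul_zero]
  have hb2' : ∀ z, 0 < z → |g2 z| ≤ M := by
    intro z _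
    refine (hb2 z).trans (mul_le_of_le_one_right hM ?_)
    exact Set.indicator_le_self' (fun _ _ => zero_le_one) z
  have e2 : (fun z => 1 * f z + (-1) * p z) = fun z => 1 * g1 z + 1 * g2 z := by
    funext z
    by_cases h : z ≤ A
    · have hn : z ∉ Set.Ioi A := not_lt.2 h
      rw [hg1, hg2, Set.indicator_of_mem (show z ∈ Set.Iic A from h), Set.indicator_of_notMem hn]
      ring
    · have hn : z ∉ Set.Iic A := h
      rw [hg1, hg2, Set.indicator_of_notMem hn,
        Set.indicator_of_mem (show z ∈ Set.Ioi A from not_le.1 h)]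
      ring
  rw [e1, e2, la_lin hv 1 1 (B := max δ M) hm1 hm2 (fun z hz => (hb1 z hz).trans (le_max_left _ _))
    (fun z hz => (hb2' z hz).trans (le_max_right _ _)), one_mul, one_mul]
  refine (abs_add_le _ _).trans (add_le_add (la_le hv hm1 hb1) ?_)
  have hrho : ∀ z, 0 < z → 0 ≤ rho v z := by
    intro z hz
    unfold rho
    positivity
  have hint : MeasureTheory.Integrable (fun z => M * (Set.Ioi A).indicator (rho v) z)
      (MeasureTheory.volume.restrict (Set.Ioi 0)) :=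
    (((rho_intHM hv).indicator hsetA).const_mul M).restrict
  have h3 := MeasureTheory.norm_integral_le_of_norm_le (μ := MeasureTheory.volume.restrict (Set.Ioi 0))
    (f := fun z => rho v z * g2 z) hint (by
      refine (MeasureTheory.ae_restrict_iff' measurableSet_Ioi).2 (MeasureTheory.ae_of_all _ fun z hz => ?_)
      have hz : 0 < z := hz
      rw [norm_mul, Real.norm_eq_abs, Real.norm_eq_abs, abs_of_nonneg (hrho z hz)]
      refine (mul_le_mul_of_nonneg_left (hb2 z) (hrho z hz)).trans (le_of_eq ?_)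
      by_cases h : A < z
      · rw [Set.indicator_of_mem (show z ∈ Set.Ioi A from h),
          Set.indicator_of_mem (show z ∈ Set.Ioi A from h)]
        ring
      · rw [Set.indicator_of_notMem (show z ∉ Set.Ioi A from h),
          Set.indicator_of_notMem (show z ∉ Set.Ioi A from h)]
        ring)
  rw [Real.norm_eq_abs] at h3
  refine h3.trans (le_of_eq ?_)
  rw [MeasureTheory.integral_const_mul, MeasureTheory.setIntegral_indicator hsetA]
  congr 2
  rw [Set.Ioi_inter_Ioi, max_eq_right hA]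

section

variable {β₁ β J : ℝ} (h0 : 0 ≤ β₁) (h : β₁ < β) (hm : 0 < mag β₁) (hJ : 1 < J) {a : ℕ → ℝ}
  (ha : Nrm (Real.exp (-β)) (Real.exp (-(β * J))) a) {k : ℕ → ℕ} {s : ℝ} (hs : s < 2)
  (hk : Tendsto (fun n : ℕ => (k n : ℝ) / n) atTop (nhds s))

include h0 h hm hJ ha hs hk

theorem uh_pt : ∃ C : ℝ, 0 < C ∧ ∀ᶠ n : ℕ in atTop, ∀ y ≤ n,
    0 ≤ uh (Real.exp (-β)) (Real.exp (-(β * J))) a k n y ∧
      uh (Real.exp (-β)) (Real.exp (-(β * J))) a k n y ≤ C * (1 + y) / Real.sqrt n := by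
  obtain ⟨ht, hq, htd, htt⟩ := basicsHM h0 h hm hJ
  have ht1 := t_lt_one ht hq
  have hl := lam_pos ht ht1
  obtain ⟨C0, hC0, hup⟩ := lev_up ht hq htd htt
  obtain ⟨⟨c, C, hc, hac⟩, _⟩ := ha
  have hc1 : 0 < (2 - s) / 2 := by linarith
  refine ⟨2 * lam (Real.exp (-β)) * C0 /
    (c * Real.exp (-β) * ((2 - s) / 2 * Real.sqrt ((2 - s) / 2))), by positivity, ?_⟩
  filter_upwards [gapHM hs hk, hac] with n ⟨hn2, hkn, hgap⟩ ⟨han, _⟩
  intro y hy
  have han0 : 0 < a n := lt_of_lt_of_le hc han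
  have hn : (0 : ℝ) < n := by exact_mod_cast (by omega : 0 < n)
  have hlev0 : 0 ≤ lev (Real.exp (-β)) (Real.exp (-(β * J))) n (2 * n + 1) e0 (k n) y :=
    (lev_nonneg (L := 2 * n + 1) (E := e0) ht hq htd htt.le hn2 (fun y _ => e0_nonneg y)).1 (k n)
      (by omega) y hy
  have hlev1 := (hup n (2 * n + 1) hn2).1 (k n) (by omega) y hy
  have hpf := pf_nonnegHM (k := k) ht hl han0
  rw [uh_pfHM]
  refine ⟨mul_nonneg hpf hlev0, ?_⟩
  set x : ℝ := ((2 * n + 1 - k n : ℕ) : ℝ) with hx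
  have hx0 : 0 < (2 - s) / 2 * n := by positivity
  have hxpos : 0 < x := lt_of_lt_of_le hx0 hgap
  have hrp : (2 - s) / 2 * Real.sqrt ((2 - s) / 2) * (n * Real.sqrt n) ≤ x ^ (3 / 2 : ℝ) := by
    have e1 : ∀ z : ℝ, 0 < z → z ^ (3 / 2 : ℝ) = z * Real.sqrt z := by
      intro z hz
      rw [Real.sqrt_eq_rpow, show (3 / 2 : ℝ) = 1 + 1 / 2 by norm_num, Real.rpow_add hz, Real.rpow_one]
    have e2 : (2 - s) / 2 * Real.sqrt ((2 - s) / 2) * (n * Real.sqrt n) =
        ((2 - s) / 2 * n) ^ (3 / 2 : ℝ) := by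
      rw [e1 _ hx0, Real.sqrt_mul hc1.le]
      ring
    rw [e2]
    exact Real.rpow_le_rpow hx0.le hgap (by norm_num)
  have hD : 0 < (2 - s) / 2 * Real.sqrt ((2 - s) / 2) * (n * Real.sqrt n) := by positivity
  have h1 : lev (Real.exp (-β)) (Real.exp (-(β * J))) n (2 * n + 1) e0 (k n) y ≤
      C0 * (1 + y) * lam (Real.exp (-β)) ^ (2 * n + 1 - k n) /
        ((2 - s) / 2 * Real.sqrt ((2 - s) / 2) * (n * Real.sqrt n)) :=
    hlev1.trans (div_le_div_of_nonneg_left (by positivity) hD hrp)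
  have h2 : pfHM (Real.exp (-β)) a k n ≤
      2 * n * lam (Real.exp (-β)) / (c * Real.exp (-β)) / lam (Real.exp (-β)) ^ (2 * n + 1 - k n) := by
    unfold pfHM
    gcongr
  refine (mul_le_mul h2 h1 hlev0 (by positivity)).trans (le_of_eq ?_)
  have h3 := (pow_pos hl (2 * n + 1 - k n)).ne'
  have h4 : Real.sqrt n ≠ 0 := (Real.sqrt_pos.2 hn).ne'
  have h5 : Real.sqrt ((2 - s) / 2) ≠ 0 := (Real.sqrt_pos.2 hc1).ne'
  have h6 : (2 - s) ≠ 0 := by linarith
  field_simp

theorem uh_tail : ∃ C : ℝ, 0 < C ∧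
    (∀ᶠ n : ℕ in atTop, (Real.sqrt n)⁻¹ * ∑ y ∈ range (n + 1),
      uh (Real.exp (-β)) (Real.exp (-(β * J))) a k n y ≤ C) ∧
    ∀ B : ℝ, 0 < B → ∀ᶠ n : ℕ in atTop, (Real.sqrt n)⁻¹ * ∑ y ∈ range (n + 1),
      (if B * Real.sqrt n ≤ y then uh (Real.exp (-β)) (Real.exp (-(β * J))) a k n y else 0) ≤
        C * (1 / Real.sinh (B / 2) + Real.exp (-B)) := by
  obtain ⟨ht, hq, htd, htt⟩ := basicsHM h0 h hm hJ
  have ht1 := t_lt_one ht hq
  have hl := lam_pos ht ht1
  obtain ⟨C0, c0, hC0, hc0, hmass⟩ := h_mass h0 h hm hJ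
  obtain ⟨C1, K, ε₀, hC1, hK, hε₀, -, htail⟩ := ell_tail ht hq htd htt
  obtain ⟨C2, hC2, hone⟩ := ell_one ht hq htd htt
  obtain ⟨⟨c, C, hc, hac⟩, _⟩ := ha
  have hc1 : 0 < (2 - s) / 2 := by linarith
  have hsc1 : 0 < Real.sqrt ((2 - s) / 2) := Real.sqrt_pos.2 hc1
  set t := Real.exp (-β) with htdef
  set td := Real.exp (-(β * J)) with htddef
  set D : ℝ := C0 * (C1 * Real.exp (2 * K) + C2 / Real.sqrt ((2 - s) / 2)) with hDdef
  have hD : 0 < D := by positivity
  -- bounds for the functional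
  have hG2 : ∀ n : ℕ, 2 ≤ n → k n ≤ 2 * n → (2 - s) / 2 * n ≤ ((2 * n + 1 - k n : ℕ) : ℝ) →
      gsum t td n (2 * n - k n) (fun _ => 1) 0 ≤
        C2 / Real.sqrt ((2 - s) / 2) * (lam t ^ (2 * n - k n) * (Real.sqrt n)⁻¹) := by
    intro n hn2 hkn hgap
    have hn : (0 : ℝ) < n := by exact_mod_cast (by omega : 0 < n)
    have h1 := hone n (2 * n - k n) hn2
    have h2 : (((2 * n - k n : ℕ) : ℝ) + 1) = ((2 * n + 1 - k n : ℕ) : ℝ) := by
      rw [show 2 * n + 1 - k n = (2 * n - k n) + 1 by omega]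
      push_cast
      rfl
    rw [h2] at h1
    have h3 : Real.sqrt ((2 - s) / 2) * Real.sqrt n ≤ Real.sqrt ((2 * n + 1 - k n : ℕ) : ℝ) := by
      rw [← Real.sqrt_mul hc1.le]
      exact Real.sqrt_le_sqrt hgap
    have h4 : 0 < Real.sqrt ((2 - s) / 2) * Real.sqrt n := mul_pos hsc1 (Real.sqrt_pos.2 hn)
    refine h1.trans ((div_le_div_of_nonneg_left (by positivity) h4 h3).trans (le_of_eq ?_))
    rw [div_eq_mul_inv, mul_inv, div_eq_mul_inv]
    ring
  have hpfle : ∀ n : ℕ, 2 ≤ n → k n ≤ 2 * n → c ≤ a n → ∀ X : ℝ, 0 ≤ X →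
      (Real.sqrt n)⁻¹ * (pfHM t a k n * (lam t ^ (2 * n - k n) * (Real.sqrt n)⁻¹ * X)) ≤
        2 / (c * t) * X := by
    intro n hn2 hkn han X hX
    have hn : (0 : ℝ) < n := by exact_mod_cast (by omega : 0 < n)
    have h1 : (Real.sqrt n)⁻¹ * (pfHM t a k n * (lam t ^ (2 * n - k n) * (Real.sqrt n)⁻¹ * X)) =
        (pfHM t a k n * lam t ^ (2 * n - k n)) * ((Real.sqrt n)⁻¹ * (Real.sqrt n)⁻¹) * X := by ring
    have h2 : (Real.sqrt n)⁻¹ * (Real.sqrt n)⁻¹ = (n : ℝ)⁻¹ := by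
      rw [← mul_inv, Real.mul_self_sqrt hn.le]
    have han0 : 0 < a n := lt_of_lt_of_le hc han
    rw [h1, h2, pf_powHM hl hkn]
    have h3 : 2 * (n : ℝ) / (a n * t) * (n : ℝ)⁻¹ = 2 / (a n * t) := by
      have := hn.ne'
      field_simp
    rw [h3]
    gcongr
  have hsum : ∀ n : ℕ, 2 ≤ n → k n ≤ 2 * n → c ≤ a n → ∀ B : ℝ, 0 ≤ B →
      (Real.sqrt n)⁻¹ * ∑ y ∈ range (n + 1), (if B ≤ y then uh t td a k n y else 0) ≤
        (Real.sqrt n)⁻¹ * (pfHM t a k n * (C0 * (gsum t td n (2 * n - k n)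
          (fun z => if B / 2 ≤ z then 1 else 0) 0 + Real.exp (-(c0 * B)) *
            gsum t td n (2 * n - k n) (fun _ => 1) 0))) := by
    intro n hn2 hkn han B hB
    have hn : (0 : ℝ) < n := by exact_mod_cast (by omega : 0 < n)
    have han0 : 0 < a n := lt_of_lt_of_le hc han
    have hpf := pf_nonnegHM (k := k) ht hl han0
    refine mul_le_mul_of_nonneg_left ?_ (inv_nonneg.2 (Real.sqrt_nonneg _))
    have h1 : ∑ y ∈ range (n + 1), (if B ≤ y then uh t td a k n y else 0) =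
        pfHM t a k n * ∑ y ∈ range (n + 1), (if B ≤ y then lev t td n (2 * n + 1) e0 (k n) y else 0) := by
      rw [mul_sum]
      refine sum_congr rfl fun y _ => ?_
      rw [uh_pfHM]
      split_ifs
      · rfl
      · rw [mul_zero]
    rw [h1]
    refine mul_le_mul_of_nonneg_left ?_ hpf
    refine (range_leHM (F := fun y => if B ≤ y then lev t td n (2 * n + 1) e0 (k n) y else 0) ?_).1.trans
      (hmass n hn2 (k n) hkn B hB)
    intro y hy
    show 0 ≤ (if B ≤ (y : ℝ) then lev t td n (2 * n + 1) e0 (k n) y else 0)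
    split_ifs
    · exact (lev_nonneg (L := 2 * n + 1) (E := e0) ht hq htd htt.le hn2 (fun y _ => e0_nonneg y)).1
        (k n) (by omega) y hy
    · exact le_rfl
  refine ⟨2 / (c * t) * D + 2 / (c * t) * (2 * D), by positivity, ?_, ?_⟩
  · filter_upwards [gapHM hs hk, hac] with n ⟨hn2, hkn, hgap⟩ ⟨han, _⟩
    have hn : (0 : ℝ) < n := by exact_mod_cast (by omega : 0 < n)
    have han0 : 0 < a n := lt_of_lt_of_le hc han
    have hpf := pf_nonnegHM (k := k) ht hl han0
    have h1 := hsum n hn2 hkn han 0 le_rfl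
    have e1 : ∀ y : ℕ, (if (0 : ℝ) ≤ y then uh t td a k n y else 0) = uh t td a k n y := fun y =>
      if_pos (Nat.cast_nonneg y)
    have e2 : (fun z : ℕ => if (0 : ℝ) / 2 ≤ z then (1 : ℝ) else 0) = fun _ => 1 := by
      funext z
      rw [zero_div]
      exact if_pos (Nat.cast_nonneg z)
    simp only [e1] at h1
    rw [e2, mul_zero, neg_zero, Real.exp_zero, one_mul] at h1
    refine h1.trans ?_
    have h2 := hG2 n hn2 hkn hgap
    have h3 : C0 * (gsum t td n (2 * n - k n) (fun _ => 1) 0 + gsum t td n (2 * n - k n) (fun _ => 1) 0) ≤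
        lam t ^ (2 * n - k n) * (Real.sqrt n)⁻¹ * (2 * D) := by
      have h4 : C0 * (C2 / Real.sqrt ((2 - s) / 2)) ≤ D := by
        rw [hDdef, mul_add]
        have : 0 ≤ C0 * (C1 * Real.exp (2 * K)) := by positivity
        linarith
      have h5 : 0 ≤ lam t ^ (2 * n - k n) * (Real.sqrt n)⁻¹ := by positivity
      have h6 := mul_le_mul_of_nonneg_right h4 h5
      have h7 := mul_le_mul_of_nonneg_left h2 hC0.le
      have h8 : C0 * (C2 / Real.sqrt ((2 - s) / 2) * (lam t ^ (2 * n - k n) * (Real.sqrt n)⁻¹)) =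
        C0 * (C2 / Real.sqrt ((2 - s) / 2)) * (lam t ^ (2 * n - k n) * (Real.sqrt n)⁻¹) := by ring
      linarith
    refine (mul_le_mul_of_nonneg_left (mul_le_mul_of_nonneg_left h3 hpf)
      (inv_nonneg.2 (Real.sqrt_nonneg _))).trans ((hpfle n hn2 hkn han (2 * D) (by positivity)).trans ?_)
    have : 0 ≤ 2 / (c * t) * D := by positivity
    linarith
  · intro B hB
    have hsqrt : Tendsto (fun n : ℕ => Real.sqrt n) atTop atTop :=
      Real.tendsto_sqrt_atTop.comp tendsto_natCast_atTop_atTop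
    filter_upwards [gapHM hs hk, hac, hsqrt.eventually (eventually_ge_atTop (1 / ε₀)),
      hsqrt.eventually (eventually_ge_atTop (1 / c0))] with n ⟨hn2, hkn, hgap⟩ ⟨han, _⟩ hr1 hr2
    have hn : (0 : ℝ) < n := by exact_mod_cast (by omega : 0 < n)
    have hsn : 0 < Real.sqrt n := Real.sqrt_pos.2 hn
    have han0 : 0 < a n := lt_of_lt_of_le hc han
    have hpf := pf_nonnegHM (k := k) ht hl han0
    have h1 := hsum n hn2 hkn han (B * Real.sqrt n) (by positivity)
    refine h1.trans ?_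
    have h2 := hG2 n hn2 hkn hgap
    have hsh : 0 < Real.sinh (B / 2) := Real.sinh_pos_iff.2 (by positivity)
    have h3 : gsum t td n (2 * n - k n) (fun z => if B * Real.sqrt n / 2 ≤ z then 1 else 0) 0 ≤
        C1 * Real.exp (2 * K) * (lam t ^ (2 * n - k n) * (Real.sqrt n)⁻¹) * (1 / Real.sinh (B / 2)) := by
      have h4 := htail (Real.sqrt n)⁻¹ (inv_pos.2 hsn) (by
        rw [inv_le_comm₀ hsn hε₀]
        rwa [one_div] at hr1) (B * Real.sqrt n / 2) (by positivity) n (2 * n - k n) hn2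
      have e1 : (Real.sqrt n)⁻¹ * (B * Real.sqrt n / 2) = B / 2 := by
        have := hsn.ne'
        field_simp
      rw [e1, mul_pow, ← Real.exp_nat_mul] at h4
      refine h4.trans ?_
      have e2 : ((2 * n - k n : ℕ) : ℝ) * (K * ((Real.sqrt n)⁻¹) ^ 2) ≤ 2 * K := by
        rw [inv_pow, Real.sq_sqrt hn.le]
        have h5 : ((2 * n - k n : ℕ) : ℝ) ≤ 2 * n := by exact_mod_cast Nat.sub_le _ _
        have h6 : ((2 * n - k n : ℕ) : ℝ) * (K * (n : ℝ)⁻¹) ≤ 2 * n * (K * (n : ℝ)⁻¹) :=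
          mul_le_mul_of_nonneg_right h5 (by positivity)
        refine h6.trans (le_of_eq ?_)
        have := hn.ne'
        field_simp
      have h7 := Real.exp_le_exp.2 e2
      rw [div_eq_mul_inv, one_div]
      refine mul_le_mul_of_nonneg_right ?_ (inv_nonneg.2 hsh.le)
      calc C1 * (Real.sqrt n)⁻¹ * (lam t ^ (2 * n - k n) *
            Real.exp (((2 * n - k n : ℕ) : ℝ) * (K * ((Real.sqrt n)⁻¹) ^ 2)))
          ≤ C1 * (Real.sqrt n)⁻¹ * (lam t ^ (2 * n - k n) * Real.exp (2 * K)) := by gcongr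
        _ = _ := by ring
    have h8 : Real.exp (-(c0 * (B * Real.sqrt n))) ≤ Real.exp (-B) := by
      refine Real.exp_le_exp.2 (neg_le_neg ?_)
      have h9 : 1 ≤ c0 * Real.sqrt n := by
        rwa [div_le_iff₀ hc0, mul_comm] at hr2
      nlinarith
    have h10 : C0 * (gsum t td n (2 * n - k n) (fun z => if B * Real.sqrt n / 2 ≤ z then 1 else 0) 0 +
        Real.exp (-(c0 * (B * Real.sqrt n))) * gsum t td n (2 * n - k n) (fun _ => 1) 0) ≤
        lam t ^ (2 * n - k n) * (Real.sqrt n)⁻¹ * (D * (1 / Real.sinh (B / 2) + Real.exp (-B))) := by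
      have hW : 0 ≤ lam t ^ (2 * n - k n) * (Real.sqrt n)⁻¹ := by positivity
      have h11 : Real.exp (-(c0 * (B * Real.sqrt n))) * gsum t td n (2 * n - k n) (fun _ => 1) 0 ≤
          Real.exp (-B) * (C2 / Real.sqrt ((2 - s) / 2) * (lam t ^ (2 * n - k n) * (Real.sqrt n)⁻¹)) := by
        refine (mul_le_mul_of_nonneg_left h2 (Real.exp_pos _).le).trans ?_
        exact mul_le_mul_of_nonneg_right h8 (by positivity)
      have h12 := mul_le_mul_of_nonneg_left (add_le_add h3 h11) hC0.le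
      refine h12.trans ?_
      set W := lam t ^ (2 * n - k n) * (Real.sqrt n)⁻¹
      have hi : 0 ≤ 1 / Real.sinh (B / 2) := by positivity
      have he : 0 ≤ Real.exp (-B) := (Real.exp_pos _).le
      have q1 : 0 ≤ C0 * (C2 / Real.sqrt ((2 - s) / 2)) * W * (1 / Real.sinh (B / 2)) := by positivity
      have q2 : 0 ≤ C0 * (C1 * Real.exp (2 * K)) * W * Real.exp (-B) := by positivity
      have q3 : W * (D * (1 / Real.sinh (B / 2) + Real.exp (-B))) =
          C0 * (C1 * Real.exp (2 * K) * W * (1 / Real.sinh (B / 2)) +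
            Real.exp (-B) * (C2 / Real.sqrt ((2 - s) / 2) * W)) +
          (C0 * (C2 / Real.sqrt ((2 - s) / 2)) * W * (1 / Real.sinh (B / 2)) +
            C0 * (C1 * Real.exp (2 * K)) * W * Real.exp (-B)) := by
        rw [hDdef]
        ring
      rw [q3]
      linarith
    refine (mul_le_mul_of_nonneg_left (mul_le_mul_of_nonneg_left h10 hpf)
      (inv_nonneg.2 hsn.le)).trans ((hpfle n hn2 hkn han _ (by positivity)).trans ?_)
    have q4 : 0 ≤ 2 / (c * t) * (2 * D) * (1 / Real.sinh (B / 2) + Real.exp (-B)) := by positivity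
    have q5 : (2 / (c * t) * D + 2 / (c * t) * (2 * D)) * (1 / Real.sinh (B / 2) + Real.exp (-B)) =
        2 / (c * t) * (D * (1 / Real.sinh (B / 2) + Real.exp (-B))) +
          2 / (c * t) * (2 * D) * (1 / Real.sinh (B / 2) + Real.exp (-B)) := by ring
    rw [q5]
    linarith

private theorem h_sinHM {θ : ℕ → ℝ} {j : ℕ → ℕ} {u : ℝ} (hθ0 : ∀ n, 0 ≤ θ n)
    (hθj : ∀ n, θ n * n = Real.pi * j n) (hθ : Tendsto (fun n : ℕ => θ n * Real.sqrt n) atTop (nhds u)) :
    Tendsto (fun n : ℕ => (Real.sqrt n)⁻¹ * ∑ y ∈ range (n + 1),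
      Real.sin (θ n * y) * uh (Real.exp (-β)) (Real.exp (-(β * J))) a k n y) atTop
        (nhds (u * Real.exp (-(sg (Real.exp (-β)) * (2 - s) * u ^ 2 / 2)))) := by
  obtain ⟨Ct, hCt, htot, -⟩ := uh_tail h0 h hm hJ ha hs hk
  obtain ⟨ht, hq, htd, htt⟩ := basicsHM h0 h hm hJ
  have ht1 := t_lt_one ht hq
  have hl := lam_pos ht ht1
  obtain ⟨Cs, hCs, hsin⟩ := lev_sin ht hq htd htt
  obtain ⟨⟨c, C, hc, hac⟩, hnrm⟩ := ha
  set t := Real.exp (-β) with htdef
  set td := Real.exp (-(β * J)) with htddef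
  have hk1 : Tendsto (fun n : ℕ => ((k n + 1 : ℕ) : ℝ) / n) atTop (nhds s) := by
    have h1 := hk.add tendsto_inv_atTop_nhds_zero_nat
    rw [add_zero] at h1
    refine h1.congr fun n => ?_
    push_cast
    rw [add_div, one_div]
  have hL : Tendsto (fun n : ℕ => ((2 * n + 1 : ℕ) : ℝ) / n) atTop (nhds 2) := by
    have h1 := (tendsto_const_nhds (x := (2 : ℝ)) (f := (atTop : Filter ℕ))).add
      tendsto_inv_atTop_nhds_zero_nat
    rw [add_zero] at h1
    refine h1.congr' ?_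
    filter_upwards [eventually_gt_atTop 0] with n hn
    have : (0 : ℝ) < n := by exact_mod_cast hn
    push_cast
    field_simp
  have hH := hh_lim ht hq hθ hk1
  have hN := hnrm θ j (fun n => 2 * n + 1) u 2 two_pos hθ0 hθj hθ hL
  have hmain := (hH.div_const t).mul hN
  have e1 : t * Real.exp (sg t * s * u ^ 2 / 2) / t * (u * Real.exp (-(sg t * 2 * u ^ 2 / 2))) =
      u * Real.exp (-(sg t * (2 - s) * u ^ 2 / 2)) := by
    rw [mul_div_cancel_left₀ _ ht.ne', mul_left_comm, ← Real.exp_add]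
    congr 2
    ring
  rw [e1] at hmain
  -- the error
  have hH0 := hH.mul (theta_zeroHM hθ)
  rw [mul_zero] at hH0
  have herr := hH0.const_mul (Cs * Ct)
  rw [mul_zero] at herr
  rw [tendsto_iff_norm_sub_tendsto_zero] at hmain ⊢
  have hsum := hmain.add herr
  rw [add_zero] at hsum
  refine squeeze_zero' (Eventually.of_forall fun n => norm_nonneg _) ?_ hsum
  filter_upwards [gapHM hs hk, hac, htot] with n ⟨hn2, hkn, hgap⟩ ⟨han, _⟩ htot
  have hn : (0 : ℝ) < n := by exact_mod_cast (by omega : 0 < n)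
  have hsn : 0 < Real.sqrt n := Real.sqrt_pos.2 hn
  have han0 : 0 < a n := lt_of_lt_of_le hc han
  have hpf := pf_nonnegHM (k := k) ht hl han0
  have hlev0 : ∀ y ≤ n, 0 ≤ lev t td n (2 * n + 1) e0 (k n) y :=
    (lev_nonneg (L := 2 * n + 1) (E := e0) ht hq htd htt.le hn2 (fun y _ => e0_nonneg y)).1 (k n)
      (by omega)
  have hHpos : 0 < Hh t (θ n) (k n + 1) := (hh_low ht hq (θ n) (k n + 1)).1
  have hs1 := (hsin n (k n) hn2 (j n) (θ n) (hθ0 n) (hθj n)).2
  have hdual := pai_dual (t := t) (td := td) (m := n) (L := 2 * n + 1) (E := e0) ht hq htd htt.le hn2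
    (show k n ≤ 2 * n + 1 by omega) (fun z => Real.sin (θ n * z))
  rw [← gsum_pai] at hdual
  unfold pai at hdual
  -- the exact identity and its error
  have hE : |∑ v : Fin (2 * n + 1), Real.sin (θ n * (ds n v : ℕ)) * lev t td n (2 * n + 1) e0 (k n) (ds n v) -
      Hh t (θ n) (k n + 1) * gsum t td n (2 * n + 1) (fun z => Real.sin (θ n * z)) 0| ≤
      Hh t (θ n) (k n + 1) * (Cs * θ n * lam t ^ (k n + 1)) *
        ∑ v : Fin (2 * n + 1), lev t td n (2 * n + 1) e0 (k n) (ds n v) := by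
    rw [← hdual, mul_sum, ← sum_sub_distrib, mul_sum]
    refine (abs_sum_le_sum_abs _ _).trans (sum_le_sum fun v _ => ?_)
    have h2 := hs1 (ds n v) (ds_le n v)
    have h3 := hlev0 (ds n v) (ds_le n v)
    have h4 : Real.sin (θ n * (ds n v : ℕ)) * lev t td n (2 * n + 1) e0 (k n) (ds n v) -
        Hh t (θ n) (k n + 1) * (gsum t td n (k n) (fun z => Real.sin (θ n * z)) (ds n v) *
          lev t td n (2 * n + 1) e0 (k n) (ds n v)) =
        -(Hh t (θ n) (k n + 1) * (gsum t td n (k n) (fun z => Real.sin (θ n * z)) (ds n v) -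
          Real.sin (θ n * (ds n v : ℕ)) / Hh t (θ n) (k n + 1)) *
            lev t td n (2 * n + 1) e0 (k n) (ds n v)) := by
      have := hHpos.ne'
      field_simp
      ring
    rw [h4, abs_neg, abs_mul, abs_mul, abs_of_pos hHpos, abs_of_nonneg h3]
    gcongr
  have hS : ∑ v : Fin (2 * n + 1), Real.sin (θ n * (ds n v : ℕ)) * lev t td n (2 * n + 1) e0 (k n) (ds n v) =
      2 * ∑ y ∈ range (n + 1), Real.sin (θ n * (y : ℕ)) * lev t td n (2 * n + 1) e0 (k n) y := by
    have h2 := sum_dsHM n (fun y => Real.sin (θ n * (y : ℕ)) * lev t td n (2 * n + 1) e0 (k n) y)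
    rw [h2]
    simp
  have hT := (range_leHM (n := n) (F := fun y => lev t td n (2 * n + 1) e0 (k n) y) hlev0).2
  -- rewrite the rescaled sums
  have h5 : (Real.sqrt n)⁻¹ * ∑ y ∈ range (n + 1), Real.sin (θ n * y) * uh t td a k n y =
      (Real.sqrt n)⁻¹ * (pfHM t a k n / 2) * ∑ v : Fin (2 * n + 1),
        Real.sin (θ n * (ds n v : ℕ)) * lev t td n (2 * n + 1) e0 (k n) (ds n v) := by
    rw [hS, mul_sum, mul_sum, mul_sum]
    refine sum_congr rfl fun y _ => ?_
    rw [uh_pfHM]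
    ring
  have h6 : Hh t (θ n) (k n + 1) * lam t ^ (k n + 1) / t *
      (Real.sqrt n * gsum t td n (2 * n + 1) (fun z => Real.sin (θ n * z)) 0 /
        (a n * lam t ^ (2 * n + 1))) =
      (Real.sqrt n)⁻¹ * (pfHM t a k n / 2) *
        (Hh t (θ n) (k n + 1) * gsum t td n (2 * n + 1) (fun z => Real.sin (θ n * z)) 0) := by
    unfold pfHM
    have e2 : lam t ^ (2 * n + 1) = lam t ^ (2 * n + 1 - k n) * lam t ^ k n := by
      rw [← pow_add]
      congr 1
      omega
    rw [e2, pow_succ]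
    have q1 := (pow_pos hl (2 * n + 1 - k n)).ne'
    have q2 := (pow_pos hl (k n)).ne'
    have q3 := hsn.ne'
    have q4 := han0.ne'
    have q5 := ht.ne'
    have q6 : (n : ℝ) = Real.sqrt n * Real.sqrt n := (Real.mul_self_sqrt hn.le).symm
    field_simp
    rw [q6]
    ring_nf
    rw [Real.sqrt_sq hsn.le]
  have h7 : 0 ≤ (Real.sqrt n)⁻¹ * (pfHM t a k n / 2) := by positivity
  have h8 : |(Real.sqrt n)⁻¹ * (pfHM t a k n / 2) * ∑ v : Fin (2 * n + 1),
        Real.sin (θ n * (ds n v : ℕ)) * lev t td n (2 * n + 1) e0 (k n) (ds n v) -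
      (Real.sqrt n)⁻¹ * (pfHM t a k n / 2) *
        (Hh t (θ n) (k n + 1) * gsum t td n (2 * n + 1) (fun z => Real.sin (θ n * z)) 0)| ≤
      Cs * Ct * (Hh t (θ n) (k n + 1) * lam t ^ (k n + 1) * θ n) := by
    rw [← mul_sub, abs_mul, abs_of_nonneg h7]
    have h9 : ∑ y ∈ range (n + 1), uh t td a k n y =
        pfHM t a k n * ∑ y ∈ range (n + 1), lev t td n (2 * n + 1) e0 (k n) y := by
      rw [mul_sum]
      exact sum_congr rfl fun y _ => uh_pfHM ..
    rw [h9] at htot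
    have h10 : 0 ≤ Hh t (θ n) (k n + 1) * (Cs * θ n * lam t ^ (k n + 1)) := by
      have := hθ0 n
      positivity
    calc (Real.sqrt n)⁻¹ * (pfHM t a k n / 2) * |∑ v : Fin (2 * n + 1),
          Real.sin (θ n * (ds n v : ℕ)) * lev t td n (2 * n + 1) e0 (k n) (ds n v) -
          Hh t (θ n) (k n + 1) * gsum t td n (2 * n + 1) (fun z => Real.sin (θ n * z)) 0|
        ≤ (Real.sqrt n)⁻¹ * (pfHM t a k n / 2) *
          (Hh t (θ n) (k n + 1) * (Cs * θ n * lam t ^ (k n + 1)) *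
            (2 * ∑ y ∈ range (n + 1), lev t td n (2 * n + 1) e0 (k n) y)) :=
          mul_le_mul_of_nonneg_left (hE.trans (mul_le_mul_of_nonneg_left hT h10)) h7
      _ = Hh t (θ n) (k n + 1) * (Cs * θ n * lam t ^ (k n + 1)) *
          ((Real.sqrt n)⁻¹ * (pfHM t a k n * ∑ y ∈ range (n + 1), lev t td n (2 * n + 1) e0 (k n) y)) := by
          ring
      _ ≤ Hh t (θ n) (k n + 1) * (Cs * θ n * lam t ^ (k n + 1)) * Ct :=
          mul_le_mul_of_nonneg_left htot h10
      _ = _ := by ring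
  rw [← h6] at h8
  rw [h5, Real.norm_eq_abs, Real.norm_eq_abs]
  have h11 := abs_sub_le ((Real.sqrt n)⁻¹ * (pfHM t a k n / 2) * ∑ v : Fin (2 * n + 1),
        Real.sin (θ n * (ds n v : ℕ)) * lev t td n (2 * n + 1) e0 (k n) (ds n v))
    (Hh t (θ n) (k n + 1) * lam t ^ (k n + 1) / t *
      (Real.sqrt n * gsum t td n (2 * n + 1) (fun z => Real.sin (θ n * z)) 0 /
        (a n * lam t ^ (2 * n + 1)))) (u * Real.exp (-(sg t * (2 - s) * u ^ 2 / 2)))
  refine h11.trans ?_
  rw [add_comm]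
  exact add_le_add le_rfl h8

theorem h_meas {f : ℝ → ℝ} (hf : Cz f) : Tendsto (fun n : ℕ => (Real.sqrt n)⁻¹ * ∑ y ∈ range (n + 1),
    f (y / Real.sqrt n) * uh (Real.exp (-β)) (Real.exp (-(β * J))) a k n y) atTop
      (nhds (La (sg (Real.exp (-β)) * (2 - s)) f)) := by
  obtain ⟨Ct, hCt, htot, htl⟩ := uh_tail h0 h hm hJ ha hs hk
  obtain ⟨Cp, hCp, hpt⟩ := uh_pt h0 h hm hJ ha hs hk
  obtain ⟨ht, hq, htd, htt⟩ := basicsHM h0 h hm hJ
  have ht1 := t_lt_one ht hq
  have hl := lam_pos ht ht1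
  have hl1 := lam_lt_one ht hq
  have hsin := fun {θ : ℕ → ℝ} {j : ℕ → ℕ} {u : ℝ} => h_sinHM h0 h hm hJ ha hs hk (θ := θ) (j := j) (u := u)
  set t := Real.exp (-β) with htdef
  set td := Real.exp (-(β * J)) with htddef
  obtain ⟨v, hvdef⟩ : ∃ v, v = sg t * (2 - s) := ⟨_, rfl⟩
  have hv : 0 < v := by
    rw [hvdef]
    unfold sg
    have h1 : 0 < 1 - lam t ^ 2 := by nlinarith
    have h2 : 0 < 2 - s := by linarith
    positivity
  rw [← hvdef] at hsin ⊢
  obtain ⟨B₀, hB₀⟩ := (cz_bz hf).bdd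
  obtain ⟨B, hBdef⟩ : ∃ B, B = max B₀ 1 := ⟨_, rfl⟩
  have hB : ∀ z, 0 ≤ z → |f z| ≤ B := fun z hz => (hB₀ z hz).trans (by rw [hBdef]; exact le_max_left _ _)
  have hB1 : 1 ≤ B := by rw [hBdef]; exact le_max_right _ _
  have hsv : 0 < Real.sqrt v := Real.sqrt_pos.2 hv
  rw [Metric.tendsto_nhds]
  intro ε hε
  -- choice of the parameters
  obtain ⟨δ, hδ0, hδ1, hδε⟩ : ∃ δ : ℝ, 0 < δ ∧ δ ≤ 1 ∧ 2 * δ * Ct + δ / Real.sqrt v ≤ ε / 4 := by
    have hD : 0 < 2 * Ct + 1 / Real.sqrt v := by positivity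
    refine ⟨min 1 (ε / 4 / (2 * Ct + 1 / Real.sqrt v)), lt_min one_pos (by positivity),
      min_le_left _ _, ?_⟩
    have h1 : min 1 (ε / 4 / (2 * Ct + 1 / Real.sqrt v)) ≤ ε / 4 / (2 * Ct + 1 / Real.sqrt v) :=
      min_le_right _ _
    rw [le_div_iff₀ hD] at h1
    refine le_trans (le_of_eq ?_) h1
    ring
  have hlimA : Tendsto (fun A : ℝ => 3 * B * (Ct * (1 / Real.sinh (A / 2) + Real.exp (-A)) +
      ∫ z in Set.Ioi A, rho v z)) atTop (nhds 0) := by
    have h1 : Tendsto (fun A : ℝ => 1 / Real.sinh (A / 2)) atTop (nhds 0) := by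
      have h2 : Tendsto (fun A : ℝ => Real.sinh (A / 2)) atTop atTop := by
        refine tendsto_atTop_mono' atTop ?_ (tendsto_id.atTop_div_const (two_pos (α := ℝ)))
        filter_upwards [eventually_ge_atTop 0] with A hA
        exact Real.self_le_sinh_iff.2 (by simp only [id]; positivity)
      simpa only [one_div, Function.comp_def] using tendsto_inv_atTop_zero.comp h2
    have h2 : Tendsto (fun A : ℝ => Real.exp (-A)) atTop (nhds 0) := Real.tendsto_exp_neg_atTop_nhds_zero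
    have h3 := (((h1.add h2).const_mul Ct).add (tailHM hv)).const_mul (3 * B)
    rw [add_zero, add_zero, mul_zero, mul_zero] at h3
    exact h3
  obtain ⟨A₀, hA₀⟩ := eventually_atTop.1 (hlimA.eventually (gt_mem_nhds (show 0 < ε / 4 by positivity)))
  obtain ⟨A, K, c, hA1, hAA, happ, hpb⟩ := trig_approx hf hB hδ0 A₀
  have hAε := hA₀ A hAA
  have hA0 : 0 < A := by linarith
  obtain ⟨θ, i, hθ0, hθi, hθ⟩ := freq_exists hA1
  -- the limit for the sine polynomial
  have hpoly : Tendsto (fun n : ℕ => (Real.sqrt n)⁻¹ * ∑ y ∈ range (n + 1),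
      spHM K c (fun j => j * θ n) y * uh t td a k n y) atTop
        (nhds (La v (spHM K c (fun j => j * (Real.pi / A))))) := by
    rw [la_spHM hv]
    have h1 : ∀ j : ℕ, Tendsto (fun n : ℕ => c j * ((Real.sqrt n)⁻¹ * ∑ y ∈ range (n + 1),
        Real.sin (j * θ n * y) * uh t td a k n y)) atTop
        (nhds (c j * (j * (Real.pi / A) * Real.exp (-(v * (j * (Real.pi / A)) ^ 2 / 2))))) := by
      intro j
      refine Tendsto.const_mul (c j) (hsin (θ := fun n => j * θ n) (j := fun n => j * i n)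
        (fun n => mul_nonneg (Nat.cast_nonneg j) (hθ0 n)) (fun n => ?_) ?_)
      · push_cast
        rw [mul_assoc, hθi n]
        ring
      · refine (hθ.const_mul (j : ℝ)).congr fun n => ?_
        ring
    refine (tendsto_finsetSum (range K) fun j _ => h1 j).congr fun n => ?_
    have h2 : ∀ y : ℕ, spHM K c (fun j => j * θ n) y * uh t td a k n y =
        ∑ j ∈ range K, c j * (Real.sin (j * θ n * y) * uh t td a k n y) := by
      intro y
      unfold spHM
      rw [sum_mul]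
      exact sum_congr rfl fun j _ => by ring
    simp only [h2]
    rw [sum_comm, mul_sum]
    refine sum_congr rfl fun j _ => ?_
    rw [← mul_sum]
    ring
  -- comparison of the sine polynomials
  have hMsum : Tendsto (fun n : ℕ => A * (∑ j ∈ range K, |c j| * j) * |θ n * Real.sqrt n - Real.pi / A|) atTop
      (nhds 0) := by
    have h1 := ((hθ.sub_const (Real.pi / A)).abs).const_mul (A * ∑ j ∈ range K, |c j| * j)
    rw [sub_self, abs_zero, mul_zero] at h1
    exact h1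
  have hLa : |La v f - La v (spHM K c (fun j => j * (Real.pi / A)))| ≤
      δ / Real.sqrt v + 3 * B * ∫ z in Set.Ioi A, rho v z := by
    refine la_diffHM hv hf.cont.measurable (sp_measHM _ _ _) hA0.le (by positivity) hδ0.le
      (fun z hz => hB z hz.le) (fun z _ => hpb z) (fun z hz hzA => happ z hz.le hzA) ?_
    intro z hz
    have h1 := hB z (by linarith)
    have h2 := hpb z
    have h3 : |f z - spHM K c (fun j => j * (Real.pi / A)) z| ≤
        |f z| + |spHM K c (fun j => j * (Real.pi / A)) z| := abs_sub _ _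
    have h4 : |spHM K c (fun j => j * (Real.pi / A)) z| ≤ B + δ := h2
    linarith
  filter_upwards [gapHM hs hk, htot, htl A hA0, hpt, hMsum.eventually (gt_mem_nhds hδ0),
    (Metric.tendsto_nhds.1 hpoly) (ε / 4) (by positivity)] with n ⟨hn2, _, _⟩ h1 h2 h3 h4 h5
  have hn : (0 : ℝ) < n := by exact_mod_cast (by omega : 0 < n)
  have hsn : 0 < Real.sqrt n := Real.sqrt_pos.2 hn
  -- pointwise comparison
  have hcmp : ∀ y : ℕ, |f (y / Real.sqrt n) - spHM K c (fun j => j * θ n) y| ≤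
      2 * δ + 3 * B * (if A * Real.sqrt n ≤ y then 1 else 0) := by
    intro y
    have hy0 : (0 : ℝ) ≤ y := Nat.cast_nonneg y
    split_ifs with hyA
    · have e1 : spHM K c (fun j => j * θ n) y =
          ∑ j ∈ range K, c j * Real.sin (j * (Real.pi / A) * (A * θ n * y / Real.pi)) := by
        unfold spHM
        refine sum_congr rfl fun j _ => ?_
        congr 2
        have := Real.pi_ne_zero
        field_simp
      have e2 := hpb (A * θ n * y / Real.pi)
      rw [← e1] at e2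
      have e3 := hB (y / Real.sqrt n) (by positivity)
      have e4 := abs_sub (f (y / Real.sqrt n)) (spHM K c (fun j => j * θ n) y)
      linarith
    · have hy1 : y / Real.sqrt n ≤ A := by
        rw [div_le_iff₀ hsn]
        exact (not_le.1 hyA).le
      have e1 := happ (y / Real.sqrt n) (by positivity) hy1
      have e2 : |∑ j ∈ range K, c j * Real.sin (j * (Real.pi / A) * (y / Real.sqrt n)) -
          spHM K c (fun j => j * θ n) y| ≤
          A * (∑ j ∈ range K, |c j| * j) * |θ n * Real.sqrt n - Real.pi / A| := by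
        unfold spHM
        rw [← sum_sub_distrib]
        refine (abs_sum_le_sum_abs _ _).trans ?_
        rw [mul_sum, sum_mul]
        refine sum_le_sum fun j _ => ?_
        rw [← mul_sub, abs_mul]
        have e3 : |Real.sin (j * (Real.pi / A) * (y / Real.sqrt n)) - Real.sin (j * θ n * y)| ≤
            |j * (Real.pi / A) * (y / Real.sqrt n) - j * θ n * y| := Real.abs_sin_sub_sin_le _ _
        have e4 : (j : ℝ) * (Real.pi / A) * (y / Real.sqrt n) - j * θ n * y =
            -(j * (y / Real.sqrt n) * (θ n * Real.sqrt n - Real.pi / A)) := by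
          have := hsn.ne'
          field_simp
          ring
        rw [e4, abs_neg, abs_mul, abs_of_nonneg (by positivity : (0 : ℝ) ≤ j * (y / Real.sqrt n))] at e3
        refine (mul_le_mul_of_nonneg_left e3 (abs_nonneg _)).trans ?_
        have e5 : (j : ℝ) * (y / Real.sqrt n) ≤ j * A := mul_le_mul_of_nonneg_left hy1 (Nat.cast_nonneg j)
        calc |c j| * (j * (y / Real.sqrt n) * |θ n * Real.sqrt n - Real.pi / A|)
            ≤ |c j| * (j * A * |θ n * Real.sqrt n - Real.pi / A|) := by gcongr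
          _ = _ := by ring
      have e3 := abs_sub_le (f (y / Real.sqrt n))
        (∑ j ∈ range K, c j * Real.sin (j * (Real.pi / A) * (y / Real.sqrt n)))
        (spHM K c (fun j => j * θ n) y)
      linarith
  have hdiff : |(Real.sqrt n)⁻¹ * ∑ y ∈ range (n + 1), f (y / Real.sqrt n) * uh t td a k n y -
      (Real.sqrt n)⁻¹ * ∑ y ∈ range (n + 1), spHM K c (fun j => j * θ n) y * uh t td a k n y| ≤
      2 * δ * Ct + 3 * B * (Ct * (1 / Real.sinh (A / 2) + Real.exp (-A))) := by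
    rw [← mul_sub, ← sum_sub_distrib, abs_mul, abs_of_pos (inv_pos.2 hsn)]
    have g1 : |∑ y ∈ range (n + 1), (f (y / Real.sqrt n) * uh t td a k n y -
        spHM K c (fun j => j * θ n) y * uh t td a k n y)| ≤
        2 * δ * ∑ y ∈ range (n + 1), uh t td a k n y +
        3 * B * ∑ y ∈ range (n + 1), (if A * Real.sqrt n ≤ y then uh t td a k n y else 0) := by
      refine (abs_sum_le_sum_abs _ _).trans ?_
      rw [mul_sum, mul_sum, ← sum_add_distrib]
      refine sum_le_sum fun y hy => ?_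
      have hy : y ≤ n := by
        rw [mem_range] at hy
        omega
      have g2 := (h3 y hy).1
      rw [← sub_mul, abs_mul, abs_of_nonneg g2]
      refine (mul_le_mul_of_nonneg_right (hcmp y) g2).trans (le_of_eq ?_)
      split_ifs <;> ring
    have g3 := mul_le_mul_of_nonneg_left g1 (inv_pos.2 hsn).le
    have g4 := mul_le_mul_of_nonneg_left h1 (show 0 ≤ 2 * δ by positivity)
    have g5 := mul_le_mul_of_nonneg_left h2 (show 0 ≤ 3 * B by positivity)
    refine g3.trans ?_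
    refine le_trans (le_of_eq ?_) (add_le_add g4 g5)
    ring
  rw [Real.dist_eq] at h5 ⊢
  have k1 := abs_sub_le ((Real.sqrt n)⁻¹ * ∑ y ∈ range (n + 1), f (y / Real.sqrt n) * uh t td a k n y)
    ((Real.sqrt n)⁻¹ * ∑ y ∈ range (n + 1), spHM K c (fun j => j * θ n) y * uh t td a k n y) (La v f)
  have k2 := abs_sub_le ((Real.sqrt n)⁻¹ * ∑ y ∈ range (n + 1), spHM K c (fun j => j * θ n) y * uh t td a k n y)
    (La v (spHM K c (fun j => j * (Real.pi / A)))) (La v f)
  rw [abs_sub_comm] at hLa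
  have k3 : 3 * B * (Ct * (1 / Real.sinh (A / 2) + Real.exp (-A)) + ∫ z in Set.Ioi A, rho v z) =
      3 * B * (Ct * (1 / Real.sinh (A / 2) + Real.exp (-A))) + 3 * B * ∫ z in Set.Ioi A, rho v z := by ring
  linarith

end

end Pool.Agent.Helper49.RD
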