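import Pool.Agent.Helper49.RD.LevB

/-!
Block RD-RA: the levels of the source in the middle row, divided by the height, are decreasing up to an exponentially small error.

Paper proof. `p = plev t td m L e0` (`lev_sol`), `λ = lam t`, `M = m / 2` (floor), `m ≥ 3`. From `lev_exp` with a fixed small `ε > 0` such that `12 K ε ≤ 1`:
`p k y ≤ δ λ^(L + 1 - k)` for `y = M + 2 ≥ m/2` and all `k ≤ L + 1`, `δ = C' e^{-ε m/4}` (`e0 ≤ e^{-ε ·}`; `k ≥ 1`: `lev`; `k = 0`: `gsum` and `t ≤ λ`,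
`L ≤ 3 m`; `e^{-ε m/2 + 3 K ε² m} ≤ e^{-ε m/4}`). For `1 ≤ y ≤ M + 1`, `k ≤ L + 1` let
`D k y = p k y / y - p k (y + 1)/(y + 1) + δ λ^(L+1-k)`. Claim `D ≥ 0`. `D k (M + 1) ≥ 0` by the choice of `δ` (`p ≥ 0`, `lev_nonneg`). `D (L + 1) y ≥ 0` (`Sol.src`, `e0 y = 0` for
`y ≥ 1`). As in `f_ratio` (`DX/Fmp.lean`, `key_fmp1`) for `1 ≤ y ≤ M`, `k < L` (with `A2 > 4`, `A2 = 1/λ + λ + 2`)
`A2 D (k+1) y + 1/(y (y+1)) (D (k+1) y - δ λ^(L-k)) ≥ D (k+2) y + D k y + ...`; the constants `δ λ^(L+1-k)` solve the level equations with the sum `2` of the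
coefficients of the neighbours, so they drop out, and at a negative minimum `-μ` of `D` one gets `A2 μ ≤ 4 μ`; on the level `0` one gets `ch μ ≤ (sh + t) μ`
(`ch - sh = t/λ`). For `y = 1` the additional terms `θ p (k+1) 0` and `t g 0` are nonnegative. Multiply by `y (y + 1) ≤ m²` and absorb `m²` in the exponential.
`m = 2`: `lev_one`.
-/

open Finset

namespace Pool.Agent.Helper49.RD

open Pool.Agent.Helper49.DL Pool.Agent.Helper49.DX

private theorem key_rdra {x a b b2 z m : ℝ} (hx : 1 ≤ x) (hm : 0 ≤ m) (hK : a / x - b / (x + 1) = -m)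
    (h1 : -m ≤ b / (x + 1) - b2 / (x + 2)) (h2 : -((x - 1) / x * m) ≤ z / x - (x - 1) / x * (a / x)) :
    -(2 * m) ≤ b / x - b2 / (x + 1) + (z / x - a / (x + 1)) := by
  have hx0 : 0 < x := by linarith
  have key : b / x - b2 / (x + 1) + (z / x - a / (x + 1)) = (x + 2) / (x + 1) * (b / (x + 1) - b2 / (x + 2)) +
      (z / x - (x - 1) / x * (a / x)) - 1 / (x * (x + 1)) * (a / x - b / (x + 1)) := by
    field_simp
    ring
  rw [key, hK]
  have h3 : (x + 2) / (x + 1) * (-m) ≤ (x + 2) / (x + 1) * (b / (x + 1) - b2 / (x + 2)) :=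
    mul_le_mul_of_nonneg_left h1 (by positivity)
  have h4 : (x + 2) / (x + 1) * (-m) + -((x - 1) / x * m) - 1 / (x * (x + 1)) * (-m) =
      -(2 * m) + 2 * (1 / (x * (x + 1))) * m := by
    field_simp
    ring
  have h5 : 0 ≤ 2 * (1 / (x * (x + 1))) * m := by positivity
  linarith

/-- The minimum principle for the ratios. -/
private theorem core_rdra {t : ℝ} (ht : 0 < t) (hq : t ^ 2 + 2 * t < 1) {L M : ℕ} {F : ℕ → ℕ → ℝ} {δ : ℝ}
    (hδ : 0 ≤ δ) (hnn : ∀ k ≤ L + 1, ∀ j ≤ M + 1, 0 ≤ F k j)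
    (hsrc : ∀ j, 1 ≤ j → j ≤ M + 2 → F (L + 1) j = 0)
    (hend : ∀ k ≤ L + 1, F k (M + 2) / ((M : ℝ) + 2) ≤ δ * lam t ^ (L + 1 - k))
    (hbulk : ∀ k j, k < L → 1 ≤ j → j ≤ M + 1 →
      A2 t * F (k + 1) j = F (k + 2) j + F k j + (F (k + 1) (j + 1) + F (k + 1) (j - 1)))
    (hbot : ∀ j, 1 ≤ j → j ≤ M + 1 →
      chh t * F 0 j = shh t / 2 * (F 0 (j + 1) + F 0 (j - 1)) + t * F 1 j) :
    ∀ k ≤ L + 1, ∀ j : ℕ, 1 ≤ j → j ≤ M →
      (j : ℝ) * F k (j + 1) ≤ ((j : ℝ) + 1) * F k j + (j : ℝ) * ((j : ℝ) + 1) * (δ * lam t ^ (L + 1 - k)) := by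
  have ht1 := t_lt_one ht hq
  have hA := A2_gt ht hq
  have hAe := A2_eq ht ht1
  have hch := ch_gt ht hq
  have hcs := ch_sub_sh' ht ht1
  have hsh := (shh_pos ht ht1).le
  have hl0 := lam_pos ht ht1
  have key := minp (I := Fin (L + 2) × Fin (M + 1))
    (fun i => F i.1 ((i.2 : ℕ) + 1) / (((i.2 : ℕ) : ℝ) + 1) - F i.1 ((i.2 : ℕ) + 2) / (((i.2 : ℕ) : ℝ) + 2) +
      δ * lam t ^ (L + 1 - (i.1 : ℕ)))
    (fun _ => 1) (fun _ => one_pos) (fun _ _ => Set.toFinite _) ?_
  · intro k hk j hj hjM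
    obtain ⟨n, rfl⟩ : ∃ n, j = n + 1 := ⟨j - 1, by omega⟩
    have h1 := key (⟨k, by omega⟩, ⟨n, by omega⟩)
    simp only at h1
    have h2 : ((n : ℝ) + 1) * ((n : ℝ) + 2) * (F k (n + 1) / ((n : ℝ) + 1) - F k (n + 2) / ((n : ℝ) + 2) +
        δ * lam t ^ (L + 1 - k)) = ((n : ℝ) + 2) * F k (n + 1) - ((n : ℝ) + 1) * F k (n + 2) +
        ((n : ℝ) + 1) * ((n : ℝ) + 2) * (δ * lam t ^ (L + 1 - k)) := by
      field_simp
    have h3 := mul_nonneg (show (0 : ℝ) ≤ ((n : ℝ) + 1) * ((n : ℝ) + 2) by positivity) h1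
    rw [h2] at h3
    push_cast
    have e1 : (n : ℝ) + 1 + 1 = (n : ℝ) + 2 := by ring
    rw [e1]
    linarith
  · rintro μ hμ ⟨⟨k, hk⟩, ⟨n, hn⟩⟩ hD hall
    simp only [mul_one] at hD
    have hall' : ∀ k' ≤ L + 1, ∀ n' ≤ M, -(μ + δ * lam t ^ (L + 1 - k')) ≤
        F k' (n' + 1) / ((n' : ℝ) + 1) - F k' (n' + 2) / ((n' : ℝ) + 2) := by
      intro k' hk' n' hn'
      have h1 := hall (⟨k', by omega⟩, ⟨n', by omega⟩)
      simp only [mul_one] at h1
      linarith
    have hE : ∀ i : ℕ, 0 ≤ δ * lam t ^ i := fun i => mul_nonneg hδ (pow_nonneg hl0.le _)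
    -- the top of the window
    rcases Nat.lt_or_ge n M with hnM | hnM
    swap
    · have e : n = M := by omega
      subst e
      have h1 := hend k (by omega)
      have h2 : 0 ≤ F k (n + 1) / ((n : ℝ) + 1) := div_nonneg (hnn k (by omega) _ le_rfl) (by positivity)
      linarith
    rcases Nat.lt_or_ge L k with hkL | hkL
    · have e : k = L + 1 := by omega
      subst e
      rw [hsrc (n + 1) (by omega) (by omega), hsrc (n + 2) (by omega) (by omega)] at hD
      have h1 := hE (L + 1 - (L + 1))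
      simp only [zero_div, sub_zero, zero_add] at hD
      linarith
    have hx1 : (1 : ℝ) ≤ (n : ℝ) + 1 := by
      have := Nat.cast_nonneg (α := ℝ) n
      linarith
    have hx0 : (0 : ℝ) < (n : ℝ) + 1 := by linarith
    have e1 : (n : ℝ) + 1 + 1 = (n : ℝ) + 2 := by ring
    set E : ℝ := δ * lam t ^ (L + 1 - k) with hEdef
    have hE0 : 0 ≤ E := hE _
    have hz : -(((n : ℝ) + 1 - 1) / ((n : ℝ) + 1) * (μ + E)) ≤
        F k n / ((n : ℝ) + 1) - ((n : ℝ) + 1 - 1) / ((n : ℝ) + 1) * (F k (n + 1) / ((n : ℝ) + 1)) := by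
      rw [add_sub_cancel_right]
      rcases Nat.eq_zero_or_pos n with rfl | h0
      · have h1 := hnn k (by omega) 0 (by omega)
        simp only [Nat.cast_zero, zero_mul, sub_zero, neg_zero, zero_add, div_one]
        exact h1
      · obtain ⟨n', rfl⟩ : ∃ n', n = n' + 1 := ⟨n - 1, by omega⟩
        have h1 : -(μ + E) ≤ F k (n' + 1) / ((n' : ℝ) + 1) - F k (n' + 2) / ((n' : ℝ) + 2) :=
          hall' k (by omega) n' (by omega)
        push_cast
        have e2 : (n' : ℝ) + 1 + 1 = (n' : ℝ) + 2 := by ring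
        rw [e2]
        have h2 : ((n' : ℝ) + 1) / ((n' : ℝ) + 2) * (-(μ + E)) ≤ ((n' : ℝ) + 1) / ((n' : ℝ) + 2) *
            (F k (n' + 1) / ((n' : ℝ) + 1) - F k (n' + 2) / ((n' : ℝ) + 2)) :=
          mul_le_mul_of_nonneg_left h1 (by positivity)
        have h3 : ((n' : ℝ) + 1) / ((n' : ℝ) + 2) * (F k (n' + 1) / ((n' : ℝ) + 1)) =
            F k (n' + 1) / ((n' : ℝ) + 2) := by
          field_simp
        have h4 : n' + 1 + 1 = n' + 2 := rfl
        rw [h4]
        rw [mul_sub, h3] at h2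
        linarith
    have hK : F k (n + 1) / ((n : ℝ) + 1) - F k (n + 2) / ((n : ℝ) + 2) = -(μ + E) := by linarith
    have hs := key_rdra (x := (n : ℝ) + 1) (a := F k (n + 1)) (b := F k (n + 2)) (b2 := F k (n + 3))
      (z := F k n) (m := μ + E) hx1 (by linarith) (by rw [e1]; exact hK) (by
        have h1 := hall' k (by omega) (n + 1) (by omega)
        push_cast at h1
        exact h1) hz
    rw [e1] at hs
    rcases Nat.eq_zero_or_pos k with rfl | h2
    · have b1 := hbot (n + 1) (by omega) (by omega)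
      have b2 := hbot (n + 2) (by omega) (by omega)
      rw [show n + 1 - 1 = n by omega, show n + 1 + 1 = n + 2 by omega] at b1
      rw [show n + 2 - 1 = n + 1 by omega, show n + 2 + 1 = n + 3 by omega] at b2
      have h3 := hall' 1 (by omega) n (by omega)
      have h4 : chh t * (F 0 (n + 1) / ((n : ℝ) + 1) - F 0 (n + 2) / ((n : ℝ) + 2)) =
          shh t / 2 * (F 0 (n + 2) / ((n : ℝ) + 1) - F 0 (n + 3) / ((n : ℝ) + 2) +
            (F 0 n / ((n : ℝ) + 1) - F 0 (n + 1) / ((n : ℝ) + 2))) +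
          t * (F 1 (n + 1) / ((n : ℝ) + 1) - F 1 (n + 2) / ((n : ℝ) + 2)) := by
        calc _ = (chh t * F 0 (n + 1)) / ((n : ℝ) + 1) - (chh t * F 0 (n + 2)) / ((n : ℝ) + 2) := by ring
          _ = _ := by
            rw [b1, b2]
            ring
      rw [hK] at h4
      have h5 : shh t / 2 * (-(2 * (μ + E))) ≤ shh t / 2 * (F 0 (n + 2) / ((n : ℝ) + 1) -
          F 0 (n + 3) / ((n : ℝ) + 2) + (F 0 n / ((n : ℝ) + 1) - F 0 (n + 1) / ((n : ℝ) + 2))) :=
        mul_le_mul_of_nonneg_left hs (by positivity)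
      have h6 := mul_le_mul_of_nonneg_left h3 ht.le
      have h7 : t * (δ * lam t ^ (L + 1 - 1)) = (chh t - shh t) * E := by
        rw [hcs, hEdef, Nat.add_sub_cancel, Nat.sub_zero, pow_succ]
        field_simp
      have h8 : 0 < (chh t - (shh t + t)) * μ := mul_pos (by linarith) hμ
      have h9 : t * (-(μ + δ * lam t ^ (L + 1 - 1))) = -(t * μ) - (chh t - shh t) * E := by
        rw [← h7]; ring
      rw [h9] at h6
      nlinarith
    · obtain ⟨k', rfl⟩ : ∃ k', k = k' + 1 := ⟨k - 1, by omega⟩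
      have b1 := hbulk k' (n + 1) (by omega) (by omega) (by omega)
      have b2 := hbulk k' (n + 2) (by omega) (by omega) (by omega)
      rw [show n + 1 - 1 = n by omega, show n + 1 + 1 = n + 2 by omega] at b1
      rw [show n + 2 - 1 = n + 1 by omega, show n + 2 + 1 = n + 3 by omega] at b2
      have h3 := hall' (k' + 2) (by omega) n (by omega)
      have h3' := hall' k' (by omega) n (by omega)
      have h4 : A2 t * (F (k' + 1) (n + 1) / ((n : ℝ) + 1) - F (k' + 1) (n + 2) / ((n : ℝ) + 2)) =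
          (F (k' + 2) (n + 1) / ((n : ℝ) + 1) - F (k' + 2) (n + 2) / ((n : ℝ) + 2)) +
          (F k' (n + 1) / ((n : ℝ) + 1) - F k' (n + 2) / ((n : ℝ) + 2)) +
          (F (k' + 1) (n + 2) / ((n : ℝ) + 1) - F (k' + 1) (n + 3) / ((n : ℝ) + 2) +
            (F (k' + 1) n / ((n : ℝ) + 1) - F (k' + 1) (n + 1) / ((n : ℝ) + 2))) := by
        calc _ = (A2 t * F (k' + 1) (n + 1)) / ((n : ℝ) + 1) - (A2 t * F (k' + 1) (n + 2)) / ((n : ℝ) + 2) := by
              ring
          _ = _ := by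
            rw [b1, b2]
            ring
      rw [hK] at h4
      have hk1 : L + 1 - (k' + 1) = L - k' := by omega
      have hk2 : L + 1 - (k' + 2) = L - k' - 1 := by omega
      have hk3 : L + 1 - k' = L - k' + 1 := by omega
      have hk4 : L - k' = L - k' - 1 + 1 := by omega
      have h7 : δ * lam t ^ (L + 1 - (k' + 2)) + δ * lam t ^ (L + 1 - k') + 2 * E = A2 t * E := by
        rw [hEdef, hk1, hk2, hk3, hAe]
        rw [show lam t ^ (L - k' + 1) = lam t ^ (L - k') * lam t from pow_succ _ _]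
        rw [show lam t ^ (L - k') = lam t ^ (L - k' - 1) * lam t from by
          conv_lhs => rw [hk4, pow_succ]]
        field_simp
      have h8 : 0 < (A2 t - 4) * μ := mul_pos (by linarith) hμ
      nlinarith

private lemma exp_sq_rdra {x : ℝ} (hx : 0 ≤ x) : x ^ 2 ≤ 2 * Real.exp x := by
  have h := Real.quadratic_le_exp_of_nonneg hx
  nlinarith

theorem lev_ratio {t td : ℝ} (ht : 0 < t) (hq : t ^ 2 + 2 * t < 1) (htd : 0 < td) (htt : td < t) :
    ∃ C c : ℝ, 0 < C ∧ 0 < c ∧ ∀ m L : ℕ, 2 ≤ m → L ≤ 3 * m → ∀ k ≤ L, ∀ y : ℕ, 1 ≤ y → 2 * y ≤ m →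
      y * lev t td m L e0 k (y + 1) ≤ ((y : ℝ) + 1) * lev t td m L e0 k y +
        C * Real.exp (-(c * m)) * lam t ^ (L - k) := by
  obtain ⟨C1, K, ε₀, hC1, hK, hε0, hε1, hexp⟩ := lev_exp ht hq htd htt
  obtain ⟨C2, hC2, hone⟩ := lev_one ht hq htd htt
  have ht1 := t_lt_one ht hq
  have htd1 : td < 1 := by linarith
  have hl0 := lam_pos ht ht1
  have htl : t ≤ lam t := by
    rw [lam_eq ht1]
    have : 0 ≤ 2 * t ^ 2 / (1 - t) := div_nonneg (by positivity) (by linarith)
    linarith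
  have hth1 := the_ge_one (t := t) (td := td) ht ht1 htd htt.le
  set ε : ℝ := min ε₀ (1 / (12 * K)) with hεdef
  have hε : 0 < ε := lt_min hε0 (by positivity)
  have hεa : |ε| ≤ ε₀ := by
    rw [abs_of_pos hε]
    exact min_le_left _ _
  have hεK : 12 * K * ε ≤ 1 := by
    have h1 : ε ≤ 1 / (12 * K) := min_le_right _ _
    rw [le_div_iff₀ (by positivity)] at h1
    linarith
  have hεK2 : 3 * K * ε ^ 2 ≤ ε / 4 := by nlinarith
  refine ⟨128 / ε ^ 2 * C1 + C2 * Real.exp (ε / 8 * 2), ε / 8, by positivity, by positivity, ?_⟩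
  intro m L hm hL k hk y hy hym
  -- the source
  have he0 : ∀ z : ℕ, e0 z ≤ Real.exp (-(ε * z)) := by
    intro z
    unfold e0
    split_ifs with h
    · subst h; simp
    · exact (Real.exp_pos _).le
  have he1 : ∀ z : ℕ, e0 z ≤ 1 := by
    intro z
    unfold e0
    split_ifs <;> norm_num
  have hnn := lev_nonneg (L := L) ht hq htd htt.le hm (E := e0) (fun y _ => e0_nonneg y)
  have hpk : 0 ≤ lam t ^ (L - k) := pow_nonneg hl0.le _
  rcases Nat.lt_or_ge m 3 with hm3 | hm3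
  · -- `m = 2`
    have hm2 : m = 2 := by omega
    subst hm2
    have hy1 : y = 1 := by omega
    subst hy1
    have h1 := (lev_mono (L := L) ht hq htd htt.le hm (E := e0) (F := fun _ => 1)
      (fun y _ => he1 y)).1 k hk 2 le_rfl
    have h2 := (hone 2 hm L).1 k hk 2 le_rfl
    have h3 := hnn.1 k hk 1 (by norm_num)
    have h4 : C2 * lam t ^ (L - k) ≤ (128 / ε ^ 2 * C1 + C2 * Real.exp (ε / 8 * 2)) *
        Real.exp (-(ε / 8 * (2 : ℕ))) * lam t ^ (L - k) := by
      apply mul_le_mul_of_nonneg_right _ hpk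
      rw [add_mul]
      have h5 : C2 * Real.exp (ε / 8 * 2) * Real.exp (-(ε / 8 * (2 : ℕ))) = C2 := by
        rw [mul_assoc, ← Real.exp_add]
        push_cast
        rw [add_neg_cancel, Real.exp_zero, mul_one]
      rw [h5]
      have : 0 ≤ 128 / ε ^ 2 * C1 * Real.exp (-(ε / 8 * (2 : ℕ))) := by positivity
      linarith
    have h6 : lev t td 2 L e0 k (1 + 1) = lev t td 2 L e0 k 2 := rfl
    rw [h6]
    push_cast at h4 ⊢
    linarith
  -- `m ≥ 3`
  have hM1 : m / 2 + 1 < m := by omega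
  have hM2 : m / 2 + 2 ≤ m := by omega
  have hmM : (m : ℝ) ≤ 2 * ((m / 2 + 2 : ℕ) : ℝ) := by
    have : m ≤ 2 * (m / 2 + 2) := by omega
    exact_mod_cast this
  have hLm : (L : ℝ) ≤ 3 * m := by exact_mod_cast hL
  have hsol := lev_sol ht ht1 htd htd1 hm L e0
  set δ : ℝ := C1 * Real.exp (-(ε / 4 * m)) with hδdef
  have hδ : 0 ≤ δ := by positivity
  -- the bound at the top of the window
  have hdec : ∀ i : ℕ, i ≤ L → Real.exp (-(ε * ((m / 2 + 2 : ℕ) : ℝ))) *
      (lam t * Real.exp (K * ε ^ 2)) ^ i ≤ Real.exp (-(ε / 4 * m)) * lam t ^ i := by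
    intro i hi
    rw [mul_pow, ← Real.exp_nat_mul]
    have h1 : Real.exp (-(ε * ((m / 2 + 2 : ℕ) : ℝ))) * (lam t ^ i * Real.exp (i * (K * ε ^ 2))) =
        Real.exp (-(ε * ((m / 2 + 2 : ℕ) : ℝ)) + i * (K * ε ^ 2)) * lam t ^ i := by
      rw [Real.exp_add]; ring
    rw [h1]
    apply mul_le_mul_of_nonneg_right _ (pow_nonneg hl0.le _)
    apply Real.exp_le_exp.2
    have h2 : (i : ℝ) ≤ 3 * m := le_trans (by exact_mod_cast hi) hLm
    have h3 : (i : ℝ) * (K * ε ^ 2) ≤ 3 * m * (K * ε ^ 2) :=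
      mul_le_mul_of_nonneg_right h2 (by positivity)
    have h4 : (3 * K * ε ^ 2) * m ≤ ε / 4 * m := mul_le_mul_of_nonneg_right hεK2 (Nat.cast_nonneg _)
    have h5 : ε * m ≤ ε * (2 * ((m / 2 + 2 : ℕ) : ℝ)) := mul_le_mul_of_nonneg_left hmM hε.le
    linarith
  have hmono := lev_mono (L := L) ht hq htd htt.le hm (E := e0) (F := fun z => Real.exp (-(ε * z)))
      (fun y _ => he0 y)
  have hexp' := hexp ε hεa m hm L
  set F : ℕ → ℕ → ℝ := fun k y => if y = 0 then
      (if k = 0 then t * gsum t td m L e0 0 else the t td * plev t td m L e0 k 0)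
    else plev t td m L e0 k y with hFdef
  have hF1 : ∀ k y, y ≠ 0 → F k y = plev t td m L e0 k y := by
    intro k y hy
    rw [hFdef]
    simp only [if_neg hy]
  have hF00 : F 0 0 = t * gsum t td m L e0 0 := by
    rw [hFdef]
    simp
  have hFk0 : ∀ k, F (k + 1) 0 = the t td * plev t td m L e0 (k + 1) 0 := by
    intro k
    rw [hFdef]
    simp
  have hp0 : ∀ y, y ≠ 0 → plev t td m L e0 0 y = t * gsum t td m L e0 y := by
    intro y hy
    show (if y = 0 then td else t) * gsum t td m L e0 y = _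
    rw [if_neg hy]
  have hcore := core_rdra (t := t) ht hq (L := L) (M := m / 2) (F := F) (δ := δ) hδ ?_ ?_ ?_ ?_ ?_
    (k + 1) (by omega) y hy (by omega)
  · -- conclusion
    rw [hF1 _ _ (by omega), hF1 _ _ (by omega)] at hcore
    have h1 : plev t td m L e0 (k + 1) (y + 1) = lev t td m L e0 k (y + 1) := rfl
    have h2 : plev t td m L e0 (k + 1) y = lev t td m L e0 k y := rfl
    rw [h1, h2, show L + 1 - (k + 1) = L - k by omega] at hcore
    have h3 : (y : ℝ) * ((y : ℝ) + 1) * (δ * lam t ^ (L - k)) ≤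
        (128 / ε ^ 2 * C1 + C2 * Real.exp (ε / 8 * 2)) * Real.exp (-(ε / 8 * m)) * lam t ^ (L - k) := by
      rw [← mul_assoc]
      apply mul_le_mul_of_nonneg_right _ hpk
      have h4 : (y : ℝ) * ((y : ℝ) + 1) ≤ (m : ℝ) ^ 2 := by
        have h5 : y * (y + 1) ≤ m ^ 2 := by nlinarith
        exact_mod_cast h5
      have h6 : (m : ℝ) ^ 2 ≤ 128 / ε ^ 2 * Real.exp (ε / 8 * m) := by
        have h7 := exp_sq_rdra (x := ε / 8 * m) (by positivity)
        rw [div_mul_eq_mul_div, le_div_iff₀ (by positivity)]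
        nlinarith
      have h8 : (y : ℝ) * ((y : ℝ) + 1) * δ ≤ 128 / ε ^ 2 * Real.exp (ε / 8 * m) * δ :=
        mul_le_mul_of_nonneg_right (h4.trans h6) hδ
      have h9 : 128 / ε ^ 2 * Real.exp (ε / 8 * m) * δ = 128 / ε ^ 2 * C1 * Real.exp (-(ε / 8 * m)) := by
        rw [hδdef]
        have h10 : Real.exp (ε / 8 * m) * Real.exp (-(ε / 4 * m)) = Real.exp (-(ε / 8 * m)) := by
          rw [← Real.exp_add]; congr 1; ring
        rw [← h10]; ring
      have h11 : 0 ≤ C2 * Real.exp (ε / 8 * 2) * Real.exp (-(ε / 8 * m)) := by positivity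
      rw [add_mul]
      linarith
    linarith
  · -- nonnegativity
    intro k' hk' j hj
    have hjm : j ≤ m := by omega
    have hgn := hnn.2
    rcases Nat.eq_zero_or_pos k' with rfl | hk0
    · rcases Nat.eq_zero_or_pos j with rfl | hj0
      · rw [hF00]
        exact mul_nonneg ht.le (hgn 0 (by omega))
      · rw [hF1 _ _ (by omega), hp0 _ (by omega)]
        exact mul_nonneg ht.le (hgn j hjm)
    · obtain ⟨i, rfl⟩ : ∃ i, k' = i + 1 := ⟨k' - 1, by omega⟩
      rcases Nat.eq_zero_or_pos j with rfl | hj0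
      · rw [hFk0]
        exact mul_nonneg (by linarith) (hnn.1 i (by omega) 0 (by omega))
      · rw [hF1 _ _ (by omega)]
        exact hnn.1 i (by omega) j hjm
  · -- the source level
    intro j hj hjM
    rw [hF1 _ _ (by omega), hsol.src j (by omega)]
    unfold e0
    rw [if_neg (by omega)]
  · -- the end of the window
    intro k' hk'
    rw [hF1 _ _ (by omega)]
    have hpos2 : (1 : ℝ) ≤ ((m / 2 : ℕ) : ℝ) + 2 := by
      have := Nat.cast_nonneg (α := ℝ) (m / 2)
      linarith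
    have hmain : plev t td m L e0 k' (m / 2 + 2) ≤ δ * lam t ^ (L + 1 - k') := by
      rcases Nat.eq_zero_or_pos k' with rfl | hk0
      · rw [hp0 _ (by omega)]
        have h1 := (hmono.2 (m / 2 + 2) hM2).trans (hexp'.2 (m / 2 + 2) hM2)
        have h2 := hdec L le_rfl
        have h3 : C1 * Real.exp (-(ε * ((m / 2 + 2 : ℕ) : ℝ))) * (lam t * Real.exp (K * ε ^ 2)) ^ L ≤
            δ * lam t ^ L := by
          have := mul_le_mul_of_nonneg_left h2 (show 0 ≤ C1 by linarith)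
          rw [hδdef]
          linarith
        have h4 := h1.trans h3
        have h5 : t * gsum t td m L e0 (m / 2 + 2) ≤ t * (δ * lam t ^ L) :=
          mul_le_mul_of_nonneg_left h4 ht.le
        have h6 : t * (δ * lam t ^ L) ≤ lam t * (δ * lam t ^ L) :=
          mul_le_mul_of_nonneg_right htl (by positivity)
        have h7 : lam t * (δ * lam t ^ L) = δ * lam t ^ (L + 1 - 0) := by
          rw [Nat.sub_zero, pow_succ]; ring
        linarith
      · obtain ⟨i, rfl⟩ : ∃ i, k' = i + 1 := ⟨k' - 1, by omega⟩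
        have h1 := (hmono.1 i (by omega) (m / 2 + 2) hM2).trans (hexp'.1 i (by omega) (m / 2 + 2) hM2)
        have h2 := hdec (L - i) (by omega)
        have h3 : C1 * Real.exp (-(ε * ((m / 2 + 2 : ℕ) : ℝ))) *
            (lam t * Real.exp (K * ε ^ 2)) ^ (L - i) ≤ δ * lam t ^ (L - i) := by
          have := mul_le_mul_of_nonneg_left h2 (show 0 ≤ C1 by linarith)
          rw [hδdef]
          linarith
        have h4 := h1.trans h3
        rw [show L + 1 - (i + 1) = L - i by omega]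
        exact h4
    have hB : 0 ≤ δ * lam t ^ (L + 1 - k') := by positivity
    rw [div_le_iff₀ (by linarith)]
    nlinarith
  · -- bulk
    intro k' j hk' hj hjM
    rcases Nat.lt_or_ge j 2 with hj2 | hj2
    · have hj1 : j = 1 := by omega
      subst hj1
      have h1 := hsol.one k' hk'
      rw [hF1 _ _ (by omega), hF1 _ _ (by omega), hF1 _ _ (by omega), hF1 _ _ (by omega), Nat.sub_self,
        hFk0, ← h1]
    · have h1 := hsol.bulk k' j hk' hj2 (by omega)
      rw [hF1 _ _ (by omega), hF1 _ _ (by omega), hF1 _ _ (by omega), hF1 _ _ (by omega),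
        hF1 _ _ (by omega), ← h1]
  · -- bottom
    intro j hj hjM
    have h1 := hsol.gbulk j hj (by omega)
    rcases Nat.lt_or_ge j 2 with hj2 | hj2
    · have hj1 : j = 1 := by omega
      subst hj1
      rw [hF1 0 1 (by omega), hF1 0 (1 + 1) (by omega), hF1 1 1 (by omega), Nat.sub_self,
        hF00, hp0 1 (by omega), hp0 (1 + 1) (by omega)]
      rw [Nat.sub_self] at h1
      linear_combination -t * h1
    · rw [hF1 0 j (by omega), hF1 0 (j + 1) (by omega), hF1 0 (j - 1) (by omega), hF1 1 j (by omega),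
        hp0 j (by omega), hp0 (j + 1) (by omega), hp0 (j - 1) (by omega)]
      linear_combination -t * h1

end Pool.Agent.Helper49.RD
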