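import Pool.Agent.Helper49.RD.HLimA
import Pool.Agent.Helper49.RD.HMeas
import Pool.Agent.Helper49.RD.Ratio

/-!
Block RD-HC: the levels of the source in the middle row converge uniformly.

Notation of RD-HM: `u y = uh t td a k n y`, `v₀ = g (2 - s)`, `q z = exp (-(z²/(2 v₀)))/(√(π/2) v₀ √v₀)`, `rho v₀ z = z q z`, `q` is decreasing on `[0, ∞)` and Lipschitz.

Paper proof of `h_lim`. Let `ε > 0`.
(1) `y ≤ η √n`: `u y ≤ C (1 + y)/√n ≤ C (η + 1/√n)` (`uh_pt`), `rho v₀ (y/√n) ≤ q 0 η`. Choose `η` small.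
(2) Monotonicity: `lev_ratio` (`L = 2 n + 1 ≤ 3 n`): for `1 ≤ y`, `2 y ≤ n`: `y u (y+1) ≤ (y+1) u y + C n e^{-c n}`, so `u y'/y' ≤ u y/y + C n² e^{-c n}` for `1 ≤ y ≤ y' ≤ n/2`. Write `Q y = √n u y/y`, so `u y = (y/√n) Q y` and
`Q y' ≤ Q y + e_n`, `e_n → 0`.
(3) `B √n ≤ y ≤ n/2`: for `y/2 ≤ z ≤ y` `u y ≤ y (u z/z) + e_n ≤ 2 u z + e_n`; average over the at least `y/2` integers `z` of `[y/2, y]`: `u y ≤ (4/y) ∑_z u z + e_n ≤ 4 C √n/y + e_n ≤ 4 C/B + e_n` (`uh_tail`, first part).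
(4) `n/2 ≤ y ≤ n`: `e0 z ≤ e^{-ε' z}`, so by `lev_exp` with a fixed `ε'` with `3 K ε' ≤ 1/4`: `h y ≤ C e^{-ε' y} e^{K ε'² (2 n + 1)} λ^(L-k)`, `u y ≤ C' n e^{-ε' n/8}`, tends to `0`. `rho v₀ (y/√n)` is small for `y ≥ B √n`.
(5) `η √n ≤ y ≤ B √n`: let `δ > 0` be small (`δ < η/4`), `y_i = i δ`, and `f_i z = (2/δ) max (0, 1 - |2 (z - y_i - δ/2)/δ|)` (tent on `[y_i, y_{i+1}]`, integral `1`), `i ≥ 1` (`f_i` in `Cz`). By `h_meas`, for the finitely many `i` with `y_i ≤ B + 4`: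
`(√n)⁻¹ ∑_z f_i (z/√n) u z → ∫ f_i rho`, and the Riemann sum `(√n)⁻¹ ∑_z f_i (z/√n) (z/√n) → ∫ f_i z dz`. If `y_{i+1} √n ≤ y ≤ y_{i+2} √n` then `Q y ≤ Q z + e_n` for all `z` in `[y_i √n, y_{i+1} √n]`; multiply by `f_i (z/√n) (z/√n)` and sum:
`Q y (√n)⁻¹ ∑ f_i (z/√n) (z/√n) ≤ (√n)⁻¹ ∑ f_i (z/√n) u z + e'_n`, so `Q y ≤ ∫ f_i rho/∫ f_i z dz + o (1) ≤ q (y_i) + o (1)`; in the same way with `f_{i+2}`: `Q y ≥ q (y_{i+3}) - o (1)`. So `|Q y - q (y/√n)| ≤ q (y_i) - q (y_{i+3}) + o (1) ≤ 3 δ Lip (q) + o (1)`,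
uniformly in this range, and `|u y - rho v₀ (y/√n)| ≤ B |Q y - q (y/√n)|`.
-/

open Finset Filter MeasureTheory

namespace Pool.Agent.Helper49.RD

open Pool.Agent.Helper49.DL Pool.Agent.Helper49.DX

theorem h_lim {β₁ β J : ℝ} (h0 : 0 ≤ β₁) (h : β₁ < β) (hm : 0 < mag β₁) (hJ : 1 < J) {a : ℕ → ℝ}
    (ha : Nrm (Real.exp (-β)) (Real.exp (-(β * J))) a) {k : ℕ → ℕ} {s : ℝ} (hs : s < 2)
    (hk : Tendsto (fun n : ℕ => (k n : ℝ) / n) atTop (nhds s)) :
    SupLim (uh (Real.exp (-β)) (Real.exp (-(β * J))) a k) (rho (sg (Real.exp (-β)) * (2 - s))) := by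
  have hq := t_small h0 h hm
  have hβ : 0 < β := lt_of_le_of_lt h0 h
  have ht0 : 0 < Real.exp (-β) := Real.exp_pos _
  have htd0 : 0 < Real.exp (-(β * J)) := Real.exp_pos _
  have htt : Real.exp (-(β * J)) < Real.exp (-β) := by
    rw [Real.exp_lt_exp]
    nlinarith only [hβ, hJ]
  obtain ⟨C1, hC1, hpt⟩ := uh_pt h0 h hm hJ ha hs hk
  obtain ⟨C2, hC2, hmass, -⟩ := uh_tail h0 h hm hJ ha hs hk
  have hmeas := fun (f : ℝ → ℝ) (hf : Cz f) => h_meas h0 h hm hJ ha hs hk hf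
  obtain ⟨c, Ca, hc, hac⟩ := ha.1
  set t := Real.exp (-β) with ht
  set td := Real.exp (-(β * J)) with htd
  have ht1 := t_lt_one ht0 hq
  have hl0 := lam_pos ht0 ht1
  obtain ⟨C3, c3, hC3, hc3, hrat⟩ := lev_ratio ht0 hq htd0 htt
  obtain ⟨C4, K, ε₀, hC4, hK, hε0, hε1, hexp⟩ := lev_exp ht0 hq htd0 htt
  have hkL : ∀ᶠ n : ℕ in atTop, k n ≤ 2 * n + 1 := by
    filter_upwards [hk.eventually_lt_const hs, eventually_ge_atTop 1] with n h1 h2
    have hn : (0 : ℝ) < n := by exact_mod_cast h2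
    rw [div_lt_iff₀ hn] at h1
    have h3 : k n < 2 * n := by exact_mod_cast h1
    omega
  have hv : 0 < sg t * (2 - s) := by
    have h2 := lam_lt_one ht0 hq
    have h3 : 0 < 1 - lam t ^ 2 := by nlinarith only [h2, hl0]
    have h4 : 0 < sg t := by unfold sg; positivity
    exact mul_pos h4 (by linarith)
  set ε := min ε₀ (1 / (12 * K)) with hεd
  have hεp : 0 < ε := lt_min hε0 (by positivity)
  have hεK : 12 * K * ε ≤ 1 := by
    have h1 : ε ≤ 1 / (12 * K) := min_le_right _ _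
    rw [le_div_iff₀ (by positivity)] at h1
    linarith
  have hpre : ∀ᶠ n : ℕ in atTop, 0 ≤ 2 * n * lam t / (a n * t) ∧
      2 * n * lam t / (a n * t) ≤ 2 * n * lam t / (c * t) := by
    filter_upwards [hac] with n h1
    have h2 : 0 < a n := hc.trans_le h1.1
    refine ⟨by positivity, ?_⟩
    have h3 := h1.1
    gcongr
  have huh : ∀ n y, uh t td a k n y = 2 * n * lam t / (a n * t) *
      (lev t td n (2 * n + 1) e0 (k n) y / lam t ^ (2 * n + 1 - k n)) := by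
    intro n y
    unfold uh
    ring
  refine abs_lim_rdhc (C := C1 + C2) (E := fun n : ℕ => 2 * n * lam t / (c * t) * (C3 * Real.exp (-(c3 * n))))
    (F := fun n : ℕ => 2 * n * lam t / (c * t) * (C4 * Real.exp (-(ε / 4 * n)))) hv (by linarith)
    ?_ ?_ ?_ ?_ ?_ ?_ ?_ hmeas
  · filter_upwards [hpt] with n h1 y hy
    refine ⟨(h1 y hy).1, (h1 y hy).2.trans ?_⟩
    have : C1 ≤ C1 + C2 := by linarith
    gcongr
  · filter_upwards [hmass] with n h1
    linarith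
  · intro n
    positivity
  · have h1 := (Real.tendsto_pow_mul_exp_neg_atTop_nhds_zero 3).comp
      ((tendsto_natCast_atTop_atTop (R := ℝ)).const_mul_atTop hc3)
    have h2 := h1.const_mul (2 * lam t / (c * t) * C3 / c3 ^ 3)
    rw [mul_zero] at h2
    refine h2.congr fun n => ?_
    simp only [Function.comp]
    field_simp
  · filter_upwards [hpre, hkL, eventually_ge_atTop 2] with n h1 h2 h3 y hy1 hy2
    have hl : 0 < lam t ^ (2 * n + 1 - k n) := by positivity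
    have h4 := hrat n (2 * n + 1) h3 (by omega) (k n) h2 y hy1 hy2
    rw [huh, huh]
    have h5 : (y : ℝ) * (lev t td n (2 * n + 1) e0 (k n) (y + 1) / lam t ^ (2 * n + 1 - k n)) ≤
        ((y : ℝ) + 1) * (lev t td n (2 * n + 1) e0 (k n) y / lam t ^ (2 * n + 1 - k n)) +
          C3 * Real.exp (-(c3 * n)) := by
      rw [← mul_div_assoc, div_le_iff₀ hl]
      refine h4.trans (le_of_eq ?_)
      field_simp
    have h6 := mul_le_mul_of_nonneg_left h5 h1.1
    have h7 : 2 * n * lam t / (a n * t) * (C3 * Real.exp (-(c3 * n))) ≤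
        2 * n * lam t / (c * t) * (C3 * Real.exp (-(c3 * n))) :=
      mul_le_mul_of_nonneg_right h1.2 (by positivity)
    linarith
  · have h1 := (Real.tendsto_pow_mul_exp_neg_atTop_nhds_zero 1).comp
      ((tendsto_natCast_atTop_atTop (R := ℝ)).const_mul_atTop (by positivity : 0 < ε / 4))
    have h2 := h1.const_mul (2 * lam t / (c * t) * C4 / (ε / 4))
    rw [mul_zero] at h2
    refine h2.congr fun n => ?_
    simp only [Function.comp]
    field_simp
  · filter_upwards [hpre, hkL, eventually_ge_atTop 2] with n h1 h2 h3 y hy1 hy2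
    have hl : 0 < lam t ^ (2 * n + 1 - k n) := by positivity
    have h4 := (lev_mono (L := 2 * n + 1) (E := e0) (F := fun z => Real.exp (-(ε * z))) ht0 hq htd0 htt.le h3
      (fun z _ => by
        unfold e0
        split_ifs with h5
        · subst h5; simp
        · exact (Real.exp_pos _).le)).1 (k n) h2 y hy2
    have h5 := (hexp ε (by rw [abs_of_pos hεp]; exact min_le_left _ _) n h3 (2 * n + 1)).1 (k n) h2 y hy2
    rw [huh]
    have h6 : lev t td n (2 * n + 1) e0 (k n) y / lam t ^ (2 * n + 1 - k n) ≤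
        C4 * Real.exp (-(ε / 4 * n)) := by
      rw [div_le_iff₀ hl]
      refine (h4.trans h5).trans ?_
      rw [mul_pow, ← Real.exp_nat_mul]
      have h7 : Real.exp (-(ε * y)) * Real.exp (((2 * n + 1 - k n : ℕ) : ℝ) * (K * ε ^ 2)) ≤
          Real.exp (-(ε / 4 * n)) := by
        rw [← Real.exp_add, Real.exp_le_exp]
        have h8 : ((2 * n + 1 - k n : ℕ) : ℝ) ≤ 3 * n := by
          exact_mod_cast (by omega : 2 * n + 1 - k n ≤ 3 * n)
        have h9 : (n : ℝ) ≤ 2 * y := by exact_mod_cast hy1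
        have h10 : ((2 * n + 1 - k n : ℕ) : ℝ) * (K * ε ^ 2) ≤ 3 * n * (K * ε ^ 2) :=
          mul_le_mul_of_nonneg_right h8 (by positivity)
        have h11 : 3 * (n : ℝ) * (K * ε ^ 2) ≤ n * ε / 4 := by
          have : 3 * (n : ℝ) * (K * ε ^ 2) = (12 * K * ε) * (n * ε / 4) := by ring
          rw [this]
          have h12 : 0 ≤ (n : ℝ) * ε / 4 := by positivity
          nlinarith only [h12, hεK]
        have h13 : ε * (n : ℝ) ≤ ε * (2 * y) := mul_le_mul_of_nonneg_left h9 hεp.le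
        linarith
      calc C4 * Real.exp (-(ε * y)) * (lam t ^ (2 * n + 1 - k n) * Real.exp (((2 * n + 1 - k n : ℕ) : ℝ) * (K * ε ^ 2)))
          = C4 * (Real.exp (-(ε * y)) * Real.exp (((2 * n + 1 - k n : ℕ) : ℝ) * (K * ε ^ 2))) * lam t ^ (2 * n + 1 - k n) := by ring
        _ ≤ C4 * Real.exp (-(ε / 4 * n)) * lam t ^ (2 * n + 1 - k n) := by gcongr
    exact mul_le_mul h1.2 h6 (div_nonneg ((lev_nonneg (L := 2 * n + 1) (E := e0) ht0 hq htd0 htt.le h3
      (fun z _ => by unfold e0; split_ifs <;> norm_num)).1 (k n) h2 y hy2) hl.le) (by positivity)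

end Pool.Agent.Helper49.RD
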