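import Pool.Agent.Helper49.RD.HkDef

/-!
Analytic part of the block RD-HC (see `RD/HLim.lean`).
-/

open Finset Filter MeasureTheory

namespace Pool.Agent.Helper49.RD

private noncomputable def tnt_rdhc (a b z : ℝ) : ℝ := max 0 (min (z - a) (b - z))

private lemma tnt_nn (a b z : ℝ) : 0 ≤ tnt_rdhc a b z := le_max_left _ _

private lemma tnt_l {a b z : ℝ} (h : z ≤ a) : tnt_rdhc a b z = 0 := by
  unfold tnt_rdhc
  exact max_eq_left (le_trans (min_le_left _ _) (by linarith))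

private lemma tnt_r {a b z : ℝ} (h : b ≤ z) : tnt_rdhc a b z = 0 := by
  unfold tnt_rdhc
  exact max_eq_left (le_trans (min_le_right _ _) (by linarith))

private lemma tnt_pos {a b z : ℝ} (h1 : a < z) (h2 : z < b) : 0 < tnt_rdhc a b z := by
  unfold tnt_rdhc
  exact lt_max_of_lt_right (lt_min (by linarith) (by linarith))

private lemma tnt_cont (a b : ℝ) : Continuous (tnt_rdhc a b) := by
  unfold tnt_rdhc
  fun_prop

private lemma tnt_lip (a b z w : ℝ) : |tnt_rdhc a b z - tnt_rdhc a b w| ≤ |z - w| := by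
  unfold tnt_rdhc
  have h1 := abs_max_sub_max_le_max (0 : ℝ) (min (z - a) (b - z)) 0 (min (w - a) (b - w))
  have h2 := abs_min_sub_min_le_max (z - a) (b - z) (w - a) (b - w)
  have h3 : |z - a - (w - a)| = |z - w| := by congr 1; ring
  have h4 : |b - z - (b - w)| = |z - w| := by rw [abs_sub_comm]; congr 1; ring
  rw [h3, h4, max_self] at h2
  refine h1.trans ?_
  rw [sub_self, abs_zero]
  exact max_le (abs_nonneg _) h2

private lemma tnt_supp (a b : ℝ) : HasCompactSupport (tnt_rdhc a b) :=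
  HasCompactSupport.intro (isCompact_Icc (a := a) (b := b)) fun x hx => by
    rcases lt_or_ge x a with h | h
    · exact tnt_l h.le
    · rcases le_or_gt x b with h' | h'
      · exact absurd ⟨h, h'⟩ hx
      · exact tnt_r h'.le

private lemma tnt_int {a b : ℝ} (ha : 0 ≤ a) (hab : a < b) :
    ∫ z in Set.Ioi (0 : ℝ), tnt_rdhc a b z = ∫ z in (0 : ℝ)..b, tnt_rdhc a b z := by
  rw [intervalIntegral.integral_of_le (by linarith)]
  refine setIntegral_eq_of_subset_of_forall_sdiff_eq_zero measurableSet_Ioi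
    (fun x hx => hx.1) (fun x hx => ?_)
  have h1 : 0 < x := hx.1
  have h2 : b < x := by
    by_contra h
    exact hx.2 ⟨h1, not_lt.mp h⟩
  exact tnt_r h2.le

private lemma tnt_int_pos {a b : ℝ} (ha : 0 ≤ a) (hab : a < b) :
    0 < ∫ z in (0 : ℝ)..b, tnt_rdhc a b z := by
  have hi : ∀ x y : ℝ, IntervalIntegrable (tnt_rdhc a b) volume x y := fun x y =>
    (tnt_cont a b).intervalIntegrable x y
  rw [← intervalIntegral.integral_add_adjacent_intervals (hi 0 a) (hi a b)]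
  have h1 : ∫ z in (0 : ℝ)..a, tnt_rdhc a b z = 0 := by
    rw [intervalIntegral.integral_of_le ha]
    refine setIntegral_eq_zero_of_forall_eq_zero fun x hx => tnt_l hx.2
  have h2 := intervalIntegral.intervalIntegral_pos_of_pos_on (hi a b)
    (fun x hx => tnt_pos hx.1 hx.2) hab
  linarith

private lemma riem_bd {a b : ℝ} (ha : 0 ≤ a) (hab : a < b) {n : ℕ} (hn : 1 ≤ n)
    (hb : b + 1 ≤ Real.sqrt n) :
    |(Real.sqrt n)⁻¹ * ∑ z ∈ range (n + 1), tnt_rdhc a b (z / Real.sqrt n) -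
      ∫ z in (0 : ℝ)..b, tnt_rdhc a b z| ≤ (b + 1) * (Real.sqrt n)⁻¹ := by
  set r := Real.sqrt n with hr
  have hr1 : 1 ≤ r := by linarith
  have hr0 : 0 < r := by linarith
  have hrr : r * r = n := Real.mul_self_sqrt (Nat.cast_nonneg n)
  set N := ⌈b * r⌉₊ with hN
  have hN1 : b * r ≤ N := Nat.le_ceil _
  have hb0 : 0 < b := by linarith
  have hN2 : (N : ℝ) < b * r + 1 := Nat.ceil_lt_add_one (by positivity)
  have hNn : N ≤ n + 1 := by
    have : (N : ℝ) < n + 1 := by nlinarith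
    exact_mod_cast this.le
  have hsub : ∑ z ∈ range (n + 1), tnt_rdhc a b (z / r) = ∑ z ∈ range N, tnt_rdhc a b (z / r) := by
    symm
    refine Finset.sum_subset (by simpa using hNn) fun z _ hz => ?_
    rw [Finset.mem_range, not_lt] at hz
    refine tnt_r ?_
    rw [le_div_iff₀ hr0]
    have : (N : ℝ) ≤ z := by exact_mod_cast hz
    linarith
  have hint : ∫ z in (0 : ℝ)..b, tnt_rdhc a b z = ∑ z ∈ range N, ∫ x in ((z : ℝ) / r)..(((z + 1 : ℕ) : ℝ) / r), tnt_rdhc a b x := by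
    rw [intervalIntegral.sum_integral_adjacent_intervals (a := fun z : ℕ => (z : ℝ) / r)
      (fun k _ => (tnt_cont a b).intervalIntegrable _ _)]
    have h1 : (((0 : ℕ) : ℝ) / r) = 0 := by simp
    rw [h1, ← intervalIntegral.integral_add_adjacent_intervals
      ((tnt_cont a b).intervalIntegrable 0 b) ((tnt_cont a b).intervalIntegrable b ((N : ℝ) / r))]
    have h2 : ∫ z in b..((N : ℝ) / r), tnt_rdhc a b z = 0 := by
      rw [intervalIntegral.integral_of_le (by rw [le_div_iff₀ hr0]; exact hN1)]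
      exact setIntegral_eq_zero_of_forall_eq_zero fun x hx => tnt_r hx.1.le
    rw [h2, add_zero]
  rw [hsub, hint, Finset.mul_sum, ← Finset.sum_sub_distrib]
  have hterm : ∀ z ∈ range N, |r⁻¹ * tnt_rdhc a b (z / r) -
      ∫ x in ((z : ℝ) / r)..(((z + 1 : ℕ) : ℝ) / r), tnt_rdhc a b x| ≤ r⁻¹ * r⁻¹ := by
    intro z _
    have hlen : ((z + 1 : ℕ) : ℝ) / r - (z : ℝ) / r = r⁻¹ := by push_cast; field_simp; ring
    have hle : (z : ℝ) / r ≤ ((z + 1 : ℕ) : ℝ) / r := by
      have : 0 < r⁻¹ := by positivity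
      linarith
    have hconst : ∫ x in ((z : ℝ) / r)..(((z + 1 : ℕ) : ℝ) / r), tnt_rdhc a b (z / r) = r⁻¹ * tnt_rdhc a b (z / r) := by
      rw [intervalIntegral.integral_const, hlen, smul_eq_mul]
    rw [← hconst, ← intervalIntegral.integral_sub (by simp)
      ((tnt_cont a b).intervalIntegrable _ _)]
    have h := intervalIntegral.norm_integral_le_of_norm_le_const (a := (z : ℝ) / r)
      (b := ((z + 1 : ℕ) : ℝ) / r) (C := r⁻¹) (f := fun x => tnt_rdhc a b (z / r) - tnt_rdhc a b x) (fun x hx => by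
        rw [Set.uIoc_of_le hle] at hx
        rw [Real.norm_eq_abs]
        refine (tnt_lip a b _ _).trans ?_
        rw [abs_sub_comm, abs_of_nonneg (by linarith [hx.1])]
        linarith [hx.2])
    rw [Real.norm_eq_abs, hlen, abs_of_nonneg (by positivity : (0 : ℝ) ≤ r⁻¹)] at h
    exact h
  refine (Finset.abs_sum_le_sum_abs _ _).trans ((Finset.sum_le_sum hterm).trans ?_)
  rw [Finset.sum_const, Finset.card_range, nsmul_eq_mul]
  have h1 : (N : ℝ) * r⁻¹ ≤ b + 1 := by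
    rw [← div_eq_mul_inv, div_le_iff₀ hr0]
    nlinarith
  have h2 : (0 : ℝ) < r⁻¹ := by positivity
  nlinarith [mul_le_mul_of_nonneg_right h1 h2.le]

private lemma sqrt_top : Tendsto (fun n : ℕ => Real.sqrt n) atTop atTop :=
  Real.tendsto_sqrt_atTop.comp tendsto_natCast_atTop_atTop

private lemma riem {a b : ℝ} (ha : 0 ≤ a) (hab : a < b) :
    Tendsto (fun n : ℕ => (Real.sqrt n)⁻¹ * ∑ z ∈ range (n + 1), tnt_rdhc a b (z / Real.sqrt n)) atTop
      (nhds (∫ z in (0 : ℝ)..b, tnt_rdhc a b z)) := by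
  rw [tendsto_iff_norm_sub_tendsto_zero]
  have h0 : Tendsto (fun n : ℕ => (b + 1) * (Real.sqrt n)⁻¹) atTop (nhds 0) := by
    simpa using (tendsto_inv_atTop_zero.comp sqrt_top).const_mul (b + 1)
  refine squeeze_zero' (Eventually.of_forall fun n => norm_nonneg _) ?_ h0
  filter_upwards [sqrt_top.eventually_ge_atTop (b + 1), eventually_ge_atTop 1] with n h1 h2
  rw [Real.norm_eq_abs]
  exact riem_bd ha hab h2 h1

private noncomputable def qq_rdhc (v z : ℝ) : ℝ :=
  Real.exp (-(z ^ 2 / (2 * v))) / (Real.sqrt (Real.pi / 2) * (v * Real.sqrt v))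

private lemma rho_qq (v z : ℝ) : rho v z = z * qq_rdhc v z := by
  unfold rho qq_rdhc
  ring

private lemma den_pos {v : ℝ} (hv : 0 < v) : 0 < Real.sqrt (Real.pi / 2) * (v * Real.sqrt v) := by
  have := Real.pi_pos
  positivity

private lemma qq_pos {v : ℝ} (hv : 0 < v) (z : ℝ) : 0 < qq_rdhc v z := by
  have := den_pos hv
  unfold qq_rdhc
  positivity

private lemma qq_anti {v : ℝ} (hv : 0 < v) {z w : ℝ} (hz : 0 ≤ z) (hzw : z ≤ w) :
    qq_rdhc v w ≤ qq_rdhc v z := by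
  unfold qq_rdhc
  have := den_pos hv
  gcongr

private lemma qq_lip {v : ℝ} (hv : 0 < v) {z w : ℝ} (hz : 0 ≤ z) (hzw : z ≤ w) :
    qq_rdhc v z - qq_rdhc v w ≤ (w ^ 2 - z ^ 2) / (2 * v) * qq_rdhc v 0 := by
  unfold qq_rdhc
  have hd := den_pos hv
  have h1 : Real.exp (-(z ^ 2 / (2 * v))) - Real.exp (-(w ^ 2 / (2 * v))) ≤ (w ^ 2 - z ^ 2) / (2 * v) := by
    have h2 : Real.exp (-(w ^ 2 / (2 * v))) = Real.exp (-(z ^ 2 / (2 * v))) * Real.exp (-((w ^ 2 - z ^ 2) / (2 * v))) := by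
      rw [← Real.exp_add]; congr 1; field_simp; ring
    have h3 := Real.add_one_le_exp (-((w ^ 2 - z ^ 2) / (2 * v)))
    have h4 : Real.exp (-(z ^ 2 / (2 * v))) ≤ 1 := by
      rw [Real.exp_le_one_iff]
      have : 0 ≤ z ^ 2 / (2 * v) := by positivity
      linarith
    have h5 : 0 ≤ (w ^ 2 - z ^ 2) / (2 * v) := by
      apply div_nonneg _ (by positivity)
      nlinarith
    rw [h2]
    nlinarith [Real.exp_pos (-(z ^ 2 / (2 * v))), Real.exp_pos (-((w ^ 2 - z ^ 2) / (2 * v)))]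
  rw [← sub_div]
  have h6 : (w ^ 2 - z ^ 2) / (2 * v) * (Real.exp (-(0 ^ 2 / (2 * v))) / (Real.sqrt (Real.pi / 2) * (v * Real.sqrt v))) = (w ^ 2 - z ^ 2) / (2 * v) / (Real.sqrt (Real.pi / 2) * (v * Real.sqrt v)) := by
    have : Real.exp (-(0 ^ 2 / (2 * v))) = 1 := by simp
    rw [this]
    ring
  rw [h6]
  gcongr

private lemma rho_tail {v : ℝ} (hv : 0 < v) {z : ℝ} (hz : 0 < z) :
    rho v z ≤ 2 * v * qq_rdhc v 0 / z := by
  have hd := den_pos hv
  rw [rho_qq]
  unfold qq_rdhc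
  have h1 : Real.exp (-(z ^ 2 / (2 * v))) ≤ 2 * v / z ^ 2 := by
    rw [Real.exp_neg, inv_le_comm₀ (Real.exp_pos _) (by positivity), inv_div]
    linarith [Real.add_one_le_exp (z ^ 2 / (2 * v))]
  have h2 : z * (Real.exp (-(z ^ 2 / (2 * v))) / (Real.sqrt (Real.pi / 2) * (v * Real.sqrt v))) ≤
      z * ((2 * v / z ^ 2) / (Real.sqrt (Real.pi / 2) * (v * Real.sqrt v))) := by gcongr
  refine h2.trans (le_of_eq ?_)
  simp
  field_simp

private noncomputable def ff_rdhc (a b z : ℝ) : ℝ := tnt_rdhc a b z / max z a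

private lemma ff_cz {a b : ℝ} (ha : 0 < a) : Cz (ff_rdhc a b) where
  cont := by
    unfold ff_rdhc
    refine (tnt_cont a b).div (by fun_prop) fun z => ?_
    have : 0 < max z a := lt_max_of_lt_right ha
    exact this.ne'
  zero := by
    unfold ff_rdhc
    rw [tnt_l ha.le, zero_div]
  top := by
    refine tendsto_const_nhds.congr' ?_
    filter_upwards [eventually_ge_atTop b] with z hz
    unfold ff_rdhc
    rw [tnt_r hz, zero_div]

private lemma La_ff {v a b : ℝ} :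
    La v (ff_rdhc a b) = ∫ z in Set.Ioi (0 : ℝ), qq_rdhc v z * tnt_rdhc a b z := by
  unfold La
  refine setIntegral_congr_fun measurableSet_Ioi fun z hz => ?_
  simp only [Set.mem_Ioi] at hz
  rw [rho_qq]
  unfold ff_rdhc
  rcases le_or_gt z a with h | h
  · rw [tnt_l h]; simp
  · rw [max_eq_left h.le]
    field_simp

private lemma qq_cont (v : ℝ) : Continuous (qq_rdhc v) := by
  unfold qq_rdhc
  fun_prop

private lemma La_le {v a b : ℝ} (hv : 0 < v) (ha : 0 < a) (hab : a < b) :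
    La v (ff_rdhc a b) ≤ qq_rdhc v a * ∫ z in (0 : ℝ)..b, tnt_rdhc a b z := by
  rw [La_ff, ← tnt_int ha.le hab, ← integral_const_mul]
  refine setIntegral_mono_on ?_ ?_ measurableSet_Ioi fun z hz => ?_
  · exact (((qq_cont v).mul (tnt_cont a b)).integrable_of_hasCompactSupport (tnt_supp a b).mul_left).integrableOn
  · exact ((continuous_const.mul (tnt_cont a b)).integrable_of_hasCompactSupport (tnt_supp a b).mul_left).integrableOn
  · rcases le_or_gt z a with h | h
    · rw [tnt_l h]; simp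
    · exact mul_le_mul_of_nonneg_right (qq_anti hv ha.le h.le) (tnt_nn a b z)

private lemma La_ge {v a b : ℝ} (hv : 0 < v) (ha : 0 < a) (hab : a < b) :
    qq_rdhc v b * ∫ z in (0 : ℝ)..b, tnt_rdhc a b z ≤ La v (ff_rdhc a b) := by
  rw [La_ff, ← tnt_int ha.le hab, ← integral_const_mul]
  refine setIntegral_mono_on ?_ ?_ measurableSet_Ioi fun z hz => ?_
  · exact ((continuous_const.mul (tnt_cont a b)).integrable_of_hasCompactSupport (tnt_supp a b).mul_left).integrableOn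
  · exact (((qq_cont v).mul (tnt_cont a b)).integrable_of_hasCompactSupport (tnt_supp a b).mul_left).integrableOn
  · rcases le_or_gt b z with h | h
    · rw [tnt_r h]; simp
    · exact mul_le_mul_of_nonneg_right (qq_anti hv (Set.mem_Ioi.mp hz).le h.le) (tnt_nn a b z)

private lemma mono_chain {n : ℕ} {w : ℕ → ℝ} {e : ℝ} (he : 0 ≤ e)
    (hm : ∀ y : ℕ, 1 ≤ y → 2 * y ≤ n → (y : ℝ) * w (y + 1) ≤ ((y : ℝ) + 1) * w y + e) {y y' : ℕ}
    (h1 : 1 ≤ y) (h2 : y ≤ y') (h3 : 2 * y' ≤ n) : w y' / y' ≤ w y / y + n * e := by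
  have key : ∀ k : ℕ, 2 * (y + k) ≤ n → w (y + k) / ((y + k : ℕ) : ℝ) ≤ w y / y + k * e := by
    intro k
    induction k with
    | zero => intro _; simp
    | succ k ih =>
      intro hk
      have h4 := ih (by omega)
      have h5 := hm (y + k) (by omega) (by omega)
      have hy0 : (1 : ℝ) ≤ ((y + k : ℕ) : ℝ) := by exact_mod_cast (by omega : 1 ≤ y + k)
      set Y : ℝ := ((y + k : ℕ) : ℝ) with hY
      have hY1 : ((y + (k + 1) : ℕ) : ℝ) = Y + 1 := by rw [hY]; push_cast; ring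
      have h6 : w (y + (k + 1)) / (Y + 1) ≤ w (y + k) / Y + e := by
        rw [div_le_iff₀ (by linarith)]
        have h7 : w (y + k + 1) ≤ ((Y + 1) * w (y + k) + e) / Y := by
          rw [le_div_iff₀ (by linarith)]
          linarith
        have h8 : ((Y + 1) * w (y + k) + e) / Y = (w (y + k) / Y) * (Y + 1) + e / Y := by
          field_simp
        have h9 : e / Y ≤ e * (Y + 1) := by
          rw [div_le_iff₀ (by linarith)]
          nlinarith [mul_nonneg he (by nlinarith : (0 : ℝ) ≤ (Y + 1) * Y - 1)]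
        rw [h8] at h7
        have h10 : w (y + (k + 1)) = w (y + k + 1) := rfl
        rw [h10]
        linarith
      rw [hY1]
      push_cast
      linarith
  obtain ⟨k, rfl⟩ := Nat.exists_eq_add_of_le h2
  refine (key k h3).trans ?_
  have hk : (k : ℝ) ≤ n := by exact_mod_cast (by omega : k ≤ n)
  have := mul_le_mul_of_nonneg_right hk he
  linarith

private lemma sq_lim {E : ℕ → ℝ} (hE0 : ∀ n, 0 ≤ E n)
    (hE : Tendsto (fun n : ℕ => (n : ℝ) * (n * E n)) atTop (nhds 0)) :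
    Tendsto (fun n : ℕ => Real.sqrt n * (n * E n)) atTop (nhds 0) := by
  refine squeeze_zero (fun n => mul_nonneg (Real.sqrt_nonneg _) (mul_nonneg (Nat.cast_nonneg _) (hE0 n))) (fun n => ?_) hE
  refine mul_le_mul_of_nonneg_right ?_ (mul_nonneg (Nat.cast_nonneg _) (hE0 n))
  rcases Nat.eq_zero_or_pos n with rfl | h
  · simp
  · have h1 : (1 : ℝ) ≤ n := by exact_mod_cast h
    rw [Real.sqrt_le_left (by linarith)]
    nlinarith

section wins

variable {u : ℕ → ℕ → ℝ} {v : ℝ} {E : ℕ → ℝ} (hv : 0 < v)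
  (hE0 : ∀ n, 0 ≤ E n) (hE : Tendsto (fun n : ℕ => (n : ℝ) * (n * E n)) atTop (nhds 0))
  (hm : ∀ᶠ n : ℕ in atTop, ∀ y : ℕ, 1 ≤ y → 2 * y ≤ n →
    (y : ℝ) * u n (y + 1) ≤ ((y : ℝ) + 1) * u n y + E n)
  (hmeas : ∀ f : ℝ → ℝ, Cz f → Tendsto (fun n : ℕ => (Real.sqrt n)⁻¹ * ∑ y ∈ range (n + 1),
    f (y / Real.sqrt n) * u n y) atTop (nhds (La v f)))

include hv hE0 hE hm hmeas

private lemma win_up {a b ε : ℝ} (ha : 0 < a) (hab : a < b) (hε : 0 < ε) :
    ∀ᶠ n : ℕ in atTop, ∀ y : ℕ, b * Real.sqrt n ≤ y → 2 * y ≤ n →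
      Real.sqrt n * (u n y / y) ≤ qq_rdhc v a + ε := by
  have hS := riem ha.le hab
  have hM := hmeas _ (ff_cz (b := b) ha)
  have hI := tnt_int_pos ha.le hab
  have hLa := La_le hv ha hab
  have hlim := (hM.add (hS.mul (sq_lim hE0 hE))).sub (hS.mul_const (qq_rdhc v a + ε))
  have hneg : La v (ff_rdhc a b) + (∫ z in (0 : ℝ)..b, tnt_rdhc a b z) * 0 -
      (∫ z in (0 : ℝ)..b, tnt_rdhc a b z) * (qq_rdhc v a + ε) < 0 := by nlinarith
  filter_upwards [hlim.eventually_lt_const hneg, hS.eventually_const_lt hI, hm, eventually_ge_atTop 1]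
    with n h1 h2 h4 h5 y hy1 hy2
  have hr0 : 0 < Real.sqrt n := Real.sqrt_pos.2 (by exact_mod_cast h5)
  have hterm : ∀ z ∈ range (n + 1), tnt_rdhc a b (z / Real.sqrt n) * (Real.sqrt n * (u n y / y)) ≤
      ff_rdhc a b (z / Real.sqrt n) * u n z + tnt_rdhc a b (z / Real.sqrt n) * (Real.sqrt n * (n * E n)) := by
    intro z hz
    rcases le_or_gt ((z : ℝ) / Real.sqrt n) a with h | h
    · rw [ff_rdhc, tnt_l h]; simp
    rcases le_or_gt b ((z : ℝ) / Real.sqrt n) with h' | h'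
    · rw [ff_rdhc, tnt_r h']; simp
    · have hz0 : (0 : ℝ) < z := by
        rw [lt_div_iff₀ hr0] at h
        nlinarith
      have hz1 : 1 ≤ z := by exact_mod_cast hz0
      have hzy : z ≤ y := by
        rw [div_lt_iff₀ hr0] at h'
        exact_mod_cast (h'.le.trans hy1)
      have hc := mono_chain (hE0 n) h4 hz1 hzy hy2
      have hf : ff_rdhc a b (z / Real.sqrt n) * u n z = tnt_rdhc a b (z / Real.sqrt n) * (Real.sqrt n * (u n z / z)) := by
        rw [ff_rdhc, max_eq_left h.le]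
        field_simp
      rw [hf, ← mul_add]
      refine mul_le_mul_of_nonneg_left ?_ (tnt_nn _ _ _)
      rw [← mul_add]
      exact mul_le_mul_of_nonneg_left hc hr0.le
  have hsum := Finset.sum_le_sum hterm
  rw [← Finset.sum_mul, Finset.sum_add_distrib, ← Finset.sum_mul] at hsum
  have hs := mul_le_mul_of_nonneg_left hsum (inv_nonneg.2 (Real.sqrt_nonneg n))
  by_contra hcon
  rw [not_le] at hcon
  have h6 := mul_lt_mul_of_pos_left hcon h2
  rw [mul_add] at hs
  have h7 : (Real.sqrt n)⁻¹ * ((∑ i ∈ range (n + 1), tnt_rdhc a b (i / Real.sqrt n)) * (Real.sqrt n * (u n y / y))) =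
    (Real.sqrt n)⁻¹ * (∑ i ∈ range (n + 1), tnt_rdhc a b (i / Real.sqrt n)) * (Real.sqrt n * (u n y / y)) := by ring
  have h8 : (Real.sqrt n)⁻¹ * ((∑ i ∈ range (n + 1), tnt_rdhc a b (i / Real.sqrt n)) * (Real.sqrt n * (n * E n))) =
    (Real.sqrt n)⁻¹ * (∑ i ∈ range (n + 1), tnt_rdhc a b (i / Real.sqrt n)) * (Real.sqrt n * (n * E n)) := by ring
  rw [h7, h8] at hs
  linarith

private lemma win_low {a b ε : ℝ} (ha : 0 < a) (hab : a < b) (hε : 0 < ε) :
    ∀ᶠ n : ℕ in atTop, ∀ y : ℕ, 1 ≤ y → (y : ℝ) ≤ a * Real.sqrt n →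
      qq_rdhc v b - ε ≤ Real.sqrt n * (u n y / y) := by
  have hS := riem ha.le hab
  have hM := hmeas _ (ff_cz (b := b) ha)
  have hI := tnt_int_pos ha.le hab
  have hLa := La_ge hv ha hab
  have hlim := ((hS.mul (sq_lim hE0 hE)).sub hM).add (hS.mul_const (qq_rdhc v b - ε))
  have hneg : (∫ z in (0 : ℝ)..b, tnt_rdhc a b z) * 0 - La v (ff_rdhc a b) +
      (∫ z in (0 : ℝ)..b, tnt_rdhc a b z) * (qq_rdhc v b - ε) < 0 := by nlinarith
  filter_upwards [hlim.eventually_lt_const hneg, hS.eventually_const_lt hI, hm, eventually_ge_atTop 1,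
    sqrt_top.eventually_ge_atTop (2 * b)]
    with n h1 h2 h4 h5 h6' y hy1 hy2
  have hr0 : 0 < Real.sqrt n := Real.sqrt_pos.2 (by exact_mod_cast h5)
  have hrr : Real.sqrt n * Real.sqrt n = n := Real.mul_self_sqrt (Nat.cast_nonneg n)
  have hterm : ∀ z ∈ range (n + 1), ff_rdhc a b (z / Real.sqrt n) * u n z ≤
      tnt_rdhc a b (z / Real.sqrt n) * (Real.sqrt n * (u n y / y)) + tnt_rdhc a b (z / Real.sqrt n) * (Real.sqrt n * (n * E n)) := by
    intro z hz
    rcases le_or_gt ((z : ℝ) / Real.sqrt n) a with h | h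
    · rw [ff_rdhc, tnt_l h]; simp
    rcases le_or_gt b ((z : ℝ) / Real.sqrt n) with h' | h'
    · rw [ff_rdhc, tnt_r h']; simp
    · have hz0 : (0 : ℝ) < z := by
        rw [lt_div_iff₀ hr0] at h
        nlinarith
      have hzy : y ≤ z := by
        rw [lt_div_iff₀ hr0] at h
        exact_mod_cast (hy2.trans h.le)
      have hzn : 2 * z ≤ n := by
        rw [div_lt_iff₀ hr0] at h'
        have : (2 : ℝ) * z ≤ n := by nlinarith
        exact_mod_cast this
      have hc := mono_chain (hE0 n) h4 hy1 hzy hzn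
      have hf : ff_rdhc a b (z / Real.sqrt n) * u n z = tnt_rdhc a b (z / Real.sqrt n) * (Real.sqrt n * (u n z / z)) := by
        rw [ff_rdhc, max_eq_left h.le]
        field_simp
      rw [hf, ← mul_add]
      refine mul_le_mul_of_nonneg_left ?_ (tnt_nn _ _ _)
      rw [← mul_add]
      exact mul_le_mul_of_nonneg_left hc hr0.le
  have hsum := Finset.sum_le_sum hterm
  rw [Finset.sum_add_distrib, ← Finset.sum_mul, ← Finset.sum_mul] at hsum
  have hs := mul_le_mul_of_nonneg_left hsum (inv_nonneg.2 (Real.sqrt_nonneg n))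
  by_contra hcon
  rw [not_le] at hcon
  have h6 := mul_lt_mul_of_pos_left hcon h2
  rw [mul_add] at hs
  have h7 : (Real.sqrt n)⁻¹ * ((∑ i ∈ range (n + 1), tnt_rdhc a b (i / Real.sqrt n)) * (Real.sqrt n * (u n y / y))) =
    (Real.sqrt n)⁻¹ * (∑ i ∈ range (n + 1), tnt_rdhc a b (i / Real.sqrt n)) * (Real.sqrt n * (u n y / y)) := by ring
  have h8 : (Real.sqrt n)⁻¹ * ((∑ i ∈ range (n + 1), tnt_rdhc a b (i / Real.sqrt n)) * (Real.sqrt n * (n * E n))) =
    (Real.sqrt n)⁻¹ * (∑ i ∈ range (n + 1), tnt_rdhc a b (i / Real.sqrt n)) * (Real.sqrt n * (n * E n)) := by ring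
  rw [h7, h8] at hs
  linarith

end wins

private lemma win_tail {n : ℕ} {w : ℕ → ℝ} {e C B : ℝ} (he : 0 ≤ e) (hB : 0 < B) (hn : 1 ≤ n)
    (hnn : ∀ y ≤ n, 0 ≤ w y)
    (hm : ∀ y : ℕ, 1 ≤ y → 2 * y ≤ n → (y : ℝ) * w (y + 1) ≤ ((y : ℝ) + 1) * w y + e)
    (hmass : (Real.sqrt n)⁻¹ * ∑ y ∈ range (n + 1), w y ≤ C) {y : ℕ} (hy : B * Real.sqrt n ≤ y)
    (hy2 : 2 * y ≤ n) : w y ≤ 4 * C / B + n * (n * e) := by
  have hr0 : 0 < Real.sqrt n := Real.sqrt_pos.2 (by exact_mod_cast hn)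
  have hy0 : (0 : ℝ) < y := lt_of_lt_of_le (by positivity) hy
  have hy1 : 1 ≤ y := by exact_mod_cast hy0
  have hS0 : 0 ≤ ∑ y ∈ range (n + 1), w y :=
    Finset.sum_nonneg fun z hz => hnn z (by rw [Finset.mem_range] at hz; omega)
  have hS : ∑ y ∈ range (n + 1), w y ≤ C * Real.sqrt n := by
    rw [inv_mul_le_iff₀ hr0] at hmass
    linarith
  have hC0 : 0 ≤ C := by
    by_contra h
    have : C * Real.sqrt n < 0 := mul_neg_of_neg_of_pos (not_le.mp h) hr0
    linarith
  have hcard : (y : ℝ) / 2 ≤ ((Finset.Icc ((y + 1) / 2) y).card : ℝ) := by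
    rw [Nat.card_Icc]
    have h1 : y ≤ 2 * (y + 1 - (y + 1) / 2) := by omega
    have h2 : (y : ℝ) ≤ 2 * ((y + 1 - (y + 1) / 2 : ℕ) : ℝ) := by exact_mod_cast h1
    linarith
  have hterm : ∀ z ∈ Finset.Icc ((y + 1) / 2) y, w y - n * (n * e) ≤ 2 * w z := by
    intro z hz
    rw [Finset.mem_Icc] at hz
    have hz1 : 1 ≤ z := by omega
    have hc := mono_chain he hm hz1 hz.2 hy2
    have hzr : (0 : ℝ) < z := by exact_mod_cast hz1
    have h2z : (y : ℝ) ≤ 2 * z := by exact_mod_cast (by omega : y ≤ 2 * z)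
    rw [div_le_iff₀ hy0] at hc
    have h1 : w z / z * y ≤ 2 * w z := by
      rw [div_mul_eq_mul_div, div_le_iff₀ hzr]
      nlinarith [hnn z (by omega)]
    have hyn : (y : ℝ) ≤ n := by exact_mod_cast (by omega : y ≤ n)
    have h2 : n * e * y ≤ n * (n * e) := by
      have : 0 ≤ (n : ℝ) * e := by positivity
      nlinarith
    nlinarith
  have hsum := Finset.sum_le_sum hterm
  rw [Finset.sum_const, nsmul_eq_mul, ← Finset.mul_sum] at hsum
  have hsub : ∑ z ∈ Finset.Icc ((y + 1) / 2) y, w z ≤ ∑ z ∈ range (n + 1), w z := by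
    refine Finset.sum_le_sum_of_subset_of_nonneg (fun z hz => ?_) fun z hz _ => ?_
    · rw [Finset.mem_Icc] at hz
      rw [Finset.mem_range]
      omega
    · exact hnn z (by rw [Finset.mem_range] at hz; omega)
  by_contra hcon
  rw [not_le] at hcon
  have h1 : 4 * C / B < w y - n * (n * e) := by linarith
  have h2 : 0 ≤ 4 * C / B := by positivity
  have h3 : (y : ℝ) / 2 * (w y - n * (n * e)) ≤ 2 * (C * Real.sqrt n) := by
    refine le_trans (mul_le_mul_of_nonneg_right hcard (by linarith)) (hsum.trans ?_)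
    linarith
  have h4 : (y : ℝ) / 2 * (4 * C / B) < (y : ℝ) / 2 * (w y - n * (n * e)) :=
    mul_lt_mul_of_pos_left h1 (by positivity)
  have h5 : 2 * (C * Real.sqrt n) ≤ (y : ℝ) / 2 * (4 * C / B) := by
    have h6 : (y : ℝ) / 2 * (4 * C / B) = 2 * C * (y / B) := by ring
    rw [h6]
    have h7 : Real.sqrt n ≤ y / B := by
      rw [le_div_iff₀ hB]
      linarith
    nlinarith
  linarith

theorem abs_lim_rdhc {u : ℕ → ℕ → ℝ} {v C : ℝ} {E F : ℕ → ℝ} (hv : 0 < v) (hC : 0 < C)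
    (hpt : ∀ᶠ n : ℕ in atTop, ∀ y ≤ n, 0 ≤ u n y ∧ u n y ≤ C * (1 + y) / Real.sqrt n)
    (hmass : ∀ᶠ n : ℕ in atTop, (Real.sqrt n)⁻¹ * ∑ y ∈ range (n + 1), u n y ≤ C)
    (hE0 : ∀ n, 0 ≤ E n) (hE : Tendsto (fun n : ℕ => (n : ℝ) * (n * E n)) atTop (nhds 0))
    (hm : ∀ᶠ n : ℕ in atTop, ∀ y : ℕ, 1 ≤ y → 2 * y ≤ n →
      (y : ℝ) * u n (y + 1) ≤ ((y : ℝ) + 1) * u n y + E n)
    (hF : Tendsto F atTop (nhds 0))
    (hfar : ∀ᶠ n : ℕ in atTop, ∀ y : ℕ, n ≤ 2 * y → y ≤ n → u n y ≤ F n)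
    (hmeas : ∀ f : ℝ → ℝ, Cz f → Tendsto (fun n : ℕ => (Real.sqrt n)⁻¹ * ∑ y ∈ range (n + 1),
      f (y / Real.sqrt n) * u n y) atTop (nhds (La v f))) : SupLim u (rho v) := by
  intro ε hε
  have hq0 := qq_pos hv 0
  set q0 := qq_rdhc v 0 with hq0d
  -- parameters
  set η := ε / (4 * (C + q0)) with hη
  have hη0 : 0 < η := by positivity
  have hη1 : C * η + η * q0 = ε / 4 := by rw [hη]; field_simp
  set B := 1 + 8 * C / ε + 2 * v * q0 / ε with hB
  have hB1 : 1 ≤ B := by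
    have : 0 ≤ 8 * C / ε := by positivity
    have : 0 ≤ 2 * v * q0 / ε := by positivity
    linarith
  have hB0 : 0 < B := by linarith
  have hB2 : 4 * C / B ≤ ε / 2 := by
    rw [div_le_iff₀ hB0]
    have h1 : 8 * C / ε ≤ B := by
      have : 0 ≤ 2 * v * q0 / ε := by positivity
      linarith
    rw [div_le_iff₀ hε] at h1
    linarith
  have hB3 : 2 * v * q0 / B ≤ ε := by
    rw [div_le_iff₀ hB0]
    have h1 : 2 * v * q0 / ε ≤ B := by
      have : 0 ≤ 8 * C / ε := by positivity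
      linarith
    rw [div_le_iff₀ hε] at h1
    linarith
  set δ := min (η / 2) (min (1 / 2) (ε * v / (4 * B * (B + 1) * q0))) with hδ
  have hδ0 : 0 < δ := by
    have : 0 < ε * v / (4 * B * (B + 1) * q0) := by positivity
    exact lt_min (by positivity) (lt_min (by norm_num) this)
  have hδ1 : 2 * δ ≤ η := by
    have : δ ≤ η / 2 := min_le_left _ _
    linarith
  have hδ2 : δ ≤ 1 / 2 := (min_le_right _ _).trans (min_le_left _ _)
  have hδ3 : B * (4 * δ * (B + 1) / (2 * v) * q0) ≤ ε / 2 := by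
    have h1 : δ ≤ ε * v / (4 * B * (B + 1) * q0) := (min_le_right _ _).trans (min_le_right _ _)
    rw [le_div_iff₀ (by positivity)] at h1
    have h2 : B * (4 * δ * (B + 1) / (2 * v) * q0) = δ * (4 * B * (B + 1) * q0) / (2 * v) := by ring
    rw [h2, div_le_iff₀ (by positivity)]
    linarith
  set m := ⌈B / δ⌉₊ + 1 with hmd
  have hup : ∀ᶠ n : ℕ in atTop, ∀ j ∈ range m, ∀ y : ℕ, ((j : ℝ) + 2) * δ * Real.sqrt n ≤ y → 2 * y ≤ n →
      Real.sqrt n * (u n y / y) ≤ qq_rdhc v (((j : ℝ) + 1) * δ) + ε / (2 * B) := by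
    rw [Filter.eventually_all_finset]
    intro j _
    exact win_up hv hE0 hE hm hmeas (by positivity) (by nlinarith) (by positivity)
  have hlow : ∀ᶠ n : ℕ in atTop, ∀ j ∈ range m, ∀ y : ℕ, 1 ≤ y → (y : ℝ) ≤ ((j : ℝ) + 1) * δ * Real.sqrt n →
      qq_rdhc v (((j : ℝ) + 2) * δ) - ε / (2 * B) ≤ Real.sqrt n * (u n y / y) := by
    rw [Filter.eventually_all_finset]
    intro j _
    exact win_low hv hE0 hE hm hmeas (by positivity) (by nlinarith) (by positivity)
  filter_upwards [hpt, hmass, hm, hfar, hup, hlow, eventually_ge_atTop 1,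
    hE.eventually_lt_const (by positivity : (0 : ℝ) < ε / 2), hF.eventually_lt_const hε,
    sqrt_top.eventually_ge_atTop (4 * C / ε), sqrt_top.eventually_ge_atTop (4 * v * q0 / ε)]
    with n h1 h2 h3 h4 h5 h6 h7 h8 h9 h10 h11 y hy
  have hr0 : 0 < Real.sqrt n := Real.sqrt_pos.2 (by exact_mod_cast h7)
  have hrr : Real.sqrt n * Real.sqrt n = n := Real.mul_self_sqrt (Nat.cast_nonneg n)
  obtain ⟨hu0, hu1⟩ := h1 y hy
  set w := (y : ℝ) / Real.sqrt n with hw
  have hw0 : 0 ≤ w := by positivity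
  have hyw : (y : ℝ) = w * Real.sqrt n := by rw [hw]; field_simp
  have hrho0 : 0 ≤ rho v w := by rw [rho_qq]; exact mul_nonneg hw0 (qq_pos hv w).le
  rcases le_or_gt w η with hc1 | hc1
  · -- small heights
    have h12 : u n y ≤ C / Real.sqrt n + C * w := by
      refine hu1.trans (le_of_eq ?_)
      rw [hw]; ring
    have h13 : C / Real.sqrt n ≤ ε / 4 := by
      rw [div_le_iff₀ hr0]
      rw [div_le_iff₀ hε] at h10
      linarith
    have h14 : rho v w ≤ η * q0 := by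
      rw [rho_qq]
      exact mul_le_mul hc1 (qq_anti hv le_rfl hw0) (qq_pos hv w).le hη0.le
    have h15 : C * w ≤ C * η := mul_le_mul_of_nonneg_left hc1 hC.le
    have h16 : 0 ≤ η * q0 := by positivity
    have h17 : 0 ≤ C * η := by positivity
    rw [abs_le]
    constructor <;> linarith
  have hwp : 0 < w := hη0.trans hc1
  have hyp : (0 : ℝ) < y := by rw [hyw]; positivity
  have hy1 : 1 ≤ y := by exact_mod_cast hyp
  have hrt := rho_tail hv hwp
  rcases le_or_gt n (2 * y) with hc2 | hc2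
  · -- far
    have h12 := h4 y hc2 hy
    have h13 : rho v w ≤ ε := by
      refine hrt.trans ?_
      rw [div_le_iff₀ hwp]
      have h14 : Real.sqrt n / 2 ≤ w := by
        rw [hw, le_div_iff₀ hr0]
        have : (n : ℝ) ≤ 2 * y := by exact_mod_cast hc2
        nlinarith only [this, hrr, hr0]
      rw [div_le_iff₀ hε] at h11
      linarith [mul_le_mul_of_nonneg_left h14 hε.le]
    rw [abs_le]
    constructor <;> linarith
  rcases le_or_gt B w with hc3 | hc3
  · -- large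
    have h12 := win_tail (hE0 n) hB0 h7 (fun y hy => (h1 y hy).1) h3 h2
      (y := y) (by rw [hyw]; exact mul_le_mul_of_nonneg_right hc3 hr0.le) hc2.le
    have h13 : rho v w ≤ ε := by
      refine hrt.trans (le_trans ?_ hB3)
      exact div_le_div_of_nonneg_left (by positivity) hB0 hc3
    rw [abs_le]
    constructor <;> linarith
  -- middle
  obtain ⟨i, hi⟩ : ∃ i : ℕ, i = ⌊w / δ⌋₊ := ⟨_, rfl⟩
  have hi1 : (i : ℝ) * δ ≤ w := by
    have := Nat.floor_le (div_nonneg hw0 hδ0.le)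
    rw [← hi] at this
    rwa [le_div_iff₀ hδ0] at this
  have hi2 : w < ((i : ℝ) + 1) * δ := by
    have := Nat.lt_floor_add_one (w / δ)
    rw [← hi] at this
    rwa [div_lt_iff₀ hδ0] at this
  have hi3 : 2 ≤ i := by
    rw [hi]
    refine Nat.le_floor ?_
    rw [le_div_iff₀ hδ0]
    push_cast
    linarith
  have him : i < m := by
    have h12 : (i : ℝ) ≤ B / δ := by
      rw [le_div_iff₀ hδ0]
      linarith
    have h13 := Nat.le_ceil (B / δ)
    have h14 : i ≤ ⌈B / δ⌉₊ := by exact_mod_cast h12.trans h13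
    omega
  clear hi
  obtain ⟨j, rfl⟩ : ∃ j, i = j + 2 := ⟨i - 2, by omega⟩
  have hA := h5 j (Finset.mem_range.2 (by omega)) y (by
    rw [hyw]
    refine mul_le_mul_of_nonneg_right ?_ hr0.le
    push_cast at hi1
    linarith) hc2.le
  have hBw := h6 (j + 2) (Finset.mem_range.2 him) y hy1 (by
    rw [hyw]
    refine mul_le_mul_of_nonneg_right ?_ hr0.le
    exact hi2.le)
  push_cast at hi1 hi2 hBw
  set Q := Real.sqrt n * (u n y / y) with hQ
  have huQ : u n y = w * Q := by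
    rw [hQ, hw]
    field_simp
  have hj0 : (0 : ℝ) ≤ j := Nat.cast_nonneg j
  have h20 : qq_rdhc v (((j : ℝ) + 1) * δ) - qq_rdhc v w ≤ 4 * δ * (B + 1) / (2 * v) * q0 := by
    have hle : ((j : ℝ) + 1) * δ ≤ w := by linarith
    refine (qq_lip hv (by positivity) hle).trans ?_
    refine mul_le_mul_of_nonneg_right ?_ hq0.le
    refine div_le_div_of_nonneg_right ?_ (by positivity)
    have h21 : w - ((j : ℝ) + 1) * δ ≤ 2 * δ := by linarith
    have h22 : w + ((j : ℝ) + 1) * δ ≤ 2 * (B + 1) := by linarith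
    have h23 : w ^ 2 - (((j : ℝ) + 1) * δ) ^ 2 = (w - ((j : ℝ) + 1) * δ) * (w + ((j : ℝ) + 1) * δ) := by ring
    rw [h23]
    have h24 : 0 ≤ w - ((j : ℝ) + 1) * δ := by linarith
    have h25 : 0 ≤ w + ((j : ℝ) + 1) * δ := by positivity
    linarith [mul_le_mul h21 h22 h25 (by positivity)]
  have h30 : qq_rdhc v w - qq_rdhc v (((j : ℝ) + 2 + 2) * δ) ≤ 4 * δ * (B + 1) / (2 * v) * q0 := by
    have hle : w ≤ ((j : ℝ) + 2 + 2) * δ := by linarith
    refine (qq_lip hv hw0 hle).trans ?_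
    refine mul_le_mul_of_nonneg_right ?_ hq0.le
    refine div_le_div_of_nonneg_right ?_ (by positivity)
    have h21 : ((j : ℝ) + 2 + 2) * δ - w ≤ 2 * δ := by linarith
    have h22 : ((j : ℝ) + 2 + 2) * δ + w ≤ 2 * (B + 1) := by linarith
    have h23 : (((j : ℝ) + 2 + 2) * δ) ^ 2 - w ^ 2 = (((j : ℝ) + 2 + 2) * δ - w) * (((j : ℝ) + 2 + 2) * δ + w) := by ring
    rw [h23]
    have h24 : 0 ≤ ((j : ℝ) + 2 + 2) * δ - w := by linarith
    have h25 : 0 ≤ ((j : ℝ) + 2 + 2) * δ + w := by positivity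
    linarith [mul_le_mul h21 h22 h25 (by positivity)]
  rw [rho_qq, huQ, ← mul_sub, abs_mul, abs_of_nonneg hw0]
  have h40 : |Q - qq_rdhc v w| ≤ 4 * δ * (B + 1) / (2 * v) * q0 + ε / (2 * B) := by
    rw [abs_le]
    constructor <;> linarith
  have h41 : B * (ε / (2 * B)) = ε / 2 := by field_simp
  calc w * |Q - qq_rdhc v w| ≤ B * (4 * δ * (B + 1) / (2 * v) * q0 + ε / (2 * B)) :=
        mul_le_mul hc3.le h40 (abs_nonneg _) hB0.le
    _ ≤ ε := by rw [mul_add, h41]; linarith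

end Pool.Agent.Helper49.RD
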