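import Pool.Agent.Helper49.RD.HkDef

/-!
Block RD-HK1: facts about the heat kernel of the half line (pure analysis).

Paper proofs. `v > 0` throughout. Gaussian integrals: `∫ exp (-b x²) dx = √(π/b)` (`integral_gaussian`), `∫_{x > 0} x exp (-b x²) dx = 1/(2 b)`, Fourier transform of the Gaussian (`fourierIntegral_gaussian` or
`integral_cexp_quadratic`): `∫ exp (-x²/(2 v)) cos (u x) dx = √(2 π v) exp (-v u²/2)`.
* `hk_nonneg`: `(y - z)² ≤ (y + z)²` for `y, z ≥ 0`.
* `la_sin`: integrate by parts: `∫_0^∞ z e^{-z²/2v} sin (u z) dz = v u ∫_0^∞ e^{-z²/2v} cos (u z) dz = v u √(2 π v)/2 e^{-v u²/2} = √(π/2) v^{3/2} u e^{-v u²/2}`.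
* `tv_sin`: substitute `z → -z` in the second part: `Tv v f y = ∫_ℝ exp (-(y - z)²/(2v)) f z dz/√(2πv)` for odd `f`; `sin (u z) = sin (u y) cos (u (z - y)) + cos (u y) sin (u (z - y))`, the odd part vanishes.
* `tv_le`, `la_le`: bound of the integrand, `∫_{z > 0} hk v y z dz ≤ ∫ exp (-(y - z)²/(2v))/√(2πv) dz = 1`, `∫_0^∞ rho v z dz = √(2/(π v)) ≤ 1/√v`.
* `tv_small`, `la_small`: `hk ≤ 1/√(2πv) ≤ 1/√v`, `rho v z ≤ 1/v` (`z/√v e^{-z²/2v} ≤ e^{-1/2}`, `√(2/π) e^{-1/2} ≤ 1`).
* `tv_lin`, `la_lin`: linearity of the integral, the integrands are integrable (bounded measurable functions times a Gaussian).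
-/

open Set Filter MeasureTheory

namespace Pool.Agent.Helper49.RD

private noncomputable def G50 (v x : ℝ) : ℝ := Real.exp (-(x ^ 2 / (2 * v)))

private theorem G50_eq (v : ℝ) : G50 v = fun x => Real.exp (-(1 / (2 * v)) * x ^ 2) := by
  funext x
  unfold G50
  congr 1
  ring

private theorem G50_int {v : ℝ} (hv : 0 < v) : Integrable (G50 v) := by
  rw [G50_eq]
  exact integrable_exp_neg_mul_sq (by positivity)

private theorem G50_pos (v x : ℝ) : 0 < G50 v x := Real.exp_pos _

private theorem G50_le {v : ℝ} (hv : 0 < v) (x : ℝ) : G50 v x ≤ 1 := by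
  unfold G50
  rw [Real.exp_le_one_iff, neg_nonpos]
  positivity

private theorem G50_cont (v : ℝ) : Continuous (G50 v) := by
  unfold G50
  fun_prop

private theorem G50_neg (v x : ℝ) : G50 v (-x) = G50 v x := by
  unfold G50
  rw [neg_sq]

private theorem G50_val {v : ℝ} (hv : 0 < v) : ∫ x, G50 v x = Real.sqrt (2 * Real.pi * v) := by
  rw [G50_eq, integral_gaussian]
  congr 1
  field_simp

private theorem Gx50_int {v : ℝ} (hv : 0 < v) : Integrable (fun x => x * G50 v x) := by
  rw [G50_eq]
  exact integrable_mul_exp_neg_mul_sq (by positivity)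

private theorem Gx50_val {v : ℝ} (hv : 0 < v) : ∫ x in Ioi (0 : ℝ), x * G50 v x = v := by
  have h := integral_mul_cexp_neg_mul_sq (b := ((1 / (2 * v) : ℝ) : ℂ)) (by
    rw [Complex.ofReal_re]; positivity)
  have h2 : ((∫ x in Ioi (0 : ℝ), x * G50 v x : ℝ) : ℂ) = ((v : ℝ) : ℂ) := by
    rw [← integral_complex_ofReal]
    have h3 : (∫ x in Ioi (0 : ℝ), ((x * G50 v x : ℝ) : ℂ))
        = ∫ r : ℝ in Ioi 0, (r : ℂ) * Complex.exp (-((1 / (2 * v) : ℝ) : ℂ) * (r : ℂ) ^ 2) := by
      apply integral_congr_ae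
      refine Filter.Eventually.of_forall (fun x => ?_)
      simp only [G50_eq]
      push_cast
      rfl
    rw [h3, h]
    have hv' : (v : ℂ) ≠ 0 := by exact_mod_cast hv.ne'
    push_cast
    field_simp
  exact_mod_cast h2

private theorem Gcos50_val {v : ℝ} (hv : 0 < v) (u : ℝ) :
    ∫ x, G50 v x * Real.cos (u * x) = Real.sqrt (2 * Real.pi * v) * Real.exp (-(v * u ^ 2 / 2)) := by
  have h := fourierIntegral_gaussian (b := ((1 / (2 * v) : ℝ) : ℂ)) (by
    rw [Complex.ofReal_re]; positivity) (u : ℂ)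
  have hint : Integrable (fun x : ℝ => Complex.exp (Complex.I * (u : ℂ) * x) *
      Complex.exp (-((1 / (2 * v) : ℝ) : ℂ) * (x : ℂ) ^ 2)) := by
    have := integrable_cexp_quadratic (b := ((1 / (2 * v) : ℝ) : ℂ)) (by
      rw [Complex.ofReal_re]; positivity) (Complex.I * (u : ℂ)) 0
    refine this.congr (Filter.Eventually.of_forall fun x => ?_)
    simp only
    rw [← Complex.exp_add]
    congr 1
    ring
  have hre : ∀ x : ℝ, (Complex.exp (Complex.I * (u : ℂ) * x) *
      Complex.exp (-((1 / (2 * v) : ℝ) : ℂ) * (x : ℂ) ^ 2)).re = G50 v x * Real.cos (u * x) := by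
    intro x
    have e1 : Complex.exp (-((1 / (2 * v) : ℝ) : ℂ) * (x : ℂ) ^ 2) = ((G50 v x : ℝ) : ℂ) := by
      rw [G50_eq]
      push_cast
      rfl
    have e2 : Complex.exp (Complex.I * (u : ℂ) * x) = Complex.exp (((u * x : ℝ) : ℂ) * Complex.I) := by
      congr 1
      push_cast
      ring
    rw [e1, e2, Complex.re_mul_ofReal, Complex.exp_ofReal_mul_I_re]
    ring
  have h4 : (∫ x, G50 v x * Real.cos (u * x)) = (∫ x : ℝ, Complex.exp (Complex.I * (u : ℂ) * x) *
      Complex.exp (-((1 / (2 * v) : ℝ) : ℂ) * (x : ℂ) ^ 2)).re := by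
    have := integral_re hint
    simp only [RCLike.re_to_complex] at this
    rw [← this]
    exact integral_congr_ae (Filter.Eventually.of_forall fun x => (hre x).symm)
  rw [h4, h]
  have e5 : ((Real.pi : ℂ) / ((1 / (2 * v) : ℝ) : ℂ)) ^ (1 / 2 : ℂ) = ((Real.sqrt (2 * Real.pi * v) : ℝ) : ℂ) := by
    have : ((Real.pi : ℂ) / ((1 / (2 * v) : ℝ) : ℂ)) = ((2 * Real.pi * v : ℝ) : ℂ) := by
      have hv' : (v : ℂ) ≠ 0 := by exact_mod_cast hv.ne'
      push_cast
      field_simp
    rw [this, Real.sqrt_eq_rpow, Complex.ofReal_cpow (by positivity)]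
    push_cast
    rfl
  have e6 : Complex.exp (-(u : ℂ) ^ 2 / (4 * ((1 / (2 * v) : ℝ) : ℂ))) = ((Real.exp (-(v * u ^ 2 / 2)) : ℝ) : ℂ) := by
    push_cast
    congr 1
    have hv' : (v : ℂ) ≠ 0 := by exact_mod_cast hv.ne'
    field_simp
    ring
  rw [e5, e6, ← Complex.ofReal_mul, Complex.ofReal_re]

private theorem Gsin50_val {v : ℝ} (u : ℝ) : ∫ x, G50 v x * Real.sin (u * x) = 0 := by
  have h := integral_neg_eq_self (fun x => G50 v x * Real.sin (u * x)) volume
  have h2 : (∫ x, G50 v (-x) * Real.sin (u * -x)) = -∫ x, G50 v x * Real.sin (u * x) := by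
    rw [← integral_neg]
    apply integral_congr_ae
    refine Filter.Eventually.of_forall (fun x => ?_)
    simp only
    rw [G50_neg, mul_neg, Real.sin_neg, mul_neg]
  rw [h2] at h
  linarith

private theorem Gbdd50 {v : ℝ} (hv : 0 < v) {g : ℝ → ℝ} (hg : Continuous g) (hb : ∀ x, |g x| ≤ 1) :
    Integrable (fun x => G50 v x * g x) := by
  refine (G50_int hv).mono' ((G50_cont v).mul hg).aestronglyMeasurable ?_
  refine Filter.Eventually.of_forall (fun x => ?_)
  rw [Real.norm_eq_abs, abs_mul, abs_of_pos (G50_pos v x)]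
  calc G50 v x * |g x| ≤ G50 v x * 1 := mul_le_mul_of_nonneg_left (hb x) (G50_pos v x).le
    _ = G50 v x := mul_one _

private theorem hk_eq50 (v y z : ℝ) : hk v y z = (G50 v (y - z) - G50 v (y + z)) / Real.sqrt (2 * Real.pi * v) := rfl

private theorem rho_eq50 (v z : ℝ) : rho v z = z * G50 v z / (Real.sqrt (Real.pi / 2) * (v * Real.sqrt v)) := rfl

private theorem sp50 {v : ℝ} (hv : 0 < v) : 0 < Real.sqrt (2 * Real.pi * v) :=
  Real.sqrt_pos.mpr (by positivity)

private theorem sv50 {v : ℝ} (hv : 0 < v) : Real.sqrt v ≤ Real.sqrt (2 * Real.pi * v) := by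
  apply Real.sqrt_le_sqrt
  have := Real.pi_gt_three
  nlinarith

private theorem s1_50 : 1 ≤ Real.sqrt (Real.pi / 2) := by
  rw [Real.one_le_sqrt]
  have := Real.pi_gt_three
  linarith

theorem hk_nonneg {v y z : ℝ} (hv : 0 < v) (hy : 0 ≤ y) (hz : 0 ≤ z) : 0 ≤ hk v y z := by
  rw [hk_eq50]
  apply div_nonneg _ (sp50 hv).le
  rw [sub_nonneg]
  unfold G50
  apply Real.exp_le_exp.mpr
  rw [neg_le_neg_iff]
  apply div_le_div_of_nonneg_right _ (by positivity)
  nlinarith [mul_nonneg hy hz]

theorem la_sin {v : ℝ} (hv : 0 < v) (u : ℝ) : La v (fun z => Real.sin (u * z)) = u * Real.exp (-(v * u ^ 2 / 2)) := by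
  have hd : ∀ x : ℝ, HasDerivAt (fun x => -v * G50 v x) (x * G50 v x) x := by
    intro x
    have h1 : HasDerivAt (fun x : ℝ => -(x ^ 2 / (2 * v))) (-(2 * x / (2 * v))) x := by
      have h0 : HasDerivAt (fun x : ℝ => x ^ 2) (2 * x) x := by
        simpa using hasDerivAt_pow 2 x
      exact (h0.div_const (2 * v)).neg
    have h2 := h1.exp.const_mul (-v)
    have h3 : x * G50 v x = -v * (Real.exp (-(x ^ 2 / (2 * v))) * -(2 * x / (2 * v))) := by
      unfold G50
      have hv' := hv.ne'
      field_simp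
    rw [h3]
    exact h2
  have hs : ∀ x : ℝ, HasDerivAt (fun x => Real.sin (u * x)) (Real.cos (u * x) * u) x := by
    intro x
    have h1 : HasDerivAt (fun x : ℝ => u * x) u x := by
      simpa using (hasDerivAt_id x).const_mul u
    exact h1.sin
  have hi1 : Integrable ((fun x => Real.sin (u * x)) * (fun x => x * G50 v x)) := by
    refine (Gx50_int hv).abs.mono' ?_ ?_
    · apply Continuous.aestronglyMeasurable
      have := G50_cont v
      exact (by fun_prop : Continuous (fun x : ℝ => Real.sin (u * x))).mul (continuous_id.mul this)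
    · refine Filter.Eventually.of_forall (fun x => ?_)
      simp only [Pi.mul_apply]
      rw [Real.norm_eq_abs, abs_mul]
      calc |Real.sin (u * x)| * |x * G50 v x| ≤ 1 * |x * G50 v x| :=
            mul_le_mul_of_nonneg_right (Real.abs_sin_le_one _) (abs_nonneg _)
        _ = |x * G50 v x| := one_mul _
  have hi2 : Integrable ((fun x => Real.cos (u * x) * u) * (fun x => -v * G50 v x)) := by
    have := (Gbdd50 hv (g := fun x => Real.cos (u * x)) (by fun_prop) (fun x => Real.abs_cos_le_one _)).const_mul (-v * u)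
    refine this.congr (Filter.Eventually.of_forall fun x => ?_)
    simp only [Pi.mul_apply]
    ring
  have hi3 : Integrable ((fun x => Real.sin (u * x)) * (fun x => -v * G50 v x)) := by
    have := (Gbdd50 hv (g := fun x => Real.sin (u * x)) (by fun_prop) (fun x => Real.abs_sin_le_one _)).const_mul (-v)
    refine this.congr (Filter.Eventually.of_forall fun x => ?_)
    simp only [Pi.mul_apply]
    ring
  have hp := integral_mul_deriv_eq_deriv_mul_of_integrable (fun x _ => hs x) (fun x _ => hd x) hi1 hi2 hi3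
  have hp2 : (∫ x, Real.sin (u * x) * (x * G50 v x)) = v * u * (Real.sqrt (2 * Real.pi * v) * Real.exp (-(v * u ^ 2 / 2))) := by
    rw [hp, ← Gcos50_val hv u, ← integral_neg, ← integral_const_mul]
    apply integral_congr_ae
    refine Filter.Eventually.of_forall (fun x => ?_)
    simp only
    ring
  have hev : (∫ x, Real.sin (u * x) * (x * G50 v x)) = 2 * ∫ x in Ioi (0 : ℝ), Real.sin (u * x) * (x * G50 v x) := by
    rw [← integral_comp_abs]
    apply integral_congr_ae
    refine Filter.Eventually.of_forall (fun x => ?_)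
    simp only
    rcases abs_choice x with h | h
    · rw [h]
    · rw [h, G50_neg, mul_neg, Real.sin_neg]
      ring
  have hL : La v (fun z => Real.sin (u * z)) = (∫ x in Ioi (0 : ℝ), Real.sin (u * x) * (x * G50 v x)) /
      (Real.sqrt (Real.pi / 2) * (v * Real.sqrt v)) := by
    unfold La
    rw [← integral_div]
    apply integral_congr_ae
    refine Filter.Eventually.of_forall (fun x => ?_)
    simp only
    rw [rho_eq50]
    ring
  rw [hL]
  have h7 : (∫ x in Ioi (0 : ℝ), Real.sin (u * x) * (x * G50 v x)) =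
      v * u * (Real.sqrt (2 * Real.pi * v) * Real.exp (-(v * u ^ 2 / 2))) / 2 := by
    rw [← hp2, hev]
    ring
  rw [h7]
  have h8 : Real.sqrt (2 * Real.pi * v) = 2 * (Real.sqrt (Real.pi / 2) * Real.sqrt v) := by
    have : 2 * Real.pi * v = 2 ^ 2 * (Real.pi / 2 * v) := by ring
    rw [this, Real.sqrt_mul (by positivity), Real.sqrt_sq (by norm_num), Real.sqrt_mul (by positivity)]
  rw [h8]
  have h9 : Real.sqrt (Real.pi / 2) ≠ 0 := by
    have := s1_50
    positivity
  have h10 : Real.sqrt v ≠ 0 := (Real.sqrt_pos.mpr hv).ne'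
  have hv' := hv.ne'
  field_simp

theorem tv_sin {v : ℝ} (hv : 0 < v) (u y : ℝ) :
    Tv v (fun z => Real.sin (u * z)) y = Real.exp (-(v * u ^ 2 / 2)) * Real.sin (u * y) := by
  have hsinc : Continuous (fun z : ℝ => Real.sin (u * z)) := by fun_prop
  have hI : Integrable (fun z => G50 v (y - z) * Real.sin (u * z)) := by
    refine ((G50_int hv).comp_sub_left y).mono' ?_ ?_
    · exact (((G50_cont v).comp (by fun_prop)).mul hsinc).aestronglyMeasurable
    · refine Filter.Eventually.of_forall (fun x => ?_)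
      rw [Real.norm_eq_abs, abs_mul, abs_of_pos (G50_pos v _)]
      calc G50 v (y - x) * |Real.sin (u * x)| ≤ G50 v (y - x) * 1 :=
            mul_le_mul_of_nonneg_left (Real.abs_sin_le_one _) (G50_pos v _).le
        _ = G50 v (y - x) := mul_one _
  have hJ : Integrable (fun z => G50 v (y + z) * Real.sin (u * z)) := by
    have h := hI.comp_neg.neg
    refine h.congr (Filter.Eventually.of_forall fun x => ?_)
    simp only [Pi.neg_apply]
    rw [sub_neg_eq_add, mul_neg, Real.sin_neg]
    ring
  have h1 : Tv v (fun z => Real.sin (u * z)) y = ((∫ z in Ioi (0 : ℝ), G50 v (y - z) * Real.sin (u * z))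
      - ∫ z in Ioi (0 : ℝ), G50 v (y + z) * Real.sin (u * z)) / Real.sqrt (2 * Real.pi * v) := by
    unfold Tv
    rw [← integral_sub hI.integrableOn hJ.integrableOn, ← integral_div]
    apply integral_congr_ae
    refine Filter.Eventually.of_forall (fun x => ?_)
    simp only
    rw [hk_eq50]
    ring
  have h2 : (∫ z in Ioi (0 : ℝ), G50 v (y + z) * Real.sin (u * z))
      = - ∫ z in Iic (0 : ℝ), G50 v (y - z) * Real.sin (u * z) := by
    have := integral_comp_neg_Ioi 0 (fun z => G50 v (y - z) * Real.sin (u * z))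
    rw [neg_zero] at this
    rw [← this, ← integral_neg]
    apply integral_congr_ae
    refine Filter.Eventually.of_forall (fun x => ?_)
    simp only
    rw [sub_neg_eq_add, mul_neg, Real.sin_neg]
    ring
  have h3 : (∫ z in Iic (0 : ℝ), G50 v (y - z) * Real.sin (u * z)) + (∫ z in Ioi (0 : ℝ), G50 v (y - z) * Real.sin (u * z))
      = ∫ z, G50 v (y - z) * Real.sin (u * z) := by
    rw [← setIntegral_union (Iic_disjoint_Ioi le_rfl) measurableSet_Ioi hI.integrableOn hI.integrableOn,
      Iic_union_Ioi, Measure.restrict_univ]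
  have h4 : (∫ z, G50 v (y - z) * Real.sin (u * z)) = ∫ x, G50 v x * Real.sin (u * (y - x)) := by
    rw [← integral_sub_left_eq_self (fun x => G50 v x * Real.sin (u * (y - x))) volume y]
    apply integral_congr_ae
    refine Filter.Eventually.of_forall (fun x => ?_)
    simp only
    rw [sub_sub_cancel]
  have h5 : (∫ x, G50 v x * Real.sin (u * (y - x))) = Real.sin (u * y) * (∫ x, G50 v x * Real.cos (u * x))
      - Real.cos (u * y) * ∫ x, G50 v x * Real.sin (u * x) := by
    rw [← integral_const_mul, ← integral_const_mul, ← integral_sub]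
    · apply integral_congr_ae
      refine Filter.Eventually.of_forall (fun x => ?_)
      simp only
      rw [mul_sub, Real.sin_sub]
      ring
    · exact (Gbdd50 hv (by fun_prop) (fun x => Real.abs_cos_le_one _)).const_mul _
    · exact (Gbdd50 hv (by fun_prop) (fun x => Real.abs_sin_le_one _)).const_mul _
  rw [h1, h2, sub_neg_eq_add, add_comm, h3, h4, h5, Gcos50_val hv, Gsin50_val]
  have := (sp50 hv).ne'
  field_simp
  ring

private theorem hkm50 (v y : ℝ) : Continuous (fun z => hk v y z) := by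
  unfold hk
  fun_prop

private theorem hki50 {v : ℝ} (hv : 0 < v) (y : ℝ) : Integrable (fun z => hk v y z) := by
  have h1 := (G50_int hv).comp_sub_left y
  have h2 : Integrable (fun z => G50 v (y + z)) := (G50_int hv).comp_add_left y
  exact (h1.sub h2).div_const _

private theorem rhom50 (v : ℝ) : Continuous (fun z => rho v z) := by
  unfold rho
  fun_prop

private theorem rhoi50 {v : ℝ} (hv : 0 < v) : Integrable (fun z => rho v z) :=
  (Gx50_int hv).div_const _

private theorem Bn50 {B : ℝ} {f : ℝ → ℝ} (hB : ∀ z, 0 < z → |f z| ≤ B) : 0 ≤ B :=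
  le_trans (abs_nonneg _) (hB 1 one_pos)

theorem tv_le {v B : ℝ} (hv : 0 < v) {f : ℝ → ℝ} (hf : Measurable f) (hB : ∀ z, 0 < z → |f z| ≤ B) {y : ℝ}
    (hy : 0 ≤ y) : |Tv v f y| ≤ B := by
  have hB0 := Bn50 hB
  have hgi : Integrable (fun z => G50 v (y - z) / Real.sqrt (2 * Real.pi * v) * B) :=
    (((G50_int hv).comp_sub_left y).div_const _).mul_const _
  have h1 : |Tv v f y| ≤ ∫ z in Ioi (0 : ℝ), G50 v (y - z) / Real.sqrt (2 * Real.pi * v) * B := by
    unfold Tv
    rw [← Real.norm_eq_abs]
    apply norm_integral_le_of_norm_le hgi.integrableOn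
    rw [ae_restrict_iff' measurableSet_Ioi]
    refine Filter.Eventually.of_forall (fun z hz => ?_)
    have hz' : (0 : ℝ) < z := hz
    rw [norm_mul, Real.norm_eq_abs, Real.norm_eq_abs, abs_of_nonneg (hk_nonneg hv hy hz'.le)]
    apply mul_le_mul _ (hB z hz') (abs_nonneg _) (div_nonneg (G50_pos v _).le (sp50 hv).le)
    rw [hk_eq50]
    apply div_le_div_of_nonneg_right _ (sp50 hv).le
    linarith [G50_pos v (y + z)]
  have h2 : (∫ z in Ioi (0 : ℝ), G50 v (y - z) / Real.sqrt (2 * Real.pi * v) * B)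
      ≤ ∫ z, G50 v (y - z) / Real.sqrt (2 * Real.pi * v) * B := by
    apply setIntegral_le_integral hgi
    refine Filter.Eventually.of_forall (fun z => ?_)
    exact mul_nonneg (div_nonneg (G50_pos v _).le (sp50 hv).le) hB0
  have h3 : (∫ z, G50 v (y - z) / Real.sqrt (2 * Real.pi * v) * B) = B := by
    rw [integral_mul_const, integral_div, integral_sub_left_eq_self (fun z => G50 v z) volume y, G50_val hv,
      div_self (sp50 hv).ne', one_mul]
  rw [← h3]
  linarith

theorem la_le {v B : ℝ} (hv : 0 < v) {f : ℝ → ℝ} (hf : Measurable f) (hB : ∀ z, 0 < z → |f z| ≤ B) :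
    |La v f| ≤ B / Real.sqrt v := by
  have hB0 := Bn50 hB
  have hsv := Real.sqrt_pos.mpr hv
  have h1 : |La v f| ≤ ∫ z in Ioi (0 : ℝ), rho v z * B := by
    unfold La
    rw [← Real.norm_eq_abs]
    apply norm_integral_le_of_norm_le ((rhoi50 hv).mul_const _).integrableOn
    rw [ae_restrict_iff' measurableSet_Ioi]
    refine Filter.Eventually.of_forall (fun z hz => ?_)
    have hz' : (0 : ℝ) < z := hz
    have h0 : 0 ≤ rho v z := by
      unfold rho
      positivity
    rw [norm_mul, Real.norm_eq_abs, Real.norm_eq_abs, abs_of_nonneg h0]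
    exact mul_le_mul_of_nonneg_left (hB z hz') h0
  have h2 : (∫ z in Ioi (0 : ℝ), rho v z * B) = B / (Real.sqrt (Real.pi / 2) * Real.sqrt v) := by
    rw [integral_mul_const]
    simp only [rho_eq50]
    rw [integral_div, Gx50_val hv]
    have h9 : Real.sqrt (Real.pi / 2) ≠ 0 := by
      have := s1_50
      positivity
    have hv' := hv.ne'
    field_simp
  rw [h2] at h1
  refine h1.trans ?_
  apply div_le_div_of_nonneg_left hB0 hsv
  nlinarith [s1_50]

theorem tv_small {v B a b : ℝ} (hv : 0 < v) (hab : a ≤ b) (hB0 : 0 ≤ B) {f : ℝ → ℝ} (hf : Measurable f)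
    (hB : ∀ z, 0 < z → |f z| ≤ B) (h0 : ∀ z, 0 < z → z ∉ Icc a b → f z = 0) {y : ℝ} (hy : 0 ≤ y) :
    |Tv v f y| ≤ B * (b - a) / Real.sqrt v := by
  have hsv := Real.sqrt_pos.mpr hv
  have hgi : Integrable ((Icc a b).indicator (fun _ => B / Real.sqrt v)) := by
    rw [integrable_indicator_iff measurableSet_Icc]
    exact continuous_const.integrableOn_Icc
  have h1 : |Tv v f y| ≤ ∫ z in Ioi (0 : ℝ), (Icc a b).indicator (fun _ => B / Real.sqrt v) z := by
    unfold Tv
    rw [← Real.norm_eq_abs]
    apply norm_integral_le_of_norm_le hgi.integrableOn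
    rw [ae_restrict_iff' measurableSet_Ioi]
    refine Filter.Eventually.of_forall (fun z hz => ?_)
    have hz' : (0 : ℝ) < z := hz
    by_cases hzi : z ∈ Icc a b
    · rw [Set.indicator_of_mem hzi, norm_mul, Real.norm_eq_abs, Real.norm_eq_abs,
        abs_of_nonneg (hk_nonneg hv hy hz'.le)]
      have h5 : hk v y z ≤ 1 / Real.sqrt v := by
        rw [hk_eq50]
        calc (G50 v (y - z) - G50 v (y + z)) / Real.sqrt (2 * Real.pi * v) ≤ 1 / Real.sqrt (2 * Real.pi * v) := by
              apply div_le_div_of_nonneg_right _ (sp50 hv).le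
              linarith [G50_pos v (y + z), G50_le hv (y - z)]
          _ ≤ 1 / Real.sqrt v := one_div_le_one_div_of_le hsv (sv50 hv)
      calc hk v y z * |f z| ≤ 1 / Real.sqrt v * B :=
            mul_le_mul h5 (hB z hz') (abs_nonneg _) (by positivity)
        _ = B / Real.sqrt v := by ring
    · rw [Set.indicator_of_notMem hzi, h0 z hz' hzi, mul_zero, norm_zero]
  have h2 : (∫ z in Ioi (0 : ℝ), (Icc a b).indicator (fun _ => B / Real.sqrt v) z)
      ≤ ∫ z, (Icc a b).indicator (fun _ => B / Real.sqrt v) z := by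
    apply setIntegral_le_integral hgi
    refine Filter.Eventually.of_forall (fun z => ?_)
    exact Set.indicator_nonneg (fun _ _ => by positivity) z
  have h3 : (∫ z, (Icc a b).indicator (fun _ => B / Real.sqrt v) z) = B * (b - a) / Real.sqrt v := by
    rw [integral_indicator measurableSet_Icc, setIntegral_const, measureReal_def, Real.volume_Icc,
      ENNReal.toReal_ofReal (by linarith), smul_eq_mul]
    ring
  linarith

theorem la_small {v B a b : ℝ} (hv : 0 < v) (hab : a ≤ b) (hB0 : 0 ≤ B) {f : ℝ → ℝ} (hf : Measurable f)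
    (hB : ∀ z, 0 < z → |f z| ≤ B) (h0 : ∀ z, 0 < z → z ∉ Icc a b → f z = 0) :
    |La v f| ≤ B * (b - a) / v := by
  have hsv := Real.sqrt_pos.mpr hv
  have hgi : Integrable ((Icc a b).indicator (fun _ => B / v)) := by
    rw [integrable_indicator_iff measurableSet_Icc]
    exact continuous_const.integrableOn_Icc
  have h1 : |La v f| ≤ ∫ z in Ioi (0 : ℝ), (Icc a b).indicator (fun _ => B / v) z := by
    unfold La
    rw [← Real.norm_eq_abs]
    apply norm_integral_le_of_norm_le hgi.integrableOn
    rw [ae_restrict_iff' measurableSet_Ioi]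
    refine Filter.Eventually.of_forall (fun z hz => ?_)
    have hz' : (0 : ℝ) < z := hz
    by_cases hzi : z ∈ Icc a b
    · have h00 : 0 ≤ rho v z := by
        unfold rho
        positivity
      rw [Set.indicator_of_mem hzi, norm_mul, Real.norm_eq_abs, Real.norm_eq_abs, abs_of_nonneg h00]
      have h5 : rho v z ≤ 1 / v := by
        have h6 : z * G50 v z ≤ Real.sqrt v := by
          have h7 : z / Real.sqrt v ≤ Real.exp (z ^ 2 / (2 * v)) := by
            have h8 := Real.add_one_le_exp (z ^ 2 / (2 * v))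
            have h9 : z ^ 2 / (2 * v) = (z / Real.sqrt v) ^ 2 / 2 := by
              rw [div_pow, Real.sq_sqrt hv.le]
              field_simp
            rw [h9] at h8 ⊢
            nlinarith [sq_nonneg (z / Real.sqrt v - 1)]
          have h10 : z ≤ Real.exp (z ^ 2 / (2 * v)) * Real.sqrt v := by
            rwa [div_le_iff₀ hsv] at h7
          unfold G50
          rw [Real.exp_neg]
          rw [mul_inv_le_iff₀ (Real.exp_pos _)]
          linarith
        rw [rho_eq50, div_le_div_iff₀ (by have := s1_50; positivity) hv]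
        have h11 : Real.sqrt v ≤ Real.sqrt (Real.pi / 2) * Real.sqrt v := by
          nlinarith [s1_50]
        have h12 : z * G50 v z ≤ Real.sqrt (Real.pi / 2) * Real.sqrt v := h6.trans h11
        calc z * G50 v z * v ≤ (Real.sqrt (Real.pi / 2) * Real.sqrt v) * v :=
              mul_le_mul_of_nonneg_right h12 hv.le
          _ = 1 * (Real.sqrt (Real.pi / 2) * (v * Real.sqrt v)) := by ring
      calc rho v z * |f z| ≤ 1 / v * B :=
            mul_le_mul h5 (hB z hz') (abs_nonneg _) (by positivity)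
        _ = B / v := by ring
    · rw [Set.indicator_of_notMem hzi, h0 z hz' hzi, mul_zero, norm_zero]
  have h2 : (∫ z in Ioi (0 : ℝ), (Icc a b).indicator (fun _ => B / v) z)
      ≤ ∫ z, (Icc a b).indicator (fun _ => B / v) z := by
    apply setIntegral_le_integral hgi
    refine Filter.Eventually.of_forall (fun z => ?_)
    exact Set.indicator_nonneg (fun _ _ => by positivity) z
  have h3 : (∫ z, (Icc a b).indicator (fun _ => B / v) z) = B * (b - a) / v := by
    rw [integral_indicator measurableSet_Icc, setIntegral_const, measureReal_def, Real.volume_Icc,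
      ENNReal.toReal_ofReal (by linarith), smul_eq_mul]
    ring
  linarith

private theorem mulint50 {w : ℝ → ℝ} (hw : Integrable w) (hwc : Continuous w) {f : ℝ → ℝ} {B : ℝ} (hf : Measurable f)
    (hB : ∀ z, 0 < z → |f z| ≤ B) : IntegrableOn (fun z => w z * f z) (Ioi (0 : ℝ)) := by
  have h1 : IntegrableOn (fun z => |w z| * B) (Ioi (0 : ℝ)) := (hw.abs.mul_const B).integrableOn
  refine h1.mono' (hwc.measurable.mul hf).aestronglyMeasurable ?_
  rw [ae_restrict_iff' measurableSet_Ioi]
  refine Filter.Eventually.of_forall (fun z hz => ?_)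
  rw [norm_mul, Real.norm_eq_abs, Real.norm_eq_abs]
  exact mul_le_mul_of_nonneg_left (hB z hz) (abs_nonneg _)

theorem tv_lin {v : ℝ} (hv : 0 < v) (a b : ℝ) {f g : ℝ → ℝ} {B : ℝ} (hf : Measurable f) (hg : Measurable g)
    (hfB : ∀ z, 0 < z → |f z| ≤ B) (hgB : ∀ z, 0 < z → |g z| ≤ B) (y : ℝ) :
    Tv v (fun z => a * f z + b * g z) y = a * Tv v f y + b * Tv v g y := by
  unfold Tv
  rw [← integral_const_mul, ← integral_const_mul, ← integral_add]
  · apply integral_congr_ae
    refine Filter.Eventually.of_forall (fun x => ?_)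
    simp only
    ring
  · exact (mulint50 (hki50 hv y) (hkm50 v y) hf hfB).const_mul _
  · exact (mulint50 (hki50 hv y) (hkm50 v y) hg hgB).const_mul _

theorem la_lin {v : ℝ} (hv : 0 < v) (a b : ℝ) {f g : ℝ → ℝ} {B : ℝ} (hf : Measurable f) (hg : Measurable g)
    (hfB : ∀ z, 0 < z → |f z| ≤ B) (hgB : ∀ z, 0 < z → |g z| ≤ B) :
    La v (fun z => a * f z + b * g z) = a * La v f + b * La v g := by
  unfold La
  rw [← integral_const_mul, ← integral_const_mul, ← integral_add]
  · apply integral_congr_ae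
    refine Filter.Eventually.of_forall (fun x => ?_)
    simp only
    ring
  · exact (mulint50 (rhoi50 hv) (rhom50 v) hf hfB).const_mul _
  · exact (mulint50 (rhoi50 hv) (rhom50 v) hg hgB).const_mul _

end Pool.Agent.Helper49.RD
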