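import Pool.Agent.Helper49.RD.Def
import Pool.Agent.Helper49.DX.Prof
import Pool.Agent.Helper49.DX.Sys
import Pool.Agent.Helper49.DX.Rp

/-!
Block RD-L1: the levels of a symmetric profile solve the linear system.

Paper proofs. `c w = ∑ v, E (ds m v) * GS t (xs t td m) L v w`, `(P k, Q k) = pqs t (xs t td m) c k`.
* `pqs_sym`: the private lemma `pq_sym63` of `DX/Pe.lean` (copy it): for `x` and `c` symmetric under `Fin.rev` all `P k` are
  symmetric (and all `Q k` antisymmetric), induction on `k` from the formulas of `wp`, `wq`.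
* `out_sym`: `c (Fin.rev w) = c w` (as `hcs` in the proof of `prof_sys`, `GS_rev`), so `c u = c ⟨m + ds m u, _⟩` (`u` or
  `Fin.rev u` is the row `m + ds m u`).
* `gsum_row`, `lev_pqs`: from these.
* `lev_top`: `profile`.
* `lev_sol`: the proof of `prof_sys` (`DX/Pe.lean`) with its explicit `p` (there `p (k + 1) y = P k (m + y)`, `p 0 y = weight * g`).
  Copy the whole file and replace the existential by the explicit solution.
-/

open Finset

namespace Pool.Agent.Helper49.RD

open Pool.Agent.Helper49.DL Pool.Agent.Helper49.DX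

/-- The system on the upper half of the strip, with the annihilation part `V`. -/
private structure HalfL15 (t r td rd ch sh : ℝ) (m : ℕ) (g : ℕ → ℝ) (p V : ℕ → ℕ → ℝ) : Prop where
  lev : ∀ y ≤ m, p 0 y = (if y = 0 then td else t) * g y
  v0 : ∀ y, V 0 y = 0
  vz : ∀ k, V k 0 = 0
  rp : ∀ k j, 1 ≤ j → j ≤ m → p (k + 1) j + V (k + 1) j * r = ch * (p k j * r + V k j) -
    sh * (p k (j - 1) * (if j - 1 = 0 then rd else r) - V k (j - 1))
  rm : ∀ k j, j < m → p (k + 1) j - V (k + 1) j * r = ch * (p k j * (if j = 0 then rd else r) - V k j) -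
    sh * (p k (j + 1) * r + V k (j + 1))
  rt : ∀ k, p (k + 1) m - V (k + 1) m * r = p k m * r - V k m

section

variable {t r td rd ch sh : ℝ} {m : ℕ} {g : ℕ → ℝ} {p V : ℕ → ℕ → ℝ}

private theorem h_bulkL15 (h : HalfL15 t r td rd ch sh m g p V) (tr : t * r = 1) (cs : ch ^ 2 - sh ^ 2 = 1)
    (s1 : sh * (r - t) = 2) (k y : ℕ) (hy : 2 ≤ y) (hy' : y < m) :
    p (k + 2) y + p k y + (p (k + 1) (y + 1) + p (k + 1) (y - 1)) = ch * (r + t) * p (k + 1) y := by
  have e1 := h.rp (k + 1) y (by omega) hy'.le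
  have e2 := h.rm (k + 1) y hy'
  have e3 := h.rp k (y + 1) (by omega) (by omega)
  have e4 := h.rm k (y - 1) (by omega)
  have e5 := h.rp k y (by omega) hy'.le
  have e6 := h.rm k y hy'
  rw [if_neg (by omega)] at e1 e2 e3 e4 e5 e6
  rw [show y - 1 + 1 = y by omega] at e4
  rw [show y + 1 - 1 = y by omega] at e3
  linear_combination (1 / 2) * (e1 + e2) - (sh * t / 2) * (e3 + e4) - (t * ch / 2) * (e5 + e6) -
    ((p (k + 1) (y + 1) + p (k + 1) (y - 1)) / 2) * s1 - t * r * p k y * cs +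
    (sh / 2 * (V (k + 1) (y + 1) - V (k + 1) (y - 1)) - p k y) * tr

private theorem h_oneL15 (h : HalfL15 t r td rd ch sh m g p V) (tr : t * r = 1) (cs : ch ^ 2 - sh ^ 2 = 1)
    (s1 : sh * (r - t) = 2) (hm : 2 ≤ m) (k : ℕ) :
    p (k + 2) 1 + p k 1 + (p (k + 1) 2 + (1 + (rd - r) * sh / 2) * p (k + 1) 0) =
      ch * (r + t) * p (k + 1) 1 := by
  have e1 := h.rp (k + 1) 1 le_rfl (by omega)
  have e2 := h.rm (k + 1) 1 (by omega)
  have e3 := h.rp k 2 (by omega) hm
  have e4 := h.rm k 0 (by omega)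
  have e5 := h.rp k 1 le_rfl (by omega)
  have e6 := h.rm k 1 (by omega)
  rw [if_pos (by omega)] at e1 e4 e5
  rw [if_neg (by omega)] at e2 e3 e6
  simp only [Nat.sub_self, zero_add, show 2 - 1 = 1 from rfl, show 1 + 1 = 2 from rfl] at e1 e2 e3 e4 e5 e6
  linear_combination (1 / 2) * (e1 + e2) - (sh * t / 2) * (e3 + e4) - (t * ch / 2) * (e5 + e6) -
    ((p (k + 1) 2 + p (k + 1) 0) / 2) * s1 - t * r * p k 1 * cs +
    (sh / 2 * (V (k + 1) 2 - V (k + 1) 0) - p k 1) * tr

private theorem h_zeroL15 (h : HalfL15 t r td rd ch sh m g p V) (tr : t * r = 1) (cs : ch ^ 2 - sh ^ 2 = 1)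
    (s1 : sh * (r - t) = 2) (hm : 2 ≤ m) (k : ℕ) :
    p (k + 2) 0 + t * rd * p k 0 + 2 * p (k + 1) 1 = (ch * (r + t) + (rd - r) * ch) * p (k + 1) 0 := by
  have e2 := h.rm (k + 1) 0 (by omega)
  have e3 := h.rp k 1 le_rfl (by omega)
  have e6 := h.rm k 0 (by omega)
  rw [if_pos (by omega)] at e2 e3 e6
  simp only [Nat.sub_self, zero_add, h.vz] at e2 e3 e6
  linear_combination e2 - sh * t * e3 - t * ch * e6 - p (k + 1) 1 * s1 - t * rd * p k 0 * cs +
    sh * V (k + 1) 1 * tr

private theorem h_vsL15 (h : HalfL15 t r td rd ch sh m g p V) (tr : t * r = 1) (hm : 2 ≤ m) (k : ℕ) :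
    t * V k m = p k m - t ^ (k + 1) * g m - (1 - t ^ 2) * ∑ i ∈ Finset.range k, t ^ i * p (k - i) m := by
  induction k with
  | zero =>
    have e := h.lev m le_rfl
    rw [if_neg (by omega)] at e
    rw [h.v0, Finset.range_zero, Finset.sum_empty, e]
    ring
  | succ k ih =>
    have e := h.rt k
    rw [Finset.sum_range_succ']
    simp only [Nat.add_sub_add_right, pow_zero, one_mul, Nat.sub_zero]
    have h1 : ∑ i ∈ Finset.range k, t ^ (i + 1) * p (k - i) m =
        t * ∑ i ∈ Finset.range k, t ^ i * p (k - i) m := by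
      rw [Finset.mul_sum]
      exact Finset.sum_congr rfl fun i _ => by ring
    rw [h1]
    linear_combination t * ih - t ^ 2 * e - (t * (V (k + 1) m + p k m)) * tr

private theorem h_topL15 (h : HalfL15 t r td rd ch sh m g p V) (tr : t * r = 1) (cs : ch ^ 2 - sh ^ 2 = 1)
    (s1 : sh * (r - t) = 2) (c1 : (ch - 1) * (1 - t ^ 2) = 2 * t ^ 2) (c2 : ch * (r - t) = r + t)
    (hm : 2 ≤ m) (k : ℕ) :
    p (k + 2) m + p k m + p (k + 1) (m - 1) +
      2 * t * (∑ i ∈ Finset.range k, t ^ (i + 1) * p (k - i) m) +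
      t ^ (k + 1) * (ch - 1) * g m = (ch * (r + t) - t) * p (k + 1) m := by
  have e1 := h.rp (k + 1) m (by omega) le_rfl
  have e2 := h.rt (k + 1)
  have e3 := h.rt k
  have e4 := h.rm k (m - 1) (by omega)
  have e5 := h.rp k m (by omega) le_rfl
  have vs := h_vsL15 h tr hm k
  rw [if_neg (by omega)] at e1 e4 e5
  rw [show m - 1 + 1 = m by omega] at e4
  have h1 : ∑ i ∈ Finset.range k, t ^ (i + 1) * p (k - i) m =
      t * ∑ i ∈ Finset.range k, t ^ i * p (k - i) m := by
    rw [Finset.mul_sum]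
    exact Finset.sum_congr rfl fun i _ => by ring
  rw [h1]
  linear_combination (1 / 2) * (e1 + e2) - ((ch - 1) / 2 * t) * e3 - (sh / 2 * t) * e4 -
    (t * ch / 2) * (e3 + e5) + (-(ch - 1) / 2 * (V (k + 1) m + p k m) -
      (sh / 2) * (V (k + 1) (m - 1) - sh * p k m) - ch * (ch + 1) / 2 * p k m) * tr -
    (p k m / 2 + t * V k m / 2) * cs - (p (k + 1) (m - 1) / 2) * s1 - (p (k + 1) m / 2) * c2 +
    (ch - 1) * vs - (∑ i ∈ Finset.range k, t ^ i * p (k - i) m) * c1

private theorem h_gbulkL15 (h : HalfL15 t r td rd ch sh m g p V) (tr : t * r = 1) (trd : td * rd = 1)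
    (y : ℕ) (hy : 1 ≤ y) (hy' : y < m) : sh / 2 * (g (y + 1) + g (y - 1)) + p 1 y = ch * g y := by
  have e1 := h.rp 0 y hy hy'.le
  have e2 := h.rm 0 y hy'
  have l0 := h.lev y hy'.le
  have l1 := h.lev (y + 1) (by omega)
  have l2 := h.lev (y - 1) (by omega)
  have hz : p 0 (y - 1) * (if y - 1 = 0 then rd else r) = g (y - 1) := by
    rw [l2]
    split_ifs with hh
    · linear_combination g (y - 1) * trd
    · linear_combination g (y - 1) * tr
  rw [if_neg (by omega)] at e2 l0 l1
  rw [hz, l0, h.v0, h.v0] at e1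
  rw [l0, l1, h.v0, h.v0] at e2
  simp only [zero_add] at e1 e2
  linear_combination (1 / 2) * (e1 + e2) + (ch * g y - sh / 2 * g (y + 1)) * tr

private theorem h_gzeroL15 (h : HalfL15 t r td rd ch sh m g p V) (tr : t * r = 1) (trd : td * rd = 1)
    (hm : 2 ≤ m) : sh * g 1 + p 1 0 = ch * g 0 := by
  have e2 := h.rm 0 0 (by omega)
  have l0 := h.lev 0 (by omega)
  have l1 := h.lev 1 (by omega)
  rw [if_pos rfl] at e2 l0
  rw [if_neg one_ne_zero] at l1
  simp only [zero_add] at e2
  rw [l0, l1, h.v0, h.v0, h.vz] at e2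
  linear_combination e2 + ch * g 0 * trd - sh * g 1 * tr

private theorem h_gtopL15 (h : HalfL15 t r td rd ch sh m g p V) (tr : t * r = 1)
    (hm : 2 ≤ m) : sh / 2 * g (m - 1) + p 1 m = (1 + ch) / 2 * g m := by
  have e1 := h.rp 0 m (by omega) le_rfl
  have e2 := h.rt 0
  have l0 := h.lev m le_rfl
  have l1 := h.lev (m - 1) (by omega)
  rw [if_neg (by omega)] at e1 l0 l1
  simp only [zero_add] at e1 e2
  rw [l0, l1, h.v0, h.v0] at e1
  rw [l0, h.v0] at e2
  linear_combination (1 / 2) * (e1 + e2) + ((ch + 1) / 2 * g m - sh / 2 * g (m - 1)) * tr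

end

/-! ### Symmetry -/

private theorem wpq_addL15 {n : ℕ} (t : ℝ) (c d : Fin n → ℝ) (j : Fin n) :
    wp t c d j + wq t c d j = (1 + lo j * (chh t - 1)) * (c j + d j) - shh t * (pv c j - pv d j) := by
  unfold wp wq
  ring

private theorem wpq_subL15 {n : ℕ} (t : ℝ) (c d : Fin n → ℝ) (j : Fin n) :
    wp t c d j - wq t c d j = (1 + up j * (chh t - 1)) * (c j - d j) - shh t * (nx c j + nx d j) := by
  unfold wp wq
  ring

private theorem nx_revL15 {n : ℕ} (c : Fin n → ℝ) (j : Fin n) :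
    nx c (Fin.rev j) = pv (fun i => c (Fin.rev i)) j := by
  have hj := j.2
  unfold nx pv
  by_cases h : 0 < (j : ℕ)
  · rw [dif_pos (by rw [Fin.val_rev]; omega), if_pos h]
    congr 1
    apply Fin.ext
    simp only [Fin.val_rev]
    omega
  · rw [dif_neg (by rw [Fin.val_rev]; omega), if_neg h]

private theorem pv_revL15 {n : ℕ} (c : Fin n → ℝ) (j : Fin n) :
    pv c (Fin.rev j) = nx (fun i => c (Fin.rev i)) j := by
  have hj := j.2
  unfold nx pv
  by_cases h : (j : ℕ) + 1 < n
  · rw [dif_pos h, if_pos (by rw [Fin.val_rev]; omega)]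
    refine congrArg c (Fin.ext ?_)
    simp only [Fin.val_rev]
    first | done | omega
  · rw [dif_neg h, if_neg (by rw [Fin.val_rev]; omega)]

private theorem lo_revL15 {n : ℕ} (j : Fin n) : lo (Fin.rev j) = up j := by
  have hj := j.2
  unfold lo up
  by_cases h : (j : ℕ) + 1 < n
  · rw [if_pos h, if_pos (by rw [Fin.val_rev]; omega)]
  · rw [if_neg h, if_neg (by rw [Fin.val_rev]; omega)]

private theorem up_revL15 {n : ℕ} (j : Fin n) : up (Fin.rev j) = lo j := by
  rw [← lo_revL15, Fin.rev_rev]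

private theorem nx_negL15 {n : ℕ} (c : Fin n → ℝ) (j : Fin n) : nx (fun i => -c i) j = -nx c j := by
  unfold nx
  split_ifs
  · rfl
  · rw [neg_zero]

private theorem pv_negL15 {n : ℕ} (c : Fin n → ℝ) (j : Fin n) : pv (fun i => -c i) j = -pv c j := by
  unfold pv
  split_ifs
  · rfl
  · rw [neg_zero]

private theorem w_symL15 {n : ℕ} (t : ℝ) {c d : Fin n → ℝ} (hc : ∀ j, c (Fin.rev j) = c j)
    (hd : ∀ j, d (Fin.rev j) = -d j) (j : Fin n) :
    wp t c d (Fin.rev j) = wp t c d j ∧ wq t c d (Fin.rev j) = -wq t c d j := by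
  have hc' : (fun i => c (Fin.rev i)) = c := funext hc
  have hd' : (fun i => d (Fin.rev i)) = fun i => -d i := funext hd
  constructor
  · unfold wp
    rw [nx_revL15, pv_revL15, nx_revL15, pv_revL15, lo_revL15, up_revL15, hc', hd', nx_negL15, pv_negL15, hc, hd]
    ring
  · unfold wq
    rw [nx_revL15, pv_revL15, nx_revL15, pv_revL15, lo_revL15, up_revL15, hc', hd', nx_negL15, pv_negL15, hc, hd]
    ring

private theorem pq_symL15 {n : ℕ} (t : ℝ) {x c : Fin n → ℝ} (hx : ∀ j, x (Fin.rev j) = x j)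
    (hc : ∀ j, c (Fin.rev j) = c j) (k : ℕ) (j : Fin n) :
    (pqs t x c k).1 (Fin.rev j) = (pqs t x c k).1 j ∧ (pqs t x c k).2 (Fin.rev j) = -(pqs t x c k).2 j := by
  induction k generalizing j with
  | zero => exact w_symL15 t hc (fun _ => by rw [neg_zero]) j
  | succ k ih =>
    refine w_symL15 t (c := fun j => (pqs t x c k).1 j / x j) (d := fun j => x j * (pqs t x c k).2 j)
      (fun j => ?_) (fun j => ?_) j
    · rw [hx, (ih j).1]
    · rw [hx, (ih j).2, mul_neg]

private theorem xs_revL15 (t td : ℝ) (m : ℕ) (j : Fin (2 * m + 1)) : xs t td m (Fin.rev j) = xs t td m j := by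
  have hj := j.2
  unfold xs
  by_cases h : (j : ℕ) = m
  · rw [if_pos h, if_pos (by rw [Fin.val_rev]; omega)]
  · rw [if_neg h, if_neg (by rw [Fin.val_rev]; omega)]

private theorem ds_revL15 (m : ℕ) (j : Fin (2 * m + 1)) : ds m (Fin.rev j) = ds m j := by
  have hj := j.2
  unfold ds
  rw [Fin.val_rev]
  omega

theorem pqs_sym {n : ℕ} (t : ℝ) {x c : Fin n → ℝ} (hx : ∀ j, x (Fin.rev j) = x j)
    (hc : ∀ j, c (Fin.rev j) = c j) (k : ℕ) (j : Fin n) :
    (pqs t x c k).1 (Fin.rev j) = (pqs t x c k).1 j ∧ (pqs t x c k).2 (Fin.rev j) = -(pqs t x c k).2 j :=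
  pq_symL15 t hx hc k j

theorem out_sym (t td : ℝ) (m L : ℕ) (E : ℕ → ℝ) (w : Fin (2 * m + 1)) :
    ∑ v, E (ds m v) * GS t (xs t td m) L v (Fin.rev w) = ∑ v, E (ds m v) * GS t (xs t td m) L v w := by
  rw [← Equiv.sum_comp Fin.revPerm]
  refine Finset.sum_congr rfl fun v _ => ?_
  rw [Fin.revPerm_apply, ds_revL15, GS_rev (x := xs t td m) (fun j => xs_revL15 t td m j)]

private theorem rowL15 (m : ℕ) (u : Fin (2 * m + 1)) (h : m + ds m u < 2 * m + 1) :
    u = ⟨m + ds m u, h⟩ ∨ Fin.rev u = ⟨m + ds m u, h⟩ := by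
  have hu := u.2
  by_cases h1 : m ≤ (u : ℕ)
  · left
    apply Fin.ext
    simp only
    unfold ds
    omega
  · right
    apply Fin.ext
    rw [Fin.val_rev]
    simp only
    unfold ds
    omega

theorem gsum_row (t td : ℝ) (m L : ℕ) (E : ℕ → ℝ) (u : Fin (2 * m + 1)) :
    ∑ v, E (ds m v) * GS t (xs t td m) L v u = gsum t td m L E (ds m u) := by
  have h := ds_le m u
  have hb : m + ds m u < 2 * m + 1 := by omega
  unfold gsum
  rw [dif_pos hb]
  rcases rowL15 m u hb with h1 | h1
  · rw [← h1]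
  · rw [← h1]
    exact (out_sym t td m L E u).symm

theorem lev_pqs (t td : ℝ) (m L : ℕ) (E : ℕ → ℝ) (k : ℕ) (u : Fin (2 * m + 1)) :
    (pqs t (xs t td m) (fun w => ∑ v, E (ds m v) * GS t (xs t td m) L v w) k).1 u =
      lev t td m L E k (ds m u) := by
  have h := ds_le m u
  have hb : m + ds m u < 2 * m + 1 := by omega
  unfold lev
  rw [dif_pos hb]
  rcases rowL15 m u hb with h1 | h1
  · rw [← h1]
  · rw [← h1]
    exact (pqs_sym t (fun j => xs_revL15 t td m j) (fun j => out_sym t td m L E j) k u).1.symm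

theorem lev_top {t td : ℝ} (ht : 0 < t) (ht1 : t < 1) (htd : 0 < td) (htd1 : td < 1) (m L : ℕ)
    (E : ℕ → ℝ) {y : ℕ} (hy : y ≤ m) : lev t td m L E L y = E y := by
  have hb : m + y < 2 * m + 1 := by omega
  have hprof := profile ht ht1 (fun j => xs_pos ht htd m j) (fun j => xs_lt_one ht1 htd1 m j) L
    (fun v => E (ds m v))
  unfold lev
  rw [dif_pos hb, hprof]
  simp only
  congr 1
  unfold ds
  simp only
  omega

theorem lev_sol {t td : ℝ} (ht : 0 < t) (ht1 : t < 1) (htd : 0 < td) (htd1 : td < 1) {m : ℕ}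
    (hm : 2 ≤ m) (L : ℕ) (E : ℕ → ℝ) : Sol t td m L E (gsum t td m L E) (plev t td m L E) := by
  have ht2 : 0 < 1 - t ^ 2 := by nlinarith
  have tr : t * (1 / t) = 1 := by field_simp
  have trd : td * (1 / td) = 1 := by field_simp
  have cs : chh t ^ 2 - shh t ^ 2 = 1 := by
    unfold chh shh
    field_simp
    ring
  have s1 : shh t * (1 / t - t) = 2 := by
    unfold shh
    field_simp
  have c1 : (chh t - 1) * (1 - t ^ 2) = 2 * t ^ 2 := by
    unfold chh
    field_simp
    ring
  have c2 : chh t * (1 / t - t) = 1 / t + t := by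
    unfold chh
    field_simp
  have hA : A2 t = chh t * (1 / t + t) := by
    unfold A2 chh
    field_simp
  set x := xs t td m with hx
  have hxp : ∀ j, 0 < x j := fun j => by
    rw [hx]; unfold xs; split_ifs <;> assumption
  have hx1 : ∀ j, x j < 1 := fun j => by
    rw [hx]; unfold xs; split_ifs <;> assumption
  set c : Fin (2 * m + 1) → ℝ := fun w => ∑ v, E (ds m v) * GS t x L v w with hc
  have hcs : ∀ j, c (Fin.rev j) = c j := by
    intro j
    rw [hc]
    simp only
    rw [← Equiv.sum_comp Fin.revPerm]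
    refine Finset.sum_congr rfl fun v _ => ?_
    rw [Fin.revPerm_apply, ds_revL15, GS_rev (x := x) (fun j => by rw [hx]; exact xs_revL15 t td m j)]
  have hprof : (pqs t x c L).1 = fun v => E (ds m v) := profile ht ht1 hxp hx1 L (fun v => E (ds m v))
  have hmid : ∀ k, (pqs t x c k).2 ⟨m + 0, by omega⟩ = 0 := by
    intro k
    have h1 := (pq_symL15 t (x := x) (fun j => by rw [hx]; exact xs_revL15 t td m j) hcs k ⟨m + 0, by omega⟩).2
    have h2 : Fin.rev (⟨m + 0, by omega⟩ : Fin (2 * m + 1)) = ⟨m + 0, by omega⟩ := by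
      apply Fin.ext
      rw [Fin.val_rev]
      simp only
      omega
    rw [h2] at h1
    linarith
  -- the sequences
  let p : ℕ → ℕ → ℝ := plev t td m L E
  let V : ℕ → ℕ → ℝ := fun k y => match k with
    | 0 => 0
    | k + 1 => if h : m + y < 2 * m + 1 then t * (pqs t x c k).2 ⟨m + y, h⟩ else 0
  let Uf : ℕ → Fin (2 * m + 1) → ℝ := fun k => match k with
    | 0 => c
    | k + 1 => fun j => (pqs t x c k).1 j / x j
  let Vf : ℕ → Fin (2 * m + 1) → ℝ := fun k => match k with
    | 0 => fun _ => 0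
    | k + 1 => fun j => x j * (pqs t x c k).2 j
  have hstep : ∀ k, pqs t x c k = (wp t (Uf k) (Vf k), wq t (Uf k) (Vf k)) := by
    intro k
    cases k <;> rfl
  have hxy : ∀ (y : ℕ) (h : m + y < 2 * m + 1), x ⟨m + y, h⟩ = if y = 0 then td else t := by
    intro y h
    rw [hx]
    unfold xs
    by_cases hy : y = 0
    · rw [if_pos hy, if_pos (by simp only; omega)]
    · rw [if_neg hy, if_neg (by simp only; omega)]
  have hxi : ∀ y : ℕ, (if y = 0 then td else t) * (if y = 0 then 1 / td else 1 / t) = 1 := by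
    intro y
    split_ifs
    · exact trd
    · exact tr
  have hU : ∀ (k y : ℕ) (h : m + y < 2 * m + 1),
      Uf k ⟨m + y, h⟩ = p k y * (if y = 0 then 1 / td else 1 / t) := by
    intro k y h
    cases k with
    | zero =>
      change c ⟨m + y, h⟩ = (if y = 0 then td else t) * gsum t td m L E y * (if y = 0 then 1 / td else 1 / t)
      have h1 : gsum t td m L E y = c ⟨m + y, h⟩ := by
        unfold gsum
        rw [dif_pos h]
      rw [h1]
      linear_combination -(c ⟨m + y, h⟩) * hxi y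
    | succ k =>
      change (pqs t x c k).1 ⟨m + y, h⟩ / x ⟨m + y, h⟩ =
        (if h : m + y < 2 * m + 1 then (pqs t x c k).1 ⟨m + y, h⟩ else 0) * _
      rw [dif_pos h, hxy]
      split_ifs
      · rw [div_eq_mul_one_div]
      · rw [div_eq_mul_one_div]
  have hV : ∀ (k y : ℕ) (h : m + y < 2 * m + 1), Vf k ⟨m + y, h⟩ = V k y := by
    intro k y h
    cases k with
    | zero => rfl
    | succ k =>
      change x ⟨m + y, h⟩ * (pqs t x c k).2 ⟨m + y, h⟩ =
        if h : m + y < 2 * m + 1 then t * (pqs t x c k).2 ⟨m + y, h⟩ else 0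
      rw [dif_pos h, hxy]
      by_cases hy : y = 0
      · subst hy
        rw [hmid, mul_zero, mul_zero]
      · rw [if_neg hy]
  have hp1 : ∀ (k y : ℕ) (h : m + y < 2 * m + 1), p (k + 1) y = (pqs t x c k).1 ⟨m + y, h⟩ := by
    intro k y h
    change (if h : m + y < 2 * m + 1 then (pqs t x c k).1 ⟨m + y, h⟩ else 0) = _
    rw [dif_pos h]
  have hV1 : ∀ (k y : ℕ) (h : m + y < 2 * m + 1), V (k + 1) y * (1 / t) = (pqs t x c k).2 ⟨m + y, h⟩ := by
    intro k y h
    change (if h : m + y < 2 * m + 1 then t * (pqs t x c k).2 ⟨m + y, h⟩ else 0) * (1 / t) = _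
    rw [dif_pos h]
    linear_combination (pqs t x c k).2 ⟨m + y, h⟩ * tr
  have half : HalfL15 t (1 / t) td (1 / td) (chh t) (shh t) m (gsum t td m L E) p V := by
    refine ⟨fun y _ => rfl, fun y => rfl, fun k => ?_, fun k j hj hj' => ?_, fun k j hj => ?_, fun k => ?_⟩
    · rw [← hV k 0 (by omega)]
      cases k with
      | zero => rfl
      | succ k =>
        change x _ * (pqs t x c k).2 _ = 0
        rw [hmid, mul_zero]
    · have hb : m + j < 2 * m + 1 := by omega
      have hb' : m + (j - 1) < 2 * m + 1 := by omega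
      rw [hp1 k j hb, hV1 k j hb, hstep k]
      simp only
      rw [wpq_addL15]
      have h1 : lo (⟨m + j, hb⟩ : Fin (2 * m + 1)) = 1 := by
        unfold lo
        rw [if_pos (by simp only; omega)]
      have h2 : ∀ f : Fin (2 * m + 1) → ℝ, pv f ⟨m + j, hb⟩ = f ⟨m + (j - 1), hb'⟩ := by
        intro f
        unfold pv
        rw [if_pos (by simp only; omega)]
        congr 1
        apply Fin.ext
        simp only
        omega
      rw [h1, h2, h2, hU k j hb, hV k j hb, hU k (j - 1) hb', hV k (j - 1) hb',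
        if_neg (show ¬ (j = 0) by omega)]
      ring
    · have hb : m + j < 2 * m + 1 := by omega
      have hb' : m + (j + 1) < 2 * m + 1 := by omega
      rw [hp1 k j hb, hV1 k j hb, hstep k]
      simp only
      rw [wpq_subL15]
      have h1 : up (⟨m + j, hb⟩ : Fin (2 * m + 1)) = 1 := by
        unfold up
        rw [if_pos (by simp only; omega)]
      have h2 : ∀ f : Fin (2 * m + 1) → ℝ, nx f ⟨m + j, hb⟩ = f ⟨m + (j + 1), hb'⟩ := by
        intro f
        unfold nx
        rw [dif_pos (by simp only; omega)]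
        rfl
      rw [h1, h2, h2, hU k j hb, hV k j hb, hU k (j + 1) hb', hV k (j + 1) hb',
        if_neg (show ¬ (j + 1 = 0) by omega)]
      ring
    · have hb : m + m < 2 * m + 1 := by omega
      rw [hp1 k m hb, hV1 k m hb, hstep k]
      simp only
      rw [wpq_subL15]
      have h1 : up (⟨m + m, hb⟩ : Fin (2 * m + 1)) = 0 := by
        unfold up
        rw [if_neg (by simp only; omega)]
      have h2 : ∀ f : Fin (2 * m + 1) → ℝ, nx f ⟨m + m, hb⟩ = 0 := by
        intro f
        unfold nx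
        rw [dif_neg (by simp only; omega)]
      rw [h1, h2, h2, hU k m hb, hV k m hb, if_neg (show ¬ (m = 0) by omega)]
      ring
  change Sol t td m L E (gsum t td m L E) p
  refine ⟨?_, ?_, ?_, ?_, ?_, ?_, ?_, ?_, ?_⟩
  · intro y hy
    have hb : m + y < 2 * m + 1 := by omega
    rw [hp1 L y hb, hprof]
    simp only
    congr 1
    unfold ds
    simp only
    omega
  · exact half.lev
  · intro k y _ hy hy'
    rw [hA]
    exact h_bulkL15 half tr cs s1 k y hy hy'
  · intro k _
    rw [hA]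
    unfold the mu
    exact h_oneL15 half tr cs s1 hm k
  · intro k _
    rw [hA]
    unfold zet mu
    have h1 := h_zeroL15 half tr cs s1 hm k
    rw [show t / td = t * (1 / td) by ring]
    exact h1
  · intro k _
    rw [hA]
    exact h_topL15 half tr cs s1 c1 c2 hm k
  · intro y hy hy'
    exact h_gbulkL15 half tr trd y hy hy'
  · exact h_gzeroL15 half tr trd hm
  · exact h_gtopL15 half tr hm

end Pool.Agent.Helper49.RD
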