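import Pool.Agent.Helper49.RD.EllCz

/-!
Block RD-QF: the levels of continuous sources vanishing at `0` and at infinity.

`ℓ^y (f) = lev t td n l f k y`, `λ = lam t`, `g = sg t`, `w = g (s' - s)`, `N = l - k`.

Paper proof of `lev_cz`. Let `|f z| ≤ B` for `z ≥ 0`, `B ≥ 1`. Fix `δ ≤ 1`. `Tv w f` is in `Cz` (`tv_cz`), so there is `R ≥ 1` with `|Tv w f y| ≤ δ` for `y ≥ R`.
(1) Large `y`. Let `D` with `|f z| ≤ δ` for `z ≥ D`. `|f (z/√n)| ≤ δ + B e^{D} e^{-z/√n}`, so by `lev_mono`, `lev_lin`, `lev_one` and `lev_exp` (`ε = 1/√n`)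
`|lev f k y|/λ^N ≤ C δ + C B e^{D} e^{-y/√n} e^{K N/n} ≤ 2 C δ` for `y ≥ R' √n`, `R' = R' (δ)` large. (2) `y ≤ R' √n`. For `A₀` take `A`, `K'`, `c` from `trig_approx`, `θ`, `i` from `freq_exists`; `p`, `p_n` as in RD-EF: for large `n`
`|f (z/√n) - p_n z| ≤ 2 δ + (2 B + δ) 1_{z ≥ A √n} ≤ 2 δ + 3 B e^{-A} e^{z/√n}` for all `z`, so `|lev (f - p_n) k y|/λ^N ≤ C δ + C B e^{-A + R'} e^{K N/n}` (`lev_one`, `lev_exp` with `ε = -1/√n`), small for `A₀` large. By `lev_sin`
`lev (sin (j θ_n ·)) k y/λ^N = sin (j θ_n y) ρ_n + O (θ_n)`, `ρ_n = H (k+1)/H (l+1)/λ^N → exp (-(w (j π/A)²/2))` (`hh_ratio_lim`), `|sin (j θ_n y) - sin (j (π/A) (y/√n))| ≤ j |θ_n √n - π/A| R' → 0` uniformly for `y ≤ R' √n`. So `lev p_n k y/λ^N - Tv w p (y/√n) → 0` uniformly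
(`tv_sin`, `tv_lin`). And `|Tv w (f - p) (y')| ≤ δ + (2 B + δ) ∫_{z > A} hk w y' z dz` for `y' ≤ R'`: `hk w y' z ≤ exp (-((z - y')²/(2 w)))/√(2πw)`, small for `A₀` large, uniformly in `y' ≤ R'` (substitute; or bound `1_{z > A} ≤ e^{z - A}`).

`lev_step`: as `ell_step` in RD-EF (`lev_one` instead of `ell_one`, `tv_small` instead of `la_small`).
-/

open Finset Filter

namespace Pool.Agent.Helper49.RD

open Pool.Agent.Helper49.DL Pool.Agent.Helper49.DX

private lemma t_lt82 {t : ℝ} (_ht : 0 < t) (hq : t ^ 2 + 2 * t < 1) : t < 1 := by nlinarith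

private lemma lev_scale82 (t td : ℝ) (m L : ℕ) (a : ℝ) (E : ℕ → ℝ) (k y : ℕ) :
    lev t td m L (fun z => a * E z) k y = a * lev t td m L E k y := by
  have h := lev_lin t td m L a 0 E (fun _ => 0) k y
  have h2 : (fun z => a * E z + 0 * (fun _ : ℕ => (0 : ℝ)) z) = fun z => a * E z := by
    funext z
    simp
  rw [h2] at h
  rw [h]
  ring

private lemma lev_sum82 (t td : ℝ) (m L : ℕ) (c : ℕ → ℝ) (S : ℕ → ℕ → ℝ) (k y K : ℕ) :
    lev t td m L (fun z => ∑ j ∈ range K, c j * S j z) k y =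
      ∑ j ∈ range K, c j * lev t td m L (S j) k y := by
  induction K with
  | zero =>
    simp only [Finset.range_zero, Finset.sum_empty]
    have h := lev_scale82 t td m L 0 (fun _ => 0) k y
    simpa using h
  | succ K ih =>
    have h := lev_lin t td m L 1 (c K) (fun z => ∑ j ∈ range K, c j * S j z) (S K) k y
    have h2 : (fun z => ∑ j ∈ range (K + 1), c j * S j z) =
        fun z => 1 * (fun z => ∑ j ∈ range K, c j * S j z) z + c K * S K z := by
      funext z
      rw [Finset.sum_range_succ, one_mul]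
    rw [h2, h, Finset.sum_range_succ, ih, one_mul]

private lemma lev_abs82 {t td : ℝ} (ht : 0 < t) (hq : t ^ 2 + 2 * t < 1) (htd : 0 < td)
    (htt : td ≤ t) {m L : ℕ} (hm : 2 ≤ m) {E F : ℕ → ℝ} (h : ∀ y ≤ m, |E y| ≤ F y) {k : ℕ}
    (hk : k ≤ L) {y : ℕ} (hy : y ≤ m) : |lev t td m L E k y| ≤ lev t td m L F k y := by
  have h1 := (lev_mono ht hq htd htt hm (L := L) (E := E) (F := F)
    (fun y hy => (le_abs_self _).trans (h y hy))).1 k hk y hy
  have h2 := (lev_nonneg ht hq htd htt hm (L := L) (E := fun z => 1 * F z + 1 * E z)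
    (fun y hy => by
      have h3 := h y hy
      have h4 := neg_abs_le (E y)
      show 0 ≤ 1 * F y + 1 * E y
      linarith)).1 k hk y hy
  rw [lev_lin] at h2
  rw [abs_le]
  exact ⟨by linarith, h1⟩

private lemma lev_bd82 {t td : ℝ} (ht : 0 < t) (hq : t ^ 2 + 2 * t < 1) (htd : 0 < td)
    (htt : td < t) : ∃ C K ε₀ : ℝ, 1 ≤ C ∧ 0 < K ∧ 0 < ε₀ ∧ ∀ ε : ℝ, |ε| ≤ ε₀ → ∀ m : ℕ, 2 ≤ m →
      ∀ L : ℕ, ∀ a b : ℝ, 0 ≤ a → 0 ≤ b → ∀ E : ℕ → ℝ,
      (∀ z ≤ m, |E z| ≤ a + b * Real.exp (-(ε * z))) → ∀ k ≤ L, ∀ y ≤ m,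
      |lev t td m L E k y / lam t ^ (L - k)| ≤
        C * a + C * b * Real.exp (-(ε * y)) * Real.exp ((L - k : ℕ) * (K * ε ^ 2)) := by
  obtain ⟨C₁, K, ε₀, hC₁, hK, hε₀, -, h1⟩ := lev_exp ht hq htd htt
  obtain ⟨C₂, hC₂, h2⟩ := lev_one ht hq htd htt
  have hl := lam_pos ht (t_lt82 ht hq)
  refine ⟨max C₁ C₂, K, ε₀, hC₁.trans (le_max_left _ _), hK, hε₀, ?_⟩
  intro ε hε m hm L a b ha hb E hE k hk y hy
  have h3 := lev_abs82 ht hq htd htt.le hm (L := L) (E := E)
    (F := fun z => a * (fun _ : ℕ => (1 : ℝ)) z + b * (fun z : ℕ => Real.exp (-(ε * z))) z)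
    (fun z hz => by
      have := hE z hz
      simpa using this) hk hy
  rw [lev_lin] at h3
  have h4 := (h2 m hm L).1 k hk y hy
  have h5 := (h1 ε hε m hm L).1 k hk y hy
  have hlp : 0 < lam t ^ (L - k) := pow_pos hl _
  rw [abs_div, abs_of_pos hlp, div_le_iff₀ hlp]
  have h6 : (lam t * Real.exp (K * ε ^ 2)) ^ (L - k) =
      lam t ^ (L - k) * Real.exp ((L - k : ℕ) * (K * ε ^ 2)) := by
    rw [mul_pow, ← Real.exp_nat_mul]
  rw [h6] at h5
  have h7 : a * lev t td m L (fun _ : ℕ => (1 : ℝ)) k y ≤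
      a * (max C₁ C₂ * lam t ^ (L - k)) := by
    refine mul_le_mul_of_nonneg_left (h4.trans ?_) ha
    exact mul_le_mul_of_nonneg_right (le_max_right _ _) hlp.le
  have h8 : b * lev t td m L (fun z : ℕ => Real.exp (-(ε * z))) k y ≤
      b * (max C₁ C₂ * Real.exp (-(ε * y)) *
        (lam t ^ (L - k) * Real.exp ((L - k : ℕ) * (K * ε ^ 2)))) := by
    refine mul_le_mul_of_nonneg_left (h5.trans ?_) hb
    refine mul_le_mul_of_nonneg_right ?_ (by positivity)
    exact mul_le_mul_of_nonneg_right (le_max_left _ _) (Real.exp_pos _).le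
  calc |lev t td m L E k y| ≤ a * lev t td m L (fun _ : ℕ => (1 : ℝ)) k y +
        b * lev t td m L (fun z : ℕ => Real.exp (-(ε * z))) k y := h3
    _ ≤ a * (max C₁ C₂ * lam t ^ (L - k)) + b * (max C₁ C₂ * Real.exp (-(ε * y)) *
        (lam t ^ (L - k) * Real.exp ((L - k : ℕ) * (K * ε ^ 2)))) := add_le_add h7 h8
    _ = (max C₁ C₂ * a + max C₁ C₂ * b * Real.exp (-(ε * y)) *
        Real.exp ((L - k : ℕ) * (K * ε ^ 2))) * lam t ^ (L - k) := by ring

private lemma sqrt_top82 : Tendsto (fun n : ℕ => Real.sqrt n) atTop atTop :=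
  Real.tendsto_sqrt_atTop.comp tendsto_natCast_atTop_atTop

private lemma gap82 {k l : ℕ → ℕ} {s s' : ℝ} (hs : s < s')
    (hk : Tendsto (fun n : ℕ => (k n : ℝ) / n) atTop (nhds s))
    (hl : Tendsto (fun n : ℕ => (l n : ℝ) / n) atTop (nhds s')) :
    ∀ᶠ n : ℕ in atTop, k n ≤ l n ∧ ((l n - k n : ℕ) : ℝ) / n ≤ s' - s + 1 := by
  have h1 : Tendsto (fun n : ℕ => (l n : ℝ) / n - (k n : ℝ) / n) atTop (nhds (s' - s)) := hl.sub hk
  have h2 : ∀ᶠ n : ℕ in atTop, 0 < (l n : ℝ) / n - (k n : ℝ) / n :=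
    h1.eventually (lt_mem_nhds (by linarith))
  have h3 : ∀ᶠ n : ℕ in atTop, (l n : ℝ) / n - (k n : ℝ) / n < s' - s + 1 :=
    h1.eventually (gt_mem_nhds (by linarith))
  filter_upwards [h2, h3, eventually_gt_atTop 0] with n hn2 hn3 hn0
  have hn : (0 : ℝ) < n := by exact_mod_cast hn0
  have h4 : k n ≤ l n := by
    rw [← sub_div] at hn2
    have h5 : 0 < (l n : ℝ) - k n := by
      by_contra hcon
      have := div_nonpos_of_nonpos_of_nonneg (not_lt.1 hcon) hn.le
      linarith
    have h6 : (k n : ℝ) < l n := by linarith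
    exact_mod_cast h6.le
  refine ⟨h4, ?_⟩
  rw [Nat.cast_sub h4, sub_div]
  exact hn3.le

private lemma lev_asym82 {t td : ℝ} (ht : 0 < t) (hq : t ^ 2 + 2 * t < 1) (htd : 0 < td)
    (htt : td < t) {k l : ℕ → ℕ} {s s' : ℝ} (hs : s < s')
    (hk : Tendsto (fun n : ℕ => (k n : ℝ) / n) atTop (nhds s))
    (hl : Tendsto (fun n : ℕ => (l n : ℝ) / n) atTop (nhds s')) :
    ∃ C : ℝ, 1 ≤ C ∧ ∀ᶠ n : ℕ in atTop, k n ≤ l n ∧ 2 ≤ n ∧ ∀ σ : ℝ, |σ| ≤ 1 → ∀ a b : ℝ,
      0 ≤ a → 0 ≤ b → ∀ E : ℕ → ℝ, (∀ z ≤ n, |E z| ≤ a + b * Real.exp (σ * (z / Real.sqrt n))) →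
      ∀ y ≤ n, |lev t td n (l n) E (k n) y / lam t ^ (l n - k n)| ≤
        C * a + C * b * Real.exp (σ * (y / Real.sqrt n)) := by
  obtain ⟨C₀, K, ε₀, hC₀, hK, hε₀, hb⟩ := lev_bd82 ht hq htd htt
  set κ : ℝ := K * (s' - s + 1) with hκ
  have hκ0 : 0 ≤ κ := by
    have : 0 < s' - s + 1 := by linarith
    positivity
  have hκ1 : 1 ≤ Real.exp κ := Real.one_le_exp hκ0
  refine ⟨C₀ * Real.exp κ, ?_, ?_⟩
  · calc (1 : ℝ) = 1 * 1 := (one_mul 1).symm
      _ ≤ C₀ * Real.exp κ := mul_le_mul hC₀ hκ1 zero_le_one (by linarith)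
  · have h1 : ∀ᶠ n : ℕ in atTop, ε₀⁻¹ ≤ Real.sqrt n := sqrt_top82.eventually_ge_atTop _
    filter_upwards [gap82 hs hk hl, h1, eventually_ge_atTop 2] with n hn hn1 hn2
    refine ⟨hn.1, hn2, ?_⟩
    intro σ hσ a b ha hb0 E hE y hy
    have hn0 : (0 : ℝ) < n := by
      have : 0 < n := by omega
      exact_mod_cast this
    have hsq : 0 < Real.sqrt n := Real.sqrt_pos.2 hn0
    have hε : |(-(σ / Real.sqrt n))| ≤ ε₀ := by
      rw [abs_neg, abs_div, abs_of_pos hsq, div_le_iff₀ hsq]
      have h2 : 1 ≤ ε₀ * Real.sqrt n := by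
        have := mul_le_mul_of_nonneg_left hn1 hε₀.le
        rwa [mul_inv_cancel₀ hε₀.ne'] at this
      linarith
    have he : ∀ z : ℕ, Real.exp (-(-(σ / Real.sqrt n) * z)) =
        Real.exp (σ * (z / Real.sqrt n)) := by
      intro z
      congr 1
      ring
    have h3 := hb (-(σ / Real.sqrt n)) hε n hn2 (l n) a b ha hb0 E (fun z hz => by
      rw [he]
      exact hE z hz) (k n) hn.1 y hy
    rw [he] at h3
    have h4 : ((l n - k n : ℕ) : ℝ) * (K * (-(σ / Real.sqrt n)) ^ 2) ≤ κ := by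
      have h5 : (-(σ / Real.sqrt n)) ^ 2 ≤ 1 / n := by
        rw [neg_sq, div_pow, Real.sq_sqrt hn0.le]
        refine div_le_div_of_nonneg_right ?_ hn0.le
        rw [← sq_abs]
        exact pow_le_one₀ (abs_nonneg _) hσ
      have h6 : (0 : ℝ) ≤ ((l n - k n : ℕ) : ℝ) := Nat.cast_nonneg _
      calc ((l n - k n : ℕ) : ℝ) * (K * (-(σ / Real.sqrt n)) ^ 2)
          ≤ ((l n - k n : ℕ) : ℝ) * (K * (1 / n)) :=
            mul_le_mul_of_nonneg_left (mul_le_mul_of_nonneg_left h5 hK.le) h6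
        _ = K * (((l n - k n : ℕ) : ℝ) / n) := by ring
        _ ≤ K * (s' - s + 1) := mul_le_mul_of_nonneg_left hn.2 hK.le
    have h7 := Real.exp_le_exp.2 h4
    have h8 : C₀ * b * Real.exp (σ * (y / Real.sqrt n)) *
        Real.exp ((l n - k n : ℕ) * (K * (-(σ / Real.sqrt n)) ^ 2)) ≤
        C₀ * b * Real.exp (σ * (y / Real.sqrt n)) * Real.exp κ :=
      mul_le_mul_of_nonneg_left h7 (by positivity)
    have h9 : C₀ * a ≤ C₀ * Real.exp κ * a := by
      have : C₀ * a * 1 ≤ C₀ * a * Real.exp κ :=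
        mul_le_mul_of_nonneg_left hκ1 (by positivity)
      linarith
    calc |lev t td n (l n) E (k n) y / lam t ^ (l n - k n)|
        ≤ C₀ * a + C₀ * b * Real.exp (σ * (y / Real.sqrt n)) *
          Real.exp ((l n - k n : ℕ) * (K * (-(σ / Real.sqrt n)) ^ 2)) := h3
      _ ≤ C₀ * Real.exp κ * a + C₀ * b * Real.exp (σ * (y / Real.sqrt n)) * Real.exp κ :=
          add_le_add h9 h8
      _ = C₀ * Real.exp κ * a + C₀ * Real.exp κ * b * Real.exp (σ * (y / Real.sqrt n)) := by ring

private lemma sg_pos82 {t : ℝ} (ht : 0 < t) (hq : t ^ 2 + 2 * t < 1) : 0 < sg t := by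
  have h1 := lam_pos ht (t_lt82 ht hq)
  have h2 := lam_lt_one ht hq
  unfold sg
  have h3 : 0 < 1 - lam t ^ 2 := by nlinarith
  positivity

private lemma tv_sum82 {w : ℝ} (hw : 0 < w) (c u : ℕ → ℝ) (K : ℕ) (y : ℝ) :
    Tv w (fun z => ∑ j ∈ range K, c j * Real.sin (u j * z)) y =
      ∑ j ∈ range K, c j * (Real.exp (-(w * u j ^ 2 / 2)) * Real.sin (u j * y)) := by
  induction K with
  | zero =>
    unfold Tv
    simp
  | succ K ih =>
    have hm : ∀ K : ℕ, Measurable (fun z : ℝ => ∑ j ∈ range K, c j * Real.sin (u j * z)) := by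
      intro K
      refine Continuous.measurable ?_
      fun_prop
    have hs : Measurable (fun z : ℝ => Real.sin (u K * z)) := by
      refine Continuous.measurable ?_
      fun_prop
    have h1 := tv_lin hw 1 (c K) (hm K) hs (B := (∑ j ∈ range K, |c j|) + 1) (fun z _ => by
      calc |∑ j ∈ range K, c j * Real.sin (u j * z)| ≤ ∑ j ∈ range K, |c j * Real.sin (u j * z)| :=
            Finset.abs_sum_le_sum_abs _ _
        _ ≤ ∑ j ∈ range K, |c j| := by
            refine Finset.sum_le_sum fun j _ => ?_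
            rw [abs_mul]
            calc |c j| * |Real.sin (u j * z)| ≤ |c j| * 1 :=
                  mul_le_mul_of_nonneg_left (Real.abs_sin_le_one _) (abs_nonneg _)
              _ = |c j| := mul_one _
        _ ≤ (∑ j ∈ range K, |c j|) + 1 := by linarith) (fun z _ => by
      have h2 : 0 ≤ ∑ j ∈ range K, |c j| := Finset.sum_nonneg fun j _ => abs_nonneg _
      have h3 := Real.abs_sin_le_one (u K * z)
      linarith) y
    have h2 : (fun z => ∑ j ∈ range (K + 1), c j * Real.sin (u j * z)) =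
        fun z => 1 * (∑ j ∈ range K, c j * Real.sin (u j * z)) + c K * Real.sin (u K * z) := by
      funext z
      rw [Finset.sum_range_succ, one_mul]
    rw [h2, h1, ih, tv_sin hw, Finset.sum_range_succ, one_mul]

private lemma tail82 {w : ℝ} (hw : 0 < w) : ∃ G : ℝ, 0 < G ∧ ∀ (A M y : ℝ) (g : ℝ → ℝ), 0 ≤ y →
    0 ≤ M → (∀ z, 0 < z → |g z| ≤ M * Real.exp (z - A)) → |Tv w g y| ≤ M * G * Real.exp (y - A) := by
  set φ : ℝ → ℝ := fun x => Real.exp x * Real.exp (-(x ^ 2 / (2 * w))) with hφ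
  have hφi : MeasureTheory.Integrable φ := by
    have h1 : MeasureTheory.Integrable fun x : ℝ => Real.exp (-(1 / (2 * w)) * x ^ 2) :=
      integrable_exp_neg_mul_sq (by positivity)
    have h2 := (h1.comp_sub_right w).const_mul (Real.exp (w / 2))
    refine h2.congr (Filter.Eventually.of_forall fun x => ?_)
    simp only [hφ]
    rw [← Real.exp_add, ← Real.exp_add]
    congr 1
    field_simp
    ring
  have hφ0 : ∀ x, 0 ≤ φ x := fun x => by
    simp only [hφ]
    positivity
  refine ⟨(∫ x, φ x) / Real.sqrt (2 * Real.pi * w) + 1, ?_, ?_⟩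
  · have h1 : 0 ≤ ∫ x, φ x := MeasureTheory.integral_nonneg hφ0
    positivity
  intro A M y g hy hM hg
  have hsq : 0 < Real.sqrt (2 * Real.pi * w) := Real.sqrt_pos.2 (by positivity)
  have hψi : MeasureTheory.Integrable fun z : ℝ =>
      M * Real.exp (y - A) / Real.sqrt (2 * Real.pi * w) * φ (z - y) :=
    (hφi.comp_sub_right y).const_mul _
  have h1 : ‖∫ z in Set.Ioi (0 : ℝ), hk w y z * g z‖ ≤ ∫ z in Set.Ioi (0 : ℝ),
      M * Real.exp (y - A) / Real.sqrt (2 * Real.pi * w) * φ (z - y) := by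
    refine MeasureTheory.norm_integral_le_of_norm_le hψi.integrableOn ?_
    refine (MeasureTheory.ae_restrict_iff' measurableSet_Ioi).2
      (Filter.Eventually.of_forall fun z hz => ?_)
    have hz0 : 0 < z := hz
    have h2 := hk_nonneg hw hy hz0.le
    have h3 : hk w y z ≤ Real.exp (-((y - z) ^ 2 / (2 * w))) / Real.sqrt (2 * Real.pi * w) := by
      unfold hk
      refine div_le_div_of_nonneg_right ?_ hsq.le
      have := Real.exp_pos (-((y + z) ^ 2 / (2 * w)))
      linarith
    rw [norm_mul, Real.norm_eq_abs, Real.norm_eq_abs, abs_of_nonneg h2]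
    calc hk w y z * |g z| ≤ Real.exp (-((y - z) ^ 2 / (2 * w))) / Real.sqrt (2 * Real.pi * w) *
          (M * Real.exp (z - A)) := mul_le_mul h3 (hg z hz0) (abs_nonneg _) (by positivity)
      _ = M * Real.exp (y - A) / Real.sqrt (2 * Real.pi * w) * φ (z - y) := by
          simp only [hφ]
          have h4 : Real.exp (z - A) = Real.exp (y - A) * Real.exp (z - y) := by
            rw [← Real.exp_add]
            congr 1
            ring
          have h5 : (y - z) ^ 2 = (z - y) ^ 2 := by ring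
          rw [h4, h5]
          ring
  have h2 : ∫ z in Set.Ioi (0 : ℝ), M * Real.exp (y - A) / Real.sqrt (2 * Real.pi * w) * φ (z - y) ≤
      ∫ z, M * Real.exp (y - A) / Real.sqrt (2 * Real.pi * w) * φ (z - y) := by
    refine MeasureTheory.setIntegral_le_integral hψi (Filter.Eventually.of_forall fun z => ?_)
    have := hφ0 (z - y)
    show (0 : ℝ) ≤ M * Real.exp (y - A) / Real.sqrt (2 * Real.pi * w) * φ (z - y)
    positivity
  have h3 : ∫ z, M * Real.exp (y - A) / Real.sqrt (2 * Real.pi * w) * φ (z - y) =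
      M * Real.exp (y - A) / Real.sqrt (2 * Real.pi * w) * ∫ x, φ x := by
    rw [MeasureTheory.integral_const_mul, MeasureTheory.integral_sub_right_eq_self]
  rw [h3] at h2
  unfold Tv
  rw [← Real.norm_eq_abs]
  refine (h1.trans h2).trans ?_
  have h4 : M * Real.exp (y - A) / Real.sqrt (2 * Real.pi * w) * ∫ x, φ x =
      M * Real.exp (y - A) * ((∫ x, φ x) / Real.sqrt (2 * Real.pi * w)) := by ring
  rw [h4]
  have h5 : 0 ≤ M * Real.exp (y - A) := by positivity
  nlinarith

private lemma tv_diff82 {w : ℝ} (hw : 0 < w) : ∃ G : ℝ, 0 < G ∧ ∀ (A M δ : ℝ) (f p : ℝ → ℝ),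
    0 ≤ δ → 0 ≤ M → Measurable f → Measurable p → (∀ z, 0 < z → z ≤ A → |f z - p z| ≤ δ) →
    (∀ z, 0 < z → |f z| ≤ M) → (∀ z, 0 < z → |p z| ≤ M) → ∀ y, 0 ≤ y →
    |Tv w f y - Tv w p y| ≤ δ + 2 * M * G * Real.exp (y - A) := by
  obtain ⟨G, hG, hT⟩ := tail82 hw
  refine ⟨G, hG, ?_⟩
  intro A M δ f p hδ hM hf hp h1 h2 h3 y hy
  have hd := tv_lin hw 1 (-1) hf hp (B := M) h2 h3 y
  have hm : Measurable fun z => f z - p z := hf.sub hp
  have hms : MeasurableSet {z : ℝ | z ≤ A} := measurableSet_Iic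
  set g₁ : ℝ → ℝ := fun z => if z ≤ A then f z - p z else 0 with hg₁
  set g₂ : ℝ → ℝ := fun z => if z ≤ A then 0 else f z - p z with hg₂
  have hb : ∀ z, 0 < z → |f z - p z| ≤ 2 * M := fun z hz => by
    have h4 := abs_sub (f z) (p z)
    have h5 := h2 z hz
    have h6 := h3 z hz
    linarith
  have hg₁m : Measurable g₁ := Measurable.ite hms hm measurable_const
  have hg₂m : Measurable g₂ := Measurable.ite hms measurable_const hm
  have e1 := tv_lin hw 1 1 hg₁m hg₂m (B := 2 * M) (fun z hz => by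
      simp only [hg₁]
      split_ifs
      · exact hb z hz
      · rw [abs_zero]; linarith) (fun z hz => by
      simp only [hg₂]
      split_ifs
      · rw [abs_zero]; linarith
      · exact hb z hz) y
  have e2 : (fun z => 1 * g₁ z + 1 * g₂ z) = fun z => 1 * f z + -1 * p z := by
    funext z
    simp only [hg₁, hg₂]
    split_ifs <;> ring
  rw [e2, hd] at e1
  have b1 := tv_le hw hg₁m (B := δ) (fun z hz => by
      simp only [hg₁]
      split_ifs with h
      · exact h1 z hz h
      · rw [abs_zero]; exact hδ) hy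
  have b2 := hT A (2 * M) y g₂ hy (by linarith) (fun z hz => by
      simp only [hg₂]
      split_ifs with h
      · rw [abs_zero]; positivity
      · have h4 : 1 ≤ Real.exp (z - A) := Real.one_le_exp (by linarith)
        have h5 := hb z hz
        calc |f z - p z| ≤ 2 * M * 1 := by linarith
          _ ≤ 2 * M * Real.exp (z - A) := mul_le_mul_of_nonneg_left h4 (by linarith))
  have e3 : Tv w f y - Tv w p y = Tv w g₁ y + Tv w g₂ y := by linarith
  rw [e3]
  exact (abs_add_le _ _).trans (add_le_add b1 b2)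

private lemma exp_small82 (M δ : ℝ) (hδ : 0 < δ) (R₀ : ℝ) : ∃ R, R₀ ≤ R ∧ M * Real.exp (-R) ≤ δ := by
  have h2 : Tendsto (fun R : ℝ => M * Real.exp (-R)) atTop (nhds 0) := by
    have := (Real.tendsto_exp_neg_atTop_nhds_zero).const_mul M
    simpa using this
  obtain ⟨R, hR⟩ := ((h2.eventually (gt_mem_nhds hδ)).and (eventually_ge_atTop R₀)).exists
  exact ⟨R, hR.2, hR.1.le⟩

private lemma far82 {f : ℝ → ℝ} (hf : Tendsto f atTop (nhds 0)) {δ : ℝ} (hδ : 0 < δ) :
    ∃ D, ∀ z, D ≤ z → |f z| ≤ δ := by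
  have h1 := Metric.tendsto_nhds.mp hf δ hδ
  obtain ⟨z₀, hz₀⟩ := Filter.eventually_atTop.mp h1
  refine ⟨z₀, fun z hz => ?_⟩
  have := hz₀ z hz
  rw [Real.dist_eq, sub_zero] at this
  exact this.le

private lemma theta_zero82 {θ : ℕ → ℝ} {u : ℝ}
    (h : Tendsto (fun n : ℕ => θ n * Real.sqrt n) atTop (nhds u)) : Tendsto θ atTop (nhds 0) := by
  have h1 : Tendsto (fun n : ℕ => (Real.sqrt n)⁻¹) atTop (nhds 0) :=
    tendsto_inv_atTop_zero.comp sqrt_top82
  have h2 := h.mul h1
  rw [mul_zero] at h2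
  refine h2.congr' ?_
  filter_upwards [eventually_gt_atTop 0] with n hn
  have hn' : (0 : ℝ) < n := by exact_mod_cast hn
  have hs : 0 < Real.sqrt n := Real.sqrt_pos.mpr hn'
  field_simp

private lemma sin_step82 {w θ uu R ρ y rt : ℝ} (hR : 0 ≤ R) (hrt : 0 < rt)
    (hy0 : 0 ≤ y) (hyR : y / rt ≤ R) (hw : 0 ≤ w) :
    |Real.sin (θ * y) * ρ - Real.exp (-(w * uu ^ 2 / 2)) * Real.sin (uu * (y / rt))| ≤
      |ρ - Real.exp (-(w * uu ^ 2 / 2))| + |θ * rt - uu| * R := by
  set e := Real.exp (-(w * uu ^ 2 / 2)) with he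
  have he0 : 0 < e := Real.exp_pos _
  have he1 : e ≤ 1 := by
    rw [he]
    refine Real.exp_le_one_iff.2 ?_
    have : 0 ≤ w * uu ^ 2 / 2 := by positivity
    linarith
  have h1 : Real.sin (θ * y) * ρ - e * Real.sin (uu * (y / rt)) =
      Real.sin (θ * y) * (ρ - e) + e * (Real.sin (θ * y) - Real.sin (uu * (y / rt))) := by ring
  rw [h1]
  refine (abs_add_le _ _).trans (add_le_add ?_ ?_)
  · rw [abs_mul]
    calc |Real.sin (θ * y)| * |ρ - e| ≤ 1 * |ρ - e| :=
          mul_le_mul_of_nonneg_right (Real.abs_sin_le_one _) (abs_nonneg _)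
      _ = |ρ - e| := one_mul _
  · rw [abs_mul, abs_of_pos he0]
    have h2 := Real.abs_sin_sub_sin_le (θ * y) (uu * (y / rt))
    have h3 : θ * y - uu * (y / rt) = (θ * rt - uu) * (y / rt) := by
      field_simp
    rw [h3, abs_mul] at h2
    have h4 : |y / rt| ≤ R := by
      rw [abs_of_nonneg (div_nonneg hy0 hrt.le)]
      exact hyR
    have h5 : |θ * rt - uu| * |y / rt| ≤ |θ * rt - uu| * R :=
      mul_le_mul_of_nonneg_left h4 (abs_nonneg _)
    have h6 : 0 ≤ |θ * rt - uu| * R := mul_nonneg (abs_nonneg _) hR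
    have h7 : |Real.sin (θ * y) - Real.sin (uu * (y / rt))| ≤ |θ * rt - uu| * R := h2.trans h5
    calc e * |Real.sin (θ * y) - Real.sin (uu * (y / rt))| ≤ 1 * (|θ * rt - uu| * R) :=
          mul_le_mul he1 h7 (abs_nonneg _) zero_le_one
      _ = |θ * rt - uu| * R := one_mul _

section

variable {t td : ℝ} (ht : 0 < t) (hq : t ^ 2 + 2 * t < 1) (htd : 0 < td) (htt : td < t)

include ht hq htd htt

/-- convergence of the levels of sine polynomials, uniformly for `y ≤ R √n` -/
private lemma lev_poly82 {k l : ℕ → ℕ} {s s' : ℝ} (hs : s < s')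
    (hk : Tendsto (fun n : ℕ => (k n : ℝ) / n) atTop (nhds s))
    (hl : Tendsto (fun n : ℕ => (l n : ℝ) / n) atTop (nhds s')) {A : ℝ} (K : ℕ) (c : ℕ → ℝ)
    {θ : ℕ → ℝ} {i : ℕ → ℕ} (hθ0 : ∀ n, 0 ≤ θ n) (hθn : ∀ n, θ n * n = Real.pi * i n)
    (hθl : Tendsto (fun n : ℕ => θ n * Real.sqrt n) atTop (nhds (Real.pi / A))) {R δ : ℝ}
    (hR : 0 ≤ R) (hδ : 0 < δ) :
    ∀ᶠ n : ℕ in atTop, ∀ y : ℕ, y ≤ n → (y : ℝ) / Real.sqrt n ≤ R →
      |lev t td n (l n) (fun z => ∑ j ∈ range K, c j * Real.sin (j * θ n * z)) (k n) y /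
        lam t ^ (l n - k n) - Tv (sg t * (s' - s))
          (fun z => ∑ j ∈ range K, c j * Real.sin (j * (Real.pi / A) * z)) (y / Real.sqrt n)| ≤ δ := by
  have hw : 0 < sg t * (s' - s) := mul_pos (sg_pos82 ht hq) (by linarith)
  obtain ⟨C₃, hC₃, hSin⟩ := lev_sin ht hq htd htt
  have hl0 := lam_pos ht (t_lt82 ht hq)
  set w := sg t * (s' - s) with hwd
  set ρ : ℕ → ℕ → ℝ := fun j n =>
    Hh t (j * θ n) (k n + 1) / Hh t (j * θ n) (l n + 1) / lam t ^ (l n - k n) with hρd
  set e : ℕ → ℝ := fun j => Real.exp (-(w * (j * (Real.pi / A)) ^ 2 / 2)) with hed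
  have hθj : ∀ j : ℕ, Tendsto (fun n : ℕ => j * θ n * Real.sqrt n) atTop
      (nhds (j * (Real.pi / A))) := by
    intro j
    have := hθl.const_mul (j : ℝ)
    refine this.congr fun n => ?_
    ring
  have hinv : Tendsto (fun n : ℕ => 1 / (n : ℝ)) atTop (nhds 0) :=
    tendsto_one_div_atTop_nhds_zero_nat
  have hk1 : Tendsto (fun n : ℕ => ((k n + 1 : ℕ) : ℝ) / n) atTop (nhds s) := by
    have := hk.add hinv
    rw [add_zero] at this
    refine this.congr fun n => ?_
    push_cast
    ring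
  have hl1 : Tendsto (fun n : ℕ => ((l n + 1 : ℕ) : ℝ) / n) atTop (nhds s') := by
    have := hl.add hinv
    rw [add_zero] at this
    refine this.congr fun n => ?_
    push_cast
    ring
  have hρ : ∀ j : ℕ, Tendsto (ρ j) atTop (nhds (e j)) := by
    intro j
    have := hh_ratio_lim ht hq (θ := fun n => j * θ n) (k := fun n => k n + 1)
      (l := fun n => l n + 1) (hθj j) (by
        filter_upwards [gap82 hs hk hl] with n hn
        exact Nat.succ_le_succ hn.1) hk1 hl1
    refine this.congr fun n => ?_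
    simp only [hρd, Nat.add_sub_add_right]
  have herr : Tendsto (fun n : ℕ => ∑ j ∈ range K, |c j| * (C₃ * (j * θ n) + (|ρ j n - e j| +
      |j * θ n * Real.sqrt n - j * (Real.pi / A)| * R))) atTop (nhds 0) := by
    have h1 : ∀ j ∈ range K, Tendsto (fun n : ℕ => |c j| * (C₃ * (j * θ n) + (|ρ j n - e j| +
      |j * θ n * Real.sqrt n - j * (Real.pi / A)| * R))) atTop
        (nhds (|c j| * (C₃ * (j * 0) + (|e j - e j| +
          |j * (Real.pi / A) - j * (Real.pi / A)| * R)))) := by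
      intro j _
      refine Tendsto.const_mul _ (Tendsto.add ?_ (Tendsto.add ?_ ?_))
      · exact (((theta_zero82 hθl).const_mul (j : ℝ)).const_mul C₃)
      · exact ((hρ j).sub_const (e j)).abs
      · exact (((hθj j).sub_const _).abs).mul_const R
    have h2 := tendsto_finsetSum (range K) h1
    simpa using h2
  filter_upwards [gap82 hs hk hl, herr.eventually (gt_mem_nhds hδ), eventually_ge_atTop 2]
    with n hn hn1 hn2 y hy hyR
  have hn0 : (0 : ℝ) < n := by
    have : 0 < n := by omega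
    exact_mod_cast this
  have hrt : 0 < Real.sqrt n := Real.sqrt_pos.2 hn0
  have hlp : 0 < lam t ^ (l n - k n) := pow_pos hl0 _
  refine le_trans ?_ hn1.le
  rw [lev_sum82 t td n (l n) c (fun j z => Real.sin (j * θ n * z)), tv_sum82 hw, Finset.sum_div,
    ← Finset.sum_sub_distrib]
  refine (Finset.abs_sum_le_sum_abs _ _).trans (Finset.sum_le_sum fun j _ => ?_)
  have h1 := (hSin n (l n) hn2 (j * i n) (j * θ n) (mul_nonneg (Nat.cast_nonneg _) (hθ0 n)) (by
    push_cast
    rw [mul_assoc, hθn n]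
    ring)).1 (k n) hn.1 y hy
  have h2 : |lev t td n (l n) (fun z => Real.sin (j * θ n * z)) (k n) y / lam t ^ (l n - k n) -
      Real.sin (j * θ n * y) * ρ j n| ≤ C₃ * (j * θ n) := by
    have h3 : lev t td n (l n) (fun z => Real.sin (j * θ n * z)) (k n) y / lam t ^ (l n - k n) -
        Real.sin (j * θ n * y) * ρ j n = (lev t td n (l n) (fun z => Real.sin (j * θ n * z)) (k n) y -
          Real.sin (j * θ n * y) * (Hh t (j * θ n) (k n + 1) / Hh t (j * θ n) (l n + 1))) /
          lam t ^ (l n - k n) := by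
      simp only [hρd]
      ring
    rw [h3, abs_div, abs_of_pos hlp, div_le_iff₀ hlp]
    exact h1
  have h3 := sin_step82 (w := w) (θ := j * θ n) (uu := j * (Real.pi / A)) (R := R) (ρ := ρ j n)
    (y := y) (rt := Real.sqrt n) hR hrt (Nat.cast_nonneg y) hyR hw.le
  have h4 : c j * lev t td n (l n) (fun z => Real.sin (j * θ n * z)) (k n) y /
      lam t ^ (l n - k n) - c j * (Real.exp (-(w * (j * (Real.pi / A)) ^ 2 / 2)) *
        Real.sin (j * (Real.pi / A) * (y / Real.sqrt n))) =
      c j * ((lev t td n (l n) (fun z => Real.sin (j * θ n * z)) (k n) y / lam t ^ (l n - k n) -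
        Real.sin (j * θ n * y) * ρ j n) + (Real.sin (j * θ n * y) * ρ j n -
          Real.exp (-(w * (j * (Real.pi / A)) ^ 2 / 2)) *
        Real.sin (j * (Real.pi / A) * (y / Real.sqrt n)))) := by ring
  rw [h4, abs_mul]
  refine mul_le_mul_of_nonneg_left ?_ (abs_nonneg _)
  exact (abs_add_le _ _).trans (add_le_add h2 h3)

theorem lev_cz {f : ℝ → ℝ} (hf : Cz f) {k l : ℕ → ℕ} {s s' : ℝ} (hs : s < s')
    (hk : Tendsto (fun n : ℕ => (k n : ℝ) / n) atTop (nhds s))
    (hl : Tendsto (fun n : ℕ => (l n : ℝ) / n) atTop (nhds s')) :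
    SupLim (fun n y => lev t td n (l n) (fun z => f (z / Real.sqrt n)) (k n) y / lam t ^ (l n - k n))
      (Tv (sg t * (s' - s)) f) := by
  have hw : 0 < sg t * (s' - s) := mul_pos (sg_pos82 ht hq) (by linarith)
  obtain ⟨C, hC, hAs⟩ := lev_asym82 ht hq htd htt hs hk hl
  obtain ⟨B₀, hB₀⟩ := (cz_bz hf).bdd
  have hB₀0 : 0 ≤ B₀ := (abs_nonneg _).trans (hB₀ 0 le_rfl)
  obtain ⟨G, hG, hTd⟩ := tv_diff82 hw
  intro ε hε
  set δ : ℝ := min 1 (ε / (2 * C + 4)) with hδd
  have hδ0 : 0 < δ := lt_min one_pos (by positivity)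
  have hδ1 : δ ≤ 1 := min_le_left _ _
  have hδ2 : (2 * C + 4) * δ ≤ ε := by
    have h1 : δ ≤ ε / (2 * C + 4) := min_le_right _ _
    calc (2 * C + 4) * δ ≤ (2 * C + 4) * (ε / (2 * C + 4)) :=
          mul_le_mul_of_nonneg_left h1 (by linarith)
      _ = ε := by field_simp
  obtain ⟨D, hDf⟩ := far82 hf.top hδ0
  obtain ⟨R₁, hR₁⟩ := far82 (tv_cz hw (cz_bz hf)).top hδ0
  obtain ⟨R, hR2, hR3⟩ := exp_small82 (C * (B₀ * Real.exp D)) δ hδ0 (max 0 R₁)
  have hR0 : 0 ≤ R := (le_max_left _ _).trans hR2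
  obtain ⟨A₀, -, hA₀⟩ := exp_small82 ((C * (3 * (B₀ + 1)) + 2 * (B₀ + 1) * G) * Real.exp R) δ hδ0 0
  obtain ⟨A, K, c, hA1, hA0, hfp, hpB⟩ := trig_approx hf hB₀ hδ0 A₀
  have hApos : 0 < A := by linarith
  obtain ⟨θ, i, hθ0, hθn, hθl⟩ := freq_exists hA1
  set p : ℝ → ℝ := fun y => ∑ j ∈ range K, c j * Real.sin (j * (Real.pi / A) * y) with hpd
  have hpc : Continuous p := by
    simp only [hpd]
    fun_prop
  have herr2 : Tendsto (fun n : ℕ => (∑ j ∈ range K, |c j| * j) *
      |θ n * Real.sqrt n - Real.pi / A| * A) atTop (nhds 0) := by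
    have h1 := ((hθl.sub_const (Real.pi / A)).abs.const_mul (∑ j ∈ range K, |c j| * (j : ℝ))).mul_const A
    simpa using h1
  have hPoly := lev_poly82 ht hq htd htt hs hk hl K c hθ0 hθn hθl hR0 hδ0
  filter_upwards [hAs, herr2.eventually (gt_mem_nhds hδ0), hPoly] with n hn hn1 hn2 y hy
  obtain ⟨hkl, hn2', hbd⟩ := hn
  have hn0 : (0 : ℝ) < n := by
    have : 0 < n := by omega
    exact_mod_cast this
  have hrt : 0 < Real.sqrt n := Real.sqrt_pos.2 hn0
  have hy0 : 0 ≤ (y : ℝ) / Real.sqrt n := by positivity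
  have hCδ : 0 ≤ C * δ := by positivity
  by_cases hyR : R ≤ (y : ℝ) / Real.sqrt n
  · have h1 := hbd (-1) (by simp) δ (B₀ * Real.exp D) hδ0.le (by positivity)
      (fun z => f (z / Real.sqrt n)) (fun z hz => by
        have hz0 : 0 ≤ (z : ℝ) / Real.sqrt n := by positivity
        have hpos : 0 ≤ B₀ * Real.exp D * Real.exp (-1 * ((z : ℝ) / Real.sqrt n)) := by positivity
        show |f (z / Real.sqrt n)| ≤ _
        by_cases hzD : D ≤ (z : ℝ) / Real.sqrt n
        · have := hDf _ hzD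
          linarith
        · have h2 := hB₀ _ hz0
          have h3 : 1 ≤ Real.exp D * Real.exp (-1 * ((z : ℝ) / Real.sqrt n)) := by
            rw [← Real.exp_add]
            exact Real.one_le_exp (by linarith)
          have h4 := mul_le_mul_of_nonneg_left h3 hB₀0
          rw [mul_one, ← mul_assoc] at h4
          linarith) y hy
    have h2 : Real.exp (-1 * ((y : ℝ) / Real.sqrt n)) ≤ Real.exp (-R) :=
      Real.exp_le_exp.2 (by linarith)
    have h3 : C * (B₀ * Real.exp D) * Real.exp (-1 * ((y : ℝ) / Real.sqrt n)) ≤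
        C * (B₀ * Real.exp D) * Real.exp (-R) := mul_le_mul_of_nonneg_left h2 (by positivity)
    have h4 := hR₁ _ (((le_max_right _ _).trans hR2).trans hyR)
    have h5 := abs_sub (lev t td n (l n) (fun z => f (z / Real.sqrt n)) (k n) y /
      lam t ^ (l n - k n)) (Tv (sg t * (s' - s)) f (y / Real.sqrt n))
    nlinarith
  · push Not at hyR
    set Pn : ℕ → ℝ := fun z => ∑ j ∈ range K, c j * Real.sin (j * θ n * z) with hPn
    have hPnB : ∀ z : ℕ, |Pn z| ≤ B₀ + 1 := by
      intro z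
      have h1 := hpB (A * θ n * z / Real.pi)
      have h2 : Pn z = ∑ j ∈ range K, c j * Real.sin (j * (Real.pi / A) * (A * θ n * z / Real.pi)) := by
        simp only [hPn]
        refine Finset.sum_congr rfl fun j _ => ?_
        congr 2
        have := Real.pi_pos.ne'
        field_simp
      rw [h2]
      linarith
    have hPnp : ∀ z : ℕ, (z : ℝ) / Real.sqrt n ≤ A → |p (z / Real.sqrt n) - Pn z| ≤ δ := by
      intro z hz
      refine le_trans ?_ hn1.le
      have h1 : p (z / Real.sqrt n) - Pn z = ∑ j ∈ range K, c j *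
          (Real.sin (j * (Real.pi / A) * (z / Real.sqrt n)) - Real.sin (j * θ n * z)) := by
        simp only [hpd, hPn]
        rw [← Finset.sum_sub_distrib]
        exact Finset.sum_congr rfl fun j _ => by ring
      have h4 : ∀ j ∈ range K, |c j * (Real.sin (j * (Real.pi / A) * (z / Real.sqrt n)) -
          Real.sin (j * θ n * z))| ≤ |c j| * (j * (|θ n * Real.sqrt n - Real.pi / A| * A)) := by
        intro j _
        rw [abs_mul]
        refine mul_le_mul_of_nonneg_left ?_ (abs_nonneg _)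
        have h2 := Real.abs_sin_sub_sin_le (j * (Real.pi / A) * (z / Real.sqrt n)) (j * θ n * z)
        have h3 : (j : ℝ) * (Real.pi / A) * (z / Real.sqrt n) - j * θ n * z =
            -(j * ((θ n * Real.sqrt n - Real.pi / A) * (z / Real.sqrt n))) := by
          field_simp
          ring
        rw [h3, abs_neg, abs_mul, abs_mul, abs_of_nonneg (Nat.cast_nonneg j : (0 : ℝ) ≤ j)] at h2
        refine h2.trans ?_
        refine mul_le_mul_of_nonneg_left ?_ (Nat.cast_nonneg j)
        refine mul_le_mul_of_nonneg_left ?_ (abs_nonneg _)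
        rw [abs_of_nonneg (by positivity)]
        exact hz
      have h5 := (Finset.abs_sum_le_sum_abs (fun j : ℕ => c j *
        (Real.sin (j * (Real.pi / A) * (z / Real.sqrt n)) - Real.sin (j * θ n * z))) (range K)).trans
        (Finset.sum_le_sum h4)
      have h6 : ∑ j ∈ range K, |c j| * (j * (|θ n * Real.sqrt n - Real.pi / A| * A)) =
          (∑ j ∈ range K, |c j| * j) * |θ n * Real.sqrt n - Real.pi / A| * A := by
        rw [Finset.sum_mul, Finset.sum_mul]
        exact Finset.sum_congr rfl fun j _ => by ring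
      rw [h6] at h5
      rw [h1]
      exact h5
    have h1 := hbd 1 (by simp) (2 * δ) (3 * (B₀ + 1) * Real.exp (-A)) (by positivity) (by positivity)
      (fun z => f (z / Real.sqrt n) - Pn z) (fun z hz => by
        have hz0 : 0 ≤ (z : ℝ) / Real.sqrt n := by positivity
        show |f (z / Real.sqrt n) - Pn z| ≤ _
        by_cases hzA : (z : ℝ) / Real.sqrt n ≤ A
        · have h2 := hfp _ hz0 hzA
          have h3 := hPnp z hzA
          have h4 := abs_sub_le (f (z / Real.sqrt n)) (p (z / Real.sqrt n)) (Pn z)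
          have h5 : 0 ≤ 3 * (B₀ + 1) * Real.exp (-A) * Real.exp (1 * ((z : ℝ) / Real.sqrt n)) := by
            positivity
          have h2' : |f (z / Real.sqrt n) - p (z / Real.sqrt n)| ≤ δ := h2
          linarith
        · have h2 := hB₀ _ hz0
          have h3 := hPnB z
          have h4 := abs_sub (f (z / Real.sqrt n)) (Pn z)
          have h5 : 1 ≤ Real.exp (-A) * Real.exp (1 * ((z : ℝ) / Real.sqrt n)) := by
            rw [← Real.exp_add]
            exact Real.one_le_exp (by linarith)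
          have h6 := mul_le_mul_of_nonneg_left h5 (show 0 ≤ 3 * (B₀ + 1) by positivity)
          rw [mul_one, ← mul_assoc] at h6
          linarith) y hy
    have h2 := hn2 y hy hyR.le
    have h3 := hTd A (B₀ + 1) δ f p hδ0.le (by positivity) hf.cont.measurable hpc.measurable
      (fun z hz hzA => hfp z hz.le hzA) (fun z hz => by
        have := hB₀ z hz.le
        linarith) (fun z hz => by
        have : |p z| ≤ B₀ + δ := hpB z
        linarith) _ hy0
    have h4 : lev t td n (l n) (fun z => f (z / Real.sqrt n)) (k n) y =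
        lev t td n (l n) (fun z => f (z / Real.sqrt n) - Pn z) (k n) y +
          lev t td n (l n) Pn (k n) y := by
      have h5 := lev_lin t td n (l n) 1 1 (fun z => f (z / Real.sqrt n) - Pn z) Pn (k n) y
      have h6 : (fun z : ℕ => 1 * (fun z : ℕ => f (z / Real.sqrt n) - Pn z) z + 1 * Pn z) =
          fun z : ℕ => f (z / Real.sqrt n) := by
        funext z
        ring
      rw [h6] at h5
      rw [h5]
      ring
    have h5 : Real.exp (1 * ((y : ℝ) / Real.sqrt n)) ≤ Real.exp R :=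
      Real.exp_le_exp.2 (by linarith)
    have h6 : Real.exp ((y : ℝ) / Real.sqrt n - A) ≤ Real.exp R * Real.exp (-A) := by
      rw [← Real.exp_add]
      exact Real.exp_le_exp.2 (by linarith)
    have h7 : Real.exp (-A) ≤ Real.exp (-A₀) := Real.exp_le_exp.2 (by linarith)
    have h8 : C * (3 * (B₀ + 1) * Real.exp (-A)) * Real.exp (1 * ((y : ℝ) / Real.sqrt n)) +
        2 * (B₀ + 1) * G * Real.exp ((y : ℝ) / Real.sqrt n - A) ≤ δ := by
      calc C * (3 * (B₀ + 1) * Real.exp (-A)) * Real.exp (1 * ((y : ℝ) / Real.sqrt n)) +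
          2 * (B₀ + 1) * G * Real.exp ((y : ℝ) / Real.sqrt n - A)
          ≤ C * (3 * (B₀ + 1) * Real.exp (-A)) * Real.exp R +
            2 * (B₀ + 1) * G * (Real.exp R * Real.exp (-A)) :=
            add_le_add (mul_le_mul_of_nonneg_left h5 (by positivity))
              (mul_le_mul_of_nonneg_left h6 (by positivity))
        _ = (C * (3 * (B₀ + 1)) + 2 * (B₀ + 1) * G) * Real.exp R * Real.exp (-A) := by ring
        _ ≤ (C * (3 * (B₀ + 1)) + 2 * (B₀ + 1) * G) * Real.exp R * Real.exp (-A₀) :=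
            mul_le_mul_of_nonneg_left h7 (by positivity)
        _ ≤ δ := hA₀
    have h9 : lev t td n (l n) (fun z => f (z / Real.sqrt n)) (k n) y / lam t ^ (l n - k n) -
        Tv (sg t * (s' - s)) f (y / Real.sqrt n) =
        lev t td n (l n) (fun z => f (z / Real.sqrt n) - Pn z) (k n) y / lam t ^ (l n - k n) +
        (lev t td n (l n) Pn (k n) y / lam t ^ (l n - k n) -
          Tv (sg t * (s' - s)) p (y / Real.sqrt n)) -
        (Tv (sg t * (s' - s)) f (y / Real.sqrt n) - Tv (sg t * (s' - s)) p (y / Real.sqrt n)) := by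
      rw [h4]
      ring
    show |lev t td n (l n) (fun z => f (z / Real.sqrt n)) (k n) y / lam t ^ (l n - k n) -
        Tv (sg t * (s' - s)) f (y / Real.sqrt n)| ≤ ε
    rw [h9]
    refine (abs_sub _ _).trans ?_
    have h10 := abs_add_le (lev t td n (l n) (fun z => f (z / Real.sqrt n) - Pn z) (k n) y /
      lam t ^ (l n - k n)) (lev t td n (l n) Pn (k n) y / lam t ^ (l n - k n) -
          Tv (sg t * (s' - s)) p (y / Real.sqrt n))
    nlinarith

omit ht hq htd htt in
private lemma kb82 {x h h' δ : ℝ} (hδ : 0 < δ) (hd : |h' - h| < δ) :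
    |(if x < h' then (-1 : ℝ) else 1) - max (-1) (min 1 ((x - h) / δ))| ≤
      2 * max 0 (2 - |x - h| / δ) := by
  obtain ⟨hd1, hd2⟩ := abs_lt.1 hd
  have hb0 : 0 ≤ 2 * max 0 (2 - |x - h| / δ) := mul_nonneg zero_le_two (le_max_left _ _)
  by_cases h1 : |x - h| < δ
  · have h2 : 1 ≤ max 0 (2 - |x - h| / δ) := by
      refine le_trans ?_ (le_max_right _ _)
      have : |x - h| / δ ≤ 1 := by
        rw [div_le_one hδ]
        exact h1.le
      linarith
    have h3 : |(if x < h' then (-1 : ℝ) else 1)| ≤ 1 := by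
      split_ifs <;> simp
    have h4 : |max (-1) (min 1 ((x - h) / δ))| ≤ 1 := by
      rw [abs_le]
      exact ⟨le_max_left _ _, max_le (by norm_num) (min_le_left _ _)⟩
    have h5 := abs_sub (if x < h' then (-1 : ℝ) else 1) (max (-1) (min 1 ((x - h) / δ)))
    linarith
  · push Not at h1
    rcases le_abs'.1 h1 with h2 | h2
    · have h3 : (x - h) / δ ≤ -1 := by
        rw [div_le_iff₀ hδ]
        linarith
      have h4 : x < h' := by linarith
      rw [if_pos h4, min_eq_right (by linarith), max_eq_left h3]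
      simp
    · have h3 : 1 ≤ (x - h) / δ := by
        rw [le_div_iff₀ hδ]
        linarith
      have h4 : ¬ x < h' := by linarith
      rw [if_neg h4, min_eq_left h3, max_eq_right (by norm_num)]
      simp

theorem lev_step {v : ℕ → ℕ → ℝ} {V : ℝ → ℝ} (hV : Cz V) (hv : SupLim v V) {k l c : ℕ → ℕ} {s s' h : ℝ}
    (hs : s < s') (hk : Tendsto (fun n : ℕ => (k n : ℝ) / n) atTop (nhds s))
    (hl : Tendsto (fun n : ℕ => (l n : ℝ) / n) atTop (nhds s')) (hc : Hgt c h) :
    SupLim (fun n y => lev t td n (l n) (fun z => eps (c n) z * v n z) (k n) y / lam t ^ (l n - k n))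
      (Tv (sg t * (s' - s)) (fun z => chs h z * V z)) := by
  have hw : 0 < sg t * (s' - s) := mul_pos (sg_pos82 ht hq) (by linarith)
  obtain ⟨C, hC, hAs⟩ := lev_asym82 ht hq htd htt hs hk hl
  have hC0 : 0 < C := by linarith
  obtain ⟨B, hB⟩ := (cz_bz hV).bdd
  have hB0 : 0 ≤ B := (abs_nonneg _).trans (hB 0 le_rfl)
  have hl0 := lam_pos ht (t_lt82 ht hq)
  set w := sg t * (s' - s) with hwd
  intro ε hε
  have hdiff : ∀ᶠ n : ℕ in atTop, ∀ y ≤ n,
      |lev t td n (l n) (fun z => eps (c n) z * v n z - eps (c n) z * V (z / Real.sqrt n)) (k n) y /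
        lam t ^ (l n - k n)| ≤ ε / 8 := by
    filter_upwards [hAs, hv (ε / (8 * C)) (by positivity)] with n hn hn1 y hy
    obtain ⟨hkl, hn2, hbd⟩ := hn
    have h1 := hbd 0 (by simp) (ε / (8 * C)) 0 (by positivity) le_rfl
      (fun z => eps (c n) z * v n z - eps (c n) z * V (z / Real.sqrt n)) (fun z hz => by
        show |eps (c n) z * v n z - eps (c n) z * V (z / Real.sqrt n)| ≤ _
        rw [← mul_sub, abs_mul, eps_abs, one_mul, zero_mul, add_zero]
        exact hn1 z hz) y hy
    refine h1.trans (le_of_eq ?_)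
    field_simp
    ring
  rcases hc with ⟨hh, hc⟩ | ⟨rfl, hc⟩
  · set q := Real.sqrt w with hq'
    have hq0 : 0 < q := Real.sqrt_pos.2 hw
    obtain ⟨δ, hδ0, hδ1, hδ2⟩ : ∃ δ : ℝ, 0 < δ ∧ δ ≤ h / 8 ∧ 128 * (B + 1) * δ ≤ ε * q := by
      refine ⟨min (h / 8) (ε * q / (128 * (B + 1))), lt_min (by positivity) (by positivity),
        min_le_left _ _, ?_⟩
      calc 128 * (B + 1) * min (h / 8) (ε * q / (128 * (B + 1)))
          ≤ 128 * (B + 1) * (ε * q / (128 * (B + 1))) :=
            mul_le_mul_of_nonneg_left (min_le_right _ _) (by positivity)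
        _ = ε * q := by field_simp
    set κ : ℝ → ℝ := fun z => max (-1) (min 1 ((z - h) / δ)) with hκ
    set b : ℝ → ℝ := fun z => max 0 (2 - |z - h| / δ) with hb
    have hκc : Continuous κ := by
      simp only [hκ]
      fun_prop
    have hbc : Continuous b := by
      simp only [hb]
      fun_prop
    have hb0 : ∀ z, 0 ≤ b z := fun z => le_max_left _ _
    have hb2 : ∀ z, b z ≤ 2 := fun z => by
      refine max_le zero_le_two ?_
      have : 0 ≤ |z - h| / δ := by positivity
      linarith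
    have hbz : ∀ z, z ∉ Set.Icc (h - 2 * δ) (h + 2 * δ) → b z = 0 := by
      intro z hz
      refine max_eq_left ?_
      have h1 : 2 * δ ≤ |z - h| := by
        by_contra hcon
        push Not at hcon
        obtain ⟨h2, h3⟩ := abs_lt.1 hcon
        exact hz ⟨by linarith, by linarith⟩
      have h2 : 2 ≤ |z - h| / δ := by
        rw [le_div_iff₀ hδ0]
        exact h1
      linarith
    have hκ1 : ∀ z, |κ z| ≤ 1 := fun z => by
      rw [abs_le]
      exact ⟨le_max_left _ _, max_le (by norm_num) (min_le_left _ _)⟩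
    have hκV : Cz (fun z => κ z * V z) := by
      refine ⟨hκc.mul hV.cont, ?_, ?_⟩
      · show κ 0 * V 0 = 0
        rw [hV.zero, mul_zero]
      · rw [tendsto_zero_iff_abs_tendsto_zero]
        have h1 : Tendsto (fun z => |V z|) atTop (nhds 0) := by
          have := hV.top.abs
          rwa [abs_zero] at this
        refine squeeze_zero (fun z => abs_nonneg _) (fun z => ?_) h1
        show |κ z * V z| ≤ |V z|
        rw [abs_mul]
        calc |κ z| * |V z| ≤ 1 * |V z| := mul_le_mul_of_nonneg_right (hκ1 z) (abs_nonneg _)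
          _ = |V z| := one_mul _
    have hbC : Cz b := by
      refine ⟨hbc, hbz 0 fun h1 => ?_, ?_⟩
      · have := h1.1
        linarith
      · refine tendsto_const_nhds.congr' ?_
        filter_upwards [eventually_gt_atTop (h + 2 * δ)] with z hz
        exact (hbz z fun h1 => by
          have := h1.2
          linarith).symm
    have hcd : ∀ᶠ n : ℕ in atTop, |(c n : ℝ) / Real.sqrt n - h| < δ := by
      have := Metric.tendsto_nhds.mp hc δ hδ0
      simpa [Real.dist_eq] using this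
    filter_upwards [hAs, hdiff, hcd, lev_cz ht hq htd htt hκV hs hk hl (ε / 8) (by positivity),
      lev_cz ht hq htd htt hbC hs hk hl (ε / (16 * (B + 1))) (by positivity)]
      with n hn hn1 hn2 hn3 hn4 y hy
    obtain ⟨hkl, hn2', -⟩ := hn
    have hn0 : (0 : ℝ) < n := by
      have : 0 < n := by omega
      exact_mod_cast this
    have hrt : 0 < Real.sqrt n := Real.sqrt_pos.2 hn0
    have hlp : 0 < lam t ^ (l n - k n) := pow_pos hl0 _
    have hy0 : 0 ≤ (y : ℝ) / Real.sqrt n := by positivity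
    have e1 := hn1 y hy
    have e3 : |lev t td n (l n) (fun z => κ (z / Real.sqrt n) * V (z / Real.sqrt n)) (k n) y /
      lam t ^ (l n - k n) - Tv w (fun z => κ z * V z) (y / Real.sqrt n)| ≤ ε / 8 := hn3 y hy
    have e4 : |lev t td n (l n) (fun z => b (z / Real.sqrt n)) (k n) y / lam t ^ (l n - k n) -
      Tv w b (y / Real.sqrt n)| ≤ ε / (16 * (B + 1)) := hn4 y hy
    have e5 := tv_small hw (B := 2) (a := h - 2 * δ) (b := h + 2 * δ) (by linarith) zero_le_two
      hbc.measurable (fun z _ => by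
        rw [abs_of_nonneg (hb0 z)]
        exact hb2 z) (fun z _ hz => hbz z hz) hy0
    -- the second difference
    have e2 : |lev t td n (l n) (fun z => (eps (c n) z - κ (z / Real.sqrt n)) *
        V (z / Real.sqrt n)) (k n) y / lam t ^ (l n - k n)| ≤
        2 * B * (lev t td n (l n) (fun z => b (z / Real.sqrt n)) (k n) y / lam t ^ (l n - k n)) := by
      rw [abs_div, abs_of_pos hlp, ← mul_div_assoc]
      refine div_le_div_of_nonneg_right ?_ hlp.le
      rw [← lev_scale82]
      refine lev_abs82 ht hq htd htt.le hn2' (fun z hz => ?_) hkl hy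
      have hz0 : 0 ≤ (z : ℝ) / Real.sqrt n := by positivity
      rw [abs_mul]
      have h1 : |eps (c n) z - κ (z / Real.sqrt n)| ≤ 2 * b (z / Real.sqrt n) := by
        have h2 := kb82 (x := (z : ℝ) / Real.sqrt n) (h := h) (h' := (c n : ℝ) / Real.sqrt n) hδ0 hn2
        have h3 : eps (c n) z = if (z : ℝ) / Real.sqrt n < (c n : ℝ) / Real.sqrt n then (-1 : ℝ)
            else 1 := by
          unfold eps
          have h4 : z < c n ↔ (z : ℝ) / Real.sqrt n < (c n : ℝ) / Real.sqrt n := by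
            rw [div_lt_div_iff_of_pos_right hrt, Nat.cast_lt]
          by_cases h5 : z < c n
          · rw [if_pos h5, if_pos (h4.1 h5)]
          · rw [if_neg h5, if_neg fun h6 => h5 (h4.2 h6)]
        rw [h3]
        exact h2
      calc |eps (c n) z - κ (z / Real.sqrt n)| * |V (z / Real.sqrt n)|
          ≤ 2 * b (z / Real.sqrt n) * B :=
            mul_le_mul h1 (hB _ hz0) (abs_nonneg _) (by have := hb0 (z / Real.sqrt n); positivity)
        _ = 2 * B * b (z / Real.sqrt n) := by ring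
    -- the last difference
    have hcm : Measurable (fun z => chs h z) := by
      unfold chs
      exact Measurable.ite measurableSet_Iio measurable_const measurable_const
    have hc1 : ∀ z, |chs h z| ≤ 1 := fun z => by
      unfold chs
      split_ifs <;> simp
    have hκVB : ∀ z, 0 < z → |κ z * V z| ≤ B := fun z hz => by
      rw [abs_mul]
      calc |κ z| * |V z| ≤ 1 * B := mul_le_mul (hκ1 z) (hB z hz.le) (abs_nonneg _) zero_le_one
        _ = B := one_mul _
    have hcVB : ∀ z, 0 < z → |chs h z * V z| ≤ B := fun z hz => by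
      rw [abs_mul]
      calc |chs h z| * |V z| ≤ 1 * B := mul_le_mul (hc1 z) (hB z hz.le) (abs_nonneg _) zero_le_one
        _ = B := one_mul _
    have hcVm : Measurable (fun z => chs h z * V z) := hcm.mul hV.cont.measurable
    have e6 := tv_lin hw 1 (-1) hκV.cont.measurable hcVm (B := B) hκVB hcVB (y / Real.sqrt n)
    have hkc : ∀ z, |κ z - chs h z| ≤ 2 * b z := fun z => by
      have h1 := kb82 (x := z) (h := h) (h' := h) hδ0 (by rw [sub_self, abs_zero]; exact hδ0)
      rw [abs_sub_comm]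
      exact h1
    have e7 := tv_small hw (B := 4 * B) (a := h - 2 * δ) (b := h + 2 * δ)
      (f := fun z => 1 * (κ z * V z) + -1 * (chs h z * V z)) (by linarith) (by positivity)
      ((hκV.cont.measurable.const_mul 1).add (hcVm.const_mul (-1))) (fun z hz => by
        have h1 : 1 * (κ z * V z) + -1 * (chs h z * V z) = (κ z - chs h z) * V z := by ring
        rw [h1, abs_mul]
        have h2 := hkc z
        have h3 := hb2 z
        calc |κ z - chs h z| * |V z| ≤ 4 * B :=
          mul_le_mul (by linarith) (hB z hz.le) (abs_nonneg _) (by norm_num)) (fun z hz hzn => by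
        have h1 : 1 * (κ z * V z) + -1 * (chs h z * V z) = (κ z - chs h z) * V z := by ring
        have h2 := hkc z
        rw [hbz z hzn, mul_zero] at h2
        have h3 : κ z - chs h z = 0 := abs_eq_zero.1 (le_antisymm h2 (abs_nonneg _))
        rw [h1, h3, zero_mul]) hy0
    rw [e6] at e7
    have e8 : lev t td n (l n) (fun z => eps (c n) z * v n z) (k n) y =
        lev t td n (l n) (fun z => eps (c n) z * v n z - eps (c n) z * V (z / Real.sqrt n)) (k n) y +
        lev t td n (l n) (fun z => (eps (c n) z - κ (z / Real.sqrt n)) * V (z / Real.sqrt n)) (k n) y +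
        lev t td n (l n) (fun z => κ (z / Real.sqrt n) * V (z / Real.sqrt n)) (k n) y := by
      have h5 := lev_lin t td n (l n) 1 1
        (fun z => 1 * (eps (c n) z * v n z - eps (c n) z * V (z / Real.sqrt n)) +
          1 * ((eps (c n) z - κ (z / Real.sqrt n)) * V (z / Real.sqrt n)))
        (fun z => κ (z / Real.sqrt n) * V (z / Real.sqrt n)) (k n) y
      have h6 := lev_lin t td n (l n) 1 1
        (fun z => eps (c n) z * v n z - eps (c n) z * V (z / Real.sqrt n))
        (fun z => (eps (c n) z - κ (z / Real.sqrt n)) * V (z / Real.sqrt n)) (k n) y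
      have h7 : (fun z : ℕ => 1 * (fun z : ℕ => 1 * (eps (c n) z * v n z - eps (c n) z *
          V (z / Real.sqrt n)) + 1 * ((eps (c n) z - κ (z / Real.sqrt n)) *
          V (z / Real.sqrt n))) z + 1 * (fun z : ℕ => κ (z / Real.sqrt n) *
          V (z / Real.sqrt n)) z) = fun z : ℕ => eps (c n) z * v n z := by
        funext z
        ring
      rw [h7] at h5
      rw [h5, h6]
      ring
    have f1 : 2 * (h + 2 * δ - (h - 2 * δ)) / Real.sqrt w = 8 * δ / q := by
      rw [← hq']
      ring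
    have f2 : 4 * B * (h + 2 * δ - (h - 2 * δ)) / Real.sqrt w = 16 * B * (δ / q) := by
      rw [← hq']
      ring
    rw [f1] at e5
    rw [f2] at e7
    have f3 : 128 * (B + 1) * (δ / q) ≤ ε := by
      rw [← mul_div_assoc, div_le_iff₀ hq0]
      exact hδ2
    have hδq : 0 ≤ δ / q := by positivity
    have f4 : 16 * B * (δ / q) ≤ ε / 8 := by nlinarith
    have f5 : lev t td n (l n) (fun z => b (z / Real.sqrt n)) (k n) y / lam t ^ (l n - k n) ≤
        8 * (δ / q) + ε / (16 * (B + 1)) := by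
      have h1 := (abs_le.1 e4).2
      have h2 := (abs_le.1 e5).2
      rw [mul_div_assoc] at h2
      linarith
    have f6 : 2 * B * (lev t td n (l n) (fun z => b (z / Real.sqrt n)) (k n) y /
        lam t ^ (l n - k n)) ≤ ε / 4 := by
      have h1 := mul_le_mul_of_nonneg_left f5 (show 0 ≤ 2 * B by positivity)
      have h2 : 2 * B * (ε / (16 * (B + 1))) ≤ ε / 8 := by
        rw [← mul_div_assoc, div_le_iff₀ (by positivity)]
        nlinarith
      have h3 : 2 * B * (8 * (δ / q) + ε / (16 * (B + 1))) =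
          16 * B * (δ / q) + 2 * B * (ε / (16 * (B + 1))) := by ring
      linarith
    show |lev t td n (l n) (fun z => eps (c n) z * v n z) (k n) y / lam t ^ (l n - k n) -
      Tv w (fun z => chs h z * V z) (y / Real.sqrt n)| ≤ ε
    rw [e8, add_div, add_div]
    have g1 := abs_le.1 e1
    have g2 := abs_le.1 (e2.trans f6)
    have g3 := abs_le.1 e3
    have g4 := abs_le.1 (e7.trans f4)
    rw [abs_le]
    constructor
    · linarith [g1.1, g2.1, g3.1, g4.1]
    · linarith [g1.2, g2.2, g3.2, g4.2]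
  · have hT : Tv w (fun z => chs 0 z * V z) = Tv w V := by
      funext y
      unfold Tv
      refine MeasureTheory.setIntegral_congr_fun measurableSet_Ioi fun z hz => ?_
      have hz0 : ¬ z < 0 := not_lt.2 (le_of_lt hz)
      show Pool.Agent.Helper49.RD.hk w y z * (chs 0 z * V z) =
        Pool.Agent.Helper49.RD.hk w y z * V z
      unfold chs
      rw [if_neg hz0, one_mul]
    rw [hT]
    filter_upwards [hdiff, lev_cz ht hq htd htt hV hs hk hl (ε / 2) (by positivity)]
      with n hn1 hn2 y hy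
    have e1 := hn1 y hy
    have e2 : |lev t td n (l n) (fun z => V (z / Real.sqrt n)) (k n) y / lam t ^ (l n - k n) -
      Tv w V (y / Real.sqrt n)| ≤ ε / 2 := hn2 y hy
    have e3 : lev t td n (l n) (fun z => eps (c n) z * v n z) (k n) y =
        lev t td n (l n) (fun z => eps (c n) z * v n z - eps (c n) z * V (z / Real.sqrt n)) (k n) y +
        lev t td n (l n) (fun z => V (z / Real.sqrt n)) (k n) y := by
      have h5 := lev_lin t td n (l n) 1 1
        (fun z => eps (c n) z * v n z - eps (c n) z * V (z / Real.sqrt n))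
        (fun z => V (z / Real.sqrt n)) (k n) y
      have h7 : (fun z : ℕ => 1 * (fun z : ℕ => eps (c n) z * v n z - eps (c n) z *
          V (z / Real.sqrt n)) z + 1 * (fun z : ℕ => V (z / Real.sqrt n)) z) =
          fun z : ℕ => eps (c n) z * v n z := by
        funext z
        simp only [hc n, eps_zero]
        ring
      rw [h7] at h5
      rw [h5]
      ring
    show |lev t td n (l n) (fun z => eps (c n) z * v n z) (k n) y / lam t ^ (l n - k n) -
      Tv w V (y / Real.sqrt n)| ≤ ε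
    rw [e3, add_div]
    have g1 := abs_le.1 e1
    have g2 := abs_le.1 e2
    rw [abs_le]
    constructor
    · linarith [g1.1, g2.1]
    · linarith [g1.2, g2.2]

end

end Pool.Agent.Helper49.RD
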