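import Pool.Agent.Helper49.RD.BoxRep
import Pool.Agent.Helper49.RD.Def
import Pool.Agent.Helper49.DX.Dob1
import Pool.Agent.Helper49.DX.Ct
import Pool.Agent.Helper49.RD.Alg1

/-!
Block RD-P1: products of spins at the ends of vertical strings, in the two boundary conditions.

A string `(l, c)` is the column `x = l - N` of sites between `(x, 1 - c)` and `(x, c)`; `psl N r` is the product of the spins at the ends of the strings of the list `r`.

Paper proofs.
* `psl_prod`: for every configuration `sp (ω (x, c)) * sp (ω (x, 1 - c)) = ∏_{1 - c ≤ y ≤ c - 1} (sp (ω (x, y)) * sp (ω (x, y + 1)))` (telescoping, spins squared are `1`), and the factor is `-1` if the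
  bond `((x, y), (x, y + 1))` is broken and `1` otherwise. These bonds are `Sum.inr (x, y)` with `|y| < c` (`vb_box`, `|x| ≤ N`, `c ≤ M`), and `eps c |y| = -1` iff `|y| < c`. Induction on `r`:
  `∏ e ∈ bk ω, (if e = inr (x, y), x + N = l then eps c |y| else 1)`.
* `ps_tt`: `avg_bk` (`DL/Dual2.lean`), `ZE_eq_ZG`, `odp = gbd dA` (by `rfl` or as in `ZE_eq_ZG`, `DX/Br.lean`), definition of `ZG`, `∏ e ∈ F, (xe * sge) = (∏ xe) * ∏ sge`.
* `ps_dob`: `avg_dob` (`DX/Dob1.lean`).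
* `ysl_fits`: definitions (`xe` of a horizontal bond is `exp (-(β * 1))`; `kap J (x, y) = J` iff `y = 0`; `y = -M + j`, `y = 0` iff `j = M`, `ds M j = |j - M| = |y|`, `x + N = k`).
* `main_id`: `box_rep` for `ysl` and for the list `[]` (`sgl [] = 1`, `Xo_const`-like: here only `GSo` with the constant weight; `GSo_const` of `RD/Alg1.lean`), `ps_tt`, `ps_dob`;
  with the middle row `j = M`, `a = (-N - 1, 0)`, `b = (N, 0)` (column `2 N + 1`). `GSo t x L u v = ip (sp v) (Xo (sp u)) / ip 1 (Xo 1)`. The normalisations: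
  `ZG (xe) ∅ > 0` (`ZG_pos`), `ZG (xe) (pr a b) > 0` (`G2_pos`, `DX/Ct.lean`), `ZG ysl ∅ ≠ 0` by the hypothesis and `ps_tt`.
-/

open Finset
open scoped Classical

namespace Pool.Agent.Helper49.RD

open Pool.Agent.Helper49.DL Pool.Agent.Helper49.DX

/-- Product of the spins at the ends of the strings. -/
noncomputable def psl (N : ℕ) : List (ℕ × ℕ) → Cfg → ℝ
  | [] => fun _ => 1
  | a :: r => fun ω => (if a.2 = 0 then 1 else
      sp (ω ((a.1 : ℤ) - N, (a.2 : ℤ))) * sp (ω ((a.1 : ℤ) - N, 1 - (a.2 : ℤ)))) * psl N r ω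

/-- Sign of the gap `k` and the height `y`. -/
noncomputable def sgl : List (ℕ × ℕ) → ℕ → ℕ → ℝ
  | [] => fun _ _ => 1
  | a :: r => fun k y => (if a.1 = k then eps a.2 y else 1) * sgl r k y

/-- Sign of an edge. -/
noncomputable def sge (N M : ℕ) (r : List (ℕ × ℕ)) (e : LB (box (N : ℤ) M)) : ℝ :=
  Sum.elim (fun _ => 1) (fun i => sgl r (((i.1.1 : ℤ) + (N : ℤ)).toNat) ((i.1.2 : ℤ).natAbs)) e

/-- Weights with the signs of the strings. -/
noncomputable def xwl (t td : ℝ) (M : ℕ) (r : List (ℕ × ℕ)) (k : ℕ) (j : Fin (2 * M + 1)) : ℝ :=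
  xs t td M j * sgl r k (ds M j)

/-- Edge weights with the signs of the strings. -/
noncomputable def ysl (β J : ℝ) (N M : ℕ) (r : List (ℕ × ℕ)) (e : LB (box (N : ℤ) M)) : ℝ :=
  xe β (kap J) e * sge N M r e

private lemma tele81 (ω : Cfg) (x y0 : ℤ) (n : ℕ) :
    ∏ k ∈ Finset.range n, (sp (ω (x, y0 + (k : ℤ))) * sp (ω (x, y0 + (k : ℤ) + 1))) =
      sp (ω (x, y0)) * sp (ω (x, y0 + (n : ℤ))) := by
  induction n with
  | zero => simp [sp_mul_self]
  | succ n ih =>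
    rw [Finset.prod_range_succ, ih]
    have h1 := sp_mul_self (ω (x, y0 + (n : ℤ)))
    have h2 : y0 + ((n + 1 : ℕ) : ℤ) = y0 + (n : ℤ) + 1 := by push_cast; ring
    rw [h2]
    linear_combination (sp (ω (x, y0)) * sp (ω (x, y0 + (n : ℤ) + 1))) * h1

/-- Factor of one string. -/
private noncomputable def fac81 (N : ℕ) (l c : ℕ) (i : Site) : ℝ :=
  if l = ((i.1 : ℤ) + (N : ℤ)).toNat then eps c (i.2 : ℤ).natAbs else 1

private lemma one81 {N M : ℕ} (hM : 1 ≤ M) (l c : ℕ) (hl : l ≤ 2 * N) (hc : c ≤ M) (ω : Cfg) :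
    (if c = 0 then (1 : ℝ) else
      sp (ω ((l : ℤ) - N, (c : ℤ))) * sp (ω ((l : ℤ) - N, 1 - (c : ℤ)))) =
    ∏ e ∈ bk (box (N : ℤ) M) ω,
      (Sum.elim (fun _ => (1 : ℝ)) (fun i => fac81 N l c i.1) e : ℝ) := by
  have hM' : (1 : ℤ) ≤ M := by exact_mod_cast hM
  let g : Site → ℝ := fun i => if ω i ≠ ω (i + e2) then fac81 N l c i else 1
  have h1 : ∏ e ∈ bk (box (N : ℤ) M) ω,
      (Sum.elim (fun _ => (1 : ℝ)) (fun i => fac81 N l c i.1) e : ℝ) =
      ∏ i ∈ vb (box (N : ℤ) M), g i := by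
    unfold bk
    rw [Finset.prod_filter, Fintype.prod_sum_type]
    have h2 : ∏ i : {i // i ∈ hb (box (N : ℤ) M)},
        (if ω (DL.lp (Sum.inl i : LB (box (N : ℤ) M))) ≠ ω (lq (Sum.inl i : LB (box (N : ℤ) M))) then
          (Sum.elim (fun _ => (1 : ℝ)) (fun i => fac81 N l c i.1)
            (Sum.inl i : LB (box (N : ℤ) M)) : ℝ) else 1) = 1 := by
      refine Finset.prod_eq_one fun i _ => ?_
      split_ifs <;> rfl
    rw [h2, one_mul]
    exact Finset.prod_coe_sort (vb (box (N : ℤ) M)) g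
  rw [h1]
  have hg : ∀ k : ℕ, k < 2 * c - 1 → g ((l : ℤ) - N, 1 - (c : ℤ) + (k : ℤ)) =
      sp (ω ((l : ℤ) - N, 1 - (c : ℤ) + (k : ℤ))) *
        sp (ω ((l : ℤ) - N, 1 - (c : ℤ) + (k : ℤ) + 1)) := by
    intro k hk
    have h3 : (((l : ℤ) - N, 1 - (c : ℤ) + (k : ℤ)) : Site) + e2 =
        ((l : ℤ) - N, 1 - (c : ℤ) + (k : ℤ) + 1) := by simp [e2]
    have h4 : fac81 N l c ((l : ℤ) - N, 1 - (c : ℤ) + (k : ℤ)) = -1 := by
      unfold fac81
      simp only
      rw [if_pos (by omega)]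
      unfold eps
      rw [if_pos (by omega)]
    show (if ω _ ≠ ω (_ + e2) then fac81 N l c _ else 1) = _
    rw [h3, h4]
    cases ω ((l : ℤ) - N, 1 - (c : ℤ) + (k : ℤ)) <;>
      cases ω ((l : ℤ) - N, 1 - (c : ℤ) + (k : ℤ) + 1) <;> simp
  have h5 : ∏ i ∈ vb (box (N : ℤ) M), g i =
      ∏ i ∈ (Finset.range (2 * c - 1)).image
        (fun k : ℕ => (((l : ℤ) - N, 1 - (c : ℤ) + (k : ℤ)) : Site)), g i := by
    symm
    refine Finset.prod_subset ?_ ?_
    · intro i hi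
      obtain ⟨k, hk, rfl⟩ := Finset.mem_image.1 hi
      rw [Finset.mem_range] at hk
      refine (mem_vb_box hM').2 ?_
      omega
    · rintro ⟨x, y⟩ hi hni
      have h6 := (mem_vb_box hM').1 hi
      have h7 : fac81 N l c (x, y) = 1 := by
        unfold fac81
        simp only
        split_ifs with h8
        · unfold eps
          rw [if_neg]
          intro h9
          refine hni (Finset.mem_image.2 ⟨(y - 1 + c).toNat, ?_, ?_⟩)
          · rw [Finset.mem_range]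
            omega
          · refine Prod.ext ?_ ?_
            · simp only
              omega
            · simp only
              omega
        · rfl
      show (if ω _ ≠ ω _ then fac81 N l c _ else 1) = 1
      rw [h7, ite_self]
  rw [h5, Finset.prod_image]
  · rw [Finset.prod_congr rfl fun k hk => hg k (Finset.mem_range.1 hk), tele81]
    by_cases h0 : c = 0
    · subst h0
      simp [sp_mul_self]
    · rw [if_neg h0, mul_comm]
      have h10 : (1 - (c : ℤ) + ((2 * c - 1 : ℕ) : ℤ)) = (c : ℤ) := by omega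
      rw [h10]
  · intro k _ k' _ h
    have := congrArg Prod.snd h
    simp only at this
    omega

private lemma sge_cons81 (N M : ℕ) (a : ℕ × ℕ) (r : List (ℕ × ℕ)) (e : LB (box (N : ℤ) M)) :
    sge N M (a :: r) e =
      (Sum.elim (fun _ => (1 : ℝ)) (fun i => fac81 N a.1 a.2 i.1) e : ℝ) * sge N M r e := by
  rcases e with i | i
  · simp [sge]
  · rfl

theorem psl_prod {N M : ℕ} (hM : 1 ≤ M) (r : List (ℕ × ℕ)) (hr : ∀ a ∈ r, a.1 ≤ 2 * N ∧ a.2 ≤ M) (ω : Cfg) :
    psl N r ω = ∏ e ∈ bk (box (N : ℤ) M) ω, sge N M r e := by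
  induction r with
  | nil =>
    symm
    refine Finset.prod_eq_one fun e _ => ?_
    rcases e with i | i <;> rfl
  | cons a r ih =>
    have h1 := ih fun b hb => hr b (List.mem_cons_of_mem a hb)
    have h2 := hr a List.mem_cons_self
    have h3 : psl N (a :: r) ω = (if a.2 = 0 then 1 else
      sp (ω ((a.1 : ℤ) - N, (a.2 : ℤ))) * sp (ω ((a.1 : ℤ) - N, 1 - (a.2 : ℤ)))) * psl N r ω := rfl
    rw [h3, h1, one81 hM a.1 a.2 h2.1 h2.2 ω, ← Finset.prod_mul_distrib]
    exact Finset.prod_congr rfl fun e _ => (sge_cons81 N M a r e).symm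

theorem ps_tt {N M : ℕ} (hM : 1 ≤ M) (β J : ℝ) (r : List (ℕ × ℕ)) (hr : ∀ a ∈ r, a.1 ≤ 2 * N ∧ a.2 ≤ M) :
    avg β (kap J) (box N M) tt (psl N r) = ZG dA (ysl β J N M r) ∅ / ZG (dA (Λ := box (N : ℤ) M)) (xe β (kap J)) ∅ := by
  have h1 : psl N r = fun ω => (fun F : Finset (LB (box (N : ℤ) M)) => ∏ e ∈ F, sge N M r e)
      (bk (box (N : ℤ) M) ω) := funext fun ω => psl_prod hM r hr ω
  rw [h1]
  refine (avg_bk β (kap J) (fun F : Finset (LB (box (N : ℤ) M)) => ∏ e ∈ F, sge N M r e)).trans ?_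
  rw [ZE_eq_ZG]
  congr 1
  unfold ZG
  refine Finset.sum_congr ?_ fun F _ => ?_
  · ext F
    rw [Finset.mem_filter, Finset.mem_filter]
    exact Iff.rfl
  · rw [← Finset.prod_mul_distrib]
    rfl

theorem ps_dob {N M : ℕ} (hM : 1 ≤ M) (β J : ℝ) (r : List (ℕ × ℕ)) (hr : ∀ a ∈ r, a.1 ≤ 2 * N ∧ a.2 ≤ M)
    {a b : PV (box (N : ℤ) M)} (ha : a.1 = (-(N : ℤ) - 1, 0)) (hb : b.1 = ((N : ℤ), 0)) :
    avg β (kap J) (box N M) (eta 0) (psl N r) =
      ZG dA (ysl β J N M r) (pr a b) / ZG dA (xe β (kap J)) (pr a b) := by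
  have hM' : (1 : ℤ) ≤ M := by exact_mod_cast hM
  have hN' : (0 : ℤ) ≤ N := by positivity
  have h1 : psl N r = fun ω => (fun F : Finset (LB (box (N : ℤ) M)) => ∏ e ∈ F, sge N M r e)
      (bk (box (N : ℤ) M) ω) := funext fun ω => psl_prod hM r hr ω
  rw [h1]
  refine (avg_dob hN' hM' β (kap J) ha hb
    (fun F : Finset (LB (box (N : ℤ) M)) => ∏ e ∈ F, sge N M r e)).trans ?_
  congr 1
  unfold ZG
  refine Finset.sum_congr rfl fun F _ => ?_
  rw [← Finset.prod_mul_distrib]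
  rfl

theorem ysl_fits {N M : ℕ} (β J : ℝ) (r : List (ℕ × ℕ)) :
    Fits (Real.exp (-β)) (xwl (Real.exp (-β)) (Real.exp (-(β * J))) M r) (ysl β J N M r) := by
  refine ⟨fun i => ?_, fun i k j h1 h2 => ?_⟩
  · show Real.exp (-(β * 1)) * 1 = _
    rw [mul_one, mul_one]
  · show Real.exp (-(β * kap J i.1)) * sgl r (((i.1.1 : ℤ) + (N : ℤ)).toNat) ((i.1.2 : ℤ).natAbs) =
      xs (Real.exp (-β)) (Real.exp (-(β * J))) M j * sgl r k (ds M j)
    have h3 : ((i.1.1 : ℤ) + (N : ℤ)).toNat = k := by rw [h1]; omega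
    have h4 : (i.1.2 : ℤ).natAbs = ds M j := by
      unfold ds
      rw [h2]
      omega
    rw [h3, h4]
    congr 1
    unfold kap xs
    by_cases h5 : (j : ℕ) = M
    · rw [if_pos h5, if_pos (by rw [h2]; omega)]
    · rw [if_neg h5, if_neg (by rw [h2]; omega), mul_one]

private lemma xe_fits81 {N M : ℕ} (β J : ℝ) :
    Fits (N := N) (Real.exp (-β)) (fun _ => xs (Real.exp (-β)) (Real.exp (-(β * J))) M)
      (xe β (kap J)) := by
  have h1 := ysl_fits (N := N) (M := M) β J []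
  have h2 : ysl β J N M [] = xe β (kap J) := by
    funext e
    rcases e with i | i <;> simp [ysl, sge, sgl]
  have h3 : xwl (Real.exp (-β)) (Real.exp (-(β * J))) M [] =
      fun _ => xs (Real.exp (-β)) (Real.exp (-(β * J))) M := by
    funext k j
    simp [xwl, sgl]
  rwa [h2, h3] at h1

theorem main_id {N M : ℕ} (hM : 1 ≤ M) {β J : ℝ} (hβ : 0 < β) (hJ : 0 < J) (r : List (ℕ × ℕ))
    (hr : ∀ a ∈ r, a.1 ≤ 2 * N ∧ a.2 ≤ M) (h0 : avg β (kap J) (box N M) tt (psl N r) ≠ 0) :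
    avg β (kap J) (box N M) (eta 0) (psl N r) *
        gsum (Real.exp (-β)) (Real.exp (-(β * J))) M (2 * N + 1) e0 0 =
      avg β (kap J) (box N M) tt (psl N r) *
        GSo (Real.exp (-β)) (xwl (Real.exp (-β)) (Real.exp (-(β * J))) M r) (2 * N + 1)
          ⟨M, by omega⟩ ⟨M, by omega⟩ := by
  have hM' : (1 : ℤ) ≤ M := by exact_mod_cast hM
  have hN' : (0 : ℤ) ≤ N := by positivity
  have ha0 : ((-(N : ℤ) - 1, 0) : Site) ∈ PL (box (N : ℤ) M) := by
    rw [mem_PL_box hN' hM']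
    simp only
    omega
  have hb0 : (((N : ℤ), 0) : Site) ∈ PL (box (N : ℤ) M) := by
    rw [mem_PL_box hN' hM']
    simp only
    omega
  obtain ⟨a, ha⟩ : ∃ a : PV (box (N : ℤ) M), a.1 = (-(N : ℤ) - 1, 0) := ⟨⟨_, ha0⟩, rfl⟩
  obtain ⟨b, hb⟩ : ∃ b : PV (box (N : ℤ) M), b.1 = ((N : ℤ), 0) := ⟨⟨_, hb0⟩, rfl⟩
  obtain ⟨t, ht⟩ : ∃ t : ℝ, t = Real.exp (-β) := ⟨_, rfl⟩
  obtain ⟨td, htd⟩ : ∃ td : ℝ, td = Real.exp (-(β * J)) := ⟨_, rfl⟩
  obtain ⟨K, hK, hrep⟩ := box_rep (N := N) hM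
  have hv := ysl_fits (N := N) (M := M) β J r
  have hx := xe_fits81 (N := N) (M := M) β J
  rw [← ht, ← htd] at hv hx
  have hpa : pq 0 (⟨M, by omega⟩ : Fin (2 * M + 1)) a := by
    show a.1 = _
    rw [ha]
    simp
  have hpb : pq (2 * N + 1) (⟨M, by omega⟩ : Fin (2 * M + 1)) b := by
    show b.1 = _
    rw [hb]
    refine Prod.ext ?_ ?_
    · simp only
      push_cast
      ring
    · simp
  have hv1 := (hrep t _ _ hv).1
  have hv2 := (hrep t _ _ hv).2.1 _ _ a b hpa hpb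
  have hx1 := (hrep t _ _ hx).1
  have hx2 := (hrep t _ _ hx).2.1 _ _ a b hpa hpb
  have hG1 : GSo t (xwl t td M r) (2 * N + 1) ⟨M, by omega⟩ ⟨M, by omega⟩ =
      ZG dA (ysl β J N M r) (pr a b) / ZG dA (ysl β J N M r) ∅ := by
    unfold GSo
    rw [← hv1, ← hv2, mul_div_mul_left _ _ hK]
  have hG2 : gsum t td M (2 * N + 1) e0 0 =
      ZG dA (xe β (kap J)) (pr a b) / ZG (dA (Λ := box (N : ℤ) M)) (xe β (kap J)) ∅ := by
    have h1 : gsum t td M (2 * N + 1) e0 0 =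
        GS t (xs t td M) (2 * N + 1) ⟨M, by omega⟩ ⟨M, by omega⟩ := by
      unfold gsum
      rw [dif_pos (by omega), Finset.sum_eq_single (⟨M, by omega⟩ : Fin (2 * M + 1))]
      · have h2 : e0 (ds M (⟨M, by omega⟩ : Fin (2 * M + 1))) = 1 := by
          unfold e0 ds
          simp
        rw [h2, one_mul]
        rfl
      · intro v _ hvne
        have h2 : e0 (ds M v) = 0 := by
          unfold e0 ds
          rw [if_neg]
          intro h3
          apply hvne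
          apply Fin.ext
          simp only
          omega
        rw [h2, zero_mul]
      · intro h
        exact absurd (Finset.mem_univ _) h
    rw [h1, ← GSo_const]
    unfold GSo
    rw [← hx1, ← hx2, mul_div_mul_left _ _ hK]
  have hd := ps_dob hM β J r hr ha hb
  have htt := ps_tt hM β J r hr
  have hZ0 : 0 < ZG (dA (Λ := box (N : ℤ) M)) (xe β (kap J)) ∅ :=
    ZG_pos fun e => (xe_pos (kap J) e).le
  have hZab : 0 < ZG (dA (Λ := box (N : ℤ) M)) (xe β (kap J)) (pr a b) := by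
    have h1 := G2_pos hN' hM' (β := β) (J := J) ha hb
    unfold G2 at h1
    rcases div_pos_iff.1 h1 with h2 | h2
    · exact h2.1
    · exact absurd h2.2 (not_lt.2 hZ0.le)
  have hV0 : ZG (dA (Λ := box (N : ℤ) M)) (ysl β J N M r) ∅ ≠ 0 := by
    intro h1
    apply h0
    rw [htt, h1, zero_div]
  rw [← ht, ← htd, hG1, hG2, hd, htt]
  have e1 := hZ0.ne'
  have e2 := hZab.ne'
  field_simp

end Pool.Agent.Helper49.RD
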