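import Pool.Agent.Helper49.RD.G2pt
import Pool.Agent.Helper49.RD.StrId
import Pool.Agent.Helper49.RD.Gks

/-!
Block RD-LO: levels in the presence of strings.

`levo t td m L r k y`: coefficients after `k + 1` columns, for the source in the middle row of the last column and the weights `xwl t td m r` (with the signs of the strings `r`).
`So k r`: the gaps of `r` are strictly increasing, at least `k`, at most `L - 1`, where `L = 2 m + 1`; the half heights at most `m`.

Paper proofs. `x = xwl t td m r`, `w u = GSo t x L mid u = ∑ v, e0 (ds v) * GSo t x L v u` (`e0 (ds v) = 0` unless `v` is the middle row), hypothesis `hne : ip 1 (Xo t x L 1) ≠ 0`.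
* `xwl_ne`, `xwl_lt`, `xwl_gt`, `xwl_eq`: definitions (`eps = ±1`, `xs > 0`; `sgl r k = 1` if all gaps of `r` are different from `k`).
* `levo_sym`: `x k` and `w` are symmetric under `Fin.rev` (`ds_rev`, `xs_rev`; `w`: reflect all columns: `ip` and `Wm`, `Vm` are invariant under the reflection of the rows, as in `GS_rev` (`DX/Rp.lean`)); the coefficients `pqo` are symmetric by induction
  as in `pqs_sym`.
* `levo_nil`: `Xo_const`, `GSo_const`, `pqo_const`.
* `levo_comp`: for `k ≤ l ≤` all gaps of `r`: the weights in the gaps `< l` are `x0 = xs t td m`, so `pqo t x w k = pqs t x0 w k` for `k ≤ l` (`pqo_congr`, `pqo_const`), and by `gs_mul` `w u = ∑ v, GS t x0 l v u * (pqs t x0 w l).1 v`, i.e. `w` is the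
  output for `l` and the source `levo .. l` (`levo_sym`). As in `lev_comp`.
* `levo_out`: the same: `w mid = gsum m l (levo .. l) 0`.
-/

open Finset

namespace Pool.Agent.Helper49.RD

open Pool.Agent.Helper49.DL Pool.Agent.Helper49.DX

/-- Level profile in the presence of strings. -/
noncomputable def levo (t td : ℝ) (m L : ℕ) (r : List (ℕ × ℕ)) (k y : ℕ) : ℝ :=
  if h : m + y < 2 * m + 1 then
    (pqo t (xwl t td m r) (fun w => GSo t (xwl t td m r) L ⟨m, by omega⟩ w) k).1 ⟨m + y, h⟩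
  else 0

/-- Admissible lists of strings. -/
def So (m : ℕ) : ℕ → List (ℕ × ℕ) → Prop
  | _, [] => True
  | k, a :: r => k ≤ a.1 ∧ a.1 ≤ 2 * m ∧ a.2 ≤ m ∧ So m (a.1 + 1) r

/-! ### Signs -/

private lemma sgl_cases_h94 (r : List (ℕ × ℕ)) (k y : ℕ) : sgl r k y = 1 ∨ sgl r k y = -1 := by
  induction r with
  | nil => exact Or.inl rfl
  | cons a r ih =>
    have h1 : sgl (a :: r) k y = (if a.1 = k then eps a.2 y else 1) * sgl r k y := rfl
    rw [h1]
    have h2 : (if a.1 = k then eps a.2 y else 1) = 1 ∨ (if a.1 = k then eps a.2 y else 1) = -1 := by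
      split_ifs
      · exact eps_cases a.2 y
      · exact Or.inl rfl
    rcases h2 with h2 | h2 <;> rcases ih with h3 | h3 <;> rw [h2, h3] <;> norm_num

private lemma sgl_lt_h94 {m : ℕ} (r : List (ℕ × ℕ)) : ∀ {k i : ℕ}, So m k r → i < k → ∀ y, sgl r i y = 1 := by
  induction r with
  | nil => intro k i _ _ y; rfl
  | cons a r ih =>
    intro k i h hi y
    have h1 : sgl (a :: r) i y = (if a.1 = i then eps a.2 y else 1) * sgl r i y := rfl
    obtain ⟨h2, -, -, h3⟩ := h
    rw [h1, if_neg (by omega), ih h3 (by omega) y, one_mul]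

/-! ### Reflection of the rows -/

private theorem wc_succ_h94 {m : ℕ} (t : ℝ) (c : Col (m + 1)) :
    wc t c = ∏ i : Fin m, (1 + t * (sp (c i.castSucc) * sp (c i.succ))) := by
  unfold wc
  rw [Fin.prod_univ_castSucc]
  have h1 : (if h : ((Fin.last m : Fin (m + 1)) : ℕ) + 1 < m + 1 then
      1 + t * (sp (c (Fin.last m)) * sp (c ⟨((Fin.last m : Fin (m + 1)) : ℕ) + 1, h⟩)) else 1) = 1 := by
    rw [dif_neg]
    rw [Fin.val_last]
    omega
  rw [h1, mul_one]
  refine Finset.prod_congr rfl fun i _ => ?_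
  have h2 : ((i.castSucc : Fin (m + 1)) : ℕ) + 1 < m + 1 := by
    rw [Fin.val_castSucc]
    omega
  rw [dif_pos h2]
  rfl

private theorem wc_rev_h94 {n : ℕ} (t : ℝ) (c : Col n) : wc t (fun j => c (Fin.rev j)) = wc t c := by
  cases n with
  | zero => rfl
  | succ m =>
    rw [wc_succ_h94, wc_succ_h94, ← Equiv.prod_comp Fin.revPerm]
    refine Finset.prod_congr rfl fun i _ => ?_
    rw [Fin.revPerm_apply, Fin.rev_castSucc, Fin.rev_succ, Fin.rev_rev, mul_comm (sp _)]

private theorem ker_rev_h94 {n : ℕ} {x : Fin n → ℝ} (hx : ∀ j, x (Fin.rev j) = x j) (c c' : Col n) :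
    (∏ j, (1 + x j * (sp (c j) * sp (c' (Fin.rev j))))) =
      ∏ j, (1 + x j * (sp (c (Fin.rev j)) * sp (c' j))) := by
  rw [← Equiv.prod_comp Fin.revPerm]
  refine Finset.prod_congr rfl fun j _ => ?_
  rw [Fin.revPerm_apply, Fin.rev_rev, hx]

private def revE_h94 (n : ℕ) : Col n ≃ Col n where
  toFun c := fun j => c (Fin.rev j)
  invFun c := fun j => c (Fin.rev j)
  left_inv c := by
    funext j
    change c (Fin.rev (Fin.rev j)) = c j
    rw [Fin.rev_rev]
  right_inv c := by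
    funext j
    change c (Fin.rev (Fin.rev j)) = c j
    rw [Fin.rev_rev]

private theorem Wm_rev_h94 {n : ℕ} (t : ℝ) (Φ : Col n → ℝ) :
    Wm t (fun c => Φ (revE_h94 n c)) = fun c => Wm t Φ (revE_h94 n c) := by
  funext c
  change wc t c * Φ (revE_h94 n c) = wc t (fun j => c (Fin.rev j)) * Φ (revE_h94 n c)
  rw [wc_rev_h94]

private theorem Vm_rev_h94 {n : ℕ} {x : Fin n → ℝ} (hx : ∀ j, x (Fin.rev j) = x j) (Φ : Col n → ℝ) :
    Vm x (fun c => Φ (revE_h94 n c)) = fun c => Vm x Φ (revE_h94 n c) := by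
  funext c
  unfold Vm
  rw [← Equiv.sum_comp (revE_h94 n)]
  refine Finset.sum_congr rfl fun c' _ => ?_
  have h1 : revE_h94 n (revE_h94 n c') = c' := (revE_h94 n).left_inv c'
  change (∏ j, (1 + x j * (sp (c j) * sp (c' (Fin.rev j))))) * Φ (revE_h94 n (revE_h94 n c')) =
    (∏ j, (1 + x j * (sp (c (Fin.rev j)) * sp (c' j)))) * Φ c'
  rw [h1, ker_rev_h94 hx c c']

private theorem Xo_rev_h94 {n : ℕ} (t : ℝ) {x : ℕ → Fin n → ℝ} (hx : ∀ k j, x k (Fin.rev j) = x k j) (L : ℕ) :
    ∀ Φ : Col n → ℝ, Xo t x L (fun c => Φ (revE_h94 n c)) = fun c => Xo t x L Φ (revE_h94 n c) := by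
  induction L with
  | zero => exact fun Φ => Wm_rev_h94 t Φ
  | succ L ih =>
    intro Φ
    change Xo t x L (Vm (x L) (Wm t (fun c => Φ (revE_h94 n c)))) = _
    rw [Wm_rev_h94, Vm_rev_h94 (hx L), ih]
    rfl

private theorem GSo_rev_h94 {n : ℕ} {t : ℝ} {x : ℕ → Fin n → ℝ} (hx : ∀ k j, x k (Fin.rev j) = x k j) (L : ℕ)
    (u v : Fin n) : GSo t x L (Fin.rev u) (Fin.rev v) = GSo t x L u v := by
  unfold GSo
  congr 1
  have h1 : Xo t x L (fun c => sp (c (Fin.rev u))) = fun c => Xo t x L (fun c => sp (c u)) (revE_h94 n c) :=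
    Xo_rev_h94 t hx L (fun c => sp (c u))
  rw [h1]
  unfold ip
  exact Equiv.sum_comp (revE_h94 n) (fun c => sp (c v) * Xo t x L (fun c => sp (c u)) c)

private theorem nx_rev_h94 {n : ℕ} (c : Fin n → ℝ) (j : Fin n) :
    nx c (Fin.rev j) = pv (fun i => c (Fin.rev i)) j := by
  have hj := j.2
  unfold nx pv
  by_cases h : 0 < (j : ℕ)
  · rw [dif_pos (by rw [Fin.val_rev]; omega), if_pos h]
    congr 1
    apply Fin.ext
    simp only [Fin.val_rev]
    omega
  · rw [dif_neg (by rw [Fin.val_rev]; omega), if_neg h]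

private theorem pv_rev_h94 {n : ℕ} (c : Fin n → ℝ) (j : Fin n) :
    pv c (Fin.rev j) = nx (fun i => c (Fin.rev i)) j := by
  have hj := j.2
  unfold nx pv
  by_cases h : (j : ℕ) + 1 < n
  · rw [dif_pos h, if_pos (by rw [Fin.val_rev]; omega)]
    refine congrArg c (Fin.ext ?_)
    simp only [Fin.val_rev]
    first | done | omega
  · rw [dif_neg h, if_neg (by rw [Fin.val_rev]; omega)]

private theorem lo_rev_h94 {n : ℕ} (j : Fin n) : lo (Fin.rev j) = up j := by
  have hj := j.2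
  unfold lo up
  by_cases h : (j : ℕ) + 1 < n
  · rw [if_pos h, if_pos (by rw [Fin.val_rev]; omega)]
  · rw [if_neg h, if_neg (by rw [Fin.val_rev]; omega)]

private theorem up_rev_h94 {n : ℕ} (j : Fin n) : up (Fin.rev j) = lo j := by
  rw [← lo_rev_h94, Fin.rev_rev]

private theorem nx_neg_h94 {n : ℕ} (c : Fin n → ℝ) (j : Fin n) : nx (fun i => -c i) j = -nx c j := by
  unfold nx
  split_ifs
  · rfl
  · rw [neg_zero]

private theorem pv_neg_h94 {n : ℕ} (c : Fin n → ℝ) (j : Fin n) : pv (fun i => -c i) j = -pv c j := by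
  unfold pv
  split_ifs
  · rfl
  · rw [neg_zero]

private theorem w_sym_h94 {n : ℕ} (t : ℝ) {c d : Fin n → ℝ} (hc : ∀ j, c (Fin.rev j) = c j)
    (hd : ∀ j, d (Fin.rev j) = -d j) (j : Fin n) :
    wp t c d (Fin.rev j) = wp t c d j ∧ wq t c d (Fin.rev j) = -wq t c d j := by
  have hc' : (fun i => c (Fin.rev i)) = c := funext hc
  have hd' : (fun i => d (Fin.rev i)) = fun i => -d i := funext hd
  constructor
  · unfold wp
    rw [nx_rev_h94, pv_rev_h94, nx_rev_h94, pv_rev_h94, lo_rev_h94, up_rev_h94, hc', hd', nx_neg_h94,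
      pv_neg_h94, hc, hd]
    ring
  · unfold wq
    rw [nx_rev_h94, pv_rev_h94, nx_rev_h94, pv_rev_h94, lo_rev_h94, up_rev_h94, hc', hd', nx_neg_h94,
      pv_neg_h94, hc, hd]
    ring

private theorem pqo_sym_h94 {n : ℕ} (t : ℝ) {x : ℕ → Fin n → ℝ} {c : Fin n → ℝ}
    (hx : ∀ k j, x k (Fin.rev j) = x k j) (hc : ∀ j, c (Fin.rev j) = c j) (k : ℕ) (j : Fin n) :
    (pqo t x c k).1 (Fin.rev j) = (pqo t x c k).1 j ∧ (pqo t x c k).2 (Fin.rev j) = -(pqo t x c k).2 j := by
  induction k generalizing j with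
  | zero => exact w_sym_h94 t hc (fun _ => by rw [neg_zero]) j
  | succ k ih =>
    refine w_sym_h94 t (c := fun j => (pqo t x c k).1 j / x k j) (d := fun j => x k j * (pqo t x c k).2 j)
      (fun j => ?_) (fun j => ?_) j
    · rw [hx, (ih j).1]
    · rw [hx, (ih j).2, mul_neg]

private theorem row_h94 (m : ℕ) (u : Fin (2 * m + 1)) (h : m + ds m u < 2 * m + 1) :
    u = ⟨m + ds m u, h⟩ ∨ Fin.rev u = ⟨m + ds m u, h⟩ := by
  have hu := u.2
  by_cases h1 : m ≤ (u : ℕ)
  · left
    apply Fin.ext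
    simp only
    unfold ds
    omega
  · right
    apply Fin.ext
    rw [Fin.val_rev]
    simp only
    unfold ds
    omega

private theorem xwl_rev_h94 (t td : ℝ) (m : ℕ) (r : List (ℕ × ℕ)) (k : ℕ) (j : Fin (2 * m + 1)) :
    xwl t td m r k (Fin.rev j) = xwl t td m r k j := by
  unfold xwl
  rw [xs_rev, ds_rev]

private theorem mid_rev_h94 (m : ℕ) (h : m < 2 * m + 1) :
    Fin.rev (⟨m, h⟩ : Fin (2 * m + 1)) = ⟨m, h⟩ := by
  apply Fin.ext
  rw [Fin.val_rev]
  simp only
  omega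

/-- The output for the source in the middle row. -/
private noncomputable def wo_h94 (t td : ℝ) (m L : ℕ) (r : List (ℕ × ℕ)) : Fin (2 * m + 1) → ℝ :=
  fun w => GSo t (xwl t td m r) L ⟨m, by omega⟩ w

private theorem wo_rev_h94 (t td : ℝ) (m L : ℕ) (r : List (ℕ × ℕ)) (j : Fin (2 * m + 1)) :
    wo_h94 t td m L r (Fin.rev j) = wo_h94 t td m L r j := by
  unfold wo_h94
  have h1 := GSo_rev_h94 (t := t) (x := xwl t td m r) (fun k j => xwl_rev_h94 t td m r k j) L
    (⟨m, by omega⟩ : Fin (2 * m + 1)) j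
  rw [mid_rev_h94] at h1
  exact h1

private theorem levo_sym_h94 (t td : ℝ) (m L : ℕ) (r : List (ℕ × ℕ)) (k : ℕ) (u : Fin (2 * m + 1)) :
    (pqo t (xwl t td m r) (wo_h94 t td m L r) k).1 u = levo t td m L r k (ds m u) := by
  have h := ds_le m u
  have hb : m + ds m u < 2 * m + 1 := by omega
  unfold levo
  rw [dif_pos hb]
  rcases row_h94 m u hb with h1 | h1
  · rw [← h1]
    rfl
  · rw [← h1]
    exact (pqo_sym_h94 t (fun k j => xwl_rev_h94 t td m r k j) (fun j => wo_rev_h94 t td m L r j) k u).1.symm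

private lemma e0_ds_h94 (m : ℕ) (v : Fin (2 * m + 1)) (h : m < 2 * m + 1) :
    e0 (ds m v) = if v = ⟨m, h⟩ then 1 else 0 := by
  unfold e0
  refine if_congr ?_ rfl rfl
  unfold ds
  constructor
  · intro h1
    apply Fin.ext
    simp only
    omega
  · intro h1
    rw [h1]
    simp

private lemma xwl_nil_h94 (t td : ℝ) (m : ℕ) : xwl t td m [] = fun _ => xs t td m := by
  funext k j
  unfold xwl sgl
  rw [mul_one]

theorem So_mono {m k k' : ℕ} (hk : k' ≤ k) {r : List (ℕ × ℕ)} (h : So m k r) : So m k' r := by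
  cases r with
  | nil => trivial
  | cons a r => exact ⟨hk.trans h.1, h.2.1, h.2.2.1, h.2.2.2⟩

theorem xwl_ne {t td : ℝ} (ht : 0 < t) (htd : 0 < td) (m : ℕ) (r : List (ℕ × ℕ)) (k : ℕ) (j : Fin (2 * m + 1)) :
    xwl t td m r k j ≠ 0 ∧ |xwl t td m r k j| = xs t td m j := by
  have h1 := xs_pos ht htd m j
  unfold xwl
  rcases sgl_cases_h94 r k (ds m j) with h | h
  · rw [h, mul_one]
    exact ⟨h1.ne', abs_of_pos h1⟩
  · rw [h, mul_neg, mul_one, abs_neg]
    exact ⟨(neg_neg_of_pos h1).ne, abs_of_pos h1⟩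

theorem xwl_lt {t td : ℝ} {m k i : ℕ} {r : List (ℕ × ℕ)} (h : So m k r) (hi : i < k) :
    xwl t td m r i = xs t td m := by
  funext j
  unfold xwl
  rw [sgl_lt_h94 r h hi, mul_one]

theorem xwl_cons {t td : ℝ} {m k i : ℕ} {a : ℕ × ℕ} {r : List (ℕ × ℕ)} (h : So m k (a :: r)) :
    (xwl t td m (a :: r) a.1 = fun j => eps a.2 (ds m j) * xwl t td m r a.1 j) ∧
      (i ≠ a.1 → xwl t td m (a :: r) i = xwl t td m r i) := by
  have _ := h
  have h1 : ∀ k y, sgl (a :: r) k y = (if a.1 = k then eps a.2 y else 1) * sgl r k y := fun _ _ => rfl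
  constructor
  · funext j
    unfold xwl
    rw [h1, if_pos rfl]
    ring
  · intro hi
    funext j
    unfold xwl
    rw [h1, if_neg (Ne.symm hi), one_mul]

section

variable {t td : ℝ} (ht : 0 < t) (hq : t ^ 2 + 2 * t < 1) (htd : 0 < td) (htt : td < t) {m L : ℕ} (hm : 2 ≤ m)
  {r : List (ℕ × ℕ)} (hne : ip (fun _ => 1) (Xo t (xwl t td m r) L (fun _ => 1)) ≠ 0)

include ht hq htd htt hm hne

theorem levo_sym (k : ℕ) (u : Fin (2 * m + 1)) :
    (pqo t (xwl t td m r) (fun w => GSo t (xwl t td m r) L ⟨m, by omega⟩ w) k).1 u =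
      levo t td m L r k (ds m u) := by
  have _ := ht
  have _ := hq
  have _ := htd
  have _ := htt
  have _ := hm
  have _ := hne
  exact levo_sym_h94 t td m L r k u

private theorem out_h94 {l : ℕ} (hl : So m l r) (w : Fin (2 * m + 1)) :
    ∑ v, levo t td m L r l (ds m v) * GS t (xs t td m) l v w = wo_h94 t td m L r w := by
  have _ := hm
  have _ := hne
  have ht1 := t_lt_one ht hq
  have h1 := gs_mul ht ht1 (fun j => xs_pos ht htd m j)
    (fun j => xs_lt_one ht1 (htt.trans ht1) m j) l (wo_h94 t td m L r) w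
  rw [← h1]
  refine Finset.sum_congr rfl fun v _ => ?_
  rw [← levo_sym_h94, pqo_congr t (x' := fun _ => xs t td m) (fun i hi => xwl_lt hl hi), pqo_const]
  ring

theorem levo_comp {k l : ℕ} (hkl : k ≤ l) (hl : So m l r) (y : ℕ) :
    levo t td m L r k y = lev t td m l (levo t td m L r l) k y := by
  have h1 : (fun w => ∑ v, levo t td m L r l (ds m v) * GS t (xs t td m) l v w) = wo_h94 t td m L r :=
    funext fun w => out_h94 ht hq htd htt hm hne hl w
  unfold lev
  rw [h1]
  unfold levo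
  by_cases h : m + y < 2 * m + 1
  · rw [dif_pos h, dif_pos h]
    change (pqo t (xwl t td m r) (wo_h94 t td m L r) k).1 ⟨m + y, h⟩ = _
    rw [pqo_congr t (x' := fun _ => xs t td m) (fun i hi => xwl_lt hl (by omega)), pqo_const]
  · rw [dif_neg h, dif_neg h]

theorem levo_out {l : ℕ} (hl : So m l r) :
    GSo t (xwl t td m r) L ⟨m, by omega⟩ ⟨m, by omega⟩ = gsum t td m l (levo t td m L r l) 0 := by
  have h1 := out_h94 ht hq htd htt hm hne hl ⟨m, by omega⟩
  rw [gsum_row] at h1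
  have h2 : ds m (⟨m, by omega⟩ : Fin (2 * m + 1)) = 0 := by
    unfold ds
    simp
  rw [h2] at h1
  rw [h1]
  rfl

end

theorem levo_nil {t td : ℝ} (ht : 0 < t) (hq : t ^ 2 + 2 * t < 1) (htd : 0 < td) (htt : td < t) {m L : ℕ}
    (hm : 2 ≤ m) {k y : ℕ} (hy : y ≤ m) : levo t td m L [] k y = lev t td m L e0 k y := by
  have _ := ht
  have _ := hq
  have _ := htd
  have _ := htt
  have _ := hm
  have _ := hy
  have hmid : m < 2 * m + 1 := by omega
  have h1 : (fun w => ∑ v, e0 (ds m v) * GS t (xs t td m) L v w) =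
      fun w => GS t (xs t td m) L ⟨m, hmid⟩ w := by
    funext w
    have : ∀ v ∈ (Finset.univ : Finset (Fin (2 * m + 1))), e0 (ds m v) * GS t (xs t td m) L v w =
        if v = ⟨m, hmid⟩ then GS t (xs t td m) L v w else 0 := by
      intro v _
      rw [e0_ds_h94 m v hmid]
      split_ifs <;> simp
    rw [Finset.sum_congr rfl this, Finset.sum_ite_eq' Finset.univ]
    simp
  unfold levo lev
  rw [h1, xwl_nil_h94, pqo_const]
  simp only [GSo_const]

end Pool.Agent.Helper49.RD
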