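import Pool.Agent.Helper49.RD.HLim
import Pool.Agent.Helper49.RD.LevCz
import Pool.Agent.Helper49.RD.LevO

/-!
Block RD-LM: the limit of the main term.

`t = exp (-β)`, `td = exp (-(β J))`, `λ = lam t`, `g = sg t`, `L = 2 n + 1`. A sequence of lists of strings is a list `D` of data `(l, c, s, h)`: gaps `l n`, half heights `c n`, `l n/n → s`, `c n/√n → h` (or `c n = 0`, `h = 0`).

Paper proofs.
* `bch_lim`: by induction on `D`, for all `s`, `k`: `D = []`: `h_lim` (`Bch [] k y = lev e0 k y`). `D = d :: D'`: `Bch (ev D n) k y = lev (l n) (eps (c n) * Bch (ev D' n) (l n)) k y`; by the induction hypothesis at `k = l`, `s = d.s`, and `lev_step` with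
  `v n z = 2 n λ/(a_n t) Bch (ev D' n) (l n) z/λ^(L - l n)` (`lev` is homogeneous: `lev_lin`), `λ^(L-k) = λ^(L-l) λ^(l-k)` for `k ≤ l ≤ L` (eventually). `Bl` of the rest is in `Cz` (`bl_cz`; `chs` is measurable, `|chs| = 1`).
* `mch_lim`: the same with `ell_step`.
* `mch_zero`: `eps 0 = 1`: `Mch (ev D n) = gsum L e0 0` if all `c n = 0`, for `n` large (`So n 0 (ev D n)`): by induction `Bch r k = lev L e0 k` on `[0, n]` for `k ≤` the first gap (`lev_comp`, `lev_congr`), `gsum_comp`.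
-/

open Finset Filter

namespace Pool.Agent.Helper49.RD

open Pool.Agent.Helper49.DL Pool.Agent.Helper49.DX

/-- Data of a sequence of strings: gaps, half heights, limits. -/
structure SD where
  l : ℕ → ℕ
  c : ℕ → ℕ
  s : ℝ
  h : ℝ

/-- The strings for the box of size `n`. -/
def ev (D : List SD) (n : ℕ) : List (ℕ × ℕ) := D.map (fun d => (d.l n, d.c n))

/-- The limiting times and multipliers. -/
noncomputable def li (D : List SD) : List (ℝ × (ℝ → ℝ)) := D.map (fun d => (d.s, chs d.h))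

/-- The same strings with half height zero. -/
def zer (D : List SD) : List SD := D.map (fun d => ⟨d.l, fun _ => 0, d.s, 0⟩)

/-- Convergence of the data; increasing times after `s`, before `2`. -/
def Gd : ℝ → List SD → Prop
  | s, [] => s < 2
  | s, d :: D => s < d.s ∧ Tendsto (fun n : ℕ => (d.l n : ℝ) / n) atTop (nhds d.s) ∧ Hgt d.c d.h ∧ Gd d.s D

private lemma gd_lt_h12 {D : List SD} : ∀ {s : ℝ}, Gd s D → s < 2 := by
  induction D with
  | nil =>
    intro s h
    exact h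
  | cons d D ih =>
    intro s h
    exact lt_trans h.1 (ih h.2.2.2)

theorem gd_zer {s : ℝ} {D : List SD} (h : Gd s D) : Gd s (zer D) := by
  induction D generalizing s with
  | nil => exact h
  | cons d D ih => exact ⟨h.1, h.2.1, Or.inr ⟨rfl, fun _ => rfl⟩, ih h.2.2.2⟩

theorem gd_inc {s : ℝ} {D : List SD} (h : Gd s D) : Inc s (li D) := by
  induction D generalizing s with
  | nil => exact h
  | cons d D ih => exact ⟨h.1, ih h.2.2.2⟩

private lemma ev_lt_h12 {k l : ℕ → ℕ} {s s' : ℝ} (hs : s < s')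
    (hk : Tendsto (fun n : ℕ => (k n : ℝ) / n) atTop (nhds s))
    (hl : Tendsto (fun n : ℕ => (l n : ℝ) / n) atTop (nhds s')) : ∀ᶠ n : ℕ in atTop, k n ≤ l n := by
  obtain ⟨x, hx1, hx2⟩ := exists_between hs
  filter_upwards [hk.eventually (gt_mem_nhds hx1), hl.eventually (lt_mem_nhds hx2), eventually_gt_atTop 0]
    with n h1 h2 h3
  have h4 : (0 : ℝ) < n := Nat.cast_pos.mpr h3
  have h5 : (k n : ℝ) / n < (l n : ℝ) / n := lt_trans h1 h2
  rw [div_lt_div_iff_of_pos_right h4] at h5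
  exact le_of_lt (Nat.cast_lt.mp h5)

private lemma ev_two_h12 {l : ℕ → ℕ} {s : ℝ} (hs : s < 2)
    (hl : Tendsto (fun n : ℕ => (l n : ℝ) / n) atTop (nhds s)) : ∀ᶠ n : ℕ in atTop, l n ≤ 2 * n := by
  filter_upwards [hl.eventually (gt_mem_nhds hs), eventually_gt_atTop 0] with n h1 h3
  have h4 : (0 : ℝ) < n := Nat.cast_pos.mpr h3
  rw [div_lt_iff₀ h4] at h1
  have h5 : ((l n : ℕ) : ℝ) < ((2 * n : ℕ) : ℝ) := by
    push_cast
    exact h1
  exact le_of_lt (Nat.cast_lt.mp h5)

private lemma succ_div_h12 {l : ℕ → ℕ} {s : ℝ} (hl : Tendsto (fun n : ℕ => (l n : ℝ) / n) atTop (nhds s)) :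
    Tendsto (fun n : ℕ => ((l n + 1 : ℕ) : ℝ) / n) atTop (nhds s) := by
  have h1 := hl.add tendsto_one_div_atTop_nhds_zero_nat
  rw [add_zero] at h1
  refine h1.congr (fun n => ?_)
  push_cast
  rw [add_div]

private lemma hgt_le_h12 {c : ℕ → ℕ} {h : ℝ} (hc : Hgt c h) : ∀ᶠ n : ℕ in atTop, c n ≤ n := by
  rcases hc with ⟨_, h1⟩ | ⟨_, h1⟩
  · have hsq : Tendsto (fun n : ℕ => Real.sqrt (n : ℝ)) atTop atTop :=
      Real.tendsto_sqrt_atTop.comp tendsto_natCast_atTop_atTop
    filter_upwards [h1.eventually (gt_mem_nhds (lt_add_one h)), hsq.eventually_ge_atTop (h + 1),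
      eventually_gt_atTop 0] with n h2 h3 h4
    have h5 : (0 : ℝ) < n := Nat.cast_pos.mpr h4
    have h6 : 0 < Real.sqrt (n : ℝ) := Real.sqrt_pos.mpr h5
    rw [div_lt_iff₀ h6] at h2
    have h7 : (h + 1) * Real.sqrt (n : ℝ) ≤ Real.sqrt (n : ℝ) * Real.sqrt (n : ℝ) :=
      mul_le_mul_of_nonneg_right h3 h6.le
    rw [Real.mul_self_sqrt h5.le] at h7
    exact le_of_lt (Nat.cast_lt.mp (lt_of_lt_of_le h2 h7))
  · exact Eventually.of_forall (fun n => by rw [h1 n]; exact Nat.zero_le n)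

theorem gd_so {s : ℝ} {D : List SD} (h : Gd s D) {k : ℕ → ℕ}
    (hk : Tendsto (fun n : ℕ => (k n : ℝ) / n) atTop (nhds s)) : ∀ᶠ n : ℕ in atTop, So n (k n) (ev D n) := by
  induction D generalizing s k with
  | nil => exact Eventually.of_forall (fun n => trivial)
  | cons d D ih =>
    have h1 := ih h.2.2.2 (succ_div_h12 h.2.1)
    filter_upwards [h1, ev_lt_h12 h.1 hk h.2.1, ev_two_h12 (gd_lt_h12 h.2.2.2) h.2.1, hgt_le_h12 h.2.2.1]
      with n h2 h3 h4 h5
    exact ⟨h3, h4, h5, h2⟩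

private lemma suplim_congr_h12 {u u' : ℕ → ℕ → ℝ} {U : ℝ → ℝ} (h : SupLim u U)
    (he : ∀ᶠ n : ℕ in atTop, ∀ y, u' n y = u n y) : SupLim u' U := by
  intro ε hε
  filter_upwards [h ε hε, he] with n h1 h2 y hy
  rw [h2 y]
  exact h1 y hy

private lemma chs_abs_h12 (h z : ℝ) : |chs h z| ≤ 1 := by
  unfold chs
  split_ifs <;> norm_num

private lemma chs_meas_h12 (h : ℝ) : Measurable (chs h) := by
  unfold chs
  exact Measurable.ite measurableSet_Iio measurable_const measurable_const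

private lemma li_mem_h12 (D : List SD) : ∀ a ∈ li D, Measurable a.2 ∧ ∀ z, |a.2 z| ≤ 1 := by
  intro a ha
  unfold li at ha
  rw [List.mem_map] at ha
  obtain ⟨d, _, rfl⟩ := ha
  exact ⟨chs_meas_h12 d.h, chs_abs_h12 d.h⟩

private lemma lev_scale_h12 (t td : ℝ) (m L : ℕ) (a : ℝ) (E : ℕ → ℝ) (k y : ℕ) :
    lev t td m L (fun z => a * E z) k y = a * lev t td m L E k y := by
  have h := lev_lin t td m L a 0 E E k y
  have h2 : (fun z => a * E z + 0 * E z) = fun z => a * E z := by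
    funext z
    ring
  rw [h2] at h
  rw [h]
  ring

private lemma gsum_scale_h12 (t td : ℝ) (m L : ℕ) (a : ℝ) (E : ℕ → ℝ) (y : ℕ) :
    gsum t td m L (fun z => a * E z) y = a * gsum t td m L E y := by
  have h := gsum_lin t td m L a 0 E E y
  have h2 : (fun z => a * E z + 0 * E z) = fun z => a * E z := by
    funext z
    ring
  rw [h2] at h
  rw [h]
  ring

section

variable {β₁ β J : ℝ} (h0 : 0 ≤ β₁) (h : β₁ < β) (hm : 0 < mag β₁) (hJ : 1 < J)

include h0 h hJ

omit hm in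
private lemma td_lt_h12 : Real.exp (-(β * J)) < Real.exp (-β) := by
  have hβ : 0 < β := lt_of_le_of_lt h0 h
  apply Real.exp_lt_exp.mpr
  nlinarith

omit hJ in
include hm in
private lemma sg_pos_h12 : 0 < sg (Real.exp (-β)) := by
  have h1 := t_small h0 h hm
  have h2 := Real.exp_pos (-β)
  have h3 := lam_pos h2 (t_lt_one h2 h1)
  have h4 := lam_lt_one h2 h1
  unfold sg
  have h5 : 0 < 1 - lam (Real.exp (-β)) ^ 2 := by nlinarith
  positivity

include hm

theorem bch_lim {a : ℕ → ℝ} (ha : Nrm (Real.exp (-β)) (Real.exp (-(β * J))) a) {D : List SD} {s : ℝ} (hD : Gd s D)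
    {k : ℕ → ℕ} (hk : Tendsto (fun n : ℕ => (k n : ℝ) / n) atTop (nhds s)) :
    SupLim (fun n y => 2 * n * lam (Real.exp (-β)) / (a n * Real.exp (-β)) *
      Bch (Real.exp (-β)) (Real.exp (-(β * J))) n (2 * n + 1) (ev D n) (k n) y /
        lam (Real.exp (-β)) ^ (2 * n + 1 - k n)) (Bl (sg (Real.exp (-β))) s (li D)) := by
  induction D generalizing s k with
  | nil => exact h_lim h0 h hm hJ ha hD hk
  | cons d D ih =>
    obtain ⟨h1, h2, h3, h4⟩ := hD
    have h5 := ih h4 h2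
    have hq := t_small h0 h hm
    have ht := Real.exp_pos (-β)
    have htd := Real.exp_pos (-(β * J))
    have htt := td_lt_h12 h0 h hJ
    have hlam := lam_pos ht (t_lt_one ht hq)
    have hV := bl_cz (sg_pos_h12 h0 h hm) (li D) d.s (gd_inc h4) (li_mem_h12 D)
    have h6 := lev_step ht hq htd htt hV h5 h1 hk h2 h3
    refine suplim_congr_h12 h6 ?_
    filter_upwards [ev_lt_h12 h1 hk h2, ev_two_h12 (gd_lt_h12 h4) h2] with n h7 h8 y
    have h9 : (fun z : ℕ => eps (d.c n) z * (2 * (n : ℝ) * lam (Real.exp (-β)) / (a n * Real.exp (-β)) *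
        Bch (Real.exp (-β)) (Real.exp (-(β * J))) n (2 * n + 1) (ev D n) (d.l n) z /
          lam (Real.exp (-β)) ^ (2 * n + 1 - d.l n))) =
        fun z => (2 * (n : ℝ) * lam (Real.exp (-β)) / (a n * Real.exp (-β)) /
          lam (Real.exp (-β)) ^ (2 * n + 1 - d.l n)) * (eps (d.c n) z *
            Bch (Real.exp (-β)) (Real.exp (-(β * J))) n (2 * n + 1) (ev D n) (d.l n) z) := by
      funext z
      ring
    rw [h9, lev_scale_h12]
    have h10 : 2 * n + 1 - k n = (2 * n + 1 - d.l n) + (d.l n - k n) := by omega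
    have h11 : Bch (Real.exp (-β)) (Real.exp (-(β * J))) n (2 * n + 1) (ev (d :: D) n) (k n) y =
        lev (Real.exp (-β)) (Real.exp (-(β * J))) n (d.l n) (fun z => eps (d.c n) z *
            Bch (Real.exp (-β)) (Real.exp (-(β * J))) n (2 * n + 1) (ev D n) (d.l n) z) (k n) y := rfl
    rw [h11, h10, pow_add]
    have h12 : lam (Real.exp (-β)) ^ (2 * n + 1 - d.l n) ≠ 0 := (pow_pos hlam _).ne'
    have h13 : lam (Real.exp (-β)) ^ (d.l n - k n) ≠ 0 := (pow_pos hlam _).ne'
    field_simp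

theorem mch_lim {a : ℕ → ℝ} (ha : Nrm (Real.exp (-β)) (Real.exp (-(β * J))) a) {D : List SD} (hne : D ≠ [])
    (hD : Gd 0 D) : Tendsto (fun n : ℕ => Real.sqrt n / (a n * lam (Real.exp (-β)) ^ (2 * n + 1)) *
      (2 * n * lam (Real.exp (-β)) / (a n * Real.exp (-β))) *
      Mch (Real.exp (-β)) (Real.exp (-(β * J))) n (2 * n + 1) (ev D n)) atTop
        (nhds (Ml (sg (Real.exp (-β))) (li D))) := by
  cases D with
  | nil => exact absurd rfl hne
  | cons d D =>
    obtain ⟨h1, h2, h3, h4⟩ := hD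
    have h5 := bch_lim h0 h hm hJ ha h4 h2
    have hq := t_small h0 h hm
    have ht := Real.exp_pos (-β)
    have htd := Real.exp_pos (-(β * J))
    have htt := td_lt_h12 h0 h hJ
    have hlam := lam_pos ht (t_lt_one ht hq)
    have hV := bl_cz (sg_pos_h12 h0 h hm) (li D) d.s (gd_inc h4) (li_mem_h12 D)
    have h6 := ell_step ht hq htd htt ha hV h5 h1 h2 h3
    refine Tendsto.congr' ?_ h6
    filter_upwards [ev_two_h12 (gd_lt_h12 h4) h2] with n h8
    have h9 : (fun z : ℕ => eps (d.c n) z * (2 * (n : ℝ) * lam (Real.exp (-β)) / (a n * Real.exp (-β)) *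
        Bch (Real.exp (-β)) (Real.exp (-(β * J))) n (2 * n + 1) (ev D n) (d.l n) z /
          lam (Real.exp (-β)) ^ (2 * n + 1 - d.l n))) =
        fun z => (2 * (n : ℝ) * lam (Real.exp (-β)) / (a n * Real.exp (-β)) /
          lam (Real.exp (-β)) ^ (2 * n + 1 - d.l n)) * (eps (d.c n) z *
            Bch (Real.exp (-β)) (Real.exp (-(β * J))) n (2 * n + 1) (ev D n) (d.l n) z) := by
      funext z
      ring
    rw [h9, gsum_scale_h12]
    have h10 : 2 * n + 1 = (2 * n + 1 - d.l n) + d.l n := by omega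
    have h11 : Mch (Real.exp (-β)) (Real.exp (-(β * J))) n (2 * n + 1) (ev (d :: D) n) =
        gsum (Real.exp (-β)) (Real.exp (-(β * J))) n (d.l n) (fun z => eps (d.c n) z *
            Bch (Real.exp (-β)) (Real.exp (-(β * J))) n (2 * n + 1) (ev D n) (d.l n) z) 0 := rfl
    have h14 : lam (Real.exp (-β)) ^ (2 * n + 1) = lam (Real.exp (-β)) ^ (2 * n + 1 - d.l n) *
        lam (Real.exp (-β)) ^ d.l n := by
      rw [← pow_add, ← h10]
    rw [h11, h14]
    have h12 : lam (Real.exp (-β)) ^ (2 * n + 1 - d.l n) ≠ 0 := (pow_pos hlam _).ne'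
    have h13 : lam (Real.exp (-β)) ^ (d.l n) ≠ 0 := (pow_pos hlam _).ne'
    generalize lam (Real.exp (-β)) ^ (2 * n + 1 - d.l n) = A at h12 ⊢
    generalize lam (Real.exp (-β)) ^ (d.l n) = B at h13 ⊢
    generalize gsum (Real.exp (-β)) (Real.exp (-(β * J))) n (d.l n) (fun z => eps (d.c n) z *
            Bch (Real.exp (-β)) (Real.exp (-(β * J))) n (2 * n + 1) (ev D n) (d.l n) z) 0 = G
    ring

theorem mch_zero {D : List SD} (hne : D ≠ []) (hD : Gd 0 D) : ∀ᶠ n : ℕ in atTop,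
    Mch (Real.exp (-β)) (Real.exp (-(β * J))) n (2 * n + 1) (ev (zer D) n) =
      gsum (Real.exp (-β)) (Real.exp (-(β * J))) n (2 * n + 1) e0 0 := by
  have hq := t_small h0 h hm
  have ht := Real.exp_pos (-β)
  have htd := Real.exp_pos (-(β * J))
  have htt := td_lt_h12 h0 h hJ
  have key : ∀ n : ℕ, 2 ≤ n → ∀ D : List SD, ∀ k : ℕ, So n k (ev D n) → ∀ y,
      Bch (Real.exp (-β)) (Real.exp (-(β * J))) n (2 * n + 1) (ev (zer D) n) k y =
        lev (Real.exp (-β)) (Real.exp (-(β * J))) n (2 * n + 1) e0 k y := by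
    intro n hn D
    induction D with
    | nil =>
      intro k _ y
      rfl
    | cons d D ih =>
      intro k hk y
      obtain ⟨h1, h2, h3, h4⟩ := hk
      have h5 : Bch (Real.exp (-β)) (Real.exp (-(β * J))) n (2 * n + 1) (ev (zer (d :: D)) n) k y =
          lev (Real.exp (-β)) (Real.exp (-(β * J))) n (d.l n) (fun z => eps 0 z *
            Bch (Real.exp (-β)) (Real.exp (-(β * J))) n (2 * n + 1) (ev (zer D) n) (d.l n) z) k y := rfl
      have h1' : k ≤ d.l n := h1
      have h2' : d.l n ≤ 2 * n := h2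
      rw [h5, lev_comp (L := 2 * n + 1) (E := e0) ht hq htd htt.le hn h1' (by omega)]
      refine lev_congr _ _ (fun z _ => ?_) k y
      rw [eps_zero, one_mul]
      exact ih (d.l n) (So_mono (Nat.le_succ _) h4) z
  have hk : Tendsto (fun n : ℕ => (((fun _ : ℕ => 0) n : ℕ) : ℝ) / n) atTop (nhds 0) := by
    simp
  filter_upwards [gd_so hD hk, eventually_ge_atTop 2] with n h1 h2
  cases D with
  | nil => exact absurd rfl hne
  | cons d D =>
    obtain ⟨h3, h4, h5, h6⟩ := h1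
    have h7 : Mch (Real.exp (-β)) (Real.exp (-(β * J))) n (2 * n + 1) (ev (zer (d :: D)) n) =
        gsum (Real.exp (-β)) (Real.exp (-(β * J))) n (d.l n) (fun z => eps 0 z *
          Bch (Real.exp (-β)) (Real.exp (-(β * J))) n (2 * n + 1) (ev (zer D) n) (d.l n) z) 0 := rfl
    have h4' : d.l n ≤ 2 * n := h4
    rw [h7, gsum_comp (L := 2 * n + 1) (E := e0) ht hq htd htt.le h2 (show d.l n ≤ 2 * n + 1 by omega)]
    refine gsum_congr _ _ (fun z _ => ?_) 0
    rw [eps_zero, one_mul]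
    exact key n h2 D (d.l n) (So_mono (Nat.le_succ _) h6) z

end

end Pool.Agent.Helper49.RD
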