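import Pool.Agent.Helper49.RD.MLim
import Pool.Agent.Helper49.RD.Delta

/-!
Block RD-LR: the limit of the exact quantity.

`t = exp (-β)`, `td = exp (-(β J))`, `λ = lam t`, `L = 2 n + 1`.

Paper proofs.
* `gso_lim`: let `a` be from `nrm_exists`, `T n = √n/(a_n λ^L) * (2 n λ/(a_n t))`. `T n * Mch (ev D n) → Ml (li D)` and `T n * gsum L e0 0 = T n * Mch (ev (zer D) n) → Ml (li (zer D)) > 0` (`mch_lim`, `mch_zero`, `gd_zer`; `ml_pos`, `chs 0 z = 1` for `z > 0`). `main_err`: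
  `T n |GSo - Mch| ≤ C n^(3/2) ∑ (1 + c n)²/((l n + 1)^(3/2) (L - l n)^(3/2)) ≤ C' n^(-1/2) → 0` (`l n ≥ κ n`, `L - l n ≥ κ n` as `0 < s < 2`, `c n ≤ C √n`; `So n 0 (ev D n)` for large `n` by `gd_so` with `k = 0`). Divide.
* `ratio_lim`: `main_id` (`RD/StrId.lean`): `avg (eta 0) (psl)/avg tt (psl) = GSo mid mid/gsum L e0 0` (`tt_low`: `avg tt (psl) > 0`; `gsum L e0 0 > 0`: `gam_low`, for large `n`); `gso_lim`.
-/

open Finset Filter

namespace Pool.Agent.Helper49.RD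

open Pool.Agent.Helper49.DL Pool.Agent.Helper49.DX

private lemma gd_ltMR {s : ℝ} {D : List SD} (h : Gd s D) : s < 2 := by
  induction D generalizing s with
  | nil => exact h
  | cons d D ih => exact h.1.trans (ih h.2.2.2)

private lemma so_memMR {m k : ℕ} {r : List (ℕ × ℕ)} (h : So m k r) : ∀ a ∈ r, a.1 ≤ 2 * m ∧ a.2 ≤ m := by
  induction r generalizing k with
  | nil =>
    intro a ha
    simp at ha
  | cons b r ih =>
    intro a ha
    rcases List.mem_cons.1 ha with rfl | ha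
    · exact ⟨h.2.1, h.2.2.1⟩
    · exact ih h.2.2.2 a ha

private lemma sqMR : Tendsto (fun n : ℕ => 1 / Real.sqrt (n : ℝ)) atTop (nhds 0) := by
  have h1 : Tendsto (fun n : ℕ => Real.sqrt (n : ℝ)) atTop atTop :=
    Real.tendsto_sqrt_atTop.comp tendsto_natCast_atTop_atTop
  simp only [one_div]
  exact h1.inv_tendsto_atTop

private lemma powMR {x y : ℝ} (hx : 0 < x) (hy : 0 ≤ y) :
    (x * y) ^ (3 / 2 : ℝ) = x * Real.sqrt x * y ^ (3 / 2 : ℝ) := by
  rw [Real.mul_rpow hx.le hy]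
  congr 1
  rw [show (3 / 2 : ℝ) = 1 + 1 / 2 by norm_num, Real.rpow_add hx, Real.rpow_one, Real.sqrt_eq_rpow]

private lemma termMR {l c : ℕ → ℕ} {s h : ℝ} (hs : 0 < s) (hs2 : s < 2)
    (hl : Tendsto (fun n : ℕ => (l n : ℝ) / n) atTop (nhds s)) (hc : Hgt c h) :
    Tendsto (fun n : ℕ => (n : ℝ) * Real.sqrt n * ((1 + (c n : ℝ)) ^ 2 /
      ((((l n + 1 : ℕ) : ℝ) ^ (3 / 2 : ℝ)) * ((2 * n + 1 - l n : ℕ) : ℝ) ^ (3 / 2 : ℝ)))) atTop (nhds 0) := by
  have h1 : Tendsto (fun n : ℕ => 1 / (n : ℝ)) atTop (nhds 0) := tendsto_one_div_atTop_nhds_zero_nat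
  have hE : Tendsto (fun n : ℕ => (1 + (c n : ℝ)) / Real.sqrt n) atTop (nhds h) := by
    rcases hc with ⟨-, hc⟩ | ⟨hh, hc⟩
    · have h2 := sqMR.add hc
      rw [zero_add] at h2
      refine h2.congr fun n => ?_
      rw [add_div]
    · rw [hh]
      refine sqMR.congr fun n => ?_
      rw [hc n]
      simp
  have hA : Tendsto (fun n : ℕ => ((l n + 1 : ℕ) : ℝ) / n) atTop (nhds s) := by
    have h2 := hl.add h1
    rw [add_zero] at h2
    refine h2.congr fun n => ?_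
    push_cast
    rw [add_div]
  have hB : Tendsto (fun n : ℕ => ((2 * n + 1 - l n : ℕ) : ℝ) / n) atTop (nhds (2 - s)) := by
    have h2 := (tendsto_const_nhds (x := (2 : ℝ)) (f := (atTop : Filter ℕ))).add h1
    have h3 := h2.sub hl
    rw [add_zero] at h3
    refine h3.congr' ?_
    have h4 : ∀ᶠ n : ℕ in atTop, (l n : ℝ) / n < 2 := hl.eventually (gt_mem_nhds hs2)
    filter_upwards [h4, eventually_ge_atTop 1] with n hn hn1
    have hn0 : (0 : ℝ) < n := by exact_mod_cast hn1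
    rw [div_lt_iff₀ hn0] at hn
    have h5 : l n ≤ 2 * n + 1 := by
      have : ((l n : ℕ) : ℝ) < ((2 * n : ℕ) : ℝ) := by
        push_cast
        exact hn
      have := Nat.cast_lt.1 this
      omega
    rw [Nat.cast_sub h5]
    push_cast
    field_simp
  have hA2 := hA.rpow_const (p := (3 / 2 : ℝ)) (Or.inl hs.ne')
  have hs3 : 0 < 2 - s := by linarith
  have hB2 := hB.rpow_const (p := (3 / 2 : ℝ)) (Or.inl hs3.ne')
  have hne : s ^ (3 / 2 : ℝ) * (2 - s) ^ (3 / 2 : ℝ) ≠ 0 :=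
    (mul_pos (Real.rpow_pos_of_pos hs _) (Real.rpow_pos_of_pos hs3 _)).ne'
  have h5 := sqMR.mul ((hE.pow 2).div (hA2.mul hB2) hne)
  rw [zero_mul] at h5
  refine h5.congr' ?_
  filter_upwards [eventually_ge_atTop 1] with n hn1
  have hn0 : (0 : ℝ) < n := by exact_mod_cast hn1
  have hx : 0 < Real.sqrt (n : ℝ) := Real.sqrt_pos.2 hn0
  have e1 : ((l n + 1 : ℕ) : ℝ) = n * (((l n + 1 : ℕ) : ℝ) / n) := by field_simp
  have e2 : ((2 * n + 1 - l n : ℕ) : ℝ) = n * (((2 * n + 1 - l n : ℕ) : ℝ) / n) := by field_simp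
  have e3 : (1 + (c n : ℝ)) ^ 2 = ((1 + (c n : ℝ)) / Real.sqrt n) ^ 2 * n := by
    rw [div_pow, Real.sq_sqrt hn0.le]
    field_simp
  have p1 : 0 ≤ ((l n + 1 : ℕ) : ℝ) / n := by positivity
  have p2 : 0 ≤ ((2 * n + 1 - l n : ℕ) : ℝ) / n := by positivity
  have e4 : ((l n + 1 : ℕ) : ℝ) ^ (3 / 2 : ℝ) =
      n * Real.sqrt n * (((l n + 1 : ℕ) : ℝ) / n) ^ (3 / 2 : ℝ) := by
    conv_lhs => rw [e1]
    exact powMR hn0 p1
  have e5 : ((2 * n + 1 - l n : ℕ) : ℝ) ^ (3 / 2 : ℝ) =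
      n * Real.sqrt n * (((2 * n + 1 - l n : ℕ) : ℝ) / n) ^ (3 / 2 : ℝ) := by
    conv_lhs => rw [e2]
    exact powMR hn0 p2
  rw [Pi.div_apply]
  rw [e3, e4, e5]
  generalize (((l n + 1 : ℕ) : ℝ) / n) ^ (3 / 2 : ℝ) = A
  generalize (((2 * n + 1 - l n : ℕ) : ℝ) / n) ^ (3 / 2 : ℝ) = B
  generalize (1 + (c n : ℝ)) / Real.sqrt n = E
  generalize Real.sqrt (n : ℝ) = x at hx ⊢
  by_cases hA0 : A = 0
  · rw [hA0]
    simp
  by_cases hB0 : B = 0
  · rw [hB0]
    simp
  field_simp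

private lemma sumMR {D : List SD} {s : ℝ} (hs : 0 ≤ s) (hD : Gd s D) :
    Tendsto (fun n : ℕ => (n : ℝ) * Real.sqrt n * ((ev D n).map (fun a => (1 + (a.2 : ℝ)) ^ 2 /
      ((((a.1 + 1 : ℕ) : ℝ) ^ (3 / 2 : ℝ)) * ((2 * n + 1 - a.1 : ℕ) : ℝ) ^ (3 / 2 : ℝ)))).sum) atTop (nhds 0) := by
  induction D generalizing s with
  | nil =>
    unfold ev
    simp
  | cons d D ih =>
    have h1 := termMR (hs.trans_lt hD.1) (gd_ltMR hD.2.2.2) hD.2.1 hD.2.2.1
    have h2 := h1.add (ih (hs.trans hD.1.le) hD.2.2.2)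
    rw [add_zero] at h2
    refine h2.congr fun n => ?_
    have e1 : ev (d :: D) n = (d.l n, d.c n) :: ev D n := rfl
    rw [e1, List.map_cons, List.sum_cons, mul_add]

private lemma ev_neMR {D : List SD} (hne : D ≠ []) (n : ℕ) : ev D n ≠ [] := by
  unfold ev
  simpa using hne

section

variable {β₁ β J : ℝ} (h0 : 0 ≤ β₁) (h : β₁ < β) (hm : 0 < mag β₁) (hJ : 1 < J)

include h0 h hm hJ

theorem gso_lim {D : List SD} (hne : D ≠ []) (hD : Gd 0 D) :
    Tendsto (fun n : ℕ => GSo (Real.exp (-β)) (xwl (Real.exp (-β)) (Real.exp (-(β * J))) n (ev D n))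
      (2 * n + 1) ⟨n, by omega⟩ ⟨n, by omega⟩ /
        gsum (Real.exp (-β)) (Real.exp (-(β * J))) n (2 * n + 1) e0 0) atTop
      (nhds (Ml (sg (Real.exp (-β))) (li D) / Ml (sg (Real.exp (-β))) (li (zer D)))) := by
  have hβ : 0 < β := h0.trans_lt h
  have hq := t_small h0 h hm
  have ht : 0 < Real.exp (-β) := Real.exp_pos _
  have htd : 0 < Real.exp (-(β * J)) := Real.exp_pos _
  have htt : Real.exp (-(β * J)) < Real.exp (-β) := by
    rw [Real.exp_lt_exp]
    nlinarith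
  have ht1 : Real.exp (-β) < 1 := by
    rw [Real.exp_lt_one_iff]
    linarith
  have hl0 := lam_pos ht ht1
  have hl1 := lam_lt_one ht hq
  have hsg : 0 < sg (Real.exp (-β)) := by
    unfold sg
    have : lam (Real.exp (-β)) ^ 2 < 1 := by nlinarith
    have : 0 < 1 - lam (Real.exp (-β)) ^ 2 := by linarith
    positivity
  obtain ⟨a, ha⟩ := nrm_exists ht hq htd htt
  have hz := gd_zer hD
  have hzne : zer D ≠ [] := by
    unfold zer
    simpa using hne
  have m1 := mch_lim h0 h hm hJ ha hne hD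
  have m2 := mch_lim h0 h hm hJ ha hzne hz
  have m3 := mch_zero h0 h hm hJ hne hD
  have hpos : 0 < Ml (sg (Real.exp (-β))) (li (zer D)) := by
    refine ml_pos hsg _ ?_ (gd_inc hz) ?_ ?_
    · unfold li
      simpa using hzne
    · intro b hb z hz0
      unfold li zer at hb
      rw [List.map_map, List.mem_map] at hb
      obtain ⟨d, -, rfl⟩ := hb
      simp only [Function.comp]
      unfold chs
      rw [if_neg (not_lt.2 hz0.le)]
    · intro b hb
      unfold li zer at hb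
      rw [List.map_map, List.mem_map] at hb
      obtain ⟨d, -, rfl⟩ := hb
      simp only [Function.comp]
      refine ⟨?_, fun z => ?_⟩
      · unfold chs
        exact Measurable.ite measurableSet_Iio measurable_const measurable_const
      · unfold chs
        split_ifs <;> norm_num
  obtain ⟨C, hC, herr⟩ := main_err h0 h hm hJ D.length
  have hso : ∀ᶠ n : ℕ in atTop, So n 0 (ev D n) := by
    refine gd_so (k := fun _ => 0) hD ?_
    simp
  obtain ⟨⟨c₀, C₀, hc₀, hbd⟩, -⟩ := ha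
  set t : ℝ := Real.exp (-β) with htdef
  set td : ℝ := Real.exp (-(β * J)) with htddef
  set lm : ℝ := lam t with hlm
  -- the difference
  have m4 : Tendsto (fun n : ℕ => Real.sqrt n / (a n * lm ^ (2 * n + 1)) * (2 * n * lm / (a n * t)) *
      (GSo t (xwl t td n (ev D n)) (2 * n + 1) ⟨n, by omega⟩ ⟨n, by omega⟩ -
        Mch t td n (2 * n + 1) (ev D n))) atTop (nhds 0) := by
    have hs := (sumMR le_rfl hD).const_mul (2 * lm * C / (c₀ * c₀ * t))
    rw [mul_zero] at hs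
    refine squeeze_zero_norm' ?_ hs
    filter_upwards [hbd, hso, eventually_ge_atTop 2] with n hn hson hn2
    have e := herr n hn2 (ev D n) hson (ev_neMR hne n) (by
      unfold ev
      rw [List.length_map])
    have ha0 : 0 < a n := hc₀.trans_le hn.1
    have hn0 : (0 : ℝ) < n := by
      have : 0 < n := by omega
      exact_mod_cast this
    have hT : 0 < Real.sqrt n / (a n * lm ^ (2 * n + 1)) * (2 * n * lm / (a n * t)) := by
      have := Real.sqrt_pos.2 hn0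
      positivity
    rw [Real.norm_eq_abs, abs_mul, abs_of_pos hT]
    refine (mul_le_mul_of_nonneg_left e hT.le).trans ?_
    have hS : 0 ≤ ((ev D n).map (fun a => (1 + (a.2 : ℝ)) ^ 2 /
      ((((a.1 + 1 : ℕ) : ℝ) ^ (3 / 2 : ℝ)) * ((2 * n + 1 - a.1 : ℕ) : ℝ) ^ (3 / 2 : ℝ)))).sum := by
      refine List.sum_nonneg fun x hx => ?_
      rw [List.mem_map] at hx
      obtain ⟨b, -, rfl⟩ := hx
      positivity
    generalize ((ev D n).map (fun a => (1 + (a.2 : ℝ)) ^ 2 /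
      ((((a.1 + 1 : ℕ) : ℝ) ^ (3 / 2 : ℝ)) * ((2 * n + 1 - a.1 : ℕ) : ℝ) ^ (3 / 2 : ℝ)))).sum = S at hS ⊢
    have e1 : Real.sqrt n / (a n * lm ^ (2 * n + 1)) * (2 * n * lm / (a n * t)) * (C * lm ^ (2 * n + 1) * S) =
        2 * lm * C / (a n * a n * t) * (n * Real.sqrt n * S) := by
      field_simp
    rw [e1]
    have h6 : 0 ≤ (n : ℝ) * Real.sqrt n * S := by positivity
    refine mul_le_mul_of_nonneg_right ?_ h6
    refine div_le_div_of_nonneg_left (by positivity) (by positivity) ?_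
    exact mul_le_mul_of_nonneg_right (mul_le_mul hn.1 hn.1 hc₀.le ha0.le) ht.le
  have m5 := m1.add m4
  rw [add_zero] at m5
  have m6 := m5.div m2 hpos.ne'
  refine m6.congr' ?_
  filter_upwards [hbd, m3, eventually_ge_atTop 2] with n hn hz3 hn2
  have ha0 : 0 < a n := hc₀.trans_le hn.1
  have hn0 : (0 : ℝ) < n := by
    have : 0 < n := by omega
    exact_mod_cast this
  have hT : Real.sqrt n / (a n * lm ^ (2 * n + 1)) * (2 * n * lm / (a n * t)) ≠ 0 := by
    have := Real.sqrt_pos.2 hn0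
    positivity
  rw [Pi.div_apply]
  rw [hz3, ← mul_add, add_sub_cancel, mul_div_mul_left _ _ hT]

theorem ratio_lim {D : List SD} (hne : D ≠ []) (hD : Gd 0 D) :
    Tendsto (fun n : ℕ => avg β (kap J) (box n n) (eta 0) (psl n (ev D n)) /
      avg β (kap J) (box n n) tt (psl n (ev D n))) atTop
      (nhds (Ml (sg (Real.exp (-β))) (li D) / Ml (sg (Real.exp (-β))) (li (zer D)))) := by
  have hβ : 0 < β := h0.trans_lt h
  have hq := t_small h0 h hm
  have ht : 0 < Real.exp (-β) := Real.exp_pos _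
  have htd : 0 < Real.exp (-(β * J)) := Real.exp_pos _
  have htt : Real.exp (-(β * J)) < Real.exp (-β) := by
    rw [Real.exp_lt_exp]
    nlinarith
  have ht1 : Real.exp (-β) < 1 := by
    rw [Real.exp_lt_one_iff]
    linarith
  have hl0 := lam_pos ht ht1
  obtain ⟨c, n₀, hc, hg⟩ := gam_low ht hq htd htt
  have hso : ∀ᶠ n : ℕ in atTop, So n 0 (ev D n) := by
    refine gd_so (k := fun _ => 0) hD ?_
    simp
  refine (gso_lim h0 h hm hJ hne hD).congr' ?_
  filter_upwards [hso, eventually_ge_atTop 2, eventually_ge_atTop n₀] with n hson hn2 hnn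
  have h1 := tt_low h0 h hm hJ hn2 hson
  have h2 : 0 < avg β (kap J) (box n n) tt (psl n (ev D n)) := (pow_pos h1.2.1 _).trans_le h1.1
  have h3 : 0 < gsum (Real.exp (-β)) (Real.exp (-(β * J))) n (2 * n + 1) e0 0 :=
    lt_of_lt_of_le (by positivity) (hg n hnn)
  have h4 := main_id (by omega : 1 ≤ n) hβ (by linarith : (0 : ℝ) < J) (ev D n) (so_memMR hson) h2.ne'
  rw [div_eq_div_iff h3.ne' h2.ne', mul_comm, ← h4]

end

end Pool.Agent.Helper49.RD
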