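import Pool.Agent.Helper49.RD.Pos

/-!
Block RD-F2: all thresholds negative; mixed thresholds.

`NotA n r ω`: for all strings `(l, c)` of `r` with `c ≥ 1` the interface does not reach the height `-c` in the column `l - n`: `¬ Above n (l - n) (-c) ω`. `E D = Ml g (lin D)/Ml g (one D)`.

Paper proofs.
* `not_above_lim`: `¬ Above n x (-c)` implies `Beneath n x (c + 1)` (there is an interface bond in every column `|x| ≤ n`: `gg (x, -n) = 1`, `gg_above` with `c = -n`), and `Beneath n x (c + L)` without `Wide L` implies `¬ Above n x (-c)`. (`Beneath n x K`: an interface bond at a height `≤ -K`.) The event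
  the event (`Beneath n x c'` for all strings) has the probability of the event (`Above n x c'` for all strings) (`reflect`, `DX/Exc.lean`, with the family consisting of one finite set `{(x, c')}`; `Hts`). So the limit is that of `above_lim` for the strings `(l, c + 1)` resp. `(l, c + L n)`, `L n` as in RD-F1, which have the same limits.
* `below_lim`: for `Gd 0 (pre ++ suf)`, `pre ++ suf ≠ []`, all `d.h > 0` in `suf`, let `F n = P (NotA (ev pre n) ∧ ∀ (l, c) ∈ ev suf n, Above n (l - n) (-c))`. Claim: `F n → 1/2 * κ + 1/2 * Ml g (lin pre ++ lib suf)/Ml g (one (pre ++ suf))`, `κ = 1` if no `d` of `pre` has `0 < d.h`, else `κ = 0`.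
  Induction on `suf` for all `pre`. `suf = []`: if `κ = 0`: `not_above_lim`; if `κ = 1` (all `c = 0`) there is no condition, the probability is `1`, and `Ml g (lin pre) = Ml g (one pre)` (`ind 0 = 1` on `(0, ∞)`), positive (`ml_pos`).
  `suf = d :: suf'`: `P (X ∧ Above) = P (X) - P (X ∧ ¬ Above)` (for large `n`, `c n ≥ 1`): `F` for `(pre, suf)` is `F` for `(pre ++ [d₀], suf')` minus `F` for `(pre ++ [d], suf')`, `d₀ = ⟨d.l, 0, d.s, 0⟩`; `ml_split` with `φ = ind 0`, `ψ = ind h`, `α = 1`, `γ = -1` (`1 - ind h`). Take `pre = []`.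
* `mixed_eq`: (deterministic up to small events) if `D` has a `d` with `0 < d.h`: the event `AllA n (ev D n)` and the condition `Above n x (-c)` for further strings: `P (AllA ∧ ¬ (∀ further: Above n x (-c))) → 0`: without `Wide (L n)` and without contact `(y, 0)`, `|y| ≤ n - R`: `Above n x c` with `c > L` implies `gg (x, 1) = 1`
  (`above_gg`), so `gg (x', 1) = 1` for all `|x'| ≤ n - R` (as in `not_mixed`), and `Above n x' 1` (`gg_above`).
-/

open Finset Filter
open scoped Classical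

namespace Pool.Agent.Helper49.RD

open Pool.Agent.Helper49.DL Pool.Agent.Helper49.DX

/-- Multipliers for the complements. -/
noncomputable def lib (D : List SD) : List (ℝ × (ℝ → ℝ)) := D.map (fun d => (d.s, fun z => 1 - ind d.h z))

/-- The interface does not reach the heights `-c`. -/
def NotA (n : ℕ) (r : List (ℕ × ℕ)) (ω : Cfg) : Prop :=
  ∀ a ∈ r, a.2 ≠ 0 → ¬ Above n ((a.1 : ℤ) - n) (-(a.2 : ℤ)) ω

private lemma pj_le69 {β J : ℝ} {n : ℤ} {E F : Cfg → Prop}
    (h : ∀ ω ∈ confs (box n n) (eta 0), E ω → F ω) : PJ β J n E ≤ PJ β J n F := by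
  unfold PJ
  refine avg_mono fun ω hω => ?_
  by_cases hE : E ω
  · rw [if_pos hE, if_pos (h ω hω hE)]
  · rw [if_neg hE]
    split_ifs <;> norm_num

private lemma pj_or69 {β J : ℝ} {n : ℤ} {E F G : Cfg → Prop}
    (h : ∀ ω ∈ confs (box n n) (eta 0), E ω → F ω ∨ G ω) :
    PJ β J n E ≤ PJ β J n F + PJ β J n G := by
  unfold PJ
  rw [← avg_add]
  refine avg_mono fun ω hω => ?_
  by_cases hE : E ω
  · rw [if_pos hE]
    rcases h ω hω hE with h1 | h1
    · rw [if_pos h1]
      split_ifs <;> norm_num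
    · rw [if_pos h1]
      split_ifs <;> norm_num
  · rw [if_neg hE]
    split_ifs <;> norm_num

private lemma pj_nn69 {β J : ℝ} {n : ℤ} {E : Cfg → Prop} : 0 ≤ PJ β J n E := by
  unfold PJ
  refine avg_nonneg fun ω _ => ?_
  split_ifs <;> norm_num

private lemma pj_congr69 {β J : ℝ} {n : ℤ} {E F : Cfg → Prop} (h : ∀ ω, E ω ↔ F ω) :
    PJ β J n E = PJ β J n F := by
  have : E = F := by
    funext ω
    exact propext (h ω)
  rw [this]

private lemma pj_sub69 {β J : ℝ} {n : ℤ} (X A : Cfg → Prop) :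
    PJ β J n (fun ω => X ω ∧ A ω) = PJ β J n X - PJ β J n (fun ω => X ω ∧ ¬ A ω) := by
  unfold PJ
  rw [← avg_sub]
  refine avg_congr fun ω _ => ?_
  by_cases hX : X ω <;> by_cases hA : A ω <;> simp [hX, hA]

private lemma pj_true69 {β J : ℝ} {n : ℤ} {E : Cfg → Prop} (h : ∀ ω, E ω) : PJ β J n E = 1 := by
  have h1 : PJ β J n E = avg β (kap J) (box n n) (eta 0) (fun _ => 1) := by
    unfold PJ
    exact avg_congr fun ω _ => if_pos (h ω)
  rw [h1]
  exact avg_const 1

/-- Width of the interface. -/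
private noncomputable def wl69 (C : ℝ) (n : ℕ) : ℕ := ⌈C * Real.log n⌉₊ + 1

private lemma wl_small69 {C : ℝ} (hC : 0 < C) :
    Tendsto (fun n : ℕ => (wl69 C n : ℝ) / Real.sqrt n) atTop (nhds 0) := by
  have h1 : Tendsto (fun x : ℝ => Real.log x / Real.sqrt x) atTop (nhds 0) := by
    have := (isLittleO_log_rpow_atTop (r := 1 / 2) (by norm_num)).tendsto_div_nhds_zero
    simpa only [Real.sqrt_eq_rpow] using this
  have h2 : Tendsto (fun n : ℕ => Real.log n / Real.sqrt n) atTop (nhds 0) :=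
    h1.comp tendsto_natCast_atTop_atTop
  have h3 : Tendsto (fun n : ℕ => 2 / Real.sqrt n) atTop (nhds 0) :=
    Tendsto.div_atTop tendsto_const_nhds (Real.tendsto_sqrt_atTop.comp tendsto_natCast_atTop_atTop)
  have h4 : Tendsto (fun n : ℕ => C * (Real.log n / Real.sqrt n) + 2 / Real.sqrt n) atTop (nhds 0) := by
    simpa using (h2.const_mul C).add h3
  refine squeeze_zero (fun n => by positivity) (fun n => ?_) h4
  have h5 : (wl69 C n : ℝ) ≤ C * Real.log n + 2 := by
    unfold wl69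
    push_cast
    have := Nat.ceil_lt_add_one (a := C * Real.log n) (mul_nonneg hC.le (Real.log_natCast_nonneg n))
    linarith
  calc (wl69 C n : ℝ) / Real.sqrt n ≤ (C * Real.log n + 2) / Real.sqrt n :=
        div_le_div_of_nonneg_right h5 (Real.sqrt_nonneg _)
    _ = C * (Real.log n / Real.sqrt n) + 2 / Real.sqrt n := by ring

private lemma wide69 {β₁ β J : ℝ} (h0 : 0 ≤ β₁) (h : β₁ < β) (hm : 0 < mag β₁) (hJ : 1 < J) :
    ∃ C : ℝ, 0 < C ∧
      Tendsto (fun n : ℕ => PJ β J n (fun ω => Wide n ω (wl69 C n))) atTop (nhds 0) := by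
  obtain ⟨C, hC, hw⟩ := width h0 h hm hJ.le
  refine ⟨C, hC, ?_⟩
  rw [Metric.tendsto_atTop]
  intro ε hε
  obtain ⟨n₀, hn⟩ := hw (ε / 2) (by positivity)
  refine ⟨n₀.toNat, fun n hn' => ?_⟩
  have h1 := hn n (by omega) (wl69 C n) (by
    unfold wl69
    push_cast
    have := Nat.le_ceil (C * Real.log n)
    linarith) (by
    unfold wl69
    push_cast
    omega)
  rw [Real.dist_eq, sub_zero, abs_of_nonneg pj_nn69]
  exact lt_of_le_of_lt h1 (by linarith)

/-- Raise the positive half heights. -/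
private def sh69 (k : ℕ → ℕ) (D : List SD) : List SD :=
  D.map (fun d => ⟨d.l, fun n => if d.c n = 0 then 0 else d.c n + k n, d.s, d.h⟩)

private lemma lin_sh69 (k : ℕ → ℕ) (D : List SD) : lin (sh69 k D) = lin D := by
  simp [lin, sh69]

private lemma one_sh69 (k : ℕ → ℕ) (D : List SD) : one (sh69 k D) = one D := by
  simp [one, sh69]

private lemma hgt_sh69 {k : ℕ → ℕ} (hk : Tendsto (fun n : ℕ => (k n : ℝ) / Real.sqrt n) atTop (nhds 0))
    {c : ℕ → ℕ} {h : ℝ} (hc : Hgt c h) : Hgt (fun n => if c n = 0 then 0 else c n + k n) h := by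
  rcases hc with ⟨h1, h2⟩ | ⟨h1, h2⟩
  · left
    refine ⟨h1, ?_⟩
    have h3 := h2.add hk
    rw [add_zero] at h3
    refine h3.congr' ?_
    filter_upwards [h2.eventually (lt_mem_nhds h1)] with n hn
    have h4 : c n ≠ 0 := by
      intro h0
      rw [h0] at hn
      simp at hn
    rw [if_neg h4]
    push_cast
    ring
  · right
    exact ⟨h1, fun n => by simp [h2 n]⟩

private lemma gd_sh69 {k : ℕ → ℕ} (hk : Tendsto (fun n : ℕ => (k n : ℝ) / Real.sqrt n) atTop (nhds 0)) :
    ∀ {D : List SD} {s : ℝ}, Gd s D → Gd s (sh69 k D)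
  | [], _, h => h
  | _ :: _, _, ⟨h1, h2, h3, h4⟩ => ⟨h1, h2, hgt_sh69 hk h3, gd_sh69 hk h4⟩

private lemma pos_sh69 {k : ℕ → ℕ} {D : List SD} (hp : ∃ d ∈ D, 0 < d.h) : ∃ d ∈ sh69 k D, 0 < d.h := by
  obtain ⟨d, hd, h⟩ := hp
  exact ⟨_, List.mem_map_of_mem hd, h⟩

private lemma gd_lt69 : ∀ {D : List SD} {s : ℝ}, Gd s D → s < 2
  | [], _, h => h
  | _ :: _, _, ⟨h1, _, _, h4⟩ => h1.trans (gd_lt69 h4)

private lemma gd_mem69 : ∀ {D : List SD} {s : ℝ}, Gd s D → ∀ d ∈ D,
    s < d.s ∧ d.s < 2 ∧ Tendsto (fun n : ℕ => (d.l n : ℝ) / n) atTop (nhds d.s) ∧ Hgt d.c d.h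
  | [], _, _, _, hd => by simp at hd
  | e :: D, s, ⟨h1, h2, h3, h4⟩, d, hd => by
    rcases List.mem_cons.1 hd with rfl | hd
    · exact ⟨h1, gd_lt69 h4, h2, h3⟩
    · obtain ⟨a1, a2, a3, a4⟩ := gd_mem69 h4 d hd
      exact ⟨h1.trans a1, a2, a3, a4⟩

/-- The interface reaches below the heights `-c`. -/
private def Bel69 (n : ℕ) (r : List (ℕ × ℕ)) (ω : Cfg) : Prop :=
  ∀ a ∈ r, a.2 ≠ 0 → Beneath n ((a.1 : ℤ) - n) a.2 ω

private lemma refl69 {n : ℕ} (hn : 1 ≤ n) (β J : ℝ) (r : List (ℕ × ℕ)) :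
    PJ β J n (Bel69 n r) = PJ β J n (AllA n r) := by
  set S : Finset (ℤ × ℤ) := (((r.filter (fun a => a.2 ≠ 0)).map
    (fun a => ((a.1 : ℤ) - n, (a.2 : ℤ)))).toFinset) with hS
  have h1 := reflect (n := n) (by exact_mod_cast hn) β J {S}
  have hmem : ∀ p : ℤ × ℤ, p ∈ S ↔ ∃ a ∈ r, a.2 ≠ 0 ∧ ((a.1 : ℤ) - n, (a.2 : ℤ)) = p := by
    intro p
    rw [hS, List.mem_toFinset, List.mem_map]
    simp only [List.mem_filter, decide_eq_true_eq, and_assoc]
  have e1 : ∀ ω, Bel69 n r ω ↔ ∃ W ∈ ({S} : Finset (Finset (ℤ × ℤ))), ∀ p ∈ W, Beneath n p.1 p.2 ω := by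
    intro ω
    simp only [Finset.mem_singleton, exists_eq_left]
    constructor
    · intro h p hp
      obtain ⟨a, ha, ha0, rfl⟩ := (hmem p).1 hp
      exact h a ha ha0
    · intro h a ha ha0
      exact h _ ((hmem _).2 ⟨a, ha, ha0, rfl⟩)
  have e2 : ∀ ω, AllA n r ω ↔ Hts n {S} ω := by
    intro ω
    unfold Hts
    simp only [Finset.mem_singleton, exists_eq_left]
    constructor
    · intro h p hp
      obtain ⟨a, ha, ha0, rfl⟩ := (hmem p).1 hp
      exact h a ha ha0
    · intro h a ha ha0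
      exact h _ ((hmem _).2 ⟨a, ha, ha0, rfl⟩)
  rw [pj_congr69 e1, pj_congr69 e2]
  exact h1

private lemma bel_of_not69 {n : ℕ} (hn : 1 ≤ n) {D : List SD} {ω : Cfg}
    (hω : ω ∈ confs (box n n) (eta 0)) (hA : NotA n (ev D n) ω) :
    Bel69 n (ev (sh69 (fun _ => 1) D) n) ω := by
  intro a ha ha0
  unfold ev sh69 at ha
  rw [List.map_map] at ha
  obtain ⟨d, hd, rfl⟩ := List.mem_map.1 ha
  simp only [Function.comp_apply] at ha0 ⊢
  have hc : d.c n ≠ 0 := fun h => ha0 (by rw [if_pos h])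
  rw [if_neg hc]
  have h1 : ¬ Above n ((d.l n : ℤ) - n) (-(d.c n : ℤ)) ω :=
    hA (d.l n, d.c n) (List.mem_map_of_mem hd) hc
  have h2 : gg n n ω ((d.l n : ℤ) - n, -(n : ℤ)) = 1 :=
    gg_low hω (by omega) (by omega) (by rw [mem_box]; simp only; omega) (by simp only; omega)
  obtain ⟨y, _, hI⟩ := gg_above h2
  refine ⟨y, ?_, hI⟩
  by_contra hy
  exact h1 ⟨y, by push_cast at hy; omega, hI⟩

private lemma not_of_bel69 {n : ℕ} {k : ℕ → ℕ} {D : List SD} {ω : Cfg}
    (hB : Bel69 n (ev (sh69 k D) n) ω) (hW : ¬ Wide n ω (k n)) : NotA n (ev D n) ω := by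
  intro a ha ha0 hA
  obtain ⟨d, hd, rfl⟩ := List.mem_map.1 ha
  simp only at ha0 hA
  have hmem : (d.l n, d.c n + k n) ∈ ev (sh69 k D) n := by
    unfold ev sh69
    rw [List.map_map]
    refine List.mem_map.2 ⟨d, hd, ?_⟩
    simp only [Function.comp_apply]
    rw [if_neg ha0]
  obtain ⟨y', hy', hI'⟩ := hB _ hmem (by simp only; omega)
  obtain ⟨y, hy, hI⟩ := hA
  refine hW ⟨_, _, hI', hI, rfl, ?_⟩
  simp only at hy' ⊢
  push_cast at hy'
  omega

private lemma gg_same69 {N M K : ℤ} {ω : Cfg} (hω : ω ∈ confs (box N M) (eta 0)) (hM : 0 ≤ M)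
    (hno : ∀ y : ℤ, |y| ≤ K → ¬ On N ω (y, 0)) : ∀ (k : ℕ) (x : ℤ), -K ≤ x → x + k ≤ K →
      gg N M ω (x, 1) = gg N M ω (x + k, 1) := by
  intro k
  induction k with
  | zero => intro x _ _; simp
  | succ k ih =>
    intro x h1 h2
    push_cast at h2
    rw [ih x h1 (by omega)]
    have h3 := gg_hor hω hM (x + k) 1
    have h4 : ig N ω ((x + k, 1), true) = 0 := by
      unfold ig
      rw [if_neg]
      intro hI
      refine hno (x + k) (abs_le.2 ⟨by omega, by omega⟩) ⟨_, ?_, hI⟩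
      right; right; right
      simp [e2]
    rw [h4] at h3
    have h5 : ∀ a b : ZMod 2, a + b = 0 → a = b := by decide
    rw [h5 _ _ h3]
    push_cast
    rw [add_assoc]

private lemma gg_all69 {N M K : ℤ} {ω : Cfg} (hω : ω ∈ confs (box N M) (eta 0)) (hM : 0 ≤ M)
    (hno : ∀ y : ℤ, |y| ≤ K → ¬ On N ω (y, 0)) {x x' : ℤ} (hx : |x| ≤ K) (hx' : |x'| ≤ K) :
    gg N M ω (x, 1) = gg N M ω (x', 1) := by
  rw [abs_le] at hx hx'
  rcases le_total x x' with h | h
  · have := gg_same69 hω hM hno (x' - x).toNat x hx.1 (by omega)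
    rw [this]
    congr 2
    omega
  · have := gg_same69 hω hM hno (x - x').toNat x' hx'.1 (by omega)
    rw [this]
    congr 2
    omega

private lemma inc_map69 : ∀ (r r' : List (ℝ × (ℝ → ℝ))) (s : ℝ),
    r.map Prod.fst = r'.map Prod.fst → Inc s r → Inc s r'
  | [], [], _, _, h => h
  | [], _ :: _, _, he, _ => by simp at he
  | _ :: _, [], _, he, _ => by simp at he
  | a :: r, b :: r', s, he, ⟨h1, h2⟩ => by
    simp only [List.map_cons, List.cons.injEq] at he
    refine ⟨he.1 ▸ h1, ?_⟩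
    rw [← he.1]
    exact inc_map69 r r' _ he.2 h2

private lemma ind_ok69 (h : ℝ) : Measurable (ind h) ∧ ∀ z, |ind h z| ≤ 1 := by
  constructor
  · unfold ind
    exact Measurable.ite measurableSet_Ici measurable_const measurable_const
  · intro z
    unfold ind
    split_ifs <;> norm_num

private lemma lin_ok69 (D : List SD) : ∀ a ∈ lin D, Measurable a.2 ∧ ∀ z, |a.2 z| ≤ 1 := by
  intro a ha
  obtain ⟨d, _, rfl⟩ := List.mem_map.1 ha
  exact ind_ok69 d.h

private lemma lib_ok69 (D : List SD) : ∀ a ∈ lib D, Measurable a.2 ∧ ∀ z, |a.2 z| ≤ 1 := by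
  intro a ha
  obtain ⟨d, _, rfl⟩ := List.mem_map.1 ha
  refine ⟨measurable_const.sub (ind_ok69 d.h).1, fun z => ?_⟩
  simp only
  unfold ind
  split_ifs <;> norm_num

private lemma sg_pos69 {β₁ β : ℝ} (h0 : 0 ≤ β₁) (h : β₁ < β) (hm : 0 < mag β₁) : 0 < sg (Real.exp (-β)) := by
  have hq := t_small h0 h hm
  have h1 := lam_pos (Real.exp_pos (-β)) (t_lt_one (Real.exp_pos _) hq)
  have h2 := lam_lt_one (Real.exp_pos (-β)) hq
  unfold sg
  refine div_pos (by positivity) ?_
  nlinarith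

private lemma bl_zero69 (g : ℝ) : ∀ (D : List SD), (∀ d ∈ D, d.h = 0) → ∀ s,
    Bl g s (lin D) = Bl g s (one D)
  | [], _, _ => rfl
  | d :: D, hD, s => by
    have ih := bl_zero69 g D (fun e he => hD e (List.mem_cons_of_mem _ he)) d.s
    have hd : d.h = 0 := hD d List.mem_cons_self
    funext y
    show Tv (g * (d.s - s)) (fun z => ind d.h z * Bl g d.s (lin D) z) y =
      Tv (g * (d.s - s)) (fun z => 1 * Bl g d.s (one D) z) y
    unfold Tv
    refine MeasureTheory.setIntegral_congr_fun measurableSet_Ioi fun z hz => ?_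
    simp only
    rw [ih, hd]
    unfold ind
    rw [if_pos (le_of_lt hz)]

private lemma ml_zero69 (g : ℝ) : ∀ (D : List SD), (∀ d ∈ D, d.h = 0) → Ml g (lin D) = Ml g (one D)
  | [], _ => rfl
  | d :: D, hD => by
    have ih := bl_zero69 g D (fun e he => hD e (List.mem_cons_of_mem _ he)) d.s
    have hd : d.h = 0 := hD d List.mem_cons_self
    show La (g * d.s) (fun z => ind d.h z * Bl g d.s (lin D) z) =
      La (g * d.s) (fun z => 1 * Bl g d.s (one D) z)
    unfold La
    refine MeasureTheory.setIntegral_congr_fun measurableSet_Ioi fun z hz => ?_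
    simp only
    rw [ih, hd]
    unfold ind
    rw [if_pos (le_of_lt hz)]

private lemma gd_rep69 {d : SD} {suf : List SD} : ∀ {pre : List SD} {s : ℝ}, Gd s (pre ++ d :: suf) →
    Gd s (pre ++ (⟨d.l, fun _ => 0, d.s, 0⟩ : SD) :: suf)
  | [], _, ⟨h1, h2, _, h4⟩ => ⟨h1, h2, Or.inr ⟨rfl, fun _ => rfl⟩, h4⟩
  | _ :: _, _, ⟨h1, h2, h3, h4⟩ => ⟨h1, h2, h3, gd_rep69 h4⟩

private noncomputable def kp69 (D : List SD) : ℝ := if ∃ d ∈ D, 0 < d.h then 0 else 1

section

variable {β₁ β J : ℝ} (h0 : 0 ≤ β₁) (h : β₁ < β) (hm : 0 < mag β₁) (hJ : 1 < J)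

include h0 h hm hJ

theorem not_above_lim {D : List SD} (hD : Gd 0 D) (hp : ∃ d ∈ D, 0 < d.h) :
    Tendsto (fun n : ℕ => PJ β J n (NotA n (ev D n))) atTop
      (nhds (1 / 2 * (Ml (sg (Real.exp (-β))) (lin D) / Ml (sg (Real.exp (-β))) (one D)))) := by
  obtain ⟨C, hC, hW⟩ := wide69 h0 h hm hJ
  have hk1 : Tendsto (fun n : ℕ => (((fun _ => 1 : ℕ → ℕ) n : ℕ) : ℝ) / Real.sqrt n) atTop (nhds 0) := by
    simp only [Nat.cast_one]
    exact Tendsto.div_atTop tendsto_const_nhds
      (Real.tendsto_sqrt_atTop.comp tendsto_natCast_atTop_atTop)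
  have u1 := above_lim h0 h hm hJ (gd_sh69 hk1 hD) (pos_sh69 hp)
  have u2 := above_lim h0 h hm hJ (gd_sh69 (wl_small69 hC) hD) (pos_sh69 hp)
  rw [lin_sh69, one_sh69] at u1 u2
  have u3 := u2.sub hW
  rw [sub_zero] at u3
  refine tendsto_of_tendsto_of_tendsto_of_le_of_le' u3 u1 ?_ ?_
  · filter_upwards [eventually_ge_atTop 1] with n hn
    rw [← refl69 hn]
    have := pj_or69 (β := β) (J := J) (n := n) (E := Bel69 n (ev (sh69 (wl69 C) D) n))
      (F := NotA n (ev D n)) (G := fun ω => Wide n ω (wl69 C n)) (fun ω _ hB => by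
        by_cases hw : Wide n ω (wl69 C n)
        · exact Or.inr hw
        · exact Or.inl (not_of_bel69 hB hw))
    linarith
  · filter_upwards [eventually_ge_atTop 1] with n hn
    rw [← refl69 hn]
    exact pj_le69 fun ω hω hA => bel_of_not69 hn hω hA

private lemma below69 : ∀ (suf pre : List SD), pre ++ suf ≠ [] → Gd 0 (pre ++ suf) →
    (∀ d ∈ suf, 0 < d.h) →
    Tendsto (fun n : ℕ => PJ β J n (fun ω => NotA n (ev pre n) ω ∧
        ∀ a ∈ ev suf n, Above n ((a.1 : ℤ) - n) (-(a.2 : ℤ)) ω)) atTop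
      (nhds (1 / 2 * kp69 pre + 1 / 2 * (Ml (sg (Real.exp (-β))) (lin pre ++ lib suf) /
        Ml (sg (Real.exp (-β))) (one (pre ++ suf))))) := by
  intro suf
  induction suf with
  | nil =>
    intro pre hne hD _
    rw [List.append_nil] at hne hD ⊢
    have hlib : lib [] = [] := rfl
    rw [hlib, List.append_nil]
    have e1 : ∀ n : ℕ, PJ β J n (fun ω => NotA n (ev pre n) ω ∧
        ∀ a ∈ ev [] n, Above n ((a.1 : ℤ) - n) (-(a.2 : ℤ)) ω) = PJ β J n (NotA n (ev pre n)) := by
      intro n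
      refine pj_congr69 fun ω => ?_
      constructor
      · exact fun h => h.1
      · exact fun h => ⟨h, fun a ha => by simp [ev] at ha⟩
    simp only [e1]
    by_cases hp : ∃ d ∈ pre, 0 < d.h
    · have hk : kp69 pre = 0 := by unfold kp69; rw [if_pos hp]
      rw [hk, mul_zero, zero_add]
      exact not_above_lim h0 h hm hJ hD hp
    · have hk : kp69 pre = 1 := by unfold kp69; rw [if_neg hp]
      have hz : ∀ d ∈ pre, d.h = 0 ∧ ∀ n, d.c n = 0 := by
        intro d hd
        obtain ⟨_, _, _, h4⟩ := gd_mem69 hD d hd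
        rcases h4 with ⟨h5, _⟩ | h5
        · exact absurd ⟨d, hd, h5⟩ hp
        · exact h5
      rw [hk, ml_zero69 _ pre (fun d hd => (hz d hd).1)]
      have hpos : 0 < Ml (sg (Real.exp (-β))) (one pre) := by
        refine ml_pos (sg_pos69 h0 h hm) _ ?_ ?_ ?_ ?_
        · simpa [one] using hne
        · refine inc_map69 _ _ _ ?_ (gd_inc hD)
          simp [one, li]
        · intro a ha z _
          obtain ⟨d, _, rfl⟩ := List.mem_map.1 ha
          rfl
        · intro a ha
          obtain ⟨d, _, rfl⟩ := List.mem_map.1 ha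
          exact ⟨measurable_const, fun z => by norm_num⟩
      rw [div_self hpos.ne']
      have e2 : ∀ n : ℕ, PJ β J n (NotA n (ev pre n)) = 1 := by
        intro n
        refine pj_true69 fun ω a ha ha0 => ?_
        obtain ⟨d, hd, rfl⟩ := List.mem_map.1 ha
        exact absurd ((hz d hd).2 n) ha0
      simp only [e2]
      norm_num
  | cons d suf ih =>
    intro pre _ hD hs
    have hdpos : 0 < d.h := hs d List.mem_cons_self
    have hs' : ∀ e ∈ suf, 0 < e.h := fun e he => hs e (List.mem_cons_of_mem _ he)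
    set d₀ : SD := ⟨d.l, fun _ => 0, d.s, 0⟩ with hd₀
    have hD0 : Gd 0 (pre ++ d₀ :: suf) := gd_rep69 hD
    have a1 := ih (pre ++ [d₀]) (by simp) (by rw [List.append_assoc]; exact hD0) hs'
    have a2 := ih (pre ++ [d]) (by simp) (by rw [List.append_assoc]; exact hD) hs'
    have a3 := a1.sub a2
    have k1 : kp69 (pre ++ [d₀]) = kp69 pre := by
      unfold kp69
      have : (∃ e ∈ pre ++ [d₀], 0 < e.h) ↔ ∃ e ∈ pre, 0 < e.h := by
        constructor
        · rintro ⟨e, he, h1⟩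
          rcases List.mem_append.1 he with he | he
          · exact ⟨e, he, h1⟩
          · rw [List.mem_singleton] at he
            rw [he, hd₀] at h1
            exact absurd h1 (lt_irrefl _)
        · rintro ⟨e, he, h1⟩
          exact ⟨e, List.mem_append_left _ he, h1⟩
      by_cases hc : ∃ e ∈ pre, 0 < e.h
      · rw [if_pos hc, if_pos (this.2 hc)]
      · rw [if_neg hc, if_neg (fun h => hc (this.1 h))]
    have k2 : kp69 (pre ++ [d]) = 0 := by
      unfold kp69
      rw [if_pos ⟨d, by simp, hdpos⟩]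
    have l1 : lin (pre ++ [d₀]) ++ lib suf = lin pre ++ (d.s, ind 0) :: lib suf := by
      simp [lin, hd₀]
    have l2 : lin (pre ++ [d]) ++ lib suf = lin pre ++ (d.s, ind d.h) :: lib suf := by
      simp [lin]
    have l3 : lin pre ++ lib (d :: suf) = lin pre ++ (d.s, fun z => 1 - ind d.h z) :: lib suf := by
      simp [lib]
    have o1 : one ((pre ++ [d₀]) ++ suf) = one (pre ++ d :: suf) := by
      simp [one, hd₀]
    have o2 : one ((pre ++ [d]) ++ suf) = one (pre ++ d :: suf) := by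
      simp [one]
    have hsp := ml_split (sg_pos69 h0 h hm) (lin pre) (lib suf) d.s (ind 0) (ind d.h)
      (fun z => 1 - ind d.h z) 1 (-1) (by
        refine inc_map69 _ _ _ ?_ (gd_inc hD)
        simp only [li, lin, lib, List.map_append, List.map_cons, List.map_map]
        rfl) (lin_ok69 pre) (lib_ok69 suf) (ind_ok69 0) (ind_ok69 d.h) (by
        intro z hz
        have : ind 0 z = 1 := by unfold ind; rw [if_pos hz.le]
        rw [this]
        ring)
    rw [k1, k2, l1, l2, o1, o2] at a3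
    rw [l3, hsp]
    have e3 : 1 / 2 * kp69 pre + 1 / 2 * (Ml (sg (Real.exp (-β))) (lin pre ++ (d.s, ind 0) :: lib suf) /
          Ml (sg (Real.exp (-β))) (one (pre ++ d :: suf))) -
        (1 / 2 * 0 + 1 / 2 * (Ml (sg (Real.exp (-β))) (lin pre ++ (d.s, ind d.h) :: lib suf) /
          Ml (sg (Real.exp (-β))) (one (pre ++ d :: suf)))) =
        1 / 2 * kp69 pre + 1 / 2 * ((1 * Ml (sg (Real.exp (-β))) (lin pre ++ (d.s, ind 0) :: lib suf) +
          -1 * Ml (sg (Real.exp (-β))) (lin pre ++ (d.s, ind d.h) :: lib suf)) /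
          Ml (sg (Real.exp (-β))) (one (pre ++ d :: suf))) := by
      ring
    rw [e3] at a3
    refine a3.congr' ?_
    obtain ⟨_, _, _, hg⟩ := gd_mem69 hD d (by simp)
    have hc : ∀ᶠ n : ℕ in atTop, d.c n ≠ 0 := by
      rcases hg with ⟨_, h2⟩ | ⟨h1, _⟩
      · filter_upwards [h2.eventually (lt_mem_nhds hdpos)] with n hn hc0
        rw [hc0] at hn
        simp at hn
      · exact absurd h1 hdpos.ne'
    filter_upwards [hc] with n hn
    have f1 : ∀ ω, (NotA n (ev pre n) ω ∧ ∀ a ∈ ev (d :: suf) n, Above n ((a.1 : ℤ) - n) (-(a.2 : ℤ)) ω) ↔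
        ((NotA n (ev (pre ++ [d₀]) n) ω ∧ ∀ a ∈ ev suf n, Above n ((a.1 : ℤ) - n) (-(a.2 : ℤ)) ω) ∧
          Above n ((d.l n : ℤ) - n) (-(d.c n : ℤ)) ω) := by
      intro ω
      constructor
      · rintro ⟨h1, h2⟩
        refine ⟨⟨?_, fun a ha => h2 a ?_⟩, h2 (d.l n, d.c n) ?_⟩
        · intro a ha ha0
          rw [ev, List.map_append] at ha
          rcases List.mem_append.1 ha with ha | ha
          · exact h1 a ha ha0
          · simp only [List.map_cons, List.map_nil, List.mem_singleton] at ha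
            rw [ha] at ha0
            exact absurd rfl ha0
        · exact List.mem_cons_of_mem _ ha
        · exact List.mem_cons_self
      · rintro ⟨⟨h1, h2⟩, h3⟩
        refine ⟨fun a ha ha0 => h1 a ?_ ha0, fun a ha => ?_⟩
        · rw [ev, List.map_append]
          exact List.mem_append_left _ ha
        · rcases List.mem_cons.1 (show a ∈ (d.l n, d.c n) :: ev suf n from ha) with rfl | ha
          · exact h3
          · exact h2 a ha
    have f2 : ∀ ω, (NotA n (ev (pre ++ [d]) n) ω ∧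
          ∀ a ∈ ev suf n, Above n ((a.1 : ℤ) - n) (-(a.2 : ℤ)) ω) ↔
        ((NotA n (ev (pre ++ [d₀]) n) ω ∧ ∀ a ∈ ev suf n, Above n ((a.1 : ℤ) - n) (-(a.2 : ℤ)) ω) ∧
          ¬ Above n ((d.l n : ℤ) - n) (-(d.c n : ℤ)) ω) := by
      intro ω
      constructor
      · rintro ⟨h1, h2⟩
        refine ⟨⟨?_, h2⟩, ?_⟩
        · intro a ha ha0
          rw [ev, List.map_append] at ha
          rcases List.mem_append.1 ha with ha | ha
          · refine h1 a ?_ ha0
            rw [ev, List.map_append]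
            exact List.mem_append_left _ ha
          · simp only [List.map_cons, List.map_nil, List.mem_singleton] at ha
            rw [ha] at ha0
            exact absurd rfl ha0
        · refine h1 (d.l n, d.c n) ?_ hn
          rw [ev, List.map_append]
          exact List.mem_append_right _ List.mem_cons_self
      · rintro ⟨⟨h1, h2⟩, h3⟩
        refine ⟨?_, h2⟩
        intro a ha ha0
        rw [ev, List.map_append] at ha
        rcases List.mem_append.1 ha with ha | ha
        · refine h1 a ?_ ha0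
          rw [ev, List.map_append]
          exact List.mem_append_left _ ha
        · simp only [List.map_cons, List.map_nil, List.mem_singleton] at ha
          rw [ha]
          exact h3
    rw [pj_congr69 f1, pj_congr69 f2]
    exact (pj_sub69 (fun ω => NotA n (ev (pre ++ [d₀]) n) ω ∧
      ∀ a ∈ ev suf n, Above n ((a.1 : ℤ) - n) (-(a.2 : ℤ)) ω)
      (fun ω => Above n ((d.l n : ℤ) - n) (-(d.c n : ℤ)) ω)).symm

theorem below_lim {D : List SD} (hne : D ≠ []) (hD : Gd 0 D) (hp : ∀ d ∈ D, 0 < d.h) :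
    Tendsto (fun n : ℕ => PJ β J n (fun ω => ∀ a ∈ ev D n, Above n ((a.1 : ℤ) - n) (-(a.2 : ℤ)) ω)) atTop
      (nhds (1 / 2 + 1 / 2 * (Ml (sg (Real.exp (-β))) (lib D) / Ml (sg (Real.exp (-β))) (one D)))) := by
  have h1 := below69 h0 h hm hJ D [] (by simpa using hne) (by simpa using hD) hp
  have hk : kp69 [] = 1 := by
    unfold kp69
    rw [if_neg]
    rintro ⟨d, hd, _⟩
    simp at hd
  have hl : lin [] = [] := rfl
  rw [hk, hl, List.nil_append, List.nil_append, mul_one] at h1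
  refine h1.congr fun n => ?_
  refine pj_congr69 fun ω => ?_
  constructor
  · exact fun h => h.2
  · exact fun h => ⟨fun a ha => by simp [ev] at ha, h⟩

theorem mixed_eq {D : List SD} (hD : Gd 0 D) (hp : ∃ d ∈ D, 0 < d.h) {δ : ℝ} (hδ : 0 < δ) :
    Tendsto (fun n : ℕ => PJ β J n (fun ω => AllA n (ev D n) ω ∧
      ∃ x : ℤ, |(x : ℝ)| ≤ (1 - δ) * n ∧ ¬ Above n x 1 ω)) atTop (nhds 0) := by
  obtain ⟨C, hC, hW⟩ := wide69 h0 h hm hJ
  obtain ⟨d, hd, hdh⟩ := hp
  obtain ⟨hs0, hs2, hl, hg⟩ := gd_mem69 hD d hd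
  have hc : Tendsto (fun n : ℕ => (d.c n : ℝ) / Real.sqrt n) atTop (nhds d.h) := by
    rcases hg with ⟨_, h2⟩ | ⟨h1, _⟩
    · exact h2
    · exact absurd h1 hdh.ne'
  have hcw := hc.sub (wl_small69 hC)
  rw [sub_zero] at hcw
  rw [Metric.tendsto_atTop]
  intro ε hε
  obtain ⟨R, n₁, hR, hno⟩ := no_contact h0 h hm hJ (t := ε / 3) (by positivity)
  have hW' : ∀ᶠ n : ℕ in atTop, PJ β J n (fun ω => Wide n ω (wl69 C n)) < ε / 3 :=
    hW.eventually (gt_mem_nhds (by positivity))
  have hbig : ∀ᶠ n : ℕ in atTop, (R : ℝ) / min (min (d.s / 2) ((2 - d.s) / 2)) δ ≤ n :=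
    tendsto_natCast_atTop_atTop.eventually_ge_atTop _
  have hmin : 0 < min (min (d.s / 2) ((2 - d.s) / 2)) δ :=
    lt_min (lt_min (by linarith) (by linarith)) hδ
  have hall : ∀ᶠ n : ℕ in atTop, PJ β J n (fun ω => AllA n (ev D n) ω ∧
      ∃ x : ℤ, |(x : ℝ)| ≤ (1 - δ) * n ∧ ¬ Above n x 1 ω) < ε := by
    filter_upwards [hW', hbig, hcw.eventually (lt_mem_nhds hdh), eventually_ge_atTop n₁.toNat,
      eventually_ge_atTop 1, hl.eventually (lt_mem_nhds (show d.s / 2 < d.s by linarith)),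
      hl.eventually (gt_mem_nhds (show d.s < (2 + d.s) / 2 by linarith))] with n g1 g2 g3 g4 g5 g6 g7
    have hn0 : (0 : ℝ) < n := by exact_mod_cast g5
    rw [div_le_iff₀ hmin] at g2
    have m1 : (R : ℝ) ≤ n * (d.s / 2) :=
      g2.trans (mul_le_mul_of_nonneg_left ((min_le_left _ _).trans (min_le_left _ _)) hn0.le)
    have m2 : (R : ℝ) ≤ n * ((2 - d.s) / 2) :=
      g2.trans (mul_le_mul_of_nonneg_left ((min_le_left _ _).trans (min_le_right _ _)) hn0.le)
    have m3 : (R : ℝ) ≤ n * δ := g2.trans (mul_le_mul_of_nonneg_left (min_le_right _ _) hn0.le)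
    rw [lt_div_iff₀ hn0] at g6
    rw [div_lt_iff₀ hn0] at g7
    have hx : |(d.l n : ℤ) - n| ≤ n - R := by
      rw [abs_le]
      constructor
      · have : (R : ℝ) ≤ d.l n := by linarith
        have : (R : ℤ) ≤ d.l n := by exact_mod_cast this
        omega
      · have : (d.l n : ℝ) ≤ 2 * n - R := by linarith
        have : (d.l n : ℤ) ≤ 2 * n - R := by exact_mod_cast this
        omega
    have hcn : wl69 C n + 1 ≤ d.c n := by
      rw [← sub_div] at g3
      have h3 : 0 < (d.c n : ℝ) - wl69 C n := by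
        by_contra hneg
        rw [not_lt] at hneg
        exact absurd g3 (not_lt.2 (div_nonpos_of_nonpos_of_nonneg hneg (Real.sqrt_nonneg _)))
      have h4 : (wl69 C n : ℝ) < d.c n := by linarith
      have h5 : wl69 C n < d.c n := by exact_mod_cast h4
      omega
    have hnc := hno n n (by omega) le_rfl
    have key : PJ β J n (fun ω => AllA n (ev D n) ω ∧
        ∃ x : ℤ, |(x : ℝ)| ≤ (1 - δ) * n ∧ ¬ Above n x 1 ω) ≤
        PJ β J n (fun ω => ∃ x : ℤ, |x| ≤ (n : ℤ) - R ∧ On n ω (x, 0)) +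
          PJ β J n (fun ω => Wide n ω (wl69 C n)) := by
      refine pj_or69 fun ω hω hE => ?_
      by_contra hcon
      rw [not_or] at hcon
      obtain ⟨q1, q2⟩ := hcon
      obtain ⟨hA, x, hx1, hx2⟩ := hE
      have hA1 := hA (d.l n, d.c n) (List.mem_map_of_mem hd) (by simp only; omega)
      have hG : gg n n ω ((d.l n : ℤ) - n, 1) = 1 :=
        above_gg hω (by omega) (by omega) hA1 q2 (by simp only; omega)
      have hno' : ∀ y : ℤ, |y| ≤ (n : ℤ) - R → ¬ On n ω (y, 0) := fun y hy hO => q1 ⟨y, hy, hO⟩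
      have hxi : |x| ≤ (n : ℤ) - R := by
        have : |(x : ℝ)| ≤ n - R := by nlinarith
        exact_mod_cast this
      have hG2 := gg_all69 hω (by omega) hno' hx hxi
      rw [hG] at hG2
      exact hx2 (gg_above hG2.symm)
    have hnc' : PJ β J n (fun ω => ∃ x : ℤ, |x| ≤ (n : ℤ) - R ∧ On n ω (x, 0)) ≤ ε / 3 := hnc
    linarith
  obtain ⟨n₂, hn₂⟩ := eventually_atTop.1 hall
  refine ⟨n₂, fun n hn => ?_⟩
  rw [Real.dist_eq, sub_zero, abs_of_nonneg pj_nn69]
  exact hn₂ n hn

end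

end Pool.Agent.Helper49.RD
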