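import Pool.Agent.Helper49.RD.MRatio
import Pool.Agent.Helper49.RD.Gauge

/-!
Block RD-PH: from products of spins to the sides of the interface.

`sgp n r ω`: product over the strings `(l, c)`, `c ≥ 1`, of `r` of `sgg (l - n, c) * sgg (l - n, 1 - c)`.

Paper proof of `sgp_lim`. `r n = ev D n`, `p = ` number of `d` in `D` with `0 < d.h` (for these `d.c n ≥ 1` for large `n`, for the others `d.c n = 0`). For large `n` let `A = A n` be the set of the `2 p` sites `(l - n, c)`, `(l - n, 1 - c)`: they are distinct (the columns of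
different strings are different), `psl n (r n) = ch A` (as `psl_ch`, here with `card = 2 p`) and `sgp n (r n) ω = ∏ i ∈ A, sgg n n ω i`. By `cond_gg` with `G = 1`: `Dn := avg (eta 0) (ch A) = avg (eta 0) (sgp * avg (box \ Vg ω) tt (ch A))`. Let `δ > 0`, `r₀ ≥ 1` with `ar β r₀ ≤ mag β + δ` (`exists_ar`).
If `ω` is such that no plaquette at distance `≤ r₀ + 2` (max norm) of a site of `A` is touched by the interface then the balls `tr v (box r₀ r₀)`, `v ∈ A`, are contained in `W = box n n \ Vg n n ω` (for large `n` they are in the box, as `0 < s < 2`, `c = O (√n)`; a site `i` in `Vg` is a corner of a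
touched plaquette), and `mag β ^ (2p) ≤ avg W tt (ch A) ≤ ar β r₀ ^ (2p)` (`ch_lower`, `ch_upper`; for large `n` the distances of the columns and the `|v.2|` exceed `2 r₀ + 2`). The probability of the complement is at most
`∑_{v ∈ A} ∑_{|p - v| ≤ r₀ + 2} P (On p) ≤ 2 p (2 r₀ + 5)² C (c + r₀ + 4)² n^(-3/2) → 0` (`on_le`; `Tch` is `On`). So `limsup |Dn - mag^(2p) Sn| ≤ ar^(2p) - mag^(2p)` with `Sn = avg (eta 0) (sgp)`. Also `Tn := avg tt (ch A)` is in `[mag^(2p), ar^(2p)]` for large `n` (`ch_lower`,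
`ch_upper` with `Λ = box`). `|Dn/Tn - Sn| ≤ |Dn - mag^(2p) Sn|/Tn + |mag^(2p)/Tn - 1|`, so `limsup |Dn/Tn - Sn| ≤ 2 (ar^(2p) - mag^(2p))/mag^(2p) → 0` as `δ → 0`. By `ratio_lim` `Dn/Tn` converges.
-/

open Finset Filter

namespace Pool.Agent.Helper49.RD

open Pool.Agent.Helper49.DL Pool.Agent.Helper49.DX

/-- Product over the strings of the relative sides of the two ends. -/
noncomputable def sgp (n : ℕ) : List (ℕ × ℕ) → Cfg → ℝ
  | [] => fun _ => 1
  | a :: r => fun ω => (if a.2 = 0 then 1 else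
      sgg n n ω ((a.1 : ℤ) - n, (a.2 : ℤ)) * sgg n n ω ((a.1 : ℤ) - n, 1 - (a.2 : ℤ))) * sgp n r ω

/-- The sites at the ends of the strings. -/
private noncomputable def As56 (n : ℕ) : List (ℕ × ℕ) → Finset Site
  | [] => ∅
  | a :: r => if a.2 = 0 then As56 n r else
      insert ((a.1 : ℤ) - n, (a.2 : ℤ)) (insert ((a.1 : ℤ) - n, 1 - (a.2 : ℤ)) (As56 n r))

private lemma cons56 (n : ℕ) (a : ℕ × ℕ) (r : List (ℕ × ℕ)) : As56 n (a :: r) = if a.2 = 0 then As56 n r else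
    insert ((a.1 : ℤ) - n, (a.2 : ℤ)) (insert ((a.1 : ℤ) - n, 1 - (a.2 : ℤ)) (As56 n r)) := rfl

private lemma mem56 {n : ℕ} {a : ℕ × ℕ} {r : List (ℕ × ℕ)} {v : Site} (h : v ∈ As56 n (a :: r)) :
    (a.2 ≠ 0 ∧ v.1 = (a.1 : ℤ) - n ∧ (v.2 = (a.2 : ℤ) ∨ v.2 = 1 - (a.2 : ℤ))) ∨ v ∈ As56 n r := by
  rw [cons56] at h
  split_ifs at h with h0
  · exact Or.inr h
  · rcases Finset.mem_insert.1 h with h1 | h1
    · exact Or.inl ⟨h0, by rw [h1], Or.inl (by rw [h1])⟩
    · rcases Finset.mem_insert.1 h1 with h2 | h2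
      · exact Or.inl ⟨h0, by rw [h2], Or.inr (by rw [h2])⟩
      · exact Or.inr h2

private lemma col56 {n : ℕ} {r : List (ℕ × ℕ)} : ∀ {k : ℕ}, So n k r → ∀ v ∈ As56 n r, (k : ℤ) ≤ v.1 + n := by
  induction r with
  | nil =>
    intro k _ v hv
    exact absurd hv (Finset.notMem_empty v)
  | cons a r ih =>
    intro k hr v hv
    obtain ⟨h1, h2, h3, h4⟩ := hr
    rcases mem56 hv with ⟨-, h5, -⟩ | h5
    · rw [h5]
      have : (k : ℤ) ≤ (a.1 : ℤ) := by exact_mod_cast h1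
      linarith
    · have h6 := ih h4 v h5
      push_cast at h6
      have : (k : ℤ) ≤ (a.1 : ℤ) := by exact_mod_cast h1
      linarith

private lemma prod56 {n : ℕ} (f : Site → ℝ) (F : List (ℕ × ℕ) → ℝ) (h0 : F [] = 1)
    (h1 : ∀ a r, F (a :: r) = (if a.2 = 0 then 1 else
      f ((a.1 : ℤ) - n, (a.2 : ℤ)) * f ((a.1 : ℤ) - n, 1 - (a.2 : ℤ))) * F r) {r : List (ℕ × ℕ)} :
    ∀ {k : ℕ}, So n k r → F r = ∏ i ∈ As56 n r, f i := by
  induction r with
  | nil =>
    intro k _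
    rw [h0]
    rfl
  | cons a r ih =>
    intro k hr
    obtain ⟨_, h2, h3, h4⟩ := hr
    have ih' := ih h4
    have hc := col56 h4
    rw [h1, ih', cons56]
    split_ifs with h5
    · rw [one_mul]
    · have n1 : ((a.1 : ℤ) - n, 1 - (a.2 : ℤ)) ∉ As56 n r := by
        intro h6
        have h7 := hc _ h6
        push_cast at h7
        omega
      have n2 : ((a.1 : ℤ) - n, (a.2 : ℤ)) ∉ insert ((a.1 : ℤ) - n, 1 - (a.2 : ℤ)) (As56 n r) := by
        intro h6
        rcases Finset.mem_insert.1 h6 with h7 | h7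
        · have h8 := congrArg Prod.snd h7
          simp only at h8
          omega
        · have h8 := hc _ h7
          push_cast at h8
          omega
      rw [Finset.prod_insert n2, Finset.prod_insert n1]
      ring

private lemma card56 (n : ℕ) (r : List (ℕ × ℕ)) : (As56 n r).card ≤ 2 * r.length := by
  induction r with
  | nil => exact Nat.zero_le _
  | cons a r ih =>
    rw [cons56, List.length_cons]
    split_ifs with h
    · omega
    · have h1 := Finset.card_insert_le ((a.1 : ℤ) - n, (a.2 : ℤ)) (insert ((a.1 : ℤ) - n, 1 - (a.2 : ℤ)) (As56 n r))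
      have h2 := Finset.card_insert_le ((a.1 : ℤ) - n, 1 - (a.2 : ℤ)) (As56 n r)
      omega

private lemma lt2_56 {s : ℝ} {D : List SD} (h : Gd s D) : s < 2 := by
  induction D generalizing s with
  | nil => exact h
  | cons d D ih => exact h.1.trans (ih h.2.2.2)

private lemma sqrt56 : Tendsto (fun n : ℕ => Real.sqrt n) atTop atTop :=
  Real.tendsto_sqrt_atTop.comp tendsto_natCast_atTop_atTop

private lemma hgt_large56 {c : ℕ → ℕ} {h : ℝ} (hc : Hgt c h) (R : ℕ) : ∀ᶠ n : ℕ in atTop, c n ≠ 0 → R ≤ c n := by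
  rcases hc with ⟨h1, h2⟩ | ⟨-, h2⟩
  · have h3 : Tendsto (fun n : ℕ => (c n : ℝ) / Real.sqrt n * Real.sqrt n) atTop atTop :=
      h2.pos_mul_atTop h1 sqrt56
    filter_upwards [h3.eventually_ge_atTop (R : ℝ), eventually_ge_atTop 1] with n hn hn1 _
    have h4 : 0 < Real.sqrt n := Real.sqrt_pos.2 (by exact_mod_cast hn1)
    rw [div_mul_cancel₀ _ h4.ne'] at hn
    exact_mod_cast hn
  · exact Eventually.of_forall fun n hn => absurd (h2 n) hn

private lemma hgt_bound56 {c : ℕ → ℕ} {h : ℝ} (hc : Hgt c h) : ∃ B : ℝ, 0 < B ∧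
    ∀ᶠ n : ℕ in atTop, (c n : ℝ) + 1 ≤ B * Real.sqrt n := by
  rcases hc with ⟨h1, h2⟩ | ⟨-, h2⟩
  · refine ⟨h + 2, by linarith, ?_⟩
    filter_upwards [h2.eventually_le_const (show h < h + 1 by linarith), eventually_ge_atTop 1] with n hn hn1
    have h4 : 1 ≤ Real.sqrt n := Real.one_le_sqrt.2 (by exact_mod_cast hn1)
    rw [div_le_iff₀ (by linarith)] at hn
    linarith
  · refine ⟨1, one_pos, ?_⟩
    filter_upwards [eventually_ge_atTop 1] with n hn1
    have h4 : 1 ≤ Real.sqrt n := Real.one_le_sqrt.2 (by exact_mod_cast hn1)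
    rw [h2 n]
    push_cast
    linarith

private lemma geo56 {D : List SD} : ∀ {s : ℝ}, 0 ≤ s → Gd s D → ∃ δ B : ℝ, 0 < δ ∧ 0 < B ∧
    ∀ᶠ n : ℕ in atTop, ∀ v ∈ As56 n (ev D n), |(v.1 : ℝ)| ≤ (1 - 2 * δ) * n ∧ |(v.2 : ℝ)| ≤ B * Real.sqrt n := by
  induction D with
  | nil =>
    intro s _ _
    exact ⟨1, 1, one_pos, one_pos, Eventually.of_forall fun n v hv => absurd hv (Finset.notMem_empty v)⟩
  | cons d D ih =>
    intro s hs hD
    obtain ⟨h1, h2, h3, h4⟩ := hD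
    obtain ⟨δ, B, hδ, hB, hev⟩ := ih (by linarith) h4
    obtain ⟨B', hB', hev'⟩ := hgt_bound56 h3
    have hd2 := lt2_56 h4
    have habs : |d.s - 1| < 1 := by
      rw [abs_lt]
      constructor <;> linarith
    have h5 : Tendsto (fun n : ℕ => |(d.l n : ℝ) / n - 1|) atTop (nhds |d.s - 1|) :=
      (h2.sub_const 1).abs
    have h6 := h5.eventually_le_const (show |d.s - 1| < 1 - 2 * ((1 - |d.s - 1|) / 4) by linarith)
    refine ⟨min δ ((1 - |d.s - 1|) / 4), max B B', lt_min hδ (by linarith), lt_max_of_lt_left hB, ?_⟩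
    filter_upwards [hev, hev', h6, eventually_ge_atTop 1] with n e1 e2 e3 e4 v hv
    have hn0 : (0 : ℝ) < n := by exact_mod_cast e4
    have hsq : 0 ≤ Real.sqrt n := Real.sqrt_nonneg _
    rcases mem56 hv with ⟨-, h7, h8⟩ | h7
    · have h9 : (v.1 : ℝ) = ((d.l n : ℝ) / n - 1) * n := by
        rw [h7]
        push_cast
        field_simp
      have h10 : |(v.2 : ℝ)| ≤ (d.c n : ℝ) + 1 := by
        have h11 : (0 : ℝ) ≤ (d.c n : ℝ) := Nat.cast_nonneg _
        rcases h8 with h8 | h8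
        · rw [h8]
          push_cast
          rw [abs_of_nonneg h11]
          linarith
        · rw [h8]
          push_cast
          rw [abs_le]
          constructor <;> linarith
      refine ⟨?_, ?_⟩
      · rw [h9, abs_mul, abs_of_pos hn0]
        refine mul_le_mul_of_nonneg_right (e3.trans ?_) hn0.le
        have := min_le_right δ ((1 - |d.s - 1|) / 4)
        linarith
      · refine h10.trans (e2.trans ?_)
        exact mul_le_mul_of_nonneg_right (le_max_right _ _) hsq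
    · obtain ⟨h8, h9⟩ := e1 v h7
      refine ⟨h8.trans ?_, h9.trans (mul_le_mul_of_nonneg_right (le_max_left _ _) hsq)⟩
      have := min_le_left δ ((1 - |d.s - 1|) / 4)
      exact mul_le_mul_of_nonneg_right (by linarith) hn0.le

private lemma sep56 {D : List SD} (R : ℕ) : ∀ {s : ℝ} {k : ℕ → ℕ}, Gd s D →
    Tendsto (fun n : ℕ => (k n : ℝ) / n) atTop (nhds s) →
    ∀ᶠ n : ℕ in atTop, (∀ v ∈ As56 n (ev D n), (k n : ℤ) + R ≤ v.1 + n ∧ (R : ℤ) ≤ |v.2|) ∧
      ∀ v ∈ As56 n (ev D n), ∀ w ∈ As56 n (ev D n), v ≠ w → (R : ℤ) ≤ max |v.1 - w.1| |v.2 - w.2| := by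
  induction D with
  | nil =>
    intro s k _ _
    exact Eventually.of_forall fun n => ⟨fun v hv => absurd hv (Finset.notMem_empty v),
      fun v hv => absurd hv (Finset.notMem_empty v)⟩
  | cons d D ih =>
    intro s k hD hk
    obtain ⟨h1, h2, h3, h4⟩ := hD
    have hgap : ∀ᶠ n : ℕ in atTop, k n + R ≤ d.l n := by
      have h5 : Tendsto (fun n : ℕ => ((d.l n : ℝ) / n - (k n : ℝ) / n) * n) atTop atTop :=
        (h2.sub hk).pos_mul_atTop (by linarith) tendsto_natCast_atTop_atTop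
      filter_upwards [h5.eventually_ge_atTop (R : ℝ), eventually_ge_atTop 1] with n hn hn1
      have hn0 : (0 : ℝ) < n := by exact_mod_cast hn1
      rw [sub_mul, div_mul_cancel₀ _ hn0.ne', div_mul_cancel₀ _ hn0.ne'] at hn
      have h6 : (k n : ℝ) + R ≤ d.l n := by linarith
      exact_mod_cast h6
    filter_upwards [ih h4 h2, hgap, hgt_large56 h3 (R + 1)] with n e1 e2 e3
    obtain ⟨e4, e5⟩ := e1
    have key : ∀ v ∈ As56 n (ev (d :: D) n), (v.1 = (d.l n : ℤ) - n ∧ (v.2 = (d.c n : ℤ) ∨ v.2 = 1 - (d.c n : ℤ)) ∧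
        R + 1 ≤ d.c n) ∨ v ∈ As56 n (ev D n) := by
      intro v hv
      rcases mem56 hv with ⟨h6, h7, h8⟩ | h6
      · exact Or.inl ⟨h7, h8, e3 h6⟩
      · exact Or.inr h6
    refine ⟨fun v hv => ?_, fun v hv w hw hvw => ?_⟩
    · rcases key v hv with ⟨h7, h8, h9⟩ | h6
      · refine ⟨by omega, ?_⟩
        rw [le_abs]
        omega
      · obtain ⟨h7, h8⟩ := e4 v h6
        exact ⟨by omega, h8⟩
    · rw [le_max_iff]
      rcases key v hv with ⟨h7, h8, h9⟩ | h6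
      · rcases key w hw with ⟨k7, k8, k9⟩ | k6
        · right
          have h10 : v.2 ≠ w.2 := fun h => hvw (Prod.ext (by rw [h7, k7]) h)
          rw [le_abs]
          omega
        · left
          have := (e4 w k6).1
          rw [le_abs]
          omega
      · rcases key w hw with ⟨k7, k8, k9⟩ | k6
        · left
          have := (e4 v h6).1
          rw [le_abs]
          omega
        · exact le_max_iff.1 (e5 v h6 w k6 hvw)

private lemma pow_sub56 {a m : ℝ} (hm : 0 ≤ m) (ha : m ≤ a) (ha1 : a ≤ 1) (q : ℕ) : a ^ q - m ^ q ≤ q * (a - m) := by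
  induction q with
  | zero => simp
  | succ q ih =>
    have h1 : a ^ (q + 1) - m ^ (q + 1) = a * (a ^ q - m ^ q) + (a - m) * m ^ q := by ring
    have h2 : 0 ≤ a ^ q - m ^ q := sub_nonneg.2 (pow_le_pow_left₀ hm ha q)
    have h3 : a * (a ^ q - m ^ q) ≤ 1 * (a ^ q - m ^ q) := mul_le_mul_of_nonneg_right ha1 h2
    have h4 : (a - m) * m ^ q ≤ (a - m) * 1 :=
      mul_le_mul_of_nonneg_left (pow_le_one₀ hm (ha.trans ha1)) (sub_nonneg.2 ha)
    rw [h1]
    push_cast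
    linarith

private lemma ch_abs56 (A : Finset Site) (ω : Cfg) : |ch A ω| = 1 := by
  unfold ch
  rw [Finset.abs_prod]
  exact Finset.prod_eq_one fun i _ => by cases ω i <;> simp

private lemma sgg_abs56 (N M : ℤ) (A : Finset Site) (ω : Cfg) : |∏ i ∈ A, sgg N M ω i| = 1 := by
  rw [Finset.abs_prod]
  refine Finset.prod_eq_one fun i _ => ?_
  unfold sgg
  split_ifs <;> simp

private lemma abs_avg56 {β : ℝ} {κ : Site → ℝ} {Λ : Finset Site} {η : Cfg} {F G : Cfg → ℝ}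
    (h : ∀ ω ∈ confs Λ η, |F ω| ≤ G ω) : |avg β κ Λ η F| ≤ avg β κ Λ η G := by
  rw [abs_le]
  constructor
  · have h1 : avg β κ Λ η (fun ω => (-1) * G ω) ≤ avg β κ Λ η F :=
      avg_mono fun ω hω => by
        have := (abs_le.1 (h ω hω)).1
        linarith
    rw [avg_smul] at h1
    linarith
  · exact avg_mono fun ω hω => (abs_le.1 (h ω hω)).2

/-- The plaquettes near a site. -/
private noncomputable def bd56 (r : ℕ) (v : Site) : Finset Site :=
  Finset.Icc (v.1 - ((r : ℤ) + 2)) (v.1 + ((r : ℤ) + 2)) ×ˢ Finset.Icc (v.2 - ((r : ℤ) + 2)) (v.2 + ((r : ℤ) + 2))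

private lemma mem_bd56 {r : ℕ} {v p : Site} : p ∈ bd56 r v ↔
    (v.1 - ((r : ℤ) + 2) ≤ p.1 ∧ p.1 ≤ v.1 + ((r : ℤ) + 2)) ∧ (v.2 - ((r : ℤ) + 2) ≤ p.2 ∧ p.2 ≤ v.2 + ((r : ℤ) + 2)) := by
  unfold bd56
  rw [Finset.mem_product, Finset.mem_Icc, Finset.mem_Icc]

private lemma card_bd56 (r : ℕ) (v : Site) : (bd56 r v).card = (2 * r + 5) ^ 2 := by
  unfold bd56
  rw [Finset.card_product, Int.card_Icc, Int.card_Icc]
  have h1 : (v.1 + ((r : ℤ) + 2) + 1 - (v.1 - ((r : ℤ) + 2))).toNat = 2 * r + 5 := by omega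
  have h2 : (v.2 + ((r : ℤ) + 2) + 1 - (v.2 - ((r : ℤ) + 2))).toNat = 2 * r + 5 := by omega
  rw [h1, h2, pow_two]

open scoped Classical in
private lemma det56 {β J : ℝ} (hβ : 0 ≤ β) (hm : 0 ≤ mag β) (hJ : 1 ≤ J) {n : ℕ} (hn : 1 ≤ n) {A : Finset Site} {r : ℕ} (hr : 1 ≤ r)
    (hb : ∀ v ∈ A, tr v (box (r : ℤ) r) ⊆ box (n : ℤ) n) (hv : ∀ v ∈ A, (r : ℤ) + 1 ≤ |v.2|)
    (hs : ∀ v ∈ A, ∀ w ∈ A, v ≠ w → 2 * (r : ℤ) + 2 ≤ max |v.1 - w.1| |v.2 - w.2|) :
    |avg β (kap J) (box n n) (eta 0) (ch A) -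
      mag β ^ A.card * avg β (kap J) (box n n) (eta 0) (fun ω => ∏ i ∈ A, sgg n n ω i)| ≤
      (ar β r ^ A.card - mag β ^ A.card) + 2 * ∑ v ∈ A, ∑ p ∈ bd56 r v,
        avg β (kap J) (box n n) (eta 0) (fun ω => if DX.On n ω p then 1 else 0) := by
  have h1 := cond_gg (N := n) (M := n) (by positivity) (by exact_mod_cast hn) β J A (fun _ => 1) (fun _ _ _ => rfl)
  simp only [one_mul] at h1
  have hcc : (fun ω => ch A ω) = ch A := rfl
  rw [hcc] at h1
  rw [h1, ← avg_smul, ← avg_sub]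
  have hself : ∀ v : Site, v ∈ tr v (box (r : ℤ) r) := by
    intro v
    rw [mem_ball]
    omega
  have hpt : ∀ ω ∈ confs (box (n : ℤ) n) (eta 0), |(∏ i ∈ A, sgg n n ω i) * avg β (kap J) (box n n \ Vg n n ω) tt (ch A) -
      mag β ^ A.card * ∏ i ∈ A, sgg n n ω i| ≤ (ar β r ^ A.card - mag β ^ A.card) +
        2 * ∑ v ∈ A, ∑ p ∈ bd56 r v, (if DX.On n ω p then 1 else 0) := by
    intro ω _
    have h2 : (∏ i ∈ A, sgg n n ω i) * avg β (kap J) (box n n \ Vg n n ω) tt (ch A) -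
        mag β ^ A.card * ∏ i ∈ A, sgg n n ω i =
        (∏ i ∈ A, sgg n n ω i) * (avg β (kap J) (box n n \ Vg n n ω) tt (ch A) - mag β ^ A.card) := by ring
    rw [h2, abs_mul, sgg_abs56, one_mul]
    have hm1 : mag β ≤ 1 := (mag_le_ar β r).trans (ar_le_one β r)
    have hmq : mag β ^ A.card ≤ 1 := pow_le_one₀ hm hm1
    have hmq0 : 0 ≤ mag β ^ A.card := pow_nonneg hm _
    have har : mag β ^ A.card ≤ ar β r ^ A.card := pow_le_pow_left₀ hm (mag_le_ar β r) _
    by_cases hbad : ∃ v ∈ A, ∃ p ∈ bd56 r v, DX.On n ω p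
    · obtain ⟨v, hvA, p, hp, hon⟩ := hbad
      have h3 : (1 : ℝ) ≤ ∑ v ∈ A, ∑ p ∈ bd56 r v, (if DX.On n ω p then (1 : ℝ) else 0) := by
        have h4 : (1 : ℝ) ≤ ∑ p ∈ bd56 r v, (if DX.On n ω p then (1 : ℝ) else 0) := by
          have h5 := Finset.single_le_sum (f := fun p => if DX.On n ω p then (1 : ℝ) else 0)
            (fun i _ => by positivity) hp
          simpa [hon] using h5
        exact h4.trans (Finset.single_le_sum (f := fun v => ∑ p ∈ bd56 r v, (if DX.On n ω p then (1 : ℝ) else 0))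
          (fun i _ => by positivity) hvA)
      have h6 : |avg β (kap J) (box n n \ Vg n n ω) tt (ch A)| ≤ 1 := by
        refine (abs_avg56 (G := fun _ => 1) fun ζ _ => (ch_abs56 A ζ).le).trans (le_of_eq (avg_const 1))
      have h7 : |avg β (kap J) (box n n \ Vg n n ω) tt (ch A) - mag β ^ A.card| ≤ 1 + 1 := by
        refine (abs_sub _ _).trans (add_le_add h6 ?_)
        rw [abs_of_nonneg hmq0]
        exact hmq
      linarith
    · push Not at hbad
      have hsub : ∀ v ∈ A, tr v (box (r : ℤ) r) ⊆ box (n : ℤ) n \ Vg n n ω := by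
        intro v hvA i hi
        refine Finset.mem_sdiff.2 ⟨hb v hvA hi, fun hV => ?_⟩
        unfold Vg at hV
        obtain ⟨-, hV⟩ := Finset.mem_filter.1 hV
        rw [mem_ball] at hi
        have hno : ∀ p : Site, (i.1 - 1 ≤ p.1 ∧ p.1 ≤ i.1) → (i.2 - 1 ≤ p.2 ∧ p.2 ≤ i.2) → ¬ Tch n ω p := by
          intro p hp1 hp2
          exact hbad v hvA p (mem_bd56.2 (by omega))
        rcases hV with hV | hV | hV | hV
        · exact hno _ (by omega) (by omega) hV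
        · exact hno _ (by simp [e1]) (by simp [e1]) hV
        · exact hno _ (by simp [e2]) (by simp [e2]) hV
        · exact hno _ (by simp [e1, e2]) (by simp [e1, e2]) hV
      have hAs : A ⊆ box (n : ℤ) n \ Vg n n ω := fun v hvA => hsub v hvA (hself v)
      have h3 := ch_lower hβ hJ hAs
      have h4 := ch_upper hβ hJ tt hr hsub hv hs
      have h5 := (abs_le.1 h4).2
      have h6 : 0 ≤ ∑ v ∈ A, ∑ p ∈ bd56 r v, (if DX.On n ω p then (1 : ℝ) else 0) := by positivity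
      rw [abs_of_nonneg (by linarith)]
      linarith
  refine (abs_avg56 hpt).trans (le_of_eq ?_)
  rw [avg_add, avg_const, avg_smul, avg_sum]
  congr 2
  exact Finset.sum_congr rfl fun v _ => avg_sum _ _

private lemma rpow56 (n : ℕ) : (n : ℝ) ^ (3 / 2 : ℝ) = Real.sqrt n ^ 3 := by
  have h1 : (3 / 2 : ℝ) = (1 / 2 : ℝ) * ((3 : ℕ) : ℝ) := by norm_num
  rw [h1, Real.rpow_mul (Nat.cast_nonneg n), Real.rpow_natCast, ← Real.sqrt_eq_rpow]

private lemma rate56 (C B R : ℝ) :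
    Tendsto (fun n : ℕ => C * (B * Real.sqrt n + R) ^ 2 / (n : ℝ) ^ (3 / 2 : ℝ)) atTop (nhds 0) := by
  have h1 : Tendsto (fun n : ℕ => (Real.sqrt n)⁻¹) atTop (nhds 0) := tendsto_inv_atTop_zero.comp sqrt56
  have h2 : Tendsto (fun n : ℕ => C * (B + R * (Real.sqrt n)⁻¹) ^ 2 * (Real.sqrt n)⁻¹) atTop
      (nhds (C * (B + R * 0) ^ 2 * 0)) :=
    ((((h1.const_mul R).const_add B).pow 2).const_mul C).mul h1
  rw [mul_zero] at h2
  refine h2.congr' ?_
  filter_upwards [eventually_ge_atTop 1] with n hn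
  have h4 : 0 < Real.sqrt n := Real.sqrt_pos.2 (by exact_mod_cast hn)
  rw [rpow56]
  field_simp

private lemma zero56 : Tendsto (fun n : ℕ => (((fun _ => 0 : ℕ → ℕ) n : ℕ) : ℝ) / n) atTop (nhds 0) := by
  simp

private lemma est56 {β₁ β J : ℝ} (h0 : 0 ≤ β₁) (h : β₁ < β) (hm : 0 < mag β₁) (hJ : 1 < J) {D : List SD}
    (hD : Gd 0 D) {r : ℕ} (hr : 1 ≤ r) {ε : ℝ} (hε : 0 < ε) :
    ∀ᶠ n : ℕ in atTop, (mag β ^ (As56 n (ev D n)).card ≤ avg β (kap J) (box n n) tt (ch (As56 n (ev D n))) ∧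
        avg β (kap J) (box n n) tt (ch (As56 n (ev D n))) ≤ ar β r ^ (As56 n (ev D n)).card) ∧
      |avg β (kap J) (box n n) (eta 0) (ch (As56 n (ev D n))) - mag β ^ (As56 n (ev D n)).card *
        avg β (kap J) (box n n) (eta 0) (fun ω => ∏ i ∈ As56 n (ev D n), sgg n n ω i)| ≤
        (ar β r ^ (As56 n (ev D n)).card - mag β ^ (As56 n (ev D n)).card) + ε := by
  classical
  have hβ : 0 ≤ β := h0.trans h.le
  have hmm : 0 < mag β := hm.trans_le (mag_mono h0 h.le)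
  obtain ⟨δ, B, hδ, hB, hgeo⟩ := geo56 le_rfl hD
  have hsep := sep56 (2 * r + 2) hD zero56
  obtain ⟨C, n₀, hC, hon⟩ := on_le h0 h hm hJ hδ
  have hrate := (rate56 (2 * ((2 * D.length : ℕ) * (2 * r + 5 : ℕ) ^ 2) * C) B (r + 3)).eventually_le_const hε
  have hδn : ∀ᶠ n : ℕ in atTop, (r : ℝ) + 2 ≤ δ * n :=
    (tendsto_natCast_atTop_atTop.const_mul_atTop hδ).eventually_ge_atTop _
  have hBn : ∀ᶠ n : ℕ in atTop, B * Real.sqrt n + (r + 2) ≤ n := by
    have h1 : Tendsto (fun n : ℕ => (Real.sqrt n - B) * Real.sqrt n) atTop atTop :=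
      (tendsto_atTop_add_const_right _ (-B) sqrt56).atTop_mul_atTop₀ sqrt56
    filter_upwards [h1.eventually_ge_atTop ((r : ℝ) + 2)] with n hn
    have h2 : Real.sqrt n * Real.sqrt n = n := Real.mul_self_sqrt (Nat.cast_nonneg n)
    nlinarith
  filter_upwards [hgeo, hsep, hrate, hδn, hBn, eventually_ge_atTop n₀, eventually_ge_atTop 1] with n e1 e2 e3 e4 e5 e6 e7
  obtain ⟨A, hA⟩ : ∃ A, A = As56 n (ev D n) := ⟨_, rfl⟩
  have hcard : A.card ≤ 2 * D.length := by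
    rw [hA]
    refine (card56 n _).trans (le_of_eq ?_)
    unfold ev
    rw [List.length_map]
  rw [← hA] at e1 e2 ⊢
  have hn0 : (0 : ℝ) < n := by exact_mod_cast e7
  have hsq : 0 ≤ Real.sqrt n := Real.sqrt_nonneg _
  -- coordinates of the sites near `A`
  have hco : ∀ v ∈ A, ∀ p : Site, (v.1 - ((r : ℤ) + 2) ≤ p.1 ∧ p.1 ≤ v.1 + ((r : ℤ) + 2)) →
      (v.2 - ((r : ℤ) + 2) ≤ p.2 ∧ p.2 ≤ v.2 + ((r : ℤ) + 2)) →
      |(p.1 : ℝ)| ≤ (1 - δ) * n ∧ |(p.2 : ℝ)| ≤ B * Real.sqrt n + (r + 2) := by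
    intro v hv p hp1 hp2
    obtain ⟨g1, g2⟩ := e1 v hv
    have a1 : (v.1 : ℝ) - (r + 2) ≤ p.1 := by exact_mod_cast hp1.1
    have a2 : (p.1 : ℝ) ≤ v.1 + (r + 2) := by exact_mod_cast hp1.2
    have a3 : (v.2 : ℝ) - (r + 2) ≤ p.2 := by exact_mod_cast hp2.1
    have a4 : (p.2 : ℝ) ≤ v.2 + (r + 2) := by exact_mod_cast hp2.2
    obtain ⟨g3, g4⟩ := abs_le.1 g1
    obtain ⟨g5, g6⟩ := abs_le.1 g2
    constructor
    · rw [abs_le]
      constructor <;> nlinarith
    · rw [abs_le]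
      constructor <;> linarith
  have hb : ∀ v ∈ A, tr v (box (r : ℤ) r) ⊆ box (n : ℤ) n := by
    intro v hv i hi
    rw [mem_ball] at hi
    obtain ⟨g1, g2⟩ := e1 v hv
    obtain ⟨g3, g4⟩ := abs_le.1 g1
    obtain ⟨g5, g6⟩ := abs_le.1 g2
    have a1 : (v.1 : ℝ) - r ≤ i.1 := by exact_mod_cast hi.1.1
    have a2 : (i.1 : ℝ) ≤ v.1 + r := by exact_mod_cast hi.1.2
    have a3 : (v.2 : ℝ) - r + 1 ≤ i.2 := by exact_mod_cast hi.2.1
    have a4 : (i.2 : ℝ) ≤ v.2 + r := by exact_mod_cast hi.2.2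
    have hδn' : 0 ≤ δ * n := by positivity
    rw [mem_box]
    have b1 : (-(n : ℝ)) ≤ i.1 := by nlinarith
    have b2 : (i.1 : ℝ) ≤ n := by nlinarith
    have b3 : (-(n : ℝ)) + 1 ≤ i.2 := by linarith
    have b4 : (i.2 : ℝ) ≤ n := by linarith
    refine ⟨⟨?_, ?_⟩, ⟨?_, ?_⟩⟩
    · exact_mod_cast b1
    · exact_mod_cast b2
    · exact_mod_cast b3
    · exact_mod_cast b4
  have hv : ∀ v ∈ A, (r : ℤ) + 1 ≤ |v.2| := by
    intro v hv
    have := (e2.1 v hv).2
    push_cast at this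
    linarith [(Nat.cast_nonneg r : (0 : ℤ) ≤ (r : ℤ))]
  have hs : ∀ v ∈ A, ∀ w ∈ A, v ≠ w → 2 * (r : ℤ) + 2 ≤ max |v.1 - w.1| |v.2 - w.2| := by
    intro v hv w hw hvw
    have := e2.2 v hv w hw hvw
    push_cast at this
    exact this
  have hAb : A ⊆ box (n : ℤ) n := by
    intro v hvA
    apply hb v hvA
    rw [mem_ball]
    omega
  have hup := ch_upper hβ hJ.le tt hr hb hv hs
  refine ⟨⟨ch_lower hβ hJ.le hAb, (abs_le.1 hup).2⟩, ?_⟩
  refine (det56 hβ hmm.le hJ.le e7 hr hb hv hs).trans ?_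
  have hterm : ∀ v ∈ A, ∀ p ∈ bd56 r v, avg β (kap J) (box n n) (eta 0) (fun ω => if DX.On n ω p then 1 else 0) ≤
      C * (B * Real.sqrt n + (r + 3)) ^ 2 / (n : ℝ) ^ (3 / 2 : ℝ) := by
    intro v hvA p hp
    obtain ⟨hp1, hp2⟩ := mem_bd56.1 hp
    obtain ⟨c1, c2⟩ := hco v hvA p hp1 hp2
    have c3 : |p.2| ≤ (n : ℤ) := by
      have : |(p.2 : ℝ)| ≤ n := c2.trans e5
      exact_mod_cast this
    refine (hon n e6 p c1 c3).trans ?_
    refine div_le_div_of_nonneg_right (mul_le_mul_of_nonneg_left ?_ hC.le) (by positivity)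
    refine pow_le_pow_left₀ (by positivity) ?_ 2
    linarith
  have hu0 : 0 ≤ C * (B * Real.sqrt n + (r + 3)) ^ 2 / (n : ℝ) ^ (3 / 2 : ℝ) := by positivity
  have hsum : ∑ v ∈ A, ∑ p ∈ bd56 r v, avg β (kap J) (box n n) (eta 0) (fun ω => if DX.On n ω p then 1 else 0) ≤
      ((2 * D.length : ℕ) * (2 * r + 5 : ℕ) ^ 2 : ℝ) * (C * (B * Real.sqrt n + (r + 3)) ^ 2 / (n : ℝ) ^ (3 / 2 : ℝ)) := by
    calc _ ≤ ∑ v ∈ A, ∑ p ∈ bd56 r v, C * (B * Real.sqrt n + (r + 3)) ^ 2 / (n : ℝ) ^ (3 / 2 : ℝ) :=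
          Finset.sum_le_sum fun v hvA => Finset.sum_le_sum fun p hp => hterm v hvA p hp
      _ = (A.card : ℝ) * ((2 * r + 5 : ℕ) ^ 2 * (C * (B * Real.sqrt n + (r + 3)) ^ 2 / (n : ℝ) ^ (3 / 2 : ℝ))) := by
          simp only [Finset.sum_const, card_bd56, nsmul_eq_mul]
          push_cast
          ring
      _ ≤ ((2 * D.length : ℕ) : ℝ) * ((2 * r + 5 : ℕ) ^ 2 * (C * (B * Real.sqrt n + (r + 3)) ^ 2 / (n : ℝ) ^ (3 / 2 : ℝ))) :=
          mul_le_mul_of_nonneg_right (by exact_mod_cast hcard) (by positivity)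
      _ = _ := by ring
  have hfin : 2 * (((2 * D.length : ℕ) * (2 * r + 5 : ℕ) ^ 2 : ℝ) *
      (C * (B * Real.sqrt n + (r + 3)) ^ 2 / (n : ℝ) ^ (3 / 2 : ℝ))) ≤ ε := by
    refine le_trans (le_of_eq ?_) e3
    ring
  linarith

theorem sgp_lim {β₁ β J : ℝ} (h0 : 0 ≤ β₁) (h : β₁ < β) (hm : 0 < mag β₁) (hJ : 1 < J) {D : List SD}
    (hne : D ≠ []) (hD : Gd 0 D) :
    Tendsto (fun n : ℕ => avg β (kap J) (box n n) (eta 0) (sgp n (ev D n))) atTop
      (nhds (Ml (sg (Real.exp (-β))) (li D) / Ml (sg (Real.exp (-β))) (li (zer D)))) := by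
  have hmm : 0 < mag β := hm.trans_le (mag_mono h0 h.le)
  have hm1 : mag β ≤ 1 := (mag_le_ar β 1).trans (ar_le_one β 1)
  have hratio := ratio_lim h0 h hm hJ hne hD
  have hso := gd_so hD zero56
  obtain ⟨Q, hQ⟩ : ∃ Q : ℕ, Q = 2 * D.length := ⟨_, rfl⟩
  have hM : 0 < mag β ^ Q := pow_pos hmm Q
  have hdiff : Tendsto (fun n : ℕ => avg β (kap J) (box n n) (eta 0) (sgp n (ev D n)) -
      avg β (kap J) (box n n) (eta 0) (psl n (ev D n)) / avg β (kap J) (box n n) tt (psl n (ev D n))) atTop (nhds 0) := by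
    rw [Metric.tendsto_nhds]
    intro ε hε
    have hη : 0 < ε * mag β ^ Q / (4 * (Q + 1)) :=
      div_pos (mul_pos hε hM) (mul_pos four_pos (add_pos_of_nonneg_of_pos (Nat.cast_nonneg Q) one_pos))
    obtain ⟨r, hr, har⟩ := exists_ar (β := β) hη
    have hε' : 0 < ε * mag β ^ Q / 4 := div_pos (mul_pos hε hM) four_pos
    filter_upwards [est56 h0 h hm hJ hD hr hε', hso] with n e1 e2
    obtain ⟨A, hA⟩ : ∃ A, A = As56 n (ev D n) := ⟨_, rfl⟩
    have hpsl : psl n (ev D n) = ch (As56 n (ev D n)) := by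
      funext ω
      exact prod56 (fun i => sp (ω i)) (fun r => psl n r ω) rfl (fun _ _ => rfl) e2
    have hsgp : sgp n (ev D n) = fun ω => ∏ i ∈ As56 n (ev D n), sgg n n ω i := by
      funext ω
      exact prod56 (fun i => sgg n n ω i) (fun r => sgp n r ω) rfl (fun _ _ => rfl) e2
    rw [hpsl, hsgp]
    have hcard : A.card ≤ Q := by
      rw [hA, hQ]
      refine (card56 n _).trans (le_of_eq ?_)
      unfold ev
      rw [List.length_map]
    rw [← hA] at e1 ⊢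
    obtain ⟨⟨t1, t2⟩, t3⟩ := e1
    obtain ⟨T, hT⟩ : ∃ T, T = avg β (kap J) (box n n) tt (ch A) := ⟨_, rfl⟩
    obtain ⟨E, hE⟩ : ∃ E, E = avg β (kap J) (box n n) (eta 0) (ch A) := ⟨_, rfl⟩
    obtain ⟨S, hS⟩ : ∃ S, S = avg β (kap J) (box n n) (eta 0) (fun ω => ∏ i ∈ A, sgg n n ω i) := ⟨_, rfl⟩
    rw [← hT] at t1 t2
    rw [← hE, ← hS] at t3
    rw [← hT, ← hE, ← hS, Real.dist_eq, sub_zero]
    have hS1 : |S| ≤ 1 := by
      rw [hS]
      exact (abs_avg56 (G := fun _ => 1) fun ζ _ => (sgg_abs56 n n A ζ).le).trans (le_of_eq (avg_const 1))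
    have hmA : mag β ^ Q ≤ mag β ^ A.card := pow_le_pow_of_le_one hmm.le hm1 hcard
    have hT0 : 0 < T := hM.trans_le (hmA.trans t1)
    have hps := pow_sub56 hmm.le (mag_le_ar β r) (ar_le_one β r) A.card
    have hQη : (A.card : ℝ) * (ar β r - mag β) ≤ Q * (ε * mag β ^ Q / (4 * (Q + 1))) := by
      have h1 : (A.card : ℝ) ≤ Q := by exact_mod_cast hcard
      have h2 : 0 ≤ ar β r - mag β := sub_nonneg.2 (mag_le_ar β r)
      exact mul_le_mul h1 (by linarith) h2 (Nat.cast_nonneg _)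
    have hQη' : Q * (ε * mag β ^ Q / (4 * (Q + 1))) ≤ ε * mag β ^ Q / 4 := by
      have h1 : Q * (ε * mag β ^ Q / (4 * (Q + 1))) = (Q / (Q + 1)) * (ε * mag β ^ Q / 4) := by
        field_simp
      rw [h1]
      refine mul_le_of_le_one_left hε'.le ?_
      rw [div_le_one (by positivity)]
      linarith
    have h1 : S - E / T = (S * (T - mag β ^ A.card) + (mag β ^ A.card * S - E)) / T := by
      field_simp
      ring
    rw [h1, abs_div, abs_of_pos hT0, div_lt_iff₀ hT0]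
    have h2 : |S * (T - mag β ^ A.card)| ≤ ε * mag β ^ Q / 4 := by
      rw [abs_mul, abs_of_nonneg (sub_nonneg.2 t1)]
      calc |S| * (T - mag β ^ A.card) ≤ 1 * (T - mag β ^ A.card) :=
            mul_le_mul_of_nonneg_right hS1 (sub_nonneg.2 t1)
        _ ≤ _ := by linarith
    have h3 : |mag β ^ A.card * S - E| ≤ ε * mag β ^ Q / 4 + ε * mag β ^ Q / 4 := by
      rw [abs_sub_comm]
      linarith
    have h4 : ε * mag β ^ Q ≤ ε * T := mul_le_mul_of_nonneg_left (hmA.trans t1) hε.le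
    have h5 : 0 < ε * mag β ^ Q := mul_pos hε hM
    calc |S * (T - mag β ^ A.card) + (mag β ^ A.card * S - E)|
        ≤ |S * (T - mag β ^ A.card)| + |mag β ^ A.card * S - E| := abs_add_le _ _
      _ < ε * T := by linarith
  have hfin := hdiff.add hratio
  rw [zero_add] at hfin
  refine hfin.congr fun n => ?_
  ring

end Pool.Agent.Helper49.RD
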