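import Pool.Agent.Helper49.RD.Same
import Pool.Agent.Helper49.RD.Side
import Pool.Agent.Helper49.DX.Nc
import Pool.Agent.Helper49.DX.Hs

/-!
Block RD-F1: the limit of the probability that the interface passes above given points.

Paper proof of `above_lim`. `AllA n r ω`: `Above n (l - n) c ω` for all strings `(l, c)` of `r` with `c ≥ 1`. `E = Ml g (lin D)/Ml g (one D)`. For large `n` the strings of `ev D n` with `c ≥ 1` are those with `0 < d.h` (at least one), `c n/√n → d.h`, `|l n - n| ≤ (1 - δ) n`. Let `C` be the constant of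
`width` (`DX/Wd.lean`), `L n = ⌈C log n⌉ + 1`, so `P (Wide n ω (L n)) → 0` and `L n/√n → 0`. For a list `r` let `Ap r`: for all `(l, c)` in `r` with `c ≥ 1`: `gg (l - n, c) = gg (l - n, 1 - c) = 1`, and `Am r` the same with `0`. `Ap`, `Am` are disjoint (at least one string with `c ≥ 1`), contained in `SameS`, and have the same
probability (`refl_gg`).
* Upper bound: let `r' = ` the strings `(l, c - L n)` (`c ≥ 1`; `(l, 0)` else), again `ev D' n` for data `D'` with the same limits (`Gd 0 D'`; `c n > L n` for large `n`; modify the finitely many other `n`), so `P (SameS r') → E` (`same_lim`, `lin D' = lin D`). On `AllA r` without `Wide (L n)`: `above_gg`: `Ap r'`. So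
  `P (AllA r) ≤ P (Ap r') + P (Wide) ≤ P (SameS r')/2 + P (Wide)`.
* Lower bound: `Ap r` implies `AllA r` (`gg_above`). `SameS r` minus `Ap r`, `Am r`: there are strings with both ends `1` and with both ends `0`: by `not_mixed` (`K = n - R`) this implies `Wide (L n)` or that a plaquette `(y, 0)`, `|y| ≤ n - R`, is touched; for `t > 0` let `R` be from `no_contact` (`DX/Nc.lean`); `|l n - n| ≤ n - R` for large `n`.
  So `P (SameS r) ≤ 2 P (Ap r) + P (Wide) + t` and `P (AllA r) ≥ (P (SameS r) - P (Wide) - t)/2`.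
-/

open Finset Filter
open scoped Classical

namespace Pool.Agent.Helper49.RD

open Pool.Agent.Helper49.DL Pool.Agent.Helper49.DX

/-- The interface passes above all points given by the strings with `c ≥ 1`. -/
def AllA (n : ℕ) (r : List (ℕ × ℕ)) (ω : Cfg) : Prop :=
  ∀ a ∈ r, a.2 ≠ 0 → Above n ((a.1 : ℤ) - n) a.2 ω

private theorem gd_lt : ∀ {D : List SD} {s : ℝ}, Gd s D → s < 2
  | [], _, h => h
  | _ :: _, _, h => h.1.trans (gd_lt h.2.2.2)

private theorem gd_mem : ∀ {D : List SD} {s : ℝ}, Gd s D → ∀ d ∈ D, s < d.s ∧ d.s < 2 ∧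
    Tendsto (fun n : ℕ => (d.l n : ℝ) / n) atTop (nhds d.s) ∧ Hgt d.c d.h
  | [], _, _, d, hd => absurd hd List.not_mem_nil
  | e :: D, s, h, d, hd => by
    rcases List.mem_cons.1 hd with rfl | hd
    · exact ⟨h.1, gd_lt h.2.2.2, h.2.1, h.2.2.1⟩
    · have h1 := gd_mem h.2.2.2 d hd
      exact ⟨h.1.trans h1.1, h1.2⟩

/-- Shifted data. -/
private def shd (L : ℕ → ℕ) (d : SD) : SD := ⟨d.l, fun n => d.c n - L n, d.s, d.h⟩

private theorem hgt_sh {c L : ℕ → ℕ} {h : ℝ}
    (hL : Tendsto (fun n : ℕ => (L n : ℝ) / Real.sqrt n) atTop (nhds 0)) (hc : Hgt c h) :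
    Hgt (fun n => c n - L n) h := by
  rcases hc with ⟨h1, h2⟩ | ⟨h1, h2⟩
  · left
    refine ⟨h1, ?_⟩
    have h3 := h2.sub hL
    rw [sub_zero] at h3
    refine h3.congr' ?_
    have h4 : ∀ᶠ n : ℕ in atTop, 0 < (c n : ℝ) / Real.sqrt n - (L n : ℝ) / Real.sqrt n :=
      h3.eventually (lt_mem_nhds h1)
    filter_upwards [h4] with n hn
    rw [← sub_div] at hn ⊢
    have h5 : (L n : ℝ) ≤ c n := by
      by_contra hcon
      rw [not_le] at hcon
      have : ((c n : ℝ) - L n) / Real.sqrt n ≤ 0 :=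
        div_nonpos_of_nonpos_of_nonneg (by linarith) (Real.sqrt_nonneg _)
      linarith
    have h6 : L n ≤ c n := by exact_mod_cast h5
    rw [Nat.cast_sub h6]
  · right
    exact ⟨h1, fun n => by simp [h2 n]⟩

private theorem gd_sh {L : ℕ → ℕ} (hL : Tendsto (fun n : ℕ => (L n : ℝ) / Real.sqrt n) atTop (nhds 0)) :
    ∀ {D : List SD} {s : ℝ}, Gd s D → Gd s (D.map (shd L))
  | [], _, h => h
  | _ :: _, _, h => ⟨h.1, h.2.1, hgt_sh hL h.2.2.1, gd_sh hL h.2.2.2⟩

private theorem PJ_or' {β J : ℝ} {n : ℤ} {E F G : Cfg → Prop}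
    (h : ∀ ω ∈ confs (box n n) (eta 0), E ω → F ω ∨ G ω) :
    PJ β J n E ≤ PJ β J n F + PJ β J n G := by
  unfold PJ
  rw [← avg_add]
  refine avg_mono fun ω hω => ?_
  by_cases hE : E ω
  · rw [if_pos hE]
    rcases h ω hω hE with h1 | h1
    · rw [if_pos h1]
      split_ifs <;> norm_num
    · rw [if_pos h1]
      split_ifs <;> norm_num
  · rw [if_neg hE]
    split_ifs <;> norm_num

private theorem PJ_dis {β J : ℝ} {n : ℤ} {E F G : Cfg → Prop} (h1 : ∀ ω, E ω → G ω) (h2 : ∀ ω, F ω → G ω)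
    (h3 : ∀ ω, E ω → F ω → False) : PJ β J n E + PJ β J n F ≤ PJ β J n G := by
  unfold PJ
  rw [← avg_add]
  refine avg_mono fun ω _ => ?_
  by_cases hE : E ω
  · rw [if_pos hE, if_neg (fun hF => h3 ω hE hF), if_pos (h1 ω hE)]
    norm_num
  · rw [if_neg hE]
    by_cases hF : F ω
    · rw [if_pos hF, if_pos (h2 ω hF)]
      norm_num
    · rw [if_neg hF]
      split_ifs <;> norm_num

private theorem PJ_nonneg' (β J : ℝ) (n : ℤ) (E : Cfg → Prop) : 0 ≤ PJ β J n E := by
  have h := PJ_dis (β := β) (J := J) (n := n) (E := fun _ => False) (F := E) (G := E) (fun _ h => h.elim)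
    (fun _ h => h) (fun _ h _ => h)
  have h0 : PJ β J n (fun _ => False) = 0 := by
    unfold PJ
    have h1 := avg_add (β := β) (κ := kap J) (Λ := box n n) (η := eta 0) (fun _ : Cfg => (0 : ℝ)) (fun _ => 0)
    simp only [add_zero] at h1
    simp only [if_false]
    linarith
  have h2 := PJ_dis (β := β) (J := J) (n := n) (E := fun _ => False) (F := fun _ => False) (G := E)
    (fun _ h => h.elim) (fun _ h => h.elim) (fun _ h _ => h)
  rw [h0] at h2
  linarith

/-- All the ends have the side `v`. -/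
private def ApS (n : ℕ) (r : List (ℕ × ℕ)) (v : ZMod 2) (ω : Cfg) : Prop :=
  ∀ a ∈ r, a.2 ≠ 0 → gg n n ω ((a.1 : ℤ) - n, (a.2 : ℤ)) = v ∧ gg n n ω ((a.1 : ℤ) - n, 1 - (a.2 : ℤ)) = v

private theorem same_of {n : ℕ} {r : List (ℕ × ℕ)} {v : ZMod 2} {ω : Cfg} (h : ApS n r v ω) : SameS n r ω := by
  intro a ha h0
  obtain ⟨h1, h2⟩ := h a ha h0
  unfold sgg
  rw [h1, h2]

private theorem aps_refl {n : ℕ} (hn : 1 ≤ n) (β J : ℝ) {r : List (ℕ × ℕ)}
    (hr : ∀ a ∈ r, |(a.1 : ℤ) - n| ≤ n ∧ a.2 ≤ n) :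
    PJ β J n (ApS n r 0) = PJ β J n (ApS n r 1) := by
  have key : ∀ v : ZMod 2, ApS n r v = fun ω => ∀ a ∈ (r.filter fun a => a.2 ≠ 0).map fun a => ((a.1 : ℤ) - n, (a.2 : ℤ)),
      gg n n ω (a.1, a.2) = v ∧ gg n n ω (a.1, 1 - a.2) = v := by
    intro v
    funext ω
    refine propext ⟨fun h b hb => ?_, fun h a ha h0 => ?_⟩
    · obtain ⟨a, ha, rfl⟩ := List.mem_map.1 hb
      rw [List.mem_filter] at ha
      exact h a ha.1 (by simpa using ha.2)
    · exact h _ (List.mem_map.2 ⟨a, List.mem_filter.2 ⟨ha, by simpa using h0⟩, rfl⟩)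
  rw [key 0, key 1]
  refine refl_gg hn β J _ fun b hb => ?_
  obtain ⟨a, ha, rfl⟩ := List.mem_map.1 hb
  rw [List.mem_filter] at ha
  have h0 : a.2 ≠ 0 := by simpa using ha.2
  have h1 := hr a ha.1
  exact ⟨h1.1, by dsimp only; omega, by dsimp only; omega⟩

private theorem zmod2 (x : ZMod 2) : x = 0 ∨ x = 1 := by
  revert x
  decide

/-- The inequalities for a fixed size. -/
private theorem fixed_up {β J : ℝ} {n L : ℕ} (hn : 1 ≤ n) {r : List (ℕ × ℕ)}
    (hr : ∀ a ∈ r, |(a.1 : ℤ) - n| ≤ n ∧ a.2 ≤ n ∧ (a.2 ≠ 0 → L + 1 ≤ a.2)) (hex : ∃ a ∈ r, a.2 ≠ 0) :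
    PJ β J n (AllA n r) ≤ 1 / 2 * PJ β J n (SameS n (r.map fun a => (a.1, a.2 - L))) +
      PJ β J n (fun ω => Wide n ω L) := by
  set r' := r.map fun a => (a.1, a.2 - L) with hr'
  have h1 : PJ β J n (AllA n r) ≤ PJ β J n (ApS n r' 1) + PJ β J n (fun ω => Wide n ω L) := by
    refine PJ_or' fun ω hω hA => ?_
    by_cases hW : Wide n ω L
    · exact Or.inr hW
    · left
      intro b hb h0
      obtain ⟨a, ha, rfl⟩ := List.mem_map.1 hb
      dsimp only at h0 ⊢
      have ha0 : a.2 ≠ 0 := by omega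
      have h2 := (hr a ha).2.2 ha0
      have h3 := hA a ha ha0
      have hN : (0 : ℤ) ≤ n := by omega
      have hM : (1 : ℤ) ≤ n := by omega
      have hc : ((a.2 - L : ℕ) : ℤ) = (a.2 : ℤ) - L := by omega
      exact ⟨above_gg hω hN hM h3 hW (by omega), above_gg hω hN hM h3 hW (by omega)⟩
  have h2 : PJ β J n (ApS n r' 0) + PJ β J n (ApS n r' 1) ≤ PJ β J n (SameS n r') := by
    refine PJ_dis (fun ω h => same_of h) (fun ω h => same_of h) fun ω h h' => ?_
    obtain ⟨a, ha, ha0⟩ := hex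
    have h3 := (hr a ha).2.2 ha0
    have hm : (a.1, a.2 - L) ∈ r' := List.mem_map.2 ⟨a, ha, rfl⟩
    have h4 := (h _ hm (by dsimp only; omega)).1
    have h5 := (h' _ hm (by dsimp only; omega)).1
    rw [h4] at h5
    exact zero_ne_one h5
  have h3 : PJ β J n (ApS n r' 0) = PJ β J n (ApS n r' 1) := by
    refine aps_refl hn β J fun b hb => ?_
    obtain ⟨a, ha, rfl⟩ := List.mem_map.1 hb
    have h4 := hr a ha
    exact ⟨h4.1, by dsimp only; omega⟩
  linarith

private theorem fixed_lo {β J : ℝ} {n L : ℕ} {R : ℤ} (hn : 1 ≤ n) (hR : 0 ≤ R) {r : List (ℕ × ℕ)}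
    (hr : ∀ a ∈ r, |(a.1 : ℤ) - n| ≤ n - R ∧ a.2 ≤ n ∧ (a.2 ≠ 0 → L + 1 ≤ a.2)) :
    PJ β J n (SameS n r) ≤ 2 * PJ β J n (AllA n r) + PJ β J n (fun ω => Wide n ω L) +
      PJ β J n (fun ω => ∃ x : ℤ, |x| ≤ n - R ∧ On n ω (x, 0)) := by
  have h0 : PJ β J n (SameS n r) ≤ PJ β J n (fun ω => ApS n r 1 ω ∨ ApS n r 0 ω) +
      PJ β J n (fun ω => Wide n ω L ∨ ∃ x : ℤ, |x| ≤ n - R ∧ On n ω (x, 0)) := by
    refine PJ_or' fun ω hω hS => ?_
    by_cases hW : Wide n ω L
    · exact Or.inr (Or.inl hW)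
    by_cases hO : ∃ x : ℤ, |x| ≤ n - R ∧ On n ω (x, 0)
    · exact Or.inr (Or.inr hO)
    left
    have hsame : ∀ a ∈ r, a.2 ≠ 0 → gg n n ω ((a.1 : ℤ) - n, (a.2 : ℤ)) = gg n n ω ((a.1 : ℤ) - n, 1 - (a.2 : ℤ)) := by
      intro a ha h0
      have h1 := hS a ha h0
      unfold sgg at h1
      rcases zmod2 (gg n n ω ((a.1 : ℤ) - n, (a.2 : ℤ))) with e | e <;>
        rcases zmod2 (gg n n ω ((a.1 : ℤ) - n, 1 - (a.2 : ℤ))) with e' | e'
      · rw [e, e']
      · rw [e, e', if_pos rfl, if_neg one_ne_zero] at h1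
        norm_num at h1
      · rw [e, e', if_pos rfl, if_neg one_ne_zero] at h1
        norm_num at h1
      · rw [e, e']
    by_contra hcon
    rw [not_or] at hcon
    obtain ⟨h1, h2⟩ := hcon
    unfold ApS at h1 h2
    push Not at h1 h2
    obtain ⟨a, ha, ha0, ha1⟩ := h1
    obtain ⟨b, hb, hb0, hb1⟩ := h2
    have ea := hsame a ha ha0
    have eb := hsame b hb hb0
    -- a has side 0, b has side 1
    have ga : gg n n ω ((a.1 : ℤ) - n, 1 - (a.2 : ℤ)) = 0 := by
      rcases zmod2 (gg n n ω ((a.1 : ℤ) - n, 1 - (a.2 : ℤ))) with e | e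
      · exact e
      · exact absurd e (ha1 (ea.trans e))
    have gb : gg n n ω ((b.1 : ℤ) - n, (b.2 : ℤ)) = 1 := by
      rcases zmod2 (gg n n ω ((b.1 : ℤ) - n, (b.2 : ℤ))) with e | e
      · exact absurd (eb.symm.trans e) (hb1 e)
      · exact e
    have hra := hr a ha
    have hrb := hr b hb
    have h3 := hra.2.2 ha0
    have h4 := hrb.2.2 hb0
    refine not_mixed hω (by omega) (by omega) (K := n - R) (L := L) (x := (b.1 : ℤ) - n) (x' := (a.1 : ℤ) - n)
      (c := b.2) (c' := a.2) (fun y hy hy2 => hO ⟨y, hy, hy2⟩) hW hrb.1 hra.1 (by omega) (by omega) (by omega) gb ga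
  have hsub : ∀ a ∈ r, |(a.1 : ℤ) - n| ≤ n ∧ a.2 ≤ n := fun a ha => ⟨(hr a ha).1.trans (by omega), (hr a ha).2.1⟩
  have h1 : PJ β J n (fun ω => ApS n r 1 ω ∨ ApS n r 0 ω) ≤ PJ β J n (ApS n r 1) + PJ β J n (ApS n r 0) :=
    PJ_or' fun ω _ h => h
  have h2 : PJ β J n (fun ω => Wide n ω L ∨ ∃ x : ℤ, |x| ≤ n - R ∧ On n ω (x, 0)) ≤
      PJ β J n (fun ω => Wide n ω L) + PJ β J n (fun ω => ∃ x : ℤ, |x| ≤ n - R ∧ On n ω (x, 0)) :=
    PJ_or' fun ω _ h => h
  have h3 : PJ β J n (ApS n r 0) = PJ β J n (ApS n r 1) := aps_refl hn β J hsub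
  have h4 : PJ β J n (ApS n r 1) ≤ PJ β J n (AllA n r) :=
    PJ_mono fun ω h a ha h0 => gg_above (h a ha h0).1
  linarith

private theorem log_sqrt : Tendsto (fun n : ℕ => Real.log n / Real.sqrt n) atTop (nhds 0) := by
  have h1 := (isLittleO_log_rpow_atTop (show (0 : ℝ) < 1 / 2 by norm_num)).tendsto_div_nhds_zero
  have h2 := h1.comp tendsto_natCast_atTop_atTop
  refine h2.congr fun n => ?_
  simp only [Function.comp_apply]
  rw [Real.sqrt_eq_rpow]

private theorem inv_sqrt : Tendsto (fun n : ℕ => 1 / Real.sqrt n) atTop (nhds 0) := by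
  have h : Tendsto (fun n : ℕ => Real.sqrt n) atTop atTop := Real.tendsto_sqrt_atTop.comp tendsto_natCast_atTop_atTop
  have h2 := h.inv_tendsto_atTop
  refine h2.congr fun n => ?_
  rw [Pi.inv_apply, one_div]

private theorem ev_facts {D : List SD} (hD : Gd 0 D) {L : ℕ → ℕ}
    (hL : Tendsto (fun n : ℕ => (L n : ℝ) / Real.sqrt n) atTop (nhds 0)) (R : ℤ) :
    ∀ᶠ n : ℕ in atTop, ∀ a ∈ ev D n, |(a.1 : ℤ) - n| ≤ n - R ∧ a.2 ≤ n ∧ (a.2 ≠ 0 → L n + 1 ≤ a.2) := by
  have h1 : ∀ᶠ n : ℕ in atTop, ∀ d ∈ {d | d ∈ D}, |(d.l n : ℤ) - n| ≤ n - R ∧ d.c n ≤ n ∧ (d.c n ≠ 0 → L n + 1 ≤ d.c n) := by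
    rw [eventually_all_finite (List.finite_toSet D)]
    intro d hd
    obtain ⟨hs0, hs2, hl, hc⟩ := gd_mem hD d hd
    have e1 : ∀ᶠ n : ℕ in atTop, d.s / 2 < (d.l n : ℝ) / n := hl.eventually (lt_mem_nhds (by linarith))
    have e2 : ∀ᶠ n : ℕ in atTop, (d.l n : ℝ) / n < (d.s + 2) / 2 := hl.eventually (gt_mem_nhds (by linarith))
    have e3 : ∀ᶠ n : ℕ in atTop, (R : ℝ) ≤ d.s / 2 * n :=
      (tendsto_natCast_atTop_atTop.const_mul_atTop (show 0 < d.s / 2 by linarith)).eventually_ge_atTop _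
    have e4 : ∀ᶠ n : ℕ in atTop, (R : ℝ) ≤ (2 - d.s) / 2 * n :=
      (tendsto_natCast_atTop_atTop.const_mul_atTop (show 0 < (2 - d.s) / 2 by linarith)).eventually_ge_atTop _
    have e5 : ∀ᶠ n : ℕ in atTop, d.c n ≤ n ∧ (d.c n ≠ 0 → L n + 1 ≤ d.c n) := by
      rcases hc with ⟨h1, h2⟩ | ⟨h1, h2⟩
      · have f1 : ∀ᶠ n : ℕ in atTop, (d.c n : ℝ) / Real.sqrt n < d.h + 1 := h2.eventually (gt_mem_nhds (by linarith))
        have f2 : ∀ᶠ n : ℕ in atTop, d.h + 1 ≤ Real.sqrt n :=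
          (Real.tendsto_sqrt_atTop.comp tendsto_natCast_atTop_atTop).eventually_ge_atTop _
        have f3 : Tendsto (fun n : ℕ => (d.c n : ℝ) / Real.sqrt n - (L n : ℝ) / Real.sqrt n - 1 / Real.sqrt n) atTop
            (nhds d.h) := by
          have := (h2.sub hL).sub inv_sqrt
          simpa using this
        have f4 := f3.eventually (lt_mem_nhds h1)
        filter_upwards [f1, f2, f4, eventually_ge_atTop 1] with n g1 g2 g4 g5
        have hs : 0 < Real.sqrt n := Real.sqrt_pos.2 (by exact_mod_cast g5)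
        constructor
        · rw [div_lt_iff₀ hs] at g1
          have : (d.c n : ℝ) ≤ n := by
            calc (d.c n : ℝ) ≤ (d.h + 1) * Real.sqrt n := g1.le
              _ ≤ Real.sqrt n * Real.sqrt n := mul_le_mul_of_nonneg_right g2 hs.le
              _ = n := Real.mul_self_sqrt (Nat.cast_nonneg n)
          exact_mod_cast this
        · intro _
          rw [← sub_div, ← sub_div, lt_div_iff₀ hs, zero_mul] at g4
          have : (L n : ℝ) + 1 ≤ d.c n := by linarith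
          exact_mod_cast this
      · exact Eventually.of_forall fun n => ⟨by rw [h2 n]; omega, fun h => absurd (h2 n) h⟩
    filter_upwards [e1, e2, e3, e4, e5, eventually_ge_atTop 1] with n g1 g2 g3 g4 g5 g6
    refine ⟨?_, g5⟩
    have hn : (0 : ℝ) < n := by exact_mod_cast g6
    rw [lt_div_iff₀ hn] at g1
    rw [div_lt_iff₀ hn] at g2
    have k1 : (R : ℝ) ≤ d.l n := by linarith
    have k2 : (d.l n : ℝ) ≤ 2 * n - R := by nlinarith
    have k1' : R ≤ d.l n := by exact_mod_cast k1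
    have k2' : (d.l n : ℤ) ≤ 2 * n - R := by exact_mod_cast k2
    rw [abs_le]
    constructor <;> omega
  filter_upwards [h1] with n hn a ha
  obtain ⟨d, hd, rfl⟩ := List.mem_map.1 ha
  exact hn d hd

theorem above_lim {β₁ β J : ℝ} (h0 : 0 ≤ β₁) (h : β₁ < β) (hm : 0 < mag β₁) (hJ : 1 < J) {D : List SD}
    (hD : Gd 0 D) (hp : ∃ d ∈ D, 0 < d.h) :
    Tendsto (fun n : ℕ => PJ β J n (AllA n (ev D n))) atTop
      (nhds (1 / 2 * (Ml (sg (Real.exp (-β))) (lin D) / Ml (sg (Real.exp (-β))) (one D)))) := by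
  obtain ⟨d0, hd0, hh0⟩ := hp
  have hne : D ≠ [] := List.ne_nil_of_mem hd0
  obtain ⟨C, hC, hw⟩ := width h0 h hm hJ.le
  set L : ℕ → ℕ := fun n => ⌈C * Real.log n⌉₊ + 1 with hLdef
  have hL : Tendsto (fun n : ℕ => (L n : ℝ) / Real.sqrt n) atTop (nhds 0) := by
    have h1 : Tendsto (fun n : ℕ => C * (Real.log n / Real.sqrt n) + 2 * (1 / Real.sqrt n)) atTop (nhds 0) := by
      have := (log_sqrt.const_mul C).add (inv_sqrt.const_mul 2)
      simpa using this
    refine squeeze_zero' (Eventually.of_forall fun n => by positivity) ?_ h1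
    filter_upwards [eventually_ge_atTop 1] with n hn
    have hlog : 0 ≤ C * Real.log n := mul_nonneg hC.le (Real.log_nonneg (by exact_mod_cast hn))
    have hceil : (⌈C * Real.log n⌉₊ : ℝ) ≤ C * Real.log n + 1 := (Nat.ceil_lt_add_one hlog).le
    have e : C * (Real.log n / Real.sqrt n) + 2 * (1 / Real.sqrt n) = (C * Real.log n + 2) / Real.sqrt n := by ring
    rw [e]
    refine div_le_div_of_nonneg_right ?_ (Real.sqrt_nonneg _)
    rw [hLdef]
    push_cast
    linarith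
  have hW : Tendsto (fun n : ℕ => PJ β J n (fun ω => Wide n ω (L n))) atTop (nhds 0) := by
    refine tendsto_order.2 ⟨fun a ha => Eventually.of_forall fun n => lt_of_lt_of_le ha (PJ_nonneg' β J n _),
      fun a ha => ?_⟩
    obtain ⟨n0, hn0⟩ := hw (a / 2) (by linarith)
    filter_upwards [eventually_ge_atTop n0.toNat] with n hn
    have h1 := hn0 n (by omega) (L n) (by
      rw [hLdef]
      push_cast
      have := Nat.le_ceil (C * Real.log n)
      linarith) (by
      rw [hLdef]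
      push_cast
      omega)
    have h2 : PJ β J n (fun ω => Wide n ω (L n)) ≤ a / 2 := h1
    linarith
  have hSame := same_lim h0 h hm hJ hne hD
  have hD' := gd_sh hL hD
  have hSame' := same_lim h0 h hm hJ (D := D.map (shd L)) (by simpa using hne) hD'
  have hlin : lin (D.map (shd L)) = lin D := by
    unfold lin
    rw [List.map_map]
    rfl
  have hone : one (D.map (shd L)) = one D := by
    unfold one
    rw [List.map_map]
    rfl
  rw [hlin, hone] at hSame'
  set E := Ml (sg (Real.exp (-β))) (lin D) / Ml (sg (Real.exp (-β))) (one D) with hE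
  have hex : ∀ᶠ n : ℕ in atTop, ∃ a ∈ ev D n, a.2 ≠ 0 := by
    obtain ⟨_, _, _, hc⟩ := gd_mem hD d0 hd0
    rcases hc with ⟨h1, h2⟩ | ⟨h1, _⟩
    · filter_upwards [h2.eventually (lt_mem_nhds h1)] with n hn
      refine ⟨(d0.l n, d0.c n), List.mem_map.2 ⟨d0, hd0, rfl⟩, fun h0 => ?_⟩
      dsimp only at h0
      rw [h0, Nat.cast_zero, zero_div] at hn
      exact lt_irrefl _ hn
    · exact absurd h1 hh0.ne'
  refine tendsto_order.2 ⟨fun a ha => ?_, fun a ha => ?_⟩
  · -- lower bound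
    have ht : 0 < 1 / 2 * E - a := by linarith
    obtain ⟨R, n0, hR, hno⟩ := no_contact h0 h hm hJ ht
    have hlim : Tendsto (fun n : ℕ => (PJ β J n (SameS n (ev D n)) - PJ β J n (fun ω => Wide n ω (L n)) -
        (1 / 2 * E - a)) / 2) atTop (nhds ((E - 0 - (1 / 2 * E - a)) / 2)) :=
      ((hSame.sub hW).sub_const _).div_const 2
    have hlt : a < (E - 0 - (1 / 2 * E - a)) / 2 := by linarith
    filter_upwards [hlim.eventually (lt_mem_nhds hlt), ev_facts hD hL R, eventually_ge_atTop 1,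
      eventually_ge_atTop n0.toNat] with n g1 g2 g3 g4
    have h1 := fixed_lo (β := β) (J := J) (L := L n) g3 hR g2
    have h2 : PJ β J n (fun ω => ∃ x : ℤ, |x| ≤ n - R ∧ On n ω (x, 0)) ≤ 1 / 2 * E - a :=
      hno n n (by omega) le_rfl
    linarith
  · -- upper bound
    have hlim : Tendsto (fun n : ℕ => 1 / 2 * PJ β J n (SameS n (ev (D.map (shd L)) n)) +
        PJ β J n (fun ω => Wide n ω (L n))) atTop (nhds (1 / 2 * E + 0)) :=
      (hSame'.const_mul _).add hW
    rw [add_zero] at hlim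
    filter_upwards [hlim.eventually (gt_mem_nhds ha), ev_facts hD hL 0, eventually_ge_atTop 1, hex] with n g1 g2 g3 g4
    have h1 := fixed_up (β := β) (J := J) (L := L n) g3 (r := ev D n) (fun a ha => by
      have := g2 a ha
      rw [sub_zero] at this
      exact this) g4
    have h2 : ev (D.map (shd L)) n = (ev D n).map fun a => (a.1, a.2 - L n) := by
      unfold ev
      rw [List.map_map, List.map_map]
      rfl
    rw [h2] at g1
    linarith

end Pool.Agent.Helper49.RD
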