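import Pool.Agent.Helper49.RD.Phase
import Pool.Agent.Helper49.DX.Exc
import Pool.Agent.Helper49.RD.FeDef

/-!
Block RD-RS: probability that the two ends of every string are on the same side of the interface.

`SameS n r ω`: for all strings `(l, c)` of `r`: `sgg (l - n, c) = sgg (l - n, 1 - c)` (condition empty for `c = 0`). `ind h z = 1` if `h ≤ z`, else `0`; `lin D` is the list of the `(d.s, ind d.h)`, `one D` the list of the `(d.s, 1)`.

Paper proof of `same_lim`. `1_{SameS} = ∏_{(l, c)} (1 + σ_(l,c))/2` with `σ = sgg * sgg = ±1` (`σ = 1` for `c = 0`). Claim, by induction on `suf`, for all `pre`: if `Gd 0 (pre ++ suf)`, `pre ++ suf ≠ []` then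
`avg (eta 0) (fun ω => sgp n (ev pre n) ω * 1_{SameS n (ev suf n) ω}) → Ml g (li pre ++ lin suf)/Ml g (one (pre ++ suf))`. For `suf = []`: `sgp_lim` (`Ml g (li (zer D)) = Ml g (one D)`: the multipliers agree on `(0, ∞)`, `chs 0 z = 1` for `z > 0`; the integrals are over `(0, ∞)`). For `suf = d :: suf'`: `1_{SameS (d :: suf')} = (1 + σ_d)/2 * 1_{SameS suf'}`, `sgp (pre ++ [d]) = sgp pre * σ_d`, `sgp (pre ++ [d₀]) = sgp pre` with `d₀ = ⟨d.l, 0, d.s, 0⟩`; use the induction hypothesis for `pre ++ [d₀]` and `pre ++ [d]`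
(`Gd` holds for both) and `ml_split` with `α = γ = 1/2` (`ind h z = (chs 0 z + chs h z)/2` for `z > 0`, if `0 ≤ h`).
-/

open Finset Filter
open scoped Classical

namespace Pool.Agent.Helper49.RD

open Pool.Agent.Helper49.DL Pool.Agent.Helper49.DX

/-- The ends of all strings are on the same side. -/
def SameS (n : ℕ) (r : List (ℕ × ℕ)) (ω : Cfg) : Prop :=
  ∀ a ∈ r, a.2 ≠ 0 → sgg n n ω ((a.1 : ℤ) - n, (a.2 : ℤ)) = sgg n n ω ((a.1 : ℤ) - n, 1 - (a.2 : ℤ))

/-- Limiting times and indicators. -/
noncomputable def lin (D : List SD) : List (ℝ × (ℝ → ℝ)) := D.map (fun d => (d.s, ind d.h))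

/-- Limiting times, no condition. -/
noncomputable def one (D : List SD) : List (ℝ × (ℝ → ℝ)) := D.map (fun d => (d.s, fun _ => 1))

private lemma chs_meas27 (h : ℝ) : Measurable (chs h) ∧ ∀ z, |chs h z| ≤ 1 := by
  constructor
  · unfold chs
    exact Measurable.ite measurableSet_Iio measurable_const measurable_const
  · intro z
    unfold chs
    split_ifs <;> simp

private lemma ind_meas27 (h : ℝ) : Measurable (ind h) ∧ ∀ z, |ind h z| ≤ 1 := by
  constructor
  · unfold ind
    exact Measurable.ite measurableSet_Ici measurable_const measurable_const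
  · intro z
    unfold ind
    split_ifs <;> simp

private lemma bl_congr27 (g : ℝ) {r r' : List (ℝ × (ℝ → ℝ))}
    (h : List.Forall₂ (fun a b => a.1 = b.1 ∧ ∀ z : ℝ, 0 < z → a.2 z = b.2 z) r r') :
    ∀ s : ℝ, Bl g s r = Bl g s r' := by
  induction h with
  | nil => intro s; rfl
  | @cons a b r r' hab _ ih =>
    intro s
    show Tv (g * (a.1 - s)) (fun z => a.2 z * Bl g a.1 r z) = Tv (g * (b.1 - s)) (fun z => b.2 z * Bl g b.1 r' z)
    rw [hab.1]
    funext y
    unfold Tv
    refine MeasureTheory.setIntegral_congr_fun measurableSet_Ioi ?_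
    intro z hz
    show hk _ y z * (a.2 z * Bl g b.1 r z) = hk _ y z * (b.2 z * Bl g b.1 r' z)
    rw [hab.2 z hz, ih]

private lemma ml_congr27 (g : ℝ) {r r' : List (ℝ × (ℝ → ℝ))}
    (h : List.Forall₂ (fun a b => a.1 = b.1 ∧ ∀ z : ℝ, 0 < z → a.2 z = b.2 z) r r') :
    Ml g r = Ml g r' := by
  cases h with
  | nil => rfl
  | @cons a b r r' hab hr =>
    show La (g * a.1) (fun z => a.2 z * Bl g a.1 r z) = La (g * b.1) (fun z => b.2 z * Bl g b.1 r' z)
    rw [hab.1]
    unfold La
    refine MeasureTheory.setIntegral_congr_fun measurableSet_Ioi ?_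
    intro z hz
    show rho _ z * (a.2 z * Bl g b.1 r z) = rho _ z * (b.2 z * Bl g b.1 r' z)
    rw [hab.2 z hz, bl_congr27 g hr]

private lemma zer_one27 (g : ℝ) (D : List SD) : Ml g (li (zer D)) = Ml g (one D) := by
  apply ml_congr27
  unfold li zer one
  rw [List.map_map, List.forall₂_map_left_iff, List.forall₂_map_right_iff, List.forall₂_same]
  intro d _
  refine ⟨rfl, fun z hz => ?_⟩
  show chs 0 z = 1
  unfold chs
  rw [if_neg (not_lt.2 hz.le)]

private lemma inc_congr27 {r r' : List (ℝ × (ℝ → ℝ))} (h : r.map Prod.fst = r'.map Prod.fst) :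
    ∀ s : ℝ, Inc s r → Inc s r' := by
  induction r generalizing r' with
  | nil =>
    cases r' with
    | nil => exact fun s hs => hs
    | cons b r' => simp at h
  | cons a r ih =>
    cases r' with
    | nil => simp at h
    | cons b r' =>
      simp only [List.map_cons, List.cons.injEq] at h
      intro s hs
      obtain ⟨h1, h2⟩ := hs
      refine ⟨h.1 ▸ h1, ?_⟩
      rw [← h.1]
      exact ih h.2 _ h2

private noncomputable def sig27 (n : ℕ) (ω : Cfg) (a : ℕ × ℕ) : ℝ := if a.2 = 0 then 1 else
  sgg n n ω ((a.1 : ℤ) - n, (a.2 : ℤ)) * sgg n n ω ((a.1 : ℤ) - n, 1 - (a.2 : ℤ))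

private lemma sgp_append27 (n : ℕ) (ω : Cfg) (r : List (ℕ × ℕ)) (a : ℕ × ℕ) :
    sgp n (r ++ [a]) ω = sgp n r ω * sig27 n ω a := by
  induction r with
  | nil =>
    show sig27 n ω a * 1 = 1 * sig27 n ω a
    ring
  | cons b r ih =>
    show sig27 n ω b * sgp n (r ++ [a]) ω = sig27 n ω b * sgp n r ω * sig27 n ω a
    rw [ih]
    ring

private lemma same_cons27 (n : ℕ) (ω : Cfg) (r : List (ℕ × ℕ)) (a : ℕ × ℕ) :
    (if SameS n (a :: r) ω then (1 : ℝ) else 0) =
      1 / 2 * (if SameS n r ω then (1 : ℝ) else 0) +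
        1 / 2 * (sig27 n ω a * (if SameS n r ω then (1 : ℝ) else 0)) := by
  have hiff : SameS n (a :: r) ω ↔
      (a.2 ≠ 0 → sgg n n ω ((a.1 : ℤ) - n, (a.2 : ℤ)) = sgg n n ω ((a.1 : ℤ) - n, 1 - (a.2 : ℤ))) ∧
        SameS n r ω := by
    unfold SameS
    rw [List.forall_mem_cons]
  by_cases hr : SameS n r ω
  · rw [if_pos hr]
    by_cases h0 : a.2 = 0
    · have hs : SameS n (a :: r) ω := hiff.2 ⟨fun h => absurd h0 h, hr⟩
      rw [if_pos hs]
      unfold sig27
      rw [if_pos h0]
      norm_num
    · unfold sig27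
      rw [if_neg h0]
      have hiff2 : SameS n (a :: r) ω ↔
          sgg n n ω ((a.1 : ℤ) - n, (a.2 : ℤ)) = sgg n n ω ((a.1 : ℤ) - n, 1 - (a.2 : ℤ)) := by
        rw [hiff]
        exact ⟨fun h => h.1 h0, fun h => ⟨fun _ => h, hr⟩⟩
      simp only [hiff2]
      unfold sgg
      split_ifs <;> norm_num at *
  · have hs : ¬ SameS n (a :: r) ω := fun h => hr (hiff.1 h).2
    rw [if_neg hs, if_neg hr]
    ring

private lemma gd_set27 {d : SD} {suf : List SD} : ∀ (pre : List SD) (s : ℝ), Gd s (pre ++ d :: suf) →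
    Gd s (pre ++ (⟨d.l, fun _ => 0, d.s, 0⟩ : SD) :: suf) := by
  intro pre
  induction pre with
  | nil =>
    intro s h
    obtain ⟨h1, h2, h3, h4⟩ := h
    exact ⟨h1, h2, Or.inr ⟨rfl, fun _ => rfl⟩, h4⟩
  | cons a pre ih =>
    intro s h
    obtain ⟨h1, h2, h3, h4⟩ := h
    exact ⟨h1, h2, h3, ih _ h4⟩

theorem same_lim {β₁ β J : ℝ} (h0 : 0 ≤ β₁) (h : β₁ < β) (hm : 0 < mag β₁) (hJ : 1 < J) {D : List SD}
    (hne : D ≠ []) (hD : Gd 0 D) :
    Tendsto (fun n : ℕ => PJ β J n (SameS n (ev D n))) atTop
      (nhds (Ml (sg (Real.exp (-β))) (lin D) / Ml (sg (Real.exp (-β))) (one D))) := by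
  have hg : 0 < sg (Real.exp (-β)) := by
    have hq := t_small h0 h hm
    have ht := Real.exp_pos (-β)
    have hβ : 0 < β := h0.trans_lt h
    have ht1 : Real.exp (-β) < 1 := by
      rw [Real.exp_lt_one_iff]
      linarith
    have l0 := lam_pos ht ht1
    have l1 := lam_lt_one ht hq
    unfold sg
    exact div_pos (by positivity) (by nlinarith)
  set g := sg (Real.exp (-β)) with hgdef
  have claim : ∀ (suf pre : List SD), pre ++ suf ≠ [] → Gd 0 (pre ++ suf) →
      Tendsto (fun n : ℕ => avg β (kap J) (box n n) (eta 0)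
        (fun ω => sgp n (ev pre n) ω * (if SameS n (ev suf n) ω then (1 : ℝ) else 0))) atTop
        (nhds (Ml g (li pre ++ lin suf) / Ml g (one (pre ++ suf)))) := by
    intro suf
    induction suf with
    | nil =>
      intro pre hne hD
      rw [List.append_nil] at hne hD
      have h1 := sgp_lim h0 h hm hJ hne hD
      rw [← hgdef, zer_one27] at h1
      have e1 : li pre ++ lin [] = li pre := by
        unfold lin
        simp
      rw [e1, List.append_nil]
      refine h1.congr (fun n => avg_congr fun ω _ => ?_)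
      have : SameS n (ev [] n) ω := by
        intro a ha
        simp [ev] at ha
      rw [if_pos this, mul_one]
    | cons d suf ih =>
      intro pre _ hD
      have hD0 := gd_set27 pre 0 hD
      set d0 : SD := ⟨d.l, fun _ => 0, d.s, 0⟩ with hd0
      have a0 : (pre ++ [d0]) ++ suf = pre ++ d0 :: suf := by simp
      have a1 : (pre ++ [d]) ++ suf = pre ++ d :: suf := by simp
      have i0 := ih (pre ++ [d0]) (by simp) (by rw [a0]; exact hD0)
      have i1 := ih (pre ++ [d]) (by simp) (by rw [a1]; exact hD)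
      have o0 : one ((pre ++ [d0]) ++ suf) = one (pre ++ d :: suf) := by
        unfold one
        simp [hd0]
      rw [o0] at i0
      rw [a1] at i1
      have l0 : li (pre ++ [d0]) ++ lin suf = li pre ++ (d.s, chs 0) :: lin suf := by
        unfold li
        simp [hd0]
      have l1 : li (pre ++ [d]) ++ lin suf = li pre ++ (d.s, chs d.h) :: lin suf := by
        unfold li
        simp
      have l2 : li pre ++ lin (d :: suf) = li pre ++ (d.s, ind d.h) :: lin suf := by
        unfold lin
        simp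
      rw [l0] at i0
      rw [l1] at i1
      rw [l2]
      have hinc : Inc 0 (li pre ++ (d.s, chs 0) :: lin suf) := by
        refine inc_congr27 ?_ 0 (gd_inc hD)
        unfold li lin
        simp [List.map_map, Function.comp_def]
      have hpre : ∀ a ∈ li pre, Measurable a.2 ∧ ∀ z, |a.2 z| ≤ 1 := by
        intro a ha
        unfold li at ha
        obtain ⟨d', _, rfl⟩ := List.mem_map.1 ha
        exact chs_meas27 d'.h
      have hsuf : ∀ a ∈ lin suf, Measurable a.2 ∧ ∀ z, |a.2 z| ≤ 1 := by
        intro a ha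
        unfold lin at ha
        obtain ⟨d', _, rfl⟩ := List.mem_map.1 ha
        exact ind_meas27 d'.h
      have hsp := ml_split hg (li pre) (lin suf) d.s (chs 0) (chs d.h) (ind d.h) (1 / 2) (1 / 2)
        hinc hpre hsuf (chs_meas27 0) (chs_meas27 d.h) (by
          intro z hz
          unfold ind chs
          rw [if_neg (not_lt.2 hz.le)]
          by_cases hz2 : z < d.h
          · rw [if_pos hz2, if_neg (not_le.2 hz2)]
            norm_num
          · rw [if_neg hz2, if_pos (not_lt.1 hz2)]
            norm_num)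
      rw [hsp, add_div, mul_div_assoc, mul_div_assoc]
      refine ((i0.const_mul (1 / 2)).add (i1.const_mul (1 / 2))).congr (fun n => ?_)
      rw [← avg_smul, ← avg_smul, ← avg_add]
      refine avg_congr fun ω _ => ?_
      have e0 : ev (pre ++ [d0]) n = ev pre n ++ [(d.l n, 0)] := by
        unfold ev
        simp [hd0]
      have e1 : ev (pre ++ [d]) n = ev pre n ++ [(d.l n, d.c n)] := by
        unfold ev
        simp
      have e2 : ev (d :: suf) n = (d.l n, d.c n) :: ev suf n := by
        unfold ev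
        simp
      rw [e0, e1, e2, sgp_append27, sgp_append27, same_cons27]
      have e3 : sig27 n ω (d.l n, 0) = 1 := by
        unfold sig27
        simp
      rw [e3]
      ring
  have hfin := claim D [] (by simpa using hne) (by simpa using hD)
  have e1 : li [] ++ lin D = lin D := by
    unfold li
    simp
  rw [e1, List.nil_append] at hfin
  refine hfin.congr (fun n => ?_)
  unfold PJ
  refine avg_congr fun ω _ => ?_
  have e2 : sgp n (ev [] n) ω = 1 := by
    unfold ev
    simp [sgp]
  rw [e2, one_mul]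

end Pool.Agent.Helper49.RD
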